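import Pool.Agent.Y711.Prop

/-!
Statements of the sieve.
-/

set_option autoImplicit false

open Polynomial Classical

namespace Pool.Agent.Y711

open Pool.Agent.W313.Hyp

section

variable {k : Type} [Field k] [Finite k]

/-- the monic prime divisors -/
noncomputable def pd (M : k[X]) : Finset (MI k) :=
  if h : {P : MI k | P.1 ∣ M}.Finite then h.toFinset else ∅

/-- the norm -/
noncomputable def nm (P : MI k) : ℝ := (Nat.card k : ℝ) ^ P.1.natDegree

/-- solutions with `D` prime to `n` -/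
noncomputable def SFn (g : ℕ) (m n : k[X]) : Finset (k[X] × k[X] × k[X] × k[X]) :=
  (SF g m).filter fun x => ∃ D, IsD g m D ∧ IsSol g D x.1 x.2.1 x.2.2.1 x.2.2.2 ∧ IsCoprime D n

/-- the product of the local densities -/
noncomputable def wmn (m n : k[X]) : ℝ :=
  (∏ P ∈ pd m, (nm P)⁻¹ * (1 - (nm P)⁻¹) * (1 - ((nm P)⁻¹) ^ 2) ^ 2) *
    ∏ P ∈ pd n, (1 - (nm P)⁻¹) * (1 - ((nm P)⁻¹) ^ 2) ^ 2

end

/-- the upper bound for the number of solutions -/
def StS1 (k : Type) [Field k] [Finite k] : Prop :=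
  ∀ m n : k[X], m.Monic → n.Monic → Squarefree (m * n) → ∀ ε : ℝ, 0 < ε →
    ∃ N : ℕ, ∀ g, N ≤ g → ((SFn g m n).card : ℝ) ≤
      (Nat.card k : ℝ) ^ (2 * g + 1) *
        (((Nat.card k : ℝ) / (Nat.card k - 1)) ^ 2 * wmn m n + ε)

/-- the lower bound for the number of the polynomials `D` -/
def StS2 (k : Type) [Field k] [Finite k] : Prop :=
  ∀ m : k[X], m.Monic → Squarefree m → ∀ ε : ℝ, 0 < ε →
    ∃ N : ℕ, ∀ g, N ≤ g → (Nat.card k : ℝ) ^ (2 * g + 1) *
      ((1 - (Nat.card k : ℝ)⁻¹) * (∏ P ∈ pd m, (nm P + 1)⁻¹) - ε) ≤ ((DS g m).card : ℝ)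

end Pool.Agent.Y711
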