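import Pool.Agent.Y711.LE

/-!
Scaling of the variable.
-/

set_option autoImplicit false
set_option maxHeartbeats 1000000

open Polynomial

namespace Pool.Agent.Y711

open Pool.Agent.W313.Hyp Pool.Agent.W343.BSD Pool.Agent.Y784.FC

section scale

variable {F : Type} [Field F]

theorem comp_comp_scale {c : F} (hc : c ≠ 0) (p : F[X]) :
    (p.comp (C c * X)).comp (C c⁻¹ * X) = p := by
  rw [comp_assoc, mul_comp, C_comp, X_comp, ← mul_assoc, ← C_mul, mul_inv_cancel₀ hc, C_1, one_mul,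
    comp_X]

/-- the substitution as an automorphism -/
noncomputable def scl (c : F) (hc : c ≠ 0) : F[X] ≃+* F[X] where
  toFun p := p.comp (C c * X)
  invFun p := p.comp (C c⁻¹ * X)
  left_inv p := comp_comp_scale hc p
  right_inv p := by
    have := comp_comp_scale (inv_ne_zero hc) p
    rwa [inv_inv] at this
  map_mul' _ _ := mul_comp _ _ _
  map_add' _ _ := add_comp

theorem scl_apply (c : F) (hc : c ≠ 0) (p : F[X]) : scl c hc p = p.comp (C c * X) := rfl

theorem scl_natDegree (c : F) (hc : c ≠ 0) (p : F[X]) : (scl c hc p).natDegree = p.natDegree := by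
  rw [scl_apply, natDegree_comp, natDegree_C_mul_X _ hc, mul_one]

theorem scl_lead (c : F) (hc : c ≠ 0) (p : F[X]) :
    (scl c hc p).leadingCoeff = p.leadingCoeff * c ^ p.natDegree := by
  rw [scl_apply, leadingCoeff_comp (by rw [natDegree_C_mul_X _ hc]; norm_num), leadingCoeff_C_mul_X]

/-- the image of a closed point -/
noncomputable def sclP (c : F) (hc : c ≠ 0) (P : MI F) : MI F :=
  ⟨C (c ^ P.1.natDegree)⁻¹ * scl c hc P.1, by
    rw [Monic, leadingCoeff_mul, leadingCoeff_C, scl_lead, P.2.1.leadingCoeff, one_mul,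
      inv_mul_cancel₀ (pow_ne_zero _ hc)], by
    have hu : IsUnit (C (c ^ P.1.natDegree)⁻¹ : F[X]) :=
      isUnit_C.2 (inv_ne_zero (pow_ne_zero _ hc)).isUnit
    rw [irreducible_isUnit_mul hu]
    exact (MulEquiv.irreducible_iff (scl c hc)).2 P.2.2⟩

theorem sclP_assoc (c : F) (hc : c ≠ 0) (P : MI F) :
    Associated (sclP c hc P).1 (scl c hc P.1) := by
  have hu : IsUnit (C (c ^ P.1.natDegree)⁻¹ : F[X]) :=
    isUnit_C.2 (inv_ne_zero (pow_ne_zero _ hc)).isUnit
  exact associated_unit_mul_left _ _ hu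

theorem sclP_inv (c : F) (hc : c ≠ 0) (P : MI F) :
    sclP c⁻¹ (inv_ne_zero hc) (sclP c hc P) = P := by
  apply eq_of_dvd_MI
  have h1 := (sclP_assoc c⁻¹ (inv_ne_zero hc) (sclP c hc P)).dvd
  have h2 := map_dvd (scl c⁻¹ (inv_ne_zero hc)) (sclP_assoc c hc P).dvd
  have h3 : scl c⁻¹ (inv_ne_zero hc) (scl c hc P.1) = P.1 := comp_comp_scale hc P.1
  rw [h3] at h2
  exact h1.trans h2

theorem chi_scl (c : F) (hc : c ≠ 0) (h : F[X]) (P : MI F) :
    chi (scl c hc h) (sclP c hc P).1 = chi h P.1 := by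
  have hd : ∀ g : F[X], (sclP c hc P).1 ∣ scl c hc g ↔ P.1 ∣ g := by
    intro g
    rw [(sclP_assoc c hc P).dvd_iff_dvd_left]
    exact map_dvd_iff (scl c hc)
  have h2 : (∃ s : F[X], (sclP c hc P).1 ∣ scl c hc h - s ^ 2) ↔ (∃ s : F[X], P.1 ∣ h - s ^ 2) := by
    constructor
    · rintro ⟨s, hs⟩
      refine ⟨(scl c hc).symm s, ?_⟩
      rw [← hd, map_sub, map_pow, RingEquiv.apply_symm_apply]
      exact hs
    · rintro ⟨s, hs⟩
      refine ⟨scl c hc s, ?_⟩
      rw [← map_pow, ← map_sub, hd]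
      exact hs
  unfold chi
  by_cases h3 : P.1 ∣ h
  · rw [if_pos h3, if_pos ((hd h).2 h3)]
  · rw [if_neg h3, if_neg (fun h => h3 ((hd _).1 h))]
    by_cases h4 : ∃ s : F[X], P.1 ∣ h - s ^ 2
    · rw [if_pos h4, if_pos (h2.mpr h4)]
    · rw [if_neg h4, if_neg (fun h => h4 (h2.mp h))]

theorem E3_scl [Finite F] (c : F) (hc : c ≠ 0) (h : F[X]) : E3 (scl c hc h) = E3 h := by
  unfold E3
  rw [← eulerProd_fiber (d := fun P : MI F => P.1.natDegree) (fun n => finite_deg_le n)
    (fun n => finite_deg_le n) (fun Q => one_sub_dvd _ _) (fun P => {sclP c hc P}) ?_ ?_ ?_]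
  · congr 1
    funext P
    rw [Finset.prod_singleton, chi_scl, natDegree_eq_of_degree_eq
      (degree_eq_degree_of_associated (sclP_assoc c hc P)), scl_natDegree]
  · intro Q
    refine ⟨sclP c⁻¹ (inv_ne_zero hc) Q, ?_⟩
    rw [Finset.mem_singleton]
    have := sclP_inv c⁻¹ (inv_ne_zero hc) Q
    simp only [inv_inv] at this
    exact this.symm
  · intro P Q R hP hQ
    rw [Finset.mem_singleton] at hP hQ
    have h1 := sclP_inv c hc P
    have h2 := sclP_inv c hc Q
    rw [← hP] at h1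
    rw [← hQ] at h2
    exact h1.symm.trans h2
  · intro P Q hQ
    rw [Finset.mem_singleton] at hQ
    rw [hQ, natDegree_eq_of_degree_eq (degree_eq_degree_of_associated (sclP_assoc c hc P)),
      scl_natDegree]

end scale

end Pool.Agent.Y711
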