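import Pool.Agent.Y711.Co

/-!
Congruences for the twisted sums over the base of products of families of curves.
-/

set_option autoImplicit false
set_option maxHeartbeats 1000000

open Polynomial

namespace Pool.Agent.Y711

open Pool.Agent.W313.Hyp Pool.Agent.W343.BSD Pool.Agent.Y784.FC Module

section ring

variable {R : Type} [CommRing R]

theorem one_add_pow {x : R} (hx : x ^ 2 = 1) (n : ℕ) : (1 + x) ^ (n + 1) = 2 ^ n * (1 + x) := by
  induction n with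
  | zero => simp
  | succ n ih =>
    rw [pow_succ, ih, pow_succ]
    linear_combination (2 ^ n) * hx

theorem prod_dvd {n : ℕ} (hn : n ≠ 0) (a : Fin n → R) (γ : Fin n → R) {x M : R}
    (hx : M ∣ x ^ 2 - 1) (ha : ∀ i, M ∣ a i + γ i * (1 + x)) :
    M ∣ ∏ i, a i - (∏ i, -γ i) * 2 ^ (n - 1) * (1 + x) := by
  rw [← Ideal.mem_span_singleton, ← Ideal.Quotient.eq]
  set φ := Ideal.Quotient.mk (Ideal.span {M}) with hφ
  have h1 : φ x ^ 2 = 1 := by
    rw [← map_pow, ← map_one φ, Ideal.Quotient.eq, Ideal.mem_span_singleton]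
    exact hx
  have h2 : ∀ i, φ (a i) = -φ (γ i) * (1 + φ x) := by
    intro i
    rw [← map_one φ, ← map_add, ← map_neg, ← map_mul, Ideal.Quotient.eq,
      Ideal.mem_span_singleton]
    have := ha i
    rwa [neg_mul, sub_neg_eq_add]
  rw [map_prod, map_mul, map_mul, map_prod, map_pow, map_add, map_one]
  simp only [h2]
  rw [Finset.prod_mul_distrib, Finset.prod_const, Finset.card_univ, Fintype.card_fin]
  have h3 : (1 + φ x) ^ n = 2 ^ (n - 1) * (1 + φ x) := by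
    have h4 := one_add_pow h1 (n - 1)
    rwa [Nat.sub_add_cancel (Nat.pos_of_ne_zero hn)] at h4
  rw [h3]
  simp only [map_neg, map_ofNat]
  ring

end ring

section

variable {k : Type} [Field k] [Finite k]

theorem card_RF (P : MI k) : Nat.card (RF P) = Nat.card k ^ P.1.natDegree := by
  have : Module.Finite k (RF P) := P.2.1.finite_adjoinRoot
  rw [Module.natCard_eq_pow_finrank (K := k), finrank_RF]

/-- The fibre over the closed point `P`. -/
noncomputable def fib (c α β : k[X]) (e : ℕ) (P : MI k) : (RF P)[X] :=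
  torsionCurve (AdjoinRoot.mk P.1 c) (AdjoinRoot.mk P.1 α) (AdjoinRoot.mk P.1 β) e

/-- The twisted sum over the points of degree `r` of the base. -/
noncomputable def AA {n : ℕ} (D : k[X]) (c α β : Fin n → k[X]) (e : Fin n → ℕ) (r : ℕ) : ℤ :=
  ∑ P ∈ (finite_deg_le (F := k) r).toFinset,
    if P.1.natDegree ∣ r then P.1.natDegree • (chi D P.1 ^ (r / P.1.natDegree) *
      ∏ i, Sg (fib (c i) (α i) (β i) (e i) P) (r / P.1.natDegree)) else 0

/-- The constant. -/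
noncomputable def kapZ {n : ℕ} (e : Fin n → ℕ) : ℤ :=
  (∏ i, -(((3 * 3 ^ e i - 1) / 2 : ℕ) : ℤ)) * 2 ^ (n - 1)

omit [Finite k] in
theorem fib_ne {m : k[X]} {c α β : k[X]} (h : ∃ r, c * β * (4 * α ^ 3 - 27 * (c * β)) ∣ m ^ r)
    {P : MI k} (hP : ¬ P.1 ∣ m) : AdjoinRoot.mk P.1 c ≠ 0 ∧
    AdjoinRoot.mk P.1 c * AdjoinRoot.mk P.1 β *
      (4 * AdjoinRoot.mk P.1 α ^ 3 - 27 * (AdjoinRoot.mk P.1 c * AdjoinRoot.mk P.1 β)) ≠ 0 := by
  obtain ⟨r, hr⟩ := h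
  have h1 : AdjoinRoot.mk P.1 (c * β * (4 * α ^ 3 - 27 * (c * β))) ≠ 0 := by
    intro h0
    rw [AdjoinRoot.mk_eq_zero] at h0
    exact hP (P.2.2.prime.dvd_of_dvd_pow (h0.trans hr))
  have h2 : AdjoinRoot.mk P.1 c * AdjoinRoot.mk P.1 β *
      (4 * AdjoinRoot.mk P.1 α ^ 3 - 27 * (AdjoinRoot.mk P.1 c * AdjoinRoot.mk P.1 β)) ≠ 0 := by
    simp only [map_mul, map_sub, map_pow, map_ofNat] at h1
    exact h1
  refine ⟨?_, h2⟩
  intro h0
  apply h2
  rw [h0]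
  ring

theorem q_sq (h3 : (3 : k) ≠ 0) (j : ℕ) :
    (3 * j : ℤ_[3]) ∣ (((Nat.card k : ℕ) : ℤ_[3]) ^ j) ^ 2 - 1 := by
  rw [← pow_mul, mul_comm j 2, pow_mul]
  apply pow_sub_dvd
  have h1 := three_mod h3
  have h4 : 3 ∣ (Nat.card k) ^ 2 - 1 := by
    have h5 : Nat.card k % 3 = 1 ∨ Nat.card k % 3 = 2 := by omega
    have h6 : (Nat.card k) ^ 2 % 3 = 1 := by
      rcases h5 with h | h <;> rw [Nat.pow_mod, h]
    omega
  obtain ⟨u, hu⟩ := h4
  have h7 : 1 ≤ (Nat.card k) ^ 2 := Nat.one_le_pow _ _ Nat.card_pos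
  refine ⟨(u : ℤ_[3]), ?_⟩
  have h8 : (Nat.card k) ^ 2 = 3 * u + 1 := by omega
  have h9 := congrArg (fun x : ℕ => (x : ℤ_[3])) h8
  push_cast at h9
  linear_combination h9

theorem Sg_def (h : k[X]) (e : ℕ) : Sg h e = ∑ Q ∈ (finite_deg_le (F := k) e).toFinset,
    if e ≠ 0 ∧ Q.1.natDegree ∣ e then (Q.1.natDegree : ℤ) * chi h Q.1 ^ (e / Q.1.natDegree) else 0 :=
  rfl

/-- **The congruence for the twisted sums.** -/
theorem AA_cong (h2 : (2 : k) ≠ 0) (h3 : (3 : k) ≠ 0) {n : ℕ} (hn : n ≠ 0) {m D : k[X]}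
    (hmD : m ∣ D) (c α β : Fin n → k[X]) (e : Fin n → ℕ)
    (hg : ∀ i, ∃ r, c i * β i * (4 * α i ^ 3 - 27 * (c i * β i)) ∣ m ^ r) {r : ℕ} (hr : r ≠ 0) :
    (3 * r : ℤ_[3]) ∣ ((AA D c α β e r : ℤ) : ℤ_[3]) -
      (kapZ e : ℤ_[3]) * (1 + ((Nat.card k : ℕ) : ℤ_[3]) ^ r) * ((Sg D r : ℤ) : ℤ_[3]) := by
  unfold AA
  rw [Sg_def D r, Int.cast_sum, Int.cast_sum, Finset.mul_sum, ← Finset.sum_sub_distrib]
  refine Finset.dvd_sum fun P _ => ?_
  by_cases hd : P.1.natDegree ∣ r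
  · rw [if_pos hd, if_pos ⟨hr, hd⟩]
    obtain ⟨j, hj⟩ := hd
    have hd0 : 0 < P.1.natDegree := MI.deg_pos P
    have hj0 : j ≠ 0 := by
      rintro rfl
      exact hr hj
    rw [hj, Nat.mul_div_cancel_left _ hd0]
    by_cases hP : P.1 ∣ m
    · have h4 : chi D P.1 = 0 := by
        classical
        unfold chi
        rw [if_pos (hP.trans hmD)]
      rw [h4, zero_pow hj0]
      simp
    · have h2' := two_RF h2 P
      have h3' := three_RF h3 P
      have h5 : ∀ i, (3 * j : ℤ_[3]) ∣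
          ((Sg (fib (c i) (α i) (β i) (e i) P) j : ℤ) : ℤ_[3]) +
          (((3 * 3 ^ e i - 1) / 2 : ℕ) : ℤ_[3]) * (1 + ((Nat.card (RF P) : ℕ) : ℤ_[3]) ^ j) :=
        fun i => Sg_tor h2' h3' (fib_ne (hg i) hP) (e i) hj0
      have h6 := prod_dvd hn (fun i => ((Sg (fib (c i) (α i) (β i) (e i) P) j : ℤ) : ℤ_[3]))
        (fun i => (((3 * 3 ^ e i - 1) / 2 : ℕ) : ℤ_[3])) (q_sq h3' j) h5
      have h7 : ((Nat.card (RF P) : ℕ) : ℤ_[3]) ^ j =
          ((Nat.card k : ℕ) : ℤ_[3]) ^ (P.1.natDegree * j) := by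
        rw [card_RF, pow_mul]
        push_cast
        rfl
      rw [h7] at h6
      obtain ⟨w, hw⟩ := h6
      refine ⟨(chi D P.1 : ℤ_[3]) ^ j * w, ?_⟩
      have h8 : (kapZ e : ℤ_[3]) = (∏ i, -(((3 * 3 ^ e i - 1) / 2 : ℕ) : ℤ_[3])) * 2 ^ (n - 1) := by
        unfold kapZ
        push_cast
        rfl
      rw [h8]
      push_cast
      rw [nsmul_eq_mul]
      push_cast
      linear_combination ((P.1.natDegree : ℤ_[3]) * (chi D P.1 : ℤ_[3]) ^ j) * hw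
  · rw [if_neg hd, if_neg (fun h => hd h.2)]
    simp

end

end Pool.Agent.Y711
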