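import Pool.Agent.Y711.LK

/-!
Ramification in Galois extensions of `k[t]` of degree a power of three is tame, hence happens only at
residue fields with `1` modulo `3` elements.
-/

set_option autoImplicit false
set_option maxHeartbeats 1000000
set_option synthInstance.maxHeartbeats 400000

open Polynomial

namespace Pool.Agent.Y711

open Pool.Agent.W313.Hyp Pool.Agent.W343.BSD Pool.Agent.Y784.FC

/-- the cube roots of unity of a finite field with `2` modulo `3` elements -/
theorem cube_root_one {F : Type} [Field F] [Finite F] (h : Nat.card F % 3 = 2) {x : F} (hx : x ^ 3 = 1) :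
    x = 1 := by
  classical
  have := Fintype.ofFinite F
  rw [Nat.card_eq_fintype_card] at h
  have hx0 : x ≠ 0 := by
    rintro rfl
    norm_num at hx
  have h1 := FiniteField.pow_card_sub_one_eq_one x hx0
  obtain ⟨i, hi⟩ : ∃ i, Fintype.card F - 1 = 3 * i + 1 := ⟨Fintype.card F / 3, by omega⟩
  rw [hi, pow_succ, pow_mul, hx, one_pow, one_mul] at h1
  exact h1

section

variable {B : Type} [CommRing B] [IsDedekindDomain B] {G : Type} [Group G]
  [MulSemiringAction G B]

/-- an inertia element of order three acts trivially on the graded pieces -/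
theorem inertia_step {𝔓 : Ideal B} [𝔓.IsMaximal] (h0 : 𝔓 ≠ ⊥) [Finite (B ⧸ 𝔓)]
    (hc : Nat.card (B ⧸ 𝔓) % 3 = 2) {σ : G} (hσ : ∀ x : B, σ • x - x ∈ 𝔓) (hσ3 : σ ^ 3 = 1)
    (n : ℕ) : ∀ x ∈ 𝔓 ^ n, σ • x - x ∈ 𝔓 ^ (n + 1) := by
  let _ : Field (B ⧸ 𝔓) := Ideal.Quotient.field _
  have hstab : ∀ x ∈ 𝔓, σ • x ∈ 𝔓 := by
    intro x hx
    have := 𝔓.add_mem (hσ x) hx
    rwa [sub_add_cancel] at this
  have hpow : ∀ m : ℕ, ∀ x ∈ 𝔓 ^ m, σ • x ∈ 𝔓 ^ m := by
    intro m x hx
    have h1 : 𝔓 ^ m ≤ (𝔓 ^ m).comap (MulSemiringAction.toRingHom G B σ) := by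
      rw [← Ideal.map_le_iff_le_comap, Ideal.map_pow]
      apply Ideal.pow_right_mono
      rw [Ideal.map_le_iff_le_comap]
      exact fun y hy => hstab y hy
    exact h1 hx
  intro x hx
  by_cases hx1 : x ∈ 𝔓 ^ (n + 1)
  · exact (𝔓 ^ (n + 1)).sub_mem (hpow _ x hx1) hx1
  obtain ⟨d, e, he, hde⟩ := Ideal.exists_mul_add_mem_pow_succ h0 x (σ • x) hx hx1 (hpow n x hx)
  have hlow : ∀ y ∈ 𝔓 ^ n, ∀ z : B, z ∈ 𝔓 → y * z ∈ 𝔓 ^ (n + 1) := by
    intro y hy z hz
    rw [pow_succ]
    exact Ideal.mul_mem_mul hy hz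
  -- `σ x = x d + e`
  have hd3 : x * (d ^ 3 - 1) ∈ 𝔓 ^ (n + 1) := by
    have e1 : σ • (σ • x) - x * (d * d) ∈ 𝔓 ^ (n + 1) := by
      have : σ • (σ • x) - x * (d * d) = (σ • x) * (σ • d - d) + e * d + σ • e := by
        have h5 : σ • (σ • x) = (σ • x) * (σ • d) + σ • e := by
          conv_lhs => rw [← hde]
          rw [smul_add, smul_mul']
        rw [h5, ← hde]
        ring
      rw [this]
      exact Ideal.add_mem _ (Ideal.add_mem _ (hlow _ (hpow n x hx) _ (hσ d))
        (Ideal.mul_mem_right _ _ he)) (hpow _ e he)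
    have e2 : σ • (σ • (σ • x)) - x * (d * d * d) ∈ 𝔓 ^ (n + 1) := by
      have h6 := hpow _ _ e1
      rw [smul_sub, smul_mul', smul_mul'] at h6
      have : σ • (σ • (σ • x)) - x * (d * d * d) =
          (σ • (σ • (σ • x)) - (σ • x) * ((σ • d) * (σ • d))) +
            ((σ • x) * ((σ • d - d) * (σ • d + d)) + e * (d * d)) := by
        have h7 : (σ • x) * ((σ • d - d) * (σ • d + d)) + e * (d * d) =
            (σ • x) * ((σ • d) * (σ • d)) - (σ • x - e) * (d * d) := by ring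
        rw [h7, ← hde]
        ring
      rw [this]
      exact Ideal.add_mem _ h6 (Ideal.add_mem _ (hlow _ (hpow n x hx) _
        (Ideal.mul_mem_right _ _ (hσ d))) (Ideal.mul_mem_right _ _ he))
    have e3 : σ • (σ • (σ • x)) = x := by
      rw [smul_smul, smul_smul, ← pow_two, ← pow_succ, hσ3, one_smul]
    rw [e3] at e2
    have := Ideal.neg_mem_iff _ |>.2 e2
    rw [show x * (d ^ 3 - 1) = -(x - x * (d * d * d)) by ring]
    exact this
  have hd : d ^ 3 - 1 ∈ 𝔓 := by
    by_contra hcon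
    apply hx1
    -- invert `d ^ 3 - 1` modulo `𝔓 ^ (n+1)`
    have hcop : IsCoprime (Ideal.span {d ^ 3 - 1}) (𝔓 ^ (n + 1)) := by
      apply IsCoprime.pow_right
      rw [Ideal.isCoprime_iff_sup_eq]
      by_contra h8
      have h9 : 𝔓 = Ideal.span {d ^ 3 - 1} ⊔ 𝔓 :=
        Ideal.IsMaximal.eq_of_le inferInstance h8 le_sup_right
      apply hcon
      rw [h9]
      exact Ideal.mem_sup_left (Ideal.mem_span_singleton_self _)
    rw [Ideal.isCoprime_iff_exists] at hcop
    obtain ⟨u, hu, v, hv, huv⟩ := hcop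
    obtain ⟨w, rfl⟩ := Ideal.mem_span_singleton'.1 hu
    have : x = w * (x * (d ^ 3 - 1)) + x * v := by
      linear_combination x * (-huv)
    rw [this]
    exact Ideal.add_mem _ (Ideal.mul_mem_left _ _ hd3) (Ideal.mul_mem_left _ _ hv)
  have hd1 : d - 1 ∈ 𝔓 := by
    rw [← Ideal.Quotient.eq_zero_iff_mem, map_sub, map_one, sub_eq_zero] at hd ⊢
    rw [map_pow] at hd
    exact cube_root_one hc hd
  rw [← hde, show x * d + e - x = x * (d - 1) + e by ring]
  exact Ideal.add_mem _ (hlow x hx _ hd1) he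

/-- an inertia element of order three is trivial -/
theorem inertia_trivial [FaithfulSMul G B] {𝔓 : Ideal B} [𝔓.IsMaximal] (h0 : 𝔓 ≠ ⊥)
    [Finite (B ⧸ 𝔓)] (hc : Nat.card (B ⧸ 𝔓) % 3 = 2) (h3 : IsUnit (3 : B)) {σ : G}
    (hσ : ∀ x : B, σ • x - x ∈ 𝔓) (hσ3 : σ ^ 3 = 1) : σ = 1 := by
  have hstep := fun n => inertia_step h0 hc hσ hσ3 n
  have hall : ∀ n : ℕ, ∀ x : B, σ • x - x ∈ 𝔓 ^ (n + 1) := by
    intro n
    induction n with
    | zero =>
      intro x
      rw [zero_add, pow_one]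
      exact hσ x
    | succ n ih =>
      intro x
      have a1 : σ • (σ • x - x) - (σ • x - x) ∈ 𝔓 ^ (n + 1 + 1) := hstep (n + 1) _ (ih x)
      have a1' : σ • (σ • x - x) - (σ • x - x) ∈ 𝔓 ^ (n + 1) :=
        Ideal.pow_le_pow_right (by omega) a1
      have a2 := hstep (n + 1) _ a1'
      have e3 : σ • (σ • (σ • x)) = x := by
        rw [smul_smul, smul_smul, ← pow_two, ← pow_succ, hσ3, one_smul]
      have a3 : (3 : B) * (σ • x - x) ∈ 𝔓 ^ (n + 1 + 1) := by
        have : (3 : B) * (σ • x - x) = -(3 * (σ • (σ • x - x) - (σ • x - x)) +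
            (σ • (σ • (σ • x - x) - (σ • x - x)) - (σ • (σ • x - x) - (σ • x - x)))) := by
          simp only [smul_sub, e3]
          ring
        rw [this]
        exact Ideal.neg_mem_iff _ |>.2 (Ideal.add_mem _ (Ideal.mul_mem_left _ _ a1) a2)
      obtain ⟨u, hu⟩ := h3
      have : σ • x - x = (u⁻¹ : Bˣ) * (3 * (σ • x - x)) := by
        rw [← hu, ← mul_assoc, Units.inv_mul, one_mul]
      rw [this]
      exact Ideal.mul_mem_left _ _ a3
  apply FaithfulSMul.eq_of_smul_eq_smul (α := B)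
  intro x
  rw [one_smul, ← sub_eq_zero]
  have hbot : ⨅ i : ℕ, 𝔓 ^ i = ⊥ :=
    Ideal.iInf_pow_eq_bot_of_isDomain 𝔓 (Ideal.IsMaximal.ne_top inferInstance)
  have : σ • x - x ∈ ⨅ i : ℕ, 𝔓 ^ i := by
    rw [Ideal.mem_iInf]
    intro n
    exact Ideal.pow_le_pow_right (by omega) (hall n x)
  rw [hbot] at this
  exact this

end

section galois

variable {k : Type} [Field k] [Finite k] {B : Type} [CommRing B] [IsDedekindDomain B]
  [Algebra k[X] B] [Module.Finite k[X] B] [Module.Flat k[X] B]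
  (G : Type) [Group G] [Finite G] [MulSemiringAction G B] [IsGaloisGroup G k[X] B]

include G in
/-- the residue fields at the ramified primes -/
theorem tame_card (h3 : (3 : k) ≠ 0) {j : ℕ} (hG : Nat.card G = 3 ^ j) (P : MI k)
    (hP : (sp P).ramificationIdxIn B ≠ 1) :
    (Nat.card k ^ P.1.natDegree) % 3 = 1 := by
  classical
  have hp : Fact (Nat.Prime 3) := ⟨Nat.prime_three⟩
  by_contra hcon
  obtain ⟨𝔓⟩ := (inferInstance : Nonempty ((sp P).primesOver B))
  obtain ⟨𝔓, h𝔓⟩ := 𝔓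
  rw [primesOver_eq] at h𝔓
  obtain ⟨hmax, hov⟩ := h𝔓
  have hfaith : FaithfulSMul G B := IsGaloisGroup.faithful k[X]
  have hfin : Finite (k[X] ⧸ sp P) := finRF P
  have hperf : PerfectField (sp P).ResidueField := by
    let _ : Field (k[X] ⧸ sp P) := Ideal.Quotient.field _
    have hb := Ideal.bijective_algebraMap_quotient_residueField (sp P)
    have : Finite (sp P).ResidueField := Finite.of_surjective _ hb.2
    infer_instance
  have h1 := Ideal.card_inertia_eq_ramificationIdxIn (G := G) (sp P) 𝔓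
  rw [← h1] at hP
  -- an element of order three
  have h4 : Nat.card (𝔓.inertia G) ∣ 3 ^ j := by
    rw [← hG]
    exact Subgroup.card_subgroup_dvd_card _
  obtain ⟨i, -, hi⟩ := (Nat.dvd_prime_pow Nat.prime_three).1 h4
  have hi0 : i ≠ 0 := by
    rintro rfl
    rw [pow_zero] at hi
    exact hP hi
  have h5 : 3 ∣ Nat.card (𝔓.inertia G) := by
    rw [hi]
    exact dvd_pow_self 3 hi0
  obtain ⟨σ, hσ⟩ := exists_prime_orderOf_dvd_card' 3 h5
  have hσ1 : (σ : G) ≠ 1 := by
    intro h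
    have h6 : σ = 1 := Subtype.ext h
    rw [h6, orderOf_one] at hσ
    norm_num at hσ
  have hσ3 : (σ : G) ^ 3 = 1 := by
    have h6 : σ ^ 3 = 1 := by rw [← hσ]; exact pow_orderOf_eq_one σ
    have := congrArg (fun τ : 𝔓.inertia G => (τ : G)) h6
    simpa using this
  -- the residue field
  obtain ⟨f, hf⟩ := f_pow G (B := B) hG P
  rw [Ideal.inertiaDegIn_eq_inertiaDeg (sp P) 𝔓 G] at hf
  have hcard := card_over (k := k) 𝔓 P
  rw [hf, pow_mul] at hcard
  have hq3 : Nat.card k % 3 ≠ 0 := by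
    intro h
    have h7 : 3 ∣ Nat.card k := Nat.dvd_of_mod_eq_zero h
    have := Fintype.ofFinite k
    obtain ⟨p, hchar⟩ := CharP.exists k
    have hpp : p.Prime := (CharP.char_is_prime_or_zero k p).resolve_right
      (CharP.char_ne_zero_of_finite k p)
    obtain ⟨n, hprime, hn⟩ := FiniteField.card k p
    rw [Nat.card_eq_fintype_card, hn] at h7
    have h8 : 3 ∣ p := Nat.prime_three.dvd_of_dvd_pow h7
    have h9 : 3 = p := (Nat.prime_dvd_prime_iff_eq Nat.prime_three hpp).1 h8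
    apply h3
    rw [← h9] at hchar
    exact_mod_cast CharP.cast_eq_zero k 3
  set c := Nat.card k ^ P.1.natDegree with hc
  have hc0 : c % 3 ≠ 0 := by
    intro h
    have h7 : 3 ∣ Nat.card k ^ P.1.natDegree := Nat.dvd_of_mod_eq_zero h
    exact hq3 (Nat.mod_eq_zero_of_dvd (Nat.prime_three.dvd_of_dvd_pow h7))
  have hc2 : c % 3 = 2 := by omega
  have hodd : Odd (3 ^ f) := Odd.pow (by decide)
  have hcard2 : Nat.card (B ⧸ 𝔓) % 3 = 2 := by
    rw [hcard]
    obtain ⟨i, hi⟩ := hodd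
    rw [hi, pow_succ, pow_mul, Nat.mul_mod, Nat.pow_mod, Nat.pow_mod c 2, hc2]
    norm_num
  have hfinq : Finite (B ⧸ 𝔓) := finite_quot k 𝔓
  have hne : 𝔓 ≠ ⊥ := by
    rintro rfl
    have h8 : sp P = ⊥ := by
      have h9 : sp P = (⊥ : Ideal B).under k[X] := hov.over
      rw [h9]
      have : FaithfulSMul k[X] B := inferInstance
      exact Ideal.under_bot k[X] B
    rw [Ideal.span_singleton_eq_bot] at h8
    exact P.2.2.ne_zero h8
  have h3B : IsUnit (3 : B) := by
    have h9 : IsUnit (algebraMap k[X] B (C (3 : k))) :=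
      ((Ne.isUnit h3).map (C : k →+* k[X])).map (algebraMap k[X] B)
    have h10 : algebraMap k[X] B (C (3 : k)) = 3 := by rw [map_ofNat, map_ofNat]
    rwa [h10] at h9
  exact hσ1 (inertia_trivial hne hcard2 h3B (σ := (σ : G)) (fun x => σ.2 x) hσ3)

end galois

end Pool.Agent.Y711
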