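import Pool.Agent.Y711.Cum

/-!
The values at `1` and `1 / q` of the `L`-function of a quadratic character, and nonvanishing modulo
three, for every finite field of characteristic at least five.
-/

set_option autoImplicit false
set_option maxHeartbeats 1000000

open PowerSeries

namespace Pool.Agent.Y711

open Pool.Agent.TH943.HJ Pool.Agent.W313.Hyp Pool.Agent.W343.BSD

section scale

variable {R : Type} [CommRing R]

theorem coe_comp_scale (w : Polynomial R) (a : R) :
    ((w.comp (Polynomial.C a * Polynomial.X) : Polynomial R) : PowerSeries R) =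
      rescale a (w : PowerSeries R) := by
  ext n
  rw [Polynomial.coeff_coe, Polynomial.comp_C_mul_X_coeff, coeff_rescale, Polynomial.coeff_coe,
    mul_comm]

theorem eval_comp_scale (w : Polynomial R) (a b : R) :
    (w.comp (Polynomial.C a * Polynomial.X)).eval b = w.eval (a * b) := by
  rw [Polynomial.eval_comp, Polynomial.eval_mul, Polynomial.eval_C, Polynomial.eval_X]

theorem rescale_dvd (a : R) {n : ℕ} {f : PowerSeries R} (h : (X : PowerSeries R) ^ n ∣ f) :
    (X : PowerSeries R) ^ n ∣ rescale a f := by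
  rw [X_pow_dvd_iff] at h ⊢
  intro m hm
  rw [coeff_rescale, h m hm, mul_zero]

theorem rescale_dvd_one (a : R) {n : ℕ} {f : PowerSeries R} (h : (X : PowerSeries R) ^ n ∣ f - 1) :
    (X : PowerSeries R) ^ n ∣ rescale a f - 1 := by
  have h1 := rescale_dvd a h
  rwa [map_sub, map_one] at h1

theorem rescale_eulerProd {J : Type*} {d : J → ℕ} (hfin : ∀ n, {v | d v ≤ n}.Finite) (a : R)
    {F : J → PowerSeries R} (hF : ∀ v, (X : PowerSeries R) ^ d v ∣ F v - 1) :
    rescale a (eulerProd d F) = eulerProd d (fun v => rescale a (F v)) := by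
  apply eq_of_mod
  intro n
  have h1 := rescale_dvd a (eulerProd_mod hfin hF n (hfin n).toFinset
    (fun i hi => by rw [Set.Finite.mem_toFinset]; exact hi))
  rw [map_sub, map_prod] at h1
  have h2 := eulerProd_mod hfin (fun v => rescale_dvd_one a (hF v)) n (hfin n).toFinset
    (fun i hi => by rw [Set.Finite.mem_toFinset]; exact hi)
  exact mod_trans h1 (mod_symm h2)

end scale

section

variable {k : Type} [Field k] [Finite k]

/-- The inverse of the `L`-function of the quadratic character of `D`. -/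
noncomputable def EZ (D : Polynomial k) : PowerSeries ℤ :=
  eulerProd (fun P : MI k => P.1.natDegree)
    (fun P => 1 - C (chi D P.1) * X ^ P.1.natDegree)

omit [Field k] [Finite k] in
theorem unit3 (h3 : Nat.card k % 3 ≠ 0) : ((Nat.card k : ℕ) : ZMod 3) * ((Nat.card k : ℕ) : ZMod 3) = 1 := by
  have h4 : Nat.card k % 3 = 1 ∨ Nat.card k % 3 = 2 := by omega
  have h5 : ((Nat.card k : ℕ) : ZMod 3) = ((Nat.card k % 3 : ℕ) : ZMod 3) := by
    rw [ZMod.natCast_mod]
  rw [h5]
  rcases h4 with h | h <;> rw [h] <;> decide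

theorem red3_EZ (D : Polynomial k) : red3 (EZ D) = E3 D := by
  unfold EZ E3
  rw [map_eulerProd (fun n => finite_deg_le n)]
  congr 1
  funext P
  rw [map_sub, map_one, map_mul, PowerSeries.map_C, map_pow, PowerSeries.map_X]
  rfl

/-- The `L`-function of the quadratic character of `D` is a polynomial; its value at one is the class
number. -/
theorem exists_WZ (h2 : (2 : k) ≠ 0) {g : ℕ} {D : Polynomial k} (hm : D.Monic)
    (hg : D.natDegree = 2 * g + 1) (hsq : Squarefree D) [IsDedekindDomain (CR D)] :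
    ∃ w : Polynomial ℤ, EZ D * (w : PowerSeries ℤ) = 1 ∧
      w.eval 1 = ((Nat.card (ClassGroup (CR D)) : ℕ) : ℤ) ∧
      (Nat.card k % 3 ≠ 0 → (w.map (Int.castRingHom (ZMod 3))).eval ((Nat.card k : ℕ) : ZMod 3) =
        ((Nat.card (ClassGroup (CR D)) : ℕ) : ZMod 3) * ((Nat.card k : ℕ) : ZMod 3) ^ g) := by
  have hodd : Odd D.natDegree := ⟨g, hg⟩
  obtain ⟨_, hz⟩ := Pool.Agent.Y784.ZC.zeta_CR h2 hm hodd hsq
  obtain ⟨_, ⟨M, hM⟩, _⟩ := Pool.Agent.Y496.CC.class_count h2 hm hg hsq
  obtain ⟨M', hM'⟩ := cum_count h2 hm hg hsq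
  set h := Nat.card (ClassGroup (CR D)) with hh
  set q := Nat.card k with hqd
  have hq : 1 < q := Finite.one_lt_card
  set z : ℕ → ℕ := fun m =>
    Nat.card {I : Ideal (CR D) // Nat.card (CR D ⧸ I) = q ^ m} with hzd
  set Z : PowerSeries ℤ := PowerSeries.mk (fun m => (z m : ℤ)) with hZ
  have hz' : EZ D * (1 - C (q : ℤ) * X) * Z = 1 := by
    have e1 := hz
    rw [eulerProd_mul (fun n => finite_deg_le n) one_dvd' (chi_dvd D), euler_irr] at e1
    unfold EZ
    rw [hZ]
    linear_combination e1
  have hMz : ∀ m, M ≤ m → z m = h * q ^ (m - g) := hM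
  have hrec : ∀ i, g ≤ i → M ≤ i → (z (i + 1) : ℤ) = q * z i := by
    intro i hi hi'
    have e3 : i + 1 - g = (i - g) + 1 := by omega
    rw [hMz (i + 1) (by omega), hMz i hi', e3, pow_succ]
    push_cast
    ring
  set w : Polynomial ℤ := trunc (M + g + 1) ((1 - C (q : ℤ) * X) * Z) with hw
  have hwc : (w : PowerSeries ℤ) = (1 - C (q : ℤ) * X) * Z := by
    ext n
    rw [Polynomial.coeff_coe, hw, coeff_trunc]
    split_ifs with hn
    · rfl
    · obtain ⟨i, rfl⟩ : ∃ i, n = i + 1 := ⟨n - 1, by omega⟩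
      rw [sub_mul, one_mul, mul_assoc, map_sub, coeff_C_mul, coeff_succ_X_mul, hZ, coeff_mk,
        coeff_mk, hrec i (by omega) (by omega), sub_self]
  refine ⟨w, ?_, ?_, ?_⟩
  · rw [hwc, ← mul_assoc]
    exact hz'
  · set S : PowerSeries ℤ := PowerSeries.mk (fun n => ∑ m ∈ Finset.range (n + 1), (z m : ℤ)) with hS
    have hSZ : (1 - X) * S = Z := by
      ext n
      rcases n with _ | n
      · rw [sub_mul, one_mul, map_sub, coeff_zero_X_mul, sub_zero, hS, hZ, coeff_mk, coeff_mk]
        simp
      · rw [sub_mul, one_mul, map_sub, coeff_succ_X_mul, hS, hZ, coeff_mk, coeff_mk, coeff_mk,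
          Finset.sum_range_succ]
        ring
    refine eval_one_tail w ((1 - C (q : ℤ) * X) * S) _ (M' + g + 1) ?_ ?_
    · rw [hwc, ← hSZ]
      ring
    · intro n hn
      obtain ⟨i, rfl⟩ : ∃ i, n = i + 1 := ⟨n - 1, by omega⟩
      rw [sub_mul, one_mul, mul_assoc, map_sub, coeff_C_mul, coeff_succ_X_mul, hS, coeff_mk,
        coeff_mk]
      have e1 := hM' (i + 1) (by omega)
      have e2 := hM' i (by omega)
      have e3 : i + 1 + 1 - g = (i + 1 - g) + 1 := by omega
      rw [e3, pow_succ] at e1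
      have e4 : ((∑ m ∈ Finset.range (i + 1 + 1), z m : ℕ) : ℤ) * ((q : ℤ) - 1) + h =
          h * (q ^ (i + 1 - g) * q) := by
        have := congrArg (fun n : ℕ => (n : ℤ)) e1
        push_cast [Nat.cast_sub hq.le] at this
        push_cast
        exact this
      have e5 : ((∑ m ∈ Finset.range (i + 1), z m : ℕ) : ℤ) * ((q : ℤ) - 1) + h =
          h * (q ^ (i + 1 - g)) := by
        have := congrArg (fun n : ℕ => (n : ℤ)) e2
        push_cast [Nat.cast_sub hq.le] at this
        push_cast
        exact this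
      push_cast at e4 e5
      have hq0 : ((q : ℤ) - 1) ≠ 0 := by
        have : (1 : ℤ) < q := by exact_mod_cast hq
        omega
      apply mul_right_cancel₀ hq0
      linear_combination e4 - q * e5
  · intro h3
    have hu := unit3 h3
    rw [← hqd] at hu
    set a : ZMod 3 := ((q : ℕ) : ZMod 3) with ha
    have e0 : (w.map (Int.castRingHom (ZMod 3))).eval a =
        ((w.map (Int.castRingHom (ZMod 3))).comp (Polynomial.C a * Polynomial.X)).eval 1 := by
      rw [eval_comp_scale, mul_one]
    rw [e0]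
    refine eval_one_tail _ (rescale a (red3 Z)) _ (M + g) ?_ ?_
    · rw [coe_comp_scale, Polynomial.polynomial_map_coe, hwc, map_mul, map_mul]
      congr 1
      rw [map_sub, map_one, map_mul, PowerSeries.map_C, PowerSeries.map_X, map_sub, map_one,
        map_mul, rescale_X]
      have e5 : rescale a (C ((Int.castRingHom (ZMod 3)) (q : ℤ))) = C a := by
        ext n
        rw [coeff_rescale, coeff_C, coeff_C]
        split_ifs with hn
        · rw [hn, pow_zero, one_mul]
          simp [ha]
        · rw [mul_zero]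
      rw [e5, ← mul_assoc, ← map_mul, hu, map_one, one_mul]
    · intro n hn
      rw [coeff_rescale, PowerSeries.coeff_map, hZ, coeff_mk, eq_intCast]
      have e6 : (z n : ℤ) = ((h * q ^ (n - g) : ℕ) : ℤ) := by
        have := hMz n (by omega)
        exact_mod_cast this
      rw [e6]
      push_cast
      rw [← ha]
      obtain ⟨i, rfl⟩ : ∃ i, n = g + i := ⟨n - g, by omega⟩
      have e7 : g + i - g = i := by omega
      rw [e7, pow_add]
      have e8 : a ^ i * a ^ i = 1 := by rw [← mul_pow, hu, one_pow]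
      linear_combination (h : ZMod 3) * a ^ g * e8

/-- **Nonvanishing.** -/
theorem nonvanish_q (h2 : (2 : k) ≠ 0) (h3 : Nat.card k % 3 ≠ 0) {g : ℕ} {m D : Polynomial k}
    (hD : IsD g m D) [IsDedekindDomain (CR D)] (hh : ¬ 3 ∣ Nat.card (ClassGroup (CR D)))
    {F : PowerSeries ℤ} {r : ℕ} {u v : Polynomial (ZMod 3)}
    (hv : v.eval ((Nat.card k : ℕ) : ZMod 3) ≠ 0)
    (hF : red3 F * (E3 D * rescale ((Nat.card k : ℕ) : ZMod 3) (E3 D)) ^ r *
      (u : PowerSeries (ZMod 3)) = (v : PowerSeries (ZMod 3))) :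
    ¬ ∃ G : Polynomial ℤ, F =
      (((1 - Polynomial.C (Nat.card k : ℤ) * Polynomial.X) * G : Polynomial ℤ) : PowerSeries ℤ) := by
  rintro ⟨G, hG⟩
  have hu := unit3 h3
  have hp : Fact (Nat.Prime 3) := ⟨Nat.prime_three⟩
  obtain ⟨wZ, hw0, hw1, hw2⟩ := exists_WZ h2 hD.monic hD.deg hD.sqf
  have hw2' := hw2 h3
  set a : ZMod 3 := ((Nat.card k : ℕ) : ZMod 3) with ha
  have ha0 : a ≠ 0 := by
    rintro h
    rw [h, zero_mul] at hu
    exact zero_ne_one hu
  set w : Polynomial (ZMod 3) := wZ.map (Int.castRingHom (ZMod 3)) with hw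
  have e1 : E3 D * (w : PowerSeries (ZMod 3)) = 1 := by
    have := congrArg red3 hw0
    rw [map_mul, map_one, red3_EZ, ← Polynomial.polynomial_map_coe] at this
    exact this
  have e2 : w.eval 1 = ((Nat.card (ClassGroup (CR D)) : ℕ) : ZMod 3) := by
    rw [hw, Polynomial.eval_map, Polynomial.eval₂_at_one, hw1]
    simp
  set w' : Polynomial (ZMod 3) := w.comp (Polynomial.C a * Polynomial.X) with hw'
  have e3 : rescale a (E3 D) * (w' : PowerSeries (ZMod 3)) = 1 := by
    rw [hw', coe_comp_scale, ← map_mul, e1, map_one]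
  have h4 : red3 F * (u : PowerSeries (ZMod 3)) =
      (((w * w') ^ r * v : Polynomial (ZMod 3)) : PowerSeries (ZMod 3)) := by
    rw [Polynomial.coe_mul, Polynomial.coe_pow, Polynomial.coe_mul]
    calc red3 F * (u : PowerSeries (ZMod 3)) =
        red3 F * ((E3 D * (w : PowerSeries (ZMod 3))) *
          (rescale a (E3 D) * (w' : PowerSeries (ZMod 3)))) ^ r * (u : PowerSeries (ZMod 3)) := by
          rw [e1, e3, mul_one, one_pow, mul_one]
      _ = (red3 F * (E3 D * rescale a (E3 D)) ^ r * (u : PowerSeries (ZMod 3))) *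
          ((w : PowerSeries (ZMod 3)) * (w' : PowerSeries (ZMod 3))) ^ r := by
          rw [mul_pow, mul_pow, mul_pow, mul_pow, mul_pow]; ring
      _ = _ := by rw [hF]; ring
  have h5 : red3 F = (((1 - Polynomial.C a * Polynomial.X) * G.map (Int.castRingHom (ZMod 3)) :
      Polynomial (ZMod 3)) : PowerSeries (ZMod 3)) := by
    rw [hG, ← Polynomial.polynomial_map_coe, Polynomial.map_mul, Polynomial.map_sub,
      Polynomial.map_one, Polynomial.map_mul, Polynomial.map_C, Polynomial.map_X, eq_intCast,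
      Int.cast_natCast]
  rw [h5, ← Polynomial.coe_mul] at h4
  have h6 := Polynomial.coe_injective (ZMod 3) h4
  have h7 := congrArg (Polynomial.eval a) h6
  rw [Polynomial.eval_mul, Polynomial.eval_mul, Polynomial.eval_mul, Polynomial.eval_pow,
    Polynomial.eval_mul, Polynomial.eval_sub, Polynomial.eval_one, Polynomial.eval_mul,
    Polynomial.eval_C, Polynomial.eval_X, hw', eval_comp_scale, hu, sub_self, zero_mul, zero_mul,
    e2, hw2'] at h7
  have h8 : ((Nat.card (ClassGroup (CR D)) : ℕ) : ZMod 3) = 0 := by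
    rcases mul_eq_zero.1 h7.symm with h | h
    · rcases mul_eq_zero.1 (eq_zero_of_pow_eq_zero h) with h' | h'
      · rcases mul_eq_zero.1 h' with h'' | h''
        · exact h''
        · exact absurd (eq_zero_of_pow_eq_zero h'') ha0
      · exact h'
    · exact absurd h hv
  rw [ZMod.natCast_eq_zero_iff] at h8
  exact hh h8

end

end Pool.Agent.Y711
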