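import Pool.Agent.Y711.LE
import Pool.Agent.Y711.WG
import Pool.Agent.Y711.Tame

/-!
Nonvanishing over Galois extensions of degree a power of three.
-/

set_option autoImplicit false
set_option maxHeartbeats 1000000
set_option synthInstance.maxHeartbeats 400000

open PowerSeries

namespace Pool.Agent.Y711

open Pool.Agent.TH943.HJ Pool.Agent.W313.Hyp Pool.Agent.W343.BSD

section

variable {k : Type} [Field k] [Finite k]

omit [Finite k] in
theorem card_pow_cast {n : ℕ} (h : (Nat.card k ^ n) % 3 = 1) :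
    ((Nat.card k : ℕ) : ZMod 3) ^ n = 1 := by
  have h1 : ((Nat.card k ^ n : ℕ) : ZMod 3) = ((1 : ℕ) : ZMod 3) := by
    rw [ZMod.natCast_eq_natCast_iff]
    exact h
  push_cast at h1
  exact h1

theorem three_mod (h3 : (3 : k) ≠ 0) : Nat.card k % 3 ≠ 0 := by
  intro h
  have h7 : 3 ∣ Nat.card k := Nat.dvd_of_mod_eq_zero h
  have := Fintype.ofFinite k
  obtain ⟨p, hchar⟩ := CharP.exists k
  have hpp : p.Prime := (CharP.char_is_prime_or_zero k p).resolve_right
    (CharP.char_ne_zero_of_finite k p)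
  obtain ⟨n, hprime, hn⟩ := FiniteField.card k p
  rw [Nat.card_eq_fintype_card, hn] at h7
  have h8 : 3 ∣ p := Nat.prime_three.dvd_of_dvd_pow h7
  have h9 : 3 = p := (Nat.prime_dvd_prime_iff_eq Nat.prime_three hpp).1 h8
  apply h3
  rw [← h9] at hchar
  exact_mod_cast CharP.cast_eq_zero k 3

end

section

variable {k : Type} [Field k] [Finite k] {B : Type} [CommRing B] [IsDedekindDomain B]
  [Algebra (Polynomial k) B] [Module.Finite (Polynomial k) B] [Module.Flat (Polynomial k) B]
  (G : Type) [Group G] [Finite G] [MulSemiringAction G B] [IsGaloisGroup G (Polynomial k) B]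

include G in
/-- Nonvanishing for an Euler product over the maximal ideals of `B` whose factors are modulo three
powers of those of the quadratic character and its shift. -/
theorem nonvanish_B (h2 : (2 : k) ≠ 0) (h3 : (3 : k) ≠ 0) {j : ℕ}
    (hG : Nat.card G = 3 ^ j) {g : ℕ} {m D : Polynomial k}
    (hD : IsD g m D) [IsDedekindDomain (CR D)] (hh : ¬ 3 ∣ Nat.card (ClassGroup (CR D)))
    (hram : ∀ P : MI k, (sp P).ramificationIdxIn B ≠ 1 → chi D P.1 ≠ 1) (r : ℕ)
    (A : MxD D B → PowerSeries ℤ)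
    (hA : ∀ v : MxD D B, (X : PowerSeries ℤ) ^ dgM k v.1 ∣ A v - 1)
    (hAw : ∀ v : MxD D B, red3 (A v) *
      (wM D v.1 * rescale ((Nat.card k : ℕ) : ZMod 3) (wM D v.1)) ^ r = 1) :
    ¬ ∃ H : Polynomial ℤ, eulerProd (fun v : MxD D B => dgM k v.1) A =
      (((1 - Polynomial.C (Nat.card k : ℤ) * Polynomial.X) * H : Polynomial ℤ) : PowerSeries ℤ) := by
  have hp : Fact (Nat.Prime 3) := ⟨Nat.prime_three⟩
  obtain ⟨U, V, hU, hUV⟩ := euler_max_line G (B := B) h2 hG D hram
  have hu := unit3 (three_mod h3)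
  set a : ZMod 3 := ((Nat.card k : ℕ) : ZMod 3) with ha
  have hUa : U.eval a ≠ 0 := hU a fun P hP => card_pow_cast (tame_card G h3 hG P hP)
  have hU1 : U.eval 1 ≠ 0 := hU 1 fun P _ => one_pow _
  have hfin := fun n => fin_max (B := B) D n
  have hA3 : ∀ v : MxD D B, (X : PowerSeries (ZMod 3)) ^ dgM k v.1 ∣ red3 (A v) - 1 := by
    intro v
    have h := map_dvd red3 (hA v)
    rwa [map_pow, map_sub, map_one, PowerSeries.map_X] at h
  set EL : PowerSeries (ZMod 3) :=
    eulerProd (fun v : MxD D B => dgM k v.1) (fun v => wM D v.1) with hEL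
  have hw2 : ∀ v : MxD D B, (X : PowerSeries (ZMod 3)) ^ dgM k v.1 ∣
      wM D v.1 * rescale a (wM D v.1) - 1 := fun v =>
    one_mod_mul (wM_dvd D v.1) (rescale_dvd_one a (wM_dvd D v.1))
  have h1 : red3 (eulerProd (fun v : MxD D B => dgM k v.1) A) * (EL * rescale a EL) ^ r = 1 := by
    rw [hEL, rescale_eulerProd hfin a (fun v => wM_dvd D v.1),
      ← eulerProd_mul hfin (fun v => wM_dvd D v.1) (fun v => rescale_dvd_one a (wM_dvd D v.1)),
      map_eulerProd hfin, ← eulerProd_pow hfin hw2,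
      ← eulerProd_mul hfin hA3 (fun v => pow_dvd_sub_one (hw2 v) r)]
    simp only [hAw]
    exact eulerProd_one
  have hUV' := congrArg (rescale a) hUV
  rw [map_mul, map_mul, map_pow, ← coe_comp_scale, ← coe_comp_scale] at hUV'
  set U' := U.comp (Polynomial.C a * Polynomial.X) with hU'
  set V' := V.comp (Polynomial.C a * Polynomial.X) with hV'
  refine nonvanish_q h2 (three_mod h3) hD hh (r := 3 ^ j * r) (u := (V * V') ^ r)
    (v := (U * U') ^ r) ?_ ?_
  · rw [Polynomial.eval_pow, Polynomial.eval_mul, hU', eval_comp_scale, ← ha, hu]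
    exact pow_ne_zero _ (mul_ne_zero hUa hU1)
  · rw [← ha, Polynomial.coe_pow, Polynomial.coe_pow, Polynomial.coe_mul, Polynomial.coe_mul,
      pow_mul, mul_assoc, ← mul_pow]
    have h5 : (E3 D * rescale a (E3 D)) ^ 3 ^ j * ((V : PowerSeries (ZMod 3)) * V') =
        (EL * rescale a EL) * ((U : PowerSeries (ZMod 3)) * U') := by
      calc (E3 D * rescale a (E3 D)) ^ 3 ^ j * ((V : PowerSeries (ZMod 3)) * V') =
          (E3 D ^ 3 ^ j * V) * (rescale a (E3 D) ^ 3 ^ j * V') := by rw [mul_pow]; ring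
        _ = _ := by rw [← hUV, ← hUV']; ring
    rw [h5, mul_pow, ← mul_assoc, h1, one_mul]

end

end Pool.Agent.Y711
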