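import Pool.Agent.Y711.Tot2

/-!
A lower bound for the number of squarefree monic polynomials divisible by `m`.
-/

set_option autoImplicit false
set_option maxHeartbeats 1000000

open Polynomial Classical

namespace Pool.Agent.Y711

section

variable {k : Type} [Field k] [Finite k]

/-- The monic polynomials of degree `n` prime to `m`. -/
noncomputable def UC (m : k[X]) (n : ℕ) : Finset k[X] := (MD k n).filter fun D => IsCoprime D m

theorem card_UC {m : k[X]} (hm : m ≠ 0) {n : ℕ} (hn : m.natDegree ≤ n) :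
    (UC m n).card = Nat.card k ^ (n - m.natDegree) * phi m := by
  have h1 := card_monic m hm hn (fun r => IsCoprime r m)
  unfold UC phi
  rw [← h1]
  refine congrArg Finset.card (Finset.filter_congr ?_)
  intro r _
  exact coprime_mod'.symm

theorem card_UC_le {m : k[X]} (hm : m ≠ 0) (n : ℕ) :
    ((UC m n).card : ℝ) ≤ (Nat.card k : ℝ) ^ n / (Nat.card k : ℝ) ^ m.natDegree * phi m +
      (Nat.card k : ℝ) ^ m.natDegree := by
  have hq1 : (1 : ℝ) < Nat.card k := by exact_mod_cast Finite.one_lt_card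
  have hq0 : (0 : ℝ) < Nat.card k := by linarith
  by_cases h : m.natDegree ≤ n
  · rw [card_UC hm h]
    push_cast
    rw [pow_sub₀ _ hq0.ne' h]
    have : (0 : ℝ) ≤ (Nat.card k : ℝ) ^ m.natDegree := by positivity
    rw [div_eq_mul_inv]
    linarith
  · have h1 : (UC m n).card ≤ Nat.card k ^ n := by
      unfold UC
      exact (Finset.card_filter_le _ _).trans (card_MD _).le
    have h2 : ((UC m n).card : ℝ) ≤ (Nat.card k : ℝ) ^ n := by exact_mod_cast h1
    have h3 : (Nat.card k : ℝ) ^ n ≤ (Nat.card k : ℝ) ^ m.natDegree :=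
      pow_le_pow_right₀ hq1.le (by omega)
    have h4 : (0 : ℝ) ≤ (Nat.card k : ℝ) ^ n / (Nat.card k : ℝ) ^ m.natDegree * phi m := by
      positivity
    linarith

/-- The squarefree ones. -/
noncomputable def US (m : k[X]) (n : ℕ) : Finset k[X] := (UC m n).filter fun D => Squarefree D

theorem nonsqf_subset {m : k[X]} (n : ℕ) :
    (UC m n).filter (fun D => ¬ Squarefree D) ⊆
      (Finset.range (n / 2)).biUnion fun j =>
        (MD k (j + 1) ×ˢ UC m (n - 2 * (j + 1))).image fun x => x.1 ^ 2 * x.2 := by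
  intro D hD
  unfold UC at hD
  rw [Finset.mem_filter, Finset.mem_filter, mem_MD] at hD
  obtain ⟨⟨⟨hm, hdeg⟩, hcop⟩, hns⟩ := hD
  unfold Squarefree at hns
  push Not at hns
  obtain ⟨x, hx, hxu⟩ := hns
  have hx0 : x ≠ 0 := by
    rintro rfl
    rw [zero_mul, zero_dvd_iff] at hx
    exact hm.ne_zero hx
  set E := normalize x with hE
  have hEm : E.Monic := monic_normalize hx0
  have hEa : Associated E x := normalize_associated x
  have hE1 : E.natDegree ≠ 0 := by
    intro h0
    apply hxu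
    rw [← hEa.isUnit_iff]
    rw [hEm.natDegree_eq_zero.1 h0]
    exact isUnit_one
  have hE2 : E ^ 2 ∣ D := by
    rw [sq]
    exact (hEa.mul_mul hEa).dvd.trans hx
  obtain ⟨F, hF⟩ := hE2
  have hFm : F.Monic := (hEm.pow 2).of_mul_monic_left (hF ▸ hm)
  have hd : n = 2 * E.natDegree + F.natDegree := by
    rw [← hdeg, hF, natDegree_mul (pow_ne_zero 2 hEm.ne_zero) hFm.ne_zero, natDegree_pow]
  rw [Finset.mem_biUnion]
  refine ⟨E.natDegree - 1, ?_, ?_⟩
  · rw [Finset.mem_range]
    omega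
  · rw [Finset.mem_image]
    refine ⟨(E, F), ?_, hF.symm⟩
    rw [Finset.mem_product, mem_MD]
    unfold UC
    rw [Finset.mem_filter, mem_MD]
    refine ⟨⟨hEm, by dsimp only; omega⟩, ⟨hFm, by dsimp only; omega⟩, ?_⟩
    exact hcop.of_isCoprime_of_dvd_left (Dvd.intro_left _ hF.symm)

theorem card_US_ge {m : k[X]} (hm : m ≠ 0) {n : ℕ} (hn : m.natDegree ≤ n) :
    (Nat.card k : ℝ) ^ n / (Nat.card k : ℝ) ^ m.natDegree * phi m *
      (1 - 1 / ((Nat.card k : ℝ) - 1)) - 2 * (Nat.card k : ℝ) ^ m.natDegree *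
        (Nat.card k : ℝ) ^ (n / 2) ≤ ((US m n).card : ℝ) := by
  have hq1 : (2 : ℝ) ≤ Nat.card k := by
    have : 1 < Nat.card k := Finite.one_lt_card
    exact_mod_cast this
  have hq0 : (0 : ℝ) < Nat.card k := by linarith
  have hq2 : (0 : ℝ) < Nat.card k - 1 := by linarith
  have h1 : (UC m n).card = (US m n).card + ((UC m n).filter (fun D => ¬ Squarefree D)).card :=
    (Finset.card_filter_add_card_filter_not (fun D => Squarefree D)).symm
  have h2 : ((UC m n).filter (fun D => ¬ Squarefree D)).card ≤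
      ∑ j ∈ Finset.range (n / 2), Nat.card k ^ (j + 1) * (UC m (n - 2 * (j + 1))).card := by
    refine (Finset.card_le_card (nonsqf_subset n)).trans (Finset.card_biUnion_le.trans ?_)
    apply Finset.sum_le_sum
    intro j _
    refine Finset.card_image_le.trans ?_
    rw [Finset.card_product, card_MD]
  have h3 : ((((UC m n).filter (fun D => ¬ Squarefree D)).card : ℕ) : ℝ) ≤
      ∑ j ∈ Finset.range (n / 2), ((Nat.card k : ℝ) ^ n / (Nat.card k : ℝ) ^ m.natDegree * phi m *
        (1 / (Nat.card k : ℝ)) ^ (j + 1) +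
          (Nat.card k : ℝ) ^ m.natDegree * (Nat.card k : ℝ) ^ (j + 1)) := by
    refine (Nat.cast_le.2 h2).trans ?_
    push_cast
    apply Finset.sum_le_sum
    intro j hj
    rw [Finset.mem_range] at hj
    have h4 := card_UC_le hm (n - 2 * (j + 1))
    refine (mul_le_mul_of_nonneg_left h4 (by positivity)).trans (le_of_eq ?_)
    rw [pow_sub₀ _ hq0.ne' (by omega : 2 * (j + 1) ≤ n), two_mul, pow_add, one_div_pow]
    field_simp
    ring
  have h5 : ∑ j ∈ Finset.range (n / 2), ((Nat.card k : ℝ) ^ n / (Nat.card k : ℝ) ^ m.natDegree *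
      phi m * (1 / (Nat.card k : ℝ)) ^ (j + 1) +
        (Nat.card k : ℝ) ^ m.natDegree * (Nat.card k : ℝ) ^ (j + 1)) ≤
      (Nat.card k : ℝ) ^ n / (Nat.card k : ℝ) ^ m.natDegree * phi m * (1 / ((Nat.card k : ℝ) - 1)) +
        (Nat.card k : ℝ) ^ m.natDegree * (2 * (Nat.card k : ℝ) ^ (n / 2)) := by
    rw [Finset.sum_add_distrib, ← Finset.mul_sum, ← Finset.mul_sum]
    have hA : ∑ i ∈ Finset.range (n / 2), (1 / (Nat.card k : ℝ)) ^ (i + 1) ≤
        1 / ((Nat.card k : ℝ) - 1) := by
      have h6 : ∀ i : ℕ, (1 / (Nat.card k : ℝ)) ^ (i + 1) =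
          (1 / (Nat.card k : ℝ)) * (1 / (Nat.card k : ℝ) ^ i) := fun i => by
        rw [pow_succ, one_div_pow]; ring
      simp only [h6]
      rw [← Finset.mul_sum]
      have h7 := geom_inv_le (q := (Nat.card k : ℝ)) (by linarith) (n / 2)
      have h8 : ∑ i ∈ Finset.range (n / 2), 1 / (Nat.card k : ℝ) ^ i ≤
          ∑ i ∈ Finset.range (n / 2 + 1), 1 / (Nat.card k : ℝ) ^ i := by
        apply Finset.sum_le_sum_of_subset_of_nonneg
        · exact Finset.range_subset_range.2 (by omega)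
        · intro i _ _
          positivity
      refine (mul_le_mul_of_nonneg_left (h8.trans h7) (by positivity)).trans (le_of_eq ?_)
      field_simp
    have hB : ∑ i ∈ Finset.range (n / 2), (Nat.card k : ℝ) ^ (i + 1) ≤
        2 * (Nat.card k : ℝ) ^ (n / 2) := by
      have h7 := geom_le (q := (Nat.card k : ℝ)) (by linarith) (n / 2)
      rw [Finset.sum_range_succ'] at h7
      have h8 : (Nat.card k : ℝ) / ((Nat.card k : ℝ) - 1) ≤ 2 := by
        rw [div_le_iff₀ hq2]
        linarith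
      have h9 : (Nat.card k : ℝ) ^ (n / 2) * ((Nat.card k : ℝ) / ((Nat.card k : ℝ) - 1)) ≤
          (Nat.card k : ℝ) ^ (n / 2) * 2 := mul_le_mul_of_nonneg_left h8 (by positivity)
      have h10 : (0 : ℝ) ≤ (Nat.card k : ℝ) ^ 0 := by positivity
      linarith
    exact add_le_add (mul_le_mul_of_nonneg_left hA (by positivity))
      (mul_le_mul_of_nonneg_left hB (by positivity))
  have h6 : ((UC m n).card : ℝ) = (Nat.card k : ℝ) ^ n / (Nat.card k : ℝ) ^ m.natDegree * phi m := by
    rw [card_UC hm hn]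
    push_cast
    rw [pow_sub₀ _ hq0.ne' hn]
    rfl
  have h7 : ((UC m n).card : ℝ) = (US m n).card +
      (((UC m n).filter (fun D => ¬ Squarefree D)).card : ℕ) := by exact_mod_cast h1
  have h8 := h3.trans h5
  linarith

theorem finite_D (g : ℕ) (m : k[X]) : {D : k[X] | IsD g m D}.Finite := by
  refine Set.Finite.subset (Finset.finite_toSet (MD k (2 * g + 1))) ?_
  intro D hD
  rw [Finset.mem_coe, mem_MD]
  exact ⟨hD.monic, hD.deg⟩

/-- The squarefree monic polynomials of degree `2 g + 1` divisible by `m`. -/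
noncomputable def DS (g : ℕ) (m : k[X]) : Finset k[X] := (finite_D g m).toFinset

theorem mem_DS {g : ℕ} {m D : k[X]} : D ∈ DS g m ↔ IsD g m D := by
  unfold DS
  rw [Set.Finite.mem_toFinset]
  rfl

theorem card_DS_ge {m : k[X]} (hm : m.Monic) (hs : Squarefree m) {g : ℕ}
    (hg : 2 * m.natDegree ≤ 2 * g + 1) :
    (Nat.card k : ℝ) ^ (2 * g + 1) / (Nat.card k : ℝ) ^ (2 * m.natDegree) * phi m *
      (1 - 1 / ((Nat.card k : ℝ) - 1)) - 2 * (Nat.card k : ℝ) ^ m.natDegree *
        (Nat.card k : ℝ) ^ g ≤ ((DS g m).card : ℝ) := by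
  have hq1 : (2 : ℝ) ≤ Nat.card k := by
    have : 1 < Nat.card k := Finite.one_lt_card
    exact_mod_cast this
  have hq0 : (0 : ℝ) < Nat.card k := by linarith
  have h1 := card_US_ge hm.ne_zero (n := 2 * g + 1 - m.natDegree) (by omega)
  have h2 : (US m (2 * g + 1 - m.natDegree)).card ≤ (DS g m).card := by
    refine Finset.card_le_card_of_injOn (fun D => m * D) ?_ ?_
    · intro D hD
      unfold US UC at hD
      rw [Finset.mem_coe, Finset.mem_filter, Finset.mem_filter, mem_MD] at hD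
      obtain ⟨⟨⟨h3, h4⟩, h5⟩, h6⟩ := hD
      rw [Finset.mem_coe, mem_DS]
      refine ⟨hm.mul h3, ?_, ?_, dvd_mul_right _ _⟩
      · show (m * D).natDegree = _
        rw [natDegree_mul hm.ne_zero h3.ne_zero]
        omega
      · exact squarefree_mul_iff.2 ⟨h5.symm.isRelPrime, hs, h6⟩
    · intro D _ D' _ h
      exact mul_left_cancel₀ hm.ne_zero h
  have h3 : ((US m (2 * g + 1 - m.natDegree)).card : ℝ) ≤ ((DS g m).card : ℝ) := by
    exact_mod_cast h2
  refine le_trans ?_ (h1.trans h3)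
  have h4 : (Nat.card k : ℝ) ^ (2 * g + 1 - m.natDegree) / (Nat.card k : ℝ) ^ m.natDegree =
      (Nat.card k : ℝ) ^ (2 * g + 1) / (Nat.card k : ℝ) ^ (2 * m.natDegree) := by
    rw [pow_sub₀ _ hq0.ne' (by omega), two_mul m.natDegree, pow_add _ m.natDegree]
    field_simp
  rw [h4]
  have h5 : (Nat.card k : ℝ) ^ ((2 * g + 1 - m.natDegree) / 2) ≤ (Nat.card k : ℝ) ^ g :=
    pow_le_pow_right₀ (by linarith) (by omega)
  have h6 : 2 * (Nat.card k : ℝ) ^ m.natDegree *
      (Nat.card k : ℝ) ^ ((2 * g + 1 - m.natDegree) / 2) ≤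
      2 * (Nat.card k : ℝ) ^ m.natDegree * (Nat.card k : ℝ) ^ g :=
    mul_le_mul_of_nonneg_left h5 (by positivity)
  linarith

end

end Pool.Agent.Y711
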