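import Pool.Agent.Y711.NV
import Pool.Agent.Y711.Low

/-!
The proportion of the `D` with class number prime to three.
-/

set_option autoImplicit false
set_option maxHeartbeats 1000000

open Polynomial Classical

namespace Pool.Agent.Y711

open Pool.Agent.TH943.HJ

section

variable {k : Type} [Field k] [Finite k]

omit [Finite k] in
theorem sol_unique {g : ℕ} {D D' G A B Q : k[X]} (h : IsSol g D G A B Q)
    (h' : IsSol g D' G A B Q) : D = D' := by
  have h1 : D * Q ^ 2 = D' * Q ^ 2 := by
    rcases h.eqn with ⟨ho, _, he⟩ | ⟨hev, _, he⟩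
    · rcases h'.eqn with ⟨_, _, he'⟩ | ⟨hev', _, _⟩
      · rw [he, he']
      · exact absurd ho (Nat.not_odd_iff_even.2 hev')
    · rcases h'.eqn with ⟨ho', _, _⟩ | ⟨_, _, he'⟩
      · exact absurd ho' (Nat.not_odd_iff_even.2 hev)
      · rw [he, he']
  exact mul_right_cancel₀ (pow_ne_zero 2 h.Q0) h1

/-- The class number is divisible by three. -/
def Bad (D : k[X]) : Prop := ∃ _ : IsDedekindDomain (CR D), 3 ∣ Nat.card (ClassGroup (CR D))

theorem two_mul_bad_le (h2 : (2 : k) ≠ 0) (g : ℕ) (m : k[X]) :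
    2 * ((DS g m).filter Bad).card ≤ (SF g m).card := by
  have key : ∀ D ∈ (DS g m).filter Bad, ∃ x y : k[X] × k[X] × k[X] × k[X],
      IsSol g D x.1 x.2.1 x.2.2.1 x.2.2.2 ∧ IsSol g D y.1 y.2.1 y.2.2.1 y.2.2.2 ∧ x ≠ y := by
    intro D hD
    rw [Finset.mem_filter, mem_DS] at hD
    obtain ⟨hD1, hded, hD2⟩ := hD
    obtain ⟨G, A, B, Q, h⟩ := exists_sol h2 hD1 hD2
    obtain ⟨B', Q', h', hne⟩ := h.conj h2
    refine ⟨(G, A, B, Q), (G, A, B', Q'), h, h', ?_⟩
    intro h3
    apply hne
    have h4 := congrArg (fun z : k[X] × k[X] × k[X] × k[X] => z.2.2) h3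
    exact h4.symm
  choose! x y hx hy hxy using key
  have h1 : ((DS g m).filter Bad ×ˢ (Finset.univ : Finset Bool)).card ≤ (SF g m).card := by
    refine Finset.card_le_card_of_injOn (fun p => if p.2 then x p.1 else y p.1) ?_ ?_
    · rintro ⟨D, b⟩ hp
      rw [Finset.mem_coe, Finset.mem_product] at hp
      have hD := hp.1
      dsimp only at hD
      rw [Finset.mem_coe, mem_SF]
      refine ⟨D, mem_DS.1 (Finset.mem_filter.1 hD).1, ?_⟩
      dsimp only
      cases b
      · exact hy D hD
      · exact hx D hD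
    · rintro ⟨D, b⟩ hp ⟨D', b'⟩ hp' he
      rw [Finset.mem_coe, Finset.mem_product] at hp hp'
      have hD := hp.1
      have hD' := hp'.1
      dsimp only at hD hD' he
      have hDD : D = D' := by
        cases b <;> cases b'
        · have e1 := hy D hD
          have e2 := hy D' hD'
          simp only [Bool.false_eq_true, if_false] at he
          rw [he] at e1
          exact sol_unique e1 e2
        · have e1 := hy D hD
          have e2 := hx D' hD'
          simp only [Bool.false_eq_true, if_false, if_true] at he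
          rw [he] at e1
          exact sol_unique e1 e2
        · have e1 := hx D hD
          have e2 := hy D' hD'
          simp only [Bool.false_eq_true, if_false, if_true] at he
          rw [he] at e1
          exact sol_unique e1 e2
        · have e1 := hx D hD
          have e2 := hx D' hD'
          simp only [if_true] at he
          rw [he] at e1
          exact sol_unique e1 e2
      subst hDD
      cases b <;> cases b'
      · rfl
      · simp only [Bool.false_eq_true, if_false, if_true] at he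
        exact absurd he.symm (hxy D hD)
      · simp only [Bool.false_eq_true, if_false, if_true] at he
        exact absurd he (hxy D hD)
      · rfl
  rw [Finset.card_product, Finset.card_univ, Fintype.card_bool, mul_comm] at h1
  exact h1

/-- **The proportion of class numbers prime to three.** -/
theorem proportion (h2 : (2 : k) ≠ 0) (hq7 : 4 ≤ Nat.card k) {m : k[X]} (hm : m.Monic)
    (hs : Squarefree m) {c : ℝ}
    (hc : c < 1 - (Nat.card k : ℝ) ^ 2 / (2 * ((Nat.card k : ℝ) - 1) * ((Nat.card k : ℝ) - 2))) :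
    ∃ N : ℕ, ∀ g, N ≤ g →
      c * ((DS g m).card : ℝ) ≤ (((DS g m).filter fun D => ¬ Bad D).card : ℝ) := by
  have hq : (4 : ℝ) ≤ Nat.card k := by exact_mod_cast hq7
  set q : ℝ := (Nat.card k : ℝ) with hqd
  have hq0 : (0 : ℝ) < q := by linarith
  have hq1 : (0 : ℝ) < q - 1 := by linarith
  have hq2 : (0 : ℝ) < q - 2 := by linarith
  set μ := m.natDegree with hμ
  have hc1 : q ^ 2 / (2 * (q - 1) * (q - 2)) < 1 - c := by linarith
  have hc0 : 0 < 1 - c := lt_trans (by positivity) hc1
  set δ : ℝ := (1 - c) * (1 - 1 / (q - 1)) - 1 / 2 * (q / (q - 1)) ^ 2 with hδ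
  have hδ0 : 0 < δ := by
    have h3 : q ^ 2 / (2 * (q - 1) * (q - 2)) * (1 - 1 / (q - 1)) < (1 - c) * (1 - 1 / (q - 1)) := by
      apply mul_lt_mul_of_pos_right hc1
      have : 1 / (q - 1) < 1 := by
        rw [div_lt_one hq1]
        linarith
      linarith
    have h4 : q ^ 2 / (2 * (q - 1) * (q - 2)) * (1 - 1 / (q - 1)) = 1 / 2 * (q / (q - 1)) ^ 2 := by
      field_simp
      ring
    rw [hδ]
    linarith
  have htends : Filter.Tendsto (fun g : ℕ => q ^ g) Filter.atTop Filter.atTop :=
    tendsto_pow_atTop_atTop_of_one_lt (by linarith)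
  obtain ⟨N₀, hN₀⟩ := Filter.eventually_atTop.1
    (htends.eventually_ge_atTop (2 * (1 - c) * q ^ (3 * μ) / δ))
  refine ⟨max N₀ (4 * μ), fun g hg => ?_⟩
  have hg1 : N₀ ≤ g := (le_max_left _ _).trans hg
  have hg2 : 4 * μ ≤ g := (le_max_right _ _).trans hg
  have h3 := hN₀ g hg1
  have hbad := two_mul_bad_le h2 g m
  have htot := total_bound h2 hm hg2
  have hlow := card_DS_ge hm hs (g := g) (by omega)
  rw [← hμ] at htot hlow
  have hphi : (1 : ℝ) ≤ phi m := by
    have := phi_pos hm.ne_zero
    exact_mod_cast this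
  have hsum : ((DS g m).card : ℝ) = (((DS g m).filter Bad).card : ℝ) +
      (((DS g m).filter fun D => ¬ Bad D).card : ℝ) := by
    have := Finset.card_filter_add_card_filter_not (s := DS g m) Bad
    exact_mod_cast this.symm
  have hbad' : 2 * (((DS g m).filter Bad).card : ℝ) ≤ ((SF g m).card : ℝ) := by exact_mod_cast hbad
  set X : ℝ := q ^ (2 * g + 1) / q ^ (2 * μ) * phi m with hX
  have htot' : ((SF g m).card : ℝ) ≤ (q / (q - 1)) ^ 2 * X := by
    refine htot.trans (le_of_eq ?_)
    rw [hX]
    ring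
  have hXge : q ^ (2 * g + 1) / q ^ (2 * μ) ≤ X := by
    rw [hX]
    exact le_mul_of_one_le_right (by positivity) hphi
  have hkey : 2 * (1 - c) * (q ^ μ * q ^ g) ≤ δ * X := by
    have h4 : 2 * (1 - c) * q ^ (3 * μ) ≤ δ * q ^ g := by
      rw [div_le_iff₀ hδ0] at h3
      linarith
    have h5 : q ^ g ≤ q ^ (g + 1) := pow_le_pow_right₀ (by linarith) (by omega)
    have h6 : 2 * (1 - c) * q ^ (3 * μ) ≤ δ * q ^ (g + 1) :=
      h4.trans (mul_le_mul_of_nonneg_left h5 hδ0.le)
    have h7 : δ * (q ^ (2 * g + 1) / q ^ (2 * μ)) ≤ δ * X := mul_le_mul_of_nonneg_left hXge hδ0.le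
    refine le_trans ?_ h7
    rw [← mul_div_assoc, le_div_iff₀ (by positivity)]
    have h8 : 2 * (1 - c) * (q ^ μ * q ^ g) * q ^ (2 * μ) = (2 * (1 - c) * q ^ (3 * μ)) * q ^ g := by
      rw [show 3 * μ = μ + 2 * μ by ring, pow_add]
      ring
    have h9 : δ * q ^ (2 * g + 1) = δ * q ^ (g + 1) * q ^ g := by
      rw [show 2 * g + 1 = (g + 1) + g by ring, pow_add]
      ring
    rw [h8, h9]
    exact mul_le_mul_of_nonneg_right h6 (by positivity)
  have hfin : (1 - c) * (X * (1 - 1 / (q - 1)) - 2 * q ^ μ * q ^ g) ≤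
      (1 - c) * ((DS g m).card : ℝ) := mul_le_mul_of_nonneg_left hlow hc0.le
  have hexp : (1 - c) * (X * (1 - 1 / (q - 1)) - 2 * q ^ μ * q ^ g) =
      δ * X + 1 / 2 * ((q / (q - 1)) ^ 2 * X) - 2 * (1 - c) * (q ^ μ * q ^ g) := by
    rw [hδ]
    ring
  rw [hexp] at hfin
  linarith

end

end Pool.Agent.Y711
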