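import Pool.Agent.Y711.Def
import Pool.Agent.Y711.NL
import Pool.Agent.Y711.Prop

/-!
Nonvanishing for a positive proportion of the quadratic twists.
-/

set_option autoImplicit false
set_option maxHeartbeats 1000000
set_option synthInstance.maxHeartbeats 400000

open Polynomial

namespace Pool.Agent.Y711

open Pool.Agent.TH943.HJ Pool.Agent.W313.Hyp Pool.Agent.W343.BSD Pool.Agent.Y784.FC

section bridge

theorem quadSym_eq {F : Type} [CommRing F] (x : F) : quadSym x = qs x := by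
  classical
  unfold quadSym qs
  congr

theorem quadSym_mk {F : Type} [Field F] (h : F[X]) (Q : MI F) :
    quadSym (AdjoinRoot.mk Q.1 h) = chi h Q.1 := by
  rw [quadSym_eq, chi_qs]
  rfl

theorem symInf_eq {F : Type} [Field F] (h : F[X]) : symInf h = cinf h := by
  unfold symInf cinf
  rw [quadSym_eq, qs_eq]

theorem localSeries_eq {F : Type} [Field F] (d : ℕ) (h : F[X]) : localSeries d h = locS d h := by
  unfold localSeries locS eulerProduct eulerProd
  simp only [quadSym_mk]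
  rw [symInf_eq]

theorem locS_dvd {F : Type} [Field F] [Finite F] (d : ℕ) (hd : d ≠ 0) (h : F[X]) :
    (PowerSeries.X : PowerSeries ℤ) ^ d ∣ locS d h - 1 := by
  unfold locS
  have h1 : ∀ Q : MI F, (PowerSeries.X : PowerSeries ℤ) ^ (d * Q.1.natDegree) ∣
      (1 - PowerSeries.C (chi h Q.1) * PowerSeries.X ^ (d * Q.1.natDegree)) - 1 := fun Q =>
    one_sub_dvd _ _
  have h2 : (PowerSeries.X : PowerSeries ℤ) ^ d ∣
      eulerProd (fun Q : MI F => d * Q.1.natDegree)
        (fun Q => 1 - PowerSeries.C (chi h Q.1) * PowerSeries.X ^ (d * Q.1.natDegree)) - 1 := by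
    have h3 := eulerProd_mod (fun n => fin_mul (F := F) hd n) h1 (d - 1) ∅ (fun Q hQ => by
      exfalso
      have := Nat.le_mul_of_pos_right d (MI.deg_pos Q)
      omega)
    rw [Finset.prod_empty] at h3
    have h4 : d - 1 + 1 = d := by omega
    rwa [h4] at h3
  exact one_mod_mul h2 (one_sub_dvd _ _)

end bridge

section

variable {k : Type} [Field k] [Finite k]

omit [Finite k] in
theorem IsD_iff {g : ℕ} {m D : k[X]} : IsD g m D ↔ D ∈ twists g m :=
  ⟨fun h => ⟨h.monic, h.deg, h.sqf, h.dvd⟩, fun h => ⟨h.1, h.2.1, h.2.2.1, h.2.2.2⟩⟩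

theorem nonvanish_ext (h2 : (2 : k) ≠ 0) (h3 : (3 : k) ≠ 0) {γ : ℕ} {f : k[X][X]}
    {m : k[X]} (hf : IsUnipotent γ f m) {g : ℕ} {D : k[X]} (hD : IsD g m D)
    [IsDedekindDomain (CR D)] (hh : ¬ 3 ∣ Nat.card (ClassGroup (CR D)))
    {B : Type} [CommRing B] [IsDedekindDomain B] [Algebra k[X] B] [Module.Finite k[X] B]
    [Module.Flat k[X] B] (G : Type) [Group G] [Finite G] [MulSemiringAction G B]
    [IsGaloisGroup G k[X] B] {j : ℕ} (hG : Nat.card G = 3 ^ j)
    (hram : ∀ 𝔓 : Ideal B, 𝔓.IsMaximal → 𝔓.ramificationIdx k[X] ≠ 1 →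
      quadSym (algebraMap k[X] (B ⧸ 𝔓) D) ≠ 1) :
    ¬ VanishesAtOne f D B := by
  have hmonic := hD.monic
  refine nonvanish_B G h2 h3 hG hD hh ?_ γ
    (fun 𝔓 => localSeries (residueDeg k 𝔓.1)
      (C (algebraMap k[X] (B ⧸ 𝔓.1) D) * f.map (algebraMap k[X] (B ⧸ 𝔓.1)))) ?_ ?_
  · intro P hP
    obtain ⟨𝔓⟩ := (inferInstance : Nonempty ((sp P).primesOver B))
    obtain ⟨𝔓, h𝔓⟩ := 𝔓
    rw [primesOver_eq] at h𝔓
    obtain ⟨hmax, hov⟩ := h𝔓
    rw [Ideal.ramificationIdxIn_eq_ramificationIdx (sp P) 𝔓 G] at hP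
    have h1 := hram 𝔓 hmax hP
    obtain ⟨i, hi⟩ := f_pow G (B := B) hG P
    rw [Ideal.inertiaDegIn_eq_inertiaDeg (sp P) 𝔓 G] at hi
    have hodd : Odd (𝔓.inertiaDeg k[X]) := by
      rw [hi]
      exact Odd.pow (by decide)
    have h4 := qs_over h2 𝔓 P hodd D
    rw [← h4]
    rw [quadSym_eq] at h1
    exact h1
  · intro v
    have hmax := v.2.1
    let _ : Field (B ⧸ v.1) := Ideal.Quotient.field _
    have hfin := finite_quot k v.1
    have hdeg : residueDeg k v.1 ≠ 0 := (dg_pos (k := k) v.1).ne'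
    have h1 := locS_dvd (F := B ⧸ v.1) (residueDeg k v.1) hdeg
      (C (algebraMap k[X] (B ⧸ v.1) D) * f.map (algebraMap k[X] (B ⧸ v.1)))
    rw [← localSeries_eq] at h1
    exact h1
  · intro v
    have hmax := v.2.1
    let _ : Field (B ⧸ v.1) := Ideal.Quotient.field _
    have hfin := finite_quot k v.1
    have hdeg : residueDeg k v.1 ≠ 0 := (dg_pos (k := k) v.1).ne'
    have hDv : algebraMap k[X] (B ⧸ v.1) D ≠ 0 := by
      intro h0
      apply v.2.2
      rw [← Ideal.Quotient.eq_zero_iff_mem]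
      exact h0
    have hmv : (algebraMap k[X] (B ⧸ v.1)) m ≠ 0 := by
      intro h0
      apply hDv
      obtain ⟨e, he⟩ := hD.dvd
      exact (congrArg (algebraMap k[X] (B ⧸ v.1)) he).trans (by rw [map_mul, h0, zero_mul])
    have h6 := hf.2 (B ⧸ v.1) (algebraMap k[X] (B ⧸ v.1)) hmv
    have h7 : red3 (locS 1 (f.map (algebraMap k[X] (B ⧸ v.1)))) *
        ((1 - PowerSeries.X) * (1 - PowerSeries.C (Nat.card (B ⧸ v.1) : ZMod 3) *
          PowerSeries.X)) ^ γ = 1 := by
      rw [← localSeries_eq]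
      exact h6
    have h2' : (2 : B ⧸ v.1) ≠ 0 := by
      let _ : Algebra k (B ⧸ v.1) := ((algebraMap k[X] (B ⧸ v.1)).comp C).toAlgebra
      exact two_ne_ext (F' := B ⧸ v.1) h2
    have h8 := locS_rel (F := B ⧸ v.1) h2' (algebraMap k[X] (B ⧸ v.1) D)
      (f.map (algebraMap k[X] (B ⧸ v.1))) (residueDeg k v.1) hdeg γ
      (Int.castRingHom (ZMod 3)) _ h7
    rw [← localSeries_eq, ← qs_eq] at h8
    have hcard : (Nat.card (B ⧸ v.1) : ZMod 3) = ((Nat.card k : ℕ) : ZMod 3) ^ dgM k v.1 := by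
      obtain ⟨P, hP⟩ := exists_below (k := k) v.1
      have e1 := card_over (k := k) v.1 P
      rw [← dg_over (k := k) v.1 P] at e1
      rw [e1]
      push_cast
      rfl
    have h9 : PowerSeries.rescale ((Nat.card k : ℕ) : ZMod 3) (wM D v.1) =
        1 - PowerSeries.C ((Nat.card (B ⧸ v.1) : ZMod 3) *
          (Int.castRingHom (ZMod 3)) (qs (algebraMap k[X] (B ⧸ v.1) D))) *
            PowerSeries.X ^ residueDeg k v.1 := by
      unfold wM
      rw [map_sub, map_one, map_mul, map_pow, PowerSeries.rescale_X, hcard, mul_pow, ← map_pow,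
        map_mul]
      have e2 : PowerSeries.rescale ((Nat.card k : ℕ) : ZMod 3) (PowerSeries.C
          ((qs (Ideal.Quotient.mk v.1 (algebraMap k[X] B D)) : ℤ) : ZMod 3)) =
          PowerSeries.C ((qs (Ideal.Quotient.mk v.1 (algebraMap k[X] B D)) : ℤ) : ZMod 3) := by
        ext n
        rw [PowerSeries.coeff_rescale, PowerSeries.coeff_C]
        split_ifs with h
        · rw [h, pow_zero, one_mul]
        · rw [mul_zero]
      rw [e2]
      have e3 : dgM k v.1 = residueDeg k v.1 := rfl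
      rw [e3]
      have e4 : (Int.castRingHom (ZMod 3)) (qs (algebraMap k[X] (B ⧸ v.1) D)) =
          ((qs (Ideal.Quotient.mk v.1 (algebraMap k[X] B D)) : ℤ) : ZMod 3) := rfl
      rw [e4]
      ring
    rw [h9]
    exact h8

end

end Pool.Agent.Y711
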