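import Pool.Agent.Y711.DefB
import Pool.Agent.Y711.Cp
import Pool.Agent.Y711.Gen

/-!
Traces of the Frobenius and their congruences.
-/

set_option autoImplicit false
set_option maxHeartbeats 1000000

open Polynomial

namespace Pool.Agent.Y711

open Pool.Agent.W313.Hyp Pool.Agent.W343.BSD Pool.Agent.Y784.FC Module

section trace

variable {F : Type} [Field F] [Finite F]

theorem frobTrace_eq (h : F[X]) {r : ℕ} (hr : r ≠ 0) :
    frobTrace h r = -Sg h r - cinf h ^ r := by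
  classical
  unfold frobTrace
  rw [symInf_eq]
  congr 2
  have h1 : (∑ᶠ (Q : F[X]) (_ : Q.Monic ∧ Irreducible Q ∧ Q.natDegree ∣ r),
      (Q.natDegree : ℤ) * quadSym (AdjoinRoot.mk Q h) ^ (r / Q.natDegree)) =
      ∑ᶠ Q ∈ ((((finite_deg_le (F := F) r).toFinset.filter
        (fun Q => Q.1.natDegree ∣ r)).map (Function.Embedding.subtype _) : Finset F[X]) : Set F[X]),
          (Q.natDegree : ℤ) * quadSym (AdjoinRoot.mk Q h) ^ (r / Q.natDegree) := by
    refine finsum_congr fun Q => ?_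
    refine finsum_congr_Prop (propext ?_) (fun _ => rfl)
    rw [Finset.mem_coe, Finset.mem_map]
    constructor
    · rintro ⟨e1, e2, e3⟩
      refine ⟨⟨Q, e1, e2⟩, ?_, rfl⟩
      rw [Finset.mem_filter, Set.Finite.mem_toFinset]
      exact ⟨Nat.le_of_dvd (Nat.pos_of_ne_zero hr) e3, e3⟩
    · rintro ⟨Q', hQ', rfl⟩
      rw [Finset.mem_filter] at hQ'
      exact ⟨Q'.2.1, Q'.2.2, hQ'.2⟩
  rw [h1, finsum_mem_coe_finset, Finset.sum_map, Finset.sum_filter, Sg_def]
  refine Finset.sum_congr rfl fun Q _ => ?_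
  by_cases hd : Q.1.natDegree ∣ r
  · rw [if_pos hd, if_pos ⟨hr, hd⟩, ← quadSym_mk]
    rfl
  · rw [if_neg hd, if_neg (fun h => hd h.2)]

theorem isGh_locS (h : F[X]) :
    IsGh (fun e => if e = 0 then 0 else frobTrace h e) (locS 1 h) := by
  have h1 := (isGh_EZ h).mul (isGh_factor (cinf h) one_ne_zero)
  have h2 : EZ h * (1 - PowerSeries.C (cinf h) * PowerSeries.X ^ 1) = locS 1 h := by
    unfold locS EZ
    simp only [one_mul]
  rw [h2] at h1
  convert h1 using 1
  funext e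
  rw [Pi.add_apply]
  by_cases he : e = 0
  · rw [if_pos he, if_neg (fun h => h.1 he), he]
    have h4 : Sg h 0 = 0 := by
      rw [Sg_def]
      exact Finset.sum_eq_zero fun P _ => if_neg (fun h => h.1 rfl)
    rw [h4]
    ring
  · rw [if_neg he, if_pos ⟨he, one_dvd e⟩, frobTrace_eq h he, Nat.div_one, Nat.cast_one]
    ring

/-- **The congruence for one curve.** -/
theorem trace_cong {h : F[X]} {γ : ℕ} (hh : red3 (locS 1 h) * ((1 - PowerSeries.X) *
      (1 - PowerSeries.C (Nat.card F : ZMod 3) * PowerSeries.X)) ^ γ = 1) {i : ℕ} (hi : i ≠ 0) :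
    (3 * i : ℤ_[3]) ∣ ((frobTrace h i : ℤ) : ℤ_[3]) -
      (γ : ℤ_[3]) * (1 + ((Nat.card F : ℕ) : ℤ_[3]) ^ i) := by
  set A : PowerSeries ℤ := locS 1 h *
    ((1 - PowerSeries.C 1 * PowerSeries.X ^ 1) *
      (1 - PowerSeries.C ((Nat.card F : ℕ) : ℤ) * PowerSeries.X ^ 1)) ^ γ with hA
  have h4 := (isGh_locS h).mul
    (((isGh_factor (1 : ℤ) one_ne_zero).mul (isGh_factor ((Nat.card F : ℕ) : ℤ) one_ne_zero)).pow γ)
  rw [← hA] at h4
  have h5 : red3 A = 1 := by
    rw [hA, map_mul, map_pow, map_mul, map_sub, map_sub, map_one, map_mul, map_mul, map_one,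
      map_one, pow_one, one_mul]
    have h8 : red3 (PowerSeries.X : PowerSeries ℤ) = PowerSeries.X := PowerSeries.map_X _
    have h9 : red3 (PowerSeries.C ((Nat.card F : ℕ) : ℤ)) =
        PowerSeries.C (Nat.card F : ZMod 3) := by
      rw [show red3 (PowerSeries.C ((Nat.card F : ℕ) : ℤ)) = PowerSeries.map (Int.castRingHom (ZMod 3))
        (PowerSeries.C ((Nat.card F : ℕ) : ℤ)) from rfl, PowerSeries.map_C]
      simp
    rw [h8, h9]
    exact hh
  have h6 := gh_red h4 h5 i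
  rw [Pi.add_apply, Pi.smul_apply, Pi.add_apply, if_neg hi, if_pos ⟨hi, one_dvd i⟩,
    if_pos ⟨hi, one_dvd i⟩, Nat.div_one, one_pow] at h6
  have h7 : ((frobTrace h i : ℤ) : ℤ_[3]) - (γ : ℤ_[3]) * (1 + ((Nat.card F : ℕ) : ℤ_[3]) ^ i) =
      (((frobTrace h i + γ • (-(((1 : ℕ) : ℤ) * 1) +
        -(((1 : ℕ) : ℤ) * ((Nat.card F : ℕ) : ℤ) ^ i)) : ℤ)) : ℤ_[3]) := by
    push_cast
    rw [nsmul_eq_mul]
    push_cast
    ring
  rw [h7]
  exact h6

theorem Sg_twist (h2 : (2 : F) ≠ 0) (c : F) (h : F[X]) (e : ℕ) :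
    Sg (C c * h) e = qc c ^ e * Sg h e := by
  rw [Sg_def, Sg_def, Finset.mul_sum]
  refine Finset.sum_congr rfl fun Q _ => ?_
  by_cases hd : e ≠ 0 ∧ Q.1.natDegree ∣ e
  · rw [if_pos hd, if_pos hd, chi_C_mul h2, mul_pow, ← pow_mul, Nat.mul_div_cancel' hd.2]
    ring
  · rw [if_neg hd, if_neg hd, mul_zero]

theorem frobTrace_twist (h2 : (2 : F) ≠ 0) (c : F) (h : F[X]) {r : ℕ} (hr : r ≠ 0) :
    frobTrace (C c * h) r = qc c ^ r * frobTrace h r := by
  rw [frobTrace_eq _ hr, frobTrace_eq _ hr, Sg_twist h2, cinf_C_mul, mul_pow]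
  ring

/-- The coefficients of a product of quadratic polynomials `1 + ε γ (1 + u) X + u X ^ 2` with
`u ^ 2 = 1`. -/
theorem exists_model {ι : Type} (γ : ι → ℕ) (s : Finset ι) :
    ∃ x y : ℕ → ℕ, (∀ w, Odd w → x w = y w) ∧
      ∀ (R : Type) [CommRing R] (u ε : R), u * u = 1 → ε * ε = 1 → ∀ w : ℕ,
        (∏ i ∈ s, (1 + C (ε * ((γ i : R) * (1 + u))) * X + C u * X ^ 2 : R[X])).coeff w =
          ε ^ w * ((x w : R) + (y w : R) * u) := by
  classical
  induction s using Finset.induction_on with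
  | empty =>
    refine ⟨fun w => if w = 0 then 1 else 0, fun _ => 0, ?_, ?_⟩
    · rintro w ⟨l, rfl⟩
      exact if_neg (by omega)
    · intro R _ u ε hu hε w
      rw [Finset.prod_empty, coeff_one]
      by_cases hw : w = 0
      · simp [hw]
      · simp [hw]
  | insert i s hi ih =>
    obtain ⟨x, y, hxy, h⟩ := ih
    refine ⟨fun w => match w with
        | 0 => x 0
        | 1 => x 1 + γ i * (x 0 + y 0)
        | w + 2 => x (w + 2) + γ i * (x (w + 1) + y (w + 1)) + y w,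
      fun w => match w with
        | 0 => y 0
        | 1 => y 1 + γ i * (x 0 + y 0)
        | w + 2 => y (w + 2) + γ i * (x (w + 1) + y (w + 1)) + x w, ?_, ?_⟩
    · intro w hw
      match w, hw with
      | 0, hw => simp at hw
      | 1, hw => simp only [hxy 1 hw]
      | w + 2, hw =>
        have hw' : Odd w := by
          obtain ⟨l, hl⟩ := hw
          exact ⟨l - 1, by omega⟩
        simp only [hxy (w + 2) hw, hxy w hw']
    · intro R _ u ε hu hε w
      rw [Finset.prod_insert hi]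
      set P : R[X] := ∏ i ∈ s, (1 + C (ε * ((γ i : R) * (1 + u))) * X + C u * X ^ 2) with hP
      have e1 : (1 + C (ε * ((γ i : R) * (1 + u))) * X + C u * X ^ 2) * P =
          P + C (ε * ((γ i : R) * (1 + u))) * (P * X) + C u * (P * X ^ 2) := by ring
      rw [e1, coeff_add, coeff_add, coeff_C_mul, coeff_C_mul]
      match w with
      | 0 =>
        rw [coeff_mul_X_zero, mul_zero, add_zero, coeff_mul_X_pow' P 2 0, if_neg (by omega),
          mul_zero, add_zero, h R u ε hu hε 0]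
      | 1 =>
        rw [show (1 : ℕ) = 0 + 1 from rfl, coeff_mul_X, coeff_mul_X_pow' P 2 (0 + 1),
          if_neg (by omega), mul_zero, add_zero, h R u ε hu hε 0, h R u ε hu hε (0 + 1)]
        simp only [zero_add, pow_zero, one_mul, pow_one]
        push_cast
        linear_combination (ε * (γ i : R) * (y 0 : R)) * hu
      | w + 2 =>
        rw [show w + 2 = (w + 1) + 1 from rfl, coeff_mul_X, show w + 1 + 1 = w + 2 from rfl,
          coeff_mul_X_pow, h R u ε hu hε (w + 2), h R u ε hu hε (w + 1), h R u ε hu hε w]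
        push_cast
        have e2 : ε ^ (w + 2) = ε ^ w := by rw [pow_add, pow_two, hε, mul_one]
        have e3 : ε * ε ^ (w + 1) = ε ^ w := by rw [← pow_succ', e2]
        rw [e2]
        linear_combination (ε ^ w * (y w : R) + ε ^ w * (γ i : R) * (y (w + 1) : R)) * hu +
          ((γ i : R) * (1 + u) * ((x (w + 1) : R) + (y (w + 1) : R) * u)) * e3

/-- **The congruence for the product of the curves.** -/
theorem product_cong (h2 : (2 : F) ≠ 0) (h3 : (3 : F) ≠ 0) {n : ℕ} {w : ℕ} (hw : Odd w)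
    {γ : Fin n → ℕ} {x y : ℕ → ℕ} (hxy : ∀ w, Odd w → x w = y w)
    (hm : ∀ (R : Type) [CommRing R] (u ε : R), u * u = 1 → ε * ε = 1 → ∀ w : ℕ,
        (∏ i ∈ Finset.univ, (1 + C (ε * ((γ i : R) * (1 + u))) * X + C u * X ^ 2 : R[X])).coeff w =
          ε ^ w * ((x w : R) + (y w : R) * u))
    {h : Fin n → F[X]} {c : F} (hc : c ≠ 0)
    (hh : ∀ j, red3 (locS 1 (h j)) * ((1 - PowerSeries.X) *
      (1 - PowerSeries.C (Nat.card F : ZMod 3) * PowerSeries.X)) ^ γ j = 1) {i : ℕ} (hi : i ≠ 0) :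
    (3 * i : ℤ_[3]) ∣ ((qc c ^ i * productTrace w (fun j => C c * h j) i : ℤ) : ℤ_[3]) -
      ((x w : ℕ) : ℤ_[3]) * (1 + ((Nat.card F : ℕ) : ℤ_[3]) ^ i) := by
  set I : Ideal ℤ_[3] := Ideal.span {(3 * i : ℤ_[3])} with hI
  set π : ℤ_[3] →+* ℤ_[3] ⧸ I := Ideal.Quotient.mk I with hπ
  rw [← Ideal.mem_span_singleton, ← hI, ← Ideal.Quotient.eq, ← hπ]
  set u : ℤ_[3] ⧸ I := π (((Nat.card F : ℕ) : ℤ_[3]) ^ i) with hu
  set ε : ℤ_[3] ⧸ I := π ((qc c ^ i : ℤ) : ℤ_[3]) with hε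
  have hu2 : u * u = 1 := by
    rw [hu, ← map_mul, ← map_one π, hπ, Ideal.Quotient.eq, hI, Ideal.mem_span_singleton]
    have := q_sq h3 i
    rwa [pow_two] at this
  have hε2 : ε * ε = 1 := by
    have h4 : qc c * qc c = 1 := by
      rcases qc_cases hc with h | h <;> rw [h] <;> norm_num
    rw [hε, ← map_mul, ← Int.cast_mul, ← mul_pow, h4, one_pow, Int.cast_one, map_one]
  have hb : ∀ j, π ((frobTrace (C c * h j) i : ℤ) : ℤ_[3]) =
      ε * (((γ j : ℕ) : ℤ_[3] ⧸ I) * (1 + u)) := by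
    intro j
    rw [frobTrace_twist h2 c (h j) hi, Int.cast_mul, map_mul, ← hε]
    congr 1
    have h4 := trace_cong (hh j) hi
    rw [← Ideal.mem_span_singleton, ← hI, ← Ideal.Quotient.eq, ← hπ] at h4
    rw [h4, map_mul, map_add, map_one, ← hu, map_natCast]
  have h5 : π ((productTrace w (fun j => C c * h j) i : ℤ) : ℤ_[3]) =
      ε ^ w * ((x w : ℤ_[3] ⧸ I) + (y w : ℤ_[3] ⧸ I) * u) := by
    rw [← hm (ℤ_[3] ⧸ I) u ε hu2 hε2 w, productTrace]
    have h6 : π (((∏ j, (1 + C (frobTrace (C c * h j) i) * X +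
        C ((Nat.card F : ℤ) ^ i) * X ^ 2) : ℤ[X]).coeff w : ℤ) : ℤ_[3]) =
        ((∏ j, (1 + C (frobTrace (C c * h j) i) * X +
        C ((Nat.card F : ℤ) ^ i) * X ^ 2) : ℤ[X]).map (π.comp (Int.castRingHom ℤ_[3]))).coeff w := by
      rw [Polynomial.coeff_map]
      rfl
    rw [h6, Polynomial.map_prod]
    congr 1
    refine Finset.prod_congr rfl fun j _ => ?_
    rw [Polynomial.map_add, Polynomial.map_add, Polynomial.map_one, Polynomial.map_mul,
      Polynomial.map_mul, Polynomial.map_pow, Polynomial.map_X, Polynomial.map_C,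
      Polynomial.map_C]
    have e1 : (π.comp (Int.castRingHom ℤ_[3])) (frobTrace (C c * h j) i) =
        ε * (((γ j : ℕ) : ℤ_[3] ⧸ I) * (1 + u)) := hb j
    have e2 : (π.comp (Int.castRingHom ℤ_[3])) ((Nat.card F : ℤ) ^ i) = u := by
      rw [hu, RingHom.comp_apply]
      congr 1
      simp
    rw [e1, e2]
  have h6 : ε * ε ^ w = 1 := by
    obtain ⟨l, rfl⟩ := hw
    rw [← pow_succ', show 2 * l + 1 + 1 = (l + 1) + (l + 1) from by ring, pow_add, ← mul_pow, hε2,
      one_pow]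
  rw [Int.cast_mul, map_mul, ← hε, h5, ← mul_assoc, h6, one_mul, ← hxy w hw, map_mul, map_add,
    map_one, ← hu, map_natCast]
  ring

end trace

end Pool.Agent.Y711
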