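import Pool.Agent.Y711.Gen
import Pool.Agent.Y153.SV.S1
import Pool.Agent.Y784.SV.S3

/-!
The theorem on the quadratic twists of curves with unipotent Frobenius elements modulo three.
-/

set_option autoImplicit false
set_option maxHeartbeats 1000000
set_option synthInstance.maxHeartbeats 400000

open Polynomial

namespace Pool.Agent.Y711

open Pool.Agent.TH943.HJ

section

variable {k : Type} [Field k] (L : Type) [Field L] [Algebra k[X] L] [Algebra (RatFunc k) L]
  [IsScalarTower k[X] (RatFunc k) L]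

theorem fin_ic [FiniteDimensional (RatFunc k) L] [IsGalois (RatFunc k) L] :
    Module.Finite k[X] (integralClosure k[X] L) :=
  IsIntegralClosure.finite k[X] (RatFunc k) L (integralClosure k[X] L)

theorem flat_ic : Module.Flat k[X] (integralClosure k[X] L) := by
  have h1 : FaithfulSMul k[X] L := FaithfulSMul.trans k[X] (RatFunc k) L
  have h2 : Module.IsTorsionFree k[X] (integralClosure k[X] L) := inferInstance
  infer_instance

theorem gal_ic [FiniteDimensional (RatFunc k) L] [IsGalois (RatFunc k) L] :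
    IsGaloisGroup Gal(L/RatFunc k) k[X] (integralClosure k[X] L) := by
  have h1 : IsGaloisGroup Gal(L/RatFunc k) (RatFunc k) L := inferInstance
  have h2 : IsFractionRing (integralClosure k[X] L) L :=
    IsIntegralClosure.isFractionRing_of_finite_extension k[X] (RatFunc k) L
      (integralClosure k[X] L)
  exact IsGaloisGroup.of_isFractionRing Gal(L/RatFunc k) k[X] (integralClosure k[X] L)
    (RatFunc k) L

/-- nonvanishing over an admissible extension -/
theorem nonvanish_L [Finite k] (h2 : (2 : k) ≠ 0) (h3 : (3 : k) ≠ 0) {γ : ℕ} {f : k[X][X]}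
    {m : k[X]} (hf : IsUnipotent γ f m) {g : ℕ} {D : k[X]} (hD : IsD g m D)
    [IsDedekindDomain (CR D)] (hh : ¬ 3 ∣ Nat.card (ClassGroup (CR D)))
    (hL : IsThreeExtension D L) : ¬ VanishesAtOne f D (integralClosure k[X] L) := by
  have hgal := hL.galois
  obtain ⟨j, hj⟩ := hL.degree
  have hfd : FiniteDimensional (RatFunc k) L := by
    apply FiniteDimensional.of_finrank_pos
    rw [hj]
    positivity
  have i1 := fin_ic (k := k) L
  have i2 := flat_ic (k := k) L
  have i3 := gal_ic (k := k) L
  have i4 : IsDedekindDomain (integralClosure k[X] L) :=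
    integralClosure.isDedekindDomain k[X] (RatFunc k) L
  refine nonvanish_ext h2 h3 hf hD hh Gal(L/RatFunc k) (j := j) ?_ hL.ramified
  rw [← hj]
  exact IsGalois.card_aut_eq_finrank _ _

end

section

variable {k : Type} [Field k] [Finite k]

theorem DS_coe (g : ℕ) (m : k[X]) : (DS g m : Set k[X]) = twists g m := by
  ext D
  rw [Finset.mem_coe, mem_DS, IsD_iff]

theorem good_of (h2 : (2 : k) ≠ 0) (h3 : (3 : k) ≠ 0) {γ : ℕ} {f : k[X][X]}
    {m : k[X]} (hf : IsUnipotent γ f m) {g : ℕ} {D : k[X]} (hD : IsD g m D) (hB : ¬ Bad D) :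
    D ∈ goodTwists f g m := by
  refine ⟨IsD_iff.1 hD, ?_⟩
  intro L _ _ _ _ hL
  have hodd : Odd D.natDegree := by
    rw [hD.deg]
    exact ⟨g, rfl⟩
  have hded : IsDedekindDomain (CR D) := dedekind h2 hodd hD.sqf
  exact nonvanish_L L h2 h3 hf hD (fun h => hB ⟨hded, h⟩) hL

/-- **Half of the twists.** -/
theorem main_bound (h2 : (2 : k) ≠ 0) (h3 : (3 : k) ≠ 0) {γ : ℕ} {f : k[X][X]}
    {m : k[X]} (hm : m.Monic) (hs : Squarefree m) (hf : IsUnipotent γ f m) {δ : ℝ}
    (hδ : δ < 1 / 2) :
    ∃ N : ℕ, ∀ g ≥ N, δ * (twists g m).ncard ≤ (goodTwists f g m).ncard := by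
  classical
  obtain ⟨N, hN⟩ := Pool.Agent.Y784.SV.st_S3 h2 (Pool.Agent.Y153.SV.S1 h2)
    (Pool.Agent.Y784.SV.st_S2 h2) hm hs hδ
  refine ⟨N, fun g hg => ?_⟩
  have h1 := hN g hg
  have h4 : (twists g m).ncard = (DS g m).card := by
    rw [← DS_coe, Set.ncard_coe_finset]
  have h5 : ((DS g m).filter fun D => ¬ Bad D).card ≤ (goodTwists f g m).ncard := by
    rw [← Set.ncard_coe_finset]
    apply Set.ncard_le_ncard
    · intro D hD
      rw [Finset.mem_coe, Finset.mem_filter, mem_DS] at hD
      exact good_of h2 h3 hf hD.1 hD.2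
    · exact ((DS g m).finite_toSet).subset fun D hD => by
        rw [DS_coe]
        exact hD.1
  rw [h4]
  refine h1.trans ?_
  exact_mod_cast h5

end

end Pool.Agent.Y711
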