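import Pool.Agent.Y711.Pt
import Pool.Agent.Y711.Fin

/-!
The zeta functions of the hypersurfaces have no pole at the integers besides the dimension.
-/

set_option autoImplicit false
set_option maxHeartbeats 1000000

open Polynomial

namespace Pool.Agent.Y711

open Pool.Agent.TH943.HJ Pool.Agent.W313.Hyp Pool.Agent.W343.BSD Pool.Agent.Y784.FC Module Zeta

section

theorem isGh_zeta (N : ℕ → ℕ) : IsGh (fun r => if r = 0 then (0 : ℚ) else (N r : ℚ)) (zeta N) := by
  unfold zeta
  set a : PowerSeries ℚ := PowerSeries.mk fun r => (N r : ℚ) / r with ha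
  have ha0 : PowerSeries.constantCoeff a = 0 := by
    rw [← PowerSeries.coeff_zero_eq_constantCoeff_apply, ha, PowerSeries.coeff_mk]
    simp
  have hs : PowerSeries.HasSubst a := PowerSeries.HasSubst.of_constantCoeff_zero' ha0
  refine ⟨?_, ?_⟩
  · have h1 : (PowerSeries.exp ℚ).subst a = (PowerSeries.exp ℚ - 1).subst a + 1 := by
      conv_lhs => rw [show PowerSeries.exp ℚ = (PowerSeries.exp ℚ - 1) + 1 from by ring]
      rw [PowerSeries.subst_add hs]
      congr 1
      rw [← PowerSeries.coe_substAlgHom hs, map_one]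
    have h2 : PowerSeries.constantCoeff ((PowerSeries.exp ℚ - 1).subst a) = 0 :=
      PowerSeries.constantCoeff_subst_eq_zero ha0 _ (by
        rw [map_sub, PowerSeries.constantCoeff_exp, map_one, sub_self])
    rw [h1, map_add, h2, map_one, zero_add]
  · rw [PowerSeries.derivative_subst hs, PowerSeries.derivative_exp]
    have h3 : (PowerSeries.X : PowerSeries ℚ) * PowerSeries.derivative ℚ a =
        PowerSeries.mk fun r => if r = 0 then (0 : ℚ) else (N r : ℚ) := by
      ext n
      rw [coeff_X_deriv, ha, PowerSeries.coeff_mk, PowerSeries.coeff_mk]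
      split_ifs with h
      · rw [h]; simp
      · have : (n : ℚ) ≠ 0 := Nat.cast_ne_zero.2 h
        field_simp
    rw [← h3]
    ring

theorem IsGh.rescale {R : Type*} [CommRing R] {s : ℕ → R} {f : PowerSeries R} (h : IsGh s f) (a : R) :
    IsGh (fun e => a ^ e * s e) (PowerSeries.rescale a f) := by
  rw [isGh_iff] at h ⊢
  refine ⟨?_, fun n => ?_⟩
  · rw [← PowerSeries.coeff_zero_eq_constantCoeff_apply, PowerSeries.coeff_rescale, pow_zero,
      one_mul, PowerSeries.coeff_zero_eq_constantCoeff_apply, h.1]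
  · rw [PowerSeries.coeff_rescale]
    calc (n : R) * (a ^ n * PowerSeries.coeff n f) = a ^ n * (n * PowerSeries.coeff n f) := by ring
      _ = _ := by
        rw [h.2 n, Finset.mul_sum]
        refine Finset.sum_congr rfl fun p hp => ?_
        rw [Finset.HasAntidiagonal.mem_antidiagonal] at hp
        rw [PowerSeries.coeff_rescale, ← hp, pow_add]
        ring

end

section

variable {k : Type} [Field k] [Finite k]

theorem AA_zero {n : ℕ} (D : k[X]) (c α β : Fin n → k[X]) (e : Fin n → ℕ) : AA D c α β e 0 = 0 := by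
  unfold AA
  apply Finset.sum_eq_zero
  intro P hP
  rw [Set.Finite.mem_toFinset] at hP
  have h1 : P.1.natDegree ≤ 0 := hP
  have := MI.deg_pos P
  omega

theorem kapZ_odd {n : ℕ} (hn : Odd n) (e : Fin n → ℕ) :
    kapZ e = -((((∏ i, ((3 * 3 ^ e i - 1) / 2)) * 2 ^ (n - 1) : ℕ)) : ℤ) := by
  unfold kapZ
  rw [Finset.prod_neg, Finset.card_univ, Fintype.card_fin, hn.neg_one_pow]
  push_cast
  ring

/-- **No pole.** -/
theorem no_pole (h2 : (2 : k) ≠ 0) (h3 : (3 : k) ≠ 0) {n : ℕ} (hn : Odd n) {g : ℕ} {m D : k[X]}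
    (hD : IsD g m D) [IsDedekindDomain (CR D)] (hh : ¬ 3 ∣ Nat.card (ClassGroup (CR D)))
    (c α β : Fin n → k[X]) (e : Fin n → ℕ) (hg : ∀ i, GoodReduction (c i) (α i) (β i) m) (j : ℕ) :
    ¬ HasPole (Nat.card k) (n + 1) j (zeta (numPoints D c α β e)) := by
  rintro ⟨G, hG⟩
  have hn0 : n ≠ 0 := by
    rintro rfl
    simp at hn
  obtain ⟨w, hw0, hw1, hw2⟩ := exists_WZ h2 hD.monic hD.deg hD.sqf
  have hw2' := hw2 (three_mod h3)
  set q := Nat.card k with hq
  set Z := zeta (numPoints D c α β e) with hZ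
  -- the primitive part
  set U : PowerSeries ℚ := Z * (1 - PowerSeries.C ((q : ℚ) ^ (n + 1)) * PowerSeries.X ^ 1) with hU
  have hghU : IsGh (fun r => ((AA D c α β e r : ℤ) : ℚ)) U := by
    have h4 := (isGh_zeta (numPoints D c α β e)).mul (isGh_factor ((q : ℚ) ^ (n + 1)) one_ne_zero)
    rw [← hZ, ← hU] at h4
    convert h4 using 1
    funext r
    rw [Pi.add_apply]
    by_cases hr : r = 0
    · rw [hr, AA_zero]
      simp
    · rw [if_neg hr, if_pos ⟨hr, one_dvd r⟩]
      have h5 := numPoints_eq h2 D c α β e hr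
      have h6 := congrArg (fun x : ℤ => (x : ℚ)) h5
      push_cast at h6
      rw [h6, Nat.div_one, ← pow_mul, mul_comm (n + 1) r, Nat.cast_one]
      ring
  have hUG : U * (((1 - C ((q : ℚ) ^ j) * X) * G : ℚ[X]) : PowerSeries ℚ) = 1 := by
    rw [← hG, hU, Polynomial.coe_mul, Polynomial.coe_mul, Polynomial.coe_mul]
    have e1 : ((1 - C ((q : ℚ) ^ (n + 1)) * X : ℚ[X]) : PowerSeries ℚ) =
        1 - PowerSeries.C ((q : ℚ) ^ (n + 1)) * PowerSeries.X ^ 1 := by
      rw [Polynomial.coe_sub, Polynomial.coe_one, Polynomial.coe_mul, Polynomial.coe_C,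
        Polynomial.coe_X, pow_one]
    rw [e1]
    ring
  -- the comparison
  set N : ℕ := (∏ i, ((3 * 3 ^ e i - 1) / 2)) * 2 ^ (n - 1) with hN
  have hghw : IsGh (fun r => Sg D r) (w : PowerSeries ℤ) := by
    have h4 := (isGh_EZ D).inv hw0
    convert h4 using 1
    funext r
    simp
  set V : PowerSeries ℤ := ((w : PowerSeries ℤ) * PowerSeries.rescale (q : ℤ) (w : PowerSeries ℤ)) ^ N
    with hV
  have hghV := (hghw.mul (hghw.rescale (q : ℤ))).pow N
  rw [← hV] at hghV
  set ι : ℤ_[3] →+* ℚ_[3] := algebraMap ℤ_[3] ℚ_[3] with hι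
  set s : ℕ → ℤ_[3] := fun r => ((AA D c α β e r + N * ((1 + (q : ℤ) ^ r) * Sg D r) : ℤ) : ℤ_[3])
    with hs
  have hghUV : IsGh (fun r => ι (s r)) (PowerSeries.map (algebraMap ℚ ℚ_[3]) U *
      PowerSeries.map (Int.castRingHom ℚ_[3]) V) := by
    have h4 := (hghU.map (algebraMap ℚ ℚ_[3])).mul (hghV.map (Int.castRingHom ℚ_[3]))
    convert h4 using 1
    funext r
    rw [hs, Pi.add_apply, Pi.smul_apply, Pi.add_apply]
    simp only [map_intCast, eq_intCast, nsmul_eq_mul]
    push_cast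
    ring
  have hdvd : ∀ r : ℕ, (3 * r : ℤ_[3]) ∣ s r := by
    intro r
    by_cases hr : r = 0
    · have h4 : Sg D 0 = 0 := by
        rw [Sg_def]
        exact Finset.sum_eq_zero fun P _ => if_neg (fun h => h.1 rfl)
      rw [hs, hr]
      simp only [AA_zero, h4, mul_zero, add_zero, Int.cast_zero]
      exact dvd_zero _
    · have h4 := AA_cong h2 h3 hn0 hD.dvd c α β e hg hr
      rw [kapZ_odd hn, ← hN] at h4
      rw [hs]
      refine (dvd_iff_dvd_of_dvd_sub ?_).1 h4
      rw [show (((AA D c α β e r : ℤ) : ℤ_[3]) - ((-(N : ℤ) : ℤ) : ℤ_[3]) *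
        (1 + ((Nat.card k : ℕ) : ℤ_[3]) ^ r) * ((Sg D r : ℤ) : ℤ_[3])) -
        ((AA D c α β e r + N * ((1 + (q : ℤ) ^ r) * Sg D r) : ℤ) : ℤ_[3]) = 0 from by
          push_cast
          ring]
      exact dvd_zero _
  obtain ⟨g1, hg0, hg1⟩ := gh_conv (K := ℚ_[3]) pad_dvd hghUV hdvd
  -- everything over the integers
  have hone : PowerSeries.constantCoeff (1 + 3 * g1) = 1 := by
    rw [map_add, map_one, map_mul, hg0, mul_zero, add_zero]
  obtain ⟨g2, hg2⟩ := exists_inv hone
  have hone' : PowerSeries.constantCoeff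
      (1 - PowerSeries.C ((q : ℤ_[3]) ^ j) * PowerSeries.X : PowerSeries ℤ_[3]) = 1 := by
    rw [map_sub, map_one, map_mul, PowerSeries.constantCoeff_X, mul_zero, sub_zero]
  obtain ⟨l, hl⟩ := exists_inv hone'
  set V' : PowerSeries ℤ_[3] := PowerSeries.map (Int.castRingHom ℤ_[3]) V with hV'
  set H : PowerSeries ℤ_[3] := V' * g2 * l with hH
  have hVH : V' = (1 + 3 * g1) * ((1 - PowerSeries.C ((q : ℤ_[3]) ^ j) * PowerSeries.X) * H) := by
    rw [hH]
    calc V' = V' * ((1 + 3 * g1) * g2) *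
        ((1 - PowerSeries.C ((q : ℤ_[3]) ^ j) * PowerSeries.X) * l) := by rw [hg2, hl, mul_one, mul_one]
      _ = _ := by ring
  have hmapV : PowerSeries.map ι V' = PowerSeries.map (Int.castRingHom ℚ_[3]) V := by
    rw [hV']
    ext n
    simp
  have hmapH : PowerSeries.map ι H = ((G.map (algebraMap ℚ ℚ_[3]) : ℚ_[3][X]) : PowerSeries ℚ_[3]) := by
    have e1 := congrArg (PowerSeries.map (algebraMap ℚ ℚ_[3])) hUG
    rw [map_mul, map_one, ← Polynomial.polynomial_map_coe, Polynomial.map_mul, Polynomial.map_sub,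
      Polynomial.map_one, Polynomial.map_mul, Polynomial.map_C, Polynomial.map_X,
      Polynomial.coe_mul, Polynomial.coe_sub, Polynomial.coe_one, Polynomial.coe_mul,
      Polynomial.coe_C, Polynomial.coe_X, map_pow, map_natCast] at e1
    have e2 := congrArg (PowerSeries.map ι) hg2
    have e3 := congrArg (PowerSeries.map ι) hl
    rw [map_mul, map_one] at e2 e3
    rw [map_sub, map_one, map_mul, PowerSeries.map_C, PowerSeries.map_X, map_pow, map_natCast] at e3
    rw [← hg1] at e2
    rw [hH, map_mul, map_mul, hmapV]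
    set U3 := PowerSeries.map (algebraMap ℚ ℚ_[3]) U
    set V3 := PowerSeries.map (Int.castRingHom ℚ_[3]) V
    set G3 := ((G.map (algebraMap ℚ ℚ_[3]) : ℚ_[3][X]) : PowerSeries ℚ_[3])
    set g3 := PowerSeries.map ι g2
    set l3 := PowerSeries.map ι l
    set A3 := (1 - PowerSeries.C ((q : ℚ_[3]) ^ j) * PowerSeries.X : PowerSeries ℚ_[3])
    calc V3 * g3 * l3 = (U3 * (A3 * G3)) * V3 * g3 * l3 := by rw [e1, one_mul]
      _ = (U3 * V3 * g3) * (A3 * l3) * G3 := by ring
      _ = G3 := by rw [e2, e3, one_mul, one_mul]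
  -- `H` is a polynomial
  have hcoef : ∀ i : ℕ, G.natDegree < i → PowerSeries.coeff i H = 0 := by
    intro i hi
    have e1 := congrArg (PowerSeries.coeff i) hmapH
    rw [PowerSeries.coeff_map, Polynomial.coeff_coe, Polynomial.coeff_map,
      Polynomial.coeff_eq_zero_of_natDegree_lt hi, map_zero] at e1
    have hinj : Function.Injective ι := by
      rw [hι]
      exact FaithfulSMul.algebraMap_injective ℤ_[3] ℚ_[3]
    exact hinj (by rw [e1, map_zero])
  have hHpol : H = ((PowerSeries.trunc (G.natDegree + 1) H : ℤ_[3][X]) : PowerSeries ℤ_[3]) := by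
    ext i
    rw [Polynomial.coeff_coe, PowerSeries.coeff_trunc]
    split_ifs with hi
    · rfl
    · exact hcoef i (by omega)
  set H0 := PowerSeries.trunc (G.natDegree + 1) H with hH0
  -- reduction modulo three
  set ρ : ℤ_[3] →+* ZMod 3 := PadicInt.toZMod with hρ
  have hred := congrArg (PowerSeries.map ρ) hVH
  set a : ZMod 3 := ((q : ℕ) : ZMod 3) with ha
  set w3 : (ZMod 3)[X] := w.map (Int.castRingHom (ZMod 3)) with hw3
  have hp : Fact (Nat.Prime 3) := ⟨Nat.prime_three⟩
  have e1 : PowerSeries.map ρ V' = (((w3 * w3.comp (C a * X)) ^ N : (ZMod 3)[X]) :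
      PowerSeries (ZMod 3)) := by
    have e2 : PowerSeries.map ρ V' = red3 V := by
      rw [hV']
      ext n
      simp
    rw [e2, hV, map_pow, map_mul, Polynomial.coe_pow, Polynomial.coe_mul, coe_comp_scale]
    congr 2
    · rw [hw3, Polynomial.polynomial_map_coe]
    · rw [hw3, Polynomial.polynomial_map_coe]
      ext n
      simp [PowerSeries.coeff_rescale, ha]
  have e3 : PowerSeries.map ρ (1 + 3 * g1) = 1 := by
    rw [map_add, map_one, map_mul, map_ofNat]
    have : (3 : PowerSeries (ZMod 3)) = 0 := by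
      rw [show (3 : PowerSeries (ZMod 3)) = PowerSeries.C (3 : ZMod 3) from by rw [map_ofNat],
        show (3 : ZMod 3) = 0 from rfl, map_zero]
    rw [this, zero_mul, add_zero]
  have e4 : PowerSeries.map ρ ((1 - PowerSeries.C ((q : ℤ_[3]) ^ j) * PowerSeries.X) * H) =
      (((1 - C (a ^ j) * X) * H0.map ρ : (ZMod 3)[X]) : PowerSeries (ZMod 3)) := by
    rw [map_mul, map_sub, map_one, map_mul, PowerSeries.map_C, PowerSeries.map_X, map_pow,
      map_natCast, hHpol, ← Polynomial.polynomial_map_coe, Polynomial.coe_mul, Polynomial.coe_sub,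
      Polynomial.coe_one, Polynomial.coe_mul, Polynomial.coe_C, Polynomial.coe_X]
  rw [map_mul, e1, e3, one_mul, e4] at hred
  have hpol := Polynomial.coe_injective (ZMod 3) hred
  have hu := unit3 (three_mod h3)
  rw [← hq, ← ha] at hu
  have hu2 : ∀ i : ℕ, a ^ i * a ^ i = 1 := fun i => by rw [← mul_pow, hu, one_pow]
  have h7 := congrArg (Polynomial.eval (a ^ j)) hpol
  rw [Polynomial.eval_pow, Polynomial.eval_mul, eval_comp_scale, Polynomial.eval_mul,
    Polynomial.eval_sub, Polynomial.eval_one, Polynomial.eval_mul, Polynomial.eval_C,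
    Polynomial.eval_X, hu2 j, sub_self, zero_mul] at h7
  -- the values
  have hh' : ((Nat.card (ClassGroup (CR D)) : ℕ) : ZMod 3) ≠ 0 := by
    rw [Ne, ZMod.natCast_eq_zero_iff]
    exact hh
  have ha0 : a ≠ 0 := by
    intro h
    rw [h, zero_mul] at hu
    exact zero_ne_one hu
  have hv1 : w3.eval 1 ≠ 0 := by
    rw [hw3, Polynomial.eval_map, Polynomial.eval₂_at_one, hw1]
    simpa using hh'
  have hva : w3.eval a ≠ 0 := by
    rw [hw3, ha, hq, hw2']
    exact mul_ne_zero hh' (pow_ne_zero _ ha0)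
  have hval : ∀ i : ℕ, w3.eval (a ^ i) ≠ 0 := by
    intro i
    obtain ⟨l, hl | hl⟩ := Nat.even_or_odd' i
    · have : a ^ i = 1 := by rw [hl, two_mul, pow_add, hu2]
      rw [this]
      exact hv1
    · have : a ^ i = a := by rw [hl, pow_succ, two_mul, pow_add, hu2, one_mul]
      rw [this]
      exact hva
  have h8 : (w3.eval (a ^ j) * w3.eval (a * a ^ j)) ^ N ≠ 0 := by
    apply pow_ne_zero
    refine mul_ne_zero (hval j) ?_
    rw [← pow_succ']
    exact hval (j + 1)
  exact h8 h7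

omit [Finite k] in
theorem twists_eq (g : ℕ) (m : k[X]) : Zeta.twists g m = Pool.Agent.Y711.twists g m := rfl

/-- **Half of the twists.** -/
theorem zeta_bound (h2 : (2 : k) ≠ 0) (h3 : (3 : k) ≠ 0) {m : k[X]} (hm : m.Monic)
    (hs : Squarefree m) {δ : ℝ} (hδ : δ < 1 / 2) :
    ∃ N : ℕ, ∀ g ≥ N, δ * (Zeta.twists g m).ncard ≤ (Zeta.goodTwists g m).ncard := by
  classical
  obtain ⟨N, hN⟩ := Pool.Agent.Y784.SV.st_S3 h2 (Pool.Agent.Y153.SV.S1 h2)
    (Pool.Agent.Y784.SV.st_S2 h2) hm hs hδ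
  refine ⟨N, fun g hg => ?_⟩
  have h1 := hN g hg
  have h4 : (Zeta.twists g m).ncard = (DS g m).card := by
    rw [twists_eq, ← DS_coe, Set.ncard_coe_finset]
  have h5 : ((DS g m).filter fun D => ¬ Bad D).card ≤ (Zeta.goodTwists g m).ncard := by
    rw [← Set.ncard_coe_finset]
    apply Set.ncard_le_ncard
    · intro D hD
      rw [Finset.mem_coe, Finset.mem_filter, mem_DS] at hD
      have hodd : Odd D.natDegree := by
        rw [hD.1.deg]
        exact ⟨g, rfl⟩
      have hded : IsDedekindDomain (CR D) := dedekind h2 hodd hD.1.sqf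
      refine ⟨by rw [twists_eq]; exact IsD_iff.1 hD.1, ?_⟩
      intro n c α β e hn hgood j
      exact no_pole h2 h3 hn hD.1 (fun h => hD.2 ⟨hded, h⟩) c α β e hgood j
    · exact ((DS g m).finite_toSet).subset fun D hD => by
        rw [DS_coe, ← twists_eq]
        exact hD.1
  rw [h4]
  refine h1.trans ?_
  exact_mod_cast h5

end

end Pool.Agent.Y711
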