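import Pool.Agent.Y711.BB1
import Pool.Agent.Y711.Zt

/-!
The local factors of the tensor products as power series over the three-adic integers.
-/

set_option autoImplicit false
set_option maxHeartbeats 1000000

open PowerSeries

namespace Pool.Agent.Y711

theorem isGh_exp (a : PowerSeries ℚ) (ha0 : constantCoeff a = 0) :
    IsGh (fun e => (e : ℚ) * coeff e a) ((PowerSeries.exp ℚ).subst a) := by
  have hs : PowerSeries.HasSubst a := PowerSeries.HasSubst.of_constantCoeff_zero' ha0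
  refine ⟨?_, ?_⟩
  · have h1 : (PowerSeries.exp ℚ).subst a = (PowerSeries.exp ℚ - 1).subst a + 1 := by
      conv_lhs => rw [show PowerSeries.exp ℚ = (PowerSeries.exp ℚ - 1) + 1 from by ring]
      rw [PowerSeries.subst_add hs]
      congr 1
      rw [← PowerSeries.coe_substAlgHom hs, map_one]
    have h2 : PowerSeries.constantCoeff ((PowerSeries.exp ℚ - 1).subst a) = 0 :=
      PowerSeries.constantCoeff_subst_eq_zero ha0 _ (by
        rw [map_sub, PowerSeries.constantCoeff_exp, map_one, sub_self])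
    rw [h1, map_add, h2, map_one, zero_add]
  · rw [PowerSeries.derivative_subst hs, PowerSeries.derivative_exp]
    have h3 : (PowerSeries.X : PowerSeries ℚ) * PowerSeries.derivative ℚ a =
        PowerSeries.mk fun e => (e : ℚ) * coeff e a := by
      ext n
      rw [coeff_X_deriv, PowerSeries.coeff_mk]
    rw [← h3]
    ring

theorem isGh_expSeries {d : ℕ} (hd : d ≠ 0) (s : ℕ → ℤ) :
    IsGh (fun e => if e ≠ 0 ∧ d ∣ e then (((d : ℤ) * s (e / d) : ℤ) : ℚ) else 0)
      (expSeries d s) := by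
  have h1 := isGh_exp (PowerSeries.mk fun e => if d ∣ e then (s (e / d) : ℚ) / ((e / d : ℕ) : ℚ)
    else 0) (by
      rw [← coeff_zero_eq_constantCoeff_apply, coeff_mk, if_pos (dvd_zero d)]
      simp)
  have h2 : expSeries d s = (PowerSeries.exp ℚ).subst (PowerSeries.mk fun e =>
    if d ∣ e then (s (e / d) : ℚ) / ((e / d : ℕ) : ℚ) else 0) := rfl
  rw [h2]
  convert h1 using 1
  funext e
  rw [coeff_mk]
  by_cases he : e = 0
  · rw [if_neg (fun h => h.1 he), he, Nat.cast_zero, zero_mul]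
  · by_cases hde : d ∣ e
    · rw [if_pos ⟨he, hde⟩, if_pos hde]
      obtain ⟨r, rfl⟩ := hde
      have hr : (r : ℚ) ≠ 0 := by
        rw [Nat.cast_ne_zero]
        rintro rfl
        exact he (mul_zero d)
      rw [Nat.mul_div_cancel_left _ (Nat.pos_of_ne_zero hd)]
      push_cast
      field_simp
    · rw [if_neg (fun h => hde h.2), if_neg hde, mul_zero]

theorem gh_order {K : Type*} [Field K] [CharZero K] {f : PowerSeries K} {s : ℕ → K}
    (h : IsGh s f) {d : ℕ} (hs : ∀ e < d, s e = 0) : (X : PowerSeries K) ^ d ∣ f - 1 := by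
  rw [X_pow_dvd_iff]
  intro m hm
  by_cases hm0 : m = 0
  · rw [hm0, coeff_zero_eq_constantCoeff_apply, map_sub, h.1, map_one, sub_self]
  · have h1 := ((isGh_iff _ _).1 h).2 m
    have h2 : ∑ p ∈ Finset.HasAntidiagonal.antidiagonal m, coeff p.1 f * s p.2 = 0 := by
      apply Finset.sum_eq_zero
      intro p hp
      rw [Finset.HasAntidiagonal.mem_antidiagonal] at hp
      rw [hs p.2 (by omega), mul_zero]
    rw [h2] at h1
    have h3 : coeff m f = 0 := (mul_eq_zero.1 h1).resolve_left (Nat.cast_ne_zero.2 hm0)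
    rw [map_sub, h3, coeff_one, if_neg hm0, sub_zero]

/-- **The local factor.** -/
theorem local_factor {Q κ d : ℕ} (χ : ℤ) {s : ℕ → ℤ} (hd : d ≠ 0)
    (hs : ∀ r : ℕ, r ≠ 0 → (3 * r : ℤ_[3]) ∣ ((s r : ℤ) : ℤ_[3]) - (κ : ℤ_[3]) *
      (1 + ((Q : ℕ) : ℤ_[3]) ^ r)) :
    ∃ A : PowerSeries ℤ_[3],
      PowerSeries.map (algebraMap ℤ_[3] ℚ_[3]) A =
        PowerSeries.map (algebraMap ℚ ℚ_[3]) (expSeries d fun r => χ ^ r * s r) ∧
      (X : PowerSeries ℤ_[3]) ^ d ∣ A - 1 ∧
      PowerSeries.map (PadicInt.toZMod (p := 3)) A *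
        ((1 - C ((χ : ℤ) : ZMod 3) * X ^ d) *
          (1 - C (((Q : ℕ) : ZMod 3) * ((χ : ℤ) : ZMod 3)) * X ^ d)) ^ κ = 1 := by
  set ι : ℤ_[3] →+* ℚ_[3] := algebraMap ℤ_[3] ℚ_[3] with hι
  have hinj : Function.Injective ι := FaithfulSMul.algebraMap_injective ℤ_[3] ℚ_[3]
  set E := expSeries d fun r => χ ^ r * s r with hE
  have hghE := isGh_expSeries hd (fun r => χ ^ r * s r)
  rw [← hE] at hghE
  set V : PowerSeries ℤ := ((1 - C χ * X ^ d) * (1 - C (((Q : ℕ) : ℤ) * χ) * X ^ d)) ^ κ with hV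
  have hghV := ((isGh_factor χ hd).mul (isGh_factor (((Q : ℕ) : ℤ) * χ) hd)).pow κ
  rw [← hV] at hghV
  set s' : ℕ → ℤ_[3] := fun e => if e ≠ 0 ∧ d ∣ e then
    (d : ℤ_[3]) * ((χ : ℤ_[3]) ^ (e / d) * (((s (e / d) : ℤ) : ℤ_[3]) - (κ : ℤ_[3]) *
      (1 + ((Q : ℕ) : ℤ_[3]) ^ (e / d)))) else 0 with hs'
  have hgh : IsGh (fun e => ι (s' e)) (PowerSeries.map (algebraMap ℚ ℚ_[3]) E *
      PowerSeries.map (Int.castRingHom ℚ_[3]) V) := by
    have h4 := (hghE.map (algebraMap ℚ ℚ_[3])).mul (hghV.map (Int.castRingHom ℚ_[3]))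
    convert h4 using 1
    funext e
    rw [hs', Pi.add_apply, Pi.smul_apply, Pi.add_apply]
    by_cases h5 : e ≠ 0 ∧ d ∣ e
    · simp only [if_pos h5, map_intCast, eq_intCast, nsmul_eq_mul, map_mul, map_sub, map_add,
        map_pow, map_natCast, map_one]
      push_cast
      ring
    · simp only [if_neg h5, map_zero, add_zero, smul_zero]
  have hdvd : ∀ e : ℕ, (3 * e : ℤ_[3]) ∣ s' e := by
    intro e
    rw [hs']
    by_cases h5 : e ≠ 0 ∧ d ∣ e
    · simp only [if_pos h5]
      obtain ⟨h6, r, rfl⟩ := h5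
      have hr : r ≠ 0 := by
        rintro rfl
        exact h6 (mul_zero d)
      rw [Nat.mul_div_cancel_left _ (Nat.pos_of_ne_zero hd)]
      obtain ⟨w, hw⟩ := hs r hr
      refine ⟨(χ : ℤ_[3]) ^ r * w, ?_⟩
      rw [hw]
      push_cast
      ring
    · simp only [if_neg h5]
      exact dvd_zero _
  obtain ⟨g1, hg0, hg1⟩ := gh_conv (K := ℚ_[3]) pad_dvd hgh hdvd
  set V' : PowerSeries ℤ_[3] := PowerSeries.map (Int.castRingHom ℤ_[3]) V with hV'
  have hV1 : constantCoeff V' = 1 := by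
    rw [hV', ← coeff_zero_eq_constantCoeff_apply, coeff_map, coeff_zero_eq_constantCoeff_apply,
      hghV.1, map_one]
  obtain ⟨W, hW⟩ := exists_inv hV1
  have hmapV : PowerSeries.map ι V' = PowerSeries.map (Int.castRingHom ℚ_[3]) V := by
    rw [hV']
    ext n
    simp
  have hA : PowerSeries.map ι ((1 + 3 * g1) * W) = PowerSeries.map (algebraMap ℚ ℚ_[3]) E := by
    rw [map_mul, ← hg1, ← hmapV, mul_assoc, ← map_mul, hW, map_one, mul_one]
  refine ⟨(1 + 3 * g1) * W, hA, ?_, ?_⟩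
  · have h6 : (X : PowerSeries ℚ) ^ d ∣ E - 1 := gh_order hghE fun e he => if_neg (by
      rintro ⟨h7, h8⟩
      exact absurd (Nat.le_of_dvd (Nat.pos_of_ne_zero h7) h8) (not_le.2 he))
    rw [X_pow_dvd_iff] at h6 ⊢
    intro m hm
    apply hinj
    have h7 := congrArg (coeff m) hA
    have h8 := h6 m hm
    rw [map_sub] at h8 ⊢
    rw [coeff_map, coeff_map] at h7
    rw [map_sub, h7, map_zero, sub_eq_zero.1 h8, coeff_one, coeff_one]
    split_ifs <;> simp
  · set ρ : ℤ_[3] →+* ZMod 3 := PadicInt.toZMod with hρ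
    have e1 : PowerSeries.map ρ V' = ((1 - C ((χ : ℤ) : ZMod 3) * X ^ d) *
          (1 - C (((Q : ℕ) : ZMod 3) * ((χ : ℤ) : ZMod 3)) * X ^ d)) ^ κ := by
      have e2 : PowerSeries.map ρ V' = PowerSeries.map (Int.castRingHom (ZMod 3)) V := by
        rw [hV']
        ext n
        simp
      rw [e2, hV, map_pow, map_mul, map_sub, map_sub, map_one,
        map_mul (PowerSeries.map (Int.castRingHom (ZMod 3))),
        map_mul (PowerSeries.map (Int.castRingHom (ZMod 3))), PowerSeries.map_C,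
        PowerSeries.map_C, map_pow, PowerSeries.map_X, eq_intCast, eq_intCast, Int.cast_mul,
        Int.cast_natCast]
    have e3 : PowerSeries.map ρ (1 + 3 * g1) = 1 := by
      rw [map_add, map_one, map_mul, map_ofNat]
      have : (3 : PowerSeries (ZMod 3)) = 0 := by
        rw [show (3 : PowerSeries (ZMod 3)) = PowerSeries.C (3 : ZMod 3) from by rw [map_ofNat],
          show (3 : ZMod 3) = 0 from rfl, map_zero]
      rw [this, zero_mul, add_zero]
    rw [← e1, map_mul, e3, one_mul, ← map_mul, mul_comm W, hW, map_one]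

end Pool.Agent.Y711
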