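import Pool.Agent.Y711.CL6

/-!
Half of the polynomials in every class.
-/

set_option autoImplicit false
set_option maxHeartbeats 1000000
set_option synthInstance.maxHeartbeats 400000

open Polynomial

namespace Pool.Agent.Y711

open Pool.Agent.TH943.HJ Pool.Agent.W313.Hyp Pool.Agent.W343.BSD Pool.Agent.Y784.FC

variable {k : Type} [Field k] [Finite k]

/-- **Half of the polynomials in every class.** -/
theorem class_half (h2 : (2 : k) ≠ 0)
    {m n a : k[X]} (hm : m.Monic) (hn : n.Monic) (hs : Squarefree (m * n)) (ha : IsCoprime n a)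
    (Q : ℕ → k[X] → Prop) (hQ : ∀ g D, D ∈ twistClass g m n a → ¬ Bad D → Q g D) {δ : ℝ} (hδ : δ < 1 / 2) :
    ∃ N : ℕ, ∀ g ≥ N, δ * (twistClass g m n a).ncard ≤
      {D : k[X] | D ∈ twistClass g m n a ∧ Q g D}.ncard := by
  classical
  have ha' : ∀ P : MI k, P.1 ∣ n → ¬ P.1 ∣ a := by
    intro P h4 h5
    exact P.2.2.not_isUnit (ha.isUnit_of_dvd' h4 h5)
  let W : MI k → Finset ℤ := fun P => if P.1 ∣ n then {chi a P.1} else {1}
  have hW : ∀ P, W P ⊆ {1, -1} := by
    intro P
    show (if P.1 ∣ n then ({chi a P.1} : Finset ℤ) else {1}) ⊆ {1, -1}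
    split_ifs with h
    · rcases chi_cases (ha' P h) with h5 | h5
      · rw [h5]
        decide
      · rw [h5]
        decide
    · decide
  have hcls : ∀ D : k[X], IsCls n W D ↔ ∀ P : MI k, P.1 ∣ n → chi D P.1 = chi a P.1 := by
    intro D
    unfold IsCls
    refine forall_congr' fun P => ?_
    refine forall_congr' fun hP => ?_
    show chi D P.1 ∈ (if P.1 ∣ n then ({chi a P.1} : Finset ℤ) else {1}) ↔ _
    rw [if_pos hP, Finset.mem_singleton]
  obtain ⟨N, hN⟩ := Pool.Agent.Y785.SC.SC3 h2 (Pool.Agent.Y290.SC.SC1 h2)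
    (Pool.Agent.Y779.SC.SC2 h2) m n hm hn hs W hW δ hδ
  refine ⟨N, fun g hg => ?_⟩
  have h1 := hN g hg
  have hcoe : (DSc g m n W : Set k[X]) = twistClass g m n a := by
    ext D
    rw [Finset.mem_coe, Pool.Agent.Y785.SC.mem_DSc, hcls]
    constructor
    · rintro ⟨h4, h5⟩
      refine ⟨IsD_iff.1 h4, ?_⟩
      intro P hP1 hP2 hP3
      have h6 := h5 ⟨P, hP1, hP2⟩ hP3
      rw [← quadSym_mk, ← quadSym_mk] at h6
      exact h6
    · rintro ⟨h4, h5⟩
      refine ⟨IsD_iff.2 h4, ?_⟩
      intro P hP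
      rw [← quadSym_mk, ← quadSym_mk]
      exact h5 P.1 P.2.1 P.2.2 hP
  have h4 : (twistClass g m n a).ncard = (DSc g m n W).card := by
    rw [← hcoe, Set.ncard_coe_finset]
  have h5 : ((DSc g m n W).filter fun D => ¬ Bad D).card ≤
      {D : k[X] | D ∈ twistClass g m n a ∧ Q g D}.ncard := by
    rw [← Set.ncard_coe_finset]
    apply Set.ncard_le_ncard
    · intro D hD
      rw [Finset.mem_coe, Finset.mem_filter, ← Finset.mem_coe, hcoe] at hD
      exact ⟨hD.1, hQ g D hD.1 hD.2⟩
    · exact ((DSc g m n W).finite_toSet).subset fun D hD => by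
        rw [hcoe]
        exact hD.1
  rw [h4]
  refine h1.trans ?_
  exact_mod_cast h5

omit [Finite k] in
theorem chi_of_class {g : ℕ} {m n a D : k[X]} (h : D ∈ twistClass g m n a) (P : MI k)
    (hP : P.1 ∣ n) : chi D P.1 = chi a P.1 := by
  rw [← quadSym_mk, ← quadSym_mk]
  exact h.2 P.1 P.2.1 P.2.2 hP

/-- Those `D` in the class of `a` such that for all the curves and all the extensions `L` the order of
vanishing of the `L`-function is at most `[L : k(t)]` times the weight of the class. -/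
def goodAll (g : ℕ) (m n a : k[X]) : Set k[X] :=
  {D | D ∈ twistClass g m n a ∧ ∀ (γ : ℕ) (f : k[X][X]), IsUnipotentNodal γ f m n →
    ∀ (L : Type) [Field L] [Algebra k[X] L] [Algebra (RatFunc k) L]
      [IsScalarTower k[X] (RatFunc k) L], IsThreeExtension D L →
        ¬ VanishesToOrder (Module.finrank (RatFunc k) L * splitWeight f n a + 1) f D
          (integralClosure k[X] L)}

/-- **Half of the twists in every class, for all curves at once.** -/
theorem all_bound (h2 : (2 : k) ≠ 0) (h3 : (3 : k) ≠ 0)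
    {m n a : k[X]} (hm : m.Monic) (hn : n.Monic) (hs : Squarefree (m * n)) (ha : IsCoprime n a)
    {δ : ℝ} (hδ : δ < 1 / 2) :
    ∃ N : ℕ, ∀ g ≥ N, δ * (twistClass g m n a).ncard ≤ (goodAll g m n a).ncard := by
  have ha' : ∀ P : MI k, P.1 ∣ n → ¬ P.1 ∣ a := by
    intro P h4 h5
    exact P.2.2.not_isUnit (ha.isUnit_of_dvd' h4 h5)
  refine class_half h2 hm hn hs ha (fun _ D => ∀ (γ : ℕ) (f : k[X][X]), IsUnipotentNodal γ f m n →
    ∀ (L : Type) [Field L] [Algebra k[X] L] [Algebra (RatFunc k) L]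
      [IsScalarTower k[X] (RatFunc k) L], IsThreeExtension D L →
        ¬ VanishesToOrder (Module.finrank (RatFunc k) L * splitWeight f n a + 1) f D
          (integralClosure k[X] L)) ?_ hδ
  intro g D hD hB γ f hf
  exact (goodClass_of h2 h3 hn.ne_zero ha' hf (IsD_iff.2 hD.1) (fun P hP => chi_of_class hD P hP)
    hB).2

end Pool.Agent.Y711
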