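import Pool.Agent.Y711.BB2
import Pool.Agent.Y711.CL7

/-!
Nonvanishing of the L-functions of the tensor products over Galois extensions of degree a power of
three.
-/

set_option autoImplicit false
set_option maxHeartbeats 1000000
set_option synthInstance.maxHeartbeats 400000

open PowerSeries

namespace Pool.Agent.Y711

open Pool.Agent.TH943.HJ Pool.Agent.W313.Hyp Pool.Agent.W343.BSD

section

variable {k : Type} [Field k] [Finite k] {B : Type} [CommRing B] [IsDedekindDomain B]
  [Algebra (Polynomial k) B] [Module.Finite (Polynomial k) B] [Module.Flat (Polynomial k) B]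
  (G : Type) [Group G] [Finite G] [MulSemiringAction G B] [IsGaloisGroup G (Polynomial k) B]

include G in
/-- An Euler product over the maximal ideals of `B` whose factors are modulo three the inverses of
powers of those of the quadratic character and its shift does not vanish at the powers of `q`. -/
theorem no_zero_B (h2 : (2 : k) ≠ 0) (h3 : (3 : k) ≠ 0) {j : ℕ}
    (hG : Nat.card G = 3 ^ j) {g : ℕ} {m D : Polynomial k}
    (hD : IsD g m D) [IsDedekindDomain (CR D)] (hh : ¬ 3 ∣ Nat.card (ClassGroup (CR D)))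
    (hram : ∀ P : MI k, (sp P).ramificationIdxIn B ≠ 1 → chi D P.1 ≠ 1) (r : ℕ)
    (A : MxD D B → PowerSeries (ZMod 3))
    (hA : ∀ v : MxD D B, (X : PowerSeries (ZMod 3)) ^ dgM k v.1 ∣ A v - 1)
    (hAw : ∀ v : MxD D B, A v *
      (wM D v.1 * rescale ((Nat.card k : ℕ) : ZMod 3) (wM D v.1)) ^ r = 1)
    {P : Polynomial (ZMod 3)} (hP : eulerProd (fun v : MxD D B => dgM k v.1) A =
      (P : PowerSeries (ZMod 3))) (i : ℕ) :
    P.eval (((Nat.card k : ℕ) : ZMod 3) ^ i) ≠ 0 := by
  have hp : Fact (Nat.Prime 3) := ⟨Nat.prime_three⟩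
  obtain ⟨U, V, hU, hUV⟩ := euler_max_line G (B := B) h2 hG D hram
  obtain ⟨wZ, hw0, hw1, hw2⟩ := exists_WZ h2 hD.monic hD.deg hD.sqf
  have hw2' := hw2 (three_mod h3)
  have hu := unit3 (three_mod h3)
  set a : ZMod 3 := ((Nat.card k : ℕ) : ZMod 3) with ha
  have ha0 : a ≠ 0 := by
    rintro h
    rw [h, zero_mul] at hu
    exact zero_ne_one hu
  have hUa : U.eval a ≠ 0 := hU a fun P hP => card_pow_cast (tame_card G h3 hG P hP)
  have hU1 : U.eval 1 ≠ 0 := hU 1 fun P _ => one_pow _
  have hfin := fun n => fin_max (B := B) D n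
  set w : Polynomial (ZMod 3) := wZ.map (Int.castRingHom (ZMod 3)) with hw
  have e1 : E3 D * (w : PowerSeries (ZMod 3)) = 1 := by
    have := congrArg red3 hw0
    rw [map_mul, map_one, red3_EZ, ← Polynomial.polynomial_map_coe] at this
    exact this
  have hh' : ((Nat.card (ClassGroup (CR D)) : ℕ) : ZMod 3) ≠ 0 := by
    rw [Ne, ZMod.natCast_eq_zero_iff]
    exact hh
  have hv1 : w.eval 1 ≠ 0 := by
    rw [hw, Polynomial.eval_map, Polynomial.eval₂_at_one, hw1]
    simpa using hh'
  have hva : w.eval a ≠ 0 := by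
    rw [hw, hw2']
    exact mul_ne_zero hh' (pow_ne_zero _ ha0)
  have hu2 : ∀ i : ℕ, a ^ i * a ^ i = 1 := fun i => by rw [← mul_pow, hu, one_pow]
  have hcase : ∀ i : ℕ, a ^ i = 1 ∨ a ^ i = a := by
    intro i
    obtain ⟨l, hl | hl⟩ := Nat.even_or_odd' i
    · left
      rw [hl, two_mul, pow_add, hu2]
    · right
      rw [hl, pow_succ, two_mul, pow_add, hu2, one_mul]
  have hwi : ∀ i : ℕ, w.eval (a ^ i) ≠ 0 := by
    intro i
    rcases hcase i with h | h <;> rw [h]
    exacts [hv1, hva]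
  have hUi : ∀ i : ℕ, U.eval (a ^ i) ≠ 0 := by
    intro i
    rcases hcase i with h | h <;> rw [h]
    exacts [hU1, hUa]
  set w' : Polynomial (ZMod 3) := w.comp (Polynomial.C a * Polynomial.X) with hw'
  have e3 : rescale a (E3 D) * (w' : PowerSeries (ZMod 3)) = 1 := by
    rw [hw', coe_comp_scale, ← map_mul, e1, map_one]
  set EL : PowerSeries (ZMod 3) :=
    eulerProd (fun v : MxD D B => dgM k v.1) (fun v => wM D v.1) with hEL
  have hww : ∀ v : MxD D B, (X : PowerSeries (ZMod 3)) ^ dgM k v.1 ∣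
      wM D v.1 * rescale a (wM D v.1) - 1 := fun v =>
    one_mod_mul (wM_dvd D v.1) (rescale_dvd_one a (wM_dvd D v.1))
  have h1 : (P : PowerSeries (ZMod 3)) * (EL * rescale a EL) ^ r = 1 := by
    rw [hEL, rescale_eulerProd hfin a (fun v => wM_dvd D v.1),
      ← eulerProd_mul hfin (fun v => wM_dvd D v.1) (fun v => rescale_dvd_one a (wM_dvd D v.1)),
      ← hP, ← eulerProd_pow hfin hww, ← eulerProd_mul hfin hA (fun v => pow_dvd_sub_one (hww v) r)]
    simp only [hAw]
    exact eulerProd_one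
  have hUV' := congrArg (rescale a) hUV
  rw [map_mul, map_mul, map_pow, ← coe_comp_scale, ← coe_comp_scale] at hUV'
  set U' := U.comp (Polynomial.C a * Polynomial.X) with hU'
  set V' := V.comp (Polynomial.C a * Polynomial.X) with hV'
  have h5 : (E3 D * rescale a (E3 D)) ^ 3 ^ j * ((V : PowerSeries (ZMod 3)) * V') =
      (EL * rescale a EL) * ((U : PowerSeries (ZMod 3)) * U') := by
    calc (E3 D * rescale a (E3 D)) ^ 3 ^ j * ((V : PowerSeries (ZMod 3)) * V') =
        (E3 D ^ 3 ^ j * V) * (rescale a (E3 D) ^ 3 ^ j * V') := by rw [mul_pow]; ring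
      _ = _ := by rw [← hUV, ← hUV']; ring
  have h6 : (E3 D * rescale a (E3 D)) * ((w : PowerSeries (ZMod 3)) * w') = 1 := by
    calc (E3 D * rescale a (E3 D)) * ((w : PowerSeries (ZMod 3)) * w') =
        (E3 D * w) * (rescale a (E3 D) * w') := by ring
      _ = 1 := by rw [e1, e3, one_mul]
  have h7 : ((P * (V * V') ^ r : Polynomial (ZMod 3)) : PowerSeries (ZMod 3)) =
      (((U * U') ^ r * ((w * w') ^ 3 ^ j) ^ r : Polynomial (ZMod 3)) : PowerSeries (ZMod 3)) := by
    rw [Polynomial.coe_mul, Polynomial.coe_pow, Polynomial.coe_mul, Polynomial.coe_mul,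
      Polynomial.coe_pow, Polynomial.coe_mul, Polynomial.coe_pow, Polynomial.coe_pow,
      Polynomial.coe_mul]
    calc (P : PowerSeries (ZMod 3)) * ((V : PowerSeries (ZMod 3)) * V') ^ r =
        P * (((V : PowerSeries (ZMod 3)) * V') *
          ((E3 D * rescale a (E3 D)) * ((w : PowerSeries (ZMod 3)) * w')) ^ 3 ^ j) ^ r := by
          rw [h6, one_pow, mul_one]
      _ = P * ((((E3 D * rescale a (E3 D)) ^ 3 ^ j * ((V : PowerSeries (ZMod 3)) * V')) *
          ((w : PowerSeries (ZMod 3)) * w') ^ 3 ^ j)) ^ r := by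
          congr 2
          rw [mul_pow (E3 D * rescale a (E3 D)) ((w : PowerSeries (ZMod 3)) * w') (3 ^ j)]
          ring
      _ = (P * (EL * rescale a EL) ^ r) * ((U : PowerSeries (ZMod 3)) * U') ^ r *
          (((w : PowerSeries (ZMod 3)) * w') ^ 3 ^ j) ^ r := by
          rw [h5, mul_pow, mul_pow]
          ring
      _ = _ := by rw [h1, one_mul]
  have h8 := Polynomial.coe_injective (ZMod 3) h7
  have h9 := congrArg (Polynomial.eval (a ^ i)) h8
  intro h0
  rw [Polynomial.eval_mul, h0, zero_mul] at h9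
  refine (?_ : ((U * U') ^ r * ((w * w') ^ 3 ^ j) ^ r).eval (a ^ i) ≠ 0) h9.symm
  rw [Polynomial.eval_mul, Polynomial.eval_pow, Polynomial.eval_pow, Polynomial.eval_pow,
    Polynomial.eval_mul, Polynomial.eval_mul, hU', hw', eval_comp_scale, eval_comp_scale,
    ← pow_succ']
  exact mul_ne_zero (pow_ne_zero _ (mul_ne_zero (hUi i) (hUi (i + 1))))
    (pow_ne_zero _ (pow_ne_zero _ (mul_ne_zero (hwi i) (hwi (i + 1)))))

include G in
/-- The same over the three-adic integers. -/
theorem no_zero_Z (h2 : (2 : k) ≠ 0) (h3 : (3 : k) ≠ 0) {j : ℕ}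
    (hG : Nat.card G = 3 ^ j) {g : ℕ} {m D : Polynomial k}
    (hD : IsD g m D) [IsDedekindDomain (CR D)] (hh : ¬ 3 ∣ Nat.card (ClassGroup (CR D)))
    (hram : ∀ P : MI k, (sp P).ramificationIdxIn B ≠ 1 → chi D P.1 ≠ 1) (r : ℕ)
    (T : MxD D B → PowerSeries ℚ) (A : MxD D B → PowerSeries ℤ_[3])
    (hT : ∀ v : MxD D B, PowerSeries.map (algebraMap ℤ_[3] ℚ_[3]) (A v) =
      PowerSeries.map (algebraMap ℚ ℚ_[3]) (T v))
    (hA : ∀ v : MxD D B, (X : PowerSeries ℤ_[3]) ^ dgM k v.1 ∣ A v - 1)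
    (hAw : ∀ v : MxD D B, PowerSeries.map (PadicInt.toZMod (p := 3)) (A v) *
      (wM D v.1 * rescale ((Nat.card k : ℕ) : ZMod 3) (wM D v.1)) ^ r = 1) (i : ℕ) :
    ¬ ZeroAt k i (eulerProd (fun v : MxD D B => dgM k v.1) T) := by
  rintro ⟨H, hH⟩
  set ι : ℤ_[3] →+* ℚ_[3] := algebraMap ℤ_[3] ℚ_[3] with hι
  have hinj : Function.Injective ι := FaithfulSMul.algebraMap_injective ℤ_[3] ℚ_[3]
  have hfin := fun n => fin_max (B := B) D n
  set q := Nat.card k with hq
  set E : PowerSeries ℤ_[3] := eulerProd (fun v : MxD D B => dgM k v.1) A with hE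
  have hmapE : PowerSeries.map ι E =
      ((((1 - Polynomial.C ((q : ℚ) ^ i) * Polynomial.X) * H).map (algebraMap ℚ ℚ_[3]) :
        Polynomial ℚ_[3]) : PowerSeries ℚ_[3]) := by
    rw [hE, map_eulerProd hfin]
    have e1 : (fun v : MxD D B => PowerSeries.map ι (A v)) =
        fun v => PowerSeries.map (algebraMap ℚ ℚ_[3]) (T v) := funext hT
    rw [e1, ← map_eulerProd hfin, hH, ← Polynomial.polynomial_map_coe]
  have hone : PowerSeries.constantCoeff
      (1 - PowerSeries.C ((q : ℤ_[3]) ^ i) * PowerSeries.X : PowerSeries ℤ_[3]) = 1 := by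
    rw [map_sub, map_one, map_mul, PowerSeries.constantCoeff_X, mul_zero, sub_zero]
  obtain ⟨l, hl⟩ := exists_inv hone
  have hE' : E = (1 - PowerSeries.C ((q : ℤ_[3]) ^ i) * PowerSeries.X) * (E * l) := by
    calc E = E * ((1 - PowerSeries.C ((q : ℤ_[3]) ^ i) * PowerSeries.X) * l) := by
          rw [hl, mul_one]
      _ = _ := by ring
  have hmapH : PowerSeries.map ι (E * l) =
      ((H.map (algebraMap ℚ ℚ_[3]) : Polynomial ℚ_[3]) : PowerSeries ℚ_[3]) := by
    have e3 := congrArg (PowerSeries.map ι) hl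
    rw [map_mul, map_one, map_sub, map_one, map_mul, PowerSeries.map_C, PowerSeries.map_X,
      map_pow, map_natCast] at e3
    rw [map_mul, hmapE, Polynomial.map_mul, Polynomial.map_sub, Polynomial.map_one,
      Polynomial.map_mul, Polynomial.map_C, Polynomial.map_X, Polynomial.coe_mul,
      Polynomial.coe_sub, Polynomial.coe_one, Polynomial.coe_mul, Polynomial.coe_C,
      Polynomial.coe_X, map_pow, map_natCast]
    set l3 := PowerSeries.map ι l
    set A3 := (1 - PowerSeries.C ((q : ℚ_[3]) ^ i) * PowerSeries.X : PowerSeries ℚ_[3])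
    set G3 := ((H.map (algebraMap ℚ ℚ_[3]) : Polynomial ℚ_[3]) : PowerSeries ℚ_[3])
    calc A3 * G3 * l3 = (A3 * l3) * G3 := by ring
      _ = G3 := by rw [e3, one_mul]
  have hcoef : ∀ n : ℕ, H.natDegree < n → PowerSeries.coeff n (E * l) = 0 := by
    intro n hn
    have e1 := congrArg (PowerSeries.coeff n) hmapH
    rw [PowerSeries.coeff_map, Polynomial.coeff_coe, Polynomial.coeff_map,
      Polynomial.coeff_eq_zero_of_natDegree_lt hn, map_zero] at e1
    exact hinj (by rw [e1, map_zero])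
  have hpol : E * l =
      ((PowerSeries.trunc (H.natDegree + 1) (E * l) : Polynomial ℤ_[3]) : PowerSeries ℤ_[3]) := by
    ext n
    rw [Polynomial.coeff_coe, PowerSeries.coeff_trunc]
    split_ifs with hn
    · rfl
    · exact hcoef n (by omega)
  set H0 := PowerSeries.trunc (H.natDegree + 1) (E * l) with hH0
  set ρ : ℤ_[3] →+* ZMod 3 := PadicInt.toZMod with hρ
  set a : ZMod 3 := ((q : ℕ) : ZMod 3) with ha
  have hred : eulerProd (fun v : MxD D B => dgM k v.1) (fun v => PowerSeries.map ρ (A v)) =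
      (((1 - Polynomial.C (a ^ i) * Polynomial.X) * H0.map ρ : Polynomial (ZMod 3)) :
        PowerSeries (ZMod 3)) := by
    rw [← map_eulerProd hfin, ← hE, hE', hpol, map_mul, map_sub, map_one, map_mul,
      PowerSeries.map_C, PowerSeries.map_X, map_pow, map_natCast,
      ← Polynomial.polynomial_map_coe, Polynomial.coe_mul, Polynomial.coe_sub,
      Polynomial.coe_one, Polynomial.coe_mul, Polynomial.coe_C, Polynomial.coe_X]
  have hA3 : ∀ v : MxD D B, (X : PowerSeries (ZMod 3)) ^ dgM k v.1 ∣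
      PowerSeries.map ρ (A v) - 1 := by
    intro v
    have h := map_dvd (PowerSeries.map ρ) (hA v)
    rwa [map_pow, map_sub, map_one, PowerSeries.map_X] at h
  have hmain := no_zero_B G h2 h3 hG hD hh hram r (fun v => PowerSeries.map ρ (A v)) hA3 hAw hred i
  apply hmain
  have hu := unit3 (three_mod h3)
  rw [← hq, ← ha] at hu
  have hu2 : a ^ i * a ^ i = 1 := by rw [← mul_pow, hu, one_pow]
  rw [← hq, ← ha, Polynomial.eval_mul, Polynomial.eval_sub, Polynomial.eval_one,
    Polynomial.eval_mul, Polynomial.eval_C, Polynomial.eval_X, hu2, sub_self, zero_mul]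

end

end Pool.Agent.Y711
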