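import Pool.Agent.Y711.BB3

/-!
The L-functions of the products of hyperelliptic curves.
-/

set_option autoImplicit false
set_option maxHeartbeats 1000000
set_option synthInstance.maxHeartbeats 400000

open Polynomial

namespace Pool.Agent.Y711

open Pool.Agent.TH943.HJ Pool.Agent.W313.Hyp Pool.Agent.W343.BSD Pool.Agent.Y784.FC

section

variable {k : Type} [Field k] [Finite k]

theorem product_ext (h2 : (2 : k) ≠ 0) (h3 : (3 : k) ≠ 0) {n w : ℕ} (hw : Odd w) {γ : Fin n → ℕ}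
    {f : Fin n → k[X][X]} {m : k[X]} (hf : ∀ i, IsUnipotent (γ i) (f i) m) {g : ℕ} {D : k[X]}
    (hD : IsD g m D) [IsDedekindDomain (CR D)] (hh : ¬ 3 ∣ Nat.card (ClassGroup (CR D)))
    {B : Type} [CommRing B] [IsDedekindDomain B] [Algebra k[X] B] [Module.Finite k[X] B]
    [Module.Flat k[X] B] (G : Type) [Group G] [Finite G] [MulSemiringAction G B]
    [IsGaloisGroup G k[X] B] {j : ℕ} (hG : Nat.card G = 3 ^ j)
    (hram : ∀ 𝔓 : Ideal B, 𝔓.IsMaximal → 𝔓.ramificationIdx k[X] ≠ 1 →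
      quadSym (algebraMap k[X] (B ⧸ 𝔓) D) ≠ 1) (i : ℕ) :
    ¬ ZeroAt k i (productL w f D B) := by
  classical
  obtain ⟨x, y, hxy, hmodel⟩ := exists_model γ Finset.univ
  set κ : ℕ := x w with hκ
  have hloc : ∀ v : MxD D B, ∃ A : PowerSeries ℤ_[3],
      PowerSeries.map (algebraMap ℤ_[3] ℚ_[3]) A =
        PowerSeries.map (algebraMap ℚ ℚ_[3]) (expSeries (residueDeg k v.1)
          (productTrace w fun i => C (algebraMap k[X] (B ⧸ v.1) D) *
            (f i).map (algebraMap k[X] (B ⧸ v.1)))) ∧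
      (PowerSeries.X : PowerSeries ℤ_[3]) ^ dgM k v.1 ∣ A - 1 ∧
      PowerSeries.map (PadicInt.toZMod (p := 3)) A *
        (wM D v.1 * PowerSeries.rescale ((Nat.card k : ℕ) : ZMod 3) (wM D v.1)) ^ κ = 1 := by
    intro v
    have hmax := v.2.1
    let _ : Field (B ⧸ v.1) := Ideal.Quotient.field _
    have hfin := finite_quot k v.1
    have hdeg : residueDeg k v.1 ≠ 0 := (dg_pos (k := k) v.1).ne'
    have hDv : algebraMap k[X] (B ⧸ v.1) D ≠ 0 := by
      intro h0
      apply v.2.2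
      rw [← Ideal.Quotient.eq_zero_iff_mem]
      exact h0
    have hmv : (algebraMap k[X] (B ⧸ v.1)) m ≠ 0 := by
      intro h0
      apply hDv
      obtain ⟨e, he⟩ := hD.dvd
      exact (congrArg (algebraMap k[X] (B ⧸ v.1)) he).trans (by rw [map_mul, h0, zero_mul])
    have h7 : ∀ i, red3 (locS 1 ((f i).map (algebraMap k[X] (B ⧸ v.1)))) *
        ((1 - PowerSeries.X) * (1 - PowerSeries.C (Nat.card (B ⧸ v.1) : ZMod 3) *
          PowerSeries.X)) ^ γ i = 1 := by
      intro i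
      rw [← localSeries_eq]
      exact (hf i).2 (B ⧸ v.1) (algebraMap k[X] (B ⧸ v.1)) hmv
    have h2' : (2 : B ⧸ v.1) ≠ 0 := by
      let _ : Algebra k (B ⧸ v.1) := ((algebraMap k[X] (B ⧸ v.1)).comp C).toAlgebra
      exact two_ne_ext (F' := B ⧸ v.1) h2
    have h3' : (3 : B ⧸ v.1) ≠ 0 := by
      let _ : Algebra k (B ⧸ v.1) := ((algebraMap k[X] (B ⧸ v.1)).comp C).toAlgebra
      intro h0
      apply h3
      have h4 : algebraMap k (B ⧸ v.1) 3 = 0 := by rw [map_ofNat, h0]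
      exact (map_eq_zero (algebraMap k (B ⧸ v.1))).1 h4
    obtain ⟨A, hA1, hA2, hA3⟩ := local_factor (Q := Nat.card (B ⧸ v.1)) (κ := κ)
      (qc (algebraMap k[X] (B ⧸ v.1) D))
      (s := fun r => qc (algebraMap k[X] (B ⧸ v.1) D) ^ r * productTrace w (fun i =>
        C (algebraMap k[X] (B ⧸ v.1) D) * (f i).map (algebraMap k[X] (B ⧸ v.1))) r) hdeg
      (fun r hr => product_cong h2' h3' hw hxy hmodel hDv h7 hr)
    refine ⟨A, ?_, hA2, ?_⟩
    · rw [hA1]
      congr 2
      funext r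
      have h4 : qc (algebraMap k[X] (B ⧸ v.1) D) * qc (algebraMap k[X] (B ⧸ v.1) D) = 1 := by
        rcases qc_cases hDv with h | h <;> rw [h] <;> norm_num
      rw [← mul_assoc, ← mul_pow, h4, one_pow, one_mul]
    have hcard : (Nat.card (B ⧸ v.1) : ZMod 3) = ((Nat.card k : ℕ) : ZMod 3) ^ dgM k v.1 := by
      obtain ⟨P, hP⟩ := exists_below (k := k) v.1
      have e1 := card_over (k := k) v.1 P
      rw [← dg_over (k := k) v.1 P] at e1
      rw [e1]
      push_cast
      rfl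
    have hwM : wM D v.1 = 1 - PowerSeries.C ((qc (algebraMap k[X] (B ⧸ v.1) D) : ℤ) : ZMod 3) *
        PowerSeries.X ^ residueDeg k v.1 := by
      rw [← qs_eq]
      rfl
    have hC : PowerSeries.rescale ((Nat.card k : ℕ) : ZMod 3)
        (PowerSeries.C ((qc (algebraMap k[X] (B ⧸ v.1) D) : ℤ) : ZMod 3)) =
        PowerSeries.C ((qc (algebraMap k[X] (B ⧸ v.1) D) : ℤ) : ZMod 3) := by
      ext n
      rw [PowerSeries.coeff_rescale, PowerSeries.coeff_C]
      split_ifs with h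
      · rw [h, pow_zero, one_mul]
      · rw [mul_zero]
    have h9 : PowerSeries.rescale ((Nat.card k : ℕ) : ZMod 3) (wM D v.1) =
        1 - PowerSeries.C ((Nat.card (B ⧸ v.1) : ZMod 3) *
          ((qc (algebraMap k[X] (B ⧸ v.1) D) : ℤ) : ZMod 3)) *
            PowerSeries.X ^ residueDeg k v.1 := by
      rw [hwM, map_sub, map_one, map_mul, map_pow, PowerSeries.rescale_X, hC, hcard, mul_pow,
        ← map_pow, map_mul]
      have e3 : dgM k v.1 = residueDeg k v.1 := rfl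
      rw [e3]
      ring
    rw [h9, hwM]
    exact hA3
  choose A hA1 hA2 hA3 using hloc
  refine no_zero_Z G h2 h3 hG hD hh ?_ κ _ A hA1 hA2 hA3 i
  intro P hP
  obtain ⟨𝔓⟩ := (inferInstance : Nonempty ((sp P).primesOver B))
  obtain ⟨𝔓, h𝔓⟩ := 𝔓
  rw [primesOver_eq] at h𝔓
  obtain ⟨hmax, hov⟩ := h𝔓
  rw [Ideal.ramificationIdxIn_eq_ramificationIdx (sp P) 𝔓 G] at hP
  have h1 := hram 𝔓 hmax hP
  obtain ⟨i, hi⟩ := f_pow G (B := B) hG P
  rw [Ideal.inertiaDegIn_eq_inertiaDeg (sp P) 𝔓 G] at hi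
  have hodd : Odd (𝔓.inertiaDeg k[X]) := by
    rw [hi]
    exact Odd.pow (by decide)
  have h4 := qs_over h2 𝔓 P hodd D
  rw [← h4]
  rw [quadSym_eq] at h1
  exact h1

/-- nonvanishing over an admissible extension -/
theorem product_nonvanish (L : Type) [Field L] [Algebra k[X] L] [Algebra (RatFunc k) L]
    [IsScalarTower k[X] (RatFunc k) L] (h2 : (2 : k) ≠ 0) (h3 : (3 : k) ≠ 0) {n w : ℕ}
    (hw : Odd w) {γ : Fin n → ℕ} {f : Fin n → k[X][X]}
    {m : k[X]} (hf : ∀ i, IsUnipotent (γ i) (f i) m) {g : ℕ} {D : k[X]} (hD : IsD g m D)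
    [IsDedekindDomain (CR D)] (hh : ¬ 3 ∣ Nat.card (ClassGroup (CR D)))
    (hL : IsThreeExtension D L) (i : ℕ) :
    ¬ ZeroAt k i (productL w f D (integralClosure k[X] L)) := by
  have hgal := hL.galois
  obtain ⟨j, hj⟩ := hL.degree
  have hfd : FiniteDimensional (RatFunc k) L := by
    apply FiniteDimensional.of_finrank_pos
    rw [hj]
    positivity
  have i1 := fin_ic (k := k) L
  have i2 := flat_ic (k := k) L
  have i3 := gal_ic (k := k) L
  have i4 : IsDedekindDomain (integralClosure k[X] L) :=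
    integralClosure.isDedekindDomain k[X] (RatFunc k) L
  refine product_ext h2 h3 hw hf hD hh Gal(L/RatFunc k) (j := j) ?_ hL.ramified i
  rw [← hj]
  exact IsGalois.card_aut_eq_finrank _ _

/-- **Half of the twists in every class, for all products of curves.** -/
theorem product_half (h2 : (2 : k) ≠ 0) (h3 : (3 : k) ≠ 0)
    {m n a : k[X]} (hm : m.Monic) (hn : n.Monic) (hs : Squarefree (m * n)) (ha : IsCoprime n a)
    {δ : ℝ} (hδ : δ < 1 / 2) :
    ∃ N : ℕ, ∀ g ≥ N, δ * (twistClass g m n a).ncard ≤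
      {D : k[X] | D ∈ twistClass g m n a ∧ ∀ (r : ℕ) (γ : Fin r → ℕ) (f : Fin r → k[X][X]),
        (∀ i, IsUnipotent (γ i) (f i) m) →
        ∀ (L : Type) [Field L] [Algebra k[X] L] [Algebra (RatFunc k) L]
          [IsScalarTower k[X] (RatFunc k) L], IsThreeExtension D L →
            ∀ w : ℕ, Odd w → ∀ j : ℕ,
              ¬ ZeroAt k j (productL w f D (integralClosure k[X] L))}.ncard := by
  refine class_half h2 hm hn hs ha (fun _ D => ∀ (r : ℕ) (γ : Fin r → ℕ) (f : Fin r → k[X][X]),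
        (∀ i, IsUnipotent (γ i) (f i) m) →
        ∀ (L : Type) [Field L] [Algebra k[X] L] [Algebra (RatFunc k) L]
          [IsScalarTower k[X] (RatFunc k) L], IsThreeExtension D L →
            ∀ w : ℕ, Odd w → ∀ j : ℕ,
              ¬ ZeroAt k j (productL w f D (integralClosure k[X] L))) ?_ hδ
  intro g D hD hB r γ f hf L _ _ _ _ hL w hw j
  have hD' := IsD_iff.2 hD.1
  have hodd : Odd D.natDegree := by
    rw [hD'.deg]
    exact ⟨g, rfl⟩
  have hded : IsDedekindDomain (CR D) := dedekind h2 hodd hD'.sqf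
  exact product_nonvanish L h2 h3 hw hf hD' (fun h => hB ⟨hded, h⟩) hL j

end

end Pool.Agent.Y711
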