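import Pool.Agent.W313.Hyp.Sigma
import Pool.Agent.TH943.HJ.Ded

/-!
Quadratic characters modulo primes of `k[t]`, and the polynomial of the pencil of lines of the Fermat
cubic.
-/

set_option autoImplicit false
set_option maxHeartbeats 1000000

open Polynomial

namespace Pool.Agent.Y711

open Classical in
/-- The quadratic character of `h` modulo `P`: it is `0` if `P` divides `h`, and otherwise `1` or
`-1` according to whether `h` is congruent to a square modulo `P` or not. -/
noncomputable def chi {F : Type} [Field F] (h P : F[X]) : ℤ :=
  if P ∣ h then 0 else if ∃ s : F[X], P ∣ h - s ^ 2 then 1 else -1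

/-- Up to squares the discriminant of the intersection of the Fermat cubic `X ^ 3 + Y ^ 3 = 1` with
the line of slope `x` through the point `(α, β)`. -/
noncomputable def hF {F : Type} [CommRing F] (α β : F) : F[X] :=
  C (-3) * ((C β - C α * X) ^ 6 - 2 * (1 - X ^ 3) * (C β - C α * X) ^ 3 + (1 + X ^ 3) ^ 2)

end Pool.Agent.Y711
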