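import Pool.Agent.Y711.SvDef

/-!
Statements of the sieve with conditions on the quadratic class of `D`.
-/

set_option autoImplicit false

open Polynomial Classical

namespace Pool.Agent.Y711

open Pool.Agent.W313.Hyp

section

variable {k : Type} [Field k] [Finite k]

/-- the quadratic symbol of `D` at the primes `P` dividing `n` belongs to `W P` -/
def IsCls (n : k[X]) (W : MI k → Finset ℤ) (D : k[X]) : Prop :=
  ∀ P : MI k, P.1 ∣ n → chi D P.1 ∈ W P

/-- solutions with `D` in the class -/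
noncomputable def SFc (g : ℕ) (m n : k[X]) (W : MI k → Finset ℤ) :
    Finset (k[X] × k[X] × k[X] × k[X]) :=
  (SF g m).filter fun x => ∃ D, IsD g m D ∧ IsSol g D x.1 x.2.1 x.2.2.1 x.2.2.2 ∧ IsCls n W D

/-- the `D` in the class -/
noncomputable def DSc (g : ℕ) (m n : k[X]) (W : MI k → Finset ℤ) : Finset k[X] :=
  (DS g m).filter fun D => IsCls n W D

/-- the proportion of the classes -/
noncomputable def rw2 (n : k[X]) (W : MI k → Finset ℤ) : ℝ := ∏ P ∈ pd n, ((W P).card : ℝ) / 2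

end

/-- the upper bound for the number of solutions in a class -/
def StC1 (k : Type) [Field k] [Finite k] : Prop :=
  ∀ m n : k[X], m.Monic → n.Monic → Squarefree (m * n) → ∀ W : MI k → Finset ℤ,
    (∀ P, W P ⊆ {1, -1}) → ∀ ε : ℝ, 0 < ε →
    ∃ N : ℕ, ∀ g, N ≤ g → ((SFc g m n W).card : ℝ) ≤
      (Nat.card k : ℝ) ^ (2 * g + 1) *
        (((Nat.card k : ℝ) / (Nat.card k - 1)) ^ 2 * (wmn m n * rw2 n W) + ε)

/-- the lower bound for the number of the polynomials `D` in a class -/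
def StC2 (k : Type) [Field k] [Finite k] : Prop :=
  ∀ m n : k[X], m.Monic → n.Monic → Squarefree (m * n) → ∀ W : MI k → Finset ℤ,
    (∀ P, W P ⊆ {1, -1}) → ∀ ε : ℝ, 0 < ε →
    ∃ N : ℕ, ∀ g, N ≤ g → (Nat.card k : ℝ) ^ (2 * g + 1) *
      ((1 - (Nat.card k : ℝ)⁻¹) * (∏ P ∈ pd m, (nm P + 1)⁻¹) *
        (∏ P ∈ pd n, nm P / (nm P + 1)) * rw2 n W - ε) ≤ ((DSc g m n W).card : ℝ)

/-- at least half of the `D` in a class have class number prime to three -/
def StC3 (k : Type) [Field k] [Finite k] : Prop :=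
  ∀ m n : k[X], m.Monic → n.Monic → Squarefree (m * n) → ∀ W : MI k → Finset ℤ,
    (∀ P, W P ⊆ {1, -1}) → ∀ c : ℝ, c < 1 / 2 →
    ∃ N : ℕ, ∀ g, N ≤ g → c * ((DSc g m n W).card : ℝ) ≤
      (((DSc g m n W).filter fun D => ¬ Bad D).card : ℝ)

end Pool.Agent.Y711
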