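import Pool.Agent.Y711.Def

/-!
# Definitions: quadratic twists in a given quadratic class, curves with nodal fibres
-/

set_option autoImplicit false

open Polynomial

namespace Pool.Agent.Y711

section

variable {k : Type} [Field k]

/-- The `L`-function over the field of fractions of `B` is `(1 - q X) ^ r G(X)` with an integral
polynomial `G`; that is, its order of vanishing at `s = 1` is at least `r`. -/
def VanishesToOrder (r : ℕ) (f : k[X][X]) (D : k[X]) (B : Type) [CommRing B] [Algebra k[X] B] :
    Prop :=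
  ∃ G : ℤ[X], LSeries f D B = (((1 - C (Nat.card k : ℤ) * X) ^ r * G : ℤ[X]) : PowerSeries ℤ)

/-- The monic squarefree polynomials `D` of degree `2 g + 1` divisible by `m` which have the same
quadratic symbol as `a` at the primes dividing `n`. -/
def twistClass (g : ℕ) (m n a : k[X]) : Set k[X] :=
  {D | D ∈ twists g m ∧ ∀ P : k[X], P.Monic → Irreducible P → P ∣ n →
    quadSym (AdjoinRoot.mk P D) = quadSym (AdjoinRoot.mk P a)}

/-- The curve `y ^ 2 = h(x)` has a node with rational tangent directions. -/
def SplitNode {F : Type} [CommRing F] (h : F[X]) : Prop :=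
  ∃ (c : F) (u : F[X]), h = (X - C c) ^ 2 * u ∧ u.eval c ≠ 0 ∧ IsSquare (u.eval c)

/-- The sum of the `3`-parts of the degrees of the primes `P` dividing `n` at which the curve
`y ^ 2 = a f(x)` has a node with rational tangent directions. -/
noncomputable def splitWeight (f : k[X][X]) (n a : k[X]) : ℕ :=
  ∑ᶠ (P : k[X]) (_ : P.Monic ∧ Irreducible P ∧ P ∣ n ∧
    SplitNode (C (AdjoinRoot.mk P a) * f.map (AdjoinRoot.mk P))), 3 ^ padicValNat 3 P.natDegree

/-- The fibres of `y ^ 2 = f(x)` at the places of `k[t]` outside `m n` are smooth of genus `γ`, with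
Frobenius having the characteristic polynomial `((T - 1) (T - |F|)) ^ γ` modulo three; the fibres at
the places dividing `n` but not `m` have one node, whose normalisation has genus `γ - 1` and
Frobenius polynomial `((T - 1) (T - |F|)) ^ (γ - 1)` modulo three, and the tangent directions at the
node are rational or `|F|` is `2` modulo `3`. -/
def IsUnipotentNodal (γ : ℕ) (f : k[X][X]) (m n : k[X]) : Prop :=
  0 < γ ∧ ∀ (F : Type) [Field F] [Finite F] (φ : k[X] →+* F), φ m ≠ 0 →
    (φ n ≠ 0 →
      ((f.map φ).natDegree = 2 * γ + 1 ∨ (f.map φ).natDegree = 2 * γ + 2) ∧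
      Squarefree (f.map φ) ∧
      PowerSeries.map (Int.castRingHom (ZMod 3)) (localSeries 1 (f.map φ)) *
        ((1 - PowerSeries.X) *
          (1 - PowerSeries.C (Nat.card F : ZMod 3) * PowerSeries.X)) ^ γ = 1) ∧
    (φ n = 0 → ∃ (c : F) (u : F[X]), f.map φ = (X - C c) ^ 2 * u ∧ u.eval c ≠ 0 ∧
      (u.natDegree = 2 * γ - 1 ∨ u.natDegree = 2 * γ) ∧ Squarefree u ∧
      PowerSeries.map (Int.castRingHom (ZMod 3)) (localSeries 1 u) *
        ((1 - PowerSeries.X) *
          (1 - PowerSeries.C (Nat.card F : ZMod 3) * PowerSeries.X)) ^ (γ - 1) = 1 ∧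
      (IsSquare (u.eval c) ∨ Nat.card F % 3 = 2))

end

end Pool.Agent.Y711
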