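import Pool.Agent.Y711.Pair

/-!
The equation `D C ^ 2 = G (G B ^ 2 - κ A ^ 3)`.
-/

set_option autoImplicit false
set_option maxHeartbeats 1000000

open Polynomial Classical

namespace Pool.Agent.Y711

section

variable {k : Type} [Field k]

/-- `D` is a squarefree monic polynomial of degree `2 g + 1` divisible by `m`. -/
structure IsD (g : ℕ) (m D : k[X]) : Prop where
  monic : D.Monic
  deg : D.natDegree = 2 * g + 1
  sqf : Squarefree D
  dvd : m ∣ D

/-- `(G, A, B, Q)` is a solution attached to `D`. -/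
structure IsSol (g : ℕ) (D G A B Q : k[X]) : Prop where
  hG : G.Monic
  hA : A.Monic
  dvd : G ∣ D
  deg : G.natDegree + A.natDegree ≤ g
  cop : IsCoprime A (Q * D)
  Q0 : Q ≠ 0
  B0 : B ≠ 0
  eqn : (Odd (G.natDegree + A.natDegree) ∧ Q.Monic ∧ D * Q ^ 2 = G * (G * B ^ 2 + A ^ 3)) ∨
    (Even (G.natDegree + A.natDegree) ∧ B.Monic ∧ D * Q ^ 2 = G * (G * B ^ 2 - A ^ 3))

/-- The quotient of `m` by its greatest common divisor with `G`. -/
noncomputable def mo (m G : k[X]) : k[X] := m / mgcd G m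

theorem div_mul_of_dvd {m e : k[X]} (he : e ≠ 0) (h : e ∣ m) : m / e * e = m := by
  obtain ⟨c, rfl⟩ := h
  rw [mul_div_cancel_left₀ _ he, mul_comm]

theorem mo_mul {m : k[X]} (hm : m ≠ 0) (G : k[X]) : mo m G * mgcd G m = m :=
  div_mul_of_dvd (mgcd_monic hm).ne_zero (mgcd_dvd_right G m)

theorem mo_cop {m : k[X]} (hs : Squarefree m) (G : k[X]) : IsCoprime G (mo m G) := by
  have hm : m ≠ 0 := hs.ne_zero
  have h1 := mo_mul hm G
  refine isCoprime_of_prime_dvd ?_ ?_
  · rintro ⟨_, h⟩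
    rw [h, zero_mul] at h1
    exact hm h1.symm
  · intro P hP hPG hPm
    have h2 : P ∣ mgcd G m := dvd_mgcd hPG (hPm.trans ⟨_, h1.symm⟩)
    have h3 : P * P ∣ m := by
      rw [← h1]
      exact mul_dvd_mul hPm h2
    exact hP.not_unit (hs P h3)

/-- The sign. -/
noncomputable def kap (k : Type) [Field k] (s : ℕ) : k := if Odd s then -1 else 1

theorem kap_ne (s : ℕ) : kap k s ≠ 0 := by
  unfold kap
  split_ifs
  · exact neg_ne_zero.2 one_ne_zero
  · exact one_ne_zero

theorem kap_sq (s : ℕ) : C (kap k s) * C (kap k s) = (1 : k[X]) := by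
  unfold kap
  split_ifs
  · rw [← C_mul, neg_mul_neg, one_mul, C_1]
  · rw [← C_mul, one_mul, C_1]

theorem IsSol.facts {g : ℕ} {m D G A B Q : k[X]} (hD : IsD g m D) (h : IsSol g D G A B Q) :
    ∃ D₁ : k[X], D = G * D₁ ∧ D₁.Monic ∧
      D₁ * Q ^ 2 = G * B ^ 2 - C (kap k (G.natDegree + A.natDegree)) * A ^ 3 ∧
      IsCoprime G (Q * mo m G) ∧ IsCoprime (Q * mo m G) (mgcd G m) ∧
      IsCoprime A (Q * mo m G * mgcd G m) ∧
      Q ^ 2 * mo m G ∣ G * B ^ 2 - C (kap k (G.natDegree + A.natDegree)) * A ^ 3 ∧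
      IsCoprime ((G * B ^ 2 - C (kap k (G.natDegree + A.natDegree)) * A ^ 3) /
        (Q ^ 2 * mo m G)) (mo m G) := by
  obtain ⟨D₁, hD₁⟩ := h.dvd
  have hm : Squarefree m := hD.sqf.squarefree_of_dvd hD.dvd
  have hm0 : m ≠ 0 := hm.ne_zero
  have hmm := mo_mul hm0 G
  have hm10 : mo m G ≠ 0 := by
    intro h0
    rw [h0, zero_mul] at hmm
    exact hm0 hmm.symm
  have hG0 : G ≠ 0 := h.hG.ne_zero
  have heq : D₁ * Q ^ 2 = G * B ^ 2 - C (kap k (G.natDegree + A.natDegree)) * A ^ 3 := by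
    apply mul_left_cancel₀ hG0
    rcases h.eqn with ⟨ho, _, he⟩ | ⟨hev, _, he⟩
    · unfold kap
      rw [if_pos ho, C_neg, C_1, ← mul_assoc, ← hD₁, he]
      ring
    · unfold kap
      rw [if_neg (Nat.not_odd_iff_even.2 hev), C_1, ← mul_assoc, ← hD₁, he]
      ring
  have hAG : IsCoprime A G := by
    apply h.cop.of_isCoprime_of_dvd_right
    rw [hD₁]
    exact (dvd_mul_right _ _).mul_left _
  have hGQ : IsCoprime G Q := by
    obtain ⟨x, y, hxy⟩ := (hAG.pow_left (m := 3))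
    have hk := kap_sq (k := k) (G.natDegree + A.natDegree)
    refine ⟨y + x * C (kap k (G.natDegree + A.natDegree)) * B ^ 2,
      -(x * C (kap k (G.natDegree + A.natDegree)) * D₁ * Q), ?_⟩
    linear_combination hxy - x * C (kap k (G.natDegree + A.natDegree)) * heq + x * A ^ 3 * hk
  have hGm := mo_cop hm G
  have hm1D : mo m G ∣ D₁ := by
    apply hGm.symm.dvd_of_dvd_mul_left
    rw [← hD₁]
    exact (Dvd.intro _ hmm).trans hD.dvd
  obtain ⟨D₂, hD₂⟩ := hm1D
  have heq2 : G * B ^ 2 - C (kap k (G.natDegree + A.natDegree)) * A ^ 3 =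
      Q ^ 2 * mo m G * D₂ := by
    rw [← heq, hD₂]
    ring
  refine ⟨D₁, hD₁, ?_, heq, hGQ.mul_right hGm, ?_, ?_, ⟨D₂, heq2⟩, ?_⟩
  · exact h.hG.of_mul_monic_left (hD₁ ▸ hD.monic)
  · exact ((hGQ.mul_right hGm).of_isCoprime_of_dvd_left (mgcd_dvd_left G m)).symm
  · rw [mul_assoc, hmm]
    exact h.cop.of_isCoprime_of_dvd_right (mul_dvd_mul_left _ hD.dvd)
  · rw [heq2, mul_div_cancel_left₀ _ (mul_ne_zero (pow_ne_zero 2 h.Q0) hm10)]
    refine isCoprime_of_prime_dvd ?_ ?_
    · rintro ⟨_, h0⟩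
      exact hm10 h0
    · intro P hP hP1 hP2
      have h3 : P * P ∣ D := by
        rw [hD₁, hD₂]
        exact (mul_dvd_mul hP2 hP1).mul_left _
      exact hP.not_unit (hD.sqf P h3)

theorem natDegree_sum_parity {a b c : k[X]} (ha : a ≠ 0) (hb : b ≠ 0) (h : c = a + b)
    (hp : (a.natDegree + b.natDegree) % 2 = 1) :
    c.natDegree = max a.natDegree b.natDegree := by
  rw [h]
  rcases lt_trichotomy a.natDegree b.natDegree with hlt | heq | hlt
  · rw [natDegree_add_eq_right_of_natDegree_lt hlt, max_eq_right hlt.le]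
  · omega
  · rw [natDegree_add_eq_left_of_natDegree_lt hlt, max_eq_left hlt.le]

/-- degrees, odd case -/
theorem IsSol.odd_deg {g : ℕ} {m D G A B Q : k[X]} (hD : IsD g m D) (h : IsSol g D G A B Q)
    (ho : Odd (G.natDegree + A.natDegree)) :
    Q.Monic ∧ 2 * Q.natDegree + 2 * g + 1 = 3 * A.natDegree + G.natDegree ∧
      2 * B.natDegree + G.natDegree + 1 ≤ 3 * A.natDegree := by
  have hG0 : G ≠ 0 := h.hG.ne_zero
  have hA0 : A ≠ 0 := h.hA.ne_zero
  rcases h.eqn with ⟨_, hQ, he⟩ | ⟨hev, _, he⟩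
  · have h1 : D * Q ^ 2 = G * G * B ^ 2 + G * A ^ 3 := by rw [he]; ring
    have hd1 : (G * G * B ^ 2).natDegree = 2 * G.natDegree + 2 * B.natDegree := by
      rw [natDegree_mul (mul_ne_zero hG0 hG0) (pow_ne_zero 2 h.B0), natDegree_mul hG0 hG0,
        natDegree_pow]
      ring
    have hd2 : (G * A ^ 3).natDegree = G.natDegree + 3 * A.natDegree := by
      rw [natDegree_mul hG0 (pow_ne_zero 3 hA0), natDegree_pow]
    have hd3 : (D * Q ^ 2).natDegree = 2 * g + 1 + 2 * Q.natDegree := by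
      rw [natDegree_mul hD.monic.ne_zero (pow_ne_zero 2 h.Q0), natDegree_pow, hD.deg]
    obtain ⟨r, hr⟩ := ho
    have h2 := natDegree_sum_parity (mul_ne_zero (mul_ne_zero hG0 hG0) (pow_ne_zero 2 h.B0))
      (mul_ne_zero hG0 (pow_ne_zero 3 hA0)) h1 (by rw [hd1, hd2]; omega)
    rw [hd1, hd2, hd3] at h2
    refine ⟨hQ, ?_, ?_⟩
    · rcases max_cases (2 * G.natDegree + 2 * B.natDegree) (G.natDegree + 3 * A.natDegree) with
        ⟨h3, h4⟩ | ⟨h3, h4⟩ <;> omega
    · rcases max_cases (2 * G.natDegree + 2 * B.natDegree) (G.natDegree + 3 * A.natDegree) with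
        ⟨h3, h4⟩ | ⟨h3, h4⟩ <;> omega
  · exact absurd ho (Nat.not_odd_iff_even.2 hev)

/-- degrees, even case -/
theorem IsSol.even_deg {g : ℕ} {m D G A B Q : k[X]} (hD : IsD g m D) (h : IsSol g D G A B Q)
    (ho : Even (G.natDegree + A.natDegree)) :
    B.Monic ∧ 2 * B.natDegree + G.natDegree = 3 * A.natDegree ∧
      2 * Q.natDegree + 2 * g + 2 ≤ 3 * A.natDegree + G.natDegree := by
  have hG0 : G ≠ 0 := h.hG.ne_zero
  have hA0 : A ≠ 0 := h.hA.ne_zero
  rcases h.eqn with ⟨hodd, hQ, he⟩ | ⟨hev, hB, he⟩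
  · exact absurd hodd (Nat.not_odd_iff_even.2 ho)
  · have h1 : D * Q ^ 2 = G * G * B ^ 2 + -(G * A ^ 3) := by rw [he]; ring
    have hd1 : (G * G * B ^ 2).natDegree = 2 * G.natDegree + 2 * B.natDegree := by
      rw [natDegree_mul (mul_ne_zero hG0 hG0) (pow_ne_zero 2 h.B0), natDegree_mul hG0 hG0,
        natDegree_pow]
      ring
    have hd2 : (-(G * A ^ 3)).natDegree = G.natDegree + 3 * A.natDegree := by
      rw [natDegree_neg, natDegree_mul hG0 (pow_ne_zero 3 hA0), natDegree_pow]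
    have hd3 : (D * Q ^ 2).natDegree = 2 * g + 1 + 2 * Q.natDegree := by
      rw [natDegree_mul hD.monic.ne_zero (pow_ne_zero 2 h.Q0), natDegree_pow, hD.deg]
    obtain ⟨r, hr⟩ := ho
    have h2 : 2 * G.natDegree + 2 * B.natDegree = G.natDegree + 3 * A.natDegree := by
      by_contra hne
      have h3 : (D * Q ^ 2).natDegree = max (G * G * B ^ 2).natDegree (-(G * A ^ 3)).natDegree := by
        rw [h1]
        rcases lt_or_gt_of_ne hne with hlt | hlt
        · rw [← hd1, ← hd2] at hlt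
          rw [natDegree_add_eq_right_of_natDegree_lt hlt, max_eq_right hlt.le]
        · rw [← hd1, ← hd2] at hlt
          rw [natDegree_add_eq_left_of_natDegree_lt hlt, max_eq_left hlt.le]
      rw [hd1, hd2, hd3] at h3
      rcases max_cases (2 * G.natDegree + 2 * B.natDegree) (G.natDegree + 3 * A.natDegree) with
        ⟨h4, h5⟩ | ⟨h4, h5⟩ <;> omega
    refine ⟨hB, by omega, ?_⟩
    have hm1 : (G * G * B ^ 2).Monic := (h.hG.mul h.hG).mul (hB.pow 2)
    have hm2 : (G * A ^ 3).Monic := h.hG.mul (h.hA.pow 3)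
    have h3 : (D * Q ^ 2).degree < (G * G * B ^ 2).degree := by
      have h4 : D * Q ^ 2 = G * G * B ^ 2 - G * A ^ 3 := by rw [he]; ring
      rw [h4]
      apply degree_sub_lt_left
      · rw [degree_eq_natDegree hm1.ne_zero, degree_eq_natDegree hm2.ne_zero, hd1]
        rw [natDegree_neg] at hd2
        rw [hd2, h2]
      · exact hm1.ne_zero
      · rw [hm1.leadingCoeff, hm2.leadingCoeff]
    rw [degree_eq_natDegree (mul_ne_zero hD.monic.ne_zero (pow_ne_zero 2 h.Q0)),
      degree_eq_natDegree hm1.ne_zero, hd1, hd3] at h3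
    norm_cast at h3
    omega

/-- two solutions with the same `G`, `A`, `Q`, even case -/
theorem IsSol.even_diff (h2 : (2 : k) ≠ 0) {g : ℕ} {m D G A B Q D' B' : k[X]} (hD : IsD g m D)
    (h : IsSol g D G A B Q) (hD' : IsD g m D') (h' : IsSol g D' G A B' Q)
    (ho : Even (G.natDegree + A.natDegree)) {ρ : ℕ}
    (hρ : 2 * ρ + 3 * (G.natDegree + A.natDegree) = 2 * (2 * g + 1) + 4 * Q.natDegree) :
    (B - B').degree < ρ := by
  obtain ⟨hB, hb, _⟩ := h.even_deg hD ho
  obtain ⟨hB', hb', _⟩ := h'.even_deg hD' ho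
  have hG0 : G ≠ 0 := h.hG.ne_zero
  by_cases hBB : B - B' = 0
  · rw [hBB, degree_zero]
    exact WithBot.bot_lt_coe _
  have hno : ¬ Odd (G.natDegree + A.natDegree) := Nat.not_odd_iff_even.2 ho
  have e1 : D * Q ^ 2 = G * (G * B ^ 2 - A ^ 3) := by
    rcases h.eqn with ⟨hodd, _, _⟩ | ⟨_, _, he⟩
    · exact absurd hodd hno
    · exact he
  have e2 : D' * Q ^ 2 = G * (G * B' ^ 2 - A ^ 3) := by
    rcases h'.eqn with ⟨hodd, _, _⟩ | ⟨_, _, he⟩
    · exact absurd hodd hno
    · exact he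
  have e3 : G * G * ((B - B') * (B + B')) = (D - D') * Q ^ 2 := by linear_combination e2 - e1
  have hbb : B.natDegree = B'.natDegree := by omega
  have hsum : (B + B').natDegree = B.natDegree ∧ B + B' ≠ 0 := by
    have hc : (B + B').coeff B.natDegree = 2 := by
      rw [coeff_add, hB.coeff_natDegree, hbb, hB'.coeff_natDegree]
      norm_num
    have h0 : B + B' ≠ 0 := by
      intro h0
      rw [h0, coeff_zero] at hc
      exact h2 hc.symm
    refine ⟨le_antisymm ?_ ?_, h0⟩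
    · refine (natDegree_add_le _ _).trans (max_le le_rfl (by omega))
    · apply le_natDegree_of_ne_zero
      rw [hc]
      exact h2
  have hDD : D - D' ≠ 0 := by
    intro h0
    rw [h0, zero_mul] at e3
    rcases mul_eq_zero.1 e3 with h3 | h3
    · exact (mul_ne_zero hG0 hG0) h3
    · exact (mul_ne_zero hBB hsum.2) h3
  have hlt : (D - D').natDegree < 2 * g + 1 := by
    have h3 : (D - D').degree < D.degree := by
      apply degree_sub_lt_left
      · rw [degree_eq_natDegree hD.monic.ne_zero, degree_eq_natDegree hD'.monic.ne_zero, hD.deg,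
          hD'.deg]
      · exact hD.monic.ne_zero
      · rw [hD.monic.leadingCoeff, hD'.monic.leadingCoeff]
    rw [degree_eq_natDegree hDD, degree_eq_natDegree hD.monic.ne_zero, hD.deg] at h3
    exact_mod_cast h3
  have h5 := congrArg natDegree e3
  rw [natDegree_mul (mul_ne_zero hG0 hG0) (mul_ne_zero hBB hsum.2), natDegree_mul hG0 hG0,
    natDegree_mul hBB hsum.2, natDegree_mul hDD (pow_ne_zero 2 h.Q0), natDegree_pow, hsum.1] at h5
  rw [degree_eq_natDegree hBB]
  norm_cast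
  omega

end

end Pool.Agent.Y711
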