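import Pool.Agent.Y711.Ideal
import Pool.Agent.Y711.Sol

/-!
A class of order three in `k[t][√D]` gives a solution.
-/

set_option autoImplicit false
set_option maxHeartbeats 1000000

open Polynomial

namespace Pool.Agent.Y711

open Pool.Agent.TH943.HJ Pool.Agent.Y496.CC

section

variable {k : Type} [Field k] {D : k[X]}

/-- The ideal generated by `G` and `√D`. -/
noncomputable def GG (D G : k[X]) : Ideal (CR D) := Ideal.span {pp G, yy D}

theorem yy_eq : (yy D : CR D) = el 0 1 := by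
  unfold el
  rw [map_zero, map_one, one_mul, zero_add]

theorem mem_GG {G : k[X]} (hG : G ∣ D) {x y : k[X]} : (el x y : CR D) ∈ GG D G ↔ G ∣ x := by
  constructor
  · intro h
    unfold GG at h
    rw [Ideal.mem_span_pair] at h
    obtain ⟨u, v, huv⟩ := h
    obtain ⟨u1, u2, rfl⟩ := exists_el u
    obtain ⟨v1, v2, rfl⟩ := exists_el v
    rw [yy_eq, mul_comm, pp_mul_el, el_mul, el_add] at huv
    obtain ⟨h1, _⟩ := el_inj huv
    rw [← h1]
    obtain ⟨c, hc⟩ := hG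
    exact ⟨u1 + c * v2, by rw [hc]; ring⟩
  · rintro ⟨c, rfl⟩
    have h1 : (el (G * c) y : CR D) = pp c * pp G + pp y * yy D := by
      rw [yy_eq, pp_mul_el, ← el_left, ← el_left, el_mul, el_add]
      congr 1
      · ring
      · ring
    rw [h1]
    exact Ideal.add_mem _ (Ideal.mul_mem_left _ _ (Ideal.subset_span (by simp)))
      (Ideal.mul_mem_left _ _ (Ideal.subset_span (by simp)))

theorem GG_cube {G : k[X]} (hG : G ∣ D) {α : CR D} (hα : α ∈ GG D G ^ 3) :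
    ∃ B C₁ : k[X], α = pp G * el (G * B) C₁ := by
  have h1 : GG D G * GG D G ≤ Ideal.span {pp G} := by
    rw [Ideal.mul_le]
    intro r hr s hs
    obtain ⟨r1, r2, rfl⟩ := exists_el r
    obtain ⟨s1, s2, rfl⟩ := exists_el s
    rw [mem_GG hG] at hr hs
    obtain ⟨r1, rfl⟩ := hr
    obtain ⟨s1, rfl⟩ := hs
    obtain ⟨c, hc⟩ := hG
    rw [Ideal.mem_span_singleton]
    refine ⟨el (G * (r1 * s1) + c * (r2 * s2)) (r1 * s2 + r2 * s1), ?_⟩
    rw [pp_mul_el, el_mul]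
    congr 1
    · linear_combination (r2 * s2) * hc
    · ring
  have h2 : GG D G ^ 3 ≤ Ideal.span {pp G} * GG D G := by
    have h3 : GG D G ^ 3 = GG D G * GG D G * GG D G := by ring
    rw [h3]
    exact Ideal.mul_mono h1 le_rfl
  have h4 := h2 hα
  rw [Ideal.mem_span_singleton_mul] at h4
  obtain ⟨β, hβ, rfl⟩ := h4
  obtain ⟨x, y, rfl⟩ := exists_el β
  rw [mem_GG hG] at hβ
  obtain ⟨B, rfl⟩ := hβ
  exact ⟨B, y, rfl⟩

/-- Basic data of a primitive ideal: `A = G A₁`, `D = G D₁`, with `A₁` prime to `D`. -/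
theorem prim_data (hsq : Squarefree D) {A b : k[X]} (hA : A.Monic) (hd : A ∣ b ^ 2 - D) :
    ∃ G A₁ D₁ : k[X], G.Monic ∧ A₁.Monic ∧ A = G * A₁ ∧ D = G * D₁ ∧ G ∣ b ∧ IsCoprime A₁ D ∧
      ∀ P : k[X], Prime P → P ∣ A₁ → ¬ P ∣ b := by
  have hD0 : D ≠ 0 := hsq.ne_zero
  set G := mgcd A D with hG
  have hGm : G.Monic := mgcd_monic hD0
  obtain ⟨A₁, hA₁⟩ : G ∣ A := mgcd_dvd_left A D
  obtain ⟨D₁, hD₁⟩ : G ∣ D := mgcd_dvd_right A D
  have hA₁m : A₁.Monic := hGm.of_mul_monic_left (hA₁ ▸ hA)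
  have hGb : G ∣ b := by
    have h1 : G ∣ b ^ 2 := by
      have h2 : G ∣ b ^ 2 - D := (Dvd.intro _ hA₁.symm).trans hd
      have h3 := dvd_add h2 (Dvd.intro _ hD₁.symm)
      rwa [sub_add_cancel] at h3
    exact ((hsq.squarefree_of_dvd (Dvd.intro _ hD₁.symm)).dvd_pow_iff_dvd two_ne_zero).1 h1
  have hcop : IsCoprime A₁ D := by
    refine isCoprime_of_prime_dvd ?_ ?_
    · rintro ⟨_, h⟩
      exact hD0 h
    · intro P hP hPA hPD
      have h1 : P ∣ A := by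
        rw [hA₁]
        exact hPA.mul_left _
      have h2 : P ∣ G := dvd_mgcd h1 hPD
      have h3 : P * P ∣ b ^ 2 - D := by
        refine dvd_trans ?_ hd
        rw [hA₁]
        exact mul_dvd_mul h2 hPA
      have h4 : P * P ∣ b ^ 2 := by
        rw [sq]
        exact mul_dvd_mul (h2.trans hGb) (h2.trans hGb)
      have h5 := dvd_sub h4 h3
      rw [sub_sub_cancel] at h5
      exact hP.not_isUnit (hsq P h5)
  refine ⟨G, A₁, D₁, hGm, hA₁m, hA₁, hD₁, hGb, hcop, ?_⟩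
  intro P hP hPA hPb
  have h1 : P ∣ b ^ 2 - D := by
    refine dvd_trans (hPA.mul_left G) ?_
    rw [← hA₁]
    exact hd
  have h2 := dvd_sub (dvd_pow hPb two_ne_zero) h1
  rw [sub_sub_cancel] at h2
  exact hP.not_isUnit (hcop.isUnit_of_dvd' hPA h2)

theorem pp_not_unit (hm : D.Monic) {g : ℕ} (hg : D.natDegree = 2 * g + 1) {P : k[X]}
    (hP : ¬ IsUnit P) : ¬ IsUnit (pp P : CR D) := by
  intro h
  obtain ⟨c, hc, he⟩ := unit_const hm hg h
  have h1 := pp_inj he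
  apply hP
  rw [h1]
  exact isUnit_C.2 (isUnit_iff_ne_zero.2 hc)

/-- a prime divisor of `A₁` does not divide a generator of the cube -/
theorem not_dvd_gen (h2 : (2 : k) ≠ 0) (hm : D.Monic) {g : ℕ} (hg : D.natDegree = 2 * g + 1)
    {A b P : k[X]} (hP : Prime P) (hPb : ¬ P ∣ b) {α γ : CR D}
    (hα : JJ D A b ^ 3 = Ideal.span {α}) : α ≠ pp P * γ := by
  intro hγ
  have hnu : ¬ IsUnit (pp P : CR D) := pp_not_unit hm hg hP.not_isUnit
  obtain ⟨𝔮, h𝔮, hle⟩ := Ideal.exists_le_maximal (Ideal.span {(pp P : CR D)})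
    (by rw [Ne, Ideal.span_singleton_eq_top]; exact hnu)
  have hprime := h𝔮.isPrime
  have hPq : (pp P : CR D) ∈ 𝔮 := hle (Ideal.mem_span_singleton_self _)
  have h3 : JJ D A b ≤ 𝔮 := by
    apply Ideal.IsPrime.le_of_pow_le (n := 3)
    rw [hα, Ideal.span_singleton_le_iff_mem, hγ]
    exact 𝔮.mul_mem_right _ hPq
  have hprime' : (𝔮.comap (cj D)).IsPrime := Ideal.comap_isPrime _ _
  have h4 : JJ D A b ≤ 𝔮.comap (cj D) := by
    apply Ideal.IsPrime.le_of_pow_le (n := 3)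
    rw [hα, Ideal.span_singleton_le_iff_mem, hγ, Ideal.mem_comap, map_mul, cj_pp]
    exact 𝔮.mul_mem_right _ hPq
  have h5 : (el b 1 : CR D) ∈ 𝔮 := h3 (el_mem_JJ A b)
  have h6 : (el b (-1) : CR D) ∈ 𝔮 := by
    have := h4 (el_mem_JJ A b)
    rwa [Ideal.mem_comap, cj_el] at this
  have h7 : (pp (2 * b) : CR D) ∈ 𝔮 := by
    have h8 := 𝔮.add_mem h5 h6
    rw [el_add, add_neg_cancel, el_left, ← two_mul] at h8
    exact h8
  have hu2 : IsUnit (2 : k[X]) := by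
    have : (2 : k[X]) = C 2 := by rw [map_ofNat]
    rw [this]
    exact isUnit_C.2 (isUnit_iff_ne_zero.2 h2)
  have hcop : IsCoprime P (2 * b) := by
    rw [hP.irreducible.coprime_iff_not_dvd]
    intro h
    exact hPb (hu2.dvd_mul_left.1 h)
  obtain ⟨u, v, huv⟩ := hcop
  apply hprime.ne_top
  rw [Ideal.eq_top_iff_one]
  have h9 : (1 : CR D) = pp u * pp P + pp v * pp (2 * b) := by
    rw [← map_mul, ← map_mul, ← map_add, huv, map_one]
  rw [h9]
  exact 𝔮.add_mem (𝔮.mul_mem_left _ hPq) (𝔮.mul_mem_left _ h7)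

/-- the norm of a generator of the cube -/
theorem norm_gen [Finite k] (hm : D.Monic) {g : ℕ} (hg : D.natDegree = 2 * g + 1)
    [IsDedekindDomain (CR D)] {A b : k[X]} (hA : A.Monic) (hd : A ∣ b ^ 2 - D) {p q : k[X]}
    (hα : JJ D A b ^ 3 = Ideal.span {el p q}) : ∃ κ : k, κ ≠ 0 ∧ p ^ 2 - D * q ^ 2 = C κ * A ^ 3 := by
  have hodd : Odd D.natDegree := ⟨g, hg⟩
  have hα0 : (el p q : CR D) ≠ 0 := by
    intro h0
    rw [h0, Ideal.span_singleton_eq_bot.2 rfl] at hα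
    exact JJ_ne (pow_eq_zero_iff (three_ne_zero) |>.1 hα)
  -- divisibility
  have h1 : JJ D A b * (JJ D A b).map (cj D) ≤ Ideal.span {pp A} := by
    rw [JJ, Ideal.map_span, Ideal.span_mul_span', Ideal.span_le]
    obtain ⟨c, hc⟩ := hd
    rintro z ⟨x, hx, y, hy, rfl⟩
    rw [Set.image_pair, cj_pp, cj_el] at hy
    rw [SetLike.mem_coe, Ideal.mem_span_singleton]
    dsimp only
    rcases hx with rfl | rfl
    · exact dvd_mul_right _ _
    · rcases hy with rfl | rfl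
      · exact dvd_mul_left _ _
      · refine ⟨pp c, ?_⟩
        rw [← map_mul, ← hc, ← el_left, el_mul]
        congr 1
        · ring
        · ring
  have h2 : (el p q : CR D) * cj D (el p q) ∈ Ideal.span {(pp A : CR D)} ^ 3 := by
    have h3 : (JJ D A b * (JJ D A b).map (cj D)) ^ 3 ≤ Ideal.span {(pp A : CR D)} ^ 3 :=
      Ideal.pow_right_mono h1 3
    apply h3
    rw [mul_pow, ← Ideal.map_pow, hα, Ideal.map_span, Set.image_singleton]
    exact Ideal.mul_mem_mul (Ideal.mem_span_singleton_self _) (Ideal.mem_span_singleton_self _)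
  rw [el_mul_cj, Ideal.span_singleton_pow, Ideal.mem_span_singleton, ← map_pow] at h2
  obtain ⟨c, hc⟩ := pp_dvd h2
  -- degrees
  have h4 : dg (el p q : CR D) = 3 * A.natDegree := by
    have h5 := card_quot_span hm hg hα0
    have e3 : JJ D A b ^ 3 = JJ D A b * JJ D A b * JJ D A b := by ring
    rw [← hα, e3, mul_card, mul_card, card_JJ hA hd, ← pow_add, ← pow_add] at h5
    have h6 := Nat.pow_right_injective (one_lt_card (k := k)) h5
    omega
  unfold dg at h4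
  rw [nn_el] at h4
  have hc0 : c ≠ 0 := by
    rintro rfl
    rw [mul_zero] at hc
    obtain ⟨h7, h8⟩ := norm_ne hodd hc
    apply hα0
    rw [h7, h8, el_left, map_zero]
  have h9 : c.natDegree = 0 := by
    rw [hc, natDegree_mul (pow_ne_zero 3 hA.ne_zero) hc0, natDegree_pow] at h4
    omega
  rw [natDegree_eq_zero] at h9
  obtain ⟨κ, rfl⟩ := h9
  refine ⟨κ, ?_, by rw [hc]; ring⟩
  rintro rfl
  exact hc0 C_0

theorem odd_natDegree_mul_sq {F q : k[X]} (hF : F ≠ 0) (hq : q ≠ 0) :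
    (F * q ^ 2).natDegree = F.natDegree + 2 * q.natDegree := by
  rw [natDegree_mul hF (pow_ne_zero 2 hq), natDegree_pow]

/-- the sign, even case -/
theorem norm_even {G D₁ A₁ B₁ C₁ : k[X]} {κ : k} (hκ : κ ≠ 0) (hG : G.Monic) (hD₁ : D₁.Monic)
    (hA₁ : A₁.Monic) (hkey : G * B₁ ^ 2 - D₁ * C₁ ^ 2 = C κ * A₁ ^ 3)
    (hp : Odd (D₁.natDegree + G.natDegree)) (hev : Even (G.natDegree + A₁.natDegree)) :
    B₁ ≠ 0 ∧ κ = B₁.leadingCoeff ^ 2 := by
  obtain ⟨r, hr⟩ := hev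
  obtain ⟨s, hs⟩ := hp
  have hG0 := hG.ne_zero
  have hD₁0 := hD₁.ne_zero
  have hA₁0 := hA₁.ne_zero
  have hr0 : C κ * A₁ ^ 3 ≠ 0 := mul_ne_zero (C_ne_zero.2 hκ) (pow_ne_zero 3 hA₁0)
  have hrdeg : (C κ * A₁ ^ 3).natDegree = 3 * A₁.natDegree := by
    rw [natDegree_C_mul hκ, natDegree_pow]
  have hrlead : (C κ * A₁ ^ 3).leadingCoeff = κ := by
    rw [leadingCoeff_mul, leadingCoeff_C, (hA₁.pow 3).leadingCoeff, mul_one]
  have hB0 : B₁ ≠ 0 := by
    rintro rfl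
    have h4 : -(D₁ * C₁ ^ 2) = C κ * A₁ ^ 3 := by linear_combination hkey
    have hC0 : C₁ ≠ 0 := by
      rintro rfl
      apply hr0
      rw [← h4]
      ring
    have h5 := congrArg natDegree h4
    rw [natDegree_neg, odd_natDegree_mul_sq hD₁0 hC0, hrdeg] at h5
    omega
  refine ⟨hB0, ?_⟩
  by_cases hC0 : C₁ = 0
  · rw [hC0] at hkey
    have h4 : G * B₁ ^ 2 = C κ * A₁ ^ 3 := by linear_combination hkey
    have h5 := congrArg leadingCoeff h4
    rw [leadingCoeff_mul, hG.leadingCoeff, one_mul, leadingCoeff_pow, hrlead] at h5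
    exact h5.symm
  · have h4 : G * B₁ ^ 2 = C κ * A₁ ^ 3 + D₁ * C₁ ^ 2 := by linear_combination hkey
    have h5 : (D₁ * C₁ ^ 2).natDegree < (C κ * A₁ ^ 3).natDegree := by
      have h6 := congrArg natDegree h4
      rw [odd_natDegree_mul_sq hG0 hB0] at h6
      rcases lt_trichotomy (D₁ * C₁ ^ 2).natDegree (C κ * A₁ ^ 3).natDegree with h7 | h7 | h7
      · exact h7
      · rw [odd_natDegree_mul_sq hD₁0 hC0, hrdeg] at h7
        omega
      · rw [natDegree_add_eq_right_of_natDegree_lt h7, odd_natDegree_mul_sq hD₁0 hC0] at h6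
        omega
    have h6 := congrArg leadingCoeff h4
    rw [leadingCoeff_add_of_degree_lt' (degree_lt_degree h5), leadingCoeff_mul, hG.leadingCoeff,
      one_mul, leadingCoeff_pow, hrlead] at h6
    exact h6.symm

/-- the sign, odd case -/
theorem norm_odd {G D₁ A₁ B₁ C₁ : k[X]} {κ : k} (hκ : κ ≠ 0) (hG : G.Monic) (hD₁ : D₁.Monic)
    (hA₁ : A₁.Monic) (hkey : G * B₁ ^ 2 - D₁ * C₁ ^ 2 = C κ * A₁ ^ 3)
    (hp : Odd (D₁.natDegree + G.natDegree)) (hod : Odd (G.natDegree + A₁.natDegree)) :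
    C₁ ≠ 0 ∧ κ = -C₁.leadingCoeff ^ 2 := by
  obtain ⟨r, hr⟩ := hod
  obtain ⟨s, hs⟩ := hp
  have hG0 := hG.ne_zero
  have hD₁0 := hD₁.ne_zero
  have hA₁0 := hA₁.ne_zero
  have hr0 : C κ * A₁ ^ 3 ≠ 0 := mul_ne_zero (C_ne_zero.2 hκ) (pow_ne_zero 3 hA₁0)
  have hrdeg : (C κ * A₁ ^ 3).natDegree = 3 * A₁.natDegree := by
    rw [natDegree_C_mul hκ, natDegree_pow]
  have hrlead : (C κ * A₁ ^ 3).leadingCoeff = κ := by
    rw [leadingCoeff_mul, leadingCoeff_C, (hA₁.pow 3).leadingCoeff, mul_one]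
  have hC0 : C₁ ≠ 0 := by
    rintro rfl
    have h4 : G * B₁ ^ 2 = C κ * A₁ ^ 3 := by linear_combination hkey
    have hB0 : B₁ ≠ 0 := by
      rintro rfl
      apply hr0
      rw [← h4]
      ring
    have h5 := congrArg natDegree h4
    rw [odd_natDegree_mul_sq hG0 hB0, hrdeg] at h5
    omega
  refine ⟨hC0, ?_⟩
  by_cases hB0 : B₁ = 0
  · rw [hB0] at hkey
    have h4 : D₁ * C₁ ^ 2 = -(C κ * A₁ ^ 3) := by linear_combination -hkey
    have h5 := congrArg leadingCoeff h4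
    rw [leadingCoeff_mul, hD₁.leadingCoeff, one_mul, leadingCoeff_pow, leadingCoeff_neg, hrlead] at h5
    rw [h5, neg_neg]
  · have h4 : D₁ * C₁ ^ 2 = -(C κ * A₁ ^ 3) + G * B₁ ^ 2 := by linear_combination -hkey
    have h5 : (G * B₁ ^ 2).natDegree < (-(C κ * A₁ ^ 3)).natDegree := by
      have h6 := congrArg natDegree h4
      rw [odd_natDegree_mul_sq hD₁0 hC0] at h6
      rcases lt_trichotomy (G * B₁ ^ 2).natDegree (-(C κ * A₁ ^ 3)).natDegree with h7 | h7 | h7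
      · exact h7
      · rw [odd_natDegree_mul_sq hG0 hB0, natDegree_neg, hrdeg] at h7
        omega
      · rw [natDegree_add_eq_right_of_natDegree_lt h7, odd_natDegree_mul_sq hG0 hB0] at h6
        omega
    have h6 := congrArg leadingCoeff h4
    rw [leadingCoeff_add_of_degree_lt' (degree_lt_degree h5), leadingCoeff_mul, hD₁.leadingCoeff,
      one_mul, leadingCoeff_pow, leadingCoeff_neg, hrlead] at h6
    rw [h6, neg_neg]

/-- **A class of order three gives a solution.** -/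
theorem exists_sol [Finite k] (h2 : (2 : k) ≠ 0) {g : ℕ} {m : k[X]} (hD : IsD g m D)
    [IsDedekindDomain (CR D)] (h3 : 3 ∣ Nat.card (ClassGroup (CR D))) :
    ∃ G A B Q : k[X], IsSol g D G A B Q := by
  obtain ⟨hm, hg, hsq, _⟩ := hD
  have hodd : Odd D.natDegree := ⟨g, hg⟩
  have hD0 : D ≠ 0 := hm.ne_zero
  have hfin : Finite (ClassGroup (CR D)) := (class_count h2 hm hg hsq).1
  have := Fintype.ofFinite (ClassGroup (CR D))
  rw [Nat.card_eq_fintype_card] at h3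
  have : Fact (Nat.Prime 3) := ⟨Nat.prime_three⟩
  obtain ⟨c, hc⟩ := exists_prime_orderOf_dvd_card 3 h3
  obtain ⟨A, b, hA, hd, hAg, hcl⟩ := exists_JJ h2 hm hg hsq c
  -- the cube is principal
  have hc3 : c ^ 3 = 1 := by rw [← hc]; exact pow_orderOf_eq_one c
  have hc1 : c ≠ 1 := by
    rintro rfl
    rw [orderOf_one] at hc
    omega
  have hprin : ∃ α : CR D, JJ D A b ^ 3 = Ideal.span {α} := by
    rw [← hcl, ← map_pow] at hc3
    have h4 : JJ D A b ^ 3 ≠ ⊥ := pow_ne_zero 3 JJ_ne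
    have h5 : ClassGroup.mk0 ⟨JJ D A b ^ 3, mem_nonZeroDivisors_iff_ne_zero.2 h4⟩ = 1 := hc3
    rw [ClassGroup.mk0_eq_one_iff] at h5
    obtain ⟨α, hα⟩ := h5.principal
    exact ⟨α, hα⟩
  obtain ⟨α, hα⟩ := hprin
  obtain ⟨G, A₁, D₁, hG, hA₁, hAG, hDG, hGb, hcop, hprime⟩ := prim_data hsq hA hd
  have hGD : G ∣ D := ⟨D₁, hDG⟩
  have hG0 : G ≠ 0 := hG.ne_zero
  have hA₁0 : A₁ ≠ 0 := hA₁.ne_zero
  have hD₁0 : D₁ ≠ 0 := by
    rintro rfl
    rw [mul_zero] at hDG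
    exact hD0 hDG
  -- the form of `α`
  have hJG : JJ D A b ≤ GG D G := by
    unfold JJ
    rw [Ideal.span_le]
    rintro z hz
    rcases hz with rfl | rfl
    · show (pp A : CR D) ∈ GG D G
      rw [← el_left, mem_GG hGD]
      exact ⟨A₁, hAG⟩
    · exact (mem_GG hGD).2 hGb
  have hαG : α ∈ GG D G ^ 3 := by
    apply Ideal.pow_right_mono hJG 3
    rw [hα]
    exact Ideal.mem_span_singleton_self α
  obtain ⟨B₁, C₁, hαe⟩ := GG_cube hGD hαG
  rw [pp_mul_el] at hαe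
  have hα' := hα
  rw [hαe] at hα'
  obtain ⟨κ, hκ, hnorm⟩ := norm_gen hm hg hA hd hα'
  have hkey : G * B₁ ^ 2 - D₁ * C₁ ^ 2 = C κ * A₁ ^ 3 := by
    apply mul_left_cancel₀ (pow_ne_zero 3 hG0)
    rw [hAG] at hnorm
    linear_combination hnorm + G ^ 2 * C₁ ^ 2 * hDG
  have hcop1 : IsCoprime A₁ C₁ := by
    refine isCoprime_of_prime_dvd ?_ ?_
    · rintro ⟨h, _⟩
      exact hA₁0 h
    · intro P hP hPA hPC
      have hPG : ¬ P ∣ G := fun h => hP.not_isUnit (hcop.isUnit_of_dvd' hPA (h.trans hGD))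
      have hPB : P ∣ B₁ := by
        have h4 : P ∣ G * B₁ ^ 2 := by
          have h5 : G * B₁ ^ 2 = C κ * A₁ ^ 3 + D₁ * C₁ ^ 2 := by linear_combination hkey
          rw [h5]
          exact dvd_add ((dvd_pow hPA three_ne_zero).mul_left _)
            ((dvd_pow hPC two_ne_zero).mul_left _)
        rcases hP.dvd_or_dvd h4 with h5 | h5
        · exact absurd h5 hPG
        · exact hP.dvd_of_dvd_pow h5
      obtain ⟨B₂, hB₂⟩ := hPB
      obtain ⟨C₂, hC₂⟩ := hPC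
      refine not_dvd_gen h2 hm hg hP (hprime P hP hPA) (γ := el (G * (G * B₂)) (G * C₂)) hα ?_
      rw [hαe, pp_mul_el, hB₂, hC₂]
      congr 1
      · ring
      · ring
  have hcopD : IsCoprime A₁ (C₁ * D) := hcop1.mul_right hcop
  have hdegA : A.natDegree = G.natDegree + A₁.natDegree := by
    rw [hAG, natDegree_mul hG0 hA₁0]
  have hdegD : D₁.natDegree + G.natDegree = 2 * g + 1 := by
    rw [← hg, hDG, natDegree_mul hG0 hD₁0, add_comm]
  have hD₁m : D₁.Monic := hG.of_mul_monic_left (hDG ▸ hm)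
  have hp : Odd (D₁.natDegree + G.natDegree) := ⟨g, hdegD⟩
  have hcopl : ∀ l : k, l ≠ 0 → IsCoprime A₁ (C l * C₁ * D) := by
    intro l hl
    obtain ⟨x, y, hxy⟩ := hcopD
    have hl' : C l * C l⁻¹ = (1 : k[X]) := by rw [← C_mul, mul_inv_cancel₀ hl, C_1]
    exact ⟨x, C l⁻¹ * y, by linear_combination hxy + y * C₁ * D * hl'⟩
  rcases Nat.even_or_odd (G.natDegree + A₁.natDegree) with hev | hod
  · -- even
    obtain ⟨hB0, hκB⟩ := norm_even hκ hG hD₁m hA₁ hkey hp hev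
    have hl0 : B₁.leadingCoeff ≠ 0 := leadingCoeff_ne_zero.2 hB0
    set l := B₁.leadingCoeff⁻¹ with hl
    have hll : C l ^ 2 * C κ = (1 : k[X]) := by
      rw [← C_pow, ← C_mul, hκB, ← mul_pow, hl, inv_mul_cancel₀ hl0, one_pow, C_1]
    have hlne : l ≠ 0 := inv_ne_zero hl0
    refine ⟨G, A₁, C l * B₁, C l * C₁, hG, hA₁, hGD, by omega, hcopl l hlne, ?_, ?_, ?_⟩
    · apply mul_ne_zero (C_ne_zero.2 hlne)
      rintro rfl
      have h4 : A₁ = 1 := by
        rw [isCoprime_zero_right] at hcop1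
        exact hA₁.isUnit_iff.1 hcop1
      have h5 : G * B₁ ^ 2 = C κ := by
        rw [h4] at hkey
        linear_combination hkey
      have h6 : G = 1 := by
        rw [← hG.isUnit_iff]
        exact isUnit_of_dvd_unit (Dvd.intro _ h5) (isUnit_C.2 (isUnit_iff_ne_zero.2 hκ))
      have h7 : JJ D A b = ⊤ := by
        rw [Ideal.eq_top_iff_one]
        have := pp_mem_JJ (D := D) A b
        rw [hAG, h4, h6, mul_one, map_one] at this
        rwa [hAG, h4, h6, mul_one]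
      apply hc1
      rw [← hcl, ClassGroup.mk0_eq_one_iff]
      rw [h7]
      exact ⟨1, by rw [Ideal.submodule_span_eq, Ideal.span_singleton_one]⟩
    · exact mul_ne_zero (C_ne_zero.2 hlne) hB0
    · right
      refine ⟨hev, ?_, ?_⟩
      · show (C l * B₁).leadingCoeff = 1
        rw [leadingCoeff_mul, leadingCoeff_C, hl, inv_mul_cancel₀ hl0]
      · rw [hDG]
        linear_combination -(G * C l ^ 2) * hkey - (G * A₁ ^ 3) * hll
  · -- odd
    obtain ⟨hC0, hκC⟩ := norm_odd hκ hG hD₁m hA₁ hkey hp hod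
    have hl0 : C₁.leadingCoeff ≠ 0 := leadingCoeff_ne_zero.2 hC0
    set l := C₁.leadingCoeff⁻¹ with hl
    have hll : C l ^ 2 * C κ = (-1 : k[X]) := by
      rw [← C_pow, ← C_mul, hκC, mul_neg, ← mul_pow, hl, inv_mul_cancel₀ hl0, one_pow, C_neg, C_1]
    have hlne : l ≠ 0 := inv_ne_zero hl0
    refine ⟨G, A₁, C l * B₁, C l * C₁, hG, hA₁, hGD, by omega, hcopl l hlne,
      mul_ne_zero (C_ne_zero.2 hlne) hC0, ?_, ?_⟩
    · apply mul_ne_zero (C_ne_zero.2 hlne)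
      rintro rfl
      have h4 : D₁ ∣ A₁ ^ 3 := by
        refine ⟨C l ^ 2 * C₁ ^ 2, ?_⟩
        linear_combination C l ^ 2 * hkey + A₁ ^ 3 * hll
      have h5 : IsUnit D₁ :=
        ((hcop.of_isCoprime_of_dvd_right ⟨G, by rw [hDG, mul_comm]⟩).pow_left (m := 3)).isUnit_of_dvd'
          h4 dvd_rfl
      have h6 := natDegree_eq_zero_of_isUnit h5
      omega
    · left
      refine ⟨hod, ?_, ?_⟩
      · show (C l * C₁).leadingCoeff = 1
        rw [leadingCoeff_mul, leadingCoeff_C, hl, inv_mul_cancel₀ hl0]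
      · rw [hDG]
        linear_combination -(G * C l ^ 2) * hkey - (G * A₁ ^ 3) * hll

/-- the conjugate solution -/
theorem IsSol.conj {g : ℕ} {G A B Q : k[X]} (h2 : (2 : k) ≠ 0) (h : IsSol g D G A B Q) :
    ∃ B' Q' : k[X], IsSol g D G A B' Q' ∧ (B', Q') ≠ (B, Q) := by
  have hneg : ∀ p : k[X], p ≠ 0 → -p ≠ p := by
    intro p hp h
    have h3 : C 2 * p = 0 := by
      rw [map_ofNat]
      linear_combination -h
    rcases mul_eq_zero.1 h3 with h4 | h4
    · exact h2 (C_eq_zero.1 h4)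
    · exact hp h4
  rcases h.eqn with ⟨ho, hQ, he⟩ | ⟨hev, hB, he⟩
  · refine ⟨-B, Q, ⟨h.hG, h.hA, h.dvd, h.deg, h.cop, h.Q0, neg_ne_zero.2 h.B0, Or.inl ⟨ho, hQ, ?_⟩⟩,
      ?_⟩
    · rw [he]; ring
    · intro h3
      exact hneg B h.B0 (Prod.mk.inj h3).1
  · refine ⟨B, -Q, ⟨h.hG, h.hA, h.dvd, h.deg, ?_, neg_ne_zero.2 h.Q0, h.B0, Or.inr ⟨hev, hB, ?_⟩⟩,
      ?_⟩
    · rw [neg_mul]
      exact h.cop.neg_right
    · rw [← he]; ring
    · intro h3
      exact hneg Q h.Q0 (Prod.mk.inj h3).2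

end

end Pool.Agent.Y711
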