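import Pool.Agent.Y784.ZC.Main
import Pool.Agent.Y711.Ext

/-!
Nonvanishing modulo three from a class number prime to three.
-/

set_option autoImplicit false
set_option maxHeartbeats 1000000

open PowerSeries

namespace Pool.Agent.Y711

open Pool.Agent.TH943.HJ Pool.Agent.W313.Hyp Pool.Agent.W343.BSD

section

variable {k : Type} [Field k] [Finite k]

/-- reduction modulo three -/
noncomputable abbrev red3 : PowerSeries ℤ →+* PowerSeries (ZMod 3) :=
  PowerSeries.map (Int.castRingHom (ZMod 3))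

/-- The inverse of the `L`-function of the quadratic character of `D` modulo three. -/
noncomputable def E3 (D : Polynomial k) : PowerSeries (ZMod 3) :=
  eulerProd (fun P : MI k => P.1.natDegree)
    (fun P => 1 - C ((chi D P.1 : ℤ) : ZMod 3) * X ^ P.1.natDegree)

omit [Finite k] in
theorem chi_dvd (D : Polynomial k) (P : MI k) : (X : PowerSeries ℤ) ^ P.1.natDegree ∣
    (1 - C (chi D P.1) * X ^ P.1.natDegree) - 1 := by
  rw [sub_right_comm, sub_self, zero_sub]
  exact (dvd_neg).2 (dvd_mul_left _ _)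

omit [Finite k] in
theorem one_dvd' (P : MI k) : (X : PowerSeries ℤ) ^ P.1.natDegree ∣
    (1 - X ^ P.1.natDegree) - 1 := by
  rw [sub_right_comm, sub_self, zero_sub]
  exact (dvd_neg).2 dvd_rfl

/-- a tail of constant coefficients -/
theorem eval_one_tail {R : Type} [CommRing R] (P : Polynomial R) (Q : PowerSeries R) (h : R)
    (M : ℕ) (hP : (P : PowerSeries R) = (1 - X) * Q) (hQ : ∀ n, M ≤ n → coeff n Q = h) :
    P.eval 1 = h := by
  have h1 : ∀ n, ∑ i ∈ Finset.range (n + 1), P.coeff i = coeff n Q := by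
    intro n
    induction n with
    | zero =>
      have := congrArg (coeff 0) hP
      rw [Polynomial.coeff_coe] at this
      rw [Finset.sum_range_one, this, sub_mul, one_mul, map_sub, coeff_zero_X_mul, sub_zero]
    | succ n ih =>
      have := congrArg (coeff (n + 1)) hP
      rw [Polynomial.coeff_coe] at this
      rw [Finset.sum_range_succ, ih, this, sub_mul, one_mul, map_sub, coeff_succ_X_mul]
      ring
  have h2 := Polynomial.eval_eq_sum_range' (p := P) (n := max M P.natDegree + 1) (by omega) 1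
  simp only [one_pow, mul_one] at h2
  rw [h2, h1, hQ _ (le_max_left _ _)]

omit [Field k] [Finite k] in
theorem card_cast (h3 : Nat.card k % 3 = 1) : ((Nat.card k : ℕ) : ZMod 3) = 1 := by
  have : ((Nat.card k : ℕ) : ZMod 3) = ((1 : ℕ) : ZMod 3) := by
    rw [ZMod.natCast_eq_natCast_iff]
    exact h3
  rw [this, Nat.cast_one]

/-- The `L`-function modulo three is a polynomial with the value `h` at one. -/
theorem exists_W (h2 : (2 : k) ≠ 0) (h3 : Nat.card k % 3 = 1) {g : ℕ} {m D : Polynomial k}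
    (hD : IsD g m D) [IsDedekindDomain (CR D)] :
    ∃ w : Polynomial (ZMod 3), E3 D * (w : PowerSeries (ZMod 3)) = 1 ∧
      w.eval 1 = ((Nat.card (ClassGroup (CR D)) : ℕ) : ZMod 3) := by
  obtain ⟨hm, hg, hsq, _⟩ := hD
  have hodd : Odd D.natDegree := ⟨g, hg⟩
  obtain ⟨_, hz⟩ := Pool.Agent.Y784.ZC.zeta_CR h2 hm hodd hsq
  obtain ⟨_, ⟨M, hM⟩, _⟩ := Pool.Agent.Y496.CC.class_count h2 hm hg hsq
  set Z : PowerSeries ℤ := PowerSeries.mk (fun m =>
    (Nat.card {I : Ideal (CR D) // Nat.card (CR D ⧸ I) = Nat.card k ^ m} : ℤ)) with hZ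
  rw [eulerProd_mul (fun n => finite_deg_le n) one_dvd' (chi_dvd D), euler_irr] at hz
  -- modulo three
  have hq := card_cast h3
  have hz3 := congrArg red3 hz
  rw [map_mul, map_mul, map_one, map_sub, map_one, map_mul, PowerSeries.map_C, PowerSeries.map_X,
    map_eulerProd (fun n => finite_deg_le n)] at hz3
  have hE : eulerProd (fun P : MI k => P.1.natDegree) (fun P =>
      red3 (1 - C (chi D P.1) * X ^ P.1.natDegree)) = E3 D := by
    unfold E3
    congr 1
    funext P
    rw [map_sub, map_one, map_mul, PowerSeries.map_C, map_pow, PowerSeries.map_X]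
    rfl
  rw [hE] at hz3
  have hq1 : (Int.castRingHom (ZMod 3)) ((Nat.card k : ℕ) : ℤ) = 1 := by
    rw [eq_intCast, Int.cast_natCast, hq]
  have hq1' : PowerSeries.C ((Int.castRingHom (ZMod 3)) ((Nat.card k : ℕ) : ℤ)) = 1 := by
    rw [hq1, map_one]
  have hz4 : (1 - X) * E3 D * red3 Z = 1 := by
    have h5 : (1 - PowerSeries.C ((Int.castRingHom (ZMod 3)) ((Nat.card k : ℕ) : ℤ)) * X :
        PowerSeries (ZMod 3)) = 1 - X := by rw [hq1', one_mul]
    rw [← h5]
    exact hz3
  have htail : ∀ n, M ≤ n → coeff n (red3 Z) = ((Nat.card (ClassGroup (CR D)) : ℕ) : ZMod 3) := by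
    intro n hn
    rw [PowerSeries.coeff_map, hZ, coeff_mk, hM n hn, eq_intCast]
    push_cast
    rw [hq, one_pow, mul_one]
  obtain ⟨w, hw⟩ : ∃ w : Polynomial (ZMod 3), (w : PowerSeries (ZMod 3)) = (1 - X) * red3 Z := by
    refine ⟨trunc (M + 1) ((1 - X) * red3 Z), ?_⟩
    ext n
    rw [Polynomial.coeff_coe, coeff_trunc]
    split_ifs with h
    · rfl
    · obtain ⟨i, rfl⟩ : ∃ i, n = i + 1 := ⟨n - 1, by omega⟩
      rw [sub_mul, one_mul, map_sub, coeff_succ_X_mul, htail _ (by omega), htail _ (by omega),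
        sub_self]
  refine ⟨w, ?_, eval_one_tail w (red3 Z) _ M hw htail⟩
  rw [hw]
  linear_combination hz4

/-- **Nonvanishing.** -/
theorem nonvanish (h2 : (2 : k) ≠ 0) (h3 : Nat.card k % 3 = 1) {g : ℕ} {m D : Polynomial k}
    (hD : IsD g m D) [IsDedekindDomain (CR D)] (hh : ¬ 3 ∣ Nat.card (ClassGroup (CR D)))
    {F : PowerSeries ℤ} {r : ℕ} (hF : red3 F * E3 D ^ r = 1) :
    ¬ ∃ G : Polynomial ℤ, F =
      (((1 - Polynomial.C (Nat.card k : ℤ) * Polynomial.X) * G : Polynomial ℤ) : PowerSeries ℤ) := by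
  rintro ⟨G, hG⟩
  obtain ⟨w, hw1, hw2⟩ := exists_W h2 h3 hD
  have h4 : red3 F = ((w ^ r : Polynomial (ZMod 3)) : PowerSeries (ZMod 3)) := by
    rw [Polynomial.coe_pow]
    calc red3 F = red3 F * (E3 D * (w : PowerSeries (ZMod 3))) ^ r := by
          rw [hw1, one_pow, mul_one]
      _ = (red3 F * E3 D ^ r) * (w : PowerSeries (ZMod 3)) ^ r := by rw [mul_pow]; ring
      _ = _ := by rw [hF, one_mul]
  have h5 : red3 F = (((1 - Polynomial.X) * G.map (Int.castRingHom (ZMod 3)) :
      Polynomial (ZMod 3)) : PowerSeries (ZMod 3)) := by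
    rw [hG, ← Polynomial.polynomial_map_coe, Polynomial.map_mul, Polynomial.map_sub,
      Polynomial.map_one, Polynomial.map_mul, Polynomial.map_C, Polynomial.map_X, eq_intCast,
      Int.cast_natCast, card_cast h3, Polynomial.C_1, one_mul]
  rw [h4] at h5
  have h6 := Polynomial.coe_injective (ZMod 3) h5
  have h7 := congrArg (Polynomial.eval 1) h6
  rw [Polynomial.eval_pow, Polynomial.eval_mul, Polynomial.eval_sub, Polynomial.eval_one,
    Polynomial.eval_X, sub_self, zero_mul, hw2] at h7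
  have h8 : ((Nat.card (ClassGroup (CR D)) : ℕ) : ZMod 3) = 0 := by
    have : Fact (Nat.Prime 3) := ⟨Nat.prime_three⟩
    exact eq_zero_of_pow_eq_zero h7
  rw [ZMod.natCast_eq_zero_iff] at h8
  exact hh h8

end

end Pool.Agent.Y711
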