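import Pool.Agent.Y711.LK
import Pool.Agent.Y711.NV

/-!
Euler products over the maximal ideals of a Galois extension of `k[t]` of degree a power of three,
modulo three.
-/

set_option autoImplicit false
set_option maxHeartbeats 1000000
set_option synthInstance.maxHeartbeats 400000

open PowerSeries

namespace Pool.Agent.Y711

open Pool.Agent.W313.Hyp Pool.Agent.W343.BSD Pool.Agent.Y784.FC

section general

variable {R : Type*} [CommRing R]

theorem fin_factor {J : Type*} {d : J → ℕ} (hfin : ∀ n, {v | d v ≤ n}.Finite)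
    {F W : J → PowerSeries R} (hF : ∀ v, (X : PowerSeries R) ^ d v ∣ F v - 1)
    (hW : ∀ v, (X : PowerSeries R) ^ d v ∣ W v - 1) (B : Finset J)
    (hB : ∀ v, v ∉ B → F v = W v) :
    eulerProd d F * ∏ v ∈ B, W v = eulerProd d W * ∏ v ∈ B, F v := by
  classical
  let G : J → PowerSeries R := fun v => if v ∈ B then 1 else F v
  have hG : ∀ v, (X : PowerSeries R) ^ d v ∣ G v - 1 := by
    intro v
    show _ ∣ (if v ∈ B then 1 else F v) - 1
    split_ifs
    · rw [sub_self]; exact dvd_zero _
    · exact hF v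
  have key : ∀ H : J → PowerSeries R, (∀ v, (X : PowerSeries R) ^ d v ∣ H v - 1) →
      (∀ v, v ∉ B → F v = H v) → eulerProd d H = eulerProd d G * ∏ v ∈ B, H v := by
    intro H hH hHB
    let H' : J → PowerSeries R := fun v => if v ∈ B then H v else 1
    have hH' : ∀ v, (X : PowerSeries R) ^ d v ∣ H' v - 1 := by
      intro v
      show _ ∣ (if v ∈ B then H v else 1) - 1
      split_ifs
      · exact hH v
      · rw [sub_self]; exact dvd_zero _
    have h1 : H = fun v => G v * H' v := by
      funext v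
      show H v = (if v ∈ B then 1 else F v) * (if v ∈ B then H v else 1)
      by_cases hv : v ∈ B
      · rw [if_pos hv, if_pos hv, one_mul]
      · rw [if_neg hv, if_neg hv, mul_one, hHB v hv]
    have h2 : eulerProd d H' = ∏ v ∈ B, H v := by
      rw [eulerProd_of_finset hfin hH' B (fun v hv => if_neg hv)]
      exact Finset.prod_congr rfl fun v hv => if_pos hv
    rw [← h2, ← eulerProd_mul hfin hG hH', ← h1]
  rw [key F hF (fun v _ => rfl), key W hW hB]
  ring

theorem coe_prod {ι : Type*} (s : Finset ι) (f : ι → Polynomial R) :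
    ((∏ i ∈ s, f i : Polynomial R) : PowerSeries R) = ∏ i ∈ s, (f i : PowerSeries R) :=
  map_prod (Polynomial.coeToPowerSeries.ringHom (R := R)) f s

theorem pow_dvd_sub_one {f : PowerSeries R} {d : ℕ} (h : (X : PowerSeries R) ^ d ∣ f - 1) (n : ℕ) :
    (X : PowerSeries R) ^ d ∣ f ^ n - 1 := by
  have h1 : f - 1 ∣ f ^ n - 1 ^ n := sub_dvd_pow_sub_pow _ _ n
  rw [one_pow] at h1
  exact h.trans h1

theorem one_sub_dvd (c : PowerSeries R) (d : ℕ) : (X : PowerSeries R) ^ d ∣ (1 - c * X ^ d) - 1 := by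
  rw [sub_right_comm, sub_self, zero_sub]
  exact (dvd_neg).2 (dvd_mul_left _ _)

theorem eulerProd_pow {ι : Type*} {d : ι → ℕ} (hfin : ∀ n, {i | d i ≤ n}.Finite)
    {f : ι → PowerSeries R} (hf : ∀ i, (X : PowerSeries R) ^ d i ∣ f i - 1) (n : ℕ) :
    eulerProd d (fun i => f i ^ n) = eulerProd d f ^ n := by
  have h := eulerProd_prod hfin (Finset.range n) (fun _ => f) (fun _ => hf)
  simpa only [Finset.prod_const, Finset.card_range] using h

end general

section

variable {k : Type} [Field k] [Finite k] {B : Type} [CommRing B] [Algebra (Polynomial k) B]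
  [Module.Finite (Polynomial k) B]

/-- The maximal ideals not containing `D`. -/
abbrev MxD (D : Polynomial k) (B : Type) [CommRing B] [Algebra (Polynomial k) B] : Type :=
  {𝔓 : Ideal B // 𝔓.IsMaximal ∧ algebraMap (Polynomial k) B D ∉ 𝔓}

omit [Finite k] in
theorem fin_over (D : Polynomial k) (P : MI k) :
    {v : MxD D B | v.1.LiesOver (sp P)}.Finite := by
  refine Set.Finite.of_finite_image (f := fun v : MxD D B => v.1) ((finite_over (B := B) P).subset ?_)
    (Set.injOn_of_injective Subtype.val_injective)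
  rintro _ ⟨v, hv, rfl⟩
  exact ⟨v.2.1, hv⟩

/-- the maximal ideals over a closed point -/
noncomputable def SP (D : Polynomial k) (B : Type) [CommRing B] [Algebra (Polynomial k) B]
    [Module.Finite (Polynomial k) B] (P : MI k) : Finset (MxD D B) := (fin_over (B := B) D P).toFinset

theorem mem_SP {D : Polynomial k} {P : MI k} {v : MxD D B} :
    v ∈ SP D B P ↔ v.1.LiesOver (sp P) := by
  rw [SP, Set.Finite.mem_toFinset]
  rfl

theorem fin_max (D : Polynomial k) (n : ℕ) : {v : MxD D B | dgM k v.1 ≤ n}.Finite := by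
  classical
  refine ((finite_deg_le (F := k) n).toFinset.biUnion (SP D B)).finite_toSet.subset ?_
  intro v hv
  have hv' : dgM k v.1 ≤ n := hv
  have hmax := v.2.1
  obtain ⟨P, hP⟩ := exists_below (k := k) v.1
  rw [Finset.mem_coe, Finset.mem_biUnion]
  refine ⟨P, ?_, mem_SP.2 hP⟩
  rw [Set.Finite.mem_toFinset]
  exact (dg_le v.1 P).trans hv'

/-- the factor modulo three at a maximal ideal -/
noncomputable def wM (D : Polynomial k) (𝔓 : Ideal B) : PowerSeries (ZMod 3) :=
  1 - C ((qs (Ideal.Quotient.mk 𝔓 (algebraMap (Polynomial k) B D)) : ℤ) : ZMod 3) * X ^ dgM k 𝔓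

/-- the factor modulo three at a closed point of the line -/
noncomputable def w1 (D : Polynomial k) (P : MI k) : PowerSeries (ZMod 3) :=
  1 - C ((chi D P.1 : ℤ) : ZMod 3) * X ^ P.1.natDegree

omit [Finite k] in
theorem w1_of_dvd {D : Polynomial k} {P : MI k} (h : P.1 ∣ D) : w1 D P = 1 := by
  unfold w1 chi
  rw [if_pos h, Int.cast_zero, map_zero, zero_mul, sub_zero]

omit [Finite k] in
theorem chi_cases {D : Polynomial k} {P : MI k} (h : ¬ P.1 ∣ D) :
    chi D P.1 = 1 ∨ chi D P.1 = -1 := by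
  unfold chi
  rw [if_neg h]
  split_ifs
  · exact Or.inl rfl
  · exact Or.inr rfl

omit [Finite k] in
theorem w1_pow (D : Polynomial k) (P : MI k) (i : ℕ) :
    1 - C ((chi D P.1 : ℤ) : ZMod 3) * X ^ (P.1.natDegree * 3 ^ i) = w1 D P ^ 3 ^ i := by
  have hchar : CharP (PowerSeries (ZMod 3)) 3 :=
    charP_of_injective_ringHom (PowerSeries.C_injective (R := ZMod 3)) 3
  have hp : Fact (Nat.Prime 3) := ⟨Nat.prime_three⟩
  unfold w1
  rw [sub_pow_char_pow, one_pow, mul_pow, ← pow_mul, ← map_pow]
  have h1 : ((chi D P.1 : ℤ) : ZMod 3) ^ 3 ^ i = ((chi D P.1 : ℤ) : ZMod 3) := by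
    rw [ZMod.pow_card_pow]
  rw [h1]

omit [Finite k] in
theorem w1_dvd (D : Polynomial k) (P : MI k) :
    (X : PowerSeries (ZMod 3)) ^ P.1.natDegree ∣ w1 D P - 1 := one_sub_dvd _ _

omit [Finite k] [Module.Finite (Polynomial k) B] in
theorem wM_dvd (D : Polynomial k) (𝔓 : Ideal B) :
    (X : PowerSeries (ZMod 3)) ^ dgM k 𝔓 ∣ wM D 𝔓 - 1 := one_sub_dvd _ _

end

section galois

variable {k : Type} [Field k] [Finite k] {B : Type} [CommRing B] [IsDomain B]
  [Algebra (Polynomial k) B] [Module.Finite (Polynomial k) B] [Module.Flat (Polynomial k) B]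
  (G : Type) [Group G] [Finite G] [MulSemiringAction G B] [IsGaloisGroup G (Polynomial k) B]

/-- the number of the primes times the residue degree -/
noncomputable def sN (B : Type) [CommRing B] [Algebra (Polynomial k) B] (P : MI k) : ℕ :=
  ((sp P).primesOver B).ncard * (sp P).inertiaDegIn B

omit [Finite k] in
include G in
theorem sN_mul (P : MI k) : sN B P * (sp P).ramificationIdxIn B = Nat.card G := by
  rw [← efg G (B := B) P, sN]
  ring

include G in
/-- the factors over a closed point -/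
theorem prod_SP (h2 : (2 : k) ≠ 0) {j : ℕ} (hG : Nat.card G = 3 ^ j) (D : Polynomial k) (P : MI k) :
    ∏ v ∈ SP D B P, wM D v.1 = w1 D P ^ sN B P := by
  classical
  by_cases hP : P.1 ∣ D
  · rw [w1_of_dvd hP, one_pow]
    apply Finset.prod_eq_one
    intro v hv
    exfalso
    rw [mem_SP] at hv
    exact v.2.2 ((mem_iff_dvd v.1 P D).2 hP)
  · obtain ⟨i, hi⟩ := f_pow G (B := B) hG P
    have h1 : ∀ v ∈ SP D B P, wM D v.1 = w1 D P ^ 3 ^ i := by
      intro v hv
      rw [mem_SP] at hv
      have hmax := v.2.1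
      have hf : v.1.inertiaDeg (Polynomial k) = 3 ^ i := by
        rw [← hi]
        exact (Ideal.inertiaDegIn_eq_inertiaDeg (sp P) v.1 G).symm
      have hodd : Odd (v.1.inertiaDeg (Polynomial k)) := by
        rw [hf]
        exact Odd.pow (by decide)
      unfold wM
      rw [qs_over h2 v.1 P hodd D, dg_over v.1 P, hf, w1_pow]
    rw [Finset.prod_congr rfl h1, Finset.prod_const, ← pow_mul]
    congr 1
    rw [sN, hi, mul_comm (3 ^ i)]
    congr 1
    rw [← Set.ncard_coe_finset (SP D B P)]
    rw [← Set.ncard_image_of_injective _ (Subtype.val_injective)]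
    congr 1
    rw [primesOver_eq]
    ext 𝔓
    constructor
    · rintro ⟨v, hv, rfl⟩
      rw [Finset.mem_coe, mem_SP] at hv
      exact ⟨v.2.1, hv⟩
    · rintro ⟨hm, hl⟩
      refine ⟨⟨𝔓, hm, fun h => hP ((mem_iff_dvd 𝔓 P D).1 h)⟩, ?_, rfl⟩
      rw [Finset.mem_coe, mem_SP]
      exact hl

include G in
/-- the Euler product over the maximal ideals -/
theorem euler_max (h2 : (2 : k) ≠ 0) {j : ℕ} (hG : Nat.card G = 3 ^ j) (D : Polynomial k) :
    eulerProd (fun v : MxD D B => dgM k v.1) (fun v => wM D v.1) =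
      eulerProd (fun P : MI k => P.1.natDegree) (fun P => w1 D P ^ sN B P) := by
  rw [← eulerProd_fiber (d := fun P : MI k => P.1.natDegree) (fun n => finite_deg_le n)
    (fun n => fin_max D n) (fun v => wM_dvd D v.1) (SP D B) ?_ ?_ ?_]
  · congr 1
    funext P
    exact prod_SP G h2 hG D P
  · intro v
    have hmax := v.2.1
    obtain ⟨P, hP⟩ := exists_below (k := k) v.1
    exact ⟨P, mem_SP.2 hP⟩
  · intro P Q v hP hQ
    rw [mem_SP] at hP hQ
    exact below_unique hP hQ
  · intro P v hP
    rw [mem_SP] at hP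
    have hmax := v.2.1
    exact dg_le v.1 P

include G in
/-- comparison with the power of the Euler product over the line -/
theorem euler_max_line (h2 : (2 : k) ≠ 0) {j : ℕ} (hG : Nat.card G = 3 ^ j) (D : Polynomial k)
    (hram : ∀ P : MI k, (sp P).ramificationIdxIn B ≠ 1 → chi D P.1 ≠ 1) :
    ∃ U V : Polynomial (ZMod 3), (∀ x : ZMod 3,
        (∀ P : MI k, (sp P).ramificationIdxIn B ≠ 1 → x ^ P.1.natDegree = 1) → U.eval x ≠ 0) ∧
      eulerProd (fun v : MxD D B => dgM k v.1) (fun v => wM D v.1) * (U : PowerSeries (ZMod 3)) =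
        E3 D ^ 3 ^ j * (V : PowerSeries (ZMod 3)) := by
  classical
  obtain ⟨a, ha0, ha⟩ := exists_disc G (B := B) (k := k)
  have hTfin : {P : MI k | (sp P).ramificationIdxIn B ≠ 1}.Finite :=
    (finite_deg_le (F := k) a.natDegree).subset fun P hP =>
      Polynomial.natDegree_le_of_dvd (ha P hP) ha0
  set T : Finset (MI k) := hTfin.toFinset with hT
  set pw : MI k → Polynomial (ZMod 3) := fun P =>
    1 - Polynomial.C ((chi D P.1 : ℤ) : ZMod 3) * Polynomial.X ^ P.1.natDegree with hpw
  have hcoe : ∀ P, ((pw P : Polynomial (ZMod 3)) : PowerSeries (ZMod 3)) = w1 D P := by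
    intro P
    simp only [hpw]
    unfold w1
    rw [Polynomial.coe_sub, Polynomial.coe_one, Polynomial.coe_mul, Polynomial.coe_C,
      Polynomial.coe_pow, Polynomial.coe_X]
  have hev : ∀ x : ZMod 3, (∀ P : MI k, (sp P).ramificationIdxIn B ≠ 1 → x ^ P.1.natDegree = 1) →
      ∀ P ∈ T, (pw P).eval x ≠ 0 := by
    intro x hx P hP
    rw [hT, Set.Finite.mem_toFinset] at hP
    have hP' : (sp P).ramificationIdxIn B ≠ 1 := hP
    have h1 : (pw P).eval x = 1 - ((chi D P.1 : ℤ) : ZMod 3) := by
      simp only [hpw]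
      rw [Polynomial.eval_sub, Polynomial.eval_one, Polynomial.eval_mul, Polynomial.eval_C,
        Polynomial.eval_pow, Polynomial.eval_X, hx P hP', mul_one]
    rw [h1]
    by_cases hPD : P.1 ∣ D
    · have : chi D P.1 = 0 := if_pos hPD
      rw [this]
      decide
    · rcases chi_cases hPD with h | h
      · exact absurd h (hram P hP')
      · rw [h]
        decide
  have hB : ∀ P : MI k, P ∉ T → w1 D P ^ sN B P = w1 D P ^ 3 ^ j := by
    intro P hP
    rw [hT, Set.Finite.mem_toFinset] at hP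
    by_cases hr : (sp P).ramificationIdxIn B = 1
    · have h3 := sN_mul G (B := B) P
      rw [hr, mul_one, hG] at h3
      rw [h3]
    · exact absurd hr hP
  have h5 := fin_factor (R := ZMod 3) (fun n => finite_deg_le (F := k) n)
    (F := fun P => w1 D P ^ sN B P) (W := fun P => w1 D P ^ 3 ^ j)
    (fun P => pow_dvd_sub_one (w1_dvd D P) _) (fun P => pow_dvd_sub_one (w1_dvd D P) _) T hB
  refine ⟨∏ P ∈ T, pw P ^ 3 ^ j, ∏ P ∈ T, pw P ^ sN B P, ?_, ?_⟩
  · intro x hx
    rw [Polynomial.eval_prod]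
    refine Finset.prod_ne_zero_iff.2 fun P hP => ?_
    rw [Polynomial.eval_pow]
    have : Fact (Nat.Prime 3) := ⟨Nat.prime_three⟩
    exact pow_ne_zero _ (hev x hx P hP)
  · rw [euler_max G h2 hG D, coe_prod, coe_prod]
    simp only [Polynomial.coe_pow, hcoe]
    rw [h5, eulerProd_pow (fun n => finite_deg_le (F := k) n) (w1_dvd D)]
    rfl

end galois

end Pool.Agent.Y711
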