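import Pool.Agent.Y711.NL
import Pool.Agent.Y711.LE
import Pool.Agent.Y711.Tame

/-!
Order of vanishing modulo three.
-/

set_option autoImplicit false
set_option maxHeartbeats 1000000
set_option synthInstance.maxHeartbeats 400000

open PowerSeries

namespace Pool.Agent.Y711

open Pool.Agent.TH943.HJ Pool.Agent.W313.Hyp Pool.Agent.W343.BSD

section

variable {k : Type} [Field k] [Finite k]

/-- The order of vanishing modulo three is at most that of the polynomial `v`. -/
theorem order_q (h2 : (2 : k) ≠ 0) (h3 : Nat.card k % 3 ≠ 0) {g : ℕ} {m D : Polynomial k}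
    (hD : IsD g m D) [IsDedekindDomain (CR D)] (hh : ¬ 3 ∣ Nat.card (ClassGroup (CR D)))
    {F : PowerSeries ℤ} {r t : ℕ} {u v : Polynomial (ZMod 3)}
    (hF : red3 F * (E3 D * rescale ((Nat.card k : ℕ) : ZMod 3) (E3 D)) ^ r *
      (u : PowerSeries (ZMod 3)) = (v : PowerSeries (ZMod 3)))
    (hG : ∃ G : Polynomial ℤ, F =
      (((1 - Polynomial.C (Nat.card k : ℤ) * Polynomial.X) ^ t * G : Polynomial ℤ) :
        PowerSeries ℤ)) :
    (Polynomial.X - Polynomial.C ((Nat.card k : ℕ) : ZMod 3)) ^ t ∣ v := by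
  obtain ⟨G, hG⟩ := hG
  have hu := unit3 h3
  have hp : Fact (Nat.Prime 3) := ⟨Nat.prime_three⟩
  obtain ⟨wZ, hw0, hw1, hw2⟩ := exists_WZ h2 hD.monic hD.deg hD.sqf
  have hw2' := hw2 h3
  set a : ZMod 3 := ((Nat.card k : ℕ) : ZMod 3) with ha
  have ha0 : a ≠ 0 := by
    rintro h
    rw [h, zero_mul] at hu
    exact zero_ne_one hu
  set w : Polynomial (ZMod 3) := wZ.map (Int.castRingHom (ZMod 3)) with hw
  have e1 : E3 D * (w : PowerSeries (ZMod 3)) = 1 := by
    have := congrArg red3 hw0
    rw [map_mul, map_one, red3_EZ, ← Polynomial.polynomial_map_coe] at this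
    exact this
  have e2 : w.eval 1 = ((Nat.card (ClassGroup (CR D)) : ℕ) : ZMod 3) := by
    rw [hw, Polynomial.eval_map, Polynomial.eval₂_at_one, hw1]
    simp
  set w' : Polynomial (ZMod 3) := w.comp (Polynomial.C a * Polynomial.X) with hw'
  have e3 : rescale a (E3 D) * (w' : PowerSeries (ZMod 3)) = 1 := by
    rw [hw', coe_comp_scale, ← map_mul, e1, map_one]
  have h4 : red3 F * (u : PowerSeries (ZMod 3)) =
      (((w * w') ^ r * v : Polynomial (ZMod 3)) : PowerSeries (ZMod 3)) := by
    rw [Polynomial.coe_mul, Polynomial.coe_pow, Polynomial.coe_mul]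
    calc red3 F * (u : PowerSeries (ZMod 3)) =
        red3 F * ((E3 D * (w : PowerSeries (ZMod 3))) *
          (rescale a (E3 D) * (w' : PowerSeries (ZMod 3)))) ^ r * (u : PowerSeries (ZMod 3)) := by
          rw [e1, e3, mul_one, one_pow, mul_one]
      _ = (red3 F * (E3 D * rescale a (E3 D)) ^ r * (u : PowerSeries (ZMod 3))) *
          ((w : PowerSeries (ZMod 3)) * (w' : PowerSeries (ZMod 3))) ^ r := by
          rw [mul_pow, mul_pow, mul_pow, mul_pow, mul_pow]; ring
      _ = _ := by rw [hF]; ring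
  have h5 : red3 F = (((1 - Polynomial.C a * Polynomial.X) ^ t *
      G.map (Int.castRingHom (ZMod 3)) : Polynomial (ZMod 3)) : PowerSeries (ZMod 3)) := by
    rw [hG, ← Polynomial.polynomial_map_coe, Polynomial.map_mul, Polynomial.map_pow,
      Polynomial.map_sub, Polynomial.map_one, Polynomial.map_mul, Polynomial.map_C,
      Polynomial.map_X, eq_intCast, Int.cast_natCast]
  rw [h5, ← Polynomial.coe_mul] at h4
  have h6 := Polynomial.coe_injective (ZMod 3) h4
  -- `1 - a X = - a (X - a)`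
  have h7 : (1 - Polynomial.C a * Polynomial.X : Polynomial (ZMod 3)) =
      Polynomial.C (-a) * (Polynomial.X - Polynomial.C a) := by
    rw [Polynomial.C_neg]
    have h8 : Polynomial.C a * Polynomial.C a = (1 : Polynomial (ZMod 3)) := by
      rw [← Polynomial.C_mul, hu, Polynomial.C_1]
    linear_combination -h8
  have h8 : (Polynomial.X - Polynomial.C a) ^ t ∣ (w * w') ^ r * v := by
    rw [← h6, h7, mul_pow]
    exact ((dvd_mul_left _ _).mul_right _).mul_right _
  have hev : ((w * w') ^ r).eval a ≠ 0 := by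
    rw [Polynomial.eval_pow, Polynomial.eval_mul, hw', eval_comp_scale, hu, e2, hw2']
    have h9 : ((Nat.card (ClassGroup (CR D)) : ℕ) : ZMod 3) ≠ 0 := by
      rw [Ne, ZMod.natCast_eq_zero_iff]
      exact hh
    exact pow_ne_zero _ (mul_ne_zero (mul_ne_zero h9 (pow_ne_zero _ ha0)) h9)
  have hcop : IsCoprime ((Polynomial.X - Polynomial.C a) ^ t) ((w * w') ^ r) := by
    apply IsCoprime.pow_left
    rw [(Polynomial.irreducible_X_sub_C a).coprime_iff_not_dvd, Polynomial.dvd_iff_isRoot]
    exact hev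
  exact hcop.dvd_of_dvd_mul_left h8

end

section

variable {k : Type} [Field k] [Finite k] {B : Type} [CommRing B] [IsDedekindDomain B]
  [Algebra (Polynomial k) B] [Module.Finite (Polynomial k) B] [Module.Flat (Polynomial k) B]
  (G : Type) [Group G] [Finite G] [MulSemiringAction G B] [IsGaloisGroup G (Polynomial k) B]

include G in
/-- The order of vanishing of an Euler product over the maximal ideals of `B` whose factors are
modulo three powers of those of the quadratic character and its shift, up to finitely many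
polynomials. -/
theorem order_B (h2 : (2 : k) ≠ 0) (h3 : (3 : k) ≠ 0) {j : ℕ}
    (hG : Nat.card G = 3 ^ j) {g : ℕ} {m D : Polynomial k}
    (hD : IsD g m D) [IsDedekindDomain (CR D)] (hh : ¬ 3 ∣ Nat.card (ClassGroup (CR D)))
    (hram : ∀ P : MI k, (sp P).ramificationIdxIn B ≠ 1 → chi D P.1 ≠ 1) (r t : ℕ)
    (A : MxD D B → PowerSeries ℤ)
    (hA : ∀ v : MxD D B, (X : PowerSeries ℤ) ^ dgM k v.1 ∣ A v - 1)
    (S : Finset (MxD D B)) (c : MxD D B → Polynomial (ZMod 3))
    (hAw : ∀ v : MxD D B, red3 (A v) *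
      (wM D v.1 * rescale ((Nat.card k : ℕ) : ZMod 3) (wM D v.1)) ^ r =
        if v ∈ S then (c v : PowerSeries (ZMod 3)) else 1)
    (hH : ∃ H : Polynomial ℤ, eulerProd (fun v : MxD D B => dgM k v.1) A =
      (((1 - Polynomial.C (Nat.card k : ℤ) * Polynomial.X) ^ t * H : Polynomial ℤ) :
        PowerSeries ℤ)) :
    (Polynomial.X - Polynomial.C ((Nat.card k : ℕ) : ZMod 3)) ^ t ∣ ∏ v ∈ S, c v := by
  classical
  have hp : Fact (Nat.Prime 3) := ⟨Nat.prime_three⟩
  obtain ⟨U, V, hU, hUV⟩ := euler_max_line G (B := B) h2 hG D hram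
  have hu := unit3 (three_mod h3)
  set a : ZMod 3 := ((Nat.card k : ℕ) : ZMod 3) with ha
  have hUa : U.eval a ≠ 0 := hU a fun P hP => card_pow_cast (tame_card G h3 hG P hP)
  have hU1 : U.eval 1 ≠ 0 := hU 1 fun P _ => one_pow _
  have hfin := fun n => fin_max (B := B) D n
  have hA3 : ∀ v : MxD D B, (X : PowerSeries (ZMod 3)) ^ dgM k v.1 ∣ red3 (A v) - 1 := by
    intro v
    have h := map_dvd red3 (hA v)
    rwa [map_pow, map_sub, map_one, PowerSeries.map_X] at h
  set EL : PowerSeries (ZMod 3) :=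
    eulerProd (fun v : MxD D B => dgM k v.1) (fun v => wM D v.1) with hEL
  have hw2 : ∀ v : MxD D B, (X : PowerSeries (ZMod 3)) ^ dgM k v.1 ∣
      wM D v.1 * rescale a (wM D v.1) - 1 := fun v =>
    one_mod_mul (wM_dvd D v.1) (rescale_dvd_one a (wM_dvd D v.1))
  have hAw' : ∀ v : MxD D B, (X : PowerSeries (ZMod 3)) ^ dgM k v.1 ∣
      (if v ∈ S then (c v : PowerSeries (ZMod 3)) else 1) - 1 := by
    intro v
    rw [← hAw v]
    exact one_mod_mul (hA3 v) (pow_dvd_sub_one (hw2 v) r)
  have h1 : red3 (eulerProd (fun v : MxD D B => dgM k v.1) A) * (EL * rescale a EL) ^ r =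
      ((∏ v ∈ S, c v : Polynomial (ZMod 3)) : PowerSeries (ZMod 3)) := by
    rw [hEL, rescale_eulerProd hfin a (fun v => wM_dvd D v.1),
      ← eulerProd_mul hfin (fun v => wM_dvd D v.1) (fun v => rescale_dvd_one a (wM_dvd D v.1)),
      map_eulerProd hfin, ← eulerProd_pow hfin hw2,
      ← eulerProd_mul hfin hA3 (fun v => pow_dvd_sub_one (hw2 v) r)]
    simp only [hAw]
    rw [eulerProd_of_finset hfin hAw' S (fun v hv => if_neg hv), coe_prod]
    exact Finset.prod_congr rfl fun v hv => if_pos hv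
  have hUV' := congrArg (rescale a) hUV
  rw [map_mul, map_mul, map_pow, ← coe_comp_scale, ← coe_comp_scale] at hUV'
  set U' := U.comp (Polynomial.C a * Polynomial.X) with hU'
  set V' := V.comp (Polynomial.C a * Polynomial.X) with hV'
  have hmain := order_q h2 (three_mod h3) hD hh (r := 3 ^ j * r) (t := t) (u := (V * V') ^ r)
    (v := (U * U') ^ r * ∏ v ∈ S, c v) (by
      rw [← ha, Polynomial.coe_mul, Polynomial.coe_pow, Polynomial.coe_pow, Polynomial.coe_mul,
        Polynomial.coe_mul, pow_mul, mul_assoc, ← mul_pow]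
      have h5 : (E3 D * rescale a (E3 D)) ^ 3 ^ j * ((V : PowerSeries (ZMod 3)) * V') =
          (EL * rescale a EL) * ((U : PowerSeries (ZMod 3)) * U') := by
        calc (E3 D * rescale a (E3 D)) ^ 3 ^ j * ((V : PowerSeries (ZMod 3)) * V') =
            (E3 D ^ 3 ^ j * V) * (rescale a (E3 D) ^ 3 ^ j * V') := by rw [mul_pow]; ring
          _ = _ := by rw [← hUV, ← hUV']; ring
      rw [h5, mul_pow, ← mul_assoc, h1, mul_comm]) hH
  have hev : ((U * U') ^ r).eval a ≠ 0 := by
    rw [Polynomial.eval_pow, Polynomial.eval_mul, hU', eval_comp_scale, hu]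
    exact pow_ne_zero _ (mul_ne_zero hUa hU1)
  have hcop : IsCoprime ((Polynomial.X - Polynomial.C a) ^ t) ((U * U') ^ r) := by
    apply IsCoprime.pow_left
    rw [(Polynomial.irreducible_X_sub_C a).coprime_iff_not_dvd, Polynomial.dvd_iff_isRoot]
    exact hev
  exact hcop.dvd_of_dvd_mul_left hmain

end

end Pool.Agent.Y711
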