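import Pool.Agent.Y711.CL1
import Pool.Agent.Y711.Gen

/-!
Local series of curves with a node.
-/

set_option autoImplicit false
set_option maxHeartbeats 1000000
set_option synthInstance.maxHeartbeats 400000

open PowerSeries

namespace Pool.Agent.Y711

open Pool.Agent.W313.Hyp Pool.Agent.W343.BSD Pool.Agent.Y784.FC

section

variable {F : Type} [Field F]

/-- the point `c` -/
noncomputable def ptc (c : F) : MI F :=
  ⟨Polynomial.X - Polynomial.C c, Polynomial.monic_X_sub_C c, Polynomial.irreducible_X_sub_C c⟩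

theorem ptc_val (c : F) : (ptc c).1 = Polynomial.X - Polynomial.C c := rfl

theorem ptc_deg (c : F) : (ptc c).1.natDegree = 1 := Polynomial.natDegree_X_sub_C c

theorem chi_one' (Q : MI F) : chi (1 : Polynomial F) Q.1 = 1 := by
  rw [chi_eq, map_one]
  exact qc_one

theorem chi_ptc [Finite F] (h2 : (2 : F) ≠ 0) (c : F) (u : Polynomial F) :
    chi u (ptc c).1 = qc (u.eval c) := by
  have h1 : AdjoinRoot.mk (ptc c).1 u =
      AdjoinRoot.mk (ptc c).1 (Polynomial.C (u.eval c) * 1) := by
    rw [AdjoinRoot.mk_eq_mk, mul_one, ptc_val]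
    exact Polynomial.X_sub_C_dvd_sub_C_eval
  have h3 : chi u (ptc c).1 = chi (Polynomial.C (u.eval c) * 1) (ptc c).1 := by
    rw [chi_eq, chi_eq, h1]
  rw [h3, chi_C_mul h2, chi_one', mul_one, ptc_deg, pow_one]

theorem chi_sq_mul [Finite F] (c : F) (u : Polynomial F) {Q : MI F} (hQ : Q ≠ ptc c) :
    chi ((Polynomial.X - Polynomial.C c) ^ 2 * u) Q.1 = chi u Q.1 := by
  have := finRF Q
  rw [chi_eq, chi_eq, map_mul, qc_mul, map_pow]
  have h1 : AdjoinRoot.mk Q.1 (Polynomial.X - Polynomial.C c) ≠ 0 := by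
    rw [Ne, AdjoinRoot.mk_eq_zero]
    intro h
    exact hQ (eq_of_dvd_MI (Q := ptc c) h)
  have h3 : qc (AdjoinRoot.mk Q.1 (Polynomial.X - Polynomial.C c) ^ 2) = 1 := qc_sq (K := RF Q) h1
  rw [h3, one_mul]

theorem cinf_sq_mul (c : F) (u : Polynomial F) :
    cinf ((Polynomial.X - Polynomial.C c) ^ 2 * u) = cinf u := by
  by_cases hu : u = 0
  · rw [hu, mul_zero]
  have hm : ((Polynomial.X - Polynomial.C c) ^ 2).Monic := (Polynomial.monic_X_sub_C c).pow 2
  have h1 : ((Polynomial.X - Polynomial.C c) ^ 2 * u).natDegree = 2 + u.natDegree := by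
    rw [Polynomial.natDegree_mul hm.ne_zero hu, Polynomial.natDegree_pow,
      Polynomial.natDegree_X_sub_C]
  by_cases hh : Even u.natDegree
  · have h3 : Even ((Polynomial.X - Polynomial.C c) ^ 2 * u).natDegree := by
      rw [h1]
      exact even_two.add hh
    rw [cinf_even hh, cinf_even h3, Polynomial.leadingCoeff_mul, hm.leadingCoeff, one_mul]
  · have h3 : ¬ Even ((Polynomial.X - Polynomial.C c) ^ 2 * u).natDegree := by
      rw [h1, Nat.even_add]
      simp [hh]
    rw [cinf_odd hh, cinf_odd h3]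

/-- **The local series of a curve with a node.** -/
theorem locS_node [Finite F] (h2 : (2 : F) ≠ 0) (c : F) (u : Polynomial F) (d : ℕ) (hd : d ≠ 0) :
    locS d ((Polynomial.X - Polynomial.C c) ^ 2 * u) * (1 - C (qc (u.eval c)) * X ^ d) =
      locS d u := by
  classical
  unfold locS
  rw [cinf_sq_mul]
  have h1 := fin_factor (R := ℤ) (d := fun Q : MI F => d * Q.1.natDegree)
    (fun n => fin_mul (F := F) hd n)
    (F := fun Q => 1 - C (chi ((Polynomial.X - Polynomial.C c) ^ 2 * u) Q.1) *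
      X ^ (d * Q.1.natDegree))
    (W := fun Q => 1 - C (chi u Q.1) * X ^ (d * Q.1.natDegree))
    (fun Q => one_sub_dvd _ _) (fun Q => one_sub_dvd _ _) {ptc c} (fun Q hQ => by
      rw [Finset.mem_singleton] at hQ
      rw [chi_sq_mul c u hQ])
  rw [Finset.prod_singleton, Finset.prod_singleton] at h1
  have h3 : chi ((Polynomial.X - Polynomial.C c) ^ 2 * u) (ptc c).1 = 0 := by
    unfold chi
    rw [if_pos (by rw [ptc_val, sq, mul_assoc]; exact dvd_mul_right _ _)]
  rw [h3, chi_ptc h2, ptc_deg, mul_one, map_zero, zero_mul, sub_zero, mul_one] at h1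
  calc _ = (eulerProd (fun Q : MI F => d * Q.1.natDegree)
        (fun Q => 1 - C (chi ((Polynomial.X - Polynomial.C c) ^ 2 * u) Q.1) *
          X ^ (d * Q.1.natDegree)) * (1 - C (qc (u.eval c)) * X ^ d)) *
        (1 - C (cinf u) * X ^ d) := by ring
    _ = _ := by rw [h1]

end

end Pool.Agent.Y711
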