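import Pool.Agent.Y711.CL2

/-!
Multiplicities of the correction factors.
-/

set_option autoImplicit false
set_option maxHeartbeats 1000000
set_option synthInstance.maxHeartbeats 400000

open Polynomial

namespace Pool.Agent.Y711

section mult

variable {a : ZMod 3}

/-- the correction factor `1 - ε (a X) ^ d` -/
noncomputable def corr (a : ZMod 3) (ε : ℤ) (d : ℕ) : (ZMod 3)[X] :=
  1 - C ((ε : ℤ) : ZMod 3) * (C a * X) ^ d

theorem corr_zero (a : ZMod 3) (ε : ℤ) {d : ℕ} (hd : d ≠ 0) : (corr a ε d).coeff 0 = 1 := by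
  unfold corr
  rw [coeff_sub, coeff_one_zero, mul_coeff_zero, coeff_zero_eq_eval_zero ((C a * X) ^ d),
    eval_pow, eval_mul, eval_X, mul_zero, zero_pow hd, mul_zero, sub_zero]

theorem corr_ne (a : ZMod 3) (ε : ℤ) {d : ℕ} (hd : d ≠ 0) : corr a ε d ≠ 0 := by
  intro h
  have h1 := corr_zero a ε hd
  rw [h, coeff_zero] at h1
  exact zero_ne_one h1

theorem corr_eval (ha : a * a = 1) (ε : ℤ) (d : ℕ) :
    (corr a ε d).eval a = 1 - ((ε : ℤ) : ZMod 3) := by
  unfold corr
  rw [eval_sub, eval_one, eval_mul, eval_C, eval_pow, eval_mul, eval_C, eval_X, ha, one_pow,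
    mul_one]

/-- the multiplicity of the root `a` -/
theorem corr_mult_neg (ha : a * a = 1) (d : ℕ) : rootMultiplicity a (corr a (-1) d) = 0 := by
  rw [rootMultiplicity_eq_zero_iff]
  intro h
  exfalso
  have h1 : (corr a (-1) d).eval a = 0 := h
  rw [corr_eval ha] at h1
  revert h1
  decide

theorem corr_mult_one (ha : a * a = 1) {d : ℕ} (hd : d ≠ 0) :
    rootMultiplicity a (corr a 1 d) = 3 ^ padicValNat 3 d := by
  have hp : Fact (Nat.Prime 3) := ⟨Nat.prime_three⟩
  obtain ⟨e, he⟩ : ∃ e, e = padicValNat 3 d := ⟨_, rfl⟩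
  obtain ⟨d', hd'⟩ : 3 ^ e ∣ d := by
    rw [he]
    exact pow_padicValNat_dvd
  have h3 : ¬ 3 ∣ d' := by
    rintro ⟨c, hc⟩
    have h4 : 3 ^ (padicValNat 3 d + 1) ∣ d := by
      refine ⟨c, ?_⟩
      rw [← he]
      conv_lhs => rw [hd', hc]
      ring
    exact pow_succ_padicValNat_not_dvd hd h4
  have hd0 : d' ≠ 0 := by
    rintro rfl
    exact h3 (dvd_zero 3)
  set p : (ZMod 3)[X] := 1 - (C a * X) ^ d' with hpd
  have hpow : corr a 1 d = p ^ 3 ^ e := by
    have hchar : CharP (ZMod 3)[X] 3 := inferInstance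
    unfold corr
    rw [hpd, sub_pow_char_pow, one_pow, Int.cast_one, C_1, one_mul]
    congr 1
    rw [← pow_mul]
    congr 1
    rw [hd']
    ring
  have hp0 : p ≠ 0 := by
    intro h
    apply corr_ne a 1 hd
    rw [hpow, h, zero_pow (pow_ne_zero _ three_ne_zero)]
  have hroot : p.IsRoot a := by
    show p.eval a = 0
    rw [hpd, eval_sub, eval_one, eval_pow, eval_mul, eval_C, eval_X, ha, one_pow, sub_self]
  have hder : ¬ (derivative p).IsRoot a := by
    intro h
    have h4 : (derivative p).eval a = 0 := h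
    rw [hpd, derivative_sub, derivative_one, derivative_pow, derivative_mul, derivative_C,
      derivative_X, zero_mul, zero_add, mul_one, zero_sub] at h4
    simp only [eval_neg, eval_mul, eval_pow, eval_C, eval_X, ha, one_pow, mul_one,
      neg_eq_zero] at h4
    have ha0 : a ≠ 0 := by
      rintro rfl
      rw [zero_mul] at ha
      exact zero_ne_one ha
    rcases mul_eq_zero.1 h4 with h5 | h5
    · have h6 : ((d' : ℕ) : ZMod 3) = 0 := by simpa using h5
      rw [ZMod.natCast_eq_zero_iff] at h6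
      exact h3 h6
    · exact ha0 h5
  have h1 : rootMultiplicity a p = 1 := by
    have h5 : 0 < rootMultiplicity a p := (rootMultiplicity_pos hp0).2 hroot
    have h6 : ¬ 1 < rootMultiplicity a p := by
      intro h
      rw [one_lt_rootMultiplicity_iff_isRoot hp0] at h
      exact hder h.2
    omega
  rw [hpow, ← count_roots, roots_pow, Multiset.count_nsmul, count_roots, h1, mul_one, he]

theorem corr_mult_le (ha : a * a = 1) {ε : ℤ} (hε : ε = 1 ∨ ε = -1) {d : ℕ} (hd : d ≠ 0) :
    rootMultiplicity a (corr a ε d) = if ε = 1 then 3 ^ padicValNat 3 d else 0 := by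
  rcases hε with rfl | rfl
  · rw [if_pos rfl, corr_mult_one ha hd]
  · rw [if_neg (by decide), corr_mult_neg ha]

theorem mult_prod {ι : Type*} (S : Finset ι) (p : ι → (ZMod 3)[X]) (hp : ∀ i ∈ S, p i ≠ 0) :
    rootMultiplicity a (∏ i ∈ S, p i) = ∑ i ∈ S, rootMultiplicity a (p i) := by
  classical
  have : Fact (Nat.Prime 3) := ⟨Nat.prime_three⟩
  induction S using Finset.induction_on with
  | empty =>
    rw [Finset.prod_empty, Finset.sum_empty, rootMultiplicity_eq_zero_iff]
    intro h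
    have h1 : (1 : (ZMod 3)[X]).eval a = 0 := h
    rw [eval_one] at h1
    exact absurd h1 one_ne_zero
  | insert i S hi ih =>
    have h0 : p i ≠ 0 := hp i (Finset.mem_insert_self i S)
    have h1 : ∀ j ∈ S, p j ≠ 0 := fun j hj => hp j (Finset.mem_insert_of_mem hj)
    rw [Finset.prod_insert hi, Finset.sum_insert hi, ← ih h1,
      rootMultiplicity_mul (mul_ne_zero h0 (Finset.prod_ne_zero_iff.2 h1))]

theorem le_of_dvd_prod {ι : Type*} (S : Finset ι) (p : ι → (ZMod 3)[X]) (hp : ∀ i ∈ S, p i ≠ 0)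
    {t : ℕ} (h : (X - C a) ^ t ∣ ∏ i ∈ S, p i) : t ≤ ∑ i ∈ S, rootMultiplicity a (p i) := by
  have : Fact (Nat.Prime 3) := ⟨Nat.prime_three⟩
  rw [← mult_prod S p hp]
  exact (le_rootMultiplicity_iff (Finset.prod_ne_zero_iff.2 hp)).2 h

end mult

end Pool.Agent.Y711
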