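import Pool.Agent.Y711.CL3
import Pool.Agent.Y711.DefC

/-!
The local relation at a node.
-/

set_option autoImplicit false
set_option maxHeartbeats 1000000
set_option synthInstance.maxHeartbeats 400000

open Polynomial

namespace Pool.Agent.Y711

open Pool.Agent.TH943.HJ Pool.Agent.W313.Hyp Pool.Agent.W343.BSD Pool.Agent.Y784.FC

section

variable {F : Type} [Field F] [Finite F]

/-- the local relation at a node -/
theorem node_rel (h2 : (2 : F) ≠ 0) {γ : ℕ} (hγ : 0 < γ) {c : F} {u : F[X]} (hc : u.eval c ≠ 0)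
    (hu : red3 (locS 1 u) * ((1 - PowerSeries.X) *
      (1 - PowerSeries.C (Nat.card F : ZMod 3) * PowerSeries.X)) ^ (γ - 1) = 1)
    (hs : IsSquare (u.eval c) ∨ Nat.card F % 3 = 2) (δ : F) {d : ℕ} (hd : d ≠ 0) :
    red3 (locS d (C δ * ((X - C c) ^ 2 * u))) *
      ((1 - PowerSeries.C ((Int.castRingHom (ZMod 3)) (qc δ)) * PowerSeries.X ^ d) *
        (1 - PowerSeries.C ((Nat.card F : ZMod 3) * (Int.castRingHom (ZMod 3)) (qc δ)) *
          PowerSeries.X ^ d)) ^ γ =
      1 - PowerSeries.C (((qc (δ * u.eval c) : ℤ) : ZMod 3) * (Nat.card F : ZMod 3)) *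
        PowerSeries.X ^ d := by
  have e0 : C δ * ((X - C c) ^ 2 * u) = (X - C c) ^ 2 * (C δ * u) := by ring
  have h1 := locS_node h2 c (C δ * u) d hd
  have h3 := locS_rel (F := F) h2 δ u d hd (γ - 1) (Int.castRingHom (ZMod 3)) _ hu
  have h4 := congrArg red3 h1
  rw [map_mul, map_sub, map_one, map_mul, PowerSeries.map_C, map_pow, PowerSeries.map_X, eval_mul,
    eval_C] at h4
  rw [e0]
  set A := red3 (locS d ((X - C c) ^ 2 * (C δ * u))) with hA
  set W : PowerSeries (ZMod 3) :=
    1 - PowerSeries.C ((Int.castRingHom (ZMod 3)) (qc δ)) * PowerSeries.X ^ d with hW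
  set R : PowerSeries (ZMod 3) :=
    1 - PowerSeries.C ((Nat.card F : ZMod 3) * (Int.castRingHom (ZMod 3)) (qc δ)) *
      PowerSeries.X ^ d with hR
  set N : PowerSeries (ZMod 3) :=
    1 - PowerSeries.C ((Int.castRingHom (ZMod 3)) (qc (δ * u.eval c))) * PowerSeries.X ^ d with hN
  have h5 : A * N * (W * R) ^ (γ - 1) = 1 := by
    rw [h4]
    exact h3
  have h6 : (W * R) ^ γ = (W * R) ^ (γ - 1) * (W * R) := by
    conv_lhs => rw [← Nat.sub_add_cancel hγ, pow_succ]
  have hqm : qc (δ * u.eval c) = qc δ * qc (u.eval c) := qc_mul _ _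
  have hkey : (N = W ∧ R = 1 - PowerSeries.C (((qc (δ * u.eval c) : ℤ) : ZMod 3) *
      (Nat.card F : ZMod 3)) * PowerSeries.X ^ d) ∨
      (N = R ∧ W = 1 - PowerSeries.C (((qc (δ * u.eval c) : ℤ) : ZMod 3) *
      (Nat.card F : ZMod 3)) * PowerSeries.X ^ d) := by
    rcases qc_cases hc with h | h
    · left
      rw [h, mul_one] at hqm
      refine ⟨by rw [hN, hW, hqm], ?_⟩
      rw [hR, hqm]
      congr 2
      rw [mul_comm]
      rfl
    · right
      have h7 : Nat.card F % 3 = 2 := by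
        rcases hs with hs | hs
        · exfalso
          obtain ⟨r, hr⟩ := hs
          have hr0 : r ≠ 0 := by
            rintro rfl
            exact hc (by rw [hr, mul_zero])
          have h8 := qc_sq (K := F) hr0
          rw [sq, ← hr, h] at h8
          exact absurd h8 (by decide)
        · exact hs
      have h8 : (Nat.card F : ZMod 3) = -1 := by
        have h9 : ((Nat.card F : ℕ) : ZMod 3) = ((Nat.card F % 3 : ℕ) : ZMod 3) := by
          rw [ZMod.natCast_mod]
        rw [h9, h7]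
        decide
      rw [h] at hqm
      refine ⟨?_, ?_⟩
      · rw [hN, hR, hqm, h8]
        congr 3
        simp
      · rw [hW, hqm, h8]
        congr 3
        simp
  rcases hkey with ⟨h7, h8⟩ | ⟨h7, h8⟩
  · rw [← h8, h6]
    rw [h7] at h5
    calc A * ((W * R) ^ (γ - 1) * (W * R)) = (A * W * (W * R) ^ (γ - 1)) * R := by ring
      _ = R := by rw [h5, one_mul]
  · rw [← h8, h6]
    rw [h7] at h5
    calc A * ((W * R) ^ (γ - 1) * (W * R)) = (A * R * (W * R) ^ (γ - 1)) * W := by ring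
      _ = W := by rw [h5, one_mul]

end

section

/-- the correction factor as a power series -/
theorem corr_coe (a : ZMod 3) (ε : ℤ) (d : ℕ) : ((corr a ε d : (ZMod 3)[X]) : PowerSeries (ZMod 3)) =
    1 - PowerSeries.C (((ε : ℤ) : ZMod 3) * a ^ d) * PowerSeries.X ^ d := by
  unfold corr
  rw [coe_sub, coe_one, coe_mul, coe_C, coe_pow, coe_mul, coe_C, coe_X, mul_pow, ← map_pow,
    map_mul, mul_assoc]

/-- uniqueness of a node -/
theorem node_unique {F : Type} [Field F] {c c' : F} {u u' : F[X]} (hu : Squarefree u)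
    (hc' : u'.eval c' ≠ 0) (h : (X - C c) ^ 2 * u = (X - C c') ^ 2 * u') : c = c' ∧ u = u' := by
  have h1 : c = c' := by
    by_contra hne
    have hcop : IsCoprime ((X - C c') ^ 2) ((X - C c) ^ 2) :=
      IsCoprime.pow (isCoprime_X_sub_C_of_isUnit_sub
        (isUnit_iff_ne_zero.2 (sub_ne_zero.2 (Ne.symm hne))))
    have h2 : (X - C c') ^ 2 ∣ u := hcop.dvd_of_dvd_mul_left ⟨u', h⟩
    have h3 := hu (X - C c') (by rw [← sq]; exact h2)
    exact (irreducible_X_sub_C c').not_isUnit h3
  subst h1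
  exact ⟨rfl, mul_left_cancel₀ (pow_ne_zero 2 (X_sub_C_ne_zero c)) h⟩

end

end Pool.Agent.Y711
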