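import Pool.Agent.Y711.CL4
import Pool.Agent.Y784.SV.S2

/-!
The order of vanishing over a Galois extension, for curves with nodal fibres.
-/

set_option autoImplicit false
set_option maxHeartbeats 1000000
set_option synthInstance.maxHeartbeats 400000

open Polynomial

namespace Pool.Agent.Y711

open Pool.Agent.TH943.HJ Pool.Agent.W313.Hyp Pool.Agent.W343.BSD Pool.Agent.Y784.FC

section

variable {k : Type} [Field k] [Finite k]

/-- the data of the node at `P` -/
def NodeAt (f : k[X][X]) (D : k[X]) (P : MI k) (ε : ℤ) : Prop :=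
  ∃ (c : k[X] ⧸ sp P) (u : (k[X] ⧸ sp P)[X]),
    f.map (Ideal.Quotient.mk (sp P)) = (X - C c) ^ 2 * u ∧ u.eval c ≠ 0 ∧
      ε = qs (Ideal.Quotient.mk (sp P) D * u.eval c)

theorem qs_cases {R : Type} [CommRing R] {x : R} (hx : x ≠ 0) : qs x = 1 ∨ qs x = -1 := by
  unfold qs
  rw [if_neg hx]
  split_ifs
  · exact Or.inl rfl
  · exact Or.inr rfl

omit [Finite k] in
theorem map_comp_aux {B : Type} [CommRing B] [Algebra k[X] B] (𝔓 : Ideal B) (P : MI k)
    [𝔓.LiesOver (sp P)] (f : k[X][X]) :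
    f.map (algebraMap k[X] (B ⧸ 𝔓)) =
      (f.map (Ideal.Quotient.mk (sp P))).map (algebraMap (k[X] ⧸ sp P) (B ⧸ 𝔓)) := by
  rw [Polynomial.map_map]
  congr 1

/-- comparison of the symbols at the node -/
theorem node_over (h2 : (2 : k) ≠ 0) {B : Type} [CommRing B] [Algebra k[X] B]
    [Module.Finite k[X] B] (𝔓 : Ideal B) [𝔓.IsMaximal] (P : MI k) [𝔓.LiesOver (sp P)]
    (hf : Odd (𝔓.inertiaDeg k[X])) {f : k[X][X]} {D : k[X]} {ε : ℤ} (hε : NodeAt f D P ε)
    {c : B ⧸ 𝔓} {u : (B ⧸ 𝔓)[X]} (hu : Squarefree u)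
    (h : f.map (algebraMap k[X] (B ⧸ 𝔓)) = (X - C c) ^ 2 * u) :
    qs (algebraMap k[X] (B ⧸ 𝔓) D * u.eval c) = ε := by
  classical
  let _ : Field (k[X] ⧸ sp P) := Ideal.Quotient.field _
  let _ : Field (B ⧸ 𝔓) := Ideal.Quotient.field _
  have hfin : Finite (k[X] ⧸ sp P) := finRF P
  have hfin' : Finite (B ⧸ 𝔓) := finite_quot k 𝔓
  rw [Ideal.inertiaDeg_eq_of_isMaximal (sp P) 𝔓] at hf
  have h2' : (2 : k[X] ⧸ sp P) ≠ 0 := by
    have := two_ne_ext (F' := RF P) h2
    exact this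
  obtain ⟨c0, u0, k1, k2, k3⟩ := hε
  have e1 := map_comp_aux 𝔓 P f
  rw [h, k1, Polynomial.map_mul, Polynomial.map_pow, Polynomial.map_sub, Polynomial.map_X,
    Polynomial.map_C] at e1
  have e2 : (u0.map (algebraMap (k[X] ⧸ sp P) (B ⧸ 𝔓))).eval
      (algebraMap (k[X] ⧸ sp P) (B ⧸ 𝔓) c0) =
        algebraMap (k[X] ⧸ sp P) (B ⧸ 𝔓) (u0.eval c0) := by
    rw [Polynomial.eval_map_algebraMap, Polynomial.aeval_algebraMap_apply_eq_algebraMap_eval]
  have e3 : algebraMap (k[X] ⧸ sp P) (B ⧸ 𝔓) (u0.eval c0) ≠ 0 := by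
    intro h0
    apply k2
    exact (algebraMap (k[X] ⧸ sp P) (B ⧸ 𝔓)).injective (h0.trans (map_zero _).symm)
  obtain ⟨h4, h5⟩ := node_unique (F := B ⧸ 𝔓) hu (by rw [e2]; exact e3) e1
  have e4 : algebraMap k[X] (B ⧸ 𝔓) D * u.eval c =
      algebraMap (k[X] ⧸ sp P) (B ⧸ 𝔓) (Ideal.Quotient.mk (sp P) D * u0.eval c0) := by
    rw [h5, h4, e2, map_mul]
    rfl
  have h1 := qc_odd (F := k[X] ⧸ sp P) (F' := B ⧸ 𝔓) h2'
    (Ideal.Quotient.mk (sp P) D * u0.eval c0) hf
  rw [e4, k3, qs_eq (F := k[X] ⧸ sp P), ← h1, ← qs_eq]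

end

section galois

variable {k : Type} [Field k] [Finite k] {B : Type} [CommRing B] [IsDedekindDomain B]
  [Algebra k[X] B] [Module.Finite k[X] B] [Module.Flat k[X] B]
  (G : Type) [Group G] [Finite G] [MulSemiringAction G B] [IsGaloisGroup G k[X] B]

include G in
theorem card_SP_le (D : k[X]) (P : MI k) : (SP D B P).card ≤ ((sp P).primesOver B).ncard := by
  classical
  rw [← Set.ncard_coe_finset (SP D B P),
    ← Set.ncard_image_of_injective _ (Subtype.val_injective)]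
  apply Set.ncard_le_ncard
  · rintro _ ⟨v, hv, rfl⟩
    rw [Finset.mem_coe, mem_SP] at hv
    rw [primesOver_eq]
    exact ⟨v.2.1, hv⟩
  · rw [primesOver_eq]
    exact finite_over P

include G in
/-- the sum of the three-parts of the degrees over a prime -/
theorem sum_SP_le {j : ℕ} (hG : Nat.card G = 3 ^ j) (D : k[X]) (P : MI k) :
    ∑ v ∈ SP D B P, 3 ^ padicValNat 3 (dgM k v.1) ≤ 3 ^ j * 3 ^ padicValNat 3 P.1.natDegree := by
  have hp : Fact (Nat.Prime 3) := ⟨Nat.prime_three⟩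
  obtain ⟨i, hi⟩ := f_pow G (B := B) hG P
  have h1 : ∀ v ∈ SP D B P, 3 ^ padicValNat 3 (dgM k v.1) =
      3 ^ padicValNat 3 P.1.natDegree * 3 ^ i := by
    intro v hv
    rw [mem_SP] at hv
    have hmax := v.2.1
    have hf : v.1.inertiaDeg k[X] = 3 ^ i := by
      rw [← hi]
      exact (Ideal.inertiaDegIn_eq_inertiaDeg (sp P) v.1 G).symm
    rw [dg_over v.1 P, hf, padicValNat.mul (MI.deg_pos P).ne' (pow_ne_zero _ three_ne_zero),
      padicValNat.prime_pow, pow_add]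
  rw [Finset.sum_congr rfl h1, Finset.sum_const, smul_eq_mul]
  have h3 := card_SP_le G (B := B) D P
  have h4 := efg G (B := B) P
  rw [hi, hG] at h4
  have h5 : 0 < (sp P).ramificationIdxIn B := by
    rcases Nat.eq_zero_or_pos ((sp P).ramificationIdxIn B) with h | h
    · rw [h, zero_mul, mul_zero] at h4
      exact absurd h4.symm (pow_ne_zero _ three_ne_zero)
    · exact h
  have h6 : ((sp P).primesOver B).ncard * 3 ^ i ≤ 3 ^ j := by
    rw [← h4]
    exact Nat.mul_le_mul_left _ (Nat.le_mul_of_pos_left _ h5)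
  calc (SP D B P).card * (3 ^ padicValNat 3 P.1.natDegree * 3 ^ i) ≤
      ((sp P).primesOver B).ncard * (3 ^ padicValNat 3 P.1.natDegree * 3 ^ i) :=
        Nat.mul_le_mul_right _ h3
    _ = (((sp P).primesOver B).ncard * 3 ^ i) * 3 ^ padicValNat 3 P.1.natDegree := by ring
    _ ≤ _ := Nat.mul_le_mul_right _ h6

include G in
/-- **The order of vanishing.** -/
theorem order_ext (h2 : (2 : k) ≠ 0) (h3 : (3 : k) ≠ 0) {γ : ℕ} {f : k[X][X]}
    {m n : k[X]} (hn : n ≠ 0) (hf : IsUnipotentNodal γ f m n) {g : ℕ} {D : k[X]} (hD : IsD g m D)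
    [IsDedekindDomain (CR D)] (hh : ¬ 3 ∣ Nat.card (ClassGroup (CR D)))
    {j : ℕ} (hG : Nat.card G = 3 ^ j)
    (hram : ∀ 𝔓 : Ideal B, 𝔓.IsMaximal → 𝔓.ramificationIdx k[X] ≠ 1 →
      quadSym (algebraMap k[X] (B ⧸ 𝔓) D) ≠ 1)
    (ε : MI k → ℤ) (hε : ∀ P : MI k, P.1 ∣ n → ¬ P.1 ∣ D → NodeAt f D P (ε P))
    {t : ℕ} (ht : VanishesToOrder t f D B) :
    t ≤ 3 ^ j * ∑ P ∈ (pd n).filter (fun P => ε P = 1), 3 ^ padicValNat 3 P.1.natDegree := by
  classical
  have hmonic := hD.monic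
  have hp3 : Fact (Nat.Prime 3) := ⟨Nat.prime_three⟩
  have hu3 := unit3 (three_mod h3)
  -- the ramification condition
  have hram' : ∀ P : MI k, (sp P).ramificationIdxIn B ≠ 1 → chi D P.1 ≠ 1 := by
    intro P hP
    obtain ⟨𝔓⟩ := (inferInstance : Nonempty ((sp P).primesOver B))
    obtain ⟨𝔓, h𝔓⟩ := 𝔓
    rw [primesOver_eq] at h𝔓
    obtain ⟨hmax, hov⟩ := h𝔓
    rw [Ideal.ramificationIdxIn_eq_ramificationIdx (sp P) 𝔓 G] at hP
    have h1 := hram 𝔓 hmax hP
    obtain ⟨i, hi⟩ := f_pow G (B := B) hG P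
    rw [Ideal.inertiaDegIn_eq_inertiaDeg (sp P) 𝔓 G] at hi
    have hodd : Odd (𝔓.inertiaDeg k[X]) := by
      rw [hi]
      exact Odd.pow (by decide)
    have h4 := qs_over h2 𝔓 P hodd D
    rw [← h4]
    rw [quadSym_eq] at h1
    exact h1
  -- the prime below
  have hbel : ∀ v : MxD D B, ∃ P : MI k, v.1.LiesOver (sp P) := fun v => by
    have hmax := v.2.1
    exact exists_below (k := k) v.1
  choose bel hbel using hbel
  set q3 : ZMod 3 := ((Nat.card k : ℕ) : ZMod 3) with hq3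
  set S : Finset (MxD D B) := (pd n).biUnion (SP D B) with hS
  have hmemS : ∀ v, v ∈ S ↔ (bel v).1 ∣ n := by
    intro v
    rw [hS, Finset.mem_biUnion]
    constructor
    · rintro ⟨P, hP, hv⟩
      rw [mem_SP] at hv
      rw [Pool.Agent.Y784.SV.mem_pd hn] at hP
      have : P = bel v := below_unique hv (hbel v)
      rwa [← this]
    · intro h
      exact ⟨bel v, (Pool.Agent.Y784.SV.mem_pd hn).2 h, mem_SP.2 (hbel v)⟩
  have hε1 : ∀ v ∈ S, ε (bel v) = 1 ∨ ε (bel v) = -1 := by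
    intro v hv
    have hPn := (hmemS v).1 hv
    have hbv := hbel v
    have hPD : ¬ (bel v).1 ∣ D := fun h => v.2.2 ((mem_iff_dvd v.1 (bel v) D).2 h)
    obtain ⟨c, u, h4, h5, h6⟩ := hε _ hPn hPD
    rw [h6]
    apply qs_cases
    have hdom : IsDomain (k[X] ⧸ sp (bel v)) := Ideal.Quotient.isDomain _
    apply mul_ne_zero _ h5
    intro h7
    apply hPD
    rw [← Ideal.mem_span_singleton]
    exact Ideal.Quotient.eq_zero_iff_mem.1 h7
  have hdg : ∀ v : MxD D B, dgM k v.1 ≠ 0 := fun v => by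
    have hmax := v.2.1
    exact (dg_pos (k := k) v.1).ne'
  -- the main comparison
  have hmain := order_B G h2 h3 hG hD hh hram' γ t
    (fun 𝔓 => localSeries (residueDeg k 𝔓.1)
      (C (algebraMap k[X] (B ⧸ 𝔓.1) D) * f.map (algebraMap k[X] (B ⧸ 𝔓.1)))) ?_ S
    (fun v => corr q3 (ε (bel v)) (dgM k v.1)) ?_ ht
  · have h4 := le_of_dvd_prod S (fun v => corr q3 (ε (bel v)) (dgM k v.1))
      (fun v _ => corr_ne _ _ (hdg v)) hmain
    refine h4.trans ?_
    have h5 : ∑ v ∈ S, rootMultiplicity q3 (corr q3 (ε (bel v)) (dgM k v.1)) =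
        ∑ v ∈ S, if ε (bel v) = 1 then 3 ^ padicValNat 3 (dgM k v.1) else 0 :=
      Finset.sum_congr rfl fun v hv => corr_mult_le hu3 (hε1 v hv) (hdg v)
    rw [h5, hS, Finset.sum_biUnion, Finset.mul_sum, Finset.sum_filter]
    · apply Finset.sum_le_sum
      intro P _
      have h6 : ∀ v ∈ SP D B P, (if ε (bel v) = 1 then 3 ^ padicValNat 3 (dgM k v.1) else 0) =
          if ε P = 1 then 3 ^ padicValNat 3 (dgM k v.1) else 0 := by
        intro v hv
        rw [mem_SP] at hv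
        have : P = bel v := below_unique hv (hbel v)
        rw [← this]
      rw [Finset.sum_congr rfl h6]
      split_ifs with h7
      · exact sum_SP_le G hG D P
      · rw [Finset.sum_const_zero]
    · intro P _ Q _ hPQ
      rw [Function.onFun, Finset.disjoint_left]
      intro v h6 h7
      rw [mem_SP] at h6 h7
      exact hPQ (below_unique h6 h7)
  · intro v
    have hmax := v.2.1
    let _ : Field (B ⧸ v.1) := Ideal.Quotient.field _
    have hfin := finite_quot k v.1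
    have h1 := locS_dvd (F := B ⧸ v.1) (residueDeg k v.1) (hdg v)
      (C (algebraMap k[X] (B ⧸ v.1) D) * f.map (algebraMap k[X] (B ⧸ v.1)))
    rw [← localSeries_eq] at h1
    exact h1
  · intro v
    have hmax := v.2.1
    let _ : Field (B ⧸ v.1) := Ideal.Quotient.field _
    have hfin := finite_quot k v.1
    have hbv := hbel v
    have hdeg : residueDeg k v.1 ≠ 0 := hdg v
    have hDv : algebraMap k[X] (B ⧸ v.1) D ≠ 0 := by
      intro h0
      apply v.2.2
      rw [← Ideal.Quotient.eq_zero_iff_mem]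
      exact h0
    have hmv : (algebraMap k[X] (B ⧸ v.1)) m ≠ 0 := by
      intro h0
      apply hDv
      obtain ⟨e, he⟩ := hD.dvd
      exact (congrArg (algebraMap k[X] (B ⧸ v.1)) he).trans (by rw [map_mul, h0, zero_mul])
    have h2' : (2 : B ⧸ v.1) ≠ 0 := by
      let _ : Algebra k (B ⧸ v.1) := ((algebraMap k[X] (B ⧸ v.1)).comp C).toAlgebra
      exact two_ne_ext (F' := B ⧸ v.1) h2
    have hcard : (Nat.card (B ⧸ v.1) : ZMod 3) = ((Nat.card k : ℕ) : ZMod 3) ^ dgM k v.1 := by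
      have e1 := card_over (k := k) v.1 (bel v)
      rw [← dg_over (k := k) v.1 (bel v)] at e1
      rw [e1]
      push_cast
      rfl
    have h9 : PowerSeries.rescale ((Nat.card k : ℕ) : ZMod 3) (wM D v.1) =
        1 - PowerSeries.C ((Nat.card (B ⧸ v.1) : ZMod 3) *
          (Int.castRingHom (ZMod 3)) (qs (algebraMap k[X] (B ⧸ v.1) D))) *
            PowerSeries.X ^ residueDeg k v.1 := by
      unfold wM
      rw [map_sub, map_one, map_mul, map_pow, PowerSeries.rescale_X, hcard, mul_pow, ← map_pow,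
        map_mul]
      have e2 : PowerSeries.rescale ((Nat.card k : ℕ) : ZMod 3) (PowerSeries.C
          ((qs (Ideal.Quotient.mk v.1 (algebraMap k[X] B D)) : ℤ) : ZMod 3)) =
          PowerSeries.C ((qs (Ideal.Quotient.mk v.1 (algebraMap k[X] B D)) : ℤ) : ZMod 3) := by
        ext n
        rw [PowerSeries.coeff_rescale, PowerSeries.coeff_C]
        split_ifs with h
        · rw [h, pow_zero, one_mul]
        · rw [mul_zero]
      rw [e2]
      have e3 : dgM k v.1 = residueDeg k v.1 := rfl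
      rw [e3]
      have e4 : (Int.castRingHom (ZMod 3)) (qs (algebraMap k[X] (B ⧸ v.1) D)) =
          ((qs (Ideal.Quotient.mk v.1 (algebraMap k[X] B D)) : ℤ) : ZMod 3) := rfl
      rw [e4]
      ring
    have hnv : (algebraMap k[X] (B ⧸ v.1)) n = 0 ↔ (bel v).1 ∣ n := by
      rw [← mem_iff_dvd v.1 (bel v) n, ← Ideal.Quotient.eq_zero_iff_mem]
      rfl
    by_cases hv : v ∈ S
    · rw [if_pos hv]
      have hPn := (hmemS v).1 hv
      have hPD : ¬ (bel v).1 ∣ D := fun h => v.2.2 ((mem_iff_dvd v.1 (bel v) D).2 h)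
      obtain ⟨c, u, g1, g2, -, g3, g4, g5⟩ :=
        (hf.2 (B ⧸ v.1) (algebraMap k[X] (B ⧸ v.1)) hmv).2 (hnv.2 hPn)
      rw [localSeries_eq] at g4
      have g6 := node_rel (F := B ⧸ v.1) h2' hf.1 g2 g4 g5 (algebraMap k[X] (B ⧸ v.1) D) hdeg
      rw [← g1, ← localSeries_eq, ← qs_eq] at g6
      -- comparison of the symbols
      obtain ⟨i, hi⟩ := f_pow G (B := B) hG (bel v)
      rw [Ideal.inertiaDegIn_eq_inertiaDeg (sp (bel v)) v.1 G] at hi
      have hodd : Odd (v.1.inertiaDeg k[X]) := by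
        rw [hi]
        exact Odd.pow (by decide)
      have h8 := node_over h2 v.1 (bel v) hodd (hε _ hPn hPD) g3 g1
      rw [← qs_eq, h8] at g6
      rw [h9, corr_coe, hq3, ← hcard]
      exact g6
    · rw [if_neg hv]
      have hPn : ¬ (bel v).1 ∣ n := fun h => hv ((hmemS v).2 h)
      have h6 := ((hf.2 (B ⧸ v.1) (algebraMap k[X] (B ⧸ v.1)) hmv).1
        (fun h => hPn (hnv.1 h))).2.2
      have h7 : red3 (locS 1 (f.map (algebraMap k[X] (B ⧸ v.1)))) *
          ((1 - PowerSeries.X) * (1 - PowerSeries.C (Nat.card (B ⧸ v.1) : ZMod 3) *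
            PowerSeries.X)) ^ γ = 1 := by
        rw [← localSeries_eq]
        exact h6
      have h8 := locS_rel (F := B ⧸ v.1) h2' (algebraMap k[X] (B ⧸ v.1) D)
        (f.map (algebraMap k[X] (B ⧸ v.1))) (residueDeg k v.1) hdeg γ
        (Int.castRingHom (ZMod 3)) _ h7
      rw [← localSeries_eq, ← qs_eq] at h8
      rw [h9]
      exact h8

end galois

end Pool.Agent.Y711
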