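import Pool.Agent.Y711.CL5
import Pool.Agent.Y711.Fin
import Pool.Agent.Y290.SC.SC1
import Pool.Agent.Y779.SC.SC2
import Pool.Agent.Y785.SC.SC3

/-!
The order of vanishing for half of the twists in a quadratic class.
-/

set_option autoImplicit false
set_option maxHeartbeats 1000000
set_option synthInstance.maxHeartbeats 400000

open Polynomial

namespace Pool.Agent.Y711

open Pool.Agent.TH943.HJ Pool.Agent.W313.Hyp Pool.Agent.W343.BSD Pool.Agent.Y784.FC

section

variable {k : Type} [Field k]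

/-- Those `D` in the class of `a` for which the order of vanishing of the `L`-function over each of
the extensions `L` is at most `[L : k(t)]` times the weight of the class. -/
def goodClass (f : k[X][X]) (g : ℕ) (m n a : k[X]) : Set k[X] :=
  {D | D ∈ twistClass g m n a ∧ ∀ (L : Type) [Field L] [Algebra k[X] L] [Algebra (RatFunc k) L]
    [IsScalarTower k[X] (RatFunc k) L], IsThreeExtension D L →
      ¬ VanishesToOrder (Module.finrank (RatFunc k) L * splitWeight f n a + 1) f D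
        (integralClosure k[X] L)}

end

section

theorem split_of {F : Type} [Field F] [Finite F] {h : F[X]} {c : F} {u : F[X]}
    (hh : h = (X - C c) ^ 2 * u) (hc : u.eval c ≠ 0) {δ α : F} (hq : qs δ = qs α) (hα : α ≠ 0)
    (h1 : qs (δ * u.eval c) = 1) : SplitNode (C α * h) := by
  classical
  refine ⟨c, C α * u, ?_, ?_, ?_⟩
  · rw [hh]; ring
  · rw [eval_mul, eval_C]
    exact mul_ne_zero hα hc
  · rw [eval_mul, eval_C]
    have e1 : qs (α * u.eval c) = 1 := by
      rw [qs_eq, qc_mul, ← qs_eq α, ← hq, qs_eq, ← qc_mul, ← qs_eq]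
      exact h1
    unfold qs at e1
    rw [if_neg (mul_ne_zero hα hc)] at e1
    by_contra hn
    rw [if_neg hn] at e1
    exact absurd e1 (by decide)

variable {k : Type} [Field k] [Finite k]

theorem splitWeight_eq (f : k[X][X]) {n : k[X]} (hn : n ≠ 0) (a : k[X]) :
    ∃ T : Finset (MI k), (∀ P : MI k, P ∈ T ↔ P.1 ∣ n ∧
      SplitNode (C (AdjoinRoot.mk P.1 a) * f.map (AdjoinRoot.mk P.1))) ∧
      splitWeight f n a = ∑ P ∈ T, 3 ^ padicValNat 3 P.1.natDegree := by
  classical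
  let T : Finset (MI k) := (pd n).filter fun P =>
    SplitNode (C (AdjoinRoot.mk P.1 a) * f.map (AdjoinRoot.mk P.1))
  have hT : ∀ P : MI k, P ∈ T ↔ P.1 ∣ n ∧
      SplitNode (C (AdjoinRoot.mk P.1 a) * f.map (AdjoinRoot.mk P.1)) := by
    intro P
    show P ∈ (pd n).filter _ ↔ _
    rw [Finset.mem_filter, Pool.Agent.Y784.SV.mem_pd hn]
  refine ⟨T, hT, ?_⟩
  have h1 : splitWeight f n a =
      ∑ᶠ P ∈ ((T.map (Function.Embedding.subtype _) : Finset k[X]) : Set k[X]),
        3 ^ padicValNat 3 P.natDegree := by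
    unfold splitWeight
    refine finsum_congr fun P => ?_
    refine finsum_congr_Prop (propext ?_) (fun _ => rfl)
    rw [Finset.mem_coe, Finset.mem_map]
    constructor
    · rintro ⟨e1, e2, e3, e4⟩
      exact ⟨⟨P, e1, e2⟩, (hT _).2 ⟨e3, e4⟩, rfl⟩
    · rintro ⟨Q, hQ, rfl⟩
      have := (hT Q).1 hQ
      exact ⟨Q.2.1, Q.2.2, this.1, this.2⟩
  rw [h1, finsum_mem_coe_finset, Finset.sum_map]
  rfl

/-- the data at the nodes -/
theorem exists_node {γ : ℕ} {f : k[X][X]} {m n : k[X]} (hf : IsUnipotentNodal γ f m n) (D : k[X])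
    (P : MI k) (hPn : P.1 ∣ n) (hPm : ¬ P.1 ∣ m) : ∃ ε : ℤ, NodeAt f D P ε := by
  let _ : Field (k[X] ⧸ sp P) := Ideal.Quotient.field _
  have hfin : Finite (k[X] ⧸ sp P) := finRF P
  have e1 : Ideal.Quotient.mk (sp P) m ≠ 0 := by
    intro h
    apply hPm
    rw [← Ideal.mem_span_singleton]
    exact Ideal.Quotient.eq_zero_iff_mem.1 h
  have e2 : Ideal.Quotient.mk (sp P) n = 0 := by
    apply Ideal.Quotient.eq_zero_iff_mem.2
    rw [Ideal.mem_span_singleton]
    exact hPn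
  obtain ⟨c, u, g1, g2, -⟩ := (hf.2 (k[X] ⧸ sp P) (Ideal.Quotient.mk (sp P)) e1).2 e2
  exact ⟨_, c, u, g1, g2, rfl⟩

theorem node_split {f : k[X][X]} {D a : k[X]} {P : MI k} {ε : ℤ} (hε : NodeAt f D P ε)
    (h1 : ε = 1) (hDa : chi D P.1 = chi a P.1) (ha : ¬ P.1 ∣ a) :
    SplitNode (C (AdjoinRoot.mk P.1 a) * f.map (AdjoinRoot.mk P.1)) := by
  let _ : Field (k[X] ⧸ sp P) := Ideal.Quotient.field _
  have hfin : Finite (k[X] ⧸ sp P) := finRF P
  obtain ⟨c, u, g1, g2, g3⟩ := hε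
  rw [chi_qs, chi_qs] at hDa
  have e1 : Ideal.Quotient.mk (sp P) a ≠ 0 := by
    intro h
    apply ha
    rw [← Ideal.mem_span_singleton]
    exact Ideal.Quotient.eq_zero_iff_mem.1 h
  exact split_of (F := k[X] ⧸ sp P) g1 g2 hDa e1 (g3.symm.trans h1)

variable (L : Type) [Field L] [Algebra k[X] L] [Algebra (RatFunc k) L]
  [IsScalarTower k[X] (RatFunc k) L]

/-- the order of vanishing over an admissible extension -/
theorem order_L (h2 : (2 : k) ≠ 0) (h3 : (3 : k) ≠ 0) {γ : ℕ} {f : k[X][X]}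
    {m n a : k[X]} (hn : n ≠ 0) (ha : ∀ P : MI k, P.1 ∣ n → ¬ P.1 ∣ a)
    (hf : IsUnipotentNodal γ f m n) {g : ℕ} {D : k[X]}
    (hD : IsD g m D) (hDa : ∀ P : MI k, P.1 ∣ n → chi D P.1 = chi a P.1)
    [IsDedekindDomain (CR D)] (hh : ¬ 3 ∣ Nat.card (ClassGroup (CR D)))
    (hL : IsThreeExtension D L) {t : ℕ} (ht : VanishesToOrder t f D (integralClosure k[X] L)) :
    t ≤ Module.finrank (RatFunc k) L * splitWeight f n a := by
  classical
  have hgal := hL.galois
  obtain ⟨j, hj⟩ := hL.degree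
  have hfd : FiniteDimensional (RatFunc k) L := by
    apply FiniteDimensional.of_finrank_pos
    rw [hj]
    positivity
  have i1 := fin_ic (k := k) L
  have i2 := flat_ic (k := k) L
  have i3 := gal_ic (k := k) L
  have i4 : IsDedekindDomain (integralClosure k[X] L) :=
    integralClosure.isDedekindDomain k[X] (RatFunc k) L
  have hex : ∀ P : MI k, ∃ ε : ℤ, P.1 ∣ n → ¬ P.1 ∣ D → NodeAt f D P ε := by
    intro P
    by_cases hP : P.1 ∣ n ∧ ¬ P.1 ∣ D
    · obtain ⟨ε, hε⟩ := exists_node hf D P hP.1 (fun h => hP.2 (h.trans hD.dvd))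
      exact ⟨ε, fun _ _ => hε⟩
    · exact ⟨0, fun h1 h2 => absurd ⟨h1, h2⟩ hP⟩
  choose ε hε using hex
  have hcard : Nat.card Gal(L/RatFunc k) = 3 ^ j := by
    rw [← hj]
    exact IsGalois.card_aut_eq_finrank _ _
  have h1 := order_ext Gal(L/RatFunc k) (B := integralClosure k[X] L) h2 h3 hn hf hD hh hcard
    hL.ramified ε hε ht
  obtain ⟨T, hT, hT'⟩ := splitWeight_eq f hn a
  refine h1.trans ?_
  rw [hj, hT']
  apply Nat.mul_le_mul_left
  apply Finset.sum_le_sum_of_subset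
  intro P hP
  rw [Finset.mem_filter, Pool.Agent.Y784.SV.mem_pd hn] at hP
  rw [hT]
  have hPD : ¬ P.1 ∣ D := by
    intro h
    have h4 := hDa P hP.1
    rcases chi_cases (ha P hP.1) with h5 | h5
    · rw [h5] at h4
      unfold chi at h4
      rw [if_pos h] at h4
      exact absurd h4 (by decide)
    · rw [h5] at h4
      unfold chi at h4
      rw [if_pos h] at h4
      exact absurd h4 (by decide)
  exact ⟨hP.1, node_split (hε P hP.1 hPD) hP.2 (hDa P hP.1) (ha P hP.1)⟩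

end

section

variable {k : Type} [Field k] [Finite k]

theorem goodClass_of (h2 : (2 : k) ≠ 0) (h3 : (3 : k) ≠ 0) {γ : ℕ} {f : k[X][X]}
    {m n a : k[X]} (hn : n ≠ 0) (ha : ∀ P : MI k, P.1 ∣ n → ¬ P.1 ∣ a)
    (hf : IsUnipotentNodal γ f m n) {g : ℕ} {D : k[X]}
    (hD : IsD g m D) (hDa : ∀ P : MI k, P.1 ∣ n → chi D P.1 = chi a P.1) (hB : ¬ Bad D) :
    D ∈ goodClass f g m n a := by
  refine ⟨⟨IsD_iff.1 hD, ?_⟩, ?_⟩
  · intro P hP1 hP2 hP3
    have h4 := hDa ⟨P, hP1, hP2⟩ hP3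
    rw [← quadSym_mk, ← quadSym_mk] at h4
    exact h4
  · intro L _ _ _ _ hL hV
    have hodd : Odd D.natDegree := by
      rw [hD.deg]
      exact ⟨g, rfl⟩
    have hded : IsDedekindDomain (CR D) := dedekind h2 hodd hD.sqf
    have h4 := order_L L h2 h3 hn ha hf hD hDa (fun h => hB ⟨hded, h⟩) hL hV
    omega

/-- **Half of the twists in every class.** -/
theorem class_bound (h2 : (2 : k) ≠ 0) (h3 : (3 : k) ≠ 0) {γ : ℕ} {f : k[X][X]}
    {m n a : k[X]} (hm : m.Monic) (hn : n.Monic) (hs : Squarefree (m * n)) (ha : IsCoprime n a)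
    (hf : IsUnipotentNodal γ f m n) {δ : ℝ} (hδ : δ < 1 / 2) :
    ∃ N : ℕ, ∀ g ≥ N, δ * (twistClass g m n a).ncard ≤ (goodClass f g m n a).ncard := by
  classical
  have ha' : ∀ P : MI k, P.1 ∣ n → ¬ P.1 ∣ a := by
    intro P h4 h5
    exact P.2.2.not_isUnit (ha.isUnit_of_dvd' h4 h5)
  let W : MI k → Finset ℤ := fun P => if P.1 ∣ n then {chi a P.1} else {1}
  have hW : ∀ P, W P ⊆ {1, -1} := by
    intro P
    show (if P.1 ∣ n then ({chi a P.1} : Finset ℤ) else {1}) ⊆ {1, -1}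
    split_ifs with h
    · rcases chi_cases (ha' P h) with h5 | h5
      · rw [h5]
        decide
      · rw [h5]
        decide
    · decide
  have hcls : ∀ D : k[X], IsCls n W D ↔ ∀ P : MI k, P.1 ∣ n → chi D P.1 = chi a P.1 := by
    intro D
    unfold IsCls
    refine forall_congr' fun P => ?_
    refine forall_congr' fun hP => ?_
    show chi D P.1 ∈ (if P.1 ∣ n then ({chi a P.1} : Finset ℤ) else {1}) ↔ _
    rw [if_pos hP, Finset.mem_singleton]
  obtain ⟨N, hN⟩ := Pool.Agent.Y785.SC.SC3 h2 (Pool.Agent.Y290.SC.SC1 h2)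
    (Pool.Agent.Y779.SC.SC2 h2) m n hm hn hs W hW δ hδ
  refine ⟨N, fun g hg => ?_⟩
  have h1 := hN g hg
  have hcoe : (DSc g m n W : Set k[X]) = twistClass g m n a := by
    ext D
    rw [Finset.mem_coe, Pool.Agent.Y785.SC.mem_DSc, hcls]
    constructor
    · rintro ⟨h4, h5⟩
      refine ⟨IsD_iff.1 h4, ?_⟩
      intro P hP1 hP2 hP3
      have h6 := h5 ⟨P, hP1, hP2⟩ hP3
      rw [← quadSym_mk, ← quadSym_mk] at h6
      exact h6
    · rintro ⟨h4, h5⟩
      refine ⟨IsD_iff.2 h4, ?_⟩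
      intro P hP
      rw [← quadSym_mk, ← quadSym_mk]
      exact h5 P.1 P.2.1 P.2.2 hP
  have h4 : (twistClass g m n a).ncard = (DSc g m n W).card := by
    rw [← hcoe, Set.ncard_coe_finset]
  have h5 : ((DSc g m n W).filter fun D => ¬ Bad D).card ≤ (goodClass f g m n a).ncard := by
    rw [← Set.ncard_coe_finset]
    apply Set.ncard_le_ncard
    · intro D hD
      rw [Finset.mem_coe, Finset.mem_filter, Pool.Agent.Y785.SC.mem_DSc, hcls] at hD
      exact goodClass_of h2 h3 hn.ne_zero ha' hf hD.1.1 hD.1.2 hD.2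
    · exact ((DSc g m n W).finite_toSet).subset fun D hD => by
        rw [hcoe]
        exact hD.1
  rw [h4]
  refine h1.trans ?_
  exact_mod_cast h5

end

end Pool.Agent.Y711
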