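import Pool.Agent.Y711.DefS
import Pool.Agent.Y711.BB1

/-!
The number of the roots of order a power of three in a finite field, modulo powers of three.
-/

set_option autoImplicit false
set_option maxHeartbeats 1000000

open Polynomial

namespace Pool.Agent.Y711

open Pool.Agent.W313.Hyp Pool.Agent.W343.BSD Pool.Agent.Y784.FC Module

section arith

theorem pow_three_dvd {x : ℤ} (hx : (3 : ℤ) ∣ x - 1) (e : ℕ) :
    (3 : ℤ) ^ e * (x - 1) ∣ x ^ 3 ^ e - 1 := by
  induction e with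
  | zero => simp
  | succ e ih =>
    set y := x ^ 3 ^ e with hy
    have h1 : (3 : ℤ) ∣ y - 1 := hx.trans (by rw [hy]; exact sub_one_dvd_pow_sub_one x (3 ^ e))
    have h2 : (3 : ℤ) ∣ y ^ 2 + y + 1 := by
      obtain ⟨z, hz⟩ := h1
      have : y = 1 + 3 * z := by linarith
      rw [this]
      exact ⟨1 + 3 * z + 3 * z ^ 2, by ring⟩
    have h3 : x ^ 3 ^ (e + 1) - 1 = (y ^ 2 + y + 1) * (y - 1) := by
      rw [pow_succ 3 e, pow_mul, ← hy]
      ring
    rw [h3, pow_succ, mul_comm ((3 : ℤ) ^ e) 3, mul_assoc]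
    exact mul_dvd_mul h2 ih

/-- the third root of one modulo three -/
theorem mod_root {x : ℤ} {e : ℕ} (h : (3 : ℤ) ∣ x ^ 3 ^ e - 1) : (3 : ℤ) ∣ x - 1 := by
  induction e with
  | zero => simpa using h
  | succ e ih =>
    apply ih
    set y := x ^ 3 ^ e with hy
    have h3 : x ^ 3 ^ (e + 1) = y ^ 3 := by rw [pow_succ 3 e, pow_mul, ← hy]
    rw [h3] at h
    have h4 : (3 : ℤ) ∣ y ^ 3 - y := by
      have : (y : ZMod 3) ^ 3 - y = 0 := by
        rw [ZMod.pow_card (y : ZMod 3), sub_self]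
      exact (ZMod.intCast_zmod_eq_zero_iff_dvd _ 3).1 (by push_cast; exact this)
    have : y - 1 = (y ^ 3 - 1) - (y ^ 3 - y) := by ring
    rw [this]
    exact dvd_sub h h4

end arith

section group

variable {E : Type} [Field E] [Fintype E] [DecidableEq E]

/-- the number of solutions if there is one -/
theorem card_sol {N : ℕ} (hN : N ≠ 0) {c : E} (hc : c ≠ 0) (h : ∃ y : E, y ^ N = c) :
    (Finset.univ.filter fun y : E => y ^ N = c).card = (Fintype.card E - 1).gcd N := by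
  obtain ⟨y0, hy0⟩ := h
  have hy : y0 ≠ 0 := by
    rintro rfl
    rw [zero_pow hN] at hy0
    exact hc hy0.symm
  have hcard : Nat.card Eˣ = Fintype.card E - 1 := by
    rw [Nat.card_eq_fintype_card, Fintype.card_units]
  rw [← hcard, ← IsCyclic.card_powMonoidHom_ker, Nat.card_eq_fintype_card, ← Fintype.card_coe]
  refine Fintype.card_congr
    { toFun := fun y => ⟨Units.mk0 (y.1 / y0) ?_, ?_⟩
      invFun := fun u => ⟨((u.1 : Eˣ) : E) * y0, ?_⟩
      left_inv := ?_
      right_inv := ?_ }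
  · have h1 : y.1 ^ N = c := (Finset.mem_filter.1 y.2).2
    refine div_ne_zero ?_ hy
    intro h0
    rw [h0, zero_pow hN] at h1
    exact hc h1.symm
  · have h1 : y.1 ^ N = c := (Finset.mem_filter.1 y.2).2
    rw [MonoidHom.mem_ker, powMonoidHom_apply]
    apply Units.ext
    rw [Units.val_pow_eq_pow_val, Units.val_mk0, div_pow, h1, hy0, div_self hc, Units.val_one]
  · rw [Finset.mem_filter]
    refine ⟨Finset.mem_univ _, ?_⟩
    have h1 := u.2
    rw [MonoidHom.mem_ker, powMonoidHom_apply] at h1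
    rw [mul_pow, ← Units.val_pow_eq_pow_val, h1, Units.val_one, one_mul, hy0]
  · intro y
    apply Subtype.ext
    show y.1 / y0 * y0 = y.1
    rw [div_mul_cancel₀ _ hy]
  · intro u
    apply Subtype.ext
    apply Units.ext
    show (u.1 : E) * y0 / y0 = u.1
    rw [mul_div_cancel_right₀ _ hy]

omit [DecidableEq E] in
/-- solvability -/
theorem exists_proot {N a : ℕ} (hN : N ≠ 0) {c : E} (hc : c ≠ 0) (ha : c ^ a = 1)
    (h : N * a ∣ Fintype.card E - 1) : ∃ y : E, y ^ N = c := by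
  classical
  set M := Fintype.card E - 1 with hM
  have hM0 : 0 < M := by
    have := Fintype.one_lt_card (α := E)
    omega
  have hcard : Nat.card Eˣ = M := by
    rw [Nat.card_eq_fintype_card, Fintype.card_units]
  obtain ⟨t, ht⟩ := h
  have hat : 0 < N * a := Nat.pos_of_ne_zero (by
    intro h0
    rw [h0, zero_mul] at ht
    omega)
  have hker : (powMonoidHom N : Eˣ →* Eˣ).range = (powMonoidHom (M / N) : Eˣ →* Eˣ).ker := by
    apply Subgroup.eq_of_le_of_card_ge
    · rintro _ ⟨y, rfl⟩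
      rw [MonoidHom.mem_ker, powMonoidHom_apply, powMonoidHom_apply, ← pow_mul,
        Nat.mul_div_cancel' ((dvd_mul_right N a).trans ⟨t, ht⟩), ← hcard, pow_card_eq_one']
    · have hNM : N ∣ M := (dvd_mul_right N a).trans ⟨t, ht⟩
      rw [IsCyclic.card_powMonoidHom_ker, IsCyclic.card_powMonoidHom_range, hcard,
        Nat.gcd_eq_right hNM, Nat.gcd_eq_right (Nat.div_dvd_of_dvd hNM)]
  have hmem : Units.mk0 c hc ∈ (powMonoidHom (M / N) : Eˣ →* Eˣ).ker := by
    rw [MonoidHom.mem_ker, powMonoidHom_apply]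
    have h5 : M / N = a * t := by
      rw [ht, mul_assoc, Nat.mul_div_cancel_left _ (Nat.pos_of_ne_zero hN)]
    rw [h5, pow_mul]
    have h6 : Units.mk0 c hc ^ a = 1 := by
      apply Units.ext
      rw [Units.val_pow_eq_pow_val, Units.val_mk0, ha, Units.val_one]
    rw [h6, one_pow]
  rw [← hker] at hmem
  obtain ⟨y, hy⟩ := hmem
  refine ⟨(y : E), ?_⟩
  have h7 := congrArg (fun z : Eˣ => (z : E)) hy
  simpa [powMonoidHom_apply] using h7

end group

section count

open Classical in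
/-- `rootCount` counts the solutions in the extension of degree `s`. -/
theorem rootCount_eq {R : Type} [Field R] [Finite R] {E : Type} [Field E] [Algebra R E] [Fintype E]
    {s : ℕ} (hs : finrank R E = s) (N : ℕ) (hN : N ≠ 0) (c : R) :
    rootCount N c s =
      (((Finset.univ.filter fun y : E => y ^ N = algebraMap R E c).card : ℕ) : ℤ) := by
  classical
  have : Module.Finite R E := Module.Finite.of_finite
  have hs0 : s ≠ 0 := by
    rw [← hs]
    exact finrank_pos.ne'
  have hne : (X ^ N - C c : R[X]) ≠ 0 := X_pow_sub_C_ne_zero (Nat.pos_of_ne_zero hN) c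
  rw [Finset.card_filter]
  push_cast
  rw [Pool.Agent.Y709.sum_closed hs
    (g := fun y : E => if y ^ N = algebraMap R E c then (1 : ℤ) else 0)
    (G := fun P => if P.1 ∣ X ^ N - C c then (1 : ℤ) else 0)]
  · unfold rootCount
    have h1 : (∑ᶠ (P : R[X]) (_ : P.Monic ∧ Irreducible P ∧ P ∣ X ^ N - C c ∧ P.natDegree ∣ s),
        (P.natDegree : ℤ)) =
        ∑ᶠ P ∈ ((((finite_deg_le (F := R) s).toFinset.filter
          (fun P => P.1 ∣ X ^ N - C c ∧ P.1.natDegree ∣ s)).map
            (Function.Embedding.subtype _) : Finset R[X]) : Set R[X]), (P.natDegree : ℤ) := by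
      refine finsum_congr fun P => ?_
      refine finsum_congr_Prop (propext ?_) (fun _ => rfl)
      rw [Finset.mem_coe, Finset.mem_map]
      constructor
      · rintro ⟨e1, e2, e3, e4⟩
        refine ⟨⟨P, e1, e2⟩, ?_, rfl⟩
        rw [Finset.mem_filter, Set.Finite.mem_toFinset]
        exact ⟨Nat.le_of_dvd (Nat.pos_of_ne_zero hs0) e4, e3, e4⟩
      · rintro ⟨P', hP', rfl⟩
        rw [Finset.mem_filter] at hP'
        exact ⟨P'.2.1, P'.2.2, hP'.2.1, hP'.2.2⟩
    rw [h1, finsum_mem_coe_finset, Finset.sum_map, Finset.sum_filter]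
    refine Finset.sum_congr rfl fun P _ => ?_
    by_cases h2 : P.1.natDegree ∣ s
    · by_cases h3 : P.1 ∣ X ^ N - C c
      · rw [if_pos ⟨h3, h2⟩, if_pos h2, if_pos h3, nsmul_eq_mul, mul_one]
        rfl
      · rw [if_neg (fun h => h3 h.1), if_pos h2, if_neg h3, smul_zero]
    · rw [if_neg (fun h => h2 h.2), if_neg h2]
  · intro P y hy
    have h2 : P.1 = minpoly R y := minpoly.eq_of_irreducible_of_monic P.2.2 hy P.2.1
    have h3 : P.1 ∣ X ^ N - C c ↔ y ^ N = algebraMap R E c := by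
      rw [h2, minpoly.dvd_iff]
      rw [map_sub, map_pow, aeval_X, aeval_C, sub_eq_zero]
    by_cases h4 : y ^ N = algebraMap R E c
    · rw [if_pos h4, if_pos (h3.2 h4)]
    · rw [if_neg h4, if_neg (fun h => h4 (h3.1 h))]

theorem rootCount_zero {R : Type} [Field R] [Finite R] {N : ℕ} (hN : N ≠ 0) {s : ℕ} (hs : s ≠ 0) :
    rootCount N (0 : R) s = 1 := by
  classical
  obtain ⟨p, hp⟩ := CharP.exists R
  have hpf : Fact p.Prime := ⟨CharP.char_is_prime R p⟩
  have hs' : NeZero s := ⟨hs⟩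
  have := Fintype.ofFinite (FiniteField.Extension R p s)
  rw [rootCount_eq (E := FiniteField.Extension R p s) (FiniteField.finrank_extension R p s) N hN,
    map_zero]
  have h1 : (Finset.univ.filter fun y : FiniteField.Extension R p s => y ^ N = 0) = {0} := by
    ext y
    rw [Finset.mem_filter, Finset.mem_singleton]
    constructor
    · rintro ⟨-, h⟩
      exact eq_zero_of_pow_eq_zero h
    · rintro rfl
      exact ⟨Finset.mem_univ _, zero_pow hN⟩
  rw [h1, Finset.card_singleton, Nat.cast_one]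

/-- **The number of solutions modulo `3 s`.** -/
theorem root_cong {R : Type} [Field R] [Finite R] (h3 : (3 : R) ≠ 0) (e : ℕ) {c : R} (hc : c ≠ 0)
    {s : ℕ} (hs : s ≠ 0) :
    (3 * s : ℤ_[3]) ∣ ((rootCount (3 ^ e) c s : ℤ) : ℤ_[3]) -
      ((((3 ^ e + 1) / 2 : ℕ) : ℤ_[3]) +
        (((3 ^ e - 1) / 2 : ℕ) : ℤ_[3]) * ((Nat.card R : ℕ) : ℤ_[3]) ^ s) := by
  classical
  obtain ⟨p, hp⟩ := CharP.exists R
  have hpf : Fact p.Prime := ⟨CharP.char_is_prime R p⟩
  have hs' : NeZero s := ⟨hs⟩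
  set E := FiniteField.Extension R p s with hE
  have := Fintype.ofFinite E
  have hfr : finrank R E = s := FiniteField.finrank_extension R p s
  have hfd : Module.Finite R E := Module.Finite.of_finite
  have hN0 : (3 : ℕ) ^ e ≠ 0 := by positivity
  have hcardE : Fintype.card E = Nat.card R ^ s := by
    rw [← hfr, ← Module.natCard_eq_pow_finrank, Nat.card_eq_fintype_card]
  rw [rootCount_eq (E := E) hfr _ hN0]
  set ν := (Finset.univ.filter fun y : E => y ^ 3 ^ e = algebraMap R E c).card with hν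
  have hcE : algebraMap R E c ≠ 0 := (_root_.map_ne_zero _).2 hc
  set Q := Nat.card R with hQ
  have hQ1 : 1 < Q := Finite.one_lt_card
  have hodd : Odd (3 ^ e) := Odd.pow (by decide)
  obtain ⟨B, hB⟩ := hodd
  have hA : (3 ^ e + 1) / 2 = B + 1 := by omega
  have hB' : (3 ^ e - 1) / 2 = B := by omega
  rw [hA, hB']
  have hcong : (((ν : ℕ) : ℤ) : ℤ_[3]) - (((B + 1 : ℕ) : ℤ_[3]) + ((B : ℕ) : ℤ_[3]) *
      ((Q : ℕ) : ℤ_[3]) ^ s) = ((ν : ℤ_[3]) - ((3 ^ e : ℕ) : ℤ_[3])) -
        (B : ℤ_[3]) * (((Q : ℕ) : ℤ_[3]) ^ s - 1) := by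
    rw [hB]
    push_cast
    ring
  have hcong' : (((ν : ℕ) : ℤ) : ℤ_[3]) - (((B + 1 : ℕ) : ℤ_[3]) + ((B : ℕ) : ℤ_[3]) *
      ((Q : ℕ) : ℤ_[3]) ^ s) = ((ν : ℤ_[3]) - 1) -
        (B : ℤ_[3]) * (((Q : ℕ) : ℤ_[3]) ^ s + 1) := by
    push_cast
    ring
  have hsq := q_sq h3 s
  rw [← hQ] at hsq
  have hfac : ((((Q : ℕ) : ℤ_[3]) ^ s) ^ 2 - 1) =
      (((Q : ℕ) : ℤ_[3]) ^ s - 1) * (((Q : ℕ) : ℤ_[3]) ^ s + 1) := by ring
  rw [hfac] at hsq
  have hQ3 : ¬ 3 ∣ Q ^ s := by
    intro h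
    have h4 := Nat.prime_three.dvd_of_dvd_pow h
    have h5 := three_mod h3
    rw [← hQ] at h5
    omega
  have h1Qs : 1 ≤ Q ^ s := Nat.one_le_pow _ _ (by omega)
  by_cases hmod : Q ^ s % 3 = 1
  · -- `3 ∣ Q ^ s - 1`
    have hu : IsUnit (((Q : ℕ) : ℤ_[3]) ^ s + 1) := by
      have h4 : IsUnit (((Q ^ s + 1 : ℕ)) : ℤ_[3]) := unit_of_ndvd (by omega)
      push_cast at h4
      exact h4
    have hd : (3 * s : ℤ_[3]) ∣ ((Q : ℕ) : ℤ_[3]) ^ s - 1 := hu.dvd_mul_right.1 hsq
    rw [hcong]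
    refine dvd_sub ?_ (hd.mul_left _)
    obtain ⟨v, u, hu3, hsv⟩ := Nat.exists_eq_pow_mul_and_not_dvd hs 3 (by norm_num)
    have hass : ∀ z : ℤ, (3 : ℤ) ^ (v + 1) ∣ z → (3 * s : ℤ_[3]) ∣ ((z : ℤ) : ℤ_[3]) := by
      rintro z ⟨w, rfl⟩
      have h5 : (3 * (s : ℕ) : ℤ_[3]) = 3 ^ (v + 1) * (u : ℤ_[3]) := by
        rw [hsv]
        push_cast
        ring
      rw [h5]
      refine ((unit_of_ndvd hu3).mul_right_dvd).2 ?_
      push_cast
      exact dvd_mul_right _ _
    have hz : ((ν : ℤ_[3]) - ((3 ^ e : ℕ) : ℤ_[3])) = (((ν : ℤ) - 3 ^ e : ℤ) : ℤ_[3]) := by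
      push_cast
      ring
    rw [hz]
    apply hass
    -- the root `x`
    have hx3 : ∀ t j : ℕ, s = 3 ^ j * t → (3 : ℤ) ∣ ((Q : ℤ) ^ t) - 1 := by
      intro t j hj
      apply mod_root (e := j)
      rw [← pow_mul, mul_comm t, ← hj]
      have : ((Q : ℤ) ^ s - 1) = ((Q ^ s - 1 : ℕ) : ℤ) := by
        rw [Nat.cast_sub h1Qs]
        push_cast
        ring
      rw [this]
      exact_mod_cast (show 3 ∣ Q ^ s - 1 by omega)
    have hM : (3 : ℕ) ^ (v + 1) ∣ Fintype.card E - 1 := by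
      rw [hcardE]
      have h5 := hx3 u v hsv
      have h6 := pow_three_dvd h5 v
      rw [← pow_mul, mul_comm u, ← hsv] at h6
      have h7 : (3 : ℤ) ^ (v + 1) ∣ (Q : ℤ) ^ s - 1 := by
        refine dvd_trans ?_ h6
        rw [pow_succ]
        exact mul_dvd_mul_left _ h5
      have : ((Q : ℤ) ^ s - 1) = ((Q ^ s - 1 : ℕ) : ℤ) := by
        rw [Nat.cast_sub h1Qs]
        push_cast
        ring
      rw [this] at h7
      exact_mod_cast h7
    by_cases hev : e ≤ v
    · -- solvable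
      obtain ⟨t, ht⟩ : 3 ^ e ∣ s := (pow_dvd_pow 3 hev).trans ⟨u, hsv⟩
      have hsolv : ∃ y : E, y ^ 3 ^ e = algebraMap R E c := by
        apply exists_proot (a := Q - 1) hN0 hcE
        · have := Fintype.ofFinite R
          rw [← map_pow, hQ, Nat.card_eq_fintype_card, FiniteField.pow_card_sub_one_eq_one c hc,
            map_one]
        · rw [hcardE]
          have h5 := hx3 t e ht
          have h6 := pow_three_dvd h5 e
          rw [← pow_mul, mul_comm t, ← ht] at h6
          have h7 : ((3 : ℤ) ^ e * ((Q : ℤ) - 1)) ∣ (Q : ℤ) ^ s - 1 :=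
            (mul_dvd_mul_left _ (sub_one_dvd_pow_sub_one (Q : ℤ) t)).trans h6
          have h8 : ((Q : ℤ) ^ s - 1) = ((Q ^ s - 1 : ℕ) : ℤ) := by
            rw [Nat.cast_sub h1Qs]
            push_cast
            ring
          have h9 : (3 : ℤ) ^ e * ((Q : ℤ) - 1) = ((3 ^ e * (Q - 1) : ℕ) : ℤ) := by
            rw [Nat.cast_mul, Nat.cast_sub hQ1.le]
            push_cast
            ring
          rw [h8, h9] at h7
          exact_mod_cast h7
      have h5 : ν = 3 ^ e := by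
        rw [hν, card_sol hN0 hcE hsolv]
        exact Nat.gcd_eq_right ((pow_dvd_pow 3 (by omega)).trans hM)
      rw [h5]
      push_cast
      rw [sub_self]
      exact dvd_zero _
    · have h6 : (3 : ℕ) ^ (v + 1) ∣ 3 ^ e := pow_dvd_pow 3 (by omega)
      have h7 : (3 : ℕ) ^ (v + 1) ∣ ν := by
        by_cases hsolv : ∃ y : E, y ^ 3 ^ e = algebraMap R E c
        · rw [hν, card_sol hN0 hcE hsolv]
          exact Nat.dvd_gcd hM h6
        · have : ν = 0 := by
            rw [hν, Finset.card_eq_zero, Finset.filter_eq_empty_iff]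
            intro y _ hy
            exact hsolv ⟨y, hy⟩
          rw [this]
          exact dvd_zero _
      refine dvd_sub ?_ ?_
      · exact_mod_cast h7
      · exact_mod_cast h6
  · -- `3 ∣ Q ^ s + 1`
    have hmod2 : Q ^ s % 3 = 2 := by omega
    have hu : IsUnit (((Q : ℕ) : ℤ_[3]) ^ s - 1) := by
      have h4 : IsUnit (((Q ^ s - 1 : ℕ)) : ℤ_[3]) := unit_of_ndvd (by omega)
      rw [Nat.cast_sub h1Qs] at h4
      push_cast at h4
      exact h4
    have hd : (3 * s : ℤ_[3]) ∣ ((Q : ℕ) : ℤ_[3]) ^ s + 1 := hu.dvd_mul_left.1 hsq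
    rw [hcong']
    refine dvd_sub ?_ (hd.mul_left _)
    have hcop : (Fintype.card E - 1).gcd (3 ^ e) = 1 := by
      rw [hcardE]
      apply Nat.Coprime.pow_right
      rw [Nat.coprime_comm, Nat.Prime.coprime_iff_not_dvd Nat.prime_three]
      omega
    have hsolv : ∃ y : E, y ^ 3 ^ e = algebraMap R E c := by
      have hinj : Function.Injective (powMonoidHom (3 ^ e) : Eˣ →* Eˣ) := by
        rw [← MonoidHom.ker_eq_bot_iff, ← Subgroup.card_eq_one, IsCyclic.card_powMonoidHom_ker,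
          Nat.card_eq_fintype_card, Fintype.card_units]
        exact hcop
      obtain ⟨y, hy⟩ := (Finite.injective_iff_surjective.1 hinj) (Units.mk0 _ hcE)
      refine ⟨(y : E), ?_⟩
      have h7 := congrArg (fun z : Eˣ => (z : E)) hy
      simpa [powMonoidHom_apply] using h7
    have h5 : ν = 1 := by
      rw [hν, card_sol hN0 hcE hsolv]
      exact hcop
    rw [h5, Nat.cast_one, sub_self]
    exact dvd_zero _

end count

end Pool.Agent.Y711
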