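import Pool.Agent.Y711.CS1
import Pool.Agent.Y711.BB3

/-!
The traces of the Frobenius for cyclic covers of the line, modulo three.
-/

set_option autoImplicit false
set_option maxHeartbeats 1000000

open Polynomial

namespace Pool.Agent.Y711

open Pool.Agent.W313.Hyp Pool.Agent.W343.BSD Pool.Agent.Y784.FC Module

section

variable {F : Type} [Field F] [Finite F]

theorem card_RF_pow (P : MI F) : Nat.card (RF P) = Nat.card F ^ P.1.natDegree := by
  have := finRF P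
  have : Module.Finite F (RF P) := Module.Finite.of_finite
  rw [← finrank_RF P, ← Module.natCard_eq_pow_finrank]

/-- the number of points of the line -/
theorem sum_deg {i : ℕ} (hi : i ≠ 0) :
    ∑ Q ∈ (finite_deg_le (F := F) i).toFinset, (if Q.1.natDegree ∣ i then (Q.1.natDegree : ℤ) else 0) =
      ((Nat.card F : ℕ) : ℤ) ^ i := by
  classical
  obtain ⟨p, hp⟩ := CharP.exists F
  have hpf : Fact p.Prime := ⟨CharP.char_is_prime F p⟩
  have hs' : NeZero i := ⟨hi⟩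
  set E := FiniteField.Extension F p i with hE
  have := Fintype.ofFinite E
  have hfr : finrank F E = i := FiniteField.finrank_extension F p i
  have hfd : Module.Finite F E := Module.Finite.of_finite
  have h1 := Pool.Agent.Y709.sum_closed (k := F) (E := E) hfr (g := fun _ : E => (1 : ℤ))
    (G := fun _ => 1) (fun _ _ _ => rfl)
  rw [Finset.sum_const, Finset.card_univ, nsmul_eq_mul, mul_one] at h1
  have hcardE : Fintype.card E = Nat.card F ^ i := by
    rw [← hfr, ← Module.natCard_eq_pow_finrank, Nat.card_eq_fintype_card]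
  rw [hcardE] at h1
  push_cast at h1
  rw [h1]
  refine Finset.sum_congr rfl fun Q _ => ?_
  split_ifs
  · rw [nsmul_eq_mul, mul_one]
  · rfl

theorem coverTrace_eq (N : ℕ) (g : F[X]) {i : ℕ} (hi : i ≠ 0) :
    coverTrace N g i = ∑ Q ∈ (finite_deg_le (F := F) i).toFinset, (if Q.1.natDegree ∣ i then
      (Q.1.natDegree : ℤ) * (1 - rootCount N (AdjoinRoot.mk Q.1 g) (i / Q.1.natDegree)) else 0) := by
  classical
  unfold coverTrace
  have h1 : (∑ᶠ (Q : F[X]) (_ : Q.Monic ∧ Irreducible Q ∧ Q.natDegree ∣ i),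
      (Q.natDegree : ℤ) * (1 - rootCount N (AdjoinRoot.mk Q g) (i / Q.natDegree))) =
      ∑ᶠ Q ∈ ((((finite_deg_le (F := F) i).toFinset.filter
        (fun Q => Q.1.natDegree ∣ i)).map (Function.Embedding.subtype _) : Finset F[X]) : Set F[X]),
          (Q.natDegree : ℤ) * (1 - rootCount N (AdjoinRoot.mk Q g) (i / Q.natDegree)) := by
    refine finsum_congr fun Q => ?_
    refine finsum_congr_Prop (propext ?_) (fun _ => rfl)
    rw [Finset.mem_coe, Finset.mem_map]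
    constructor
    · rintro ⟨e1, e2, e3⟩
      refine ⟨⟨Q, e1, e2⟩, ?_, rfl⟩
      rw [Finset.mem_filter, Set.Finite.mem_toFinset]
      exact ⟨Nat.le_of_dvd (Nat.pos_of_ne_zero hi) e3, e3⟩
    · rintro ⟨Q', hQ', rfl⟩
      rw [Finset.mem_filter] at hQ'
      exact ⟨Q'.2.1, Q'.2.2, hQ'.2⟩
  rw [h1, finsum_mem_coe_finset, Finset.sum_map, Finset.sum_filter]
  rfl

theorem finite_dvd {g : F[X]} (hg : g ≠ 0) : {P : MI F | P.1 ∣ g}.Finite :=
  (finite_deg_le (F := F) g.natDegree).subset fun _ hP => natDegree_le_of_dvd hP hg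

theorem branch_eq {g : F[X]} (hg : g ≠ 0) :
    (∑ᶠ (Q : F[X]) (_ : Q.Monic ∧ Irreducible Q ∧ Q ∣ g), Q.natDegree) =
      ∑ Q ∈ (finite_dvd hg).toFinset, Q.1.natDegree := by
  classical
  have h1 : (∑ᶠ (Q : F[X]) (_ : Q.Monic ∧ Irreducible Q ∧ Q ∣ g), Q.natDegree) =
      ∑ᶠ Q ∈ ((((finite_dvd hg).toFinset).map (Function.Embedding.subtype _) : Finset F[X]) :
        Set F[X]), Q.natDegree := by
    refine finsum_congr fun Q => ?_
    refine finsum_congr_Prop (propext ?_) (fun _ => rfl)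
    rw [Finset.mem_coe, Finset.mem_map]
    constructor
    · rintro ⟨e1, e2, e3⟩
      refine ⟨⟨Q, e1, e2⟩, ?_, rfl⟩
      rw [Set.Finite.mem_toFinset]
      exact e3
    · rintro ⟨Q', hQ', rfl⟩
      rw [Set.Finite.mem_toFinset] at hQ'
      exact ⟨Q'.2.1, Q'.2.2, hQ'⟩
  rw [h1, finsum_mem_coe_finset, Finset.sum_map]
  rfl

/-- a power of three which does not divide `i` -/
theorem three_pow_dvd {i a : ℕ} (hi : i ≠ 0) (h : ¬ 3 ^ a ∣ i) : (3 * i : ℤ_[3]) ∣ 3 ^ a := by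
  obtain ⟨v, u, hu3, hsv⟩ := Nat.exists_eq_pow_mul_and_not_dvd hi 3 (by norm_num)
  have h5 : (3 * (i : ℕ) : ℤ_[3]) = 3 ^ (v + 1) * (u : ℤ_[3]) := by
    rw [hsv]
    push_cast
    ring
  rw [h5]
  refine ((unit_of_ndvd hu3).mul_right_dvd).2 (pow_dvd_pow 3 ?_)
  by_contra hlt
  exact h ((pow_dvd_pow 3 (by omega)).trans ⟨u, hsv⟩)

/-- **The congruence for a cyclic cover.** -/
theorem cover_cong (h3 : (3 : F) ≠ 0) (e : ℕ) {g : F[X]} (hg : g ≠ 0) {n : ℕ} (hn : 0 < n)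
    (hsum : ∑ Q ∈ (finite_dvd hg).toFinset, Q.1.natDegree = n)
    (hpow : ∀ Q : MI F, Q.1 ∣ g → ∃ a : ℕ, Q.1.natDegree = 3 ^ a) {i : ℕ} (hi : i ≠ 0) :
    (3 * i : ℤ_[3]) ∣ ((coverTrace (3 ^ e) g i : ℤ) : ℤ_[3]) -
      (((3 ^ e - 1) / 2 * (n - 1) : ℕ) : ℤ_[3]) * (1 + ((Nat.card F : ℕ) : ℤ_[3]) ^ i) := by
  classical
  have hN0 : (3 : ℕ) ^ e ≠ 0 := by positivity
  set N := 3 ^ e with hN
  have hodd : Odd N := Odd.pow (by decide)
  obtain ⟨B, hB⟩ := hodd
  have hA : (N + 1) / 2 = B + 1 := by omega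
  have hB' : (N - 1) / 2 = B := by omega
  set q : ℤ_[3] := ((Nat.card F : ℕ) : ℤ_[3]) with hq
  set I : Ideal ℤ_[3] := Ideal.span {(3 * i : ℤ_[3])} with hI
  set π : ℤ_[3] →+* ℤ_[3] ⧸ I := Ideal.Quotient.mk I with hπ
  have hπ0 : ∀ x : ℤ_[3], (3 * i : ℤ_[3]) ∣ x ↔ π x = 0 := by
    intro x
    rw [hπ, Ideal.Quotient.eq_zero_iff_mem, hI, Ideal.mem_span_singleton]
  rw [hπ0, hB']
  have hsq : π (q ^ i) * π (q ^ i) = 1 := by
    have := (hπ0 _).1 (q_sq h3 i)
    rw [← hq, map_sub, map_one, sub_eq_zero, pow_two, map_mul] at this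
    exact this
  set u := π (q ^ i) with hu
  -- the local terms
  have hloc : ∀ Q : MI F, Q.1.natDegree ∣ i →
      π (((Q.1.natDegree : ℤ) * (1 - rootCount N (AdjoinRoot.mk Q.1 g) (i / Q.1.natDegree)) : ℤ) :
        ℤ_[3]) = if Q.1 ∣ g then 0 else
          ((Q.1.natDegree : ℕ) : ℤ_[3] ⧸ I) * (-((B : ℤ_[3] ⧸ I) * (1 + u))) := by
    intro Q hQ
    have hd0 := MI.deg_pos Q
    have hs0 : i / Q.1.natDegree ≠ 0 := by
      intro h0
      have := Nat.div_mul_cancel hQ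
      rw [h0, zero_mul] at this
      exact hi this.symm
    split_ifs with hdg
    · have h4 : AdjoinRoot.mk Q.1 g = 0 := AdjoinRoot.mk_eq_zero.2 hdg
      have := finRF Q
      rw [h4, show rootCount N (0 : AdjoinRoot Q.1) (i / Q.1.natDegree) = 1 from
        rootCount_zero (R := RF Q) hN0 hs0, sub_self, mul_zero, Int.cast_zero, map_zero]
    · have h4 : (AdjoinRoot.mk Q.1 g : RF Q) ≠ 0 := fun h => hdg (AdjoinRoot.mk_eq_zero.1 h)
      have hfinQ := finRF Q
      have h3Q : (3 : RF Q) ≠ 0 := by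
        have h5 : (3 : RF Q) = algebraMap F (RF Q) 3 := by rw [map_ofNat]
        rw [h5]
        exact (_root_.map_ne_zero _).2 h3
      have h5 := root_cong (R := RF Q) h3Q e h4 hs0
      rw [← hN, hA, hB', card_RF_pow, Nat.cast_pow, ← pow_mul, Nat.mul_div_cancel' hQ, ← hq] at h5
      have h6 : (3 * i : ℤ_[3]) ∣ ((Q.1.natDegree : ℕ) : ℤ_[3]) *
          (((rootCount N (AdjoinRoot.mk Q.1 g) (i / Q.1.natDegree) : ℤ) : ℤ_[3]) -
            (((B + 1 : ℕ) : ℤ_[3]) + ((B : ℕ) : ℤ_[3]) * q ^ i)) := by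
        have h7 : (3 * i : ℤ_[3]) = ((Q.1.natDegree : ℕ) : ℤ_[3]) *
            (3 * ((i / Q.1.natDegree : ℕ) : ℤ_[3])) := by
          have : ((i : ℕ) : ℤ_[3]) = ((Q.1.natDegree : ℕ) : ℤ_[3]) *
              ((i / Q.1.natDegree : ℕ) : ℤ_[3]) := by
            rw [← Nat.cast_mul, Nat.mul_div_cancel' hQ]
          rw [this]
          ring
        rw [h7]
        exact mul_dvd_mul_left _ h5
      rw [hπ0, map_mul, map_sub, map_add, map_mul, ← hu, map_natCast, map_natCast, map_natCast]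
        at h6
      rw [Int.cast_mul, Int.cast_sub, Int.cast_one, map_mul, map_sub, map_one, Int.cast_natCast,
        map_natCast]
      push_cast at h6 ⊢
      linear_combination -h6
  -- the sum
  rw [coverTrace_eq N g hi, Int.cast_sum, map_sub, map_sum]
  have h8 : ∀ Q ∈ (finite_deg_le (F := F) i).toFinset,
      π (((if Q.1.natDegree ∣ i then (Q.1.natDegree : ℤ) *
        (1 - rootCount N (AdjoinRoot.mk Q.1 g) (i / Q.1.natDegree)) else 0 : ℤ)) : ℤ_[3]) =
      ((if Q.1.natDegree ∣ i then ((Q.1.natDegree : ℕ) : ℤ_[3] ⧸ I) else 0) -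
        (if Q.1.natDegree ∣ i ∧ Q.1 ∣ g then ((Q.1.natDegree : ℕ) : ℤ_[3] ⧸ I) else 0)) *
          (-((B : ℤ_[3] ⧸ I) * (1 + u))) := by
    intro Q _
    by_cases hQ : Q.1.natDegree ∣ i
    · rw [if_pos hQ, if_pos hQ, hloc Q hQ]
      by_cases hdg : Q.1 ∣ g
      · rw [if_pos hdg, if_pos ⟨hQ, hdg⟩, sub_self, zero_mul]
      · rw [if_neg hdg, if_neg (fun h => hdg h.2), sub_zero]
    · rw [if_neg hQ, if_neg hQ, if_neg (fun h => hQ h.1), Int.cast_zero, map_zero, sub_self,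
        zero_mul]
  rw [Finset.sum_congr rfl h8, ← Finset.sum_mul, Finset.sum_sub_distrib]
  have h9 : ∑ Q ∈ (finite_deg_le (F := F) i).toFinset,
      (if Q.1.natDegree ∣ i then ((Q.1.natDegree : ℕ) : ℤ_[3] ⧸ I) else 0) = u := by
    have h10 := congrArg (fun z : ℤ => π ((z : ℤ) : ℤ_[3])) (sum_deg (F := F) hi)
    rw [Int.cast_sum, map_sum] at h10
    rw [hu, hq]
    push_cast at h10 ⊢
    rw [← h10]
    refine Finset.sum_congr rfl fun Q _ => ?_
    split_ifs <;> simp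
  have h11 : ∑ Q ∈ (finite_deg_le (F := F) i).toFinset,
      (if Q.1.natDegree ∣ i ∧ Q.1 ∣ g then ((Q.1.natDegree : ℕ) : ℤ_[3] ⧸ I) else 0) =
      (n : ℤ_[3] ⧸ I) := by
    have h12 : ∑ Q ∈ (finite_deg_le (F := F) i).toFinset,
        (if Q.1.natDegree ∣ i ∧ Q.1 ∣ g then ((Q.1.natDegree : ℕ) : ℤ_[3] ⧸ I) else 0) =
        ∑ Q ∈ (finite_dvd hg).toFinset,
          (if Q.1.natDegree ∣ i then ((Q.1.natDegree : ℕ) : ℤ_[3] ⧸ I) else 0) := by
      rw [← Finset.sum_filter, ← Finset.sum_filter]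
      refine Finset.sum_congr ?_ fun _ _ => rfl
      ext Q
      rw [Finset.mem_filter, Finset.mem_filter, Set.Finite.mem_toFinset, Set.Finite.mem_toFinset]
      constructor
      · rintro ⟨-, h1, h2⟩
        exact ⟨h2, h1⟩
      · rintro ⟨h1, h2⟩
        exact ⟨Nat.le_of_dvd (Nat.pos_of_ne_zero hi) h2, h2, h1⟩
    rw [h12, ← hsum, Nat.cast_sum]
    refine Finset.sum_congr rfl fun Q hQ => ?_
    rw [Set.Finite.mem_toFinset] at hQ
    split_ifs with hd
    · rfl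
    · obtain ⟨a, ha⟩ := hpow Q hQ
      rw [ha] at hd ⊢
      have := (hπ0 _).1 (three_pow_dvd hi hd)
      rw [map_pow, map_ofNat] at this
      push_cast
      exact this.symm
  rw [h9, h11, map_mul, map_add, map_one, ← hu, map_natCast, Nat.cast_mul, Nat.cast_sub hn]
  push_cast
  linear_combination (-(B : ℤ_[3] ⧸ I)) * hsq

end

end Pool.Agent.Y711
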