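import Pool.Agent.Y711.Gh

/-!
Power series congruent to one modulo three and the divisibility of their logarithmic derivatives.
-/

set_option autoImplicit false
set_option maxHeartbeats 1000000

open PowerSeries

namespace Pool.Agent.Y711

section

variable {R : Type*} [CommRing R]

theorem IsGh.zero {s : ℕ → R} {f : PowerSeries R} (h : IsGh s f) : s 0 = 0 := by
  have h1 := ((isGh_iff _ _).1 h).2 0
  rw [Nat.cast_zero, zero_mul, Finset.HasAntidiagonal.antidiagonal_zero, Finset.sum_singleton,
    coeff_zero_eq_constantCoeff_apply, h.1, one_mul] at h1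
  exact h1.symm

/-- The logarithmic derivative of a series congruent to one modulo three. -/
theorem gh_dvd (hR : ∀ j : ℕ, ((j + 1 : ℕ) : R) ∣ 3 ^ j) {s : ℕ → R} {g : PowerSeries R}
    (hg : constantCoeff g = 0) (h : IsGh s (1 + 3 * g)) (e : ℕ) : (3 * e : R) ∣ s e := by
  set S := PowerSeries.mk s with hS
  have h1 : S = 3 * (X * derivative R g) - 3 * g * S := by
    have h2 := h.2
    rw [← hS, map_add, Derivation.leibniz, Derivation.map_one_eq_zero, smul_eq_mul, smul_eq_mul,
      show (3 : PowerSeries R) = ((3 : ℕ) : PowerSeries R) from by norm_num,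
      Derivation.map_natCast] at h2
    push_cast at h2
    linear_combination -h2
  have h2 : ∀ N : ℕ, S = ∑ j ∈ Finset.range N, (-3 * g) ^ j * (3 * (X * derivative R g)) +
      (-3 * g) ^ N * S := by
    intro N
    induction N with
    | zero => simp
    | succ N ih =>
      rw [Finset.sum_range_succ, pow_succ]
      calc S = ∑ j ∈ Finset.range N, (-3 * g) ^ j * (3 * (X * derivative R g)) +
          (-3 * g) ^ N * S := ih
        _ = ∑ j ∈ Finset.range N, (-3 * g) ^ j * (3 * (X * derivative R g)) +
          (-3 * g) ^ N * (3 * (X * derivative R g) - 3 * g * S) := by rw [← h1]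
        _ = _ := by ring
  have hgX : (X : PowerSeries R) ∣ g := X_dvd_iff.2 hg
  have h3 : coeff e ((-3 * g) ^ (e + 1) * S) = 0 := by
    have h4 : (X : PowerSeries R) ^ (e + 1) ∣ (-3 * g) ^ (e + 1) * S :=
      (pow_dvd_pow_of_dvd (hgX.mul_left _) _).mul_right _
    exact X_pow_dvd_iff.1 h4 e (Nat.lt_succ_self e)
  have h5 : s e = coeff e S := by rw [hS, coeff_mk]
  rw [h5, h2 (e + 1), map_add, h3, add_zero, map_sum]
  refine Finset.dvd_sum fun j _ => ?_
  have h6 : ((j + 1 : ℕ) : R) * coeff e ((X : PowerSeries R) * (g ^ j * derivative R g)) =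
      e * coeff e (g ^ (j + 1)) := by
    rw [← coeff_X_deriv, derivative_pow]
    have : (X : PowerSeries R) * (((j + 1 : ℕ) : PowerSeries R) * g ^ (j + 1 - 1) * derivative R g) =
        C ((j + 1 : ℕ) : R) * (X * (g ^ j * derivative R g)) := by
      rw [Nat.add_sub_cancel, map_natCast]
      ring
    rw [this, coeff_C_mul]
  obtain ⟨u, hu⟩ := hR j
  have h7 : (-3 * g) ^ j * (3 * (X * derivative R g)) =
      C ((-1) ^ j * 3 ^ j * 3 : R) * (X * (g ^ j * derivative R g)) := by
    rw [map_mul, map_mul, map_pow, map_pow, map_neg, map_one, map_ofNat, mul_pow, neg_pow]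
    ring
  rw [h7, coeff_C_mul]
  refine ⟨(-1) ^ j * u * coeff e (g ^ (j + 1)), ?_⟩
  rw [hu]
  linear_combination ((-1) ^ j * u * 3) * h6

theorem exists_gh {f g : PowerSeries R} (hf : constantCoeff f = 1) (hfg : f * g = 1) :
    ∃ s : ℕ → R, IsGh s f := by
  refine ⟨fun e => coeff e ((X : PowerSeries R) * derivative R f * g), hf, ?_⟩
  rw [show PowerSeries.mk (fun e => coeff e ((X : PowerSeries R) * derivative R f * g)) =
    (X : PowerSeries R) * derivative R f * g from by ext; simp]
  linear_combination -(X : PowerSeries R) * derivative R f * hfg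

theorem exists_inv {f : PowerSeries R} (hf : constantCoeff f = 1) :
    ∃ g : PowerSeries R, f * g = 1 :=
  ⟨invOfUnit f 1, mul_invOfUnit f 1 (by rw [hf, Units.val_one])⟩

/-- A series whose logarithmic derivative satisfies the divisibility is congruent to one modulo
three. -/
theorem gh_conv (hR : ∀ j : ℕ, ((j + 1 : ℕ) : R) ∣ 3 ^ j) {K : Type*} [Field K] [CharZero K]
    [Algebra R K] {f : PowerSeries K} {s : ℕ → R} (h : IsGh (fun e => algebraMap R K (s e)) f)
    (hs : ∀ e : ℕ, (3 * e : R) ∣ s e) :
    ∃ g : PowerSeries R, constantCoeff g = 0 ∧ f = PowerSeries.map (algebraMap R K) (1 + 3 * g) := by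
  set φ := algebraMap R K with hφ
  have key : ∀ n : ℕ, 1 ≤ n → ∃ r : R, coeff n f = φ (3 * r) := by
    intro n
    induction n using Nat.strong_induction_on with
    | _ n ih =>
      intro hn
      have ih' : ∀ m : ℕ, ∃ r : R, (1 ≤ m → m < n → coeff m f = φ (3 * r)) ∧
          ((m = 0 ∨ n ≤ m) → r = 0) := by
        intro m
        by_cases h1 : 1 ≤ m ∧ m < n
        · obtain ⟨r, hr⟩ := ih m h1.2 h1.1
          exact ⟨r, fun _ _ => hr, fun h2 => by omega⟩
        · exact ⟨0, fun h2 h3 => absurd ⟨h2, h3⟩ h1, fun _ => rfl⟩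
      choose r hr1 hr2 using ih'
      set g : PowerSeries R := PowerSeries.mk r with hg
      have hg0 : constantCoeff g = 0 := by
        rw [← coeff_zero_eq_constantCoeff_apply, hg, coeff_mk]
        exact hr2 0 (Or.inl rfl)
      have hc : constantCoeff (1 + 3 * g) = 1 := by
        rw [map_add, map_mul, hg0, mul_zero, add_zero, map_one]
      obtain ⟨g', hg'⟩ := exists_inv hc
      obtain ⟨s1, hs1⟩ := exists_gh hc hg'
      have hd1 := gh_dvd hR hg0 hs1
      set F := PowerSeries.map φ (1 + 3 * g) with hF
      set F' := PowerSeries.map φ g' with hF'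
      have hFF : F * F' = 1 := by rw [hF, hF', ← map_mul, hg', map_one]
      have hcF : ∀ m : ℕ, 1 ≤ m → coeff m F = φ (3 * r m) := by
        intro m hm
        rw [hF, coeff_map, map_add, coeff_one, if_neg (by omega), zero_add,
          show (3 : PowerSeries R) = C 3 from by rw [map_ofNat], coeff_C_mul, hg, coeff_mk]
      have hF1 : constantCoeff F = 1 := by
        rw [hF, ← coeff_zero_eq_constantCoeff_apply, coeff_map, coeff_zero_eq_constantCoeff_apply,
          hc, map_one]
      have hgh := h.mul ((hs1.map φ).inv hFF)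
      set H := f * F' with hH
      have hfH : f - F = (H - 1) * F := by
        rw [hH]
        linear_combination (-f) * hFF
      have hX1 : (X : PowerSeries K) ^ n ∣ f - F := by
        rw [X_pow_dvd_iff]
        intro m hm
        rw [map_sub, sub_eq_zero]
        by_cases hm0 : m = 0
        · rw [hm0, coeff_zero_eq_constantCoeff_apply, coeff_zero_eq_constantCoeff_apply, h.1, hF1]
        · rw [hcF m (by omega), hr1 m (by omega) hm]
      have hX2 : (X : PowerSeries K) ^ n ∣ H - 1 := by
        have : H - 1 = (f - F) * F' := by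
          rw [hH]
          linear_combination hFF
        rw [this]
        exact hX1.mul_right _
      have hcn : coeff n f = coeff n H := by
        obtain ⟨w, hw⟩ := hX2
        have e1 : coeff n (f - F) = coeff n (H - 1) := by
          rw [hfH, hw, mul_assoc, coeff_X_pow_mul', coeff_X_pow_mul', if_pos le_rfl, if_pos le_rfl,
            Nat.sub_self, coeff_zero_eq_constantCoeff_apply, coeff_zero_eq_constantCoeff_apply,
            map_mul, hF1, mul_one]
        rw [map_sub, map_sub, hcF n hn, hr2 n (Or.inr le_rfl), mul_zero, map_zero, sub_zero,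
          coeff_one, if_neg (by omega), sub_zero] at e1
        exact e1
      have e2 := ((isGh_iff _ _).1 hgh).2 n
      have e3 : ∑ p ∈ Finset.HasAntidiagonal.antidiagonal n, coeff p.1 H *
          ((fun e => φ (s e)) + -fun e => φ (s1 e)) p.2 = φ (s n - s1 n) := by
        rw [Finset.sum_eq_single (0, n)]
        · rw [coeff_zero_eq_constantCoeff_apply, hgh.1, one_mul, Pi.add_apply, Pi.neg_apply, map_sub,
            sub_eq_add_neg]
        · rintro ⟨a, b⟩ hab hne
          rw [Finset.HasAntidiagonal.mem_antidiagonal] at hab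
          simp only at hab ⊢
          have ha0 : a ≠ 0 := by
            rintro rfl
            apply hne
            rw [zero_add] at hab
            rw [hab]
          by_cases hb : b = 0
          · rw [hb, hgh.zero, mul_zero]
          · have e4 := X_pow_dvd_iff.1 hX2 a (by omega)
            rw [map_sub, coeff_one, if_neg ha0, sub_zero] at e4
            rw [e4, zero_mul]
        · intro hno
          exact absurd (by rw [Finset.HasAntidiagonal.mem_antidiagonal]; simp) hno
      rw [e3] at e2
      obtain ⟨u, hu⟩ := dvd_sub (hs n) (hd1 n)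
      refine ⟨u, ?_⟩
      have hn0 : (n : K) ≠ 0 := Nat.cast_ne_zero.2 (by omega)
      apply mul_left_cancel₀ hn0
      rw [hcn, e2, hu, map_mul, map_mul, map_natCast, map_mul]
      ring
  have key' : ∀ n : ℕ, ∃ r : R, (1 ≤ n → coeff n f = φ (3 * r)) ∧ (n = 0 → r = 0) := by
    intro n
    by_cases hn : n = 0
    · exact ⟨0, fun h1 => by omega, fun _ => rfl⟩
    · obtain ⟨r, hr⟩ := key n (by omega)
      exact ⟨r, fun _ => hr, fun h1 => absurd h1 hn⟩
  choose r hr1 hr2 using key'
  refine ⟨PowerSeries.mk r, ?_, ?_⟩
  · rw [← coeff_zero_eq_constantCoeff_apply, coeff_mk]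
    exact hr2 0 rfl
  · ext n
    by_cases hn : n = 0
    · rw [hn, coeff_map, map_add, coeff_zero_eq_constantCoeff_apply, h.1,
        coeff_zero_eq_constantCoeff_apply, coeff_zero_eq_constantCoeff_apply, map_one, map_mul,
        ← coeff_zero_eq_constantCoeff_apply (PowerSeries.mk r), coeff_mk, hr2 0 rfl, mul_zero,
        add_zero, map_one]
    · rw [hr1 n (by omega), coeff_map, map_add, coeff_one, if_neg hn, zero_add,
        show (3 : PowerSeries R) = C 3 from by rw [map_ofNat], coeff_C_mul, coeff_mk]

end

end Pool.Agent.Y711
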