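import Mathlib

/-!
Counting polynomials over a finite field in residue classes and intervals.
-/

set_option autoImplicit false
set_option maxHeartbeats 1000000

open Polynomial

namespace Pool.Agent.Y711

section

variable {k : Type} [Field k] [Finite k]

theorem finite_LT (n : ℕ) : {p : k[X] | p.degree < n}.Finite := by
  have h : Finite (degreeLT k n) := Finite.of_equiv _ (degreeLTEquiv k n).toEquiv.symm
  have h1 : {p : k[X] | p.degree < n} = (degreeLT k n : Set k[X]) := by
    ext p
    rw [Set.mem_ofPred_eq, SetLike.mem_coe, mem_degreeLT]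
  rw [h1]
  exact Set.toFinite _

/-- The polynomials of degree less than `n`. -/
noncomputable def LT (k : Type) [Field k] [Finite k] (n : ℕ) : Finset k[X] :=
  (finite_LT (k := k) n).toFinset

theorem mem_LT {n : ℕ} {p : k[X]} : p ∈ LT k n ↔ p.degree < n := by
  unfold LT
  rw [Set.Finite.mem_toFinset, Set.mem_ofPred_eq]

theorem card_LT (n : ℕ) : (LT k n).card = Nat.card k ^ n := by
  have h1 : Nat.card (degreeLT k n) = Nat.card k ^ n := by
    rw [Nat.card_congr (degreeLTEquiv k n).toEquiv, Nat.card_fun, Nat.card_eq_fintype_card (α := Fin n),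
      Fintype.card_fin]
  rw [← h1]
  unfold LT
  rw [← Set.ncard_eq_toFinset_card _ (finite_LT n), ← Nat.card_coe_set_eq]
  apply Nat.card_congr
  exact Equiv.subtypeEquivRight fun p => by
    rw [Set.mem_ofPred_eq, mem_degreeLT]

theorem zero_mem_LT (n : ℕ) : (0 : k[X]) ∈ LT k n := by
  rw [mem_LT, degree_zero]
  exact WithBot.bot_lt_coe n

theorem mod_mem_LT (p : k[X]) {N : k[X]} (hN : N ≠ 0) : p % N ∈ LT k N.natDegree := by
  rw [mem_LT, ← degree_eq_natDegree hN]
  exact degree_mod_lt p hN

omit [Finite k] in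
theorem mod_add_mul (p N w : k[X]) : (p + N * w) % N = p % N :=
  mod_eq_of_dvd_sub ⟨w, by ring⟩

omit [Finite k] in
theorem div_unique {N r w : k[X]} (hN : N ≠ 0) (hr : r.degree < N.degree) :
    (r + N * w) / N = w ∧ (r + N * w) % N = r := by
  have h1 : (r + N * w) % N = r := by
    rw [mod_add_mul, (mod_eq_self_iff hN).2 hr]
  refine ⟨?_, h1⟩
  have h2 := EuclideanDomain.mod_add_div (r + N * w) N
  rw [h1] at h2
  have h3 : N * ((r + N * w) / N) = N * w := by linear_combination h2
  exact mul_left_cancel₀ hN h3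

omit [Finite k] in
theorem degree_div_lt' {z N : k[X]} {ρ : ℕ} (hN : N ≠ 0) (hz : z.degree < ρ) :
    (z / N).degree < ((ρ - N.natDegree : ℕ) : WithBot ℕ) := by
  by_cases h : z.degree < N.degree
  · rw [(Polynomial.div_eq_zero_iff hN).2 h, degree_zero]
    exact WithBot.bot_lt_coe _
  · rw [not_lt] at h
    have h1 := degree_add_div hN h
    have hz0 : z ≠ 0 := by
      rintro rfl
      rw [degree_zero] at h
      exact hN (degree_eq_bot.1 (le_bot_iff.1 h))
    have hd0 : z / N ≠ 0 := by
      intro h0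
      rw [Polynomial.div_eq_zero_iff hN] at h0
      exact absurd h0 (not_lt.2 h)
    rw [degree_eq_natDegree hN, degree_eq_natDegree hd0, degree_eq_natDegree hz0] at h1
    rw [degree_eq_natDegree hz0] at hz
    rw [degree_eq_natDegree hd0]
    norm_cast at h1 hz ⊢
    omega

omit [Finite k] in
theorem degree_mul_lt' {w N : k[X]} {a b : ℕ} (hN : N.natDegree ≤ a) (hw : w.degree < b) :
    (N * w).degree < ((a + b : ℕ) : WithBot ℕ) := by
  by_cases h : N * w = 0
  · rw [h, degree_zero]
    exact WithBot.bot_lt_coe _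
  · have hw0 : w ≠ 0 := right_ne_zero_of_mul h
    have hN0 : N ≠ 0 := left_ne_zero_of_mul h
    rw [degree_eq_natDegree hw0] at hw
    rw [degree_eq_natDegree h, natDegree_mul hN0 hw0]
    norm_cast at hw ⊢
    omega

omit [Finite k] in
theorem residue_aux (B₀ r w : k[X]) {N : k[X]} (hN : N ≠ 0) (hr : r.degree < N.degree) :
    (B₀ + ((r - B₀) % N + N * w)) % N = r := by
  rw [← add_assoc, mod_add_mul]
  have h2 : (B₀ + (r - B₀) % N) % N = r % N := by
    apply mod_eq_of_dvd_sub
    have := EuclideanDomain.mod_add_div (r - B₀) N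
    refine ⟨-((r - B₀) / N), ?_⟩
    linear_combination this
  rw [h2, (mod_eq_self_iff hN).2 hr]

/-- Summing over an interval by residues. -/
theorem sum_interval (N : k[X]) (hN : N ≠ 0) {ρ : ℕ} (hρ : N.natDegree ≤ ρ) (B₀ : k[X])
    (F : k[X] → ℕ) :
    ∑ z ∈ LT k ρ, F ((B₀ + z) % N) =
      Nat.card k ^ (ρ - N.natDegree) * ∑ r ∈ LT k N.natDegree, F r := by
  classical
  have h0 : Nat.card k ^ (ρ - N.natDegree) * ∑ r ∈ LT k N.natDegree, F r =
      ∑ x ∈ LT k (ρ - N.natDegree) ×ˢ LT k N.natDegree, F x.2 := by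
    rw [Finset.sum_product]
    simp only [Finset.sum_const, card_LT, smul_eq_mul]
  rw [h0]
  symm
  refine Finset.sum_bij' (fun x _ => (x.2 - B₀) % N + N * x.1) (fun z _ => (z / N, (B₀ + z) % N))
    ?_ ?_ ?_ ?_ ?_
  · rintro ⟨w, r⟩ h
    rw [Finset.mem_product, mem_LT, mem_LT] at h
    obtain ⟨hw, hr⟩ := h
    rw [mem_LT]
    refine lt_of_le_of_lt (degree_add_le _ _) (max_lt ?_ ?_)
    · refine lt_of_lt_of_le (degree_mod_lt _ hN) ?_
      rw [degree_eq_natDegree hN]
      exact_mod_cast hρ
    · have := degree_mul_lt' (N := N) le_rfl hw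
      rwa [Nat.add_sub_cancel' hρ] at this
  · intro z h
    rw [mem_LT] at h
    rw [Finset.mem_product, mem_LT]
    exact ⟨degree_div_lt' hN h, mod_mem_LT _ hN⟩
  · rintro ⟨w, r⟩ h
    rw [Finset.mem_product, mem_LT, mem_LT] at h
    obtain ⟨hw, hr⟩ := h
    have hr' : r.degree < N.degree := by rwa [degree_eq_natDegree hN]
    have h0 := div_unique (w := w) hN (degree_mod_lt (r - B₀) hN)
    exact Prod.ext h0.1 (residue_aux B₀ r w hN hr')
  · intro z h
    dsimp only
    have h1 : ((B₀ + z) % N - B₀) % N = z % N := by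
      apply mod_eq_of_dvd_sub
      have := EuclideanDomain.mod_add_div (B₀ + z) N
      refine ⟨-((B₀ + z) / N), ?_⟩
      linear_combination this
    rw [h1]
    exact EuclideanDomain.mod_add_div z N
  · rintro ⟨w, r⟩ h
    rw [Finset.mem_product, mem_LT, mem_LT] at h
    obtain ⟨hw, hr⟩ := h
    have hr' : r.degree < N.degree := by rwa [degree_eq_natDegree hN]
    dsimp only
    rw [residue_aux B₀ r w hN hr']

/-- Counting in an interval by residues. -/
theorem card_interval (N : k[X]) (hN : N ≠ 0) {ρ : ℕ} (hρ : N.natDegree ≤ ρ) (B₀ : k[X])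
    (R : k[X] → Prop) [DecidablePred R] :
    ((LT k ρ).filter fun z => R ((B₀ + z) % N)).card =
      Nat.card k ^ (ρ - N.natDegree) * ((LT k N.natDegree).filter R).card := by
  rw [Finset.card_filter, Finset.card_filter]
  exact sum_interval N hN hρ B₀ fun r => if R r then 1 else 0

/-- The monic polynomials of degree `n`. -/
noncomputable def MD (k : Type) [Field k] [Finite k] (n : ℕ) : Finset k[X] :=
  (LT k n).map ⟨fun z => X ^ n + z, add_right_injective _⟩

theorem mem_MD {n : ℕ} {p : k[X]} : p ∈ MD k n ↔ p.Monic ∧ p.natDegree = n := by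
  unfold MD
  rw [Finset.mem_map]
  constructor
  · rintro ⟨z, hz, rfl⟩
    rw [mem_LT] at hz
    refine ⟨monic_X_pow_add hz, ?_⟩
    apply natDegree_eq_of_degree_eq_some
    show (X ^ n + z : k[X]).degree = (n : WithBot ℕ)
    rw [degree_add_eq_left_of_degree_lt (by rwa [degree_X_pow]), degree_X_pow]
  · rintro ⟨hm, rfl⟩
    refine ⟨p - X ^ p.natDegree, ?_, ?_⟩
    · rw [mem_LT]
      have h1 := degree_sub_lt_left (p := p) (q := X ^ p.natDegree)
        (by rw [degree_X_pow, degree_eq_natDegree hm.ne_zero]) hm.ne_zero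
        (by rw [hm.leadingCoeff, (monic_X_pow _).leadingCoeff])
      rwa [degree_eq_natDegree hm.ne_zero] at h1
    · show X ^ p.natDegree + (p - X ^ p.natDegree) = p
      ring

theorem card_MD (n : ℕ) : (MD k n).card = Nat.card k ^ n := by
  unfold MD
  rw [Finset.card_map, card_LT]

/-- Summing over monic polynomials by residues. -/
theorem sum_monic (N : k[X]) (hN : N ≠ 0) {a : ℕ} (ha : N.natDegree ≤ a) (F : k[X] → ℕ) :
    ∑ z ∈ MD k a, F (z % N) = Nat.card k ^ (a - N.natDegree) * ∑ r ∈ LT k N.natDegree, F r := by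
  rw [← sum_interval N hN ha (X ^ a) F]
  unfold MD
  rw [Finset.sum_map]
  rfl

/-- Counting monic polynomials by residues. -/
theorem card_monic (N : k[X]) (hN : N ≠ 0) {a : ℕ} (ha : N.natDegree ≤ a)
    (R : k[X] → Prop) [DecidablePred R] :
    ((MD k a).filter fun z => R (z % N)).card =
      Nat.card k ^ (a - N.natDegree) * ((LT k N.natDegree).filter R).card := by
  rw [Finset.card_filter, Finset.card_filter]
  exact sum_monic N hN ha fun r => if R r then 1 else 0

omit [Finite k] in
theorem eq_of_dvd_sub {N r r' : k[X]} {ν : ℕ} (hN : ν ≤ N.natDegree) (hr : r.degree < ν)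
    (hr' : r'.degree < ν) (h : N ∣ r - r') : r = r' := by
  by_contra hne
  have h0 : r - r' ≠ 0 := sub_ne_zero.2 hne
  have h1 := natDegree_le_of_dvd h h0
  have h2 : (r - r').degree < ν := lt_of_le_of_lt (degree_sub_le _ _) (max_lt hr hr')
  rw [degree_eq_natDegree h0] at h2
  norm_cast at h2
  omega

/-- Residues modulo a product of coprime polynomials. -/
theorem sum_crt {m n : k[X]} (hm : m ≠ 0) (hn : n ≠ 0) (hmn : IsCoprime m n) (F H : k[X] → ℕ) :
    ∑ r ∈ LT k (m * n).natDegree, F (r % m) * H (r % n) =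
      (∑ r ∈ LT k m.natDegree, F r) * ∑ r ∈ LT k n.natDegree, H r := by
  classical
  rw [Finset.sum_mul_sum, ← Finset.sum_product']
  refine Finset.sum_bij (fun r _ => (r % m, r % n)) ?_ ?_ ?_ ?_
  · intro r _
    rw [Finset.mem_product]
    exact ⟨mod_mem_LT _ hm, mod_mem_LT _ hn⟩
  · intro r hr r' hr' h
    rw [mem_LT] at hr hr'
    obtain ⟨h1, h2⟩ := Prod.mk.inj h
    have h3 : m ∣ r - r' := by
      rw [← EuclideanDomain.mod_eq_zero, sub_mod, h1, sub_self]
    have h4 : n ∣ r - r' := by
      rw [← EuclideanDomain.mod_eq_zero, sub_mod, h2, sub_self]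
    exact eq_of_dvd_sub le_rfl hr hr' (hmn.mul_dvd h3 h4)
  · rintro ⟨r1, r2⟩ h
    rw [Finset.mem_product, mem_LT, mem_LT] at h
    obtain ⟨u, v, huv⟩ := hmn
    dsimp only at h
    refine ⟨(r1 * (v * n) + r2 * (u * m)) % (m * n), mod_mem_LT _ (mul_ne_zero hm hn), ?_⟩
    have h0 := EuclideanDomain.mod_add_div (r1 * (v * n) + r2 * (u * m)) (m * n)
    set q := (r1 * (v * n) + r2 * (u * m)) / (m * n) with hq
    set r := (r1 * (v * n) + r2 * (u * m)) % (m * n) with hr
    apply Prod.ext
    · show r % m = r1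
      rw [← (mod_eq_self_iff hm).2 (show r1.degree < m.degree by
        rw [degree_eq_natDegree hm]; exact h.1)]
      apply mod_eq_of_dvd_sub
      refine ⟨-(n * q) - r1 * u + r2 * u, ?_⟩
      linear_combination h0 + r1 * huv
    · show r % n = r2
      rw [← (mod_eq_self_iff hn).2 (show r2.degree < n.degree by
        rw [degree_eq_natDegree hn]; exact h.2)]
      apply mod_eq_of_dvd_sub
      refine ⟨-(m * q) + r1 * v - r2 * v, ?_⟩
      linear_combination h0 + r2 * huv
  · intro r _
    rfl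

end

end Pool.Agent.Y711
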