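import Pool.Agent.Y711.Sp
import Mathlib.NumberTheory.Padics.PadicIntegers

/-!
Congruences modulo `3 e` for the sums of characters over the extensions of degree `e`.
-/

set_option autoImplicit false
set_option maxHeartbeats 1000000

open Polynomial

namespace Pool.Agent.Y711

open Pool.Agent.W313.Hyp Pool.Agent.W343.BSD Pool.Agent.Y784.FC Module

section padic

theorem unit_of_ndvd {u : ℕ} (hu : ¬ 3 ∣ u) : IsUnit ((u : ℕ) : ℤ_[3]) := by
  rw [PadicInt.isUnit_iff]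
  have h1 := PadicInt.norm_le_one ((u : ℕ) : ℤ_[3])
  have h2 : ¬ ‖((u : ℕ) : ℤ_[3])‖ < 1 := by
    intro h
    have h3 : ‖((u : ℤ) : ℤ_[3])‖ < 1 := by exact_mod_cast h
    rw [PadicInt.norm_int_lt_one_iff_dvd] at h3
    exact hu (by exact_mod_cast h3)
  exact le_antisymm h1 (not_lt.1 h2)

theorem pad_dvd (j : ℕ) : ((j + 1 : ℕ) : ℤ_[3]) ∣ 3 ^ j := by
  obtain ⟨v, u, hu, hj⟩ := Nat.exists_eq_pow_mul_and_not_dvd (Nat.succ_ne_zero j) 3 (by norm_num)
  have h1 : v ≤ j := by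
    have h2 : v < 3 ^ v := Nat.lt_pow_self (by norm_num)
    have h3 : 0 < u := Nat.pos_of_ne_zero (by rintro rfl; simp at hu)
    have h4 : 3 ^ v ≤ j + 1 := by
      have : j.succ = 3 ^ v * u := hj
      calc 3 ^ v ≤ 3 ^ v * u := Nat.le_mul_of_pos_right _ h3
        _ = j + 1 := by omega
    omega
  have h5 : ((j + 1 : ℕ) : ℤ_[3]) = 3 ^ v * (u : ℤ_[3]) := by
    have : j + 1 = 3 ^ v * u := hj
    rw [this]
    push_cast
    ring
  rw [h5]
  exact ((unit_of_ndvd hu).mul_right_dvd).2 (pow_dvd_pow 3 h1)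

theorem pow_sub_dvd {x : ℤ_[3]} (hx : 3 ∣ x - 1) (e : ℕ) : (3 * e : ℤ_[3]) ∣ x ^ e - 1 := by
  by_cases he : e = 0
  · rw [he, pow_zero, sub_self]; exact dvd_zero _
  obtain ⟨v, u, hu, hj⟩ := Nat.exists_eq_pow_mul_and_not_dvd he 3 (by norm_num)
  have h1 : (3 : ℤ_[3]) ∣ x ^ u - 1 := hx.trans (sub_one_dvd_pow_sub_one x u)
  have h2 := dvd_sub_pow_of_dvd_sub (p := 3) (a := x ^ u) (b := 1) (by exact_mod_cast h1) v
  rw [one_pow, ← pow_mul, mul_comm u, ← hj] at h2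
  have h5 : (3 * (e : ℕ) : ℤ_[3]) = ((3 : ℕ) : ℤ_[3]) ^ (v + 1) * (u : ℤ_[3]) := by
    rw [hj]
    push_cast
    ring
  rw [h5]
  exact ((unit_of_ndvd hu).mul_right_dvd).2 h2

/-- a series over the integers congruent to one modulo three -/
theorem eq_one_add {A : PowerSeries ℤ} (hA : PowerSeries.constantCoeff A = 1) (h : red3 A = 1) :
    ∃ g : PowerSeries ℤ, PowerSeries.constantCoeff g = 0 ∧ A = 1 + 3 * g := by
  have h1 : ∀ n : ℕ, ∃ c : ℤ, PowerSeries.coeff n A = PowerSeries.coeff n (1 : PowerSeries ℤ) + 3 * c := by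
    intro n
    have h2 := congrArg (PowerSeries.coeff n) h
    rw [show red3 A = PowerSeries.map (Int.castRingHom (ZMod 3)) A from rfl, PowerSeries.coeff_map,
      ← map_one (PowerSeries.map (Int.castRingHom (ZMod 3))), PowerSeries.coeff_map] at h2
    have h3 : ((PowerSeries.coeff n A - PowerSeries.coeff n (1 : PowerSeries ℤ) : ℤ) : ZMod 3) = 0 := by
      rw [Int.cast_sub, sub_eq_zero]
      exact h2
    rw [ZMod.intCast_zmod_eq_zero_iff_dvd] at h3
    obtain ⟨c, hc⟩ := h3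
    exact ⟨c, by push_cast at hc; linarith⟩
  choose c hc using h1
  have h4 : A = 1 + 3 * PowerSeries.mk c := by
    ext n
    rw [hc n, map_add, show (3 : PowerSeries ℤ) = PowerSeries.C 3 from by rw [map_ofNat],
      PowerSeries.coeff_C_mul, PowerSeries.coeff_mk]
  refine ⟨PowerSeries.mk c, ?_, h4⟩
  have h5 := congrArg (PowerSeries.constantCoeff (R := ℤ)) h4
  rw [hA, map_add, map_one, map_mul, map_ofNat] at h5
  linarith

theorem gh_red {A : PowerSeries ℤ} {s : ℕ → ℤ} (hs : IsGh s A) (h : red3 A = 1) (e : ℕ) :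
    (3 * e : ℤ_[3]) ∣ ((s e : ℤ) : ℤ_[3]) := by
  obtain ⟨g, hg, hA⟩ := eq_one_add hs.1 h
  have h1 := hs.map (Int.castRingHom ℤ_[3])
  rw [hA, map_add, map_one, map_mul, map_ofNat] at h1
  exact gh_dvd pad_dvd (by
    rw [← PowerSeries.coeff_zero_eq_constantCoeff_apply, PowerSeries.coeff_map,
      PowerSeries.coeff_zero_eq_constantCoeff_apply, hg, map_zero]) h1 e

end padic

section local_

variable {F : Type} [Field F] [Finite F]

/-- **The congruence for one curve.** -/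
theorem Sg_tor (h2 : (2 : F) ≠ 0) (h3 : (3 : F) ≠ 0) {c α β : F}
    (hh : c ≠ 0 ∧ c * β * (4 * α ^ 3 - 27 * (c * β)) ≠ 0) (e : ℕ) {i : ℕ} (hi : i ≠ 0) :
    (3 * i : ℤ_[3]) ∣ ((Sg (torsionCurve c α β e) i : ℤ) : ℤ_[3]) +
      (((3 * 3 ^ e - 1) / 2 : ℕ) : ℤ_[3]) * (1 + ((Nat.card F : ℕ) : ℤ_[3]) ^ i) := by
  set γ := (3 * 3 ^ e - 1) / 2 with hγ
  set A : PowerSeries ℤ := EZ (torsionCurve c α β e) *
    ((1 - PowerSeries.C 1 * PowerSeries.X ^ 1) *
      (1 - PowerSeries.C ((Nat.card F : ℕ) : ℤ) * PowerSeries.X ^ 1)) ^ γ with hA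
  have h4 := (isGh_EZ (torsionCurve c α β e)).mul
    (((isGh_factor (1 : ℤ) one_ne_zero).mul (isGh_factor ((Nat.card F : ℕ) : ℤ) one_ne_zero)).pow γ)
  rw [← hA] at h4
  have h5 : red3 A = 1 := by
    rw [hA, map_mul, red3_EZ, map_pow, map_mul, map_sub, map_sub, map_one, map_mul, map_mul, map_one,
      map_one, pow_one, one_mul]
    have h6 := E3_tor h2 h3 hh e
    rw [← hγ] at h6
    have h7 : red3 (1 - PowerSeries.X) = 1 - PowerSeries.X := by
      rw [map_sub, map_one]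
      congr 1
      exact PowerSeries.map_X _
    have h8 : red3 (PowerSeries.X : PowerSeries ℤ) = PowerSeries.X := PowerSeries.map_X _
    have h9 : red3 (PowerSeries.C ((Nat.card F : ℕ) : ℤ)) = PowerSeries.C (qm F) := by
      rw [show red3 (PowerSeries.C ((Nat.card F : ℕ) : ℤ)) = PowerSeries.map (Int.castRingHom (ZMod 3))
        (PowerSeries.C ((Nat.card F : ℕ) : ℤ)) from rfl, PowerSeries.map_C]
      simp [qm]
    rw [h8, h9]
    exact h6
  have h6 := gh_red h4 h5 i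
  rw [Pi.add_apply, Pi.smul_apply, Pi.add_apply, if_pos ⟨hi, one_dvd i⟩, if_pos ⟨hi, one_dvd i⟩,
    Nat.div_one, one_pow] at h6
  have h7 : ((Sg (torsionCurve c α β e) i : ℤ) : ℤ_[3]) +
      ((γ : ℕ) : ℤ_[3]) * (1 + ((Nat.card F : ℕ) : ℤ_[3]) ^ i) =
      -(((-Sg (torsionCurve c α β e) i + γ • (-(((1 : ℕ) : ℤ) * 1) +
        -(((1 : ℕ) : ℤ) * ((Nat.card F : ℕ) : ℤ) ^ i)) : ℤ)) : ℤ_[3]) := by
    push_cast
    rw [nsmul_eq_mul]
    push_cast
    ring
  rw [h7]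
  exact (dvd_neg).2 h6

end local_

end Pool.Agent.Y711
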