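import Pool.Agent.Y711.NV

/-!
The number of ideals of bounded norm.
-/

set_option autoImplicit false
set_option maxHeartbeats 1000000

open Polynomial

namespace Pool.Agent.Y711

open Pool.Agent.TH943.HJ Pool.Agent.Y496.CC

section

variable {k : Type} [Field k] {D : k[X]} [IsDedekindDomain (CR D)] {g : ℕ}

/-- the ideals of a class of bounded norm, counted -/
theorem cum_class [Finite k] (hm : D.Monic) (hg : D.natDegree = 2 * g + 1)
    (c : ClassGroup (CR D)) :
    ∃ M₀, ∀ n, M₀ ≤ n → (∑ m ∈ Finset.range (n + 1), Nat.card (Fib D c m)) * (Nat.card k - 1) + 1 =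
      Nat.card k ^ (n + 1 - g) := by
  classical
  have hodd : Odd D.natDegree := ⟨g, hg⟩
  have hdom := isDomain hodd
  obtain ⟨⟨J, hJ'⟩, hJc⟩ := ClassGroup.mk0_surjective c⁻¹
  have hJ : J ≠ ⊥ := mem_nonZeroDivisors_iff_ne_zero.1 hJ'
  have hJc' : cla J hJ = c⁻¹ := hJc
  obtain ⟨j, hj⟩ := card_quot_pow hodd hJ
  obtain ⟨M₀, h0, h1⟩ := card_W_mul (g := g) hodd hJ
  have hq := one_lt_card (k := k)
  have h3 : Nat.card kˣ = Nat.card k - 1 := by
    have := Fintype.ofFinite k
    rw [Nat.card_eq_fintype_card, Nat.card_eq_fintype_card, Fintype.card_units]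
  refine ⟨M₀ + g + 1, fun n hn => ?_⟩
  have hW : Nat.card (W D g (n + j) J) = Nat.card k ^ (n + 1 - g) := by
    have h2 := h1 (n + j) (by omega)
    rw [hj] at h2
    have h4 : n + j + 1 - g = (n + 1 - g) + j := by omega
    rw [h4, pow_add] at h2
    exact Nat.eq_of_mul_eq_mul_right (pow_pos Nat.card_pos _) h2
  have hfin : ((W D g (n + j) J : Set (CR D))).Finite := by
    have : Finite ((W D g (n + j) J : Set (CR D)) : Type) := Nat.finite_of_card_ne_zero (by
      have : Nat.card ((W D g (n + j) J : Set (CR D)) : Type) = Nat.card k ^ (n + 1 - g) := hW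
      rw [this]
      exact pow_ne_zero _ (by omega))
    exact Set.toFinite _
  have hle : ∀ α ∈ J, α ≠ 0 → j ≤ dg α := by
    intro α hα hα0
    have hdvd : J ∣ Ideal.span {α} :=
      Ideal.dvd_iff_le.2 ((Ideal.span_singleton_le_iff_mem _).2 hα)
    obtain ⟨I, hI⟩ := hdvd
    have h5 := card_quot_span hm hg hα0
    rw [hI, mul_card, hj] at h5
    have h6 : Nat.card k ^ j ∣ Nat.card k ^ dg α := ⟨_, h5.symm⟩
    exact (Nat.pow_dvd_pow_iff_le_right hq).1 h6
  set S : Finset (CR D) := hfin.toFinset.erase 0 with hS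
  have h0S : (0 : CR D) ∈ hfin.toFinset := by
    rw [Set.Finite.mem_toFinset]
    exact (W D g (n + j) J).zero_mem
  have hcS : S.card + 1 = Nat.card k ^ (n + 1 - g) := by
    rw [hS, Finset.card_erase_add_one h0S, ← hW]
    exact (Set.ncard_eq_toFinset_card _ hfin).symm
  have hmemS : ∀ α, α ∈ S ↔ α ∈ J ∧ α ≠ 0 ∧ dg α ≤ n + j := by
    intro α
    rw [hS, Finset.mem_erase, Set.Finite.mem_toFinset, SetLike.mem_coe, mem_W, mem_V hm hg]
    constructor
    · rintro ⟨a, b | b, c⟩
      · exact absurd b a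
      · exact ⟨c, a, b⟩
    · rintro ⟨a, b, c⟩
      exact ⟨b, Or.inr c, a⟩
  have hfw := Finset.card_eq_sum_card_fiberwise (s := S) (t := Finset.range (n + 1))
    (f := fun α => dg α - j) (by
      intro α hα
      rw [Finset.mem_coe, hmemS] at hα
      rw [Finset.mem_coe, Finset.mem_range]
      show dg α - j < n + 1
      omega)
  rw [← hcS, hfw, Finset.sum_mul]
  congr 1
  refine Finset.sum_congr rfl fun m hm' => ?_
  rw [Finset.mem_range] at hm'
  rw [← h3, ← gen_bij hm hg hJ hJc' hj, ← Nat.card_eq_finsetCard]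
  refine Nat.card_congr (Equiv.subtypeEquivRight ?_)
  intro α
  rw [Finset.mem_filter, hmemS]
  constructor
  · rintro ⟨a, b, c⟩
    exact ⟨⟨a, b, by omega⟩, by omega⟩
  · rintro ⟨⟨a, b, c⟩, e⟩
    have := hle α a b
    exact ⟨a, b, by omega⟩

end

/-- **The number of ideals of norm at most `q ^ n`.** -/
theorem cum_count {k : Type} [Field k] [Finite k] (h2 : (2 : k) ≠ 0) {D : k[X]} (hm : D.Monic)
    {g : ℕ} (hg : D.natDegree = 2 * g + 1) (hsq : Squarefree D) [IsDedekindDomain (CR D)] :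
    ∃ M : ℕ, ∀ n, M ≤ n →
      (∑ m ∈ Finset.range (n + 1),
        Nat.card {I : Ideal (CR D) // Nat.card (CR D ⧸ I) = Nat.card k ^ m}) * (Nat.card k - 1) +
        Nat.card (ClassGroup (CR D)) = Nat.card (ClassGroup (CR D)) * Nat.card k ^ (n + 1 - g) := by
  classical
  obtain ⟨hfin, _, _⟩ := class_count h2 hm hg hsq
  have := Fintype.ofFinite (ClassGroup (CR D))
  have hodd : Odd D.natDegree := ⟨g, hg⟩
  obtain ⟨hfi, _⟩ := Pool.Agent.Y784.ZC.zeta_CR h2 hm hodd hsq
  choose M hM using fun c => cum_class (k := k) hm hg c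
  have htot : ∀ m, Nat.card {I : Ideal (CR D) // Nat.card (CR D ⧸ I) = Nat.card k ^ m} =
      ∑ c, Nat.card (Fib D c m) := by
    intro m
    let cl : {I : Ideal (CR D) // Nat.card (CR D ⧸ I) = Nat.card k ^ m} → ClassGroup (CR D) :=
      fun I => cla I.1 (ne_bot_of_card I.2)
    have hF : Finite {I : Ideal (CR D) // Nat.card (CR D ⧸ I) = Nat.card k ^ m} := hfi m
    rw [← Nat.card_congr (Equiv.sigmaFiberEquiv cl), Nat.card_sigma]
    refine Finset.sum_congr rfl fun c _ => ?_
    exact Nat.card_congr ⟨fun x => ⟨x.1.1, ne_bot_of_card x.1.2, x.2, x.1.2⟩,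
      fun x => ⟨⟨x.1, x.2.2.2⟩, x.2.2.1⟩, fun x => rfl, fun x => rfl⟩
  refine ⟨∑ c, M c, fun n hn => ?_⟩
  have hMm : ∀ c, M c ≤ n := fun c =>
    (Finset.single_le_sum (fun _ _ => Nat.zero_le _) (Finset.mem_univ c)).trans hn
  simp only [htot]
  rw [Finset.sum_comm, Finset.sum_mul, Nat.card_eq_fintype_card (α := ClassGroup (CR D)),
    ← Finset.card_univ, Finset.card_eq_sum_ones, ← Finset.sum_add_distrib, Finset.sum_mul]
  refine Finset.sum_congr rfl fun c _ => ?_
  rw [one_mul]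
  exact hM c n (hMm c)

end Pool.Agent.Y711
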