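import Mathlib

/-!
# Combination of finitely many primes, and almost all primes of a number field

The proofs are those of `Pool/Agent/Y188/NZ/Cnt.lean` (helper188) and `Pool/Agent/Y665/NZ/NF.lean`
(helper665), with fewer imports.
-/

set_option autoImplicit false

open Polynomial

namespace Pool.Agent.Y711.NF

/-- Monic polynomials of degree `m` over a finite ring. -/
theorem card_monic (B : Type) [CommRing B] [Nontrivial B] [Finite B] (m : ℕ) :
    Nat.card {p : B[X] // p.Monic ∧ p.natDegree = m} = Nat.card B ^ m ∧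
      Finite {p : B[X] // p.Monic ∧ p.natDegree = m} := by
  have e : {p : B[X] // p.Monic ∧ p.natDegree = m} ≃ (Fin m → B) :=
    (monicEquivDegreeLT m).trans (degreeLTEquiv B m).toEquiv
  refine ⟨?_, Finite.of_equiv _ e.symm⟩
  rw [Nat.card_congr e, Nat.card_fun, Nat.card_fin]

/-- The number of monic polynomials in a set and outside it. -/
theorem card_compl (B : Type) [CommRing B] [Nontrivial B] [Finite B] (m : ℕ) (S : Set B[X]) :
    ({E : B[X] | E.Monic ∧ E.natDegree = m ∧ E ∈ S}).ncard +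
      Nat.card {E : B[X] // E.Monic ∧ E.natDegree = m ∧ E ∉ S} = Nat.card B ^ m ∧
    Finite {E : B[X] // E.Monic ∧ E.natDegree = m ∧ E ∉ S} := by
  obtain ⟨h1, h2⟩ := card_monic B m
  have hfin : ({E : B[X] | E.Monic ∧ E.natDegree = m}).Finite := h2
  have h3 := Set.ncard_inter_add_ncard_sdiff_eq_ncard {E : B[X] | E.Monic ∧ E.natDegree = m} S hfin
  have e1 : {E : B[X] | E.Monic ∧ E.natDegree = m} ∩ S =
      {E : B[X] | E.Monic ∧ E.natDegree = m ∧ E ∈ S} := by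
    ext E
    simp only [Set.mem_inter_iff, Set.mem_ofPred_eq, and_assoc]
  have e2 : {E : B[X] | E.Monic ∧ E.natDegree = m} \ S =
      {E : B[X] | E.Monic ∧ E.natDegree = m ∧ E ∉ S} := by
    ext E
    simp only [Set.mem_sdiff, Set.mem_ofPred_eq, and_assoc]
  rw [e1, e2] at h3
  have h4 : ({E : B[X] | E.Monic ∧ E.natDegree = m}).ncard = Nat.card B ^ m := by
    rw [← h1]
    exact (Nat.card_coe_set_eq _).symm
  refine ⟨?_, ?_⟩
  · rw [← h4, ← h3]
    congr 1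
  · have h5 : ({E : B[X] | E.Monic ∧ E.natDegree = m ∧ E ∉ S}).Finite :=
      hfin.subset fun E hE => ⟨hE.1, hE.2.1⟩
    exact h5

/-- Combination of finitely many primes. -/
theorem crt_count (A : Type) [CommRing A] (r : ℕ) (hr : 1 ≤ r) (I : Fin r → Ideal A)
    (hI : ∀ i, (I i).IsMaximal) (hne : ∀ i j, i ≠ j → I i ≠ I j) (hfin : ∀ i, Finite (A ⧸ I i))
    (m : ℕ) (G : ∀ i, Set (A ⧸ I i)[X]) (c : ℝ) (hc0 : 0 ≤ c) (hc1 : c ≤ 1)
    (hG : ∀ i, c * (Nat.card (A ⧸ I i) : ℝ) ^ m ≤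
      (({E : (A ⧸ I i)[X] | E.Monic ∧ E.natDegree = m ∧ E ∈ G i}).ncard : ℝ)) :
    (1 - (1 - c) ^ r) * (Nat.card (A ⧸ (⨅ i, I i)) : ℝ) ^ m ≤
      (({E : (A ⧸ (⨅ i, I i))[X] | E.Monic ∧ E.natDegree = m ∧ ∃ i, ∀ D : A[X],
        D.map (Ideal.Quotient.mk (⨅ i, I i)) = E →
          D.map (Ideal.Quotient.mk (I i)) ∈ G i}).ncard : ℝ) := by
  have hI' : ∀ i, Nontrivial (A ⧸ I i) := fun i => Ideal.Quotient.nontrivial_iff.2 (hI i).ne_top
  have hcop : Pairwise (Function.onFun IsCoprime I) := by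
    intro i j hij
    exact Ideal.isCoprime_iff_sup_eq.2 ((hI i).coprime_of_ne (hI j) (hne i j hij))
  have hbij : Function.Bijective (Ideal.quotientInfToPiQuotient I) :=
    ⟨Ideal.quotientInfToPiQuotient_inj I, Ideal.quotientInfToPiQuotient_surj hcop⟩
  set i0 : Fin r := ⟨0, hr⟩ with hi0
  have hBf : Finite (A ⧸ (⨅ i, I i)) := Finite.of_injective _ hbij.1
  have hBn : Nontrivial (A ⧸ (⨅ i, I i)) := by
    exact ((Pi.evalRingHom (fun i => A ⧸ I i) i0).comp
      (Ideal.quotientInfToPiQuotient I)).domain_nontrivial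
  have hcard : Nat.card (A ⧸ (⨅ i, I i)) = ∏ i, Nat.card (A ⧸ I i) := by
    rw [Nat.card_congr (Equiv.ofBijective _ hbij), Nat.card_pi]
  set M : Ideal A := ⨅ i, I i with hM
  let f : ∀ i, (A ⧸ M) →+* (A ⧸ I i) := fun i =>
    (Pi.evalRingHom (fun i => A ⧸ I i) i).comp (Ideal.quotientInfToPiQuotient I)
  have hf : ∀ i, (f i).comp (Ideal.Quotient.mk M) = Ideal.Quotient.mk (I i) := fun i => rfl
  set S : Set (A ⧸ M)[X] := {E | ∃ i, ∀ D : A[X],
    D.map (Ideal.Quotient.mk M) = E → D.map (Ideal.Quotient.mk (I i)) ∈ G i} with hS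
  have hnot : ∀ E : (A ⧸ M)[X], E ∉ S → ∀ i, E.map (f i) ∉ G i := by
    intro E hE i hEi
    apply hE
    refine ⟨i, fun D hD => ?_⟩
    rw [← hf i, ← Polynomial.map_map, hD]
    exact hEi
  obtain ⟨hc, hcf⟩ := card_compl (A ⧸ M) m S
  have hci := fun i => card_compl (A ⧸ I i) m (G i)
  let F : {E : (A ⧸ M)[X] // E.Monic ∧ E.natDegree = m ∧ E ∉ S} →
      ∀ i, {E : (A ⧸ I i)[X] // E.Monic ∧ E.natDegree = m ∧ E ∉ G i} := fun E i =>
    ⟨E.1.map (f i), E.2.1.map _, by rw [E.2.1.natDegree_map, E.2.2.1], hnot E.1 E.2.2.2 i⟩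
  have hF : Function.Injective F := by
    intro E E' h
    refine Subtype.ext (Polynomial.ext fun j => hbij.1 ?_)
    funext i
    have h1 : E.1.map (f i) = E'.1.map (f i) := congrArg Subtype.val (congrFun h i)
    have h2 : (E.1.map (f i)).coeff j = (E'.1.map (f i)).coeff j := by rw [h1]
    rw [coeff_map, coeff_map] at h2
    exact h2
  have := fun i => (hci i).2
  have h1 : Nat.card {E : (A ⧸ M)[X] // E.Monic ∧ E.natDegree = m ∧ E ∉ S} ≤
      ∏ i, Nat.card {E : (A ⧸ I i)[X] // E.Monic ∧ E.natDegree = m ∧ E ∉ G i} := by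
    rw [← Nat.card_pi]
    exact Nat.card_le_card_of_injective F hF
  have h2 : ∀ i, ((Nat.card {E : (A ⧸ I i)[X] // E.Monic ∧ E.natDegree = m ∧ E ∉ G i} : ℕ) : ℝ) ≤
      (1 - c) * (Nat.card (A ⧸ I i) : ℝ) ^ m := by
    intro i
    have h3 : ((({E : (A ⧸ I i)[X] | E.Monic ∧ E.natDegree = m ∧ E ∈ G i}).ncard : ℕ) : ℝ) +
        ((Nat.card {E : (A ⧸ I i)[X] // E.Monic ∧ E.natDegree = m ∧ E ∉ G i} : ℕ) : ℝ) =
        (Nat.card (A ⧸ I i) : ℝ) ^ m := by
      exact_mod_cast (hci i).1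
    have h4 := hG i
    linarith
  have h3 : ((Nat.card {E : (A ⧸ M)[X] // E.Monic ∧ E.natDegree = m ∧ E ∉ S} : ℕ) : ℝ) ≤
      (1 - c) ^ r * (Nat.card (A ⧸ M) : ℝ) ^ m := by
    calc ((Nat.card {E : (A ⧸ M)[X] // E.Monic ∧ E.natDegree = m ∧ E ∉ S} : ℕ) : ℝ) ≤
          ∏ i, ((Nat.card {E : (A ⧸ I i)[X] // E.Monic ∧ E.natDegree = m ∧ E ∉ G i} : ℕ) : ℝ) := by
          exact_mod_cast h1
      _ ≤ ∏ i, ((1 - c) * (Nat.card (A ⧸ I i) : ℝ) ^ m) :=
          Finset.prod_le_prod (fun i _ => Nat.cast_nonneg _) fun i _ => h2 i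
      _ = (1 - c) ^ r * (Nat.card (A ⧸ M) : ℝ) ^ m := by
          rw [Finset.prod_mul_distrib, Finset.prod_const, Finset.card_univ, Fintype.card_fin,
            Finset.prod_pow, hcard]
          push_cast
          rfl
  have h4 : ((({E : (A ⧸ M)[X] | E.Monic ∧ E.natDegree = m ∧ E ∈ S}).ncard : ℕ) : ℝ) +
      ((Nat.card {E : (A ⧸ M)[X] // E.Monic ∧ E.natDegree = m ∧ E ∉ S} : ℕ) : ℝ) =
      (Nat.card (A ⧸ M) : ℝ) ^ m := by
    exact_mod_cast hc
  have h5 : (1 - (1 - c) ^ r) * (Nat.card (A ⧸ M) : ℝ) ^ m ≤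
      ((({E : (A ⧸ M)[X] | E.Monic ∧ E.natDegree = m ∧ E ∈ S}).ncard : ℕ) : ℝ) := by
    linarith
  exact h5


open IsDedekindDomain NumberField

section

variable {k : Type} [Field k] [NumberField k]

lemma fin_mem {c : 𝓞 k} (hc : c ≠ 0) :
    {P : HeightOneSpectrum (𝓞 k) | c ∈ P.asIdeal}.Finite := by
  have h := Ideal.finite_factors (I := Ideal.span {c}) (by
    rw [Ne, Ideal.zero_eq_bot, Ideal.span_singleton_eq_bot]; exact hc)
  exact h.subset fun P hP => Ideal.dvd_span_singleton.2 hP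

lemma fin_norm (X : ℕ) :
    {P : HeightOneSpectrum (𝓞 k) | Ideal.absNorm P.asIdeal ≤ X}.Finite := by
  have h := Ideal.finite_setOfPred_absNorm_le (S := 𝓞 k) X
  refine Set.Finite.of_finite_image (f := fun P : HeightOneSpectrum (𝓞 k) => P.asIdeal)
    (h.subset ?_) ?_
  · rintro _ ⟨P, hP, rfl⟩
    exact hP
  · intro P _ Q _ hPQ
    exact HeightOneSpectrum.ext hPQ

/-- the Bezout identity over the ring of integers -/
lemma bezout {f : (𝓞 k)[X]} (hf : Squarefree (f.map (algebraMap (𝓞 k) k))) :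
    ∃ (c : 𝓞 k) (A B : (𝓞 k)[X]), c ≠ 0 ∧ A * f + B * derivative f = C c := by
  have hs : (f.map (algebraMap (𝓞 k) k)).Separable := PerfectField.separable_iff_squarefree.2 hf
  obtain ⟨A, B, hAB⟩ := hs
  obtain ⟨a, ham, ha⟩ := IsLocalization.integerNormalization_spec (nonZeroDivisors (𝓞 k)) A
  obtain ⟨b, hbm, hb⟩ := IsLocalization.integerNormalization_spec (nonZeroDivisors (𝓞 k)) B
  have ha0 : (a : 𝓞 k) ≠ 0 := nonZeroDivisors.ne_zero ham
  have hb0 : (b : 𝓞 k) ≠ 0 := nonZeroDivisors.ne_zero hbm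
  set A0 := IsLocalization.integerNormalization (nonZeroDivisors (𝓞 k)) A
  set B0 := IsLocalization.integerNormalization (nonZeroDivisors (𝓞 k)) B
  refine ⟨(a : 𝓞 k) * b, C (b : 𝓞 k) * A0, C (a : 𝓞 k) * B0, mul_ne_zero ha0 hb0, ?_⟩
  apply Polynomial.map_injective _ (RingOfIntegers.coe_injective (K := k))
  have ha' : A0.map (algebraMap (𝓞 k) k) = C (algebraMap (𝓞 k) k a) * A := by
    rw [ha, ← algebraMap_smul k (a : 𝓞 k) A, smul_eq_C_mul]
  have hb' : B0.map (algebraMap (𝓞 k) k) = C (algebraMap (𝓞 k) k b) * B := by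
    rw [hb, ← algebraMap_smul k (b : 𝓞 k) B, smul_eq_C_mul]
  have h1 : (C (b : 𝓞 k) * A0 * f + C (a : 𝓞 k) * B0 * derivative f).map (algebraMap (𝓞 k) k) =
      (C ((a : 𝓞 k) * b)).map (algebraMap (𝓞 k) k) := by
    rw [Polynomial.map_add, Polynomial.map_mul, Polynomial.map_mul, Polynomial.map_mul,
      Polynomial.map_mul, ha', hb', ← derivative_map, Polynomial.map_C, Polynomial.map_C,
      Polynomial.map_C, map_mul, C_mul]
    linear_combination (C (algebraMap (𝓞 k) k a) * C (algebraMap (𝓞 k) k b)) * hAB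
  exact h1

lemma sqf_red {f : (𝓞 k)[X]} {c : 𝓞 k} {A B : (𝓞 k)[X]} (h : A * f + B * derivative f = C c)
    (P : HeightOneSpectrum (𝓞 k)) (hc : c ∉ P.asIdeal) :
    Squarefree (f.map (Ideal.Quotient.mk P.asIdeal)) := by
  let _ := Ideal.Quotient.field P.asIdeal
  have hc' : Ideal.Quotient.mk P.asIdeal c ≠ 0 := by
    rw [Ne, Ideal.Quotient.eq_zero_iff_mem]
    exact hc
  apply Polynomial.Separable.squarefree
  have h1 := congrArg (Polynomial.map (Ideal.Quotient.mk P.asIdeal)) h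
  rw [Polynomial.map_add, Polynomial.map_mul, Polynomial.map_mul, ← derivative_map,
    Polynomial.map_C] at h1
  have h2 : C (Ideal.Quotient.mk P.asIdeal c)⁻¹ * C (Ideal.Quotient.mk P.asIdeal c) =
      (1 : (𝓞 k ⧸ P.asIdeal)[X]) := by
    rw [← C_mul, inv_mul_cancel₀ hc', C_1]
  refine ⟨C (Ideal.Quotient.mk P.asIdeal c)⁻¹ * A.map (Ideal.Quotient.mk P.asIdeal),
    C (Ideal.Quotient.mk P.asIdeal c)⁻¹ * B.map (Ideal.Quotient.mk P.asIdeal), ?_⟩
  rw [← h2, ← h1]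
  ring


end

end Pool.Agent.Y711.NF
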