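import Pool.Agent.Y711.DR6

/-!
The L-functions of the double covers of families of varieties.
-/

set_option autoImplicit false
set_option maxHeartbeats 1000000
set_option synthInstance.maxHeartbeats 400000

open Polynomial
open scoped TensorProduct

namespace Pool.Agent.Y711

open Pool.Agent.TH943.HJ Pool.Agent.W313.Hyp Pool.Agent.W343.BSD Pool.Agent.Y784.FC

section

variable {k : Type} [Field k] [Finite k]

theorem fibS_dvd {B : Type} [CommRing B] [Algebra k[X] B] [Module.Finite k[X] B]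
    {R : Type} [CommRing R] [Algebra B R] [Algebra.FiniteType B R] (v : Ideal B)
    [hv : v.IsMaximal] (x : R) :
    (PowerSeries.X : PowerSeries ℤ) ^ dgM k v ∣ fibS k v x - 1 := by
  let _ : Field (B ⧸ v) := Ideal.Quotient.field v
  have hfin := finite_quot k v
  have hft : Algebra.FiniteType (B ⧸ v) (SV R v) := Algebra.FiniteType.baseChange (B ⧸ v)
  have hd := dg_pos (k := k) v
  have hpos : ∀ 𝔮 : MxS R v, 0 < Nat.log (Nat.card (B ⧸ v)) (Nat.card (SV R v ⧸ 𝔮.1)) := by
    intro 𝔮
    have hq := 𝔮.2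
    rw [log_res (K := B ⧸ v) 𝔮.1]
    exact finrank_res_pos (K := B ⧸ v) 𝔮.1
  have hf : ∀ n, {𝔮 : MxS R v | dgM k v *
      Nat.log (Nat.card (B ⧸ v)) (Nat.card (SV R v ⧸ 𝔮.1)) ≤ n}.Finite := by
    intro n
    refine (finite_max_deg (K := B ⧸ v) (A := SV R v) n).subset fun 𝔮 hQ => ?_
    exact (Nat.le_mul_of_pos_left _ hd).trans hQ
  exact euler_one_mod hf (fun 𝔮 => one_sub_dvd _ _) (dgM k v) (fun 𝔮 =>
    (pow_dvd_pow _ (Nat.le_mul_of_pos_right _ (hpos 𝔮))).trans (one_sub_dvd _ _))

theorem double_ext (h2 : (2 : k) ≠ 0) (h3 : (3 : k) ≠ 0) {m : k[X]} {g : ℕ} {D : k[X]}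
    (hD : IsD g m D) [IsDedekindDomain (CR D)] (hh : ¬ 3 ∣ Nat.card (ClassGroup (CR D)))
    {B : Type} [CommRing B] [IsDedekindDomain B] [Algebra k[X] B] [Module.Finite k[X] B]
    [Module.Flat k[X] B] (G : Type) [Group G] [Finite G] [MulSemiringAction G B]
    [IsGaloisGroup G k[X] B] {j : ℕ} (hG : Nat.card G = 3 ^ j)
    (hram : ∀ 𝔓 : Ideal B, 𝔓.IsMaximal → 𝔓.ramificationIdx k[X] ≠ 1 →
      quadSym (algebraMap k[X] (B ⧸ 𝔓) D) ≠ 1) {a b a' b' : ℕ}
    {R : Type} [CommRing R] [Algebra B R] [Algebra.FiniteType B R] {h : R}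
    (hu : IsUnipotentDouble a b a' b' h (algebraMap k[X] B m)) (i : ℕ) :
    UnitAt k i (doubleSeries k (algebraMap B R (algebraMap k[X] B D) * h)) := by
  rw [double_nested]
  refine no_zero_AB G h2 h3 hG hD hh ?_ a b a' b' _ (fun v => ?_) (fun v => ?_) i
  · intro P hP
    obtain ⟨𝔓⟩ := (inferInstance : Nonempty ((sp P).primesOver B))
    obtain ⟨𝔓, h𝔓⟩ := 𝔓
    rw [primesOver_eq] at h𝔓
    obtain ⟨hmax, hov⟩ := h𝔓
    rw [Ideal.ramificationIdxIn_eq_ramificationIdx (sp P) 𝔓 G] at hP
    have h1 := hram 𝔓 hmax hP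
    obtain ⟨i, hi⟩ := f_pow G (B := B) hG P
    rw [Ideal.inertiaDegIn_eq_inertiaDeg (sp P) 𝔓 G] at hi
    have hodd : Odd (𝔓.inertiaDeg k[X]) := by
      rw [hi]
      exact Odd.pow (by decide)
    have h4 := qs_over h2 𝔓 P hodd D
    rw [← h4]
    rw [quadSym_eq] at h1
    exact h1
  · have hmax := v.2.1
    exact fibS_dvd v.1 _
  · have hmax := v.2.1
    refine fib_rel h2 hu D v.1 ?_
    intro h0
    apply v.2.2
    rw [← Ideal.Quotient.eq_zero_iff_mem]
    obtain ⟨e, he⟩ := hD.dvd
    have h5 : Ideal.Quotient.mk v.1 (algebraMap k[X] B m) = 0 := h0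
    have h6 := congrArg (fun z => Ideal.Quotient.mk v.1 (algebraMap k[X] B z)) he
    refine h6.trans ?_
    show Ideal.Quotient.mk v.1 (algebraMap k[X] B (m * e)) = 0
    rw [map_mul (algebraMap k[X] B) m e, map_mul (Ideal.Quotient.mk v.1), h5, zero_mul]

/-- nonvanishing over an admissible extension -/
theorem double_nonvanish (L : Type) [Field L] [Algebra k[X] L] [Algebra (RatFunc k) L]
    [IsScalarTower k[X] (RatFunc k) L] (h2 : (2 : k) ≠ 0) (h3 : (3 : k) ≠ 0)
    {m : k[X]} {g : ℕ} {D : k[X]} (hD : IsD g m D)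
    [IsDedekindDomain (CR D)] (hh : ¬ 3 ∣ Nat.card (ClassGroup (CR D)))
    (hL : IsThreeExtension D L) {a b a' b' : ℕ} {R : Type} [CommRing R]
    [Algebra (integralClosure k[X] L) R] [Algebra.FiniteType (integralClosure k[X] L) R] {h : R}
    (hu : IsUnipotentDouble a b a' b' h (algebraMap k[X] (integralClosure k[X] L) m)) (i : ℕ) :
    UnitAt k i (doubleSeries k
      (algebraMap (integralClosure k[X] L) R (algebraMap k[X] (integralClosure k[X] L) D) * h)) := by
  have hgal := hL.galois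
  obtain ⟨j, hj⟩ := hL.degree
  have hfd : FiniteDimensional (RatFunc k) L := by
    apply FiniteDimensional.of_finrank_pos
    rw [hj]
    positivity
  have i1 := fin_ic (k := k) L
  have i2 := flat_ic (k := k) L
  have i3 := gal_ic (k := k) L
  have i4 : IsDedekindDomain (integralClosure k[X] L) :=
    integralClosure.isDedekindDomain k[X] (RatFunc k) L
  refine double_ext h2 h3 hD hh Gal(L/RatFunc k) (j := j) ?_ hL.ramified hu i
  rw [← hj]
  exact IsGalois.card_aut_eq_finrank _ _

end

/-- **Half of the twists in every class, for all double covers of all families.** -/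
theorem double_half {k : Type} [Field k] [Finite k] (h2 : (2 : k) ≠ 0) (h3 : (3 : k) ≠ 0)
    {m n a : k[X]} (hm : m.Monic) (hn : n.Monic) (hs : Squarefree (m * n)) (ha : IsCoprime n a)
    {δ : ℝ} (hδ : δ < 1 / 2) :
    ∃ N : ℕ, ∀ g ≥ N, δ * (twistClass g m n a).ncard ≤
      {D : k[X] | D ∈ twistClass g m n a ∧
        ∀ (L : Type) [Field L] [Algebra k[X] L] [Algebra (RatFunc k) L]
          [IsScalarTower k[X] (RatFunc k) L], IsThreeExtension D L →
        ∀ (b c b' c' : ℕ) (R : Type) [CommRing R] [Algebra (integralClosure k[X] L) R]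
          [Algebra.FiniteType (integralClosure k[X] L) R] (h : R),
          IsUnipotentDouble b c b' c' h (algebraMap k[X] (integralClosure k[X] L) m) →
            ∀ j : ℕ, UnitAt k j (doubleSeries k (algebraMap (integralClosure k[X] L) R
              (algebraMap k[X] (integralClosure k[X] L) D) * h))}.ncard := by
  refine class_half h2 hm hn hs ha (fun _ D =>
        ∀ (L : Type) [Field L] [Algebra k[X] L] [Algebra (RatFunc k) L]
          [IsScalarTower k[X] (RatFunc k) L], IsThreeExtension D L →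
        ∀ (b c b' c' : ℕ) (R : Type) [CommRing R] [Algebra (integralClosure k[X] L) R]
          [Algebra.FiniteType (integralClosure k[X] L) R] (h : R),
          IsUnipotentDouble b c b' c' h (algebraMap k[X] (integralClosure k[X] L) m) →
            ∀ j : ℕ, UnitAt k j (doubleSeries k (algebraMap (integralClosure k[X] L) R
              (algebraMap k[X] (integralClosure k[X] L) D) * h))) ?_ hδ
  intro g D hD hB L _ _ _ _ hL b c b' c' R _ _ _ h hu j
  have hD' := IsD_iff.2 hD.1
  have hodd : Odd D.natDegree := by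
    rw [hD'.deg]
    exact ⟨g, rfl⟩
  have hded : IsDedekindDomain (CR D) := dedekind h2 hodd hD'.sqf
  exact double_nonvanish L h2 h3 hD' (fun h => hB ⟨hded, h⟩) hL hu j

end Pool.Agent.Y711
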