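import Pool.Agent.Y711.DefN
import Pool.Agent.Y711.DR7
import Pool.Agent.Y785.NZ.Cnt

/-!
# A uniform proportion over finite fields
-/

set_option autoImplicit false

open Polynomial
open scoped Classical

namespace Pool.Agent.Y711

theorem uniform {k : Type} [Field k] [Finite k] (h2 : (2 : k) ≠ 0) (h3 : (3 : k) ≠ 0)
    {m : k[X]} (hm : m.Monic) (hs : Squarefree m) (h8 : 8 * (m.natDegree + 1) ≤ Nat.card k) :
    ∃ N : ℕ, ∀ d ≥ N, Odd (m.natDegree + d) →
      (1 / 8 : ℝ) * (Nat.card k : ℝ) ^ d ≤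
        {E : k[X] | E.Monic ∧ E.natDegree = d ∧ IsGoodTwist k m (m * E)}.ncard := by
  have : Fintype k := Fintype.ofFinite k
  obtain ⟨N, hN⟩ := double_half h2 h3 (n := 1) (a := 1) hm monic_one (by rwa [mul_one])
    isCoprime_one_left (δ := 1 / 4) (by norm_num)
  refine ⟨2 * N + 1, fun d hd hodd => ?_⟩
  obtain ⟨g, hg⟩ := hodd
  have hgN : g ≥ N := by omega
  have h := hN g hgN
  -- the class is large
  have hfin : {E : k[X] | E.Monic ∧ E.natDegree = d}.Finite :=
    Pool.Agent.Y785.NZ.MS_fin (F := k) d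
  have hcl : twistClass g m 1 1 ⊆ (fun E => m * E) '' {E : k[X] | E.Monic ∧ E.natDegree = d} := by
    rintro D ⟨⟨hD1, hD2, -, E, rfl⟩, -⟩
    have hE : E.Monic := hm.of_mul_monic_left hD1
    refine ⟨E, ⟨hE, ?_⟩, rfl⟩
    rw [hm.natDegree_mul hE] at hD2
    omega
  have hclf : (twistClass g m 1 1).Finite := (hfin.image _).subset hcl
  have hinj : Function.Injective (fun E : k[X] => m * E) := fun E E' h' =>
    mul_left_cancel₀ hm.ne_zero h'
  have hbig : (Nat.card k) ^ d ≤ 2 * (twistClass g m 1 1).ncard := by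
    have h9 := Pool.Agent.Y785.NZ.main (F := k) hm.ne_zero
      (by rw [← Nat.card_eq_fintype_card]; exact h8) d
    rw [← Nat.card_eq_fintype_card] at h9
    refine h9.trans (Nat.mul_le_mul_left _ ?_)
    rw [← Set.ncard_coe_finset, ← Set.ncard_image_of_injective _ hinj]
    refine Set.ncard_le_ncard ?_ hclf
    rintro _ ⟨E, hE, rfl⟩
    rw [Finset.mem_coe, Finset.mem_filter, Pool.Agent.Y785.NZ.mem_MF] at hE
    obtain ⟨⟨hE1, hE2⟩, hE3, hE4⟩ := hE
    have hcop : IsCoprime E m := Pool.Agent.Y785.NZ.cop_of hE1.ne_zero dvd_rfl hE4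
    refine ⟨⟨hm.mul hE1, ?_, ?_, dvd_mul_right _ _⟩, ?_⟩
    · rw [hm.natDegree_mul hE1, hE2]
      omega
    · exact squarefree_mul_iff.2 ⟨hcop.symm.isRelPrime, hs, hE3⟩
    · intro P _ hP hP1
      exact absurd (isUnit_of_dvd_one hP1) hP.not_isUnit
  -- the good ones
  have hgood : ({D : k[X] | D ∈ twistClass g m 1 1 ∧ IsGoodTwist k m D}).ncard ≤
      ({E : k[X] | E.Monic ∧ E.natDegree = d ∧ IsGoodTwist k m (m * E)}).ncard := by
    have hf2 : ({E : k[X] | E.Monic ∧ E.natDegree = d ∧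
        IsGoodTwist k m (m * E)}).Finite := hfin.subset fun E hE => ⟨hE.1, hE.2.1⟩
    rw [← Set.ncard_image_of_injective {E : k[X] | E.Monic ∧ E.natDegree = d ∧
      IsGoodTwist k m (m * E)} hinj]
    refine Set.ncard_le_ncard ?_ (hf2.image _)
    rintro D ⟨hD, hD'⟩
    obtain ⟨E, ⟨hE1, hE2⟩, rfl⟩ := hcl hD
    exact ⟨E, ⟨hE1, hE2, hD'⟩, rfl⟩
  have h' : (1 / 4 : ℝ) * ((twistClass g m 1 1).ncard : ℝ) ≤
      (({D : k[X] | D ∈ twistClass g m 1 1 ∧ IsGoodTwist k m D}).ncard : ℝ) := by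
    refine h.trans ?_
    have h6 : ({D : k[X] | D ∈ twistClass g m 1 1 ∧ IsGoodTwist k m D}).Finite :=
      hclf.subset fun D hD => hD.1
    have h7 := Set.ncard_le_ncard (s := {D : k[X] | D ∈ twistClass g m 1 1 ∧
      ∀ (L : Type) [Field L] [Algebra k[X] L] [Algebra (RatFunc k) L]
        [IsScalarTower k[X] (RatFunc k) L], IsThreeExtension D L →
      ∀ (b c b' c' : ℕ) (R : Type) [CommRing R] [Algebra (integralClosure k[X] L) R]
        [Algebra.FiniteType (integralClosure k[X] L) R] (h : R),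
        IsUnipotentDouble b c b' c' h (algebraMap k[X] (integralClosure k[X] L) m) →
          ∀ j : ℕ, UnitAt k j (doubleSeries k (algebraMap (integralClosure k[X] L) R
            (algebraMap k[X] (integralClosure k[X] L) D) * h))})
      (t := {D : k[X] | D ∈ twistClass g m 1 1 ∧ IsGoodTwist k m D}) (by
        rintro D ⟨hD1, hD2⟩
        exact ⟨hD1, hD1.1.2.2.1, hD2⟩) h6
    exact_mod_cast h7
  have h4 : ((Nat.card k : ℝ)) ^ d ≤ 2 * ((twistClass g m 1 1).ncard : ℝ) := by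
    exact_mod_cast hbig
  have h5 : (({D : k[X] | D ∈ twistClass g m 1 1 ∧ IsGoodTwist k m D}).ncard : ℝ) ≤
      (({E : k[X] | E.Monic ∧ E.natDegree = d ∧ IsGoodTwist k m (m * E)}).ncard : ℝ) := by
    exact_mod_cast hgood
  linarith

end Pool.Agent.Y711
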