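import Pool.Agent.Y711.DN0
import Pool.Agent.Y711.DN1

/-!
# Transfer to number fields
-/

set_option autoImplicit false

open Polynomial IsDedekindDomain NumberField

namespace Pool.Agent.Y711

variable {K : Type} [Field K] [NumberField K]

/-- the good residue classes at one prime -/
theorem at_prime (P : HeightOneSpectrum (𝓞 K)) {m : (𝓞 K)[X]} (hm : m.Monic)
    (h2 : (2 : 𝓞 K) ∉ P.asIdeal) (h3 : (3 : 𝓞 K) ∉ P.asIdeal)
    (hs : Squarefree (m.map (Ideal.Quotient.mk P.asIdeal)))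
    (h8 : 8 * (m.natDegree + 1) ≤ Nat.card (𝓞 K ⧸ P.asIdeal)) :
    ∃ N : ℕ, ∀ d ≥ N, Odd (m.natDegree + d) →
      (1 / 8 : ℝ) * (Nat.card (𝓞 K ⧸ P.asIdeal) : ℝ) ^ d ≤
        ({E : (𝓞 K ⧸ P.asIdeal)[X] | E.Monic ∧ E.natDegree = d ∧
          E ∈ {E : (𝓞 K ⧸ P.asIdeal)[X] | IsGoodTwist P.asIdeal.ResidueField
            (m.map (algebraMap (𝓞 K) P.asIdeal.ResidueField))
            (m.map (algebraMap (𝓞 K) P.asIdeal.ResidueField) *
              E.map (algebraMap (𝓞 K ⧸ P.asIdeal) P.asIdeal.ResidueField))}}).ncard := by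
  have hfin : Finite (𝓞 K ⧸ P.asIdeal) := Ideal.finiteQuotientOfFreeOfNeBot P.asIdeal P.ne_bot
  have hmax : P.asIdeal.IsMaximal := P.isMaximal
  have hbij : Function.Bijective (algebraMap (𝓞 K ⧸ P.asIdeal) P.asIdeal.ResidueField) :=
    P.asIdeal.bijective_algebraMap_quotient_residueField
  have hfin' : Finite P.asIdeal.ResidueField := Finite.of_surjective _ hbij.2
  have hcard : Nat.card (𝓞 K ⧸ P.asIdeal) = Nat.card P.asIdeal.ResidueField :=
    Nat.card_congr (Equiv.ofBijective _ hbij)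
  have hz : ∀ x : 𝓞 K, x ∉ P.asIdeal → algebraMap (𝓞 K) P.asIdeal.ResidueField x ≠ 0 := by
    intro x hx h0
    rw [IsScalarTower.algebraMap_apply (𝓞 K) (𝓞 K ⧸ P.asIdeal) P.asIdeal.ResidueField] at h0
    have h1 := hbij.1 (h0.trans (map_zero _).symm)
    exact hx (Ideal.Quotient.eq_zero_iff_mem.1 h1)
  have h2' : (2 : P.asIdeal.ResidueField) ≠ 0 := by
    have := hz 2 h2
    rwa [map_ofNat] at this
  have h3' : (3 : P.asIdeal.ResidueField) ≠ 0 := by
    have := hz 3 h3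
    rwa [map_ofNat] at this
  set e : (𝓞 K ⧸ P.asIdeal) ≃+* P.asIdeal.ResidueField := RingEquiv.ofBijective _ hbij with he
  have hmm : m.map (algebraMap (𝓞 K) P.asIdeal.ResidueField) =
      (m.map (Ideal.Quotient.mk P.asIdeal)).map (algebraMap (𝓞 K ⧸ P.asIdeal)
        P.asIdeal.ResidueField) := by
    rw [Polynomial.map_map]
    rfl
  have hs' : Squarefree (m.map (algebraMap (𝓞 K) P.asIdeal.ResidueField)) := by
    rw [hmm]
    have h5 : (m.map (Ideal.Quotient.mk P.asIdeal)).map (algebraMap (𝓞 K ⧸ P.asIdeal)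
        P.asIdeal.ResidueField) = Polynomial.mapEquiv e (m.map (Ideal.Quotient.mk P.asIdeal)) := rfl
    rw [h5]
    intro x hx
    have h6 := map_dvd (Polynomial.mapEquiv e).symm hx
    rw [map_mul, RingEquiv.symm_apply_apply] at h6
    have h7 := (hs _ h6).map (Polynomial.mapEquiv e)
    rwa [RingEquiv.apply_symm_apply] at h7
  have hdeg : (m.map (algebraMap (𝓞 K) P.asIdeal.ResidueField)).natDegree = m.natDegree :=
    hm.natDegree_map _
  obtain ⟨N, hN⟩ := uniform h2' h3' (hm.map (algebraMap (𝓞 K) P.asIdeal.ResidueField)) hs'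
    (by rw [hdeg, ← hcard]; exact h8)
  refine ⟨N, fun d hd hodd => ?_⟩
  have h := hN d hd (by rwa [hdeg])
  rw [hcard]
  refine h.trans ?_
  have hfs : ({E : (𝓞 K ⧸ P.asIdeal)[X] | E.Monic ∧ E.natDegree = d ∧
          E ∈ {E : (𝓞 K ⧸ P.asIdeal)[X] | IsGoodTwist P.asIdeal.ResidueField
            (m.map (algebraMap (𝓞 K) P.asIdeal.ResidueField))
            (m.map (algebraMap (𝓞 K) P.asIdeal.ResidueField) *
              E.map (algebraMap (𝓞 K ⧸ P.asIdeal) P.asIdeal.ResidueField))}}).Finite := by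
    have hnt : Nontrivial (𝓞 K ⧸ P.asIdeal) := Ideal.Quotient.nontrivial_iff.2 hmax.ne_top
    have h6 : ({E : (𝓞 K ⧸ P.asIdeal)[X] | E.Monic ∧ E.natDegree = d}).Finite :=
      (NF.card_monic (𝓞 K ⧸ P.asIdeal) d).2
    exact h6.subset fun E hE => ⟨hE.1, hE.2.1⟩
  have hle : ({E : P.asIdeal.ResidueField[X] | E.Monic ∧ E.natDegree = d ∧
      IsGoodTwist P.asIdeal.ResidueField
        (m.map (algebraMap (𝓞 K) P.asIdeal.ResidueField))
        (m.map (algebraMap (𝓞 K) P.asIdeal.ResidueField) * E)}).ncard ≤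
      ({E : (𝓞 K ⧸ P.asIdeal)[X] | E.Monic ∧ E.natDegree = d ∧
          E ∈ {E : (𝓞 K ⧸ P.asIdeal)[X] | IsGoodTwist P.asIdeal.ResidueField
            (m.map (algebraMap (𝓞 K) P.asIdeal.ResidueField))
            (m.map (algebraMap (𝓞 K) P.asIdeal.ResidueField) *
              E.map (algebraMap (𝓞 K ⧸ P.asIdeal) P.asIdeal.ResidueField))}}).ncard := by
    refine le_trans (Set.ncard_le_ncard ?_ (hfs.image fun E =>
      E.map (algebraMap (𝓞 K ⧸ P.asIdeal) P.asIdeal.ResidueField))) (Set.ncard_image_le hfs)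
    rintro E ⟨hE1, hE2, hE3⟩
    have h7 : (E.map (e.symm : P.asIdeal.ResidueField →+* (𝓞 K ⧸ P.asIdeal))).map
        (algebraMap (𝓞 K ⧸ P.asIdeal) P.asIdeal.ResidueField) = E := by
      rw [Polynomial.map_map]
      have h8 : (algebraMap (𝓞 K ⧸ P.asIdeal) P.asIdeal.ResidueField).comp
          (e.symm : P.asIdeal.ResidueField →+* (𝓞 K ⧸ P.asIdeal)) = RingHom.id _ := by
        exact RingHom.ext fun x => e.apply_symm_apply x
      rw [h8, Polynomial.map_id]
    refine ⟨E.map (e.symm : P.asIdeal.ResidueField →+* (𝓞 K ⧸ P.asIdeal)), ⟨hE1.map _, ?_, ?_⟩, h7⟩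
    · have : Nontrivial (𝓞 K ⧸ P.asIdeal) := Ideal.Quotient.nontrivial_iff.2 hmax.ne_top
      rw [hE1.natDegree_map, hE2]
    · change IsGoodTwist _ _ (_ * _)
      rw [h7]
      exact hE3
  exact_mod_cast hle

/-- **Transfer.** -/
theorem number_field (Z : Set (HeightOneSpectrum (𝓞 K))) (hZ : Z.Infinite) {m : (𝓞 K)[X]}
    (hm : m.Monic) (hs : Squarefree (m.map (algebraMap (𝓞 K) K))) {η : ℝ} (hη : 0 < η) :
    ∃ (r : ℕ) (p : Fin r → HeightOneSpectrum (𝓞 K)) (N : ℕ), (∀ i, p i ∈ Z) ∧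
      ∀ d ≥ N, Odd (m.natDegree + d) →
        (1 - η) * (Nat.card (𝓞 K ⧸ ⨅ i, (p i).asIdeal) : ℝ) ^ d ≤
          ({E : (𝓞 K ⧸ ⨅ i, (p i).asIdeal)[X] | E.Monic ∧ E.natDegree = d ∧
            ∃ i, ∀ D : (𝓞 K)[X], D.map (Ideal.Quotient.mk (⨅ i, (p i).asIdeal)) = E →
              IsGoodTwist (p i).asIdeal.ResidueField (m.map (algebraMap (𝓞 K) _))
                ((m * D).map (algebraMap (𝓞 K) _))}).ncard := by
  obtain ⟨c, A, B, hc0, hAB⟩ := NF.bezout hs
  have hbad : ({P : HeightOneSpectrum (𝓞 K) | (2 : 𝓞 K) ∈ P.asIdeal} ∪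
      {P : HeightOneSpectrum (𝓞 K) | (3 : 𝓞 K) ∈ P.asIdeal} ∪
      {P : HeightOneSpectrum (𝓞 K) | c ∈ P.asIdeal} ∪
      {P : HeightOneSpectrum (𝓞 K) | Ideal.absNorm P.asIdeal ≤ 8 * (m.natDegree + 1)}).Finite :=
    (((NF.fin_mem two_ne_zero).union (NF.fin_mem (OfNat.ofNat_ne_zero 3))).union
      (NF.fin_mem hc0)).union (NF.fin_norm _)
  have hinf := hZ.sdiff hbad
  obtain ⟨n, hn⟩ := exists_pow_lt_of_lt_one hη (by norm_num : (1 - 1 / 8 : ℝ) < 1)
  let p : Fin (n + 1) → HeightOneSpectrum (𝓞 K) := fun i => (hinf.natEmbedding _ i : _)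
  have hp : ∀ i, p i ∈ Z \ _ := fun i => (hinf.natEmbedding _ i).2
  have hpinj : Function.Injective p := by
    intro i j hij
    exact Fin.ext ((hinf.natEmbedding _).injective (Subtype.ext hij))
  have hex : ∀ i, _ := fun i => by
    have h := (hp i).2
    simp only [Set.mem_union, Set.mem_ofPred_eq, not_or] at h
    obtain ⟨⟨⟨h2, h3⟩, hc⟩, hX⟩ := h
    exact at_prime (p i) hm h2 h3 (NF.sqf_red hAB (p i) hc) (not_le.1 hX).le
  choose N hN using hex
  refine ⟨n + 1, p, Finset.univ.sup N, fun i => (hp i).1, fun d hd hodd => ?_⟩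
  have h := NF.crt_count (𝓞 K) (n + 1) (by omega) (fun i => (p i).asIdeal)
    (fun i => (p i).isMaximal) (fun i j hij h => hij (hpinj (HeightOneSpectrum.ext h)))
    (fun i => Ideal.finiteQuotientOfFreeOfNeBot _ (p i).ne_bot) d _ (1 / 8) (by norm_num)
    (by norm_num) (fun i => hN i d ((Finset.le_sup (Finset.mem_univ i)).trans hd) hodd)
  have hη' : (1 - 1 / 8 : ℝ) ^ (n + 1) ≤ η := by
    rw [pow_succ]
    have : (0 : ℝ) < (1 - 1 / 8) ^ n := by positivity
    nlinarith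
  refine le_trans (mul_le_mul_of_nonneg_right (by linarith) (by positivity)) (h.trans ?_)
  refine le_of_eq (congrArg (fun t : ℕ => (t : ℝ)) (congrArg Set.ncard (Set.ext fun E => ?_)))
  refine and_congr_right fun _ => and_congr_right fun _ => exists_congr fun i =>
    forall_congr' fun D => imp_congr_right fun _ => ?_
  change IsGoodTwist _ _ (_ * _) ↔ _
  have h9 : (D.map (Ideal.Quotient.mk (p i).asIdeal)).map
      (algebraMap (𝓞 K ⧸ (p i).asIdeal) (p i).asIdeal.ResidueField) =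
        D.map (algebraMap (𝓞 K) (p i).asIdeal.ResidueField) := by
    rw [Polynomial.map_map]
    rfl
  rw [h9, Polynomial.map_mul]

end Pool.Agent.Y711
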