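import Pool.Agent.Y711.Ser
import Pool.Agent.W313.Hyp.Sigma

/-!
Euler products with a change of variables.
-/

set_option autoImplicit false
set_option maxHeartbeats 1000000
set_option synthInstance.maxHeartbeats 400000

open PowerSeries

namespace Pool.Agent.Y711

open Pool.Agent.W313.Hyp Pool.Agent.W343.BSD Pool.Agent.Y784.FC

theorem eulerProd_sub' {R : Type*} [CommRing R] {ι : Type*} (p : ι → Prop) [DecidablePred p]
    {d : ι → ℕ} (hfin : ∀ n, {i | d i ≤ n}.Finite) {f : ι → PowerSeries R}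
    (hf : ∀ i, p i → (X : PowerSeries R) ^ d i ∣ f i - 1) :
    eulerProd (fun i : {i // p i} => d i.1) (fun i => f i.1) =
      eulerProd d (fun i => if p i then f i else 1) := by
  classical
  have hfin' : ∀ n, {i : {i // p i} | d i.1 ≤ n}.Finite := fun n =>
    Set.Finite.of_finite_image (f := fun i : {i // p i} => i.1)
      ((hfin n).subset (by rintro _ ⟨i, hi, rfl⟩; exact hi))
      (Set.injOn_of_injective Subtype.val_injective)
  have hf' : ∀ i, (X : PowerSeries R) ^ d i ∣ (if p i then f i else 1) - 1 := by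
    intro i
    split_ifs with h
    · exact hf i h
    · rw [sub_self]; exact dvd_zero _
  apply eq_of_mod
  intro n
  have h1 := eulerProd_mod hfin' (f := fun i => f i.1) (fun i => hf i.1 i.2) n
    ((hfin n).toFinset.subtype p) (fun i hi => by
      rw [Finset.mem_subtype, Set.Finite.mem_toFinset]; exact hi)
  have h2 := eulerProd_mod hfin hf' n (hfin n).toFinset (fun i hi => by
      rw [Set.Finite.mem_toFinset]; exact hi)
  rw [Finset.prod_subtype_eq_prod_filter, Finset.prod_filter] at h1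
  exact mod_trans h1 (mod_symm h2)

section sbgen

theorem eulerProd_comp' {ι κ : Type} (e : ι ≃ κ) (d : κ → ℕ) (f : κ → PowerSeries ℤ) :
    eulerProd d f = eulerProd (fun i => d (e i)) (fun i => f (e i)) := by
  unfold eulerProd
  ext n
  rw [PowerSeries.coeff_mk, PowerSeries.coeff_mk]
  congr 1
  exact (finprod_comp_equiv e (f := fun z : κ => ∏ᶠ (_ : d z ≤ n), f z)).symm

theorem sb_euler_gen {ι : Type} {e : ι → ℕ} (hfin : ∀ n, {i | e i ≤ n}.Finite) (ε : ℤ) (d : ℕ)
    (hd : d ≠ 0) (a : ι → ℤ) :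
    sb ε d hd (eulerProd e (fun Q => 1 - PowerSeries.C (a Q) * PowerSeries.X ^ e Q)) =
    eulerProd (fun Q => d * e Q)
      (fun Q => 1 - PowerSeries.C (ε ^ e Q * a Q) * PowerSeries.X ^ (d * e Q)) := by
  have hf : ∀ Q, (X : PowerSeries ℤ) ^ e Q ∣ (1 - PowerSeries.C (a Q) * X ^ e Q) - 1 := by
    intro Q
    rw [sub_right_comm, sub_self, zero_sub]
    exact (dvd_neg).2 (dvd_mul_left _ _)
  have hf' : ∀ Q, (X : PowerSeries ℤ) ^ (d * e Q) ∣
      (1 - PowerSeries.C (ε ^ e Q * a Q) * X ^ (d * e Q)) - 1 := by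
    intro Q
    rw [sub_right_comm, sub_self, zero_sub]
    exact (dvd_neg).2 (dvd_mul_left _ _)
  have hfin' : ∀ n, {i | d * e i ≤ n}.Finite := by
    intro n
    refine (hfin n).subset fun Q hQ => ?_
    have h1 : d * e Q ≤ n := hQ
    exact (Nat.le_mul_of_pos_left _ (Nat.pos_of_ne_zero hd)).trans h1
  have hmap : ∀ (k : ℕ) (g : PowerSeries ℤ), (X : PowerSeries ℤ) ^ k ∣ g →
      (X : PowerSeries ℤ) ^ (d * k) ∣ sb ε d hd g := by
    rintro k g ⟨q, rfl⟩
    rw [sb_mul]
    refine Dvd.dvd.mul_right ?_ _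
    unfold sb
    rw [map_pow, rescale_X, map_pow, map_mul, expand_X, mul_pow, ← pow_mul]
    exact dvd_mul_left _ _
  have hsub : ∀ f g : PowerSeries ℤ, sb ε d hd (f - g) = sb ε d hd f - sb ε d hd g := by
    intro f g
    unfold sb
    rw [map_sub, map_sub]
  have hprod : ∀ (s : Finset ι) (f : ι → PowerSeries ℤ),
      sb ε d hd (∏ Q ∈ s, f Q) = ∏ Q ∈ s, sb ε d hd (f Q) := by
    intro s f
    unfold sb
    rw [map_prod, map_prod]
  apply eq_of_mod
  intro n
  have h1 := hmap _ _ (eulerProd_mod hfin hf n (hfin n).toFinset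
    (fun i hi => by rw [Set.Finite.mem_toFinset]; exact hi))
  rw [hsub, hprod] at h1
  have h2 := eulerProd_mod hfin' hf' n (hfin n).toFinset
    (fun i hi => by
      rw [Set.Finite.mem_toFinset]
      exact (Nat.le_mul_of_pos_left _ (Nat.pos_of_ne_zero hd)).trans hi)
  have h3 : (X : PowerSeries ℤ) ^ (n + 1) ∣ X ^ (d * (n + 1)) :=
    pow_dvd_pow _ (Nat.le_mul_of_pos_left _ (Nat.pos_of_ne_zero hd))
  have h4 : ∀ Q, sb ε d hd (1 - PowerSeries.C (a Q) * X ^ e Q) =
      1 - PowerSeries.C (ε ^ e Q * a Q) * X ^ (d * e Q) := fun Q => sb_factor _ _ _ _ _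
  simp only [h4] at h1
  exact mod_trans (h3.trans h1) (mod_symm h2)

/-- The twist of a relation modulo three. -/
theorem sb_rel (f : PowerSeries ℤ) (ε : ℤ) (d : ℕ) (hd : d ≠ 0) (r s r' s' : ℕ) {A : Type}
    [CommRing A] (φ : ℤ →+* A) (b : A)
    (hr : PowerSeries.map φ f * ((1 - X) ^ r * (1 - PowerSeries.C b * X) ^ s) =
      (1 - X) ^ r' * (1 - PowerSeries.C b * X) ^ s') :
    PowerSeries.map φ (sb ε d hd f) *
      ((1 - PowerSeries.C (φ ε) * X ^ d) ^ r * (1 - PowerSeries.C (b * φ ε) * X ^ d) ^ s) =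
      (1 - PowerSeries.C (φ ε) * X ^ d) ^ r' * (1 - PowerSeries.C (b * φ ε) * X ^ d) ^ s' := by
  have hcomm : ∀ f : PowerSeries ℤ, PowerSeries.map φ (sb ε d hd f) =
      expand d hd (rescale (φ ε) (PowerSeries.map φ f)) := by
    intro f
    unfold sb
    rw [map_expand]
    congr 1
    ext n
    rw [coeff_map, coeff_rescale, coeff_rescale, coeff_map, map_mul, map_pow]
  have hrC : ∀ x y : A, rescale x (PowerSeries.C y : PowerSeries A) = PowerSeries.C y := by
    intro x y
    ext m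
    rw [coeff_rescale, coeff_C]
    split_ifs with h
    · rw [h, pow_zero, one_mul]
    · rw [mul_zero]
  have h1 := congrArg (fun f => expand d hd (rescale (φ ε) f)) hr
  simp only [map_mul, map_one, map_pow, map_sub, rescale_X, expand_X, expand_C, hrC] at h1
  rw [hcomm]
  simp only [← mul_assoc] at h1
  simp only [map_mul, ← mul_assoc]
  exact h1

end sbgen

end Pool.Agent.Y711
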