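import Mathlib

/-!
Maximal ideals of algebras of finite type over a finite field.
-/

set_option autoImplicit false

namespace Pool.Agent.Y711

section

variable {K : Type} [Field K] [Finite K] {A : Type} [CommRing A] [Algebra K A]
  [Algebra.FiniteType K A]

theorem module_finite_res (𝔐 : Ideal A) [h𝔐 : 𝔐.IsMaximal] : Module.Finite K (A ⧸ 𝔐) := by
  let _ : Field (A ⧸ 𝔐) := Ideal.Quotient.field 𝔐
  have : Algebra.FiniteType K (A ⧸ 𝔐) :=
    Algebra.FiniteType.of_surjective (Ideal.Quotient.mkₐ K 𝔐) (Ideal.Quotient.mkₐ_surjective K 𝔐)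
  exact finite_of_finite_type_of_isJacobsonRing K (A ⧸ 𝔐)

include K in
variable (K) in
theorem finite_res (𝔐 : Ideal A) [h𝔐 : 𝔐.IsMaximal] : Finite (A ⧸ 𝔐) := by
  have := module_finite_res (K := K) 𝔐
  exact Module.finite_of_finite K

theorem card_res (𝔐 : Ideal A) [h𝔐 : 𝔐.IsMaximal] :
    Nat.card (A ⧸ 𝔐) = Nat.card K ^ Module.finrank K (A ⧸ 𝔐) := by
  have := module_finite_res (K := K) 𝔐
  exact Module.natCard_eq_pow_finrank

theorem log_res (𝔐 : Ideal A) [h𝔐 : 𝔐.IsMaximal] :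
    Nat.log (Nat.card K) (Nat.card (A ⧸ 𝔐)) = Module.finrank K (A ⧸ 𝔐) := by
  rw [card_res (K := K) 𝔐, Nat.log_pow Finite.one_lt_card]

theorem finrank_res_pos (𝔐 : Ideal A) [h𝔐 : 𝔐.IsMaximal] :
    0 < Module.finrank K (A ⧸ 𝔐) := by
  have := module_finite_res (K := K) 𝔐
  have : Nontrivial (A ⧸ 𝔐) := Ideal.Quotient.nontrivial_iff.2 h𝔐.ne_top
  exact Module.finrank_pos

include K in
variable (K) in
theorem finite_hom (E : Type) [CommRing E] [Finite E] : Finite (A →+* E) := by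
  obtain ⟨s, hs⟩ := (inferInstance : Algebra.FiniteType K A).out
  refine Finite.of_injective (β := (K → E) × (s → E))
    (fun f => (fun x => f (algebraMap K A x), fun x => f x.1)) ?_
  intro f g hfg
  have h1 : ∀ x : K, f (algebraMap K A x) = g (algebraMap K A x) := fun x =>
    congrFun (congrArg Prod.fst hfg) x
  have h2 : ∀ x : s, f x.1 = g x.1 := fun x => congrFun (congrArg Prod.snd hfg) x
  let _ : Algebra K E := (f.comp (algebraMap K A)).toAlgebra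
  let f' : A →ₐ[K] E := { f with commutes' := fun _ => rfl }
  let g' : A →ₐ[K] E := { g with commutes' := fun x => (h1 x).symm }
  have h3 : f' = g' := AlgHom.ext_of_adjoin_eq_top hs fun x hx => h2 ⟨x, hx⟩
  ext x
  exact congrArg (fun u : A →ₐ[K] E => u x) h3

include K in
variable (K) in
theorem finite_max_card (N : ℕ) : {𝔐 : Ideal A | 𝔐.IsMaximal ∧ Nat.card (A ⧸ 𝔐) = N}.Finite := by
  by_cases hne : ∃ 𝔐₀ : Ideal A, 𝔐₀.IsMaximal ∧ Nat.card (A ⧸ 𝔐₀) = N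
  · obtain ⟨𝔐₀, hm, hc⟩ := hne
    let _ : Field (A ⧸ 𝔐₀) := Ideal.Quotient.field 𝔐₀
    have hf := finite_res K 𝔐₀
    have := Fintype.ofFinite (A ⧸ 𝔐₀)
    have h1 := finite_hom K (A := A) (A ⧸ 𝔐₀)
    refine (Set.finite_range fun f : A →+* A ⧸ 𝔐₀ => RingHom.ker f).subset ?_
    rintro 𝔐 ⟨hM, hcM⟩
    let _ : Field (A ⧸ 𝔐) := Ideal.Quotient.field 𝔐
    have hf' := finite_res K 𝔐
    have := Fintype.ofFinite (A ⧸ 𝔐)
    have e : A ⧸ 𝔐 ≃+* A ⧸ 𝔐₀ := FiniteField.ringEquivOfCardEq (by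
      rw [← Nat.card_eq_fintype_card, ← Nat.card_eq_fintype_card, hcM, hc])
    refine ⟨(e : A ⧸ 𝔐 →+* A ⧸ 𝔐₀).comp (Ideal.Quotient.mk 𝔐), ?_⟩
    ext x
    rw [RingHom.mem_ker, RingHom.comp_apply]
    constructor
    · intro h
      have h2 : e (Ideal.Quotient.mk 𝔐 x) = 0 := h
      rw [← Ideal.Quotient.eq_zero_iff_mem]
      exact (map_eq_zero_iff e e.injective).1 h2
    · intro h
      rw [Ideal.Quotient.eq_zero_iff_mem.2 h, map_zero]
  · convert Set.finite_empty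
    ext 𝔐
    simp only [Set.mem_setOf_eq, Set.mem_empty_iff_false, iff_false]
    exact fun h => hne ⟨𝔐, h⟩

theorem finite_max_deg (n : ℕ) :
    {𝔐 : {𝔐 : Ideal A // 𝔐.IsMaximal} | Nat.log (Nat.card K) (Nat.card (A ⧸ 𝔐.1)) ≤ n}.Finite := by
  refine Set.Finite.of_finite_image (f := fun 𝔐 : {𝔐 : Ideal A // 𝔐.IsMaximal} => 𝔐.1) ?_
    (Set.injOn_of_injective Subtype.val_injective)
  refine ((Set.finite_Iic n).biUnion fun e _ =>
    finite_max_card K (A := A) (Nat.card K ^ e)).subset ?_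
  rintro _ ⟨𝔐, h𝔐, rfl⟩
  have hm := 𝔐.2
  rw [Set.mem_setOf_eq, log_res] at h𝔐
  rw [Set.mem_iUnion₂]
  exact ⟨_, h𝔐, hm, card_res (K := K) 𝔐.1⟩

end

end Pool.Agent.Y711
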