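import Pool.Agent.Y711.DefR
import Pool.Agent.Y711.DR1
import Pool.Agent.Y711.CL7

/-!
The maximal ideals of `B ⊗ R` and of its fibres over the maximal ideals of `B`.
-/

set_option autoImplicit false
set_option maxHeartbeats 1000000
set_option synthInstance.maxHeartbeats 400000

open Polynomial
open scoped TensorProduct

namespace Pool.Agent.Y711

open Pool.Agent.TH943.HJ Pool.Agent.W313.Hyp Pool.Agent.W343.BSD Pool.Agent.Y784.FC

/-- the quadratic symbol is invariant under isomorphisms -/
theorem qs_equiv {S T : Type} [CommRing S] [CommRing T] (e : S ≃+* T) (x : S) :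
    qs (e x) = qs x := by
  classical
  unfold qs
  have h1 : e x = 0 ↔ x = 0 := map_eq_zero_iff e e.injective
  have h2 : IsSquare (e x) ↔ IsSquare x := by
    constructor
    · rintro ⟨y, hy⟩
      refine ⟨e.symm y, e.injective ?_⟩
      rw [map_mul, RingEquiv.apply_symm_apply, hy]
    · rintro ⟨y, rfl⟩
      exact ⟨e y, map_mul e y y⟩
  simp only [h1, h2]

/-- the residue field of the preimage of an ideal under a surjective map -/
noncomputable def comapEquiv {S T : Type} [CommRing S] [CommRing T] (f : S →+* T)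
    (hf : Function.Surjective f) (J : Ideal T) : S ⧸ J.comap f ≃+* T ⧸ J :=
  RingEquiv.ofBijective (Ideal.quotientMap J f le_rfl)
    ⟨Ideal.quotientMap_injective, Ideal.quotientMap_surjective hf⟩

theorem comapEquiv_mk {S T : Type} [CommRing S] [CommRing T] (f : S →+* T)
    (hf : Function.Surjective f) (J : Ideal T) (x : S) :
    comapEquiv f hf J (Ideal.Quotient.mk (J.comap f) x) = Ideal.Quotient.mk J (f x) := by
  rfl

section

variable {B : Type} [CommRing B] {R : Type} [CommRing R] [Algebra B R]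

variable (R) in
/-- the map to the fibre -/
noncomputable def phiV (v : Ideal B) : R →ₐ[B] (B ⧸ v) ⊗[B] R :=
  Algebra.TensorProduct.includeRight

theorem phiV_surj (v : Ideal B) : Function.Surjective (phiV R v) := by
  intro x
  induction x using TensorProduct.induction_on with
  | zero => exact ⟨0, map_zero _⟩
  | tmul a r =>
    obtain ⟨b, rfl⟩ := Ideal.Quotient.mk_surjective a
    refine ⟨b • r, ?_⟩
    show (1 : B ⧸ v) ⊗ₜ[B] (b • r) = _
    rw [TensorProduct.tmul_smul, TensorProduct.smul_tmul', Algebra.smul_def, mul_one]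
    rfl
  | add x y hx hy =>
    obtain ⟨x', rfl⟩ := hx
    obtain ⟨y', rfl⟩ := hy
    exact ⟨x' + y', map_add _ _ _⟩

theorem ker_phiV_le (v : Ideal B) (𝔐 : Ideal R) (h : v ≤ 𝔐.comap (algebraMap B R)) :
    RingHom.ker (phiV R v) ≤ 𝔐 := by
  intro x hx
  rw [RingHom.mem_ker] at hx
  have h1 : ∀ b : B, b ∈ v → Algebra.ofId B (R ⧸ 𝔐) b = 0 := by
    intro b hb
    have h2 : algebraMap B R b ∈ 𝔐 := h hb
    show algebraMap B (R ⧸ 𝔐) b = 0
    rw [IsScalarTower.algebraMap_apply B R (R ⧸ 𝔐)]
    exact Ideal.Quotient.eq_zero_iff_mem.2 h2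
  have h3 := congrArg (Algebra.TensorProduct.productMap (Ideal.Quotient.liftₐ v _ h1)
    (Ideal.Quotient.mkₐ B 𝔐)) hx
  rw [map_zero] at h3
  have h4 : Algebra.TensorProduct.productMap (Ideal.Quotient.liftₐ v _ h1)
      (Ideal.Quotient.mkₐ B 𝔐) ((1 : B ⧸ v) ⊗ₜ[B] x) = Ideal.Quotient.mk 𝔐 x := by
    rw [Algebra.TensorProduct.productMap_apply_tmul, map_one, one_mul]
    rfl
  rw [← Ideal.Quotient.eq_zero_iff_mem, ← h4]
  exact h3

theorem phiV_mem {v : Ideal B} {b : B} (hb : b ∈ v) : phiV R v (algebraMap B R b) = 0 := by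
  show (1 : B ⧸ v) ⊗ₜ[B] (algebraMap B R b) = 0
  rw [Algebra.algebraMap_eq_smul_one, TensorProduct.tmul_smul, TensorProduct.smul_tmul',
    Algebra.smul_def, mul_one]
  have h1 : algebraMap B (B ⧸ v) b = 0 := Ideal.Quotient.eq_zero_iff_mem.2 hb
  rw [h1, TensorProduct.zero_tmul]

end

section

variable {k : Type} [Field k] [Finite k] {B : Type} [CommRing B] [Algebra k[X] B]
  [Module.Finite k[X] B] {R : Type} [CommRing R] [Algebra B R] [Algebra.FiniteType B R]

omit [Finite k] in
variable (k B R) in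
include B in
/-- `R` is of finite type over `k` -/
theorem exists_ft : ∃ _ : Algebra k R, Algebra.FiniteType k R := by
  let i0 : Algebra k[X] R := ((algebraMap B R).comp (algebraMap k[X] B)).toAlgebra
  have i00 : IsScalarTower k[X] B R := IsScalarTower.of_algebraMap_eq fun _ => rfl
  let i1 : Algebra k R := ((algebraMap k[X] R).comp C).toAlgebra
  have i2 : IsScalarTower k k[X] R := IsScalarTower.of_algebraMap_eq fun _ => rfl
  have i3 : Algebra.FiniteType k[X] B := inferInstance
  have i5 : Algebra.FiniteType k[X] R := Algebra.FiniteType.trans i3 inferInstance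
  exact ⟨i1, Algebra.FiniteType.trans (S := k[X]) inferInstance i5⟩

variable (k B) in
include k B in
theorem finite_resA (𝔐 : Ideal R) [𝔐.IsMaximal] : Finite (R ⧸ 𝔐) := by
  obtain ⟨i1, i2⟩ := exists_ft k B R
  exact finite_res k 𝔐

variable (k B) in
include B in
theorem fin_maxA (n : ℕ) :
    {𝔐 : {𝔐 : Ideal R // 𝔐.IsMaximal} | residueDeg k 𝔐.1 ≤ n}.Finite := by
  obtain ⟨i1, i2⟩ := exists_ft k B R
  exact finite_max_deg (K := k) n

variable (k) in
include k in
theorem comap_max (𝔐 : Ideal R) [h𝔐 : 𝔐.IsMaximal] :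
    (𝔐.comap (algebraMap B R)).IsMaximal := by
  have h1 := finite_resA k B 𝔐
  have h2 : Finite (B ⧸ 𝔐.comap (algebraMap B R)) :=
    Finite.of_injective (Ideal.quotientMap 𝔐 (algebraMap B R) le_rfl) Ideal.quotientMap_injective
  have h3 : (𝔐.comap (algebraMap B R)).IsPrime := Ideal.IsPrime.comap _
  exact Ideal.Quotient.maximal_of_isField _ (Finite.isField_of_domain _)

end

end Pool.Agent.Y711
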