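import Pool.Agent.Y711.DR2

/-!
The Euler product over the maximal ideals of `B ⊗ R` is the product over those of `B` of the Euler
products of the fibres.
-/

set_option autoImplicit false
set_option maxHeartbeats 1000000
set_option synthInstance.maxHeartbeats 400000

open Polynomial
open scoped TensorProduct

namespace Pool.Agent.Y711

open Pool.Agent.TH943.HJ Pool.Agent.W313.Hyp Pool.Agent.W343.BSD Pool.Agent.Y784.FC

section

variable {B : Type} [CommRing B] {R : Type} [CommRing R] [Algebra B R]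

variable (R) in
/-- the fibre -/
abbrev SV (v : Ideal B) : Type := (B ⧸ v) ⊗[B] R

variable (R) in
/-- the maximal ideals of the fibre -/
abbrev MxS (v : Ideal B) : Type := {𝔮 : Ideal (SV R v) // 𝔮.IsMaximal}

variable (R) in
/-- the maximal ideal of `R` given by a maximal ideal of the fibre -/
noncomputable def pull (v : Ideal B) (𝔮 : MxS R v) : {𝔐 : Ideal R // 𝔐.IsMaximal} :=
  ⟨Ideal.comap (phiV R v) 𝔮.1, by
    have := 𝔮.2
    exact Ideal.comap_isMaximal_of_surjective _ (phiV_surj v)⟩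

theorem comap_pull (v : Ideal B) [hv : v.IsMaximal] (𝔮 : MxS R v) :
    (pull R v 𝔮).1.comap (algebraMap B R) = v := by
  have hmax := (pull R v 𝔮).2
  have h1 : v ≤ (pull R v 𝔮).1.comap (algebraMap B R) := by
    intro b hb
    show phiV R v (algebraMap B R b) ∈ 𝔮.1
    rw [phiV_mem hb]
    exact 𝔮.1.zero_mem
  refine (hv.eq_of_le ?_ h1).symm
  exact Ideal.comap_ne_top _ hmax.ne_top

/-- the quotient by the pull-back -/
noncomputable def pullEquiv (v : Ideal B) (𝔮 : MxS R v) :
    (R ⧸ (pull R v 𝔮).1) ≃+* (SV R v ⧸ 𝔮.1) :=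
  comapEquiv (phiV R v).toRingHom (phiV_surj v) 𝔮.1

/-- the quadratic symbol -/
theorem qs_pull (v : Ideal B) (𝔮 : MxS R v) (x : R) :
    qs (Ideal.Quotient.mk (pull R v 𝔮).1 x) = qs (Ideal.Quotient.mk 𝔮.1 (phiV R v x)) :=
  (qs_equiv (T := SV R v ⧸ 𝔮.1) (pullEquiv v 𝔮) (Ideal.Quotient.mk (pull R v 𝔮).1 x)).symm

end

section

variable {k : Type} [Field k] [Finite k] {B : Type} [CommRing B] [Algebra k[X] B]
  [Module.Finite k[X] B] {R : Type} [CommRing R] [Algebra B R] [Algebra.FiniteType B R]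

/-- the degree -/
theorem deg_pull (v : Ideal B) [hv : v.IsMaximal] (𝔮 : MxS R v) :
    residueDeg k (pull R v 𝔮).1 =
      dgM k v * Nat.log (Nat.card (B ⧸ v)) (Nat.card (SV R v ⧸ 𝔮.1)) := by
  let _ : Field (B ⧸ v) := Ideal.Quotient.field v
  have hfin := finite_quot k v
  have hmax := 𝔮.2
  have hft : Algebra.FiniteType (B ⧸ v) (SV R v) := Algebra.FiniteType.baseChange (B ⧸ v)
  have h1 : Nat.card (R ⧸ (pull R v 𝔮).1) = Nat.card (SV R v ⧸ 𝔮.1) :=
    Nat.card_congr (pullEquiv v 𝔮).toEquiv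
  have h2 := card_res (K := B ⧸ v) 𝔮.1
  have h3 := log_res (K := B ⧸ v) 𝔮.1
  obtain ⟨P, hP⟩ := exists_below (k := k) v
  have h4 := card_over (k := k) v P
  rw [← dg_over (k := k) v P] at h4
  unfold residueDeg
  rw [h1, h3]
  conv_lhs => rw [h2, h4, ← pow_mul]
  exact Nat.log_pow Finite.one_lt_card _

variable (R) in
/-- the maximal ideals of `R` not over `D` -/
abbrev MxA (D : k[X]) (B : Type) [CommRing B] [Algebra k[X] B] [Algebra B R] : Type :=
  {𝔐 : {𝔐 : Ideal R // 𝔐.IsMaximal} // algebraMap B R (algebraMap k[X] B D) ∉ 𝔐.1}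

omit [Finite k] [Module.Finite k[X] B] [Algebra.FiniteType B R] in
variable (R) in
/-- the map from the maximal ideals of the fibres -/
noncomputable def psi (D : k[X]) (B : Type) [CommRing B] [Algebra k[X] B] [Algebra B R]
    (z : Σ v : MxD D B, MxS R v.1) : MxA R D B :=
  ⟨pull R z.1.1 z.2, by
    intro h
    have hmax := z.1.2.1
    apply z.1.2.2
    rw [← comap_pull (R := R) z.1.1 z.2]
    exact h⟩

theorem psi_bij (D : k[X]) : Function.Bijective (psi R D B) := by
  constructor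
  · rintro ⟨v, 𝔮⟩ ⟨v', 𝔮'⟩ h
    have hmax := v.2.1
    have hmax' := v'.2.1
    have h1 : pull R v.1 𝔮 = pull R v'.1 𝔮' := congrArg Subtype.val h
    have h2 : v = v' := by
      apply Subtype.ext
      rw [← comap_pull (R := R) v.1 𝔮, ← comap_pull (R := R) v'.1 𝔮', h1]
    subst h2
    have h3 : 𝔮 = 𝔮' := by
      apply Subtype.ext
      exact Ideal.comap_injective_of_surjective (phiV R v.1) (phiV_surj v.1)
        (congrArg Subtype.val h1)
    rw [h3]
  · rintro ⟨⟨𝔐, hM⟩, hD⟩
    have hv := comap_max k (B := B) 𝔐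
    have hker : RingHom.ker (phiV R (𝔐.comap (algebraMap B R))) ≤ 𝔐 :=
      ker_phiV_le _ _ le_rfl
    have hcm : Ideal.comap (phiV R (𝔐.comap (algebraMap B R)))
        (Ideal.map (phiV R (𝔐.comap (algebraMap B R))) 𝔐) = 𝔐 := by
      rw [Ideal.comap_map_of_surjective (phiV R (𝔐.comap (algebraMap B R))) (phiV_surj _)]
      exact sup_eq_left.2 hker
    have hq : (Ideal.map (phiV R (𝔐.comap (algebraMap B R))) 𝔐).IsMaximal := by
      rcases Ideal.map_eq_top_or_isMaximal_of_surjective (phiV R (𝔐.comap (algebraMap B R)))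
        (phiV_surj _) hM with h | h
      · exfalso
        rw [h, Ideal.comap_top] at hcm
        exact hM.ne_top hcm.symm
      · exact h
    refine ⟨⟨⟨𝔐.comap (algebraMap B R), hv, hD⟩, ⟨_, hq⟩⟩, ?_⟩
    apply Subtype.ext
    apply Subtype.ext
    exact hcm

end

end Pool.Agent.Y711
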