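import Pool.Agent.Y711.DR3
import Pool.Agent.Y711.DR0

/-!
The L-function of the double cover `w ^ 2 = D h` as a product over the maximal ideals of `B`.
-/

set_option autoImplicit false
set_option maxHeartbeats 1000000
set_option synthInstance.maxHeartbeats 400000

open Polynomial
open scoped TensorProduct

namespace Pool.Agent.Y711

open Pool.Agent.TH943.HJ Pool.Agent.W313.Hyp Pool.Agent.W343.BSD Pool.Agent.Y784.FC

section

variable {k : Type} [Field k] [Finite k] {B : Type} [CommRing B] [Algebra k[X] B]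
  [Module.Finite k[X] B] {R : Type} [CommRing R] [Algebra B R] [Algebra.FiniteType B R]

/-- the Euler product of the fibre -/
noncomputable def fibS (k : Type) [Field k] {B : Type} [CommRing B] {R : Type} [CommRing R]
    [Algebra B R] (v : Ideal B) (x : R) : PowerSeries ℤ :=
  eulerProd (fun 𝔮 : MxS R v => dgM k v * Nat.log (Nat.card (B ⧸ v)) (Nat.card (SV R v ⧸ 𝔮.1)))
    (fun 𝔮 => 1 - PowerSeries.C (qs (Ideal.Quotient.mk 𝔮.1 (phiV R v x))) *
      PowerSeries.X ^ (dgM k v * Nat.log (Nat.card (B ⧸ v)) (Nat.card (SV R v ⧸ 𝔮.1))))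

/-- The Euler product over the maximal ideals of `R`. -/
theorem double_nested (D : k[X]) (h : R) :
    doubleSeries k (algebraMap B R (algebraMap k[X] B D) * h) =
      eulerProd (fun v : MxD D B => dgM k v.1)
        (fun v => fibS k v.1 (algebraMap B R (algebraMap k[X] B D) * h)) := by
  classical
  set x : R := algebraMap B R (algebraMap k[X] B D) * h with hx
  set f : {𝔐 : Ideal R // 𝔐.IsMaximal} → PowerSeries ℤ := fun 𝔐 =>
    1 - PowerSeries.C (qs (Ideal.Quotient.mk 𝔐.1 x)) * PowerSeries.X ^ residueDeg k 𝔐.1 with hf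
  have h0 : doubleSeries k x =
      eulerProd (fun 𝔐 : {𝔐 : Ideal R // 𝔐.IsMaximal} => residueDeg k 𝔐.1) f := by
    unfold doubleSeries eulerProduct eulerProd
    simp only [quadSym_eq]
    rfl
  set p : {𝔐 : Ideal R // 𝔐.IsMaximal} → Prop := fun 𝔐 =>
    algebraMap B R (algebraMap k[X] B D) ∉ 𝔐.1 with hp
  have h1 : f = fun 𝔐 => if p 𝔐 then f 𝔐 else 1 := by
    funext 𝔐
    split_ifs with h2
    · rfl
    · have h3 : algebraMap B R (algebraMap k[X] B D) ∈ 𝔐.1 := by
        by_contra h4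
        exact h2 h4
      have h5 : x ∈ 𝔐.1 := 𝔐.1.mul_mem_right h h3
      rw [hf]
      simp only
      have h7 : qs (Ideal.Quotient.mk 𝔐.1 x) = 0 := by
        unfold qs
        rw [if_pos (Ideal.Quotient.eq_zero_iff_mem.2 h5)]
      rw [h7, map_zero, zero_mul, sub_zero]
  have hfin : ∀ n, {𝔐 : {𝔐 : Ideal R // 𝔐.IsMaximal} | residueDeg k 𝔐.1 ≤ n}.Finite :=
    fun n => fin_maxA k B n
  rw [h0, h1, ← eulerProd_sub' p hfin (fun i _ => one_sub_dvd _ _)]
  rw [eulerProd_comp' (Equiv.ofBijective (psi R D B) (psi_bij D))]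
  have h2 : ∀ z : Σ v : MxD D B, MxS R v.1,
      residueDeg k (psi R D B z).1.1 = dgM k z.1.1 *
        Nat.log (Nat.card (B ⧸ z.1.1)) (Nat.card (SV R z.1.1 ⧸ z.2.1)) := by
    intro z
    have hmax := z.1.2.1
    exact deg_pull z.1.1 z.2
  have h3 : ∀ z : Σ v : MxD D B, MxS R v.1, f (psi R D B z).1 =
      1 - PowerSeries.C (qs (Ideal.Quotient.mk z.2.1 (phiV R z.1.1 x))) *
      PowerSeries.X ^ (dgM k z.1.1 *
        Nat.log (Nat.card (B ⧸ z.1.1)) (Nat.card (SV R z.1.1 ⧸ z.2.1))) := by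
    intro z
    rw [hf]
    simp only
    rw [h2 z]
    congr 3
    exact qs_pull z.1.1 z.2 _
  refine Eq.trans (congrArg₂ eulerProd (funext h2) (funext h3)) ?_
  exact eulerProd_sigma (d := fun v : MxD D B => dgM k v.1)
    (e := fun (v : MxD D B) (𝔮 : MxS R v.1) =>
      Nat.log (Nat.card (B ⧸ v.1)) (Nat.card (SV R v.1 ⧸ 𝔮.1)))
    (fun n => fin_max D n) (fun v => by have := v.2.1; exact dg_pos v.1)
    (fun v n => by
      have hmax := v.2.1
      let _ : Field (B ⧸ v.1) := Ideal.Quotient.field v.1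
      have hfin := finite_quot k v.1
      have hft : Algebra.FiniteType (B ⧸ v.1) (SV R v.1) := Algebra.FiniteType.baseChange (B ⧸ v.1)
      exact finite_max_deg (K := B ⧸ v.1) n)
    (fun v 𝔮 => by
      have hmax := v.2.1
      let _ : Field (B ⧸ v.1) := Ideal.Quotient.field v.1
      have hfin := finite_quot k v.1
      have hft : Algebra.FiniteType (B ⧸ v.1) (SV R v.1) := Algebra.FiniteType.baseChange (B ⧸ v.1)
      have hq := 𝔮.2
      rw [log_res (K := B ⧸ v.1) 𝔮.1]
      exact finrank_res_pos (K := B ⧸ v.1) 𝔮.1) _ (fun z => one_sub_dvd _ _)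

end

end Pool.Agent.Y711
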