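import Pool.Agent.Y711.DR4
import Pool.Agent.Y711.LE

/-!
The local factor at a maximal ideal of `B`, and the nonvanishing of the Euler product.
-/

set_option autoImplicit false
set_option maxHeartbeats 1000000
set_option synthInstance.maxHeartbeats 400000

open Polynomial
open scoped TensorProduct

namespace Pool.Agent.Y711

open Pool.Agent.TH943.HJ Pool.Agent.W313.Hyp Pool.Agent.W343.BSD Pool.Agent.Y784.FC

section fib

variable {F : Type} [Field F] [Finite F] {S : Type} [CommRing S] [Algebra F S]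
  [Algebra.FiniteType F S]

theorem qs_smul (h2 : (2 : F) ≠ 0) (𝔮 : Ideal S) [h𝔮 : 𝔮.IsMaximal] (c : F) (x : S) :
    qs (Ideal.Quotient.mk 𝔮 (c • x)) =
      qc c ^ Nat.log (Nat.card F) (Nat.card (S ⧸ 𝔮)) * qs (Ideal.Quotient.mk 𝔮 x) := by
  let _ : Field (S ⧸ 𝔮) := Ideal.Quotient.field 𝔮
  have hfin := finite_res F 𝔮
  rw [log_res (K := F) 𝔮, Algebra.smul_def, map_mul, qs_eq, qs_eq, qc_mul]
  congr 1
  exact qc_ext (F := F) (F' := S ⧸ 𝔮) h2 c (finrank_res_pos (K := F) 𝔮).ne'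

theorem sb_double (h2 : (2 : F) ≠ 0) (c : F) (x : S) (d : ℕ) (hd : d ≠ 0) :
    sb (qc c) d hd (doubleSeries F x) =
      eulerProd (fun 𝔮 : {𝔮 : Ideal S // 𝔮.IsMaximal} =>
          d * Nat.log (Nat.card F) (Nat.card (S ⧸ 𝔮.1)))
        (fun 𝔮 => 1 - PowerSeries.C (qs (Ideal.Quotient.mk 𝔮.1 (c • x))) *
          PowerSeries.X ^ (d * Nat.log (Nat.card F) (Nat.card (S ⧸ 𝔮.1)))) := by
  have h0 : doubleSeries F x = eulerProd (fun 𝔮 : {𝔮 : Ideal S // 𝔮.IsMaximal} =>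
      Nat.log (Nat.card F) (Nat.card (S ⧸ 𝔮.1)))
      (fun 𝔮 => 1 - PowerSeries.C (qs (Ideal.Quotient.mk 𝔮.1 x)) *
          PowerSeries.X ^ (Nat.log (Nat.card F) (Nat.card (S ⧸ 𝔮.1)))) := by
    unfold doubleSeries eulerProduct eulerProd
    simp only [quadSym_eq]
    rfl
  rw [h0, sb_euler_gen (fun n => finite_max_deg (K := F) n)]
  congr 1
  funext 𝔮
  have h𝔮 := 𝔮.2
  rw [qs_smul h2 𝔮.1 c x]

end fib

section

variable {k : Type} [Field k] [Finite k] {B : Type} [CommRing B] [Algebra k[X] B]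
  [Module.Finite k[X] B] {R : Type} [CommRing R] [Algebra B R] [Algebra.FiniteType B R]

/-- **The local factor.** -/
theorem fib_rel (h2 : (2 : k) ≠ 0) {a b a' b' : ℕ} {h : R} {m : B}
    (hu : IsUnipotentDouble a b a' b' h m)
    (D : k[X]) (v : Ideal B) [hv : v.IsMaximal] (hm : algebraMap B (B ⧸ v) m ≠ 0) :
    red3 (fibS k v (algebraMap B R (algebraMap k[X] B D) * h)) *
      (wM D v ^ a * PowerSeries.rescale ((Nat.card k : ℕ) : ZMod 3) (wM D v) ^ b) =
      wM D v ^ a' * PowerSeries.rescale ((Nat.card k : ℕ) : ZMod 3) (wM D v) ^ b' := by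
  let _ : Field (B ⧸ v) := Ideal.Quotient.field v
  have hfin := finite_quot k v
  have hd : dgM k v ≠ 0 := (dg_pos (k := k) v).ne'
  have hft : Algebra.FiniteType (B ⧸ v) (SV R v) := Algebra.FiniteType.baseChange (B ⧸ v)
  have h2' : (2 : B ⧸ v) ≠ 0 := by
    let _ : Algebra k (B ⧸ v) := ((algebraMap k[X] (B ⧸ v)).comp C).toAlgebra
    exact two_ne_ext (F' := B ⧸ v) h2
  set c : B ⧸ v := Ideal.Quotient.mk v (algebraMap k[X] B D) with hc
  have hphi : phiV R v (algebraMap B R (algebraMap k[X] B D) * h) =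
      c • ((1 : B ⧸ v) ⊗ₜ[B] h) := by
    rw [← Algebra.smul_def, map_smul, TensorProduct.smul_tmul', smul_eq_mul, mul_one]
    show (algebraMap k[X] B D) • ((1 : B ⧸ v) ⊗ₜ[B] h) = _
    rw [TensorProduct.smul_tmul', Algebra.smul_def, mul_one]
    rfl
  have h1 : fibS k v (algebraMap B R (algebraMap k[X] B D) * h) =
      sb (qc c) (dgM k v) hd (doubleSeries (B ⧸ v) ((1 : B ⧸ v) ⊗ₜ[B] h)) := by
    rw [sb_double (S := SV R v) h2']
    unfold fibS
    rw [hphi]
  have h3 := hu (B ⧸ v) hm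
  have h4 := sb_rel (doubleSeries (B ⧸ v) ((1 : B ⧸ v) ⊗ₜ[B] h)) (qc c) (dgM k v) hd a b a' b'
    (Int.castRingHom (ZMod 3)) _ h3
  rw [← h1] at h4
  have hcard : (Nat.card (B ⧸ v) : ZMod 3) = ((Nat.card k : ℕ) : ZMod 3) ^ dgM k v := by
    obtain ⟨P, hP⟩ := exists_below (k := k) v
    have e1 := card_over (k := k) v P
    rw [← dg_over (k := k) v P] at e1
    rw [e1]
    push_cast
    rfl
  have hwM : wM D v = 1 - PowerSeries.C ((qc c : ℤ) : ZMod 3) * PowerSeries.X ^ dgM k v := by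
    rw [← qs_eq]
    rfl
  have hC : PowerSeries.rescale ((Nat.card k : ℕ) : ZMod 3)
      (PowerSeries.C ((qc c : ℤ) : ZMod 3)) = PowerSeries.C ((qc c : ℤ) : ZMod 3) := by
    ext n
    rw [PowerSeries.coeff_rescale, PowerSeries.coeff_C]
    split_ifs with h
    · rw [h, pow_zero, one_mul]
    · rw [mul_zero]
  have h9 : PowerSeries.rescale ((Nat.card k : ℕ) : ZMod 3) (wM D v) =
      1 - PowerSeries.C ((Nat.card (B ⧸ v) : ZMod 3) * ((qc c : ℤ) : ZMod 3)) *
          PowerSeries.X ^ dgM k v := by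
    rw [hwM, map_sub, map_one, map_mul, map_pow, PowerSeries.rescale_X, hC, hcard, mul_pow,
      ← map_pow, map_mul]
    ring
  rw [h9, hwM]
  exact h4

end

end Pool.Agent.Y711
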