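import Pool.Agent.Y711.DR5

/-!
Nonvanishing of the L-functions of the double covers.
-/

set_option autoImplicit false
set_option maxHeartbeats 1000000
set_option synthInstance.maxHeartbeats 400000

open PowerSeries

namespace Pool.Agent.Y711

open Pool.Agent.TH943.HJ Pool.Agent.W313.Hyp Pool.Agent.W343.BSD Pool.Agent.Y784.FC

section

variable {k : Type} [Field k] [Finite k] {B : Type} [CommRing B] [IsDomain B]
  [Algebra (Polynomial k) B] [Module.Finite (Polynomial k) B] [Module.Flat (Polynomial k) B]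
  (G : Type) [Group G] [Finite G] [MulSemiringAction G B] [IsGaloisGroup G (Polynomial k) B]

include G in
/-- comparison with the power of the Euler product over the line -/
theorem euler_max_line2 (h2 : (2 : k) ≠ 0) {j : ℕ} (hG : Nat.card G = 3 ^ j) (D : Polynomial k)
    (hram : ∀ P : MI k, (sp P).ramificationIdxIn B ≠ 1 → chi D P.1 ≠ 1) :
    ∃ U V : Polynomial (ZMod 3), (∀ x : ZMod 3,
        (∀ P : MI k, (sp P).ramificationIdxIn B ≠ 1 → x ^ P.1.natDegree = 1) →
          U.eval x ≠ 0 ∧ V.eval x ≠ 0) ∧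
      eulerProd (fun v : MxD D B => dgM k v.1) (fun v => wM D v.1) * (U : PowerSeries (ZMod 3)) =
        E3 D ^ 3 ^ j * (V : PowerSeries (ZMod 3)) := by
  classical
  obtain ⟨a, ha0, ha⟩ := exists_disc G (B := B) (k := k)
  have hTfin : {P : MI k | (sp P).ramificationIdxIn B ≠ 1}.Finite :=
    (finite_deg_le (F := k) a.natDegree).subset fun P hP =>
      Polynomial.natDegree_le_of_dvd (ha P hP) ha0
  set T : Finset (MI k) := hTfin.toFinset with hT
  set pw : MI k → Polynomial (ZMod 3) := fun P =>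
    1 - Polynomial.C ((chi D P.1 : ℤ) : ZMod 3) * Polynomial.X ^ P.1.natDegree with hpw
  have hcoe : ∀ P, ((pw P : Polynomial (ZMod 3)) : PowerSeries (ZMod 3)) = w1 D P := by
    intro P
    simp only [hpw]
    unfold w1
    rw [Polynomial.coe_sub, Polynomial.coe_one, Polynomial.coe_mul, Polynomial.coe_C,
      Polynomial.coe_pow, Polynomial.coe_X]
  have hev : ∀ x : ZMod 3, (∀ P : MI k, (sp P).ramificationIdxIn B ≠ 1 → x ^ P.1.natDegree = 1) →
      ∀ P ∈ T, (pw P).eval x ≠ 0 := by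
    intro x hx P hP
    rw [hT, Set.Finite.mem_toFinset] at hP
    have hP' : (sp P).ramificationIdxIn B ≠ 1 := hP
    have h1 : (pw P).eval x = 1 - ((chi D P.1 : ℤ) : ZMod 3) := by
      simp only [hpw]
      rw [Polynomial.eval_sub, Polynomial.eval_one, Polynomial.eval_mul, Polynomial.eval_C,
        Polynomial.eval_pow, Polynomial.eval_X, hx P hP', mul_one]
    rw [h1]
    by_cases hPD : P.1 ∣ D
    · have : chi D P.1 = 0 := if_pos hPD
      rw [this]
      decide
    · rcases chi_cases hPD with h | h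
      · exact absurd h (hram P hP')
      · rw [h]
        decide
  have hB : ∀ P : MI k, P ∉ T → w1 D P ^ sN B P = w1 D P ^ 3 ^ j := by
    intro P hP
    rw [hT, Set.Finite.mem_toFinset] at hP
    by_cases hr : (sp P).ramificationIdxIn B = 1
    · have h3 := sN_mul G (B := B) P
      rw [hr, mul_one, hG] at h3
      rw [h3]
    · exact absurd hr hP
  have h5 := fin_factor (R := ZMod 3) (fun n => finite_deg_le (F := k) n)
    (F := fun P => w1 D P ^ sN B P) (W := fun P => w1 D P ^ 3 ^ j)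
    (fun P => pow_dvd_sub_one (w1_dvd D P) _) (fun P => pow_dvd_sub_one (w1_dvd D P) _) T hB
  have : Fact (Nat.Prime 3) := ⟨Nat.prime_three⟩
  refine ⟨∏ P ∈ T, pw P ^ 3 ^ j, ∏ P ∈ T, pw P ^ sN B P, ?_, ?_⟩
  · intro x hx
    rw [Polynomial.eval_prod, Polynomial.eval_prod]
    refine ⟨Finset.prod_ne_zero_iff.2 fun P hP => ?_, Finset.prod_ne_zero_iff.2 fun P hP => ?_⟩
    · rw [Polynomial.eval_pow]
      exact pow_ne_zero _ (hev x hx P hP)
    · rw [Polynomial.eval_pow]
      exact pow_ne_zero _ (hev x hx P hP)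
  · rw [euler_max G h2 hG D, coe_prod, coe_prod]
    simp only [Polynomial.coe_pow, hcoe]
    rw [h5, eulerProd_pow (fun n => finite_deg_le (F := k) n) (w1_dvd D)]
    rfl

end

section

variable {k : Type} [Field k] [Finite k] {B : Type} [CommRing B] [IsDedekindDomain B]
  [Algebra (Polynomial k) B] [Module.Finite (Polynomial k) B] [Module.Flat (Polynomial k) B]
  (G : Type) [Group G] [Finite G] [MulSemiringAction G B] [IsGaloisGroup G (Polynomial k) B]

include G in
/-- An Euler product over the maximal ideals of `B` whose factors are modulo three products of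
powers of those of the quadratic character and its shift is a unit modulo three at the powers
of `q`. -/
theorem no_zero_AB (h2 : (2 : k) ≠ 0) (h3 : (3 : k) ≠ 0) {j : ℕ}
    (hG : Nat.card G = 3 ^ j) {g : ℕ} {m D : Polynomial k}
    (hD : IsD g m D) [IsDedekindDomain (CR D)] (hh : ¬ 3 ∣ Nat.card (ClassGroup (CR D)))
    (hram : ∀ P : MI k, (sp P).ramificationIdxIn B ≠ 1 → chi D P.1 ≠ 1) (r s r' s' : ℕ)
    (A : MxD D B → PowerSeries ℤ)
    (hA : ∀ v : MxD D B, (X : PowerSeries ℤ) ^ dgM k v.1 ∣ A v - 1)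
    (hAw : ∀ v : MxD D B, red3 (A v) *
      (wM D v.1 ^ r * rescale ((Nat.card k : ℕ) : ZMod 3) (wM D v.1) ^ s) =
      wM D v.1 ^ r' * rescale ((Nat.card k : ℕ) : ZMod 3) (wM D v.1) ^ s') (i : ℕ) :
    UnitAt k i (eulerProd (fun v : MxD D B => dgM k v.1) A) := by
  have hp : Fact (Nat.Prime 3) := ⟨Nat.prime_three⟩
  obtain ⟨U, V, hU, hUV⟩ := euler_max_line2 G (B := B) h2 hG D hram
  obtain ⟨wZ, hw0, hw1, hw2⟩ := exists_WZ h2 hD.monic hD.deg hD.sqf
  have hw2' := hw2 (three_mod h3)
  have hu := unit3 (three_mod h3)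
  set a : ZMod 3 := ((Nat.card k : ℕ) : ZMod 3) with ha
  have ha0 : a ≠ 0 := by
    rintro h
    rw [h, zero_mul] at hu
    exact zero_ne_one hu
  have hUa := hU a fun P hP => card_pow_cast (tame_card G h3 hG P hP)
  have hU1 := hU 1 fun P _ => one_pow _
  have hfin := fun n => fin_max (B := B) D n
  set w : Polynomial (ZMod 3) := wZ.map (Int.castRingHom (ZMod 3)) with hw
  have e1 : E3 D * (w : PowerSeries (ZMod 3)) = 1 := by
    have := congrArg red3 hw0
    rw [map_mul, map_one, red3_EZ, ← Polynomial.polynomial_map_coe] at this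
    exact this
  have hh' : ((Nat.card (ClassGroup (CR D)) : ℕ) : ZMod 3) ≠ 0 := by
    rw [Ne, ZMod.natCast_eq_zero_iff]
    exact hh
  have hv1 : w.eval 1 ≠ 0 := by
    rw [hw, Polynomial.eval_map, Polynomial.eval₂_at_one, hw1]
    simpa using hh'
  have hva : w.eval a ≠ 0 := by
    rw [hw, hw2']
    exact mul_ne_zero hh' (pow_ne_zero _ ha0)
  have hu2 : ∀ i : ℕ, a ^ i * a ^ i = 1 := fun i => by rw [← mul_pow, hu, one_pow]
  have hcase : ∀ i : ℕ, a ^ i = 1 ∨ a ^ i = a := by
    intro i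
    obtain ⟨l, hl | hl⟩ := Nat.even_or_odd' i
    · left
      rw [hl, two_mul, pow_add, hu2]
    · right
      rw [hl, pow_succ, two_mul, pow_add, hu2, one_mul]
  have hwi : ∀ i : ℕ, w.eval (a ^ i) ≠ 0 := by
    intro i
    rcases hcase i with h | h <;> rw [h]
    exacts [hv1, hva]
  have hUi : ∀ i : ℕ, U.eval (a ^ i) ≠ 0 ∧ V.eval (a ^ i) ≠ 0 := by
    intro i
    rcases hcase i with h | h <;> rw [h]
    exacts [hU1, hUa]
  set EL : PowerSeries (ZMod 3) :=
    eulerProd (fun v : MxD D B => dgM k v.1) (fun v => wM D v.1) with hEL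
  set W : Polynomial (ZMod 3) := U * w ^ 3 ^ j with hW
  have hEW : EL * (W : PowerSeries (ZMod 3)) = V := by
    rw [hW, Polynomial.coe_mul, Polynomial.coe_pow]
    calc EL * ((U : PowerSeries (ZMod 3)) * (w : PowerSeries (ZMod 3)) ^ 3 ^ j) =
        (EL * U) * (w : PowerSeries (ZMod 3)) ^ 3 ^ j := by ring
      _ = (E3 D * w) ^ 3 ^ j * V := by rw [hUV]; ring
      _ = V := by rw [e1, one_pow, one_mul]
  have hWi : ∀ i : ℕ, W.eval (a ^ i) ≠ 0 := by
    intro i
    rw [hW, Polynomial.eval_mul, Polynomial.eval_pow]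
    exact mul_ne_zero (hUi i).1 (pow_ne_zero _ (hwi i))
  set W' : Polynomial (ZMod 3) := W.comp (Polynomial.C a * Polynomial.X) with hW'
  set V' : Polynomial (ZMod 3) := V.comp (Polynomial.C a * Polynomial.X) with hV'
  have hEW' : rescale a EL * (W' : PowerSeries (ZMod 3)) = V' := by
    rw [hW', hV', coe_comp_scale, coe_comp_scale, ← map_mul, hEW]
  have hred : ∀ f g : PowerSeries ℤ, red3 (f * g) = red3 f * red3 g := fun f g => map_mul _ _ _
  set T : PowerSeries (ZMod 3) := red3 (eulerProd (fun v : MxD D B => dgM k v.1) A) with hT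
  have hT' : T = eulerProd (fun v : MxD D B => dgM k v.1) (fun v => red3 (A v)) := by
    rw [hT]
    exact map_eulerProd hfin _
  have hA3 : ∀ v : MxD D B, (X : PowerSeries (ZMod 3)) ^ dgM k v.1 ∣ red3 (A v) - 1 := by
    intro v
    have h := map_dvd (PowerSeries.map (Int.castRingHom (ZMod 3))) (hA v)
    rwa [map_pow, map_sub, map_one, PowerSeries.map_X] at h
  have hwr : ∀ v : MxD D B, (X : PowerSeries (ZMod 3)) ^ dgM k v.1 ∣ rescale a (wM D v.1) - 1 :=
    fun v => rescale_dvd_one a (wM_dvd D v.1)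
  have hprod : ∀ x y : ℕ, eulerProd (fun v : MxD D B => dgM k v.1)
      (fun v => wM D v.1 ^ x * rescale a (wM D v.1) ^ y) = EL ^ x * rescale a EL ^ y := by
    intro x y
    rw [eulerProd_mul hfin (fun v => pow_dvd_sub_one (wM_dvd D v.1) x)
      (fun v => pow_dvd_sub_one (hwr v) y), eulerProd_pow hfin (fun v => wM_dvd D v.1),
      eulerProd_pow hfin hwr, hEL, rescale_eulerProd hfin a (fun v => wM_dvd D v.1)]
  have h1 : T * (EL ^ r * rescale a EL ^ s) = EL ^ r' * rescale a EL ^ s' := by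
    rw [← hprod, ← hprod, hT', ← eulerProd_mul hfin hA3 (fun v =>
      one_mod_mul (pow_dvd_sub_one (wM_dvd D v.1) r) (pow_dvd_sub_one (hwr v) s))]
    simp only [hAw]
  set N1 : Polynomial (ZMod 3) := V ^ r * V' ^ s * (W ^ r' * W' ^ s') with hN1
  set N2 : Polynomial (ZMod 3) := V ^ r' * V' ^ s' * (W ^ r * W' ^ s) with hN2
  have h2' : T * (N1 : PowerSeries (ZMod 3)) = N2 := by
    rw [hN1, hN2]
    simp only [Polynomial.coe_mul, Polynomial.coe_pow]
    rw [← hEW, ← hEW']
    calc T * ((EL * (W : PowerSeries (ZMod 3))) ^ r * (rescale a EL * (W' : PowerSeries (ZMod 3))) ^ s *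
          ((W : PowerSeries (ZMod 3)) ^ r' * (W' : PowerSeries (ZMod 3)) ^ s')) =
        (T * (EL ^ r * rescale a EL ^ s)) * ((W : PowerSeries (ZMod 3)) ^ r *
          (W' : PowerSeries (ZMod 3)) ^ s * ((W : PowerSeries (ZMod 3)) ^ r' *
          (W' : PowerSeries (ZMod 3)) ^ s')) := by ring
      _ = _ := by rw [h1]; ring
  have hN1i : N1.eval (a ^ i) ≠ 0 := by
    rw [hN1]
    simp only [Polynomial.eval_mul, Polynomial.eval_pow, hW', hV', eval_comp_scale, ← pow_succ']
    exact mul_ne_zero (mul_ne_zero (pow_ne_zero _ (hUi i).2) (pow_ne_zero _ (hUi (i + 1)).2))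
      (mul_ne_zero (pow_ne_zero _ (hWi i)) (pow_ne_zero _ (hWi (i + 1))))
  have hN2i : N2.eval (a ^ i) ≠ 0 := by
    rw [hN2]
    simp only [Polynomial.eval_mul, Polynomial.eval_pow, hW', hV', eval_comp_scale, ← pow_succ']
    exact mul_ne_zero (mul_ne_zero (pow_ne_zero _ (hUi i).2) (pow_ne_zero _ (hUi (i + 1)).2))
      (mul_ne_zero (pow_ne_zero _ (hWi i)) (pow_ne_zero _ (hWi (i + 1))))
  clear_value N1 N2
  intro K L hKL
  have hKr : ∀ K : Polynomial ℤ, red3 (K : PowerSeries ℤ) =
      ((K.map (Int.castRingHom (ZMod 3)) : Polynomial (ZMod 3)) : PowerSeries (ZMod 3)) :=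
    fun K => (Polynomial.polynomial_map_coe).symm
  have h5 : T * ((L.map (Int.castRingHom (ZMod 3)) : Polynomial (ZMod 3)) :
      PowerSeries (ZMod 3)) = ((K.map (Int.castRingHom (ZMod 3)) : Polynomial (ZMod 3)) :
      PowerSeries (ZMod 3)) := by
    have h7 := congrArg red3 hKL
    rw [hred, hKr, hKr] at h7
    exact h7
  have h6 : ((N2 * L.map (Int.castRingHom (ZMod 3)) : Polynomial (ZMod 3)) :
      PowerSeries (ZMod 3)) = ((K.map (Int.castRingHom (ZMod 3)) * N1 : Polynomial (ZMod 3)) :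
      PowerSeries (ZMod 3)) := by
    rw [Polynomial.coe_mul, Polynomial.coe_mul, ← h2', ← h5]
    ring
  have h7 := congrArg (Polynomial.eval (a ^ i)) (Polynomial.coe_injective (ZMod 3) h6)
  rw [Polynomial.eval_mul, Polynomial.eval_mul] at h7
  have h8 : ∀ K : Polynomial ℤ, (K.map (Int.castRingHom (ZMod 3))).eval (a ^ i) = 0 ↔
      (3 : ℤ) ∣ K.eval ((Nat.card k : ℤ) ^ i) := by
    intro K
    have h9 : (a ^ i : ZMod 3) = Int.castRingHom (ZMod 3) ((Nat.card k : ℤ) ^ i) := by
      rw [map_pow, ha]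
      simp
    rw [h9, Polynomial.eval_map, Polynomial.eval₂_at_apply]
    exact ZMod.intCast_zmod_eq_zero_iff_dvd _ 3
  rw [← h8 K, ← h8 L]
  constructor
  · intro h
    rw [h, zero_mul] at h7
    exact (mul_eq_zero.1 h7).resolve_left hN2i
  · intro h
    rw [h, mul_zero] at h7
    exact (mul_eq_zero.1 h7.symm).resolve_right hN1i

end

end Pool.Agent.Y711
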