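import Mathlib

/-!
# Definitions: quadratic twists of hyperelliptic curves over `k(t)` and their L-functions

Let `k` be a finite field with `q` elements, `q` odd, and let `y ^ 2 = f(x)` be a hyperelliptic curve
over `k(t)`, where `f` is a polynomial in `x` with coefficients in `k[t]`. For a squarefree polynomial
`D` in `k[t]` of odd degree the curve `y ^ 2 = D f(x)` is its quadratic twist by `k(t)(√D)`. Let `B`
be the integral closure of `k[t]` in a finite extension `L` of `k(t)`; its maximal ideals are the
places of `L` not over infinity.
-/

set_option autoImplicit false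

open Polynomial

namespace Pool.Agent.Y711

open Classical in
/-- The quadratic symbol of `x`: `0` if `x` is zero, `1` if `x` is a nonzero square, `-1` if `x` is
not a square. -/
noncomputable def quadSym {R : Type} [CommRing R] (x : R) : ℤ :=
  if x = 0 then 0 else if IsSquare x then 1 else -1

/-- The infinite product of the power series `f i`, where `f i` is `1` plus terms of degree at least
`d i`: its coefficient of index `n` is that of the product over all `i` with `d i ≤ n`. -/
noncomputable def eulerProduct {ι : Type} (d : ι → ℕ) (f : ι → PowerSeries ℤ) : PowerSeries ℤ :=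
  PowerSeries.mk fun n => PowerSeries.coeff n (∏ᶠ (i : ι) (_ : d i ≤ n), f i)

/-- The quadratic symbol of the point at infinity in the curve `y ^ 2 = h(x)`: it is ramified if `h`
has odd degree, and otherwise split or inert according to the leading coefficient. -/
noncomputable def symInf {F : Type} [CommRing F] (h : F[X]) : ℤ :=
  if Even h.natDegree then quadSym h.leadingCoeff else 0

/-- Let `F` be a finite field and `h` a squarefree polynomial over `F`. This is the product of
`1 - χ(Q) X ^ (d deg Q)` over the closed points `Q` of the projective line over `F`, where `χ(Q)` is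
`1`, `-1` or `0` if `Q` is split, inert or ramified in the curve `y ^ 2 = h(x)`; the closed points of
the affine line are the monic irreducible polynomials. It equals `P(X ^ d)⁻¹`, where `P` is the
numerator of the zeta function of that curve, which is the reversed characteristic polynomial of its
Frobenius. -/
noncomputable def localSeries {F : Type} [CommRing F] (d : ℕ) (h : F[X]) : PowerSeries ℤ :=
  eulerProduct (fun Q : {Q : F[X] // Q.Monic ∧ Irreducible Q} => d * Q.1.natDegree)
    (fun Q => 1 - PowerSeries.C (quadSym (AdjoinRoot.mk Q.1 h)) *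
      PowerSeries.X ^ (d * Q.1.natDegree)) *
  (1 - PowerSeries.C (symInf h) * PowerSeries.X ^ d)

section

variable {k : Type} [Field k]

/-- The degree over `k` of the maximal ideal `𝔓`: the residue field has `q ^ deg 𝔓` elements. -/
noncomputable def residueDeg (k : Type) [Field k] {B : Type} [CommRing B] (𝔓 : Ideal B) : ℕ :=
  Nat.log (Nat.card k) (Nat.card (B ⧸ 𝔓))

/-- The `L`-function of the Jacobian of the curve `y ^ 2 = D f(x)` over the field of fractions of
`B`, as a power series in `X = q ^ (-s)`, where `B` is the integral closure of `k[t]` in a finite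
extension of `k(t)`: the product of the local factors over the maximal ideals of `B` which do not
contain `D`. -/
noncomputable def LSeries (f : k[X][X]) (D : k[X]) (B : Type) [CommRing B] [Algebra k[X] B] :
    PowerSeries ℤ :=
  eulerProduct (fun 𝔓 : {𝔓 : Ideal B // 𝔓.IsMaximal ∧ algebraMap k[X] B D ∉ 𝔓} =>
      residueDeg k 𝔓.1)
    (fun 𝔓 => localSeries (residueDeg k 𝔓.1)
      (C (algebraMap k[X] (B ⧸ 𝔓.1) D) * f.map (algebraMap k[X] (B ⧸ 𝔓.1))))

/-- The `L`-function is a polynomial `(1 - q X) G(X)` with an integral polynomial `G`; that is, it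
vanishes at `s = 1`, where `X = q ^ (-1)`. -/
def VanishesAtOne (f : k[X][X]) (D : k[X]) (B : Type) [CommRing B] [Algebra k[X] B] : Prop :=
  ∃ G : ℤ[X], LSeries f D B = (((1 - C (Nat.card k : ℤ) * X) * G : ℤ[X]) : PowerSeries ℤ)

/-- `L` is a Galois extension of `k(t)` of degree a power of three, and no maximal ideal of the
integral closure of `k[t]` in `L` which is ramified over `k[t]` splits in `L(√D)`. -/
structure IsThreeExtension (D : k[X]) (L : Type) [Field L] [Algebra k[X] L]
    [Algebra (RatFunc k) L] : Prop where
  galois : IsGalois (RatFunc k) L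
  degree : ∃ j : ℕ, Module.finrank (RatFunc k) L = 3 ^ j
  ramified : ∀ 𝔓 : Ideal (integralClosure k[X] L), 𝔓.IsMaximal → 𝔓.ramificationIdx k[X] ≠ 1 →
    quadSym (algebraMap k[X] (integralClosure k[X] L ⧸ 𝔓) D) ≠ 1

/-- The monic squarefree polynomials of degree `2 g + 1` divisible by `m`. -/
def twists (g : ℕ) (m : k[X]) : Set k[X] :=
  {D | D.Monic ∧ D.natDegree = 2 * g + 1 ∧ Squarefree D ∧ m ∣ D}

/-- Those `D` for which the `L`-function of the Jacobian of `y ^ 2 = D f(x)` over `L` does not vanish
at `s = 1`, for all the extensions `L` of `k(t)` above. -/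
def goodTwists (f : k[X][X]) (g : ℕ) (m : k[X]) : Set k[X] :=
  {D | D ∈ twists g m ∧ ∀ (L : Type) [Field L] [Algebra k[X] L] [Algebra (RatFunc k) L]
    [IsScalarTower k[X] (RatFunc k) L], IsThreeExtension D L →
      ¬ VanishesAtOne f D (integralClosure k[X] L)}

/-- The curve `y ^ 2 = f(x)` has genus `γ` and good reduction at all places of `k[t]` which do not
divide `m`. -/
def HasGoodReduction (γ : ℕ) (f : k[X][X]) (m : k[X]) : Prop :=
  ∀ (F : Type) [Field F] [Finite F] (φ : k[X] →+* F), φ m ≠ 0 →
    ((f.map φ).natDegree = 2 * γ + 1 ∨ (f.map φ).natDegree = 2 * γ + 2) ∧ Squarefree (f.map φ)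

/-- The curve `y ^ 2 = f(x)` has genus `γ` and good reduction at all places of `k[t]` which do not
divide `m`, and for each of its fibres over finite fields `F` at such places the Frobenius has a
characteristic polynomial congruent to `((T - 1) (T - |F|)) ^ γ` modulo three. -/
def IsUnipotent (γ : ℕ) (f : k[X][X]) (m : k[X]) : Prop :=
  HasGoodReduction γ f m ∧
  ∀ (F : Type) [Field F] [Finite F] (φ : k[X] →+* F), φ m ≠ 0 →
    PowerSeries.map (Int.castRingHom (ZMod 3)) (localSeries 1 (f.map φ)) *
      ((1 - PowerSeries.X) * (1 - PowerSeries.C (Nat.card F : ZMod 3) * PowerSeries.X)) ^ γ = 1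

end

end Pool.Agent.Y711
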