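import Pool.Agent.Y711.DefC

/-!
# Definitions: L-functions of products of hyperelliptic curves over extensions of `k(t)`
-/

set_option autoImplicit false

open Polynomial

namespace Pool.Agent.Y711

/-- The trace of the `r`-th power of the Frobenius on the first cohomology of the curve
`y ^ 2 = h(x)` over the finite field `F`, `h` squarefree: minus the sum of the quadratic symbols of
`h` over the points of the projective line over the extension of `F` of degree `r`. Each monic
irreducible polynomial `Q` of degree dividing `r` contributes `deg Q` points. -/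
noncomputable def frobTrace {F : Type} [CommRing F] (h : F[X]) (r : ℕ) : ℤ :=
  -(∑ᶠ (Q : F[X]) (_ : Q.Monic ∧ Irreducible Q ∧ Q.natDegree ∣ r),
      (Q.natDegree : ℤ) * quadSym (AdjoinRoot.mk Q h) ^ (r / Q.natDegree)) - symInf h ^ r

/-- The trace of the `r`-th power of the Frobenius on the cohomology of degree `w` of the product of
the curves `y ^ 2 = h i (x)` over the finite field `F`. By the Künneth formula it is the coefficient
of `T ^ w` in the product of the polynomials `1 + a T + |F| ^ r T ^ 2`, whose coefficients are the
traces on the cohomology of the curves in the degrees `0`, `1` and `2`. -/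
noncomputable def productTrace {F : Type} [CommRing F] {n : ℕ} (w : ℕ) (h : Fin n → F[X]) (r : ℕ) :
    ℤ :=
  (∏ i, (1 + C (frobTrace (h i) r) * X + C ((Nat.card F : ℤ) ^ r) * X ^ 2)).coeff w

/-- The power series `exp (∑ (r ≥ 1), s r * X ^ (d r) / r)`. -/
noncomputable def expSeries (d : ℕ) (s : ℕ → ℤ) : PowerSeries ℚ :=
  (PowerSeries.exp ℚ).subst
    (PowerSeries.mk fun e => if d ∣ e then (s (e / d) : ℚ) / ((e / d : ℕ) : ℚ) else 0)

section

variable {k : Type} [Field k]

/-- The L-function of the cohomology of degree `w` of the product of the curves `y ^ 2 = D f i (x)`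
over the field of fractions of `B`, as a power series in `X = q ^ (-s)`, where `B` is the integral
closure of `k[t]` in a finite extension of `k(t)`: the product of the local factors
`det (1 - Frob X ^ deg 𝔓) ⁻¹` over the maximal ideals `𝔓` of `B` which do not contain `D`. -/
noncomputable def productL {n : ℕ} (w : ℕ) (f : Fin n → k[X][X]) (D : k[X]) (B : Type) [CommRing B]
    [Algebra k[X] B] : PowerSeries ℚ :=
  PowerSeries.mk fun N => PowerSeries.coeff N
    (∏ᶠ (𝔓 : {𝔓 : Ideal B // 𝔓.IsMaximal ∧ algebraMap k[X] B D ∉ 𝔓})
      (_ : residueDeg k 𝔓.1 ≤ N),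
      expSeries (residueDeg k 𝔓.1) (productTrace w fun i =>
        C (algebraMap k[X] (B ⧸ 𝔓.1) D) * (f i).map (algebraMap k[X] (B ⧸ 𝔓.1))))

/-- The power series is a polynomial divisible by `1 - q ^ j X`, that is, vanishing at
`X = q ^ (-j)`, where `q` is the number of elements of `k`. -/
def ZeroAt (k : Type) (j : ℕ) (L : PowerSeries ℚ) : Prop :=
  ∃ G : ℚ[X], L = (((1 - C ((Nat.card k : ℚ) ^ j) * X) * G : ℚ[X]) : PowerSeries ℚ)

end

end Pool.Agent.Y711
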