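import Mathlib

/-!
# The lines through a point and an elliptic curve with a point of order three
-/

set_option autoImplicit false

open Polynomial

namespace Pool.Agent.Y711

/-- The discriminant of the cubic polynomial `z ^ 3 + (α z + β) ^ 2 - (b + x (z - a)) ^ 2` in `z`, a
polynomial of degree six in `x`: it describes the intersections of the elliptic curve
`y ^ 2 = z ^ 3 + (α z + β) ^ 2` with the lines through the point `(a, b)`. -/
noncomputable def linePencil {R : Type} [CommRing R] (α β a b : R) : R[X] :=
  Cubic.discr ⟨1, C α ^ 2 - X ^ 2, 2 * (C α * C β - X * (C b - C a * X)),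
    C β ^ 2 - (C b - C a * X) ^ 2⟩

end Pool.Agent.Y711
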