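import Pool.Agent.Y711.DefC
import Pool.Agent.Y711.DefP

/-!
# Definitions: curves with nodal fibres
-/

set_option autoImplicit false

open Polynomial

namespace Pool.Agent.Y711

section

variable {k : Type} [Field k]

/-- The fibres of `y ^ 2 = f(x)` at the places of `k[t]` outside `m n` are smooth of genus `γ`; the
fibres at the places dividing `n` but not `m` have exactly one singular point, a node with rational
coordinates. -/
def HasNodalReduction (γ : ℕ) (f : k[X][X]) (m n : k[X]) : Prop :=
  ∀ (F : Type) [Field F] [Finite F] (φ : k[X] →+* F), φ m ≠ 0 →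
    (φ n ≠ 0 →
      ((f.map φ).natDegree = 2 * γ + 1 ∨ (f.map φ).natDegree = 2 * γ + 2) ∧
      Squarefree (f.map φ)) ∧
    (φ n = 0 → ∃ (c : F) (u : F[X]), f.map φ = (X - C c) ^ 2 * u ∧ u.eval c ≠ 0 ∧
      (u.natDegree = 2 * γ - 1 ∨ u.natDegree = 2 * γ) ∧ Squarefree u)

end

end Pool.Agent.Y711
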