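import Pool.Agent.Y711.DefS

/-!
# Definitions: tensor products of the cohomology of hyperelliptic curves and cyclic covers of the line
-/

set_option autoImplicit false

open Polynomial

namespace Pool.Agent.Y711

/-- The trace of the `r`-th power of the Frobenius on the tensor product of the first cohomology
groups of the hyperelliptic curves `y ^ 2 = p i (x)` and of the first cohomology groups with compact
support of the affine curves `y ^ N i = f i (x)` over the finite field `F`. -/
noncomputable def tensorTrace {F : Type} [CommRing F] {u v : ℕ} (p : Fin u → F[X]) (N : Fin v → ℕ)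
    (f : Fin v → F[X]) (r : ℕ) : ℤ :=
  (∏ i, frobTrace (p i) r) * ∏ i, coverTrace (N i) (f i) r

section

variable {k : Type} [Field k]

/-- The L-function over the field of fractions of `B` of `H ⊗ χ`, as a power series in
`X = q ^ (-s)`: `H` is the tensor product of the first cohomology groups of the curves
`y ^ 2 = p i (x)` and of the first cohomology groups with compact support of the affine curves
`y ^ N i = f i (x)` over `k(t)`, `χ` is the quadratic character of the extension by `√D`, and `B` is
the integral closure of `k[t]` in a finite extension of `k(t)`. It is the product of the local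
factors over the maximal ideals of `B` which do not contain `D`. -/
noncomputable def tensorL {u v : ℕ} (p : Fin u → k[X][X]) (N : Fin v → ℕ) (f : Fin v → k[X][X])
    (D : k[X]) (B : Type) [CommRing B] [Algebra k[X] B] : PowerSeries ℚ :=
  PowerSeries.mk fun n => PowerSeries.coeff n
    (∏ᶠ (𝔓 : {𝔓 : Ideal B // 𝔓.IsMaximal ∧ algebraMap k[X] B D ∉ 𝔓})
      (_ : residueDeg k 𝔓.1 ≤ n),
      expSeries (residueDeg k 𝔓.1) fun r => quadSym (algebraMap k[X] (B ⧸ 𝔓.1) D) ^ r *
        tensorTrace (fun i => (p i).map (algebraMap k[X] (B ⧸ 𝔓.1))) N
          (fun i => (f i).map (algebraMap k[X] (B ⧸ 𝔓.1))) r)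

end

end Pool.Agent.Y711
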