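import Pool.Agent.Y711.DefR

/-!
# Definitions: reductions of double covers over number fields
-/

set_option autoImplicit false

open Polynomial

namespace Pool.Agent.Y711

/-- Let `k` be a finite field and let `m`, `D` be polynomials over `k`. The polynomial `D` is
squarefree, and the quotient of the zeta functions of `Z = Spec R` and of its double cover
`w ^ 2 = D h` is a unit modulo three at all integers, for all Galois extensions `L` of `k(t)` of degree
a power of three in which no ramified place splits in `L(√D)`, all schemes `Z` of finite type over the
integral closure of `k[t]` in `L`, and all `h` in `R` for which the double covers `w ^ 2 = h` of the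
fibres outside `m` are unipotent modulo three. -/
def IsGoodTwist (k : Type) [Field k] (m D : k[X]) : Prop :=
  Squarefree D ∧
  ∀ (L : Type) [Field L] [Algebra k[X] L] [Algebra (RatFunc k) L]
    [IsScalarTower k[X] (RatFunc k) L], IsThreeExtension D L →
  ∀ (b c b' c' : ℕ) (R : Type) [CommRing R] [Algebra (integralClosure k[X] L) R]
    [Algebra.FiniteType (integralClosure k[X] L) R] (h : R),
    IsUnipotentDouble b c b' c' h (algebraMap k[X] (integralClosure k[X] L) m) →
      ∀ j : ℕ, UnitAt k j (doubleSeries k (algebraMap (integralClosure k[X] L) R
        (algebraMap k[X] (integralClosure k[X] L) D) * h))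

end Pool.Agent.Y711
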