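import Pool.Agent.Y711.DefC

/-!
# Definitions: double covers of families of varieties over `k[t]` and their L-functions
-/

set_option autoImplicit false

open Polynomial
open scoped TensorProduct

namespace Pool.Agent.Y711

/-- The product of `1 - (h / 𝔐) X ^ deg 𝔐` over the maximal ideals `𝔐` of the ring `A`, where
`(h / 𝔐)` is the quadratic symbol of `h` in the residue field of `𝔐`, which has `|k| ^ deg 𝔐`
elements. If `k` is a finite field and `A` a finitely generated `k`-algebra, it is the quotient
`ζ(A, s) / ζ(A[w] / (w ^ 2 - h), s)` of zeta functions, `X = |k| ^ (-s)`: a maximal ideal `𝔐` has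
two, one or one maximal ideals of degree `deg 𝔐`, `2 deg 𝔐` or `deg 𝔐` over it if `(h / 𝔐)` is
`1`, `-1` or `0`. -/
noncomputable def doubleSeries (k : Type) [Field k] {A : Type} [CommRing A] (h : A) :
    PowerSeries ℤ :=
  eulerProduct (fun 𝔐 : {𝔐 : Ideal A // 𝔐.IsMaximal} => residueDeg k 𝔐.1)
    (fun 𝔐 => 1 - PowerSeries.C (quadSym (Ideal.Quotient.mk 𝔐.1 h)) *
      PowerSeries.X ^ residueDeg k 𝔐.1)

/-- Let `R` be an algebra over the ring `B`, that is, a family of affine varieties over the scheme
`Spec B`, and let `h` be an element of `R`. For each fibre over a finite field `F`, at the points of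
`Spec B` outside `m`, the quotient of the zeta functions of the fibre and of its double cover
`w ^ 2 = h` is congruent to `(1 - X) ^ (a' - a) (1 - |F| X) ^ (b' - b)` modulo three. -/
def IsUnipotentDouble {B : Type} [CommRing B] (a b a' b' : ℕ) {R : Type} [CommRing R]
    [Algebra B R] (h : R) (m : B) : Prop :=
  ∀ (F : Type) [Field F] [Finite F] [Algebra B F], algebraMap B F m ≠ 0 →
    PowerSeries.map (Int.castRingHom (ZMod 3)) (doubleSeries F ((1 : F) ⊗ₜ[B] h)) *
      ((1 - PowerSeries.X) ^ a *
        (1 - PowerSeries.C (Nat.card F : ZMod 3) * PowerSeries.X) ^ b) =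
      (1 - PowerSeries.X) ^ a' *
        (1 - PowerSeries.C (Nat.card F : ZMod 3) * PowerSeries.X) ^ b'

/-- The power series `T` is a unit modulo three at `X = q ^ (-j)`, where `q` is the number of
elements of `k`: if it is the quotient `U / V` of two integral polynomials, then `3` divides `U(q ^ j)`
if and only if it divides `V(q ^ j)` (here `q ^ j` and `q ^ (-j)` are congruent modulo three). In
particular, if `T` or its inverse is a polynomial then it does not vanish at `X = q ^ (-j)`. -/
def UnitAt (k : Type) (j : ℕ) (T : PowerSeries ℤ) : Prop :=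
  ∀ U V : ℤ[X], T * (V : PowerSeries ℤ) = (U : PowerSeries ℤ) →
    ((3 : ℤ) ∣ U.eval ((Nat.card k : ℤ) ^ j) ↔ (3 : ℤ) ∣ V.eval ((Nat.card k : ℤ) ^ j))

end Pool.Agent.Y711
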