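import Pool.Agent.Y711.DefB

/-!
# Definitions: cyclic covers of the line over `k(t)` and the quadratic twists of their Jacobians
-/

set_option autoImplicit false

open Polynomial

namespace Pool.Agent.Y711

/-- The number of the solutions of `y ^ N = c` in the extension of degree `s` of the finite field
`R`: each monic irreducible factor of `Y ^ N - c` of degree dividing `s` contributes its degree. -/
noncomputable def rootCount {R : Type} [CommRing R] (N : ℕ) (c : R) (s : ℕ) : ℤ :=
  ∑ᶠ (P : R[X]) (_ : P.Monic ∧ Irreducible P ∧ P ∣ X ^ N - C c ∧ P.natDegree ∣ s),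
    (P.natDegree : ℤ)

/-- The trace of the `r`-th power of the Frobenius on the first cohomology with compact support of
the affine curve `y ^ N = g(x)` over the finite field `F`, that is, `|F| ^ r` minus the number of
its points over the extension of degree `r`. Each monic irreducible polynomial `Q` of degree
dividing `r` stands for `deg Q` values of `x`. -/
noncomputable def coverTrace {F : Type} [CommRing F] (N : ℕ) (g : F[X]) (r : ℕ) : ℤ :=
  ∑ᶠ (Q : F[X]) (_ : Q.Monic ∧ Irreducible Q ∧ Q.natDegree ∣ r),
    (Q.natDegree : ℤ) * (1 - rootCount N (AdjoinRoot.mk Q g) (r / Q.natDegree))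

section

variable {k : Type} [Field k]

/-- The L-function over the field of fractions of `B` of `H ⊗ χ`, as a power series in
`X = q ^ (-s)`: `H` is the first cohomology with compact support of the affine curve `y ^ N = f(x)`
over `k(t)`, `χ` is the quadratic character of the extension by `√D`, and `B` is the integral
closure of `k[t]` in a finite extension of `k(t)`. It is the product of the local factors over the
maximal ideals of `B` which do not contain `D`. -/
noncomputable def coverL (N : ℕ) (f : k[X][X]) (D : k[X]) (B : Type) [CommRing B]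
    [Algebra k[X] B] : PowerSeries ℚ :=
  PowerSeries.mk fun n => PowerSeries.coeff n
    (∏ᶠ (𝔓 : {𝔓 : Ideal B // 𝔓.IsMaximal ∧ algebraMap k[X] B D ∉ 𝔓})
      (_ : residueDeg k 𝔓.1 ≤ n),
      expSeries (residueDeg k 𝔓.1) fun r => quadSym (algebraMap k[X] (B ⧸ 𝔓.1) D) ^ r *
        coverTrace N (f.map (algebraMap k[X] (B ⧸ 𝔓.1))) r)

/-- The reductions of `f` at the places of `k[t]` outside `m` are not zero and have exactly `n`
distinct roots, `n > 0`, whose degrees over the residue field are powers of three; for instance
`f = a ∏ (x - b i) ^ (e i)` with `a`, `b i` and the differences of the `b i` prime to all places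
outside `m`. -/
def IsBranch (n : ℕ) (f : k[X][X]) (m : k[X]) : Prop :=
  0 < n ∧ ∀ (F : Type) [Field F] [Finite F] (φ : k[X] →+* F), φ m ≠ 0 → f.map φ ≠ 0 ∧
    (∑ᶠ (Q : F[X]) (_ : Q.Monic ∧ Irreducible Q ∧ Q ∣ f.map φ), Q.natDegree) = n ∧
    ∀ Q : F[X], Q.Monic → Irreducible Q → Q ∣ f.map φ → ∃ e : ℕ, Q.natDegree = 3 ^ e

end

end Pool.Agent.Y711
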