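import Mathlib

/-!
# Curves whose Jacobian has a rational point of order a power of three
-/

set_option autoImplicit false

open Polynomial

namespace Pool.Agent.Y711

/-- The polynomial `c x ^ (3 n) + (α x ^ n + β) ^ 2` with `n = 3 ^ e`. The Jacobian of the curve
`y ^ 2 = c x ^ (3 n) + (α x ^ n + β) ^ 2` has a rational point of order `3 n`; for `n = 1` these are
the elliptic curves with a rational point of order three. -/
noncomputable def torsionCurve {R : Type} [CommRing R] (c α β : R) (e : ℕ) : R[X] :=
  C c * X ^ (3 * 3 ^ e) + (C α * X ^ 3 ^ e + C β) ^ 2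

end Pool.Agent.Y711
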