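import Mathlib

/-!
# Zeta functions of hypersurfaces fibred over the line

Let `k` be a finite field with `q` elements and let `D`, `c i`, `α i`, `β i` be polynomials in `t`
over `k`. We consider the hypersurface
`y ^ 2 = D(t) * ∏ i, (c i(t) * x i ^ (3 * N i) + (α i(t) * x i ^ (N i) + β i(t)) ^ 2)`
in the affine space with coordinates `t, x 1, …, x n, y`, where `N i = 3 ^ (e i)`. It is fibred over
the line with coordinate `t`. For `N i = 1` the factors define elliptic curves over `k(t)` with a
rational point of order three.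
-/

set_option autoImplicit false

open Polynomial

namespace Pool.Agent.Y711.Zeta

variable {k : Type} [Field k]

/-- The equation of the hypersurface for the point `(t, x, y)` with coordinates in `K`. -/
def OnHypersurface {K : Type} [Field K] [Algebra k K] {n : ℕ} (D : k[X]) (c α β : Fin n → k[X])
    (e : Fin n → ℕ) (t : K) (x : Fin n → K) (y : K) : Prop :=
  y ^ 2 = aeval t D * ∏ i, (aeval t (c i) * x i ^ (3 * 3 ^ e i) +
    (aeval t (α i) * x i ^ 3 ^ e i + aeval t (β i)) ^ 2)

/-- The number of the points of the hypersurface whose coordinates are in the extension of degree `r`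
of `k`, that is, are elements `z` of the algebraic closure of `k` with `z ^ (q ^ r) = z`. -/
noncomputable def numPoints {n : ℕ} (D : k[X]) (c α β : Fin n → k[X]) (e : Fin n → ℕ) (r : ℕ) : ℕ :=
  {P : AlgebraicClosure k × (Fin n → AlgebraicClosure k) × AlgebraicClosure k |
    P.1 ^ (Nat.card k ^ r) = P.1 ∧ (∀ i, P.2.1 i ^ (Nat.card k ^ r) = P.2.1 i) ∧
    P.2.2 ^ (Nat.card k ^ r) = P.2.2 ∧ OnHypersurface D c α β e P.1 P.2.1 P.2.2}.ncard

/-- The zeta function with the numbers of points `N r`: the power series
`exp (∑ (r ≥ 1), N r * T ^ r / r)`. -/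
noncomputable def zeta (N : ℕ → ℕ) : PowerSeries ℚ :=
  (PowerSeries.exp ℚ).subst (PowerSeries.mk fun r => (N r : ℚ) / r)

/-- `Z(T) = 1 / ((1 - q ^ d T) * (1 - q ^ j T) * G(T))` with a polynomial `G`: besides the factor
`1 - q ^ d T` with the dimension `d`, the denominator has a factor vanishing at `T = q ^ (-j)`. -/
def HasPole (q d j : ℕ) (Z : PowerSeries ℚ) : Prop :=
  ∃ G : ℚ[X], Z * (((1 - C ((q : ℚ) ^ d) * X) * (1 - C ((q : ℚ) ^ j) * X) * G : ℚ[X]) :
    PowerSeries ℚ) = 1

/-- The curve `y ^ 2 = c x ^ (3 N) + (α x ^ N + β) ^ 2` over `k(t)` has good reduction at all monic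
irreducible polynomials which do not divide `m`: for a power `N` of three the discriminant of the
right hand side divides a constant times a power of `c β (4 α ^ 3 - 27 c β)`. -/
def GoodReduction (c α β m : k[X]) : Prop :=
  ∃ r : ℕ, c * β * (4 * α ^ 3 - 27 * (c * β)) ∣ m ^ r

/-- The monic squarefree polynomials of degree `2 g + 1` divisible by `m`. -/
def twists (g : ℕ) (m : k[X]) : Set k[X] :=
  {D | D.Monic ∧ D.natDegree = 2 * g + 1 ∧ Squarefree D ∧ m ∣ D}

/-- Those `D` for which the zeta functions of all the hypersurfaces with an odd number `n` of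
factors with good reduction outside `m` have no pole at any integer besides the pole at their
dimension `n + 1`. -/
def goodTwists (g : ℕ) (m : k[X]) : Set k[X] :=
  {D | D ∈ twists g m ∧ ∀ (n : ℕ) (c α β : Fin n → k[X]) (e : Fin n → ℕ), Odd n →
    (∀ i, GoodReduction (c i) (α i) (β i) m) →
    ∀ j : ℕ, ¬ HasPole (Nat.card k) (n + 1) j (zeta (numPoints D c α β e))}

end Pool.Agent.Y711.Zeta
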