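import Pool.Agent.Y711.Tri4
import Pool.Agent.Y711.CL4

/-!
Nodal fibres: linear polynomials, nodal cubics.
-/

set_option autoImplicit false
set_option maxHeartbeats 1000000

open Polynomial

namespace Pool.Agent.Y711

open Pool.Agent.W313.Hyp Pool.Agent.W343.BSD Pool.Agent.Y784.FC

section

variable {F : Type} [Field F] [Finite F]

omit [Finite F] in
theorem mi_eq_ptc (c : F) : mi c = ptc c := Subtype.ext rfl

/-- the line -/
theorem EP_X : EP (fun P : MI F => (X : (RF P)[X])) (ZMod 3) = zf F := by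
  have h1 := EP_rel (fun P : MI F => (X : (RF P)[X])) (fun _ => 1)
    (fun P => (1 - PowerSeries.X ^ P.1.natDegree))
    (fun P => by rw [sub_self]; exact dvd_zero _) (fun P => by rw [mul_one, pr_X])
  rw [eulerProd_one, mul_one, euler_zf] at h1
  exact h1

/-- linear polynomials -/
theorem E3_lin (h2 : (2 : F) ≠ 0) {a : F} (ha : a ≠ 0) (b : F) : E3 (C a * X + C b) = 1 := by
  classical
  have h1 : EP (Gq (C a * X + C b)) (ZMod 3) = EP (fun P : MI F => (X : (RF P)[X])) (ZMod 3) := by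
    refine EP_congr _ _ (fun P => Gq_ne _ _) (fun P => X_ne_zero) ?_ _
    intro L _ _ _
    set a' := algebraMap F L a with ha'
    set b' := algebraMap F L b with hb'
    have ha0 : a' ≠ 0 := by
      rw [ha']
      exact (_root_.map_ne_zero _).2 ha
    refine ⟨fun x y => y ^ 2 - (a' * x + b') = 0, fun _ y => y = 0, ?_, ?_, ?_⟩
    · intro P x hx y
      have hg : aeval x (C a * X + C b) = a' * x + b' := by
        simp only [map_add, map_mul, aeval_X, aeval_C, ha', hb']
      rw [eval_Gq hx, hg]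
    · intro P x hx y
      rw [eval₂_X]
    · refine Finset.card_bij (fun z _ => (z.2, (0 : L))) ?_ ?_ ?_
      · rintro ⟨x, y⟩ hz
        simp
      · rintro ⟨x, y⟩ hz ⟨x', y'⟩ hz' h
        simp only [Finset.mem_filter, Finset.mem_univ, true_and, Prod.mk.injEq] at hz hz' h
        obtain ⟨h4, -⟩ := h
        subst h4
        have : x = x' := by
          apply mul_left_cancel₀ ha0
          linear_combination hz' - hz
        rw [this]
      · rintro ⟨x, y⟩ hz
        simp only [Finset.mem_filter, Finset.mem_univ, true_and] at hz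
        refine ⟨((x ^ 2 - b') / a', x), ?_, ?_⟩
        · simp only [Finset.mem_filter, Finset.mem_univ, true_and]
          field_simp
          ring
        · simp only [hz]
  rw [EP_Gq h2, EP_X] at h1
  apply mul_left_cancel₀ (zf_ne (F := F))
  rw [h1, mul_one]

/-- the Euler product at a node -/
theorem E3_node (h2 : (2 : F) ≠ 0) (c : F) (u : F[X]) :
    E3 ((X - C c) ^ 2 * u) * (1 - PowerSeries.C ((qc (u.eval c) : ℤ) : ZMod 3) * PowerSeries.X) =
      E3 u := by
  have h1 := congrArg red3 (locS_node h2 c u 1 one_ne_zero)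
  rw [map_mul, locS_E3, locS_E3, cinf_sq_mul, map_sub, map_one, map_mul, PowerSeries.map_C,
    map_pow, PowerSeries.map_X, pow_one] at h1
  apply mul_right_cancel₀ (lin_ne ((cinf u : ℤ) : ZMod 3))
  rw [← h1]
  have e1 : (Int.castRingHom (ZMod 3)) (qc (u.eval c)) = ((qc (u.eval c) : ℤ) : ZMod 3) := rfl
  rw [e1]
  ring

/-- a nodal cubic with the node at `0` -/
theorem E3_gE_zero (h2 : (2 : F) ≠ 0) {α : F} (hα : α ≠ 0) :
    E3 (gE α 0) * (1 - PowerSeries.X) = 1 := by
  have h1 : gE α 0 = (X - C 0) ^ 2 * (C 1 * X + C (α ^ 2)) := by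
    unfold gE
    simp only [C_0, C_1, C_pow]
    ring
  have h3 := E3_node h2 0 (C 1 * X + C (α ^ 2))
  rw [← h1, E3_lin h2 one_ne_zero] at h3
  have h4 : (C 1 * X + C (α ^ 2) : F[X]).eval 0 = α ^ 2 := by simp
  rw [h4, qc_sq hα, Int.cast_one, map_one, one_mul] at h3
  exact h3

/-- the other nodal cubic -/
theorem E3_gE_node (h2 : (2 : F) ≠ 0) (h3 : (3 : F) ≠ 0) {γ : F} (hγ : γ ≠ 0) :
    E3 (gE (3 * γ) (4 * γ ^ 3)) * zf F = 1 := by
  have h1 : gE (3 * γ) (4 * γ ^ 3) = (X - C (-(4 * γ ^ 2))) ^ 2 * (C 1 * X + C (γ ^ 2)) := by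
    unfold gE
    simp only [C_1, C_pow, C_neg, C_mul, map_ofNat]
    ring
  have h4 := E3_node h2 (-(4 * γ ^ 2)) (C 1 * X + C (γ ^ 2))
  rw [← h1, E3_lin h2 one_ne_zero] at h4
  have h5 : (C 1 * X + C (γ ^ 2) : F[X]).eval (-(4 * γ ^ 2)) = -3 * γ ^ 2 := by
    simp
    ring
  rw [h5, qc_neg_three_sq h2 h3 hγ] at h4
  exact h4

end

end Pool.Agent.Y711
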