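import Pool.Agent.Y711.GN1

/-!
Nodal fibres of the pencils of lines: algebra.
-/

set_option autoImplicit false
set_option maxHeartbeats 1000000

open Polynomial

namespace Pool.Agent.Y711

open Pool.Agent.W313.Hyp Pool.Agent.W343.BSD Pool.Agent.Y784.FC

section alg

variable {F : Type} [Field F]

/-- a cubic polynomial with discriminant zero -/
theorem disc_double [Finite F] (h2 : (2 : F) ≠ 0) {u v w : F} (h : disc3 u v w = 0) :
    ∃ s t : F, u = -(2 * s + t) ∧ v = s ^ 2 + 2 * s * t ∧ w = -(s ^ 2 * t) := by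
  by_cases hr : ∃ r : F, r ^ 3 + u * r ^ 2 + v * r + w = 0
  · obtain ⟨r, hr⟩ := hr
    obtain ⟨m, hm⟩ : ∃ m : F, m = u + r := ⟨_, rfl⟩
    obtain ⟨n, hn⟩ : ∃ n : F, n = v + m * r := ⟨_, rfl⟩
    have hu : u = m - r := by rw [hm]; ring
    have hv : v = n - m * r := by rw [hn]; ring
    have hw : w = -(n * r) := by
      rw [hu, hv] at hr
      linear_combination hr
    have hD : disc3 u v w = (m ^ 2 - 4 * n) * (r ^ 2 + m * r + n) ^ 2 := by
      unfold disc3
      rw [hu, hv, hw]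
      ring
    rw [hD] at h
    rcases mul_eq_zero.1 h with h0 | h0
    · obtain ⟨s, rfl⟩ : ∃ s : F, m = -2 * s := ⟨-m / 2, by field_simp⟩
      have h4 : (4 : F) ≠ 0 := by
        have : (4 : F) = 2 * 2 := by norm_num
        rw [this]
        exact mul_ne_zero h2 h2
      have hn' : n = s ^ 2 := by
        apply mul_left_cancel₀ h4
        linear_combination -h0
      refine ⟨s, r, ?_, ?_, ?_⟩
      · rw [hu]; ring
      · rw [hv, hn']; ring
      · rw [hw, hn']
    · have h0' : r ^ 2 + m * r + n = 0 := pow_eq_zero_iff two_ne_zero |>.1 h0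
      obtain ⟨t, rfl⟩ : ∃ t : F, m = -(r + t) := ⟨-m - r, by ring⟩
      have hn' : n = r * t := by linear_combination h0'
      refine ⟨r, t, ?_, ?_, ?_⟩
      · rw [hu]; ring
      · rw [hv, hn']; ring
      · rw [hw, hn']; ring
  · exfalso
    have hirr : Irreducible (X ^ 3 + C u * X ^ 2 + C v * X + C w : F[X]) := by
      rw [(cub_monic u v w).irreducible_iff_roots_eq_zero_of_degree_le_three
        (by rw [cub_deg]; norm_num) (by rw [cub_deg])]
      rw [Multiset.eq_zero_iff_forall_notMem]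
      intro t ht
      rw [mem_roots'] at ht
      apply hr
      refine ⟨t, ?_⟩
      have := ht.2
      rw [IsRoot] at this
      simpa using this
    obtain ⟨e, he, he'⟩ := disc_irr u v w hirr
    rw [h] at he'
    exact he (pow_eq_zero_iff two_ne_zero |>.1 he'.symm)

theorem pencil_deriv (α β a b : F) : derivative (linePencil α β a b) =
    (2 * cA α * cB α β a b ^ 2 - 12 * cA α ^ 2 * cC β a b + 18 * cB α β a b * cC β a b) *
      derivative (cA α) +
    (2 * cA α ^ 2 * cB α β a b - 12 * cB α β a b ^ 2 + 18 * cA α * cC β a b) *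
      derivative (cB α β a b) +
    (-4 * cA α ^ 3 - 54 * cC β a b + 18 * cA α * cB α β a b) * derivative (cC β a b) := by
  rw [pencil_eq]
  have h4 : ∀ n : ℕ, derivative ((n : F[X])) = 0 := fun n => derivative_natCast
  have h5 : derivative (4 : F[X]) = 0 := h4 4
  have h6 : derivative (27 : F[X]) = 0 := h4 27
  have h7 : derivative (18 : F[X]) = 0 := h4 18
  simp only [derivative_add, derivative_sub, derivative_mul, derivative_pow, h5, h6, h7,
    zero_mul, zero_add]
  simp only [Nat.cast_ofNat, map_ofNat, Nat.add_one_sub_one, pow_one]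
  ring

theorem cA_eval (α c : F) : (cA α).eval c = α ^ 2 - c ^ 2 := by
  unfold cA
  simp

theorem cB_eval (α β a b c : F) :
    (cB α β a b).eval c = 2 * (α * β - c * (b - a * c)) := by
  unfold cB
  simp

theorem cC_eval (β a b c : F) : (cC β a b).eval c = β ^ 2 - (b - a * c) ^ 2 := by
  unfold cC
  simp

theorem cA_deriv (α c : F) : (derivative (cA α)).eval c = -(2 * c) := by
  unfold cA
  rw [← C_pow, derivative_sub, derivative_C, derivative_X_pow]
  simp

theorem cB_deriv (α β a b c : F) :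
    (derivative (cB α β a b)).eval c = 2 * (2 * a * c - b) := by
  have h5 : derivative (2 : F[X]) = 0 := derivative_natCast (n := 2)
  unfold cB
  simp only [derivative_mul, derivative_sub, derivative_C, derivative_X, h5, eval_add, eval_mul,
    eval_sub, eval_C, eval_X, eval_zero, eval_one, eval_ofNat]
  ring

theorem cC_deriv (β a b c : F) :
    (derivative (cC β a b)).eval c = 2 * a * (b - a * c) := by
  unfold cC
  simp only [derivative_mul, derivative_sub, derivative_C, derivative_X, derivative_pow, eval_add,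
    eval_mul, eval_sub, eval_C, eval_X, eval_zero, eval_one, eval_pow]
  simp
  ring

theorem pencil_eval (α β a b c : F) : (linePencil α β a b).eval c =
    disc3 (α ^ 2 - c ^ 2) (2 * (α * β - c * (b - a * c))) (β ^ 2 - (b - a * c) ^ 2) := by
  rw [pencil_eq]
  unfold disc3
  simp only [eval_add, eval_sub, eval_mul, eval_pow, cA_eval, cB_eval, cC_eval, eval_ofNat]

/-- the derivative of the discriminant at a double point -/
theorem pencil_deriv_eval {α β a b c s t : F} (h1 : α ^ 2 - c ^ 2 = -(2 * s + t))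
    (h2 : 2 * (α * β - c * (b - a * c)) = s ^ 2 + 2 * s * t)
    (h3 : β ^ 2 - (b - a * c) ^ 2 = -(s ^ 2 * t)) :
    (derivative (linePencil α β a b)).eval c =
      8 * (s - t) ^ 3 * ((b + c * (s - a)) * (s - a)) := by
  rw [pencil_deriv]
  simp only [eval_add, eval_sub, eval_mul, eval_pow, cA_eval, cB_eval, cC_eval, cA_deriv,
    cB_deriv, cC_deriv, eval_ofNat, eval_neg]
  rw [h1, h2, h3]
  ring

/-- the second order term at a triple point -/
theorem pencil_triple {α β a b c s : F} (h1 : α ^ 2 - c ^ 2 = -3 * s)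
    (h2 : 2 * (α * β - c * (b - a * c)) = 3 * s ^ 2)
    (h3 : β ^ 2 - (b - a * c) ^ 2 = -s ^ 3) {u : F[X]}
    (h : linePencil α β a b = (X - C c) ^ 2 * u) :
    u.eval c = -3 * (6 * ((b + c * (s - a)) * (s - a))) ^ 2 := by
  obtain ⟨A1, hA1⟩ : ∃ A1 : F[X], A1 = -(X + C c) := ⟨_, rfl⟩
  obtain ⟨B1, hB1⟩ : ∃ B1 : F[X], B1 = 2 * (C a * (X + C c) - C b) := ⟨_, rfl⟩
  obtain ⟨C1, hC1⟩ : ∃ C1 : F[X], C1 = C a * (2 * C b - C a * (X + C c)) := ⟨_, rfl⟩
  have e1 : cA α = -3 * C s + (X - C c) * A1 := by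
    have h1' := congrArg (C : F → F[X]) h1
    simp only [map_sub, map_pow, map_mul, map_neg, map_ofNat] at h1'
    unfold cA
    rw [hA1]
    linear_combination h1'
  have e2 : cB α β a b = 3 * C s ^ 2 + (X - C c) * B1 := by
    have h2' := congrArg (C : F → F[X]) h2
    simp only [map_sub, map_pow, map_mul, map_ofNat] at h2'
    unfold cB
    rw [hB1]
    linear_combination h2'
  have e3 : cC β a b = -C s ^ 3 + (X - C c) * C1 := by
    have h3' := congrArg (C : F → F[X]) h3
    simp only [map_sub, map_pow, map_mul, map_neg] at h3'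
    unfold cC
    rw [hC1]
    linear_combination h3'
  have e4 : linePencil α β a b = (X - C c) ^ 2 * (-27 * (C1 + C s * B1 + C s ^ 2 * A1) ^ 2 +
      (X - C c) * (4 * C s ^ 3 * A1 ^ 3 + 6 * C s ^ 2 * A1 ^ 2 * B1 + 36 * C s * A1 ^ 2 * C1 -
        6 * C s * A1 * B1 ^ 2 + 18 * A1 * B1 * C1 - 4 * B1 ^ 3 +
        (X - C c) * (A1 ^ 2 * B1 ^ 2 - 4 * A1 ^ 3 * C1))) := by
    rw [pencil_eq, e1, e2, e3]
    ring
  rw [h] at e4
  have e5 := mul_left_cancel₀ (pow_ne_zero 2 (X_sub_C_ne_zero c)) e4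
  rw [e5, hA1, hB1, hC1]
  simp only [eval_add, eval_sub, eval_mul, eval_pow, eval_neg, eval_ofNat, eval_C, eval_X, sub_self,
    zero_mul, add_zero]
  ring

/-- the factorisation for a point of the curve -/
theorem pencil_on {α β a b : F} (hb : b ^ 2 = a ^ 3 + (α * a + β) ^ 2) : linePencil α β a b =
    (C (3 * a ^ 2 + 2 * α * (α * a + β)) - C (2 * b) * X) ^ 2 *
      ((C α ^ 2 - X ^ 2 + C a) ^ 2 - 4 * (2 * (C α * C β - X * (C b - C a * X)) +
      C a * (C α ^ 2 - X ^ 2 + C a))) := by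
  have hC : (C b : F[X]) ^ 2 - (C a ^ 3 + (C α * C a + C β) ^ 2) = 0 := by
    rw [← C_pow, ← C_pow, ← C_mul, ← C_add, ← C_pow, ← C_add, ← hb, sub_self]
  unfold linePencil Cubic.discr
  simp only [map_mul, map_add, map_pow, map_ofNat]
  linear_combination (-27 * C b ^ 2 + 108 * C b * C a * X + 36 * C b * C α ^ 2 * X -
    36 * C b * X ^ 3 + 27 * C β ^ 2 - 54 * C β * C a * C α - 36 * C β * C α ^ 3 +
    36 * C β * C α * X ^ 2 - 27 * C a ^ 3 - 27 * C a ^ 2 * C α ^ 2 - 54 * C a ^ 2 * X ^ 2 -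
    36 * C a * C α ^ 2 * X ^ 2 + 36 * C a * X ^ 4 + 4 * C α ^ 6 - 12 * C α ^ 4 * X ^ 2 +
    12 * C α ^ 2 * X ^ 4 - 4 * X ^ 6) * hC

theorem pencil_sing0 (α a b : F) : linePencil α 0 a b = (C b - C a * X) ^ 2 *
    (-27 * C b ^ 2 + 54 * C b * C a * X +
      36 * C b * C α ^ 2 * X - 4 * C b * X ^ 3 - 27 * C a ^ 2 * X ^ 2 - 36 * C a * C α ^ 2 * X ^ 2 +
      4 * C a * X ^ 4 + 4 * C α ^ 6 - 8 * C α ^ 4 * X ^ 2 + 4 * C α ^ 2 * X ^ 4) := by
  unfold linePencil Cubic.discr
  rw [C_0]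
  ring

theorem pencil_sing1 (γ a b : F) : linePencil (3 * γ) (4 * γ ^ 3) a b =
    (C b - C (4 * γ ^ 2 + a) * X) ^ 2 * (-27 * C b ^ 2 + 54 * C a * C b * X +
      108 * C b * C γ ^ 2 * X - 4 * C b * X ^ 3 - 27 * C a ^ 2 * X ^ 2 -
      108 * C a * C γ ^ 2 * X ^ 2 + 4 * C a * X ^ 4 - 108 * C γ ^ 6 - 72 * C γ ^ 4 * X ^ 2 +
      4 * C γ ^ 2 * X ^ 4) := by
  unfold linePencil Cubic.discr
  simp only [map_mul, map_add, map_pow, map_ofNat]
  ring

/-- a double root is the node -/
theorem node_of {h u Q : F[X]} {c p r : F} (hs : Squarefree u) (hh : h = (X - C c) ^ 2 * u)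
    (hr : r ≠ 0) (hQ : h = (C p - C r * X) ^ 2 * Q) : c = p / r ∧ u = C (r ^ 2) * Q := by
  have h1 : (C p - C r * X : F[X]) = C (-r) * (X - C (p / r)) := by
    rw [mul_sub, ← C_mul]
    have : -r * (p / r) = -p := by field_simp
    rw [this, C_neg, C_neg]
    ring
  have h3 : h = (X - C (p / r)) ^ 2 * (C (r ^ 2) * Q) := by
    rw [hQ, h1, mul_pow, ← C_pow, neg_sq]
    ring
  have h4 : c = p / r := by
    by_contra hne
    have hcop : IsCoprime ((X - C (p / r)) ^ 2) ((X - C c) ^ 2) :=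
      IsCoprime.pow (isCoprime_X_sub_C_of_isUnit_sub
        (isUnit_iff_ne_zero.2 (sub_ne_zero.2 (Ne.symm hne))))
    have h5 : (X - C (p / r)) ^ 2 ∣ u := hcop.dvd_of_dvd_mul_left ⟨_, hh.symm.trans h3⟩
    have h6 := hs (X - C (p / r)) (by rw [← sq]; exact h5)
    exact (irreducible_X_sub_C (p / r)).not_isUnit h6
  refine ⟨h4, ?_⟩
  rw [← h4, hh] at h3
  exact mul_left_cancel₀ (pow_ne_zero 2 (X_sub_C_ne_zero c)) h3

end alg

end Pool.Agent.Y711
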