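import Pool.Agent.Y711.GN2

/-!
Nodal fibres of the pencils of lines: Euler products.
-/

set_option autoImplicit false
set_option maxHeartbeats 1000000

open Polynomial

namespace Pool.Agent.Y711

open Pool.Agent.W313.Hyp Pool.Agent.W343.BSD Pool.Agent.Y784.FC

section

variable {F : Type} [Field F] [Finite F]

/-- the only closed point where a polynomial with one double root vanishes twice -/
theorem only_c {h u : F[X]} {c : F} (hs : Squarefree u) (hh : h = (X - C c) ^ 2 * u) {P : MI F}
    (h1 : AdjoinRoot.mk P.1 h = 0) (h2 : AdjoinRoot.mk P.1 (derivative h) = 0) : P = mi c := by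
  by_contra hne
  have h3 := root_ne hne
  have h4 : AdjoinRoot.mk P.1 (X - C c) ≠ 0 := by
    rw [map_sub, AdjoinRoot.mk_X]
    exact h3
  rw [hh, map_mul, map_pow] at h1
  have h5 : AdjoinRoot.mk P.1 u = 0 := (mul_eq_zero.1 h1).resolve_left (pow_ne_zero 2 h4)
  have h6 : derivative h = 2 * (X - C c) * u + (X - C c) ^ 2 * derivative u := by
    rw [hh, derivative_mul, derivative_X_sub_C_pow]
    simp
    exact Or.inl (Or.inl (map_ofNat C 2))
  rw [h6, map_add, map_mul _ (2 * (X - C c)), map_mul _ ((X - C c) ^ 2), h5, mul_zero, zero_add,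
    map_pow] at h2
  have h7 : AdjoinRoot.mk P.1 (derivative u) = 0 :=
    (mul_eq_zero.1 h2).resolve_left (pow_ne_zero 2 h4)
  obtain ⟨p, q, hpq⟩ := PerfectField.separable_iff_squarefree.2 hs
  have h8 := congrArg (AdjoinRoot.mk P.1) hpq
  rw [map_add, map_mul, map_mul, h5, h7, mul_zero, mul_zero, add_zero, map_one] at h8
  exact zero_ne_one h8

omit [Finite F] in
theorem triple_zero {α β a b : F} {P : MI F} {r : RF P}
    (e1 : AdjoinRoot.mk P.1 (cA α) = -3 * r) (e2 : AdjoinRoot.mk P.1 (cB α β a b) = 3 * r ^ 2)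
    (e3 : AdjoinRoot.mk P.1 (cC β a b) = - r ^ 3) :
    AdjoinRoot.mk P.1 (linePencil α β a b) = 0 ∧
      AdjoinRoot.mk P.1 (derivative (linePencil α β a b)) = 0 := by
  constructor
  · rw [mk_pencil, e1, e2, e3]
    unfold disc3
    ring
  · rw [pencil_deriv]
    simp only [map_mul, map_add, map_sub, map_pow, map_ofNat, map_neg, e1, e2, e3]
    ring

omit [Finite F] in
theorem mk_mi (c : F) (h : F[X]) :
    AdjoinRoot.mk (mi c).1 h = algebraMap F (RF (mi c)) (h.eval c) := by
  have h3 : AdjoinRoot.mk (mi c).1 (C (h.eval c)) = algebraMap F (RF (mi c)) (h.eval c) := rfl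
  rw [← h3, ← sub_eq_zero, ← map_sub, AdjoinRoot.mk_eq_zero]
  exact X_sub_C_dvd_sub_C_eval

/-- The condition that the cubic polynomial is a cube at `P`. -/
def IsTriple (α β a b : F) (P : MI F) (r : RF P) : Prop :=
  AdjoinRoot.mk P.1 (cA α) = -3 * r ∧ AdjoinRoot.mk P.1 (cB α β a b) = 3 * r ^ 2 ∧
    AdjoinRoot.mk P.1 (cC β a b) = - r ^ 3

theorem EP_Gp' (h2 : (2 : F) ≠ 0) {α β a b : F} (ht : ∀ P r, ¬ IsTriple α β a b P r) :
    EP (Gp α β a b) (ZMod 3) = zf F ^ 2 * E3 (linePencil α β a b) := by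
  have hfin := fun n => finite_deg_le (F := F) n
  have hchar := charS
  have dZ : ∀ P : MI F, (PowerSeries.X : PowerSeries (ZMod 3)) ^ P.1.natDegree ∣
      (1 - PowerSeries.X ^ P.1.natDegree) - 1 := fun P => by
    rw [sub_right_comm, sub_self, zero_sub]
    exact (dvd_neg).2 dvd_rfl
  have h1 := EP_rel (Gp α β a b) (fun _ => 1)
    (fun P => (1 - PowerSeries.X ^ P.1.natDegree) ^ 2 * w1 (linePencil α β a b) P)
    (fun P => by rw [sub_self]; exact dvd_zero _) (fun P => by
      unfold Gp
      rw [mul_one, pr_cub (two_RF h2 P) _ _ _ (ht P), ← mk_pencil, ← chi_eq]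
      unfold w1
      rw [map_intCast])
  rw [eulerProd_one, mul_one, eulerProd_mul hfin (fun P => pow_dvd_sub_one (dZ P) 2)
    (fun P => w1_dvd _ P), eulerProd_pow hfin dZ, euler_zf] at h1
  exact h1

theorem pr_cube' {K : Type} [Field K] [Finite K] {S : Type} [CommRing S] (t : K) (T : S) :
    pr ((X - C t) ^ 3 : K[X]) T = 1 - T := by
  have h1 : fac ((X - C t) ^ 3 : K[X]) = fac (X - C t : K[X]) := by
    ext R
    rw [mem_fac (pow_ne_zero 3 (X_sub_C_ne_zero t)), mem_fac (X_sub_C_ne_zero t)]
    exact R.2.2.prime.dvd_pow_iff_dvd (by norm_num)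
  unfold pr
  rw [h1]
  exact pr_lin t T

open Classical in
/-- with a triple point -/
theorem EP_Gp_triple (h2 : (2 : F) ≠ 0) {α β a b c s : F} {u : F[X]} (hs : Squarefree u)
    (hh : linePencil α β a b = (X - C c) ^ 2 * u) (h1 : α ^ 2 - c ^ 2 = -3 * s)
    (h3 : 2 * (α * β - c * (b - a * c)) = 3 * s ^ 2)
    (h4 : β ^ 2 - (b - a * c) ^ 2 = -s ^ 3) :
    EP (Gp α β a b) (ZMod 3) * (1 - PowerSeries.X) = zf F ^ 2 * E3 (linePencil α β a b) := by
  have hfin := fun n => finite_deg_le (F := F) n
  have hchar := charS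
  have dZ : ∀ P : MI F, (PowerSeries.X : PowerSeries (ZMod 3)) ^ P.1.natDegree ∣
      (1 - PowerSeries.X ^ P.1.natDegree) - 1 := fun P => by
    rw [sub_right_comm, sub_self, zero_sub]
    exact (dvd_neg).2 dvd_rfl
  have d1 : (PowerSeries.X : PowerSeries (ZMod 3)) ^ (mi c).1.natDegree ∣
      (1 - PowerSeries.X) - 1 := by
    rw [mi_deg, pow_one, sub_right_comm, sub_self, zero_sub]
    exact (dvd_neg).2 dvd_rfl
  have h5 := EP_rel (Gp α β a b) (fun P => if P = mi c then (1 - PowerSeries.X) else 1)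
    (fun P => (1 - PowerSeries.X ^ P.1.natDegree) ^ 2 * w1 (linePencil α β a b) P)
    (fun P => by
      split_ifs with h
      · rw [h]; exact d1
      · rw [sub_self]; exact dvd_zero _) (fun P => by
      by_cases hP : P = mi c
      · subst hP
        rw [if_pos rfl]
        have e0 : Gp α β a b (mi c) = (X - C (algebraMap F (RF (mi c)) s)) ^ 3 := by
          unfold Gp
          rw [mk_mi, mk_mi, mk_mi, cA_eval, cB_eval, cC_eval, h1, h3, h4]
          simp only [map_mul, map_neg, map_pow, map_ofNat]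
          ring
        rw [e0, pr_cube']
        unfold w1
        rw [chi_mi h2, hh, eval_mul, eval_pow, eval_sub, eval_X, eval_C, sub_self,
          zero_pow two_ne_zero, zero_mul, qc_zero, Int.cast_zero, map_zero, zero_mul, sub_zero,
          mul_one, mi_deg, pow_one]
        ring
      · rw [if_neg hP, mul_one]
        unfold Gp
        rw [pr_cub (two_RF h2 P) _ _ _ (fun r hr => hP (by
          obtain ⟨g1, g2⟩ := triple_zero hr.1 hr.2.1 hr.2.2
          exact only_c hs hh g1 g2)), ← mk_pencil, ← chi_eq]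
        unfold w1
        rw [map_intCast])
  rw [eulerProd_mul hfin (fun P => pow_dvd_sub_one (dZ P) 2)
    (fun P => w1_dvd _ P), eulerProd_pow hfin dZ, euler_zf, euler_single _ d1] at h5
  exact h5

/-- there is no triple point if the double root is not triple -/
theorem no_triple' {α β a b c s t : F} {u : F[X]} (hs : Squarefree u)
    (hh : linePencil α β a b = (X - C c) ^ 2 * u) (h1 : α ^ 2 - c ^ 2 = -(2 * s + t))
    (h3 : 2 * (α * β - c * (b - a * c)) = s ^ 2 + 2 * s * t)
    (h4 : β ^ 2 - (b - a * c) ^ 2 = -(s ^ 2 * t)) (hst : s ≠ t) :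
    ∀ P r, ¬ IsTriple α β a b P r := by
  rintro P r ⟨g1, g2, g3⟩
  obtain ⟨k1, k2⟩ := triple_zero g1 g2 g3
  have hP := only_c hs hh k1 k2
  subst hP
  rw [mk_mi, cA_eval, h1] at g1
  rw [mk_mi, cB_eval, h3] at g2
  rw [mk_mi, cC_eval, h4] at g3
  simp only [map_mul, map_neg, map_add, map_pow, map_ofNat] at g1 g2 g3
  set s' := algebraMap F (RF (mi c)) s with hs'
  set t' := algebraMap F (RF (mi c)) t with ht'
  have e1 : (s' - r) ^ 3 = 0 := by
    linear_combination (-1 : RF (mi c)) * (s' ^ 2 * g1 + s' * g2 + g3)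
  have e2 : (t' - r) ^ 3 = 0 := by
    linear_combination (-1 : RF (mi c)) * (t' ^ 2 * g1 + t' * g2 + g3)
  have e3 : s' = r := sub_eq_zero.1 (pow_eq_zero_iff three_ne_zero |>.1 e1)
  have e4 : t' = r := sub_eq_zero.1 (pow_eq_zero_iff three_ne_zero |>.1 e2)
  exact hst ((algebraMap F (RF (mi c))).injective (e3.trans e4.symm))

/-- the residual family for a point of the curve -/
noncomputable def Gr (α β a b c t : F) (P : MI F) : (RF P)[X] :=
  open Classical in
  if P = mi c then X - C (algebraMap F (RF P) t) else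
    X ^ 2 + C (AdjoinRoot.mk P.1 (cA α + C a)) * X +
      C (AdjoinRoot.mk P.1 (cB α β a b + C a * (cA α + C a)))

omit [Finite F] in
theorem Gr_ne (α β a b c t : F) (P : MI F) : Gr α β a b c t P ≠ 0 := by
  unfold Gr
  split_ifs
  · exact X_sub_C_ne_zero _
  · exact quad_ne _ _

omit [Finite F] in
theorem Gp_factor {α β a b : F} (hb : b ^ 2 = a ^ 3 + (α * a + β) ^ 2) (P : MI F) :
    Gp α β a b P = (X - C (algebraMap F (RF P) a)) *
      (X ^ 2 + C (AdjoinRoot.mk P.1 (cA α + C a)) * X +
        C (AdjoinRoot.mk P.1 (cB α β a b + C a * (cA α + C a)))) := by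
  have h1 : cC β a b = -(C a * (cB α β a b + C a * (cA α + C a))) := by
    have hC : (C b : F[X]) ^ 2 - (C a ^ 3 + (C α * C a + C β) ^ 2) = 0 := by
      rw [← C_pow, ← C_pow, ← C_mul, ← C_add, ← C_pow, ← C_add, ← hb, sub_self]
    unfold cA cB cC
    linear_combination (-1 : F[X]) * hC
  have h2 : AdjoinRoot.mk P.1 (C a) = algebraMap F (RF P) a := rfl
  unfold Gp
  rw [h1]
  simp only [map_neg, map_mul, map_add, h2]
  ring

open Classical in
theorem EP_Gp_Gr {α β a b c t : F} (hb : b ^ 2 = a ^ 3 + (α * a + β) ^ 2) (hb0 : 2 * b ≠ 0)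
    (hc : 2 * b * c = 3 * a ^ 2 + 2 * α * (α * a + β))
    (h1 : α ^ 2 - c ^ 2 = -(2 * a + t)) (ht : a ≠ t) :
    EP (Gp α β a b) (ZMod 3) = zf F * EP (Gr α β a b c t) (ZMod 3) := by
  have hfin := fun n => finite_deg_le (F := F) n
  have dZ : ∀ P : MI F, (PowerSeries.X : PowerSeries (ZMod 3)) ^ P.1.natDegree ∣
      (1 - PowerSeries.X ^ P.1.natDegree) - 1 := fun P => by
    rw [sub_right_comm, sub_self, zero_sub]
    exact (dvd_neg).2 dvd_rfl
  have key : ∀ P : MI F, pr (Gp α β a b P) (PowerSeries.X ^ P.1.natDegree : PowerSeries (ZMod 3)) =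
      (1 - PowerSeries.X ^ P.1.natDegree) *
        pr (Gr α β a b c t P) (PowerSeries.X ^ P.1.natDegree : PowerSeries (ZMod 3)) := by
    intro P
    rw [Gp_factor hb]
    unfold Gr
    have hev : ∀ z : RF P, (X ^ 2 + C (AdjoinRoot.mk P.1 (cA α + C a)) * X +
        C (AdjoinRoot.mk P.1 (cB α β a b + C a * (cA α + C a))) : (RF P)[X]).eval z =
        z ^ 2 + AdjoinRoot.mk P.1 (cA α + C a) * z +
          AdjoinRoot.mk P.1 (cB α β a b + C a * (cA α + C a)) := by
      intro z
      simp
    have hva : (algebraMap F (RF P) a) ^ 2 + AdjoinRoot.mk P.1 (cA α + C a) *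
        (algebraMap F (RF P) a) + AdjoinRoot.mk P.1 (cB α β a b + C a * (cA α + C a)) =
        algebraMap F (RF P) (2 * b) * (algebraMap F (RF P) c - AdjoinRoot.root P.1) := by
      have h2 : algebraMap F (RF P) a = AdjoinRoot.mk P.1 (C a) := rfl
      have h3 : algebraMap F (RF P) (2 * b) = AdjoinRoot.mk P.1 (C (2 * b)) := rfl
      have h4 : algebraMap F (RF P) c = AdjoinRoot.mk P.1 (C c) := rfl
      have h5 : AdjoinRoot.root P.1 = AdjoinRoot.mk P.1 X := (AdjoinRoot.mk_X).symm
      rw [h2, h3, h4, h5, ← map_pow, ← map_mul, ← map_add, ← map_add, ← map_sub, ← map_mul]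
      congr 1
      have hC := congrArg (C : F → F[X]) hc
      simp only [map_mul, map_add, map_pow, map_ofNat] at hC ⊢
      unfold cA cB
      linear_combination -hC
    by_cases hP : P = mi c
    · rw [if_pos hP]
      subst hP
      have e1 : (X ^ 2 + C (AdjoinRoot.mk (mi c).1 (cA α + C a)) * X +
          C (AdjoinRoot.mk (mi c).1 (cB α β a b + C a * (cA α + C a))) : (RF (mi c))[X]) =
          (X - C (algebraMap F (RF (mi c)) a)) * (X - C (algebraMap F (RF (mi c)) t)) := by
        have h5 : algebraMap F (RF (mi c)) c - AdjoinRoot.root (mi c).1 = 0 := by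
          rw [root_eq, sub_self]
        rw [h5, mul_zero] at hva
        have h6 : AdjoinRoot.mk (mi c).1 (cA α + C a) =
            -(algebraMap F (RF (mi c)) a + algebraMap F (RF (mi c)) t) := by
          rw [mk_mi, eval_add, cA_eval, eval_C, h1]
          simp only [map_add, map_neg, map_mul, map_ofNat]
          ring
        have h7 : AdjoinRoot.mk (mi c).1 (cB α β a b + C a * (cA α + C a)) =
            algebraMap F (RF (mi c)) a * algebraMap F (RF (mi c)) t := by
          rw [h6] at hva
          linear_combination hva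
        rw [h6, h7]
        simp only [map_neg, map_add, map_mul]
        ring
      rw [e1, ← mul_assoc]
      have e2 : (X - C (algebraMap F (RF (mi c)) a)) * (X - C (algebraMap F (RF (mi c)) a)) *
          (X - C (algebraMap F (RF (mi c)) t)) = (X - C (algebraMap F (RF (mi c)) t)) *
          ((X - C (algebraMap F (RF (mi c)) a)) * (X - C (algebraMap F (RF (mi c)) a))) := by ring
      rw [e2, pr_mul_lin (mul_ne_zero (X_sub_C_ne_zero _) (X_sub_C_ne_zero _)) (by
        rw [eval_mul, eval_sub, eval_X, eval_C]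
        have h8 : algebraMap F (RF (mi c)) t - algebraMap F (RF (mi c)) a ≠ 0 := by
          rw [← map_sub]
          exact (_root_.map_ne_zero _).2 (sub_ne_zero.2 ht.symm)
        exact mul_ne_zero h8 h8), pr_sq_lin, pr_lin]
    · rw [if_neg hP, pr_mul_lin (quad_ne _ _) (by
        rw [hev, hva]
        refine mul_ne_zero ((_root_.map_ne_zero _).2 hb0) ?_
        intro h
        apply root_ne hP
        rw [← neg_sub, h, neg_zero])]
  have h5 := EP_rel (Gp α β a b) (fun _ => 1)
    (fun P => (1 - PowerSeries.X ^ P.1.natDegree) *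
        pr (Gr α β a b c t P) (PowerSeries.X ^ P.1.natDegree : PowerSeries (ZMod 3)))
    (fun P => by rw [sub_self]; exact dvd_zero _) (fun P => by rw [mul_one, key])
  have h6 := EP_rel (Gr α β a b c t) (fun _ => 1)
    (fun P => pr (Gr α β a b c t P) (PowerSeries.X ^ P.1.natDegree : PowerSeries (ZMod 3)))
    (fun P => by rw [sub_self]; exact dvd_zero _) (fun P => by rw [mul_one])
  rw [eulerProd_one, mul_one, eulerProd_mul hfin dZ (fun P => pr_sub_dvd _ _), euler_zf] at h5
  rw [eulerProd_one, mul_one] at h6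
  rw [h5, h6]

theorem EP_Gr_Ga {α β a b c t : F} (hb : b ^ 2 = a ^ 3 + (α * a + β) ^ 2) (hb0 : 2 * b ≠ 0)
    (hc : 2 * b * c = 3 * a ^ 2 + 2 * α * (α * a + β))
    (h1 : α ^ 2 - c ^ 2 = -(2 * a + t)) (ht : a ≠ t) :
    EP (Gr α β a b c t) (ZMod 3) = EP (Ga α β a) (ZMod 3) := by
  classical
  refine EP_congr _ _ (Gr_ne α β a b c t) (fun P => ?_) ?_ _
  · unfold Ga
    split_ifs
    · exact one_ne_zero
    · exact Gq_ne _ _
  intro L _ _ _
  set α' := algebraMap F L α with hα'
  set β' := algebraMap F L β with hβ'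
  set a' := algebraMap F L a with ha'
  set b' := algebraMap F L b with hb'
  set c' := algebraMap F L c with hc'
  set t' := algebraMap F L t with ht'
  have i1 : b' ^ 2 = a' ^ 3 + (α' * a' + β') ^ 2 := by
    rw [hb', ← map_pow, hb]
    simp only [map_add, map_pow, map_mul, hα', hβ', ha']
  have i2 : 2 * b' ≠ 0 := by
    have : 2 * b' = algebraMap F L (2 * b) := by
      rw [map_mul, map_ofNat]
    rw [this]
    exact (_root_.map_ne_zero _).2 hb0
  have i3 : 2 * b' * c' = 3 * a' ^ 2 + 2 * α' * (α' * a' + β') := by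
    have := congrArg (algebraMap F L) hc
    simpa only [map_add, map_pow, map_mul, map_ofNat] using this
  have i4 : α' ^ 2 - c' ^ 2 = -(2 * a' + t') := by
    have := congrArg (algebraMap F L) h1
    simpa only [map_add, map_sub, map_neg, map_pow, map_mul, map_ofNat] using this
  have i5 : a' ≠ t' := fun h => ht ((algebraMap F L).injective h)
  -- the residual polynomial
  refine ⟨fun s x => x ≠ a' ∧ x ^ 2 + (α' ^ 2 - s ^ 2 + a') * x +
      (2 * (α' * β' - s * (b' - a' * s)) + a' * (α' ^ 2 - s ^ 2 + a')) = 0,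
    fun x y => x ≠ a' ∧ y ^ 2 - (x ^ 3 + (α' * x + β') ^ 2) = 0, ?_, ?_, ?_⟩
  · intro P s hs x
    have hmk : ∀ h : F[X], sg hs (AdjoinRoot.mk P.1 h) = aeval s h := fun h =>
      AdjoinRoot.lift_mk (i := algebraMap F L) (a := s) (h := hs) (g := h)
    unfold Gr
    by_cases hP : P = mi c
    · subst hP
      have hsc : s = c' := root_mi hs
      rw [if_pos rfl, eval₂_sub, eval₂_X, eval₂_C, sg_of, ← ht', sub_eq_zero]
      have e1 : x ^ 2 + (α' ^ 2 - s ^ 2 + a') * x +
          (2 * (α' * β' - s * (b' - a' * s)) + a' * (α' ^ 2 - s ^ 2 + a')) =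
          (x - a') * (x - t') := by
        rw [hsc]
        linear_combination (x - a') * i4 - i3
      change (x ≠ a' ∧ _ = (0 : L)) ↔ _
      rw [e1]
      constructor
      · rintro ⟨h5, h6⟩
        exact sub_eq_zero.1 ((mul_eq_zero.1 h6).resolve_left (sub_ne_zero.2 h5))
      · intro h5
        rw [h5]
        exact ⟨i5.symm, by rw [sub_self, mul_zero]⟩
    · rw [if_neg hP, eval₂_add, eval₂_add, eval₂_mul, eval₂_pow, eval₂_X, eval₂_C, eval₂_C, hmk,
        hmk]
      have e1 : aeval s (cA α + C a) = α' ^ 2 - s ^ 2 + a' := by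
        unfold cA
        simp only [map_add, map_sub, map_pow, aeval_X, aeval_C, ← hα', ← ha']
      have e2 : aeval s (cB α β a b + C a * (cA α + C a)) =
          2 * (α' * β' - s * (b' - a' * s)) + a' * (α' ^ 2 - s ^ 2 + a') := by
        unfold cA cB
        simp only [map_add, map_sub, map_mul, map_pow, map_ofNat, aeval_X, aeval_C, ← hα', ← ha',
          ← hb', ← hβ']
      rw [e1, e2]
      constructor
      · exact fun h => h.2
      · intro h5
        refine ⟨?_, h5⟩
        intro hx
        rw [hx] at h5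
        have h6 : 2 * b' * (c' - s) = 0 := by
          linear_combination i3 + h5
        have h7 : c' = s := sub_eq_zero.1 ((mul_eq_zero.1 h6).resolve_left i2)
        exact hP (eq_mi hs h7.symm)
  · intro P x hx y
    have hg : aeval x (gE α β) = x ^ 3 + (α' * x + β') ^ 2 := by
      unfold gE
      simp only [map_add, map_pow, map_mul, aeval_X, aeval_C, hα', hβ']
    unfold Ga
    by_cases hP : P = mi a
    · subst hP
      have hxa : x = a' := root_mi hx
      rw [if_pos rfl, eval₂_one]
      simp [hxa]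
    · have hxa : x ≠ a' := fun h => hP (eq_mi hx h)
      rw [if_neg hP, eval_Gq hx, hg]
      simp [hxa]
  · refine Finset.card_bij (fun z _ => (z.2, b' + z.1 * (z.2 - a'))) ?_ ?_ ?_
    · rintro ⟨s, x⟩ hz
      simp only [Finset.mem_filter, Finset.mem_univ, true_and] at hz ⊢
      refine ⟨hz.1, ?_⟩
      linear_combination (-(x - a')) * hz.2 + i1
    · rintro ⟨s, x⟩ hz ⟨s', x'⟩ hz' h
      simp only [Finset.mem_filter, Finset.mem_univ, true_and, Prod.mk.injEq] at hz hz' h
      obtain ⟨h4, h5⟩ := h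
      subst h4
      have hx : x - a' ≠ 0 := sub_ne_zero.2 hz.1
      have : s = s' := by
        apply mul_right_cancel₀ hx
        linear_combination h5
      rw [this]
    · rintro ⟨x, y⟩ hz
      simp only [Finset.mem_filter, Finset.mem_univ, true_and] at hz
      obtain ⟨h4, h5⟩ := hz
      have hx : x - a' ≠ 0 := sub_ne_zero.2 h4
      have h6 : b' + (y - b') / (x - a') * (x - a') = y := by
        rw [div_mul_cancel₀ _ hx]
        ring
      refine ⟨((y - b') / (x - a'), x), ?_, ?_⟩
      · simp only [Finset.mem_filter, Finset.mem_univ, true_and]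
        refine ⟨h4, ?_⟩
        set s := (y - b') / (x - a') with hs
        apply mul_left_cancel₀ hx
        rw [mul_zero]
        rw [← h6] at h5
        linear_combination -h5 + i1
      · simp only [h6]

end

end Pool.Agent.Y711
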