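import Pool.Agent.Y711.Tri4
import Pool.Agent.Y711.Gen

/-!
The curves of genus one and two with unipotent Frobenius elements modulo three.
-/

set_option autoImplicit false
set_option maxHeartbeats 1000000

open Polynomial

namespace Pool.Agent.Y711

open Pool.Agent.W313.Hyp Pool.Agent.W343.BSD Pool.Agent.Y784.FC

section

theorem gE_smooth {F : Type} [Field F] (h3 : (3 : F) ≠ 0) {α β : F}
    (hs : Squarefree (gE α β)) : β * (4 * α ^ 3 - 27 * β) ≠ 0 := by
  intro h0
  rcases mul_eq_zero.1 h0 with hβ | hβ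
  · subst hβ
    have h1 : IsUnit (X : F[X]) := hs _ ⟨X + C α ^ 2, by
      unfold gE
      rw [C_0]
      ring⟩
    exact not_isUnit_X h1
  · obtain ⟨γ, rfl⟩ : ∃ γ : F, α = 3 * γ := ⟨α / 3, by field_simp⟩
    have h27 : (27 : F) ≠ 0 := by
      have : (27 : F) = 3 ^ 3 := by norm_num
      rw [this]
      exact pow_ne_zero _ h3
    have hβ' : β = 4 * γ ^ 3 := by
      apply mul_left_cancel₀ h27
      linear_combination -hβ
    subst hβ'
    have h1 : IsUnit (X + C (4 * γ ^ 2) : F[X]) := hs _ ⟨X + C (γ ^ 2), by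
      unfold gE
      simp only [map_mul, map_pow, map_ofNat]
      ring⟩
    have h2 := natDegree_eq_zero_of_isUnit h1
    rw [natDegree_X_add_C] at h2
    exact one_ne_zero h2

variable {k : Type} [Field k]

theorem linePencil_map {R S : Type} [CommRing R] [CommRing S] (φ : R →+* S) (α β a b : R) :
    (linePencil α β a b).map φ = linePencil (φ α) (φ β) (φ a) (φ b) := by
  unfold linePencil Cubic.discr
  simp only [Polynomial.map_mul, Polynomial.map_sub, Polynomial.map_add,
    Polynomial.map_pow, map_C, map_X, Polynomial.map_one, Polynomial.map_ofNat]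

theorem gE_map {R S : Type} [CommRing R] [CommRing S] (φ : R →+* S) (α β : R) :
    (gE α β).map φ = gE (φ α) (φ β) := by
  unfold gE
  simp only [Polynomial.map_mul, Polynomial.map_add, Polynomial.map_pow, map_C, map_X]

theorem ne_of_hom {F : Type} [Field F] (φ : k[X] →+* F) {n : ℕ} (h : (n : k) ≠ 0) :
    (n : F) ≠ 0 := by
  have h1 : (n : F) = (φ.comp C) (n : k) := by rw [map_natCast]
  rw [h1]
  exact (_root_.map_ne_zero _).2 h

/-- **The genus two curves are unipotent.** -/
theorem pencil_uni (h2 : (2 : k) ≠ 0) (h3 : (3 : k) ≠ 0) {α β a b m : k[X]}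
    (h : HasGoodReduction 2 (linePencil α β a b) m) : IsUnipotent 2 (linePencil α β a b) m := by
  refine ⟨h, ?_⟩
  intro F _ _ φ hφ
  obtain ⟨h4, h5⟩ := h F φ hφ
  rw [linePencil_map] at h4 h5 ⊢
  have h2' : (2 : F) ≠ 0 := by exact_mod_cast ne_of_hom φ (n := 2) (by exact_mod_cast h2)
  have h3' : (3 : F) ≠ 0 := by exact_mod_cast ne_of_hom φ (n := 3) (by exact_mod_cast h3)
  rw [localSeries_eq]
  exact locS_pencil h2' h3' h4 h5

/-- **The elliptic curves are unipotent.** -/
theorem gE_uni (h2 : (2 : k) ≠ 0) (h3 : (3 : k) ≠ 0) {α β m : k[X]}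
    (h : HasGoodReduction 1 (gE α β) m) : IsUnipotent 1 (gE α β) m := by
  refine ⟨h, ?_⟩
  intro F _ _ φ hφ
  obtain ⟨h4, h5⟩ := h F φ hφ
  rw [gE_map] at h4 h5 ⊢
  have h2' : (2 : F) ≠ 0 := by exact_mod_cast ne_of_hom φ (n := 2) (by exact_mod_cast h2)
  have h3' : (3 : F) ≠ 0 := by exact_mod_cast ne_of_hom φ (n := 3) (by exact_mod_cast h3)
  rw [localSeries_eq, pow_one]
  exact locS_gE h2' h3' (gE_smooth h3' h5)

end

end Pool.Agent.Y711
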