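import Pool.Agent.Y711.GN3
import Pool.Agent.Y711.Tri5

/-!
The nodal fibres of the genus two curves.
-/

set_option autoImplicit false
set_option maxHeartbeats 1000000

open Polynomial

namespace Pool.Agent.Y711

open Pool.Agent.W313.Hyp Pool.Agent.W343.BSD Pool.Agent.Y784.FC

section

variable {F : Type} [Field F] [Finite F]

omit [Finite F] in
theorem square_of_qc {x : F} (h : qc x = 1) : IsSquare x := by
  classical
  by_contra hx
  unfold qc at h
  split_ifs at h
  exact absurd h (by decide)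

theorem sq_or (h2 : (2 : F) ≠ 0) (h3 : (3 : F) ≠ 0) {e : F} (he : e ≠ 0) :
    IsSquare (-3 * e ^ 2) ∨ Nat.card F % 3 = 2 := by
  have h4 := qc_neg_three_sq h2 h3 he
  have h5 : -3 * e ^ 2 ≠ 0 := mul_ne_zero (neg_ne_zero.2 h3) (pow_ne_zero 2 he)
  rcases qc_cases h5 with h | h
  · exact Or.inl (square_of_qc h)
  · right
    rw [h] at h4
    unfold qm at h4
    have h6 : ((Nat.card F : ℕ) : ZMod 3) = ((2 : ℕ) : ZMod 3) := by
      rw [← h4]
      decide
    rw [ZMod.natCast_eq_natCast_iff] at h6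
    exact h6

omit [Finite F] in
theorem cinf_pencil (h2 : (2 : F) ≠ 0) {α β a b : F}
    (hd : (linePencil α β a b).natDegree = 2 * 2 + 1 ∨
      (linePencil α β a b).natDegree = 2 * 2 + 2) :
    cinf (linePencil α β a b) = qc (a ^ 3 + (α * a + β) ^ 2) := by
  rcases hd with h | h
  · rw [cinf_odd (by rw [h]; decide)]
    have h5 : (linePencil α β a b).coeff 6 = 0 := by
      apply coeff_eq_zero_of_natDegree_lt
      rw [h]
      norm_num
    rw [pencil_coeff] at h5
    have h4 : (4 : F) ≠ 0 := by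
      have : (4 : F) = 2 * 2 := by norm_num
      rw [this]
      exact mul_ne_zero h2 h2
    rw [(mul_eq_zero.1 h5).resolve_left h4, qc_zero]
  · have hl : (linePencil α β a b).leadingCoeff = 4 * (a ^ 3 + (α * a + β) ^ 2) := by
      rw [leadingCoeff, h]
      exact pencil_coeff α β a b
    rw [cinf_even (by rw [h]; decide), hl, ← qc_mul_sq (a ^ 3 + (α * a + β) ^ 2) h2]
    congr 1
    ring

theorem fin_loc (h2 : (2 : F) ≠ 0) {h u : F[X]} {c : F} (hh : h = (X - C c) ^ 2 * u) :
    red3 (locS 1 u) = E3 h * (1 - PowerSeries.C ((cinf h : ℤ) : ZMod 3) * PowerSeries.X) *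
      (1 - PowerSeries.C ((qc (u.eval c) : ℤ) : ZMod 3) * PowerSeries.X) := by
  have h1 := congrArg red3 (locS_node h2 c u 1 one_ne_zero)
  rw [← hh, map_mul, locS_E3, map_sub, map_one, map_mul, PowerSeries.map_C,
    map_pow, PowerSeries.map_X, pow_one] at h1
  rw [← h1]
  rfl

theorem fin_one (h2 : (2 : F) ≠ 0) {h u : F[X]} {c e : F} (hh : h = (X - C c) ^ 2 * u)
    (hc : u.eval c ≠ 0) (hue : u.eval c = e ^ 2)
    (hE : E3 h * (1 - PowerSeries.C ((cinf h : ℤ) : ZMod 3) * PowerSeries.X) *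
      ((1 - PowerSeries.X) ^ 2 * zf F) = 1) :
    red3 (locS 1 u) * ((1 - PowerSeries.X) * zf F) = 1 ∧
      (IsSquare (u.eval c) ∨ Nat.card F % 3 = 2) := by
  have he : e ≠ 0 := by
    rintro rfl
    exact hc (by rw [hue]; ring)
  refine ⟨?_, Or.inl (by rw [hue]; exact ⟨e, sq e⟩)⟩
  rw [fin_loc h2 hh, hue, qc_sq he, Int.cast_one, map_one, one_mul]
  linear_combination hE

theorem fin_qm (h2 : (2 : F) ≠ 0) (h3 : (3 : F) ≠ 0) {h u : F[X]} {c e : F}
    (hh : h = (X - C c) ^ 2 * u) (hc : u.eval c ≠ 0) (hue : u.eval c = -3 * e ^ 2)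
    (hE : E3 h * (1 - PowerSeries.C ((cinf h : ℤ) : ZMod 3) * PowerSeries.X) *
      ((1 - PowerSeries.X) * zf F ^ 2) = 1) :
    red3 (locS 1 u) * ((1 - PowerSeries.X) * zf F) = 1 ∧
      (IsSquare (u.eval c) ∨ Nat.card F % 3 = 2) := by
  have he : e ≠ 0 := by
    rintro rfl
    exact hc (by rw [hue]; ring)
  refine ⟨?_, by rw [hue]; exact sq_or h2 h3 he⟩
  have hz : 1 - PowerSeries.C (qm F) * PowerSeries.X = zf F := rfl
  rw [fin_loc h2 hh, hue, qc_neg_three_sq h2 h3 he, hz]
  linear_combination hE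

omit [Finite F] in
/-- the degree -/
theorem node_deg {h u : F[X]} {c : F} (hh : h = (X - C c) ^ 2 * u)
    (hd : u.natDegree = 3 ∨ u.natDegree = 4) : h.natDegree = 2 * 2 + 1 ∨ h.natDegree = 2 * 2 + 2 := by
  have hu : u ≠ 0 := by
    rintro rfl
    rw [natDegree_zero] at hd
    omega
  have h1 : h.natDegree = 2 + u.natDegree := by
    rw [hh, natDegree_mul (pow_ne_zero 2 (X_sub_C_ne_zero c)) hu, natDegree_pow,
      natDegree_X_sub_C]
  omega

section cases

variable {α β a b c s t : F} {u : F[X]}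

/-- the curve is smooth and the line is not tangent at a flex -/
theorem case_triple (h2 : (2 : F) ≠ 0) (h3 : (3 : F) ≠ 0)
    (hh : linePencil α β a b = (X - C c) ^ 2 * u) (hc : u.eval c ≠ 0)
    (hd : (linePencil α β a b).natDegree = 2 * 2 + 1 ∨
      (linePencil α β a b).natDegree = 2 * 2 + 2) (hs : Squarefree u)
    (e1 : α ^ 2 - c ^ 2 = -3 * s) (e2 : 2 * (α * β - c * (b - a * c)) = 3 * s ^ 2)
    (e3 : β ^ 2 - (b - a * c) ^ 2 = -s ^ 3) :
    red3 (locS 1 u) * ((1 - PowerSeries.X) * zf F) = 1 ∧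
      (IsSquare (u.eval c) ∨ Nat.card F % 3 = 2) := by
  have hu := pencil_triple e1 e2 e3 hh
  have hV : (b + c * (s - a)) * (s - a) ≠ 0 := by
    intro h
    apply hc
    rw [hu, h]
    ring
  have hoff : b ^ 2 ≠ a ^ 3 + (α * a + β) ^ 2 := by
    intro h
    have h4 : (a - s) ^ 3 = 0 := by
      linear_combination (-1 : F) * h - a ^ 2 * e1 - a * e2 - e3
    have h5 : a - s = 0 := pow_eq_zero_iff three_ne_zero |>.1 h4
    apply hV
    rw [← neg_sub, h5]
    ring
  have hsm : β * (4 * α ^ 3 - 27 * β) ≠ 0 := by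
    intro h0
    rcases mul_eq_zero.1 h0 with hβ | hβ
    · subst hβ
      have ha : a ≠ 0 := by
        rintro rfl
        exact pencil_top hd (by ring) (by ring)
      obtain ⟨hc', -⟩ := node_of hs hh ha (pencil_sing0 α a b)
      have hb : b = a * c := by
        rw [hc']
        field_simp
      have h4 : s ^ 3 = 0 := by
        rw [hb] at e3
        linear_combination e3
      have h5 : s = 0 := pow_eq_zero_iff three_ne_zero |>.1 h4
      apply hV
      rw [h5, hb]
      ring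
    · obtain ⟨γ, rfl⟩ : ∃ γ : F, α = 3 * γ := ⟨α / 3, by field_simp⟩
      have h27 : (27 : F) ≠ 0 := by
        have : (27 : F) = 3 ^ 3 := by norm_num
        rw [this]
        exact pow_ne_zero _ h3
      have hβ' : β = 4 * γ ^ 3 := by
        apply mul_left_cancel₀ h27
        linear_combination -hβ
      subst hβ'
      have ha : 4 * γ ^ 2 + a ≠ 0 := by
        intro h
        have : a = -4 * γ ^ 2 := by linear_combination h
        subst this
        exact pencil_top hd (by ring) (by ring)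
      obtain ⟨hc', -⟩ := node_of hs hh ha (pencil_sing1 γ a b)
      have hb : b = (4 * γ ^ 2 + a) * c := by
        rw [hc']
        field_simp
      have h4 : (-4 * γ ^ 2 - s) ^ 3 = 0 := by
        rw [hb] at e2 e3
        linear_combination (-1 : F) * (16 * γ ^ 4 * e1 - 4 * γ ^ 2 * e2 + e3)
      have h5 : -4 * γ ^ 2 - s = 0 := pow_eq_zero_iff three_ne_zero |>.1 h4
      have h6 : s = -4 * γ ^ 2 := by linear_combination (-1 : F) * h5
      apply hV
      rw [h6, hb]
      ring
  have g1 := EP_Gp_triple h2 hs hh e1 e2 e3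
  have g2 := EP_Ga h2 α β a
  rw [← EP_Gp_Ga hoff] at g2
  have g3 := E3_gE h2 h3 hsm
  refine fin_qm h2 h3 (e := 6 * ((b + c * (s - a)) * (s - a))) hh hc hu ?_
  rw [cinf_pencil h2 hd]
  apply mul_left_cancel₀ (zf_ne (F := F))
  linear_combination (-(1 - PowerSeries.C ((qc (a ^ 3 + (α * a + β) ^ 2) : ℤ) : ZMod 3) *
    PowerSeries.X) * (1 - PowerSeries.X) * zf F) * g1 + (1 - PowerSeries.X) * zf F * g2 +
    zf F * g3

/-- the curve is singular -/
theorem case_sing (h2 : (2 : F) ≠ 0) (h3 : (3 : F) ≠ 0)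
    (hh : linePencil α β a b = (X - C c) ^ 2 * u) (hc : u.eval c ≠ 0)
    (hd : (linePencil α β a b).natDegree = 2 * 2 + 1 ∨
      (linePencil α β a b).natDegree = 2 * 2 + 2) (hs : Squarefree u)
    (e1 : α ^ 2 - c ^ 2 = -(2 * s + t))
    (e2 : 2 * (α * β - c * (b - a * c)) = s ^ 2 + 2 * s * t)
    (e3 : β ^ 2 - (b - a * c) ^ 2 = -(s ^ 2 * t)) (hst : s ≠ t)
    (h0 : β * (4 * α ^ 3 - 27 * β) = 0) :
    red3 (locS 1 u) * ((1 - PowerSeries.X) * zf F) = 1 ∧
      (IsSquare (u.eval c) ∨ Nat.card F % 3 = 2) := by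
  have g1 := EP_Gp' h2 (no_triple' hs hh e1 e2 e3 hst)
  have g2 := EP_Ga h2 α β a
  have hon : b ^ 2 = a ^ 3 + (α * a + β) ^ 2 →
      b ≠ 0 ∧ 2 * b * c = 3 * a ^ 2 + 2 * α * (α * a + β) := by
    intro hb
    have hb0 : b ≠ 0 := by
      intro h
      rw [h] at hb
      exact pencil_top hd (by rw [← hb]; ring) (by rw [h]; ring)
    refine ⟨hb0, ?_⟩
    obtain ⟨hc', -⟩ := node_of hs hh (mul_ne_zero h2 hb0) (pencil_on hb)
    rw [hc']
    field_simp
  rcases mul_eq_zero.1 h0 with hβ | hβ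
  · subst hβ
    have ha : a ≠ 0 := by
      rintro rfl
      exact pencil_top hd (by ring) (by ring)
    obtain ⟨hc', hu⟩ := node_of hs hh ha (pencil_sing0 α a b)
    have hb : b = a * c := by
      rw [hc']
      field_simp
    have hoff : b ^ 2 ≠ a ^ 3 + (α * a + 0) ^ 2 := by
      intro h
      obtain ⟨-, h4⟩ := hon h
      have h5 : a ^ 3 = 0 := by
        rw [hb] at h h4
        linear_combination 2 * h - a * h4
      exact ha (pow_eq_zero_iff three_ne_zero |>.1 h5)
    have hue : u.eval c = (2 * a * α * (α ^ 2 - c ^ 2)) ^ 2 := by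
      rw [hu]
      simp only [eval_add, eval_sub, eval_mul, eval_pow, eval_neg, eval_ofNat, eval_C, eval_X]
      rw [hb]
      ring
    have hα : α ≠ 0 := by
      intro h
      apply hc
      rw [hue, h]
      ring
    rw [← EP_Gp_Ga hoff, g1] at g2
    refine fin_one h2 hh hc hue ?_
    rw [cinf_pencil h2 hd]
    apply mul_left_cancel₀ (zf_ne (F := F))
    linear_combination (1 - PowerSeries.X) * g2 + zf F * E3_gE_zero h2 hα
  · obtain ⟨γ, rfl⟩ : ∃ γ : F, α = 3 * γ := ⟨α / 3, by field_simp⟩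
    have h27 : (27 : F) ≠ 0 := by
      have : (27 : F) = 3 ^ 3 := by norm_num
      rw [this]
      exact pow_ne_zero _ h3
    have hβ' : β = 4 * γ ^ 3 := by
      apply mul_left_cancel₀ h27
      linear_combination -hβ
    subst hβ'
    have ha : 4 * γ ^ 2 + a ≠ 0 := by
      intro h
      have : a = -4 * γ ^ 2 := by linear_combination h
      subst this
      exact pencil_top hd (by ring) (by ring)
    obtain ⟨hc', hu⟩ := node_of hs hh ha (pencil_sing1 γ a b)
    have hb : b = (4 * γ ^ 2 + a) * c := by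
      rw [hc']
      field_simp
    have hoff : b ^ 2 ≠ a ^ 3 + (3 * γ * a + 4 * γ ^ 3) ^ 2 := by
      intro h
      obtain ⟨-, h4⟩ := hon h
      have h5 : (4 * γ ^ 2 + a) ^ 3 = 0 := by
        rw [hb] at h h4
        linear_combination 2 * h - (4 * γ ^ 2 + a) * h4
      exact ha (pow_eq_zero_iff three_ne_zero |>.1 h5)
    have hue : u.eval c = -3 * (2 * γ * (4 * γ ^ 2 + a) * (c ^ 2 + 3 * γ ^ 2)) ^ 2 := by
      rw [hu]
      simp only [eval_add, eval_sub, eval_mul, eval_pow, eval_neg, eval_ofNat, eval_C, eval_X]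
      rw [hb]
      ring
    have hγ : γ ≠ 0 := by
      intro h
      apply hc
      rw [hue, h]
      ring
    rw [← EP_Gp_Ga hoff, g1] at g2
    refine fin_qm h2 h3 hh hc hue ?_
    rw [cinf_pencil h2 hd]
    apply mul_left_cancel₀ (zf_ne (F := F))
    linear_combination zf F * g2 + zf F * E3_gE_node h2 h3 hγ

/-- the curve is smooth -/
theorem case_smooth (h2 : (2 : F) ≠ 0) (h3 : (3 : F) ≠ 0)
    (hh : linePencil α β a b = (X - C c) ^ 2 * u) (hc : u.eval c ≠ 0)
    (hd : (linePencil α β a b).natDegree = 2 * 2 + 1 ∨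
      (linePencil α β a b).natDegree = 2 * 2 + 2) (hs : Squarefree u)
    (e1 : α ^ 2 - c ^ 2 = -(2 * s + t))
    (e2 : 2 * (α * β - c * (b - a * c)) = s ^ 2 + 2 * s * t)
    (e3 : β ^ 2 - (b - a * c) ^ 2 = -(s ^ 2 * t)) (hst : s ≠ t)
    (h0 : β * (4 * α ^ 3 - 27 * β) ≠ 0) (hV : (b + c * (s - a)) * (s - a) = 0) :
    red3 (locS 1 u) * ((1 - PowerSeries.X) * zf F) = 1 ∧
      (IsSquare (u.eval c) ∨ Nat.card F % 3 = 2) := by
  rcases mul_eq_zero.1 hV with hy | hsa
  · exfalso
    have h4 : gE α β = (X - C s) ^ 2 * (X - C (t - c ^ 2)) := by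
      have i1 := congrArg (C : F → F[X]) e1
      have i2 := congrArg (C : F → F[X]) e2
      have i3 := congrArg (C : F → F[X]) e3
      have i4 := congrArg (C : F → F[X]) hy
      simp only [map_add, map_sub, map_pow, map_mul, map_neg, map_ofNat, map_zero] at i1 i2 i3 i4
      unfold gE
      simp only [map_sub, map_pow]
      linear_combination X ^ 2 * i1 + X * i2 + i3 +
        (2 * C c * (X - C s) + (C b + C c * (C s - C a))) * i4
    have h5 := gE_squarefree h0
    rw [h4] at h5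
    have h6 := h5 (X - C s) ⟨X - C (t - c ^ 2), by ring⟩
    exact (irreducible_X_sub_C s).not_isUnit h6
  · have hsa' : s = a := sub_eq_zero.1 hsa
    subst hsa'
    have hb : b ^ 2 = s ^ 3 + (α * s + β) ^ 2 := by
      linear_combination (-1 : F) * (s ^ 2 * e1 + s * e2 + e3)
    have hb0 : b ≠ 0 := by
      intro h
      rw [h] at hb
      exact pencil_top hd (by rw [← hb]; ring) (by rw [h]; ring)
    obtain ⟨hc', hu⟩ := node_of hs hh (mul_ne_zero h2 hb0) (pencil_on hb)
    have hbc : 2 * b * c = 3 * s ^ 2 + 2 * α * (α * s + β) := by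
      rw [hc']
      field_simp
    have hue : u.eval c = (2 * b * (s - t)) ^ 2 := by
      rw [hu]
      simp only [eval_add, eval_sub, eval_mul, eval_pow, eval_ofNat, eval_C, eval_X]
      rw [e2, e1]
      ring
    have g1 := EP_Gp' h2 (no_triple' hs hh e1 e2 e3 hst)
    have g2 := EP_Gp_Gr hb (mul_ne_zero h2 hb0) hbc e1 hst
    have g3 := EP_Gr_Ga hb (mul_ne_zero h2 hb0) hbc e1 hst
    have g4 := EP_Ga h2 α β s
    have g5 := E3_gE h2 h3 h0
    rw [← g3] at g4
    refine fin_one h2 hh hc hue ?_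
    rw [cinf_pencil h2 hd]
    apply mul_left_cancel₀ (pow_ne_zero 2 (zf_ne (F := F)))
    rw [g1] at g2
    linear_combination ((1 - PowerSeries.C ((qc (s ^ 3 + (α * s + β) ^ 2) : ℤ) : ZMod 3) *
      PowerSeries.X) * (1 - PowerSeries.X) ^ 2 * zf F) * g2 +
      (1 - PowerSeries.X) * zf F ^ 2 * g4 + zf F ^ 2 * g5

end cases

/-- **The nodal fibres of the genus two curves.** -/
theorem pencil_nodal (h2 : (2 : F) ≠ 0) (h3 : (3 : F) ≠ 0) {α β a b c : F} {u : F[X]}
    (hh : linePencil α β a b = (X - C c) ^ 2 * u) (hc : u.eval c ≠ 0)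
    (hd : u.natDegree = 3 ∨ u.natDegree = 4) (hs : Squarefree u) :
    red3 (locS 1 u) * ((1 - PowerSeries.X) * zf F) = 1 ∧
      (IsSquare (u.eval c) ∨ Nat.card F % 3 = 2) := by
  have hd' := node_deg hh hd
  have h4 : (linePencil α β a b).eval c = 0 := by
    rw [hh]
    simp
  have h5 : (derivative (linePencil α β a b)).eval c = 0 := by
    rw [hh, derivative_mul, derivative_X_sub_C_pow]
    simp
  rw [pencil_eval] at h4
  obtain ⟨s, t, e1, e2, e3⟩ := disc_double h2 h4
  rw [pencil_deriv_eval e1 e2 e3] at h5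
  by_cases hst : s = t
  · subst hst
    exact case_triple h2 h3 hh hc hd' hs (by rw [e1]; ring) (by rw [e2]; ring) (by rw [e3]; ring)
  · by_cases h0 : β * (4 * α ^ 3 - 27 * β) = 0
    · exact case_sing h2 h3 hh hc hd' hs e1 e2 e3 hst h0
    · refine case_smooth h2 h3 hh hc hd' hs e1 e2 e3 hst h0 ?_
      have h8 : (8 : F) ≠ 0 := by
        have : (8 : F) = 2 ^ 3 := by norm_num
        rw [this]
        exact pow_ne_zero _ h2
      exact (mul_eq_zero.1 h5).resolve_left
        (mul_ne_zero h8 (pow_ne_zero 3 (sub_ne_zero.2 hst)))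

end

end Pool.Agent.Y711
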