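import Pool.Agent.Y711.GN4
import Pool.Agent.Y711.CL7
import Pool.Agent.Y711.DefG

/-!
The genus two curves with nodal fibres.
-/

set_option autoImplicit false
set_option maxHeartbeats 1000000

open Polynomial

namespace Pool.Agent.Y711

open Pool.Agent.TH943.HJ Pool.Agent.W313.Hyp Pool.Agent.W343.BSD Pool.Agent.Y784.FC

variable {k : Type} [Field k]

/-- **The genus two curves are unipotent, at the nodal fibres too.** -/
theorem pencil_unodal (h2 : (2 : k) ≠ 0) (h3 : (3 : k) ≠ 0) {α β a b m n : k[X]}
    (h : HasNodalReduction 2 (linePencil α β a b) m n) :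
    IsUnipotentNodal 2 (linePencil α β a b) m n := by
  refine ⟨two_pos, ?_⟩
  intro F _ _ φ hφ
  obtain ⟨h4, h5⟩ := h F φ hφ
  rw [linePencil_map] at h4 h5 ⊢
  have h2' : (2 : F) ≠ 0 := by exact_mod_cast ne_of_hom φ (n := 2) (by exact_mod_cast h2)
  have h3' : (3 : F) ≠ 0 := by exact_mod_cast ne_of_hom φ (n := 3) (by exact_mod_cast h3)
  constructor
  · intro hn
    obtain ⟨h6, h7⟩ := h4 hn
    refine ⟨h6, h7, ?_⟩
    rw [localSeries_eq]
    exact locS_pencil h2' h3' h6 h7
  · intro hn
    obtain ⟨c, u, h6, h7, h8, h9⟩ := h5 hn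
    obtain ⟨h10, h11⟩ := pencil_nodal h2' h3' h6 h7 h8 h9
    refine ⟨c, u, h6, h7, h8, h9, ?_, h11⟩
    rw [localSeries_eq]
    exact (by rw [pow_one]; exact h10 : red3 (locS 1 u) *
      ((1 - PowerSeries.X) * zf F) ^ (2 - 1) = 1)

variable [Finite k]

/-- **Half of the twists in every class, for all the genus two curves at once.** -/
theorem pencil_all (h2 : (2 : k) ≠ 0) (h3 : (3 : k) ≠ 0)
    {m n e : k[X]} (hm : m.Monic) (hn : n.Monic) (hs : Squarefree (m * n)) (he : IsCoprime n e)
    {δ : ℝ} (hδ : δ < 1 / 2) :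
    ∃ N : ℕ, ∀ g ≥ N, δ * (twistClass g m n e).ncard ≤
      {D : k[X] | D ∈ twistClass g m n e ∧ ∀ α β a b : k[X],
        HasNodalReduction 2 (linePencil α β a b) m n →
        ∀ (L : Type) [Field L] [Algebra k[X] L] [Algebra (RatFunc k) L]
          [IsScalarTower k[X] (RatFunc k) L], IsThreeExtension D L →
            ¬ VanishesToOrder (Module.finrank (RatFunc k) L *
              splitWeight (linePencil α β a b) n e + 1) (linePencil α β a b) D
              (integralClosure k[X] L)}.ncard := by
  have he' : ∀ P : MI k, P.1 ∣ n → ¬ P.1 ∣ e := by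
    intro P h4 h5
    exact P.2.2.not_isUnit (he.isUnit_of_dvd' h4 h5)
  refine class_half h2 hm hn hs he (fun _ D => ∀ α β a b : k[X],
        HasNodalReduction 2 (linePencil α β a b) m n →
        ∀ (L : Type) [Field L] [Algebra k[X] L] [Algebra (RatFunc k) L]
          [IsScalarTower k[X] (RatFunc k) L], IsThreeExtension D L →
            ¬ VanishesToOrder (Module.finrank (RatFunc k) L *
              splitWeight (linePencil α β a b) n e + 1) (linePencil α β a b) D
              (integralClosure k[X] L)) ?_ hδ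
  intro g D hD hB α β a b hf
  exact (goodClass_of h2 h3 hn.ne_zero he' (pencil_unodal h2 h3 hf) (IsD_iff.2 hD.1)
    (fun P hP => chi_of_class hD P hP) hB).2

end Pool.Agent.Y711
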