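import Pool.Agent.W343.BSD.Euler

/-!
Logarithmic derivatives of power series and of Euler products.
-/

set_option autoImplicit false
set_option maxHeartbeats 1000000

open PowerSeries

namespace Pool.Agent.Y711

open Pool.Agent.W343.BSD

section

variable {R : Type*} [CommRing R]

/-- The logarithmic derivative of `f` is the series of `s`: `X f' = f * ∑ s e X ^ e`. -/
def IsGh (s : ℕ → R) (f : PowerSeries R) : Prop :=
  constantCoeff f = 1 ∧ (X : PowerSeries R) * derivative R f = f * PowerSeries.mk s

theorem coeff_X_deriv (f : PowerSeries R) (n : ℕ) :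
    coeff n ((X : PowerSeries R) * derivative R f) = n * coeff n f := by
  cases n with
  | zero => simp
  | succ n =>
    rw [mul_comm X, coeff_succ_mul_X, coeff_derivative]
    push_cast
    ring

theorem isGh_iff (s : ℕ → R) (f : PowerSeries R) :
    IsGh s f ↔ constantCoeff f = 1 ∧ ∀ n : ℕ, (n : R) * coeff n f =
      ∑ p ∈ Finset.HasAntidiagonal.antidiagonal n, coeff p.1 f * s p.2 := by
  unfold IsGh
  refine and_congr_right fun _ => ?_
  rw [PowerSeries.ext_iff]
  refine forall_congr' fun n => ?_
  rw [coeff_X_deriv, coeff_mul]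
  simp only [coeff_mk]

theorem isGh_one : IsGh (0 : ℕ → R) 1 := by
  refine ⟨map_one _, ?_⟩
  rw [show PowerSeries.mk (0 : ℕ → R) = 0 from by ext; simp]
  simp

theorem mk_add (s s' : ℕ → R) : PowerSeries.mk (s + s') = PowerSeries.mk s + PowerSeries.mk s' := by
  ext n
  simp

theorem mk_neg (s : ℕ → R) : PowerSeries.mk (-s) = -PowerSeries.mk s := by
  ext n
  simp

theorem IsGh.mul {s s' : ℕ → R} {f f' : PowerSeries R} (h : IsGh s f) (h' : IsGh s' f') :
    IsGh (s + s') (f * f') := by
  refine ⟨by rw [map_mul, h.1, h'.1, mul_one], ?_⟩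
  rw [Derivation.leibniz, smul_eq_mul, smul_eq_mul, mk_add]
  linear_combination f * h'.2 + f' * h.2

theorem IsGh.pow {s : ℕ → R} {f : PowerSeries R} (h : IsGh s f) (n : ℕ) :
    IsGh (n • s) (f ^ n) := by
  induction n with
  | zero => rw [zero_smul, pow_zero]; exact isGh_one
  | succ n ih => rw [add_smul, one_smul, pow_succ]; exact ih.mul h

theorem IsGh.prod {ι : Type*} (A : Finset ι) {s : ι → ℕ → R} {f : ι → PowerSeries R}
    (h : ∀ i ∈ A, IsGh (s i) (f i)) : IsGh (∑ i ∈ A, s i) (∏ i ∈ A, f i) := by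
  classical
  induction A using Finset.induction_on with
  | empty => rw [Finset.sum_empty, Finset.prod_empty]; exact isGh_one
  | insert a A ha ih =>
    rw [Finset.sum_insert ha, Finset.prod_insert ha]
    exact (h a (Finset.mem_insert_self a A)).mul
      (ih fun i hi => h i (Finset.mem_insert_of_mem hi))

theorem IsGh.map {S : Type*} [CommRing S] (φ : R →+* S) {s : ℕ → R} {f : PowerSeries R}
    (h : IsGh s f) : IsGh (fun e => φ (s e)) (PowerSeries.map φ f) := by
  rw [isGh_iff] at h ⊢
  refine ⟨?_, fun n => ?_⟩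
  · rw [← coeff_zero_eq_constantCoeff_apply, coeff_map, coeff_zero_eq_constantCoeff_apply, h.1,
      map_one]
  · have := congrArg φ (h.2 n)
    rw [map_mul, map_natCast, map_sum] at this
    rw [coeff_map, this]
    refine Finset.sum_congr rfl fun p _ => ?_
    rw [_root_.map_mul φ, coeff_map]

/-- the inverse -/
theorem IsGh.inv {s : ℕ → R} {f g : PowerSeries R} (h : IsGh s f) (hfg : f * g = 1) :
    IsGh (-s) g := by
  have hg : constantCoeff g = 1 := by
    have := congrArg (constantCoeff (R := R)) hfg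
    rwa [map_mul, h.1, one_mul, map_one] at this
  refine ⟨hg, ?_⟩
  have h1 := congrArg (derivative R) hfg
  rw [Derivation.leibniz, smul_eq_mul, smul_eq_mul, Derivation.map_one_eq_zero] at h1
  rw [mk_neg]
  calc (X : PowerSeries R) * derivative R g = (f * g) * (X * derivative R g) := by rw [hfg, one_mul]
    _ = g * (X * (f * derivative R g + g * derivative R f)) - g * g * (X * derivative R f) := by ring
    _ = - (g * g * (X * derivative R f)) := by rw [h1]; ring
    _ = - (g * (f * g) * PowerSeries.mk s) := by rw [h.2]; ring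
    _ = g * -PowerSeries.mk s := by rw [hfg]; ring

theorem isGh_factor (c : R) {d : ℕ} (hd : d ≠ 0) :
    IsGh (fun e => if e ≠ 0 ∧ d ∣ e then -((d : R) * c ^ (e / d)) else 0) (1 - C c * X ^ d) := by
  have hd0 : 0 < d := Nat.pos_of_ne_zero hd
  refine ⟨?_, ?_⟩
  · rw [map_sub, map_one, map_mul, map_pow, constantCoeff_X, zero_pow hd, mul_zero, sub_zero]
  · ext n
    rw [coeff_X_deriv, sub_mul, one_mul, mul_assoc, map_sub, map_sub, coeff_C_mul, coeff_C_mul,
      coeff_X_pow_mul', coeff_mk, coeff_X_pow, coeff_one]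
    by_cases hn0 : n = 0
    · subst hn0
      have h1 : ¬ d ≤ 0 := by omega
      simp [h1]
    by_cases hnd : n = d
    · subst hnd
      rw [if_neg hn0, if_pos rfl, if_pos ⟨hn0, dvd_refl _⟩, if_pos le_rfl, Nat.div_self hd0,
        Nat.sub_self, coeff_mk, if_neg (by simp)]
      ring
    rw [if_neg hn0, if_neg hnd, mul_zero, sub_zero, mul_zero]
    by_cases hdn : d ∣ n
    · obtain ⟨m, rfl⟩ := hdn
      have hm : 2 ≤ m := by
        rcases m with _ | _ | m
        · omega
        · omega
        · omega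
      have h1 : d ≤ d * m := by nlinarith
      rw [if_pos ⟨hn0, dvd_mul_right d m⟩, if_pos h1, coeff_mk, Nat.mul_div_cancel_left _ hd0]
      have h2 : d * m - d = d * (m - 1) := by rw [Nat.mul_sub, mul_one]
      rw [h2, if_pos ⟨by
        have : 0 < m - 1 := by omega
        positivity, dvd_mul_right d _⟩, Nat.mul_div_cancel_left _ hd0]
      obtain ⟨l, rfl⟩ : ∃ l, m = l + 1 := ⟨m - 1, by omega⟩
      rw [Nat.add_sub_cancel, pow_succ]
      ring
    · rw [if_neg (by tauto)]
      by_cases h1 : d ≤ n
      · rw [if_pos h1, coeff_mk, if_neg]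
        · ring
        · rintro ⟨_, h3⟩
          apply hdn
          have := (Nat.dvd_add_right h3).2 (dvd_refl d)
          rw [Nat.sub_add_cancel h1] at this
          exact this
      · rw [if_neg h1]
        ring

/-- the logarithmic derivative of an Euler product -/
theorem isGh_euler {J : Type*} {d : J → ℕ} (hfin : ∀ n, {v | d v ≤ n}.Finite)
    {F : J → PowerSeries R} {s : J → ℕ → R} (h : ∀ v, IsGh (s v) (F v))
    (hX : ∀ v, (X : PowerSeries R) ^ d v ∣ F v - 1) (hs : ∀ v e, e < d v → s v e = 0) :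
    IsGh (fun e => ∑ v ∈ (hfin e).toFinset, s v e) (eulerProd d F) := by
  have hco : ∀ n : ℕ, ∀ i ≤ n, coeff i (eulerProd d F) = coeff i (∏ v ∈ (hfin n).toFinset, F v) := by
    intro n i hi
    have h1 := eulerProd_mod hfin hX n (hfin n).toFinset
      (fun i hi => by rw [Set.Finite.mem_toFinset]; exact hi)
    have h2 := X_pow_dvd_iff.1 h1 i (by omega)
    rwa [map_sub, sub_eq_zero] at h2
  have hP : ∀ n : ℕ, IsGh (∑ v ∈ (hfin n).toFinset, s v) (∏ v ∈ (hfin n).toFinset, F v) :=
    fun n => IsGh.prod _ fun v _ => h v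
  rw [isGh_iff]
  refine ⟨?_, fun n => ?_⟩
  · rw [← coeff_zero_eq_constantCoeff_apply, hco 0 0 le_rfl, coeff_zero_eq_constantCoeff_apply]
    exact (hP 0).1
  · rw [hco n n le_rfl, ((isGh_iff _ _).1 (hP n)).2 n]
    refine Finset.sum_congr rfl fun p hp => ?_
    rw [Finset.HasAntidiagonal.mem_antidiagonal] at hp
    rw [hco n p.1 (by omega), Finset.sum_apply]
    congr 1
    symm
    apply Finset.sum_subset
    · intro v hv
      rw [Set.Finite.mem_toFinset] at hv ⊢
      have : d v ≤ p.2 := hv
      show d v ≤ n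
      omega
    · intro v _ hv
      rw [Set.Finite.mem_toFinset] at hv
      exact hs v _ (by
        have : ¬ d v ≤ p.2 := hv
        omega)

end

end Pool.Agent.Y711
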