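import Pool.Agent.Y496.CC.Main
import Pool.Agent.Y711.Cnt

/-!
The primitive ideals of `k[t][√D]`.
-/

set_option autoImplicit false
set_option maxHeartbeats 1000000

open Polynomial

namespace Pool.Agent.Y711

open Pool.Agent.TH943.HJ Pool.Agent.Y496.CC

section

variable {k : Type} [Field k] {D : k[X]}

/-- The ideal generated by `A` and `b + √D`. -/
noncomputable def JJ (D A b : k[X]) : Ideal (CR D) := Ideal.span {pp A, el b 1}

theorem pp_mem_JJ (A b : k[X]) : (pp A : CR D) ∈ JJ D A b :=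
  Ideal.subset_span (by simp)

theorem el_mem_JJ (A b : k[X]) : (el b 1 : CR D) ∈ JJ D A b :=
  Ideal.subset_span (by simp)

theorem pp_mul_el (a x y : k[X]) : (pp a : CR D) * el x y = el (a * x) (a * y) := by
  rw [← el_left, el_mul]
  congr 1
  · ring
  · ring

theorem el_add (p q p' q' : k[X]) : (el p q : CR D) + el p' q' = el (p + p') (q + q') := by
  unfold el
  rw [map_add, map_add]
  ring

theorem mem_JJ {A b : k[X]} (h : A ∣ b ^ 2 - D) {x y : k[X]} :
    (el x y : CR D) ∈ JJ D A b ↔ A ∣ x - b * y := by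
  constructor
  · intro hx
    unfold JJ at hx
    rw [Ideal.mem_span_pair] at hx
    obtain ⟨u, v, huv⟩ := hx
    obtain ⟨u1, u2, rfl⟩ := exists_el u
    obtain ⟨v1, v2, rfl⟩ := exists_el v
    rw [mul_comm, pp_mul_el, el_mul, el_add] at huv
    obtain ⟨h1, h2⟩ := el_inj huv
    obtain ⟨c, hc⟩ := h
    refine ⟨u1 - b * u2 - c * v2, ?_⟩
    linear_combination -h1 + b * h2 - v2 * hc
  · rintro ⟨c, hc⟩
    have h1 : (el x y : CR D) = pp c * pp A + pp y * el b 1 := by
      rw [pp_mul_el, ← el_left, ← el_left, el_mul, el_add]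
      congr 1
      · linear_combination hc
      · ring
    rw [h1]
    exact Ideal.add_mem _ (Ideal.mul_mem_left _ _ (pp_mem_JJ A b))
      (Ideal.mul_mem_left _ _ (el_mem_JJ A b))

theorem pp_mem_JJ_iff {A b : k[X]} (h : A ∣ b ^ 2 - D) {x : k[X]} :
    (pp x : CR D) ∈ JJ D A b ↔ A ∣ x := by
  rw [← el_left, mem_JJ h, mul_zero, sub_zero]

/-- the structure of the ideals -/
theorem ideal_struct (hodd : Odd D.natDegree) {I : Ideal (CR D)} (hI : I ≠ ⊥) :
    ∃ e A b : k[X], e ≠ 0 ∧ A.Monic ∧ A ∣ b ^ 2 - D ∧ I = Ideal.span {pp e} * JJ D A b := by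
  -- the ideal of the second coordinates
  obtain ⟨z, hz, hz0⟩ := Submodule.exists_mem_ne_zero_of_ne_bot hI
  obtain ⟨z1, z2, rfl⟩ := exists_el z
  have hyel : ∀ p q : k[X], (yy D : CR D) * el p q = el (D * q) p := by
    intro p q
    have h1 : (yy D : CR D) = el 0 1 := by
      unfold el
      rw [map_zero, map_one, one_mul, zero_add]
    rw [h1, el_mul]
    congr 1
    · ring
    · ring
  let 𝔞 : Ideal k[X] :=
    { carrier := {y | ∃ x, (el x y : CR D) ∈ I}
      zero_mem' := ⟨0, by rw [el_left, map_zero]; exact I.zero_mem⟩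
      add_mem' := by
        rintro a b ⟨x, hx⟩ ⟨y, hy⟩
        exact ⟨x + y, by rw [← el_add]; exact I.add_mem hx hy⟩
      smul_mem' := by
        rintro c a ⟨x, hx⟩
        refine ⟨c * x, ?_⟩
        rw [smul_eq_mul, ← pp_mul_el]
        exact I.mul_mem_left _ hx }
  have hmem𝔞 : ∀ y, y ∈ 𝔞 ↔ ∃ x, (el x y : CR D) ∈ I := fun y => Iff.rfl
  let 𝔠 : Ideal k[X] := I.comap (pp : k[X] →+* CR D)
  obtain ⟨e, he⟩ := (IsPrincipalIdealRing.principal 𝔞).principal
  obtain ⟨A', hA'⟩ := (IsPrincipalIdealRing.principal 𝔠).principal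
  have he' : ∀ y, y ∈ 𝔞 ↔ e ∣ y := fun y => by
    rw [he]
    exact Ideal.mem_span_singleton
  have hA'' : ∀ x, (pp x : CR D) ∈ I ↔ A' ∣ x := fun x => by
    have h1 : x ∈ 𝔠 ↔ A' ∣ x := by
      rw [hA']
      exact Ideal.mem_span_singleton
    exact h1
  obtain ⟨b', hb'⟩ := (hmem𝔞 e).1 ((he' e).2 dvd_rfl)
  have hedvd : ∀ x y : k[X], (el x y : CR D) ∈ I → e ∣ x := by
    intro x y h
    rw [← he', hmem𝔞]
    exact ⟨D * y, by rw [← hyel]; exact I.mul_mem_left _ h⟩
  have he0 : e ≠ 0 := by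
    rintro rfl
    have h1 := (he' z2).1 ((hmem𝔞 z2).2 ⟨z1, hz⟩)
    have h2 := hedvd z1 z2 hz
    rw [zero_dvd_iff] at h1 h2
    apply hz0
    rw [h1, h2, el_left, map_zero]
  obtain ⟨b, hb⟩ := hedvd b' e hb'
  have hA'e : e ∣ A' := by
    apply hedvd A' 0
    rw [el_left]
    exact (hA'' A').2 dvd_rfl
  obtain ⟨A, hA⟩ := hA'e
  -- `A' ≠ 0`
  have hN : (pp (z1 ^ 2 - D * z2 ^ 2) : CR D) ∈ I := by
    rw [← el_mul_cj]
    exact I.mul_mem_right _ hz
  have hbb : (pp (e * (b ^ 2 - D)) : CR D) ∈ I := by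
    have h1 : (el b (-1) : CR D) * el b' e ∈ I := I.mul_mem_left _ hb'
    rw [el_mul] at h1
    have h2 : b * b' + D * (-1 * e) = e * (b ^ 2 - D) := by rw [hb]; ring
    have h3 : b * e + -1 * b' = 0 := by rw [hb]; ring
    rw [h2, h3, el_left] at h1
    exact h1
  have hAd : A ∣ b ^ 2 - D := by
    have h1 := (hA'' _).1 hbb
    rw [hA] at h1
    exact (mul_dvd_mul_iff_left he0).1 h1
  have hIeq : ∀ x y : k[X], (el x y : CR D) ∈ I ↔ ∃ u v, x = e * u ∧ y = e * v ∧ A ∣ u - b * v := by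
    intro x y
    constructor
    · intro h
      obtain ⟨u, hu⟩ := hedvd x y h
      obtain ⟨v, hv⟩ := (he' y).1 ((hmem𝔞 y).2 ⟨x, h⟩)
      refine ⟨u, v, hu, hv, ?_⟩
      have h1 : (pp (e * (u - b * v)) : CR D) ∈ I := by
        have h2 : (el x y : CR D) - pp v * el b' e ∈ I :=
          I.sub_mem h (I.mul_mem_left _ hb')
        rw [pp_mul_el, el_sub] at h2
        have h3 : x - v * b' = e * (u - b * v) := by rw [hu, hb]; ring
        have h4 : y - v * e = 0 := by rw [hv]; ring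
        rw [h3, h4, el_left] at h2
        exact h2
      have h5 := (hA'' _).1 h1
      rw [hA] at h5
      exact (mul_dvd_mul_iff_left he0).1 h5
    · rintro ⟨u, v, rfl, rfl, c, hc⟩
      have h1 : (el (e * u) (e * v) : CR D) = pp c * pp A' + pp v * el b' e := by
        rw [pp_mul_el, ← el_left, ← el_left, el_mul, el_add]
        congr 1
        · rw [hA, hb]
          linear_combination e * hc
        · ring
      rw [h1]
      exact I.add_mem (I.mul_mem_left _ ((hA'' A').2 dvd_rfl)) (I.mul_mem_left _ hb')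
  have hA0 : A ≠ 0 := by
    rintro rfl
    rw [mul_zero] at hA
    have h1 := (hA'' _).1 hN
    rw [hA, zero_dvd_iff] at h1
    obtain ⟨h2, h3⟩ := norm_ne hodd h1
    apply hz0
    rw [h2, h3, el_left, map_zero]
  classical
  have hass : Associated (normalize A) A := normalize_associated A
  have hdv : ∀ x, normalize A ∣ x ↔ A ∣ x := fun x => hass.dvd_iff_dvd_left
  refine ⟨e, normalize A, b, he0, monic_normalize hA0, (hdv _).2 hAd, ?_⟩
  ext z
  obtain ⟨x, y, rfl⟩ := exists_el z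
  rw [hIeq, Ideal.mem_span_singleton_mul]
  constructor
  · rintro ⟨u, v, rfl, rfl, h⟩
    exact ⟨el u v, (mem_JJ ((hdv _).2 hAd)).2 ((hdv _).2 h), pp_mul_el _ _ _⟩
  · rintro ⟨w, hw, hwe⟩
    obtain ⟨u, v, rfl⟩ := exists_el w
    rw [mem_JJ ((hdv _).2 hAd), hdv] at hw
    rw [pp_mul_el] at hwe
    obtain ⟨h1, h2⟩ := el_inj hwe
    exact ⟨u, v, h1.symm, h2.symm, hw⟩

theorem JJ_ne {A b : k[X]} : JJ D A b ≠ ⊥ := by
  intro h
  have h1 := el_mem_JJ (D := D) A b
  rw [h, Ideal.mem_bot] at h1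
  exact one_ne_zero (el_eq_zero h1).2

/-- the norm of a primitive ideal -/
theorem card_JJ [Finite k] {A b : k[X]} (hA : A.Monic) (h : A ∣ b ^ 2 - D) :
    Nat.card (CR D ⧸ JJ D A b) = Nat.card k ^ A.natDegree := by
  rw [← card_LT (k := k)]
  symm
  have h0 : (LT k A.natDegree).card = Nat.card {x // x ∈ LT k A.natDegree} := by
    rw [Nat.card_eq_fintype_card, Fintype.card_coe]
  rw [h0]
  refine Nat.card_congr (Equiv.ofBijective
    (fun x : {x // x ∈ LT k A.natDegree} => Ideal.Quotient.mk (JJ D A b) (pp x.1)) ⟨?_, ?_⟩)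
  · rintro ⟨x, hx⟩ ⟨y, hy⟩ hxy
    dsimp only at hxy
    rw [Ideal.Quotient.eq, ← map_sub, pp_mem_JJ_iff h] at hxy
    rw [mem_LT] at hx hy
    exact Subtype.ext (eq_of_dvd_sub le_rfl hx hy hxy)
  · intro z
    obtain ⟨z, rfl⟩ := Ideal.Quotient.mk_surjective z
    obtain ⟨x, y, rfl⟩ := exists_el z
    refine ⟨⟨(x - b * y) % A, mod_mem_LT _ hA.ne_zero⟩, ?_⟩
    dsimp only
    rw [Ideal.Quotient.eq, ← el_left, el_sub, mem_JJ h]
    have := EuclideanDomain.mod_add_div (x - b * y) A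
    exact ⟨-((x - b * y) / A), by linear_combination this⟩

/-- every class contains a primitive ideal of small norm -/
theorem exists_JJ [Finite k] (h2 : (2 : k) ≠ 0) (hm : D.Monic) {g : ℕ}
    (hg : D.natDegree = 2 * g + 1) (hsq : Squarefree D) [IsDedekindDomain (CR D)]
    (c : ClassGroup (CR D)) : ∃ A b : k[X], A.Monic ∧ A ∣ b ^ 2 - D ∧ A.natDegree ≤ g ∧
      ClassGroup.mk0 ⟨JJ D A b, mem_nonZeroDivisors_iff_ne_zero.2 JJ_ne⟩ = c := by
  have hodd : Odd D.natDegree := ⟨g, hg⟩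
  obtain ⟨_, _, h3⟩ := class_count h2 hm hg hsq
  obtain ⟨I, hI, hc⟩ := h3 c
  have hI0 : (I : Ideal (CR D)) ≠ ⊥ := mem_nonZeroDivisors_iff_ne_zero.1 I.2
  obtain ⟨e, A, b, he, hA, hd, hIe⟩ := ideal_struct hodd hI0
  refine ⟨A, b, hA, hd, ?_, ?_⟩
  · have hfin : Finite (CR D ⧸ (I : Ideal (CR D))) := finite_quot hodd hI0
    have hle : (I : Ideal (CR D)) ≤ JJ D A b := by
      rw [hIe]
      exact Ideal.mul_le_right (I := Ideal.span {pp e}) (J := JJ D A b)
    have h4 : Nat.card (CR D ⧸ JJ D A b) ≤ Nat.card (CR D ⧸ (I : Ideal (CR D))) :=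
      Nat.card_le_card_of_surjective (Ideal.Quotient.factor hle)
        (Ideal.Quotient.factor_surjective hle)
    rw [card_JJ hA hd] at h4
    exact (Nat.pow_le_pow_iff_right (one_lt_card (k := k))).1 (h4.trans hc)
  · rw [← hI]
    have he' : (pp e : CR D) ≠ 0 := by
      rw [Ne, map_eq_zero_iff _ pp_inj]
      exact he
    rw [ClassGroup.mk0_eq_mk0_iff]
    refine ⟨pp e, 1, he', one_ne_zero, ?_⟩
    dsimp only
    rw [Ideal.span_singleton_one, ← Ideal.one_eq_top, one_mul, ← hIe]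

end

end Pool.Agent.Y711
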