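import Pool.Agent.Y711.Ser

/-!
The maximal ideals of a Galois extension of `k[t]` and their quadratic characters.
-/

set_option autoImplicit false
set_option maxHeartbeats 1000000
set_option synthInstance.maxHeartbeats 400000

open Polynomial

namespace Pool.Agent.Y711

open Pool.Agent.W313.Hyp Pool.Agent.W343.BSD Pool.Agent.Y784.FC

open Classical in
/-- `0`, `1` or `-1`: zero, a nonzero square, or not a square. -/
noncomputable def qs {R : Type} [CommRing R] (x : R) : ℤ :=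
  if x = 0 then 0 else if IsSquare x then 1 else -1

theorem qs_eq {F : Type} [Field F] (x : F) : qs x = qc x := by
  classical
  unfold qs qc
  congr

section

variable {k : Type} [Field k]

/-- the prime ideal of a closed point -/
noncomputable abbrev sp (P : MI k) : Ideal k[X] := Ideal.span {P.1}

instance spMax (P : MI k) : (sp P).IsMaximal :=
  PrincipalIdealRing.isMaximal_of_irreducible P.2.2

theorem chi_qs (D : k[X]) (P : MI k) : chi D P.1 = qs (Ideal.Quotient.mk (sp P) D) := by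
  classical
  rw [chi_eq, ← qs_eq]
  rfl

variable {B : Type} [CommRing B] [Algebra k[X] B] [Module.Finite k[X] B]

theorem exists_below (𝔓 : Ideal B) [h𝔓 : 𝔓.IsMaximal] : ∃ P : MI k, 𝔓.LiesOver (sp P) := by
  classical
  have hint : Algebra.IsIntegral k[X] B := inferInstance
  have hmax : (𝔓.under k[X]).IsMaximal := Ideal.IsMaximal.under k[X] 𝔓
  have hne : 𝔓.under k[X] ≠ ⊥ := Ring.ne_bot_of_isMaximal_of_not_isField hmax (Polynomial.not_isField k)
  obtain ⟨g, hg⟩ := (IsPrincipalIdealRing.principal (𝔓.under k[X])).principal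
  rw [Ideal.submodule_span_eq] at hg
  have hg0 : g ≠ 0 := by
    rintro rfl
    apply hne
    rw [hg]
    simp
  have hgi : Irreducible g := by
    have h1 : (Ideal.span {g}).IsPrime := by rw [← hg]; exact hmax.isPrime
    exact ((Ideal.span_singleton_prime hg0).1 h1).irreducible
  have hass : Associated g (normalize g) := (normalize_associated g).symm
  refine ⟨⟨normalize g, monic_normalize hg0, hass.irreducible hgi⟩, ⟨?_⟩⟩
  rw [hg]
  exact (Ideal.span_singleton_eq_span_singleton.2 hass).symm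

omit [Module.Finite k[X] B] in
theorem below_unique {𝔓 : Ideal B} {P Q : MI k} (hP : 𝔓.LiesOver (sp P)) (hQ : 𝔓.LiesOver (sp Q)) :
    P = Q := by
  apply eq_of_dvd_MI
  have h1 : Ideal.span {P.1} = Ideal.span {Q.1} := hP.over.trans hQ.over.symm
  exact (Ideal.span_singleton_eq_span_singleton.1 h1).dvd

theorem card_sp [Finite k] (P : MI k) : Nat.card (k[X] ⧸ sp P) = Nat.card k ^ P.1.natDegree := by
  have h1 : Nat.card (RF P) = Nat.card k ^ Module.finrank k (RF P) := by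
    have := finRF P
    exact Module.natCard_eq_pow_finrank
  rw [finrank_RF] at h1
  exact h1

theorem card_over [Finite k] (𝔓 : Ideal B) [𝔓.IsMaximal] (P : MI k) [𝔓.LiesOver (sp P)] :
    Nat.card (B ⧸ 𝔓) = Nat.card k ^ (P.1.natDegree * 𝔓.inertiaDeg k[X]) := by
  let _ : Field (k[X] ⧸ sp P) := Ideal.Quotient.field _
  have hfin : Finite (k[X] ⧸ sp P) := finRF P
  rw [pow_mul, ← card_sp P, Ideal.inertiaDeg_eq_of_isMaximal (sp P) 𝔓]
  have : Module.Finite (k[X] ⧸ sp P) (B ⧸ 𝔓) := inferInstance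
  exact Module.natCard_eq_pow_finrank

/-- The degree of a maximal ideal. -/
noncomputable def dgM (k : Type) [Field k] {B : Type} [CommRing B] (𝔓 : Ideal B) : ℕ :=
  Nat.log (Nat.card k) (Nat.card (B ⧸ 𝔓))

theorem dg_over [Finite k] (𝔓 : Ideal B) [𝔓.IsMaximal] (P : MI k) [𝔓.LiesOver (sp P)] :
    dgM k 𝔓 = P.1.natDegree * 𝔓.inertiaDeg k[X] := by
  rw [dgM, card_over 𝔓 P, Nat.log_pow Finite.one_lt_card]

theorem dg_le [Finite k] (𝔓 : Ideal B) [𝔓.IsMaximal] (P : MI k) [𝔓.LiesOver (sp P)] :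
    P.1.natDegree ≤ dgM k 𝔓 := by
  rw [dg_over 𝔓 P]
  exact Nat.le_mul_of_pos_right _ (𝔓.inertiaDeg_pos k[X])

theorem dg_pos [Finite k] (𝔓 : Ideal B) [𝔓.IsMaximal] : 0 < dgM k 𝔓 := by
  obtain ⟨P, hP⟩ := exists_below (k := k) 𝔓
  exact lt_of_lt_of_le (MI.deg_pos P) (dg_le 𝔓 P)

variable (k) in
theorem finite_quot [Finite k] (𝔓 : Ideal B) [𝔓.IsMaximal] : Finite (B ⧸ 𝔓) := by
  obtain ⟨P, hP⟩ := exists_below (k := k) 𝔓
  have h1 := card_over 𝔓 P
  apply Nat.finite_of_card_ne_zero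
  rw [h1]
  exact pow_ne_zero _ Finite.card_pos.ne'

omit [Module.Finite k[X] B] in
theorem mem_iff_dvd (𝔓 : Ideal B) (P : MI k) [h : 𝔓.LiesOver (sp P)] (D : k[X]) :
    algebraMap k[X] B D ∈ 𝔓 ↔ P.1 ∣ D := by
  rw [← Ideal.mem_span_singleton]
  have h1 : sp P = 𝔓.under k[X] := h.over
  rw [show Ideal.span {P.1} = 𝔓.under k[X] from h1]
  rfl

/-- the quadratic character -/
theorem qs_over [Finite k] (h2 : (2 : k) ≠ 0) (𝔓 : Ideal B) [𝔓.IsMaximal] (P : MI k)
    [𝔓.LiesOver (sp P)] (hf : Odd (𝔓.inertiaDeg k[X])) (D : k[X]) :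
    qs (Ideal.Quotient.mk 𝔓 (algebraMap k[X] B D)) = chi D P.1 := by
  classical
  let _ : Field (k[X] ⧸ sp P) := Ideal.Quotient.field _
  let _ : Field (B ⧸ 𝔓) := Ideal.Quotient.field _
  have hfin : Finite (k[X] ⧸ sp P) := finRF P
  have hfin' : Finite (B ⧸ 𝔓) := finite_quot k 𝔓
  rw [Ideal.inertiaDeg_eq_of_isMaximal (sp P) 𝔓] at hf
  have h2' : (2 : k[X] ⧸ sp P) ≠ 0 := by
    have := two_ne_ext (F' := RF P) h2
    exact this
  have h1 := qc_odd (F := k[X] ⧸ sp P) (F' := B ⧸ 𝔓) h2' (Ideal.Quotient.mk (sp P) D) hf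
  rw [chi_qs, qs_eq (F := k[X] ⧸ sp P), ← h1, ← qs_eq]
  rfl

theorem finite_over (P : MI k) : {𝔓 : Ideal B | 𝔓.IsMaximal ∧ 𝔓.LiesOver (sp P)}.Finite :=
  (Algebra.QuasiFinite.finite_primesOver (sp P)).subset fun _ h => ⟨h.1.isPrime, h.2⟩

theorem primesOver_eq (P : MI k) :
    (sp P).primesOver B = {𝔓 : Ideal B | 𝔓.IsMaximal ∧ 𝔓.LiesOver (sp P)} := by
  ext 𝔓
  constructor
  · rintro ⟨h1, h2⟩
    exact ⟨Ideal.IsMaximal.of_liesOver_isMaximal 𝔓 (sp P), h2⟩
  · rintro ⟨h1, h2⟩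
    exact ⟨h1.isPrime, h2⟩

end

section galois

variable {k : Type} [Field k] {B : Type} [CommRing B] [IsDomain B]
  [Algebra k[X] B] [Module.Finite k[X] B] [Module.Flat k[X] B]
  (G : Type) [Group G] [Finite G] [MulSemiringAction G B] [IsGaloisGroup G k[X] B]

include G in
/-- the fundamental identity -/
theorem efg (P : MI k) : ((sp P).primesOver B).ncard *
    ((sp P).ramificationIdxIn B * (sp P).inertiaDegIn B) = Nat.card G :=
  Ideal.ncard_primesOver_mul_ramificationIdxIn_mul_inertiaDegIn (sp P) B G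

include G in
/-- the inertia degree is a power of three -/
theorem f_pow {j : ℕ} (hG : Nat.card G = 3 ^ j) (P : MI k) :
    ∃ i, (sp P).inertiaDegIn B = 3 ^ i := by
  have h1 := efg G (B := B) P
  rw [hG] at h1
  have h2 : (sp P).inertiaDegIn B ∣ 3 ^ j := by
    rw [← h1]
    exact (dvd_mul_left _ _).mul_left _
  obtain ⟨i, -, hi⟩ := (Nat.dvd_prime_pow Nat.prime_three).1 h2
  exact ⟨i, hi⟩

include G in
/-- the ramified maximal ideals contain a fixed nonzero polynomial -/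
theorem exists_disc [Finite k] : ∃ a : k[X], a ≠ 0 ∧ ∀ P : MI k,
    (sp P).ramificationIdxIn B ≠ 1 → P.1 ∣ a := by
  classical
  have : Fintype G := Fintype.ofFinite G
  have hfaith : FaithfulSMul G B := IsGaloisGroup.faithful k[X]
  have hx : ∀ σ : G, σ ≠ 1 → ∃ x : B, σ • x - x ≠ 0 := by
    intro σ hσ
    by_contra hcon
    push Not at hcon
    apply hσ
    apply FaithfulSMul.eq_of_smul_eq_smul (α := B)
    intro x
    rw [one_smul]
    exact sub_eq_zero.1 (hcon x)
  choose! x hx using hx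
  set y : B := ∏ σ ∈ Finset.univ.erase (1 : G), (σ • x σ - x σ) with hy
  have hy0 : y ≠ 0 := Finset.prod_ne_zero_iff.2 fun σ hσ => hx σ (Finset.ne_of_mem_erase hσ)
  have hne := Ideal.comap_ne_bot_of_integral_mem (R := k[X]) (I := Ideal.span {y}) hy0
    (Ideal.mem_span_singleton_self y) (Algebra.IsIntegral.isIntegral y)
  obtain ⟨a, ha, ha0⟩ := Submodule.exists_mem_ne_zero_of_ne_bot hne
  refine ⟨a, ha0, fun P hP => ?_⟩
  have hnt : FaithfulSMul k[X] B := inferInstance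
  obtain ⟨𝔓⟩ := (inferInstance : Nonempty ((sp P).primesOver B))
  obtain ⟨𝔓, h𝔓⟩ := 𝔓
  rw [primesOver_eq] at h𝔓
  obtain ⟨hmax, hov⟩ := h𝔓
  have hfin : Finite (k[X] ⧸ sp P) := finRF P
  have hperf : PerfectField (sp P).ResidueField := by
    let _ : Field (k[X] ⧸ sp P) := Ideal.Quotient.field _
    have hb := Ideal.bijective_algebraMap_quotient_residueField (sp P)
    have : Finite (sp P).ResidueField := Finite.of_surjective _ hb.2
    infer_instance
  have h1 := Ideal.card_inertia_eq_ramificationIdxIn (G := G) (sp P) 𝔓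
  rw [← h1] at hP
  have h3 : ∃ σ ∈ 𝔓.inertia G, σ ≠ 1 := by
    by_contra hcon
    push Not at hcon
    apply hP
    have h4 : 𝔓.inertia G = ⊥ := by
      rw [eq_bot_iff]
      intro σ hσ
      rw [Subgroup.mem_bot]
      exact hcon σ hσ
    rw [h4]
    exact Subgroup.card_bot
  obtain ⟨σ, hσ, hσ1⟩ := h3
  have h4 : y ∈ 𝔓 := by
    have h5 : σ • x σ - x σ ∈ 𝔓 := hσ (x σ)
    rw [hy, ← Finset.mul_prod_erase _ _ (Finset.mem_erase.2 ⟨hσ1, Finset.mem_univ σ⟩)]
    exact 𝔓.mul_mem_right _ h5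
  rw [← mem_iff_dvd 𝔓 P]
  have h6 : algebraMap k[X] B a ∈ Ideal.span {y} := ha
  exact (Ideal.span_singleton_le_iff_mem 𝔓).2 h4 h6

end galois

end Pool.Agent.Y711
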