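import Pool.Agent.Y711.Phi2

/-!
The number of pairs `(A, B)` with `G B ^ 2 - κ A ^ 3` divisible by `C ^ 2 m`, with a quotient prime to
`m`.
-/

set_option autoImplicit false
set_option maxHeartbeats 1000000

open Polynomial Classical

namespace Pool.Agent.Y711

section

variable {k : Type} [Field k] [Finite k]

/-- The number of solutions of `G r ^ 2 = κ A ^ 3` modulo `Q`. -/
noncomputable def cc (Q G : k[X]) (κ : k) (A : k[X]) : ℕ :=
  ((LT k Q.natDegree).filter fun r => Q ∣ G * r ^ 2 - C κ * A ^ 3).card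

theorem cc_congr {Q G : k[X]} {κ : k} {A A' : k[X]} (h : Q ∣ A - A') : cc Q G κ A = cc Q G κ A' := by
  unfold cc
  refine congrArg Finset.card (Finset.filter_congr ?_)
  intro r _
  obtain ⟨c, hc⟩ := h
  constructor
  · rintro ⟨d, hd⟩
    exact ⟨d + C κ * c * (A ^ 2 + A * A' + A' ^ 2), by
      linear_combination hd + C κ * (A ^ 2 + A * A' + A' ^ 2) * hc⟩
  · rintro ⟨d, hd⟩
    exact ⟨d - C κ * c * (A ^ 2 + A * A' + A' ^ 2), by
      linear_combination hd - C κ * (A ^ 2 + A * A' + A' ^ 2) * hc⟩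

theorem cc_mod {Q G M : k[X]} {κ : k} {A : k[X]} (h : Q ∣ M) : cc Q G κ (A % M) = cc Q G κ A := by
  apply cc_congr
  have := EuclideanDomain.mod_add_div A M
  exact h.trans ⟨-(A / M), by linear_combination this⟩

omit [Finite k] in
theorem dvd_mod_sub (p N : k[X]) : N ∣ p % N - p := by
  have := EuclideanDomain.mod_add_div p N
  exact ⟨-(p / N), by linear_combination this⟩

omit [Finite k] in
theorem per_aux {G N m1 u : k[X]} (hN0 : N ≠ 0) (B z : k[X])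
    (h : N ∣ G * B ^ 2 - u ∧ IsCoprime ((G * B ^ 2 - u) / N) m1) :
    N ∣ G * (B + N * (m1 * z)) ^ 2 - u ∧
      IsCoprime ((G * (B + N * (m1 * z)) ^ 2 - u) / N) m1 := by
  obtain ⟨h3, h4⟩ := h
  have h5 := quot_shift (z := m1 * z) hN0 h3
  refine ⟨?_, ?_⟩
  · obtain ⟨c, hc⟩ := h3
    exact ⟨c + 2 * G * B * (m1 * z) + N * (G * (m1 * z) ^ 2), by linear_combination hc⟩
  · rw [h5]
    have h6 : (G * B ^ 2 - u) / N + m1 * z * (2 * (G * B)) + N * (G * (m1 * z) ^ 2) =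
        (G * B ^ 2 - u) / N + m1 * (z * (2 * (G * B)) + N * (G * (m1 * z ^ 2))) := by ring
    rw [h6]
    exact h4.add_mul_left_left _

omit [Finite k] in
theorem per_iff {G N m1 u : k[X]} (hN0 : N ≠ 0) (B : k[X]) :
    (N ∣ G * B ^ 2 - u ∧ IsCoprime ((G * B ^ 2 - u) / N) m1) ↔
      (N ∣ G * (B % (N * m1)) ^ 2 - u ∧ IsCoprime ((G * (B % (N * m1)) ^ 2 - u) / N) m1) := by
  have h7 := EuclideanDomain.mod_add_div B (N * m1)
  constructor
  · intro h
    have h8 := per_aux hN0 B (-(B / (N * m1))) h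
    have h9 : B + N * (m1 * -(B / (N * m1))) = B % (N * m1) := by linear_combination -h7
    rwa [h9] at h8
  · intro h
    have h8 := per_aux hN0 (B % (N * m1)) (B / (N * m1)) h
    have h9 : B % (N * m1) + N * (m1 * (B / (N * m1))) = B := by linear_combination h7
    rwa [h9] at h8

theorem inner1 (h2 : (2 : k) ≠ 0) {G N m1 u : k[X]} (hN0 : N ≠ 0) (hm1 : m1 ≠ 0) (hd : m1 ∣ N)
    (hG : IsCoprime G N) (hu : IsCoprime u N) {ρ : ℕ} (hρ : (N * m1).natDegree ≤ ρ) (B₀ : k[X]) :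
    ((LT k ρ).filter fun z => N ∣ G * (B₀ + z) ^ 2 - u ∧
      IsCoprime ((G * (B₀ + z) ^ 2 - u) / N) m1).card =
    Nat.card k ^ (ρ - (N * m1).natDegree) *
      (((LT k N.natDegree).filter fun r => N ∣ G * r ^ 2 - u).card * phi m1) := by
  have h10 : ((LT k ρ).filter fun z => N ∣ G * (B₀ + z) ^ 2 - u ∧
      IsCoprime ((G * (B₀ + z) ^ 2 - u) / N) m1).card =
      ((LT k ρ).filter fun z => (fun r => N ∣ G * r ^ 2 - u ∧
        IsCoprime ((G * r ^ 2 - u) / N) m1) ((B₀ + z) % (N * m1))).card := by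
    refine congrArg Finset.card (Finset.filter_congr ?_)
    intro z _
    exact per_iff hN0 (B₀ + z)
  rw [h10]
  refine (card_interval (N * m1) (mul_ne_zero hN0 hm1) hρ B₀
    (fun r => N ∣ G * r ^ 2 - u ∧ IsCoprime ((G * r ^ 2 - u) / N) m1)).trans ?_
  have h11 : ((LT k (N * m1).natDegree).filter fun r => N ∣ G * r ^ 2 - u ∧
      IsCoprime ((G * r ^ 2 - u) / N) m1).card =
      ((LT k (N * m1).natDegree).filter fun r => N ∣ G * r ^ 2 - u ∧
        (fun w => IsCoprime w m1) (((G * r ^ 2 - u) / N) % m1)).card := by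
    refine congrArg Finset.card (Finset.filter_congr ?_)
    intro z _
    exact and_congr Iff.rfl coprime_mod'.symm
  have h12 := card_lift h2 hN0 hm1 hd hG hu (fun w => IsCoprime w m1)
  rw [h11, h12]
  rfl

theorem inner2 (h2 : (2 : k) ≠ 0) {G Q C₁ u : k[X]} (hQ : Q ≠ 0) (hC : C₁ ≠ 0) (hd : C₁ ∣ Q)
    (hG : IsCoprime G Q) (hu : IsCoprime u Q) :
    ((LT k (Q * C₁).natDegree).filter fun r => Q * C₁ ∣ G * r ^ 2 - u).card =
      ((LT k Q.natDegree).filter fun r => Q ∣ G * r ^ 2 - u).card := by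
  have h12 : ((LT k (Q * C₁).natDegree).filter fun r => Q * C₁ ∣ G * r ^ 2 - u).card =
      ((LT k (Q * C₁).natDegree).filter fun r => Q ∣ G * r ^ 2 - u ∧
        (fun w => w = 0) (((G * r ^ 2 - u) / Q) % C₁)).card := by
    refine congrArg Finset.card (Finset.filter_congr ?_)
    intro r _
    constructor
    · rintro ⟨c, hc⟩
      refine ⟨⟨C₁ * c, by linear_combination hc⟩, ?_⟩
      have h13 : G * r ^ 2 - u = Q * (C₁ * c) := by linear_combination hc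
      show (G * r ^ 2 - u) / Q % C₁ = 0
      rw [h13, mul_div_cancel_left₀ _ hQ, EuclideanDomain.mod_eq_zero]
      exact dvd_mul_right _ _
    · rintro ⟨⟨c, hc⟩, h13⟩
      have h14 : (G * r ^ 2 - u) / Q % C₁ = 0 := h13
      rw [hc, mul_div_cancel_left₀ _ hQ, EuclideanDomain.mod_eq_zero] at h14
      rw [hc]
      exact mul_dvd_mul_left _ h14
  have h15 : ((LT k C₁.natDegree).filter fun w => w = 0).card = 1 := by
    rw [Finset.card_eq_one]
    refine ⟨0, ?_⟩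
    ext w
    rw [Finset.mem_filter, Finset.mem_singleton]
    exact ⟨fun h => h.2, fun h => ⟨h ▸ zero_mem_LT _, h⟩⟩
  have h16 := card_lift h2 hQ hC hd hG hu (fun w => w = 0)
  rw [h12, h16, h15, mul_one]

/-- the inner count -/
theorem inner_count (h2 : (2 : k) ≠ 0) {G C₁ m1 : k[X]} (hC : C₁ ≠ 0) (hm1 : m1 ≠ 0)
    (hG : IsCoprime G (C₁ * m1)) {κ : k} (hκ : κ ≠ 0) {A : k[X]} (hA : IsCoprime A (C₁ * m1))
    {ρ : ℕ} (hρ : (C₁ ^ 2 * m1 * m1).natDegree ≤ ρ) (B₀ : k[X]) :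
    ((LT k ρ).filter fun z => C₁ ^ 2 * m1 ∣ G * (B₀ + z) ^ 2 - C κ * A ^ 3 ∧
      IsCoprime ((G * (B₀ + z) ^ 2 - C κ * A ^ 3) / (C₁ ^ 2 * m1)) m1).card =
    Nat.card k ^ (ρ - (C₁ ^ 2 * m1 * m1).natDegree) * (cc (C₁ * m1) G κ A * phi m1) := by
  have hN0 : C₁ ^ 2 * m1 ≠ 0 := mul_ne_zero (pow_ne_zero 2 hC) hm1
  have hN1 : C₁ * m1 ≠ 0 := mul_ne_zero hC hm1
  have hκ' : C κ * C κ⁻¹ = (1 : k[X]) := by rw [← C_mul, mul_inv_cancel₀ hκ, C_1]
  have hu1 : IsCoprime (C κ * A ^ 3) (C₁ * m1) := by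
    obtain ⟨a, b, hab⟩ := (hA.pow_left (m := 3))
    exact ⟨C κ⁻¹ * a, b, by linear_combination hab + a * A ^ 3 * hκ'⟩
  have hNN : C₁ * m1 * C₁ = C₁ ^ 2 * m1 := by ring
  have huN : IsCoprime (C κ * A ^ 3) (C₁ ^ 2 * m1) := by
    rw [← hNN]
    exact hu1.mul_right hu1.of_mul_right_left
  have hGN : IsCoprime G (C₁ ^ 2 * m1) := by
    rw [← hNN]
    exact hG.mul_right hG.of_mul_right_left
  rw [inner1 h2 hN0 hm1 (dvd_mul_left _ _) hGN huN hρ B₀]
  have h3 := inner2 h2 hN1 hC (dvd_mul_right _ _) hG hu1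
  rw [hNN] at h3
  rw [h3]
  rfl

/-- The count of the pairs. -/
theorem pair_count (h2 : (2 : k) ≠ 0) {G C₁ m1 mG : k[X]} (hC : C₁ ≠ 0) (hm1 : m1 ≠ 0)
    (hmG : mG ≠ 0) (hG : IsCoprime G (C₁ * m1)) (hcop : IsCoprime (C₁ * m1) mG) {κ : k} (hκ : κ ≠ 0)
    {a ρ : ℕ} (ha : (C₁ * m1 * mG).natDegree ≤ a) (hρ : (C₁ ^ 2 * m1 * m1).natDegree ≤ ρ)
    (B₀ : k[X] → k[X]) :
    ∑ A ∈ MD k a, (if IsCoprime A (C₁ * m1 * mG) then
      ((LT k ρ).filter fun z => C₁ ^ 2 * m1 ∣ G * (B₀ A + z) ^ 2 - C κ * A ^ 3 ∧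
        IsCoprime ((G * (B₀ A + z) ^ 2 - C κ * A ^ 3) / (C₁ ^ 2 * m1)) m1).card else 0) =
    Nat.card k ^ (a - (C₁ * m1 * mG).natDegree) *
      (Nat.card k ^ (ρ - (C₁ ^ 2 * m1 * m1).natDegree) * (phi (C₁ * m1) * phi mG * phi m1)) := by
  have hN1 : C₁ * m1 ≠ 0 := mul_ne_zero hC hm1
  have h3 : ∀ A ∈ MD k a, (if IsCoprime A (C₁ * m1 * mG) then
      ((LT k ρ).filter fun z => C₁ ^ 2 * m1 ∣ G * (B₀ A + z) ^ 2 - C κ * A ^ 3 ∧
        IsCoprime ((G * (B₀ A + z) ^ 2 - C κ * A ^ 3) / (C₁ ^ 2 * m1)) m1).card else 0) =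
      (Nat.card k ^ (ρ - (C₁ ^ 2 * m1 * m1).natDegree) * phi m1) *
        (fun r => if IsCoprime r (C₁ * m1 * mG) then cc (C₁ * m1) G κ r else 0)
          (A % (C₁ * m1 * mG)) := by
    intro A _
    show _ = _ * (if IsCoprime (A % (C₁ * m1 * mG)) (C₁ * m1 * mG) then
      cc (C₁ * m1) G κ (A % (C₁ * m1 * mG)) else 0)
    rw [coprime_mod', cc_mod (dvd_mul_right _ _)]
    split_ifs with hA
    · rw [inner_count h2 hC hm1 hG hκ hA.of_mul_right_left hρ]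
      ring
    · rw [mul_zero]
  have h3' := sum_monic (C₁ * m1 * mG) (mul_ne_zero hN1 hmG) ha
    (fun r => if IsCoprime r (C₁ * m1 * mG) then cc (C₁ * m1) G κ r else 0)
  rw [Finset.sum_congr rfl h3, ← Finset.mul_sum, h3']
  have h4 : ∑ r ∈ LT k (C₁ * m1 * mG).natDegree,
      (if IsCoprime r (C₁ * m1 * mG) then cc (C₁ * m1) G κ r else 0) =
      phi (C₁ * m1) * phi mG := by
    have h5 := sum_crt hN1 hmG hcop
      (fun r => if IsCoprime r (C₁ * m1) then cc (C₁ * m1) G κ r else 0)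
      (fun r => if IsCoprime r mG then 1 else 0)
    have h6 : ∑ r ∈ LT k (C₁ * m1).natDegree,
        (if IsCoprime r (C₁ * m1) then cc (C₁ * m1) G κ r else 0) = phi (C₁ * m1) :=
      unit_sum hN1 hG hκ
    have h7 : ∑ r ∈ LT k mG.natDegree, (if IsCoprime r mG then 1 else 0) = phi mG := by
      unfold phi
      rw [Finset.card_filter]
    rw [h6, h7] at h5
    rw [← h5]
    apply Finset.sum_congr rfl
    intro r _
    show _ = (if IsCoprime (r % (C₁ * m1)) (C₁ * m1) then cc (C₁ * m1) G κ (r % (C₁ * m1)) else 0) *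
      (if IsCoprime (r % mG) mG then 1 else 0)
    rw [coprime_mod', coprime_mod', cc_mod dvd_rfl, IsCoprime.mul_right_iff]
    by_cases h8 : IsCoprime r (C₁ * m1) <;> by_cases h9 : IsCoprime r mG <;> simp [h8, h9]
  rw [h4]
  ring

end

end Pool.Agent.Y711
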