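import Pool.Agent.Y711.Cnt

/-!
The number of units modulo a polynomial over a finite field, and the numbers of solutions of
`G r ^ 2 = κ A ^ 3` modulo a polynomial.
-/

set_option autoImplicit false
set_option maxHeartbeats 1000000

open Polynomial

namespace Pool.Agent.Y711

section

variable {k : Type} [Field k] [Finite k]

open Classical in
/-- The number of units modulo `N`. -/
noncomputable def phi (N : k[X]) : ℕ := ((LT k N.natDegree).filter fun r => IsCoprime r N).card

omit [Finite k] in
theorem coprime_mod {r N M : k[X]} (h : M ∣ N) : IsCoprime (r % N) M ↔ IsCoprime r M := by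
  obtain ⟨c, rfl⟩ := h
  have h1 := EuclideanDomain.mod_add_div r (M * c)
  have h2 : r = r % (M * c) + M * (c * (r / (M * c))) := by linear_combination -h1
  constructor
  · intro h
    rw [h2]
    exact h.add_mul_left_left _
  · intro h
    rw [h2] at h
    exact IsCoprime.of_add_mul_left_left h

omit [Finite k] in
theorem coprime_mod' {r N : k[X]} : IsCoprime (r % N) N ↔ IsCoprime r N := coprime_mod dvd_rfl

omit [Finite k] in
theorem dvd_mod_iff {r N M : k[X]} (h : M ∣ N) : M ∣ r % N ↔ M ∣ r := by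
  have h1 := EuclideanDomain.mod_add_div r N
  rw [← h1]
  constructor
  · intro h2
    rw [h1] at h2
    exact dvd_add h2 (h.mul_right _)
  · intro h2
    rw [h1]
    exact (dvd_add_left (h.mul_right _)).1 h2

theorem phi_pos {N : k[X]} (hN : N ≠ 0) : 0 < phi N := by
  classical
  unfold phi
  rw [Finset.card_pos]
  exact ⟨1 % N, by
    rw [Finset.mem_filter]
    exact ⟨mod_mem_LT _ hN, coprime_mod'.2 isCoprime_one_left⟩⟩

theorem phi_le (N : k[X]) : phi N ≤ Nat.card k ^ N.natDegree := by
  classical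
  unfold phi
  exact (Finset.card_filter_le _ _).trans (card_LT _).le

theorem phi_mul {m n : k[X]} (hm : m ≠ 0) (hn : n ≠ 0) (hmn : IsCoprime m n) :
    phi (m * n) = phi m * phi n := by
  classical
  unfold phi
  rw [Finset.card_filter, Finset.card_filter, Finset.card_filter,
    ← sum_crt hm hn hmn (fun r => if IsCoprime r m then 1 else 0)
      (fun r => if IsCoprime r n then 1 else 0)]
  apply Finset.sum_congr rfl
  intro r _
  rw [coprime_mod', coprime_mod', IsCoprime.mul_right_iff]
  by_cases h1 : IsCoprime r m <;> by_cases h2 : IsCoprime r n <;> simp [h1, h2]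

theorem phi_mul_le {C m : k[X]} (hC : C ≠ 0) (hm : m ≠ 0) :
    phi (C * m) ≤ Nat.card k ^ C.natDegree * phi m := by
  classical
  have h1 := card_interval m hm (ρ := (C * m).natDegree)
    (by rw [natDegree_mul hC hm]; exact Nat.le_add_left _ _) 0 (fun r => IsCoprime r m)
  have h2 : (C * m).natDegree - m.natDegree = C.natDegree := by
    rw [natDegree_mul hC hm, Nat.add_sub_cancel]
  rw [h2] at h1
  unfold phi
  rw [← h1]
  apply Finset.card_le_card
  intro r hr
  rw [Finset.mem_filter] at hr ⊢
  refine ⟨hr.1, ?_⟩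
  rw [zero_add, coprime_mod']
  exact hr.2.of_mul_right_right

omit [Finite k] in
theorem unit_of_sq {N G r u : k[X]} (hu : IsCoprime u N) (h : N ∣ G * r ^ 2 - u) :
    IsCoprime r N := by
  obtain ⟨a, b, hab⟩ := hu
  obtain ⟨c, hc⟩ := h
  exact ⟨a * G * r, b - a * c, by linear_combination hab + a * hc⟩

omit [Finite k] in
theorem quot_shift {N G r u z : k[X]} (hN : N ≠ 0) (h : N ∣ G * r ^ 2 - u) :
    (G * (r + N * z) ^ 2 - u) / N = (G * r ^ 2 - u) / N + z * (2 * (G * r)) + N * (G * z ^ 2) := by
  obtain ⟨c, hc⟩ := h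
  have h1 : G * (r + N * z) ^ 2 - u = N * (c + z * (2 * (G * r)) + N * (G * z ^ 2)) := by
    linear_combination hc
  rw [h1, hc, mul_div_cancel_left₀ _ hN, mul_div_cancel_left₀ _ hN]

/-- Lifting solutions. -/
theorem card_lift (h2 : (2 : k) ≠ 0) {N e G u : k[X]} (hN : N ≠ 0) (he : e ≠ 0) (heN : e ∣ N)
    (hG : IsCoprime G N) (hu : IsCoprime u N) (W : k[X] → Prop) [DecidablePred W]
    [DecidablePred fun r => N ∣ G * r ^ 2 - u ∧ W (((G * r ^ 2 - u) / N) % e)]
    [DecidablePred fun r => N ∣ G * r ^ 2 - u] :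
    ((LT k (N * e).natDegree).filter fun r =>
        N ∣ G * r ^ 2 - u ∧ W (((G * r ^ 2 - u) / N) % e)).card =
      ((LT k N.natDegree).filter fun r => N ∣ G * r ^ 2 - u).card *
        ((LT k e.natDegree).filter W).card := by
  classical
  have hu2 : IsUnit (2 : k[X]) := by
    have : (2 : k[X]) = C 2 := by rw [map_ofNat]
    rw [this]
    exact isUnit_C.2 (isUnit_iff_ne_zero.2 h2)
  have hGe : IsCoprime G e := hG.of_isCoprime_of_dvd_right heN
  have key : ∀ r : k[X], N ∣ G * r ^ 2 - u → IsCoprime (2 * (G * r)) e := by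
    intro r hr
    have h3 : IsCoprime r e := (unit_of_sq hu hr).of_isCoprime_of_dvd_right heN
    obtain ⟨b, hb⟩ := hu2.exists_left_inv
    exact IsCoprime.mul_left ⟨b, 0, by rw [hb, zero_mul, add_zero]⟩ (IsCoprime.mul_left hGe h3)
  rw [← Finset.card_product]
  refine Finset.card_bij (fun r _ => (r % N, ((G * r ^ 2 - u) / N) % e)) ?_ ?_ ?_
  · intro r hr
    rw [Finset.mem_filter] at hr
    rw [Finset.mem_product, Finset.mem_filter, Finset.mem_filter]
    refine ⟨⟨mod_mem_LT _ hN, ?_⟩, mod_mem_LT _ he, hr.2.2⟩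
    have h3 : N ∣ r % N - r := by
      have := EuclideanDomain.mod_add_div r N
      exact ⟨-(r / N), by linear_combination this⟩
    obtain ⟨c, hc⟩ := h3
    obtain ⟨d, hd⟩ := hr.2.1
    exact ⟨d + G * c * (r % N + r), by linear_combination hd + G * (r % N + r) * hc⟩
  · intro r hr r' hr' h
    rw [Finset.mem_filter, mem_LT] at hr hr'
    obtain ⟨h3, h4⟩ := Prod.mk.inj h
    have h5 : N ∣ r' - r := by
      rw [← EuclideanDomain.mod_eq_zero, sub_mod, h3, sub_self]
    obtain ⟨z, hz⟩ := h5
    have h6 : r' = r + N * z := by linear_combination hz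
    rw [h6, quot_shift hN hr.2.1] at h4
    have h7 : e ∣ z * (2 * (G * r)) := by
      have h8 : e ∣ ((G * r ^ 2 - u) / N + z * (2 * (G * r)) + N * (G * z ^ 2)) -
          (G * r ^ 2 - u) / N := by
        rw [← EuclideanDomain.mod_eq_zero, sub_mod, h4, sub_self]
      have h9 : e ∣ N * (G * z ^ 2) := heN.mul_right _
      have h10 := dvd_sub h8 h9
      have h11 : ((G * r ^ 2 - u) / N + z * (2 * (G * r)) + N * (G * z ^ 2)) -
          (G * r ^ 2 - u) / N - N * (G * z ^ 2) = z * (2 * (G * r)) := by ring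
      rwa [h11] at h10
    have h12 : e ∣ z := (key r hr.2.1).symm.dvd_of_dvd_mul_right h7
    have h13 : N * e ∣ r' - r := by
      rw [hz]
      exact mul_dvd_mul_left _ h12
    exact (eq_of_dvd_sub le_rfl hr'.1 hr.1 h13).symm
  · rintro ⟨r0, w⟩ h
    rw [Finset.mem_product, Finset.mem_filter, Finset.mem_filter, mem_LT, mem_LT] at h
    obtain ⟨⟨hr0, hd⟩, hw, hW⟩ := h
    dsimp only at hr0 hd hw hW
    obtain ⟨v, b, hv⟩ := key r0 hd
    have hr0' : r0.degree < N.degree := by rwa [degree_eq_natDegree hN]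
    have hw' : w.degree < e.degree := by rwa [degree_eq_natDegree he]
    set w0 := (G * r0 ^ 2 - u) / N with hw0
    set z := (v * (w - w0)) % e with hz
    have hzz := EuclideanDomain.mod_add_div (v * (w - w0)) e
    have e1 : (G * (r0 + N * z) ^ 2 - u) / N % e = w := by
      rw [quot_shift hN hd, ← hw0]
      have e2 : (w0 + z * (2 * (G * r0)) + N * (G * z ^ 2)) % e = w % e := by
        apply mod_eq_of_dvd_sub
        obtain ⟨c, hc⟩ := heN
        refine ⟨c * (G * z ^ 2) - ((v * (w - w0)) / e) * (2 * (G * r0)) - b * (w - w0), ?_⟩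
        rw [← hz] at hzz
        linear_combination (G * z ^ 2) * hc + (2 * (G * r0)) * hzz + (w - w0) * hv
      rw [e2, (mod_eq_self_iff he).2 hw']
    refine ⟨r0 + N * z, ?_, ?_⟩
    · rw [Finset.mem_filter, mem_LT]
      refine ⟨?_, ?_, ?_⟩
      · have h3 := degree_mul_lt' (N := N) (w := z) le_rfl (mem_LT.1 (mod_mem_LT (v * (w - w0)) he))
        rw [natDegree_mul hN he]
        refine lt_of_le_of_lt (degree_add_le _ _) (max_lt ?_ h3)
        refine lt_of_lt_of_le hr0 ?_
        norm_cast
        omega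
      · obtain ⟨c, hc⟩ := hd
        exact ⟨c + 2 * (G * r0) * z + N * (G * z ^ 2), by linear_combination hc⟩
      · rw [e1]
        exact hW
    · apply Prod.ext
      · show (r0 + N * z) % N = r0
        rw [mod_add_mul, (mod_eq_self_iff hN).2 hr0']
      · exact e1

end

end Pool.Agent.Y711
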