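import Pool.Agent.Y711.Phi

/-!
Sums over divisors, and the number of pairs of units with `G r ^ 2 = κ A ^ 3`.
-/

set_option autoImplicit false
set_option maxHeartbeats 1000000

open Polynomial Classical

namespace Pool.Agent.Y711

section

variable {k : Type} [Field k] [Finite k]

/-- The monic divisors of a polynomial. -/
noncomputable def dv (m : k[X]) : Finset k[X] :=
  (LT k (m.natDegree + 1)).filter fun e => e.Monic ∧ e ∣ m

theorem mem_dv {m : k[X]} (hm : m ≠ 0) {e : k[X]} : e ∈ dv m ↔ e.Monic ∧ e ∣ m := by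
  unfold dv
  rw [Finset.mem_filter, mem_LT]
  refine ⟨fun h => h.2, fun h => ⟨?_, h⟩⟩
  rw [degree_eq_natDegree h.1.ne_zero]
  have := natDegree_le_of_dvd h.2 hm
  norm_cast
  omega

/-- The monic greatest common divisor. -/
noncomputable def mgcd (a b : k[X]) : k[X] := normalize (EuclideanDomain.gcd a b)

omit [Finite k] in
theorem mgcd_assoc (a b : k[X]) : Associated (mgcd a b) (EuclideanDomain.gcd a b) := by
  unfold mgcd
  exact normalize_associated _

omit [Finite k] in
theorem mgcd_dvd_left (a b : k[X]) : mgcd a b ∣ a :=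
  (mgcd_assoc a b).dvd.trans (EuclideanDomain.gcd_dvd_left a b)

omit [Finite k] in
theorem mgcd_dvd_right (a b : k[X]) : mgcd a b ∣ b :=
  (mgcd_assoc a b).dvd.trans (EuclideanDomain.gcd_dvd_right a b)

omit [Finite k] in
theorem dvd_mgcd {a b c : k[X]} (ha : c ∣ a) (hb : c ∣ b) : c ∣ mgcd a b :=
  (EuclideanDomain.dvd_gcd ha hb).trans (mgcd_assoc a b).symm.dvd

omit [Finite k] in
theorem mgcd_monic {a b : k[X]} (hb : b ≠ 0) : (mgcd a b).Monic := by
  unfold mgcd
  apply monic_normalize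
  intro h
  exact hb (EuclideanDomain.gcd_eq_zero_iff.1 h).2

omit [Finite k] in
theorem mgcd_bezout (a b : k[X]) : ∃ x y, mgcd a b = x * a + y * b := by
  obtain ⟨u, hu⟩ := mgcd_assoc a b
  have h1 := EuclideanDomain.gcd_eq_gcd_ab a b
  have h2 : mgcd a b * u = EuclideanDomain.gcd a b := hu
  refine ⟨EuclideanDomain.gcdA a b * (↑u⁻¹ : k[X]), EuclideanDomain.gcdB a b * (↑u⁻¹ : k[X]), ?_⟩
  have h3 : (u : k[X]) * (↑u⁻¹ : k[X]) = 1 := u.mul_inv
  calc mgcd a b = mgcd a b * (u * (↑u⁻¹ : k[X])) := by rw [h3, mul_one]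
    _ = (mgcd a b * u) * (↑u⁻¹ : k[X]) := by ring
    _ = (a * EuclideanDomain.gcdA a b + b * EuclideanDomain.gcdB a b) * (↑u⁻¹ : k[X]) := by
        rw [h2, h1]
    _ = _ := by ring

theorem sum_phi {m : k[X]} (hm : m.Monic) :
    ∑ e ∈ dv m, phi (m / e) = Nat.card k ^ m.natDegree := by
  rw [← card_LT, Finset.card_eq_sum_card_fiberwise (f := fun r => mgcd r m) (t := dv m) (by
    intro r _
    exact (mem_dv hm.ne_zero).2 ⟨mgcd_monic hm.ne_zero, mgcd_dvd_right r m⟩)]
  apply Finset.sum_congr rfl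
  intro e he
  rw [mem_dv hm.ne_zero] at he
  obtain ⟨hem, m', rfl⟩ := he
  have hm' : m'.Monic := hem.of_mul_monic_left hm
  rw [mul_div_cancel_left₀ _ hem.ne_zero]
  unfold phi
  refine Finset.card_bij (fun w _ => e * w) ?_ ?_ ?_
  · intro w hw
    rw [Finset.mem_filter, mem_LT] at hw
    rw [Finset.mem_filter, mem_LT]
    refine ⟨?_, ?_⟩
    · rw [natDegree_mul hem.ne_zero hm'.ne_zero]
      exact degree_mul_lt' le_rfl hw.1
    · obtain ⟨a, b, hab⟩ := hw.2
      have h1 : mgcd (e * w) (e * m') ∣ e := by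
        have h2 := dvd_add ((mgcd_dvd_left (e * w) (e * m')).mul_left a)
          ((mgcd_dvd_right (e * w) (e * m')).mul_left b)
        have h3 : a * (e * w) + b * (e * m') = e := by linear_combination e * hab
        rwa [h3] at h2
      have h4 : e ∣ mgcd (e * w) (e * m') := dvd_mgcd (dvd_mul_right _ _) (dvd_mul_right _ _)
      exact eq_of_monic_of_associated (mgcd_monic hm.ne_zero) hem (associated_of_dvd_dvd h1 h4)
  · intro w _ w' _ h
    exact mul_left_cancel₀ hem.ne_zero h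
  · intro r hr
    rw [Finset.mem_filter, mem_LT] at hr
    obtain ⟨hr1, hr2⟩ := hr
    have h1 : e ∣ r := by
      rw [← hr2]
      exact mgcd_dvd_left _ _
    obtain ⟨w, rfl⟩ := h1
    refine ⟨w, ?_, rfl⟩
    rw [Finset.mem_filter, mem_LT]
    constructor
    · by_cases hw : w = 0
      · rw [hw, degree_zero]
        exact WithBot.bot_lt_coe _
      · rw [degree_eq_natDegree (mul_ne_zero hem.ne_zero hw), natDegree_mul hem.ne_zero hw,
          natDegree_mul hem.ne_zero hm'.ne_zero] at hr1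
        rw [degree_eq_natDegree hw]
        norm_cast at hr1 ⊢
        omega
    · obtain ⟨x, y, hxy⟩ := mgcd_bezout (e * w) (e * m')
      rw [hr2] at hxy
      refine ⟨x, y, ?_⟩
      apply mul_left_cancel₀ hem.ne_zero
      linear_combination -hxy

/-- The number of pairs of units with `G r ^ 2 = κ A ^ 3`. -/
theorem unit_sum {Q G : k[X]} (hQ : Q ≠ 0) (hG : IsCoprime G Q) {κ : k} (hκ : κ ≠ 0) :
    ∑ A ∈ LT k Q.natDegree, (if IsCoprime A Q then
      ((LT k Q.natDegree).filter fun r => Q ∣ G * r ^ 2 - C κ * A ^ 3).card else 0) = phi Q := by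
  have hκ' : C κ * C κ⁻¹ = (1 : k[X]) := by rw [← C_mul, mul_inv_cancel₀ hκ, C_1]
  have h0 : ∑ A ∈ LT k Q.natDegree, (if IsCoprime A Q then
      ((LT k Q.natDegree).filter fun r => Q ∣ G * r ^ 2 - C κ * A ^ 3).card else 0) =
      ((LT k Q.natDegree ×ˢ LT k Q.natDegree).filter fun x =>
        IsCoprime x.1 Q ∧ Q ∣ G * x.2 ^ 2 - C κ * x.1 ^ 3).card := by
    rw [Finset.card_filter, Finset.sum_product]
    apply Finset.sum_congr rfl
    intro A _
    dsimp only
    by_cases hA : IsCoprime A Q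
    · rw [if_pos hA, Finset.card_filter]
      apply Finset.sum_congr rfl
      intro r _
      simp [hA]
    · rw [if_neg hA]
      simp [hA]
  rw [h0]
  unfold phi
  symm
  have hmod : ∀ p : k[X], Q ∣ p % Q - p := fun p => by
    have := EuclideanDomain.mod_add_div p Q
    exact ⟨-(p / Q), by linear_combination this⟩
  have hGκ : IsCoprime (C κ⁻¹ * G) Q := by
    obtain ⟨a, b, hab⟩ := hG
    exact ⟨C κ * a, b, by linear_combination hab + a * G * hκ'⟩
  refine Finset.card_bij (fun s _ => ((C κ⁻¹ * G * s ^ 2) % Q,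
    (s * ((C κ⁻¹ * G * s ^ 2) % Q)) % Q)) ?_ ?_ ?_
  · intro s hs
    rw [Finset.mem_filter] at hs
    rw [Finset.mem_filter, Finset.mem_product]
    refine ⟨⟨mod_mem_LT _ hQ, mod_mem_LT _ hQ⟩, ?_, ?_⟩
    · dsimp only
      rw [coprime_mod']
      exact hGκ.mul_left (hs.2.pow_left)
    · dsimp only
      set A := (C κ⁻¹ * G * s ^ 2) % Q with hA
      obtain ⟨c, hc⟩ := hmod (C κ⁻¹ * G * s ^ 2)
      obtain ⟨d, hd⟩ := hmod (s * A)
      rw [← hA] at hc
      refine ⟨G * d * ((s * A) % Q + s * A) - A ^ 2 * C κ * c, ?_⟩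
      linear_combination G * ((s * A) % Q + s * A) * hd - A ^ 2 * C κ * hc - A ^ 2 * G * s ^ 2 * hκ'
  · intro s hs s' hs' h
    rw [Finset.mem_filter, mem_LT] at hs hs'
    obtain ⟨h1, h2⟩ := Prod.mk.inj h
    rw [← h1] at h2
    set A := (C κ⁻¹ * G * s ^ 2) % Q with hA
    have hAu : IsCoprime A Q := by
      rw [hA, coprime_mod']
      exact hGκ.mul_left (hs.2.pow_left)
    have h3 : Q ∣ A * (s - s') := by
      have h4 : Q ∣ s * A - s' * A := by
        rw [← EuclideanDomain.mod_eq_zero, sub_mod, h2, sub_self]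
      have h5 : s * A - s' * A = A * (s - s') := by ring
      rwa [h5] at h4
    exact eq_of_dvd_sub le_rfl hs.1 hs'.1 (hAu.symm.dvd_of_dvd_mul_left h3)
  · rintro ⟨A, r⟩ h
    rw [Finset.mem_filter, Finset.mem_product, mem_LT, mem_LT] at h
    obtain ⟨⟨hA1, hr1⟩, hA, hd⟩ := h
    dsimp only at hA1 hr1 hA hd
    obtain ⟨x, y, hxy⟩ := hA
    have hA' : A.degree < Q.degree := by rwa [degree_eq_natDegree hQ]
    have hr' : r.degree < Q.degree := by rwa [degree_eq_natDegree hQ]
    set s := (r * x) % Q with hs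
    obtain ⟨c, hc⟩ := hmod (r * x)
    rw [← hs] at hc
    obtain ⟨d, hd⟩ := hd
    have e1 : (C κ⁻¹ * G * s ^ 2) % Q = A := by
      have e2 : (C κ⁻¹ * G * s ^ 2) % Q = A % Q := by
        apply mod_eq_of_dvd_sub
        refine ⟨C κ⁻¹ * G * c * (s + r * x) + C κ⁻¹ * x ^ 2 * d - A * y * (x * A + 1), ?_⟩
        linear_combination C κ⁻¹ * G * (s + r * x) * hc + C κ⁻¹ * x ^ 2 * hd +
          A ^ 3 * x ^ 2 * hκ' + A * (x * A + 1) * hxy
      rw [e2, (mod_eq_self_iff hQ).2 hA']
    have hru : IsCoprime r Q := by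
      apply unit_of_sq (G := G) (u := C κ * A ^ 3)
      · have h5 : IsCoprime (A ^ 3) Q := IsCoprime.pow_left ⟨x, y, hxy⟩
        obtain ⟨a, b, hab⟩ := h5
        exact ⟨C κ⁻¹ * a, b, by linear_combination hab + a * A ^ 3 * hκ'⟩
      · exact ⟨d, hd⟩
    have hsu : IsCoprime s Q := by
      rw [hs, coprime_mod']
      exact hru.mul_left ⟨A, y, by linear_combination hxy⟩
    refine ⟨s, ?_, ?_⟩
    · rw [Finset.mem_filter]
      exact ⟨mod_mem_LT _ hQ, hsu⟩
    · rw [e1]
      apply Prod.ext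
      · rfl
      · show (s * A) % Q = r
        have e3 : (s * A) % Q = r % Q := by
          apply mod_eq_of_dvd_sub
          refine ⟨c * A - r * y, ?_⟩
          linear_combination A * hc + r * hxy
        rw [e3, (mod_eq_self_iff hQ).2 hr']

end

end Pool.Agent.Y711
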