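import Pool.Agent.Y711.Cp
import Pool.Agent.Y711.DefZ
import Mathlib.FieldTheory.Finite.Extension
import Mathlib.NumberTheory.LegendreSymbol.QuadraticChar.Basic

/-!
The number of points of the hypersurface in terms of sums over closed points.
-/

set_option autoImplicit false
set_option maxHeartbeats 1000000

open Polynomial

namespace Pool.Agent.Y711

open Pool.Agent.W313.Hyp Pool.Agent.W343.BSD Pool.Agent.Y784.FC Module Zeta

section

variable {k : Type} [Field k] [Finite k] {E : Type} [Field E] [Algebra k E] [Fintype E]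

/-- the number of square roots -/
theorem card_sqrt (h2 : (2 : E) ≠ 0) (a : E) [DecidablePred fun y : E => y ^ 2 = a] :
    (((Finset.univ.filter fun y : E => y ^ 2 = a).card : ℕ) : ℤ) = 1 + qc a := by
  classical
  have h1 := quadraticChar_card_sqrts (F := E) (char_ne_two h2) a
  rw [qc_eq, add_comm, ← h1]
  congr 1
  rw [Set.toFinset_card, Fintype.card_subtype]
  refine congrArg Finset.card ?_
  ext y
  simp

omit [Finite k] [Fintype E] in
theorem two_E (h2 : (2 : k) ≠ 0) : (2 : E) ≠ 0 := by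
  have : (2 : E) = algebraMap k E 2 := by rw [map_ofNat]
  rw [this]
  exact (_root_.map_ne_zero _).2 h2

omit [Finite k] [Fintype E] in
/-- the value of a factor -/
theorem val_fib {c α β : k[X]} {e : ℕ} {P : MI k} {t : E} (ht : aeval t P.1 = 0) (x : E) :
    aeval t c * x ^ (3 * 3 ^ e) + (aeval t α * x ^ 3 ^ e + aeval t β) ^ 2 =
      (fib c α β e P).eval₂ (sg ht) x := by
  have h1 : ∀ g : k[X], sg ht (AdjoinRoot.mk P.1 g) = aeval t g := fun g =>
    AdjoinRoot.lift_mk (i := algebraMap k E) (h := ht) g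
  unfold fib torsionCurve
  simp only [eval₂_add, eval₂_mul, eval₂_pow, eval₂_X, eval₂_C, h1]

theorem sum_fib (h2 : (2 : k) ≠ 0) {r : ℕ} (hr : finrank k E = r) (c α β : k[X]) (e : ℕ) {P : MI k}
    {t : E} (ht : aeval t P.1 = 0) :
    ∑ x : E, qc (aeval t c * x ^ (3 * 3 ^ e) + (aeval t α * x ^ 3 ^ e + aeval t β) ^ 2) =
      Sg (fib c α β e P) (r / P.1.natDegree) := by
  let _ : Algebra (RF P) E := (sg ht).toAlgebra
  have h3 : finrank (RF P) E = r / P.1.natDegree := finrank_over hr ht
  rw [← sum_qc (two_RF h2 P) h3 (fib c α β e P)]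
  refine Finset.sum_congr rfl fun x _ => ?_
  rw [val_fib ht x]
  rfl

theorem sum_base (h2 : (2 : k) ≠ 0) {r : ℕ} (hr : finrank k E = r) {n : ℕ} (D : k[X])
    (c α β : Fin n → k[X]) (e : Fin n → ℕ) :
    ∑ t : E, qc (aeval t D) * ∏ i, ∑ x : E, qc (aeval t (c i) * x ^ (3 * 3 ^ e i) +
      (aeval t (α i) * x ^ 3 ^ e i + aeval t (β i)) ^ 2) = AA D c α β e r := by
  unfold AA
  rw [Pool.Agent.Y709.sum_closed hr (G := fun P => chi D P.1 ^ (r / P.1.natDegree) *
      ∏ i, Sg (fib (c i) (α i) (β i) (e i) P) (r / P.1.natDegree))]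
  intro P t ht
  rw [qc_root h2 hr D ht]
  congr 1
  refine Finset.prod_congr rfl fun i _ => ?_
  exact sum_fib h2 hr _ _ _ _ ht

open Classical in
theorem card_E (h2 : (2 : k) ≠ 0) {r : ℕ} (hr : finrank k E = r) {n : ℕ} (D : k[X])
    (c α β : Fin n → k[X]) (e : Fin n → ℕ) :
    (({P : E × (Fin n → E) × E | OnHypersurface D c α β e P.1 P.2.1 P.2.2}.ncard : ℕ) : ℤ) =
      ((Nat.card k : ℕ) : ℤ) ^ (r * (n + 1)) + AA D c α β e r := by
  have hE : Fintype.card E = Nat.card k ^ r := by
    have : Module.Finite k E := Module.Finite.of_finite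
    rw [← hr, ← Module.natCard_eq_pow_finrank, Nat.card_eq_fintype_card]
  have h1 : ({P : E × (Fin n → E) × E | OnHypersurface D c α β e P.1 P.2.1 P.2.2}.ncard) =
      ∑ t : E, ∑ x : Fin n → E, (Finset.univ.filter fun y : E => y ^ 2 = aeval t D *
        ∏ i, (aeval t (c i) * x i ^ (3 * 3 ^ e i) +
          (aeval t (α i) * x i ^ 3 ^ e i + aeval t (β i)) ^ 2)).card := by
    rw [Set.ncard_eq_toFinset_card', Set.toFinset_ofPred, Finset.card_filter, Fintype.sum_prod_type]
    refine Finset.sum_congr rfl fun t _ => ?_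
    rw [Fintype.sum_prod_type]
    refine Finset.sum_congr rfl fun x _ => ?_
    rw [Finset.card_filter]
    rfl
  rw [h1]
  push_cast
  have h3 : ∀ t : E, ∀ x : Fin n → E, (((Finset.univ.filter fun y : E => y ^ 2 = aeval t D *
        ∏ i, (aeval t (c i) * x i ^ (3 * 3 ^ e i) +
          (aeval t (α i) * x i ^ 3 ^ e i + aeval t (β i)) ^ 2)).card : ℕ) : ℤ) =
      1 + qc (aeval t D) * ∏ i, qc (aeval t (c i) * x i ^ (3 * 3 ^ e i) +
        (aeval t (α i) * x i ^ 3 ^ e i + aeval t (β i)) ^ 2) := by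
    intro t x
    rw [card_sqrt (two_E h2), qc_mul]
    congr 2
    exact map_prod ({ toFun := qc, map_one' := qc_one, map_mul' := qc_mul } : E →* ℤ) _ _
  simp only [h3, Finset.sum_add_distrib]
  congr 1
  · simp only [Finset.sum_const, Finset.card_univ, nsmul_eq_mul, mul_one]
    rw [Fintype.card_pi_const, hE]
    push_cast
    ring
  · rw [← sum_base h2 hr D c α β e]
    refine Finset.sum_congr rfl fun t _ => ?_
    rw [← Finset.mul_sum, Finset.prod_univ_sum, Fintype.piFinset_univ]

end

section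

variable {k : Type} [Field k] [Finite k]

/-- the fixed points of the Frobenius -/
theorem range_eq {E : Type} [Field E] [Algebra k E] [Fintype E] {r : ℕ} (hr : finrank k E = r)
    (ψ : E →ₐ[k] AlgebraicClosure k) :
    Set.range ψ = {z : AlgebraicClosure k | z ^ (Nat.card k ^ r) = z} := by
  classical
  have : Module.Finite k E := Module.Finite.of_finite
  have hr0 : r ≠ 0 := by
    rw [← hr]
    exact finrank_pos.ne'
  have hE : Fintype.card E = Nat.card k ^ r := by
    rw [← hr, ← Module.natCard_eq_pow_finrank, Nat.card_eq_fintype_card]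
  have hq : 1 < Nat.card k ^ r := Nat.one_lt_pow hr0 Finite.one_lt_card
  set S := {z : AlgebraicClosure k | z ^ (Nat.card k ^ r) = z} with hS
  have h1 : S ⊆ ((X ^ (Nat.card k ^ r) - X : (AlgebraicClosure k)[X]).roots.toFinset : Set _) := by
    intro z hz
    have hz' : z ^ (Nat.card k ^ r) = z := hz
    rw [Finset.mem_coe, Multiset.mem_toFinset, mem_roots (FiniteField.X_pow_card_sub_X_ne_zero _ hq),
      IsRoot.def, eval_sub, eval_pow, eval_X, hz', sub_self]
  have hfin : S.Finite := (Finset.finite_toSet _).subset h1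
  have h2 : S.ncard ≤ Nat.card k ^ r := by
    refine (Set.ncard_le_ncard h1 (Finset.finite_toSet _)).trans ?_
    rw [Set.ncard_coe_finset]
    refine (Multiset.toFinset_card_le _).trans ((card_roots' _).trans ?_)
    rw [FiniteField.X_pow_card_sub_X_natDegree_eq _ hq]
  have h3 : Set.range ψ ⊆ S := by
    rintro _ ⟨x, rfl⟩
    show ψ x ^ (Nat.card k ^ r) = ψ x
    rw [← map_pow, ← hE, FiniteField.pow_card]
  have hinj : Function.Injective ψ := ψ.toRingHom.injective
  have h4 : (Set.range ψ).ncard = Nat.card k ^ r := by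
    rw [← Set.image_univ, Set.ncard_image_of_injective _ hinj, Set.ncard_univ,
      Nat.card_eq_fintype_card, hE]
  exact Set.eq_of_subset_of_ncard_le h3 (by rw [h4]; exact h2) hfin

/-- **The number of points.** -/
theorem numPoints_eq (h2 : (2 : k) ≠ 0) {n : ℕ} (D : k[X]) (c α β : Fin n → k[X]) (e : Fin n → ℕ)
    {r : ℕ} (hr : r ≠ 0) :
    ((numPoints D c α β e r : ℕ) : ℤ) =
      ((Nat.card k : ℕ) : ℤ) ^ (r * (n + 1)) + AA D c α β e r := by
  obtain ⟨p, hp⟩ := CharP.exists k
  have hpf : Fact p.Prime := ⟨CharP.char_is_prime k p⟩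
  have hr' : NeZero r := ⟨hr⟩
  set E := FiniteField.Extension k p r with hE
  have := Fintype.ofFinite E
  have hfr : finrank k E = r := FiniteField.finrank_extension k p r
  have hfd : Module.Finite k E := Module.Finite.of_finite
  let ψ : E →ₐ[k] AlgebraicClosure k := IsAlgClosed.lift
  have hrange := range_eq hfr ψ
  have hinj : Function.Injective ψ := ψ.toRingHom.injective
  rw [← card_E h2 hfr D c α β e]
  congr 1
  unfold numPoints
  let Φ : E × (Fin n → E) × E → AlgebraicClosure k × (Fin n → AlgebraicClosure k) ×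
      AlgebraicClosure k := fun P => (ψ P.1, fun i => ψ (P.2.1 i), ψ P.2.2)
  have hΦ : Function.Injective Φ := by
    rintro ⟨t, x, y⟩ ⟨t', x', y'⟩ h
    have h1 : ψ t = ψ t' := congrArg (fun z => z.1) h
    have h2 : (fun i => ψ (x i)) = fun i => ψ (x' i) := congrArg (fun z => z.2.1) h
    have h3 : ψ y = ψ y' := congrArg (fun z => z.2.2) h
    have h4 : x = x' := by
      funext i
      exact hinj (congrFun h2 i)
    rw [hinj h1, h4, hinj h3]
  have hon : ∀ (t : E) (x : Fin n → E) (y : E), OnHypersurface D c α β e (ψ t) (fun i => ψ (x i))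
      (ψ y) ↔ OnHypersurface D c α β e t x y := by
    intro t x y
    unfold OnHypersurface
    simp only [aeval_algHom_apply]
    rw [← hinj.eq_iff (a := y ^ 2)]
    simp only [map_pow, map_mul, map_prod, map_add]
  rw [← Set.ncard_image_of_injective _ hΦ]
  congr 1
  have hmem : ∀ z : AlgebraicClosure k, z ^ (Nat.card k ^ r) = z → ∃ x : E, ψ x = z := by
    intro z hz
    have : z ∈ Set.range ψ := by
      rw [hrange]
      exact hz
    exact this
  have hfix : ∀ x : E, ψ x ^ (Nat.card k ^ r) = ψ x := by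
    intro x
    have : ψ x ∈ Set.range ψ := ⟨x, rfl⟩
    rw [hrange] at this
    exact this
  ext P
  constructor
  · rintro ⟨h1, h2, h3, h4⟩
    obtain ⟨t, ht⟩ := hmem _ h1
    have h5 : ∀ i, ∃ x : E, ψ x = P.2.1 i := fun i => hmem _ (h2 i)
    choose x hx using h5
    obtain ⟨y, hy⟩ := hmem _ h3
    refine ⟨(t, x, y), ?_, ?_⟩
    · show OnHypersurface D c α β e t x y
      rw [← hon, ht, hy, show (fun i => ψ (x i)) = P.2.1 from funext hx]
      exact h4
    · show (ψ t, (fun i => ψ (x i)), ψ y) = P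
      rw [ht, hy, show (fun i => ψ (x i)) = P.2.1 from funext hx]
  · rintro ⟨⟨t, x, y⟩, h1, rfl⟩
    exact ⟨hfix t, fun i => hfix (x i), hfix y, (hon t x y).2 h1⟩

end

end Pool.Agent.Y711
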