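import Pool.Agent.Y711.Tri4

/-!
The Euler product of the pullback of a hyperelliptic curve by a polynomial substitution.
-/

set_option autoImplicit false
set_option maxHeartbeats 1000000

open Polynomial

namespace Pool.Agent.Y711

open Pool.Agent.W313.Hyp Pool.Agent.W343.BSD Pool.Agent.Y784.FC

section

variable {F : Type} [Field F] [Finite F]

/-- the fibre polynomial of the substitution -/
noncomputable def Gf (φ : F[X]) (P : MI F) : (RF P)[X] :=
  φ.map (algebraMap F (RF P)) - C (AdjoinRoot.root P.1)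

omit [Finite F] in
theorem Gf_ne {φ : F[X]} (hφ : 0 < φ.natDegree) (P : MI F) : Gf φ P ≠ 0 := by
  intro h
  have h1 : φ.map (algebraMap F (RF P)) = C (AdjoinRoot.root P.1) := sub_eq_zero.1 h
  have h2 := congrArg natDegree h1
  rw [natDegree_map, natDegree_C] at h2
  omega

omit [Finite F] in
theorem comp_ne {φ : F[X]} (hφ : 0 < φ.natDegree) (P : MI F) : P.1.comp φ ≠ 0 := by
  intro h
  rcases comp_eq_zero_iff.1 h with h1 | ⟨_, h1⟩
  · exact P.2.2.ne_zero h1
  · rw [h1, natDegree_C] at hφ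
    omega

open Classical in
/-- the numbers of the closed points over a closed point -/
theorem pull_counts {φ : F[X]} (hφ : 0 < φ.natDegree) (P : MI F) (N : ℕ) (hN : 0 < N) :
    ∑ Q ∈ fac (P.1.comp φ), (if Q.1.natDegree ∣ N then Q.1.natDegree else 0) =
      ∑ R ∈ fac (Gf φ P), (if P.1.natDegree * R.1.natDegree ∣ N then
        P.1.natDegree * R.1.natDegree else 0) := by
  obtain ⟨p, hp⟩ := CharP.exists F
  have : Fact p.Prime := ⟨CharP.char_is_prime F p⟩
  have : NeZero N := ⟨hN.ne'⟩
  have hfr := FiniteField.finrank_extension F p N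
  set L := FiniteField.Extension F p N with hL
  have : Fintype L := Fintype.ofFinite _
  have : Module.Finite F L := Module.Finite.of_finite
  rw [← card_roots_ext hfr (comp_ne hφ P)]
  have h1 : (Finset.univ.filter fun x : L => aeval x (P.1.comp φ) = 0).card =
      ∑ t ∈ Finset.univ.filter (fun t : L => pt F t = P),
        (Finset.univ.filter fun x : L => aeval x φ = t).card := by
    rw [Finset.card_eq_sum_card_fiberwise (f := fun x => aeval x φ)
      (t := Finset.univ.filter (fun t : L => pt F t = P))]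
    · refine Finset.sum_congr rfl fun t ht => ?_
      congr 1
      ext x
      simp only [Finset.mem_filter, Finset.mem_univ, true_and]
      constructor
      · exact fun h => h.2
      · intro h
        refine ⟨?_, h⟩
        rw [Finset.mem_filter] at ht
        rw [aeval_comp, h, ← ht.2]
        exact pt_root t
    · intro x hx
      rw [Finset.mem_coe, Finset.mem_filter] at hx
      rw [Finset.mem_coe, Finset.mem_filter]
      refine ⟨Finset.mem_univ _, ?_⟩
      have h3 : aeval (aeval x φ) P.1 = 0 := by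
        rw [← aeval_comp]
        exact hx.2
      exact eq_of_dvd_MI (P := pt F (aeval x φ)) (Q := P) (minpoly.dvd F _ h3)
  have h2 : ∀ t ∈ Finset.univ.filter (fun t : L => pt F t = P),
      (Finset.univ.filter fun x : L => aeval x φ = t).card =
        ∑ R ∈ fac (Gf φ P), if R.1.natDegree ∣ N / P.1.natDegree then R.1.natDegree else 0 := by
    intro t ht
    rw [Finset.mem_filter] at ht
    have ht0 : aeval t P.1 = 0 := by
      rw [← ht.2]
      exact pt_root t
    let _ : Algebra (RF P) L := (sg ht0).toAlgebra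
    have h3 : Module.finrank (RF P) L = N / P.1.natDegree := finrank_over hfr ht0
    rw [← card_roots_ext h3 (Gf_ne hφ P)]
    congr 1
    ext x
    simp only [Finset.mem_filter, Finset.mem_univ, true_and]
    have h4 : aeval x (Gf φ P) = aeval x φ - t := by
      unfold Gf
      rw [map_sub, aeval_C, aeval_def, eval₂_map]
      have h5 : (algebraMap (RF P) L) (AdjoinRoot.root P.1) = t := sg_root ht0
      rw [h5]
      congr 1
      have h6 : (algebraMap (RF P) L).comp (algebraMap F (RF P)) = algebraMap F L := by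
        ext c
        exact sg_of ht0 c
      rw [h6]
      rfl
    rw [h4, sub_eq_zero]
  rw [h1, Finset.sum_congr rfl h2, Finset.sum_const, card_pt hfr P, smul_eq_mul, Finset.mul_sum]
  refine Finset.sum_congr rfl fun R _ => ?_
  have h0 := dvd_iff (b := R.1.natDegree) (N := N) (MI.deg_pos P)
  by_cases h2 : P.1.natDegree ∣ N
  · by_cases h3 : R.1.natDegree ∣ N / P.1.natDegree
    · rw [if_pos (h0.2 ⟨h2, h3⟩), if_pos h2, if_pos h3]
    · rw [if_neg (fun h => h3 (h0.1 h).2), if_neg h3, mul_zero]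
  · rw [if_neg (fun h => h2 (h0.1 h).1), if_neg h2, zero_mul]

/-- products over the closed points over a closed point -/
theorem pull_prod {φ : F[X]} (hφ : 0 < φ.natDegree) (P : MI F) {S : Type*} [CommMonoid S]
    (ψ : ℕ → S) : ∏ Q ∈ fac (P.1.comp φ), ψ Q.1.natDegree =
      ∏ R ∈ fac (Gf φ P), ψ (P.1.natDegree * R.1.natDegree) := by
  classical
  set ι := {Q : MI F // Q ∈ fac (P.1.comp φ)} with hι
  set κ := {R : MI (RF P) // R ∈ fac (Gf φ P)} with hκ
  set d : ι → ℕ := fun Q => Q.1.1.natDegree with hd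
  set e : κ → ℕ := fun R => P.1.natDegree * R.1.1.natDegree with he
  have hfin : ∀ n, {i : ι | d i ≤ n}.Finite := fun n => Set.toFinite _
  have hfin' : ∀ n, {j : κ | e j ≤ n}.Finite := fun n => Set.toFinite _
  have hc := counts_eq hfin hfin' (fun i => MI.deg_pos i.1)
    (fun j => Nat.mul_pos (MI.deg_pos P) (MI.deg_pos j.1)) (by
    intro N hN
    have h1 : ∑ i ∈ (hfin N).toFinset with d i ∣ N, d i =
        ∑ Q ∈ fac (P.1.comp φ), (if Q.1.natDegree ∣ N then Q.1.natDegree else 0) := by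
      rw [← Finset.sum_coe_sort (fac (P.1.comp φ)), ← Finset.sum_filter]
      refine Finset.sum_congr ?_ fun _ _ => rfl
      ext i
      rw [Finset.mem_filter, Finset.mem_filter, Set.Finite.mem_toFinset]
      constructor
      · exact fun h => ⟨Finset.mem_univ _, h.2⟩
      · exact fun h => ⟨Nat.le_of_dvd hN h.2, h.2⟩
    have h2 : ∑ j ∈ (hfin' N).toFinset with e j ∣ N, e j =
        ∑ R ∈ fac (Gf φ P), (if P.1.natDegree * R.1.natDegree ∣ N then
          P.1.natDegree * R.1.natDegree else 0) := by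
      rw [← Finset.sum_coe_sort (fac (Gf φ P)), ← Finset.sum_filter]
      refine Finset.sum_congr ?_ fun _ _ => rfl
      ext i
      rw [Finset.mem_filter, Finset.mem_filter, Set.Finite.mem_toFinset]
      constructor
      · exact fun h => ⟨Finset.mem_univ _, h.2⟩
      · exact fun h => ⟨Nat.le_of_dvd hN h.2, h.2⟩
    rw [h1, h2]
    exact pull_counts hφ P N hN)
  have hφ' : ∀ m, Nonempty ({i // d i = m} ≃ {j // e j = m}) := by
    intro m
    have g1 : Finite {i // d i = m} := inferInstance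
    have g2 : Finite {j // e j = m} := inferInstance
    exact Finite.card_eq.1 (hc m)
  let χ : ∀ m, ({i // d i = m} ≃ {j // e j = m}) := fun m => Classical.choice (hφ' m)
  let η : ι ≃ κ := (Equiv.sigmaFiberEquiv d).symm.trans
    ((Equiv.sigmaCongrRight fun m => χ m).trans (Equiv.sigmaFiberEquiv e))
  have hη : ∀ i, e (η i) = d i := fun i => (χ (d i) ⟨i, rfl⟩).2
  rw [← Finset.prod_coe_sort (fac (P.1.comp φ)), ← Finset.prod_coe_sort (fac (Gf φ P))]
  refine Fintype.prod_equiv η _ _ fun i => ?_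
  have := hη i
  simp only [hd, he] at this
  rw [this]

omit [Finite F] in
/-- the closed point below -/
theorem exists_pull (φ : F[X]) (Q : MI F) [Finite F] : ∃ P : MI F, Q.1 ∣ P.1.comp φ := by
  have : Module.Finite F (RF Q) := Q.2.1.finite_adjoinRoot
  refine ⟨pt F (AdjoinRoot.mk Q.1 φ), ?_⟩
  rw [← AdjoinRoot.mk_eq_zero]
  have h1 : aeval (AdjoinRoot.mk Q.1 φ) (minpoly F (AdjoinRoot.mk Q.1 φ)) = 0 := minpoly.aeval _ _
  have h2 : AdjoinRoot.mk Q.1 ((pt F (AdjoinRoot.mk Q.1 φ)).1.comp φ) =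
      aeval (AdjoinRoot.mk Q.1 φ) (pt F (AdjoinRoot.mk Q.1 φ)).1 := by
    rw [comp, hom_eval₂, aeval_def]
    rfl
  rw [h2]
  exact h1

/-- the quadratic character of a pullback -/
theorem chi_comp (h2 : (2 : F) ≠ 0) {φ : F[X]} (h : F[X]) {P Q : MI F} (hQ : Q.1 ∣ P.1.comp φ) :
    P.1.natDegree ∣ Q.1.natDegree ∧
      chi (h.comp φ) Q.1 = chi h P.1 ^ (Q.1.natDegree / P.1.natDegree) := by
  set x : RF Q := AdjoinRoot.mk Q.1 φ with hx
  have hmk : ∀ g : F[X], AdjoinRoot.mk Q.1 (g.comp φ) = aeval x g := by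
    intro g
    rw [comp, hom_eval₂, aeval_def]
    rfl
  have hx0 : aeval x P.1 = 0 := by
    rw [← hmk, AdjoinRoot.mk_eq_zero]
    exact hQ
  have h3 := finrank_over (F := F) (L := RF Q) (finrank_RF Q) hx0
  let _ : Algebra (RF P) (RF Q) := (sg hx0).toAlgebra
  have : IsScalarTower F (RF P) (RF Q) := IsScalarTower.of_algebraMap_eq fun c => (sg_of hx0 c).symm
  have h1 := Module.finrank_mul_finrank F (RF P) (RF Q)
  rw [finrank_RF, finrank_RF] at h1
  refine ⟨⟨_, h1.symm⟩, ?_⟩
  have hne : Module.finrank (RF P) (RF Q) ≠ 0 := by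
    intro h0
    rw [h0, mul_zero] at h1
    have := MI.deg_pos Q
    omega
  have h4 := qc_ext (F := RF P) (F' := RF Q) (two_RF h2 P) (AdjoinRoot.mk P.1 h) hne
  have h5 : algebraMap (RF P) (RF Q) (AdjoinRoot.mk P.1 h) = AdjoinRoot.mk Q.1 (h.comp φ) := by
    rw [hmk]
    show sg hx0 (AdjoinRoot.mk P.1 h) = _
    exact AdjoinRoot.lift_mk (i := algebraMap F (RF Q)) (a := x) (h := hx0) (g := h)
  rw [h5, h3] at h4
  rw [chi_eq, chi_eq, h4]

/-- **The Euler product of a pullback.** -/
theorem E3_comp (h2 : (2 : F) ≠ 0) {φ : F[X]} (hφ : 0 < φ.natDegree) (h : F[X]) :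
    E3 (h.comp φ) = eulerProd (fun P : MI F => P.1.natDegree) (fun P =>
      pr (Gf φ P) (PowerSeries.C ((chi h P.1 : ℤ) : ZMod 3) *
        PowerSeries.X ^ P.1.natDegree : PowerSeries (ZMod 3))) := by
  unfold E3
  rw [← eulerProd_fiber (d := fun P : MI F => P.1.natDegree) (fun n => finite_deg_le n)
    (fun n => finite_deg_le n) (fun Q => one_sub_dvd _ _) (fun P => fac (P.1.comp φ)) ?_ ?_ ?_]
  · congr 1
    funext P
    have h3 : ∀ Q ∈ fac (P.1.comp φ), (1 - PowerSeries.C ((chi (h.comp φ) Q.1 : ℤ) : ZMod 3) *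
        PowerSeries.X ^ Q.1.natDegree : PowerSeries (ZMod 3)) =
        (fun m : ℕ => (1 - PowerSeries.C (((chi h P.1 : ℤ) : ZMod 3) ^ (m / P.1.natDegree)) *
          PowerSeries.X ^ m : PowerSeries (ZMod 3))) Q.1.natDegree := by
      intro Q hQ
      rw [mem_fac (comp_ne hφ P)] at hQ
      show _ = (1 - PowerSeries.C (((chi h P.1 : ℤ) : ZMod 3) ^ (Q.1.natDegree / P.1.natDegree)) *
          PowerSeries.X ^ Q.1.natDegree : PowerSeries (ZMod 3))
      rw [(chi_comp h2 h hQ).2, Int.cast_pow]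
    rw [Finset.prod_congr rfl h3]
    refine (pull_prod hφ P (fun m : ℕ => (1 - PowerSeries.C (((chi h P.1 : ℤ) : ZMod 3) ^
      (m / P.1.natDegree)) * PowerSeries.X ^ m : PowerSeries (ZMod 3)))).trans ?_
    unfold pr
    refine Finset.prod_congr rfl fun R _ => ?_
    show (1 - PowerSeries.C (((chi h P.1 : ℤ) : ZMod 3) ^
      (P.1.natDegree * R.1.natDegree / P.1.natDegree)) *
        PowerSeries.X ^ (P.1.natDegree * R.1.natDegree) : PowerSeries (ZMod 3)) = _
    rw [Nat.mul_div_cancel_left _ (MI.deg_pos P), mul_pow, ← map_pow, ← pow_mul]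
  · intro Q
    obtain ⟨P, hP⟩ := exists_pull φ Q
    exact ⟨P, (mem_fac (comp_ne hφ P) Q).2 hP⟩
  · intro P P' Q hP hP'
    rw [mem_fac (comp_ne hφ P)] at hP
    rw [mem_fac (comp_ne hφ P')] at hP'
    by_contra hne
    have hcop : IsCoprime P.1 P'.1 := by
      rw [P.2.2.coprime_iff_not_dvd]
      intro hd
      exact hne (eq_of_dvd_MI hd)
    obtain ⟨u, v, huv⟩ := hcop
    have h5 := congrArg (fun p => p.comp φ) huv
    simp only [add_comp, mul_comp, one_comp] at h5
    have h6 : Q.1 ∣ 1 := by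
      rw [← h5]
      exact dvd_add (hP.mul_left _) (hP'.mul_left _)
    exact Q.2.2.not_isUnit (isUnit_of_dvd_one h6)
  · intro P Q hQ
    rw [mem_fac (comp_ne hφ P)] at hQ
    exact Nat.le_of_dvd (MI.deg_pos Q) (chi_comp h2 h hQ).1

theorem euler_rel {A s t : MI F → PowerSeries (ZMod 3)}
    (hA : ∀ P, (PowerSeries.X : PowerSeries (ZMod 3)) ^ P.1.natDegree ∣ A P - 1)
    (hs : ∀ P, (PowerSeries.X : PowerSeries (ZMod 3)) ^ P.1.natDegree ∣ s P - 1)
    (h : ∀ P, A P * s P = t P) :
    eulerProd (fun P : MI F => P.1.natDegree) A * eulerProd (fun P : MI F => P.1.natDegree) s =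
      eulerProd (fun P : MI F => P.1.natDegree) t := by
  rw [← eulerProd_mul (fun n => finite_deg_le (F := F) n) hA hs]
  congr 1
  funext P
  exact h P

/-- **The cubic step.** -/
theorem cubic_pull (h2 : (2 : F) ≠ 0) (h3 : (3 : F) ≠ 0) {c : F} (hc : c ≠ 0) (h : F[X]) :
    E3 (h.comp (C c * X ^ 3)) * (w1 h (mi 0) * PowerSeries.rescale (qm F) (w1 h (mi 0))) =
      E3 h ^ 2 * PowerSeries.rescale (qm F) (E3 h) := by
  classical
  have hfin := fun n => finite_deg_le (F := F) n
  have hchar := charS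
  have hdeg : (C c * X ^ 3 : F[X]).natDegree = 3 := natDegree_C_mul_X_pow _ _ hc
  have hre : ∀ P : MI F, PowerSeries.rescale (qm F) (w1 h P) =
      1 - PowerSeries.C (qm F ^ P.1.natDegree) * (PowerSeries.C ((chi h P.1 : ℤ) : ZMod 3) *
        PowerSeries.X ^ P.1.natDegree) := by
    intro P
    unfold w1
    rw [map_sub, map_one, map_mul, map_pow, PowerSeries.rescale_X, mul_pow, ← map_pow]
    have e2 : PowerSeries.rescale (qm F) (PowerSeries.C ((chi h P.1 : ℤ) : ZMod 3)) =
        PowerSeries.C ((chi h P.1 : ℤ) : ZMod 3) := by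
      ext n
      rw [PowerSeries.coeff_rescale, PowerSeries.coeff_C]
      split_ifs with h
      · rw [h, pow_zero, one_mul]
      · rw [mul_zero]
    rw [e2]
    ring
  set s : MI F → PowerSeries (ZMod 3) := fun P =>
    if P = mi 0 then w1 h (mi 0) * PowerSeries.rescale (qm F) (w1 h (mi 0)) else 1 with hs
  have ds0 : (PowerSeries.X : PowerSeries (ZMod 3)) ^ (mi (0 : F)).1.natDegree ∣
      w1 h (mi 0) * PowerSeries.rescale (qm F) (w1 h (mi 0)) - 1 :=
    one_mod_mul (w1_dvd h (mi 0)) (rescale_dvd_one _ (w1_dvd h (mi 0)))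
  have ds : ∀ P, (PowerSeries.X : PowerSeries (ZMod 3)) ^ P.1.natDegree ∣ s P - 1 := by
    intro P
    simp only [hs]
    split_ifs with h
    · rw [h]; exact ds0
    · rw [sub_self]; exact dvd_zero _
  have hG : ∀ P : MI F, ∀ T : PowerSeries (ZMod 3), pr (Gf (C c * X ^ 3) P) T =
      pr (X ^ 3 + C 0 * X ^ 2 + C 0 * X +
        C (-(AdjoinRoot.root P.1 * (algebraMap F (RF P) c)⁻¹)) : (RF P)[X]) T := by
    intro P T
    have hcP : algebraMap F (RF P) c ≠ 0 := alg_ne hc
    have h5 : Gf (C c * X ^ 3) P = C (algebraMap F (RF P) c) * (X ^ 3 + C 0 * X ^ 2 + C 0 * X +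
        C (-(AdjoinRoot.root P.1 * (algebraMap F (RF P) c)⁻¹)) : (RF P)[X]) := by
      unfold Gf
      rw [Polynomial.map_mul, map_C, Polynomial.map_pow, map_X]
      have h6 : C (algebraMap F (RF P) c) * C (-(AdjoinRoot.root P.1 * (algebraMap F (RF P) c)⁻¹)) =
          -C (AdjoinRoot.root P.1) := by
        rw [← C_mul, ← C_neg]
        congr 1
        field_simp
      rw [C_0]
      linear_combination -h6
    unfold pr
    rw [h5, fac_C_mul hcP _ (cub_monic _ _ _).ne_zero]
  have key : ∀ P : MI F, pr (Gf (C c * X ^ 3) P) (PowerSeries.C ((chi h P.1 : ℤ) : ZMod 3) *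
      PowerSeries.X ^ P.1.natDegree : PowerSeries (ZMod 3)) * s P =
      w1 h P ^ 2 * PowerSeries.rescale (qm F) (w1 h P) := by
    intro P
    rw [hG]
    simp only [hs]
    by_cases hP : P = mi 0
    · rw [if_pos hP, hP]
      have h7 : (X ^ 3 + C 0 * X ^ 2 + C 0 * X +
          C (-(AdjoinRoot.root (mi (0 : F)).1 * (algebraMap F (RF (mi 0)) c)⁻¹)) :
          (RF (mi (0 : F)))[X]) = X ^ 3 := by
        rw [root_eq, map_zero]
        simp
      rw [pr_X3 _ h7]
      have h8 : w1 h (mi 0) = 1 - PowerSeries.C ((chi h (mi (0 : F)).1 : ℤ) : ZMod 3) *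
        PowerSeries.X ^ (mi (0 : F)).1.natDegree := rfl
      rw [← h8]
      ring
    · have hcP : algebraMap F (RF P) c ≠ 0 := alg_ne hc
      have hu : AdjoinRoot.root P.1 * (algebraMap F (RF P) c)⁻¹ ≠ 0 :=
        mul_ne_zero (root_ne_zero hP) (inv_ne_zero hcP)
      set u := AdjoinRoot.root P.1 * (algebraMap F (RF P) c)⁻¹ with hud
      have h3P := three_RF h3 P
      rw [if_neg hP, mul_one, pr_cub (two_RF h2 P)]
      · have h9 : disc3 (0 : RF P) 0 (-u) = -3 * (3 * u) ^ 2 := by
          unfold disc3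
          ring
        have hfinP := finRF P
        have hqq := qc_neg_three_sq (F := RF P) (two_RF h2 P) h3P (mul_ne_zero h3P hu)
        have hw : w1 h P = 1 - PowerSeries.C ((chi h P.1 : ℤ) : ZMod 3) *
          PowerSeries.X ^ P.1.natDegree := rfl
        have hw' : (PowerSeries.C ((qc (-3 * (3 * u) ^ 2 : RF P) : ℤ) : ZMod 3) :
          PowerSeries (ZMod 3)) = ((qc (-3 * (3 * u) ^ 2 : RF P) : ℤ) : PowerSeries (ZMod 3)) :=
            map_intCast _ _
        rw [h9, hre, hw, ← qm_RF, ← hqq, hw']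
      · rintro r ⟨e1, _, e3⟩
        have hr : r = 0 := by
          have : (3 : RF P) * r = 0 := by linear_combination e1
          exact (mul_eq_zero.1 this).resolve_left h3P
        apply hu
        rw [hr] at e3
        linear_combination -e3
  have dpr : ∀ P : MI F, (PowerSeries.X : PowerSeries (ZMod 3)) ^ P.1.natDegree ∣
      pr (Gf (C c * X ^ 3) P) (PowerSeries.C ((chi h P.1 : ℤ) : ZMod 3) *
        PowerSeries.X ^ P.1.natDegree : PowerSeries (ZMod 3)) - 1 := fun P =>
    dvd_trans (dvd_mul_left _ (PowerSeries.C ((chi h P.1 : ℤ) : ZMod 3)))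
      (pr_sub_dvd (Gf (C c * X ^ 3) P) _)
  have e1 := euler_rel dpr ds key
  rw [← E3_comp h2 (by rw [hdeg]; norm_num) h, euler_single _ ds0,
    eulerProd_mul hfin (fun P => pow_dvd_sub_one (w1_dvd h P) 2)
    (fun P => rescale_dvd_one _ (w1_dvd h P)), eulerProd_pow hfin (w1_dvd h),
    ← rescale_eulerProd hfin _ (w1_dvd h)] at e1
  exact e1

end

end Pool.Agent.Y711
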