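import Pool.Agent.Y784.FC.Main

/-!
Local factors of hyperelliptic curves over finite fields, and their quadratic twists by constants.
-/

set_option autoImplicit false
set_option maxHeartbeats 1000000

open PowerSeries

namespace Pool.Agent.Y711

open Pool.Agent.W313.Hyp Pool.Agent.W343.BSD Pool.Agent.Y784.FC

section qc

variable {F : Type} [Field F]

theorem qc_cases {x : F} (hx : x ≠ 0) : qc x = 1 ∨ qc x = -1 := by
  classical
  unfold qc
  rw [if_neg hx]
  split_ifs
  · exact Or.inl rfl
  · exact Or.inr rfl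

theorem qc_one : qc (1 : F) = 1 := by
  have := qc_sq (K := F) one_ne_zero
  rwa [one_pow] at this

theorem qc_eq [Fintype F] [DecidableEq F] (x : F) : qc x = quadraticChar F x := by
  classical
  rw [quadraticChar_apply, quadraticCharFun]
  unfold qc
  congr

theorem qc_mul [Finite F] (x y : F) : qc (x * y) = qc x * qc y := by
  classical
  have := Fintype.ofFinite F
  rw [qc_eq, qc_eq, qc_eq, map_mul]

theorem char_ne_two (h2 : (2 : F) ≠ 0) : ringChar F ≠ 2 := by
  intro h
  apply h2
  have := ringChar.Nat.cast_ringChar (R := F)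
  rw [h] at this
  exact_mod_cast this

theorem two_ne_ext {F' : Type} [Field F'] [Algebra F F'] (h2 : (2 : F) ≠ 0) :
    (2 : F') ≠ 0 := by
  have : (2 : F') = algebraMap F F' 2 := by rw [map_ofNat]
  rw [this]
  exact (_root_.map_ne_zero _).2 h2

/-- the quadratic character of an extension at an element of the small field -/
theorem quad_ext {F' : Type} [Fintype F] [DecidableEq F] [Field F'] [Fintype F']
    [DecidableEq F'] [Algebra F F'] (h2 : (2 : F) ≠ 0) {c : F} (hc0 : c ≠ 0) :
    quadraticChar F' (algebraMap F F' c) = quadraticChar F c ^ Module.finrank F F' := by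
  set d := Module.finrank F F' with hd
  have hchar := char_ne_two h2
  have h2R : (2 : F') ≠ 0 := two_ne_ext h2
  have hcharR := char_ne_two h2R
  have hcb : algebraMap F F' c ≠ 0 := (_root_.map_ne_zero _).2 hc0
  have hinj : ∀ x y : ℤ, (x = 1 ∨ x = -1) → (y = 1 ∨ y = -1) → (x : F') = (y : F') → x = y := by
    intro x y hx hy hxy
    rcases hx with rfl | rfl <;> rcases hy with rfl | rfl
    · rfl
    · exfalso
      apply h2R
      push_cast at hxy
      linear_combination hxy
    · exfalso
      apply h2R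
      push_cast at hxy
      linear_combination -hxy
    · rfl
  have hk : quadraticChar F c = 1 ∨ quadraticChar F c = -1 := quadraticChar_dichotomy hc0
  have hkd : quadraticChar F c ^ d = 1 ∨ quadraticChar F c ^ d = -1 := by
    rcases hk with h | h
    · left; rw [h, one_pow]
    · rw [h]; exact neg_one_pow_eq_or ℤ d
  apply hinj _ _ (quadraticChar_dichotomy hcb) hkd
  rw [quadraticChar_eq_pow_of_char_ne_two' hcharR]
  have hq : Fintype.card F' = Fintype.card F ^ d := Module.card_eq_pow_finrank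
  have hoddq := FiniteField.odd_card_of_char_ne_two hchar
  have hkp := quadraticChar_eq_pow_of_char_ne_two' hchar c
  set q := Fintype.card F with hqdef
  have hsplit : q ^ d / 2 = q / 2 * ∑ i ∈ Finset.range d, q ^ i := by
    obtain ⟨j, hj⟩ : ∃ j, q = 2 * j + 1 := ⟨q / 2, by omega⟩
    have hj2 : q / 2 = j := by omega
    have hj1 : q - 1 = 2 * j := by omega
    have h4 : (q - 1) * ∑ i ∈ Finset.range d, q ^ i = q ^ d - 1 := by
      rw [mul_comm]
      exact geom_sum_mul_of_one_le (by omega) d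
    rw [hj1] at h4
    have hqo : (q ^ d) % 2 = 1 := Nat.odd_iff.1 ((Nat.odd_iff.2 hoddq).pow)
    rw [hj2]
    have h5 : 2 * (j * ∑ i ∈ Finset.range d, q ^ i) = q ^ d - 1 := by
      rw [← h4]; ring
    omega
  have e3 : (algebraMap F F' c) ^ (q / 2) = ((quadraticChar F c : ℤ) : F') := by
    rw [← map_pow, ← hkp, map_intCast]
  rw [hq, hsplit, pow_mul, e3]
  have hpar : ∀ n : ℕ, (∑ i ∈ Finset.range n, q ^ i) % 2 = n % 2 := by
    intro n
    induction n with
    | zero => simp
    | succ n ih =>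
      have h5 : (q ^ n) % 2 = 1 := Nat.odd_iff.1 ((Nat.odd_iff.2 hoddq).pow)
      rw [Finset.sum_range_succ]
      omega
  rcases hk with h | h
  · rw [h]; simp
  · rw [h]
    push_cast
    rw [neg_one_pow_eq_pow_mod_two (n := ∑ i ∈ Finset.range d, q ^ i), hpar d,
      ← neg_one_pow_eq_pow_mod_two]

theorem qc_ext {F' : Type} [Field F'] [Finite F] [Finite F'] [Algebra F F'] (h2 : (2 : F) ≠ 0)
    (c : F) (hn : Module.finrank F F' ≠ 0) :
    qc (algebraMap F F' c) = qc c ^ Module.finrank F F' := by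
  classical
  have := Fintype.ofFinite F
  have := Fintype.ofFinite F'
  by_cases hc : c = 0
  · rw [hc, map_zero, qc_zero, qc_zero, zero_pow hn]
  · rw [qc_eq, qc_eq, quad_ext h2 hc]

/-- odd extensions preserve the quadratic character -/
theorem qc_odd {F' : Type} [Field F'] [Finite F] [Finite F'] [Algebra F F'] (h2 : (2 : F) ≠ 0)
    (c : F) (hn : Odd (Module.finrank F F')) : qc (algebraMap F F' c) = qc c := by
  have h0 : Module.finrank F F' ≠ 0 := by
    rintro h
    rw [h] at hn
    exact absurd hn (by decide)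
  rw [qc_ext h2 c h0]
  by_cases hc : c = 0
  · rw [hc, qc_zero, zero_pow h0]
  · rcases qc_cases hc with h | h
    · rw [h, one_pow]
    · rw [h, hn.neg_one_pow]

theorem chi_C_mul [Finite F] (h2 : (2 : F) ≠ 0) (c : F) (h : Polynomial F) (Q : MI F) :
    chi (Polynomial.C c * h) Q.1 = qc c ^ Q.1.natDegree * chi h Q.1 := by
  have := finRF Q
  rw [chi_eq, chi_eq, map_mul, qc_mul, AdjoinRoot.mk_C]
  have h1 := qc_ext (F := F) (F' := RF Q) h2 c (by rw [finrank_RF]; exact (MI.deg_pos Q).ne')
  rw [finrank_RF] at h1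
  rw [← h1]
  rfl

end qc

section loc

variable {F : Type} [Field F]

open Classical in
/-- The quadratic character at infinity. -/
noncomputable def cinf (h : Polynomial F) : ℤ := if Even h.natDegree then qc h.leadingCoeff else 0

theorem cinf_even {h : Polynomial F} (hh : Even h.natDegree) : cinf h = qc h.leadingCoeff := if_pos hh

theorem cinf_odd {h : Polynomial F} (hh : ¬ Even h.natDegree) : cinf h = 0 := if_neg hh

theorem cinf_C_mul [Finite F] (c : F) (h : Polynomial F) :
    cinf (Polynomial.C c * h) = qc c * cinf h := by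
  by_cases hc : c = 0
  · rw [hc, map_zero, zero_mul, qc_zero, zero_mul, cinf_even (by simp), Polynomial.leadingCoeff_zero,
      qc_zero]
  · have h1 : (Polynomial.C c * h).natDegree = h.natDegree := Polynomial.natDegree_C_mul hc
    by_cases hh : Even h.natDegree
    · rw [cinf_even hh, cinf_even (by rw [h1]; exact hh), Polynomial.leadingCoeff_mul,
        Polynomial.leadingCoeff_C, qc_mul]
    · rw [cinf_odd hh, cinf_odd (by rw [h1]; exact hh), mul_zero]

/-- The Euler product of `1 - chi_h(Q) X ^ (d deg Q)` over the closed points `Q` of the projective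
line over `F`. -/
noncomputable def locS (d : ℕ) (h : Polynomial F) : PowerSeries ℤ :=
  eulerProd (fun Q : MI F => d * Q.1.natDegree)
    (fun Q => 1 - C (chi h Q.1) * X ^ (d * Q.1.natDegree)) *
  (1 - C (cinf h) * X ^ d)

theorem fin_mul [Finite F] {d : ℕ} (hd : d ≠ 0) (n : ℕ) :
    {Q : MI F | d * Q.1.natDegree ≤ n}.Finite := by
  refine (finite_deg_le n).subset fun Q hQ => ?_
  have h1 : d * Q.1.natDegree ≤ n := hQ
  exact (Nat.le_mul_of_pos_left _ (Nat.pos_of_ne_zero hd)).trans h1

/-- The endomorphism `X ↦ ε X ^ d` -/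
noncomputable def sb (ε : ℤ) (d : ℕ) (hd : d ≠ 0) (f : PowerSeries ℤ) : PowerSeries ℤ :=
  expand d hd (rescale ε f)

theorem sb_mul (ε : ℤ) (d : ℕ) (hd : d ≠ 0) (f g : PowerSeries ℤ) :
    sb ε d hd (f * g) = sb ε d hd f * sb ε d hd g := by
  unfold sb
  rw [map_mul, map_mul]

theorem rescale_C (ε c : ℤ) : rescale ε (C c) = C c := by
  ext m
  rw [coeff_rescale, coeff_C]
  split_ifs with h
  · rw [h, pow_zero, one_mul]
  · rw [mul_zero]

theorem sb_factor (ε c : ℤ) (n d : ℕ) (hd : d ≠ 0) :
    sb ε d hd (1 - C c * X ^ n) = 1 - C (ε ^ n * c) * X ^ (d * n) := by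
  unfold sb
  rw [map_sub, map_one, map_mul, map_pow, rescale_X, rescale_C, map_sub, map_one, map_mul, map_pow,
    map_mul, expand_X, expand_C, expand_C, mul_pow, ← map_pow, map_mul, ← pow_mul]
  ring

theorem sb_euler [Finite F] (ε : ℤ) (d : ℕ) (hd : d ≠ 0) (a : MI F → ℤ) :
    sb ε d hd (eulerProd (fun Q : MI F => Q.1.natDegree)
      (fun Q => 1 - C (a Q) * X ^ Q.1.natDegree)) =
    eulerProd (fun Q : MI F => d * Q.1.natDegree)
      (fun Q => 1 - C (ε ^ Q.1.natDegree * a Q) * X ^ (d * Q.1.natDegree)) := by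
  have hf : ∀ Q : MI F, (X : PowerSeries ℤ) ^ Q.1.natDegree ∣
      (1 - C (a Q) * X ^ Q.1.natDegree) - 1 := by
    intro Q
    rw [sub_right_comm, sub_self, zero_sub]
    exact (dvd_neg).2 (dvd_mul_left _ _)
  have hf' : ∀ Q : MI F, (X : PowerSeries ℤ) ^ (d * Q.1.natDegree) ∣
      (1 - C (ε ^ Q.1.natDegree * a Q) * X ^ (d * Q.1.natDegree)) - 1 := by
    intro Q
    rw [sub_right_comm, sub_self, zero_sub]
    exact (dvd_neg).2 (dvd_mul_left _ _)
  have hmap : ∀ (k : ℕ) (g : PowerSeries ℤ), (X : PowerSeries ℤ) ^ k ∣ g →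
      (X : PowerSeries ℤ) ^ (d * k) ∣ sb ε d hd g := by
    rintro k g ⟨q, rfl⟩
    rw [sb_mul]
    refine Dvd.dvd.mul_right ?_ _
    unfold sb
    rw [map_pow, rescale_X, map_pow, map_mul, expand_X, mul_pow, ← pow_mul]
    exact dvd_mul_left _ _
  have hsub : ∀ f g : PowerSeries ℤ, sb ε d hd (f - g) = sb ε d hd f - sb ε d hd g := by
    intro f g
    unfold sb
    rw [map_sub, map_sub]
  have hprod : ∀ (s : Finset (MI F)) (f : MI F → PowerSeries ℤ),
      sb ε d hd (∏ Q ∈ s, f Q) = ∏ Q ∈ s, sb ε d hd (f Q) := by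
    intro s f
    unfold sb
    rw [map_prod, map_prod]
  apply eq_of_mod
  intro n
  have h1 := hmap _ _ (eulerProd_mod (fun n => finite_deg_le n) hf n (finite_deg_le n).toFinset
    (fun i hi => by rw [Set.Finite.mem_toFinset]; exact hi))
  rw [hsub, hprod] at h1
  have h2 := eulerProd_mod (fun n => fin_mul hd n) hf' n (finite_deg_le n).toFinset
    (fun i hi => by
      rw [Set.Finite.mem_toFinset]
      exact (Nat.le_mul_of_pos_left _ (Nat.pos_of_ne_zero hd)).trans hi)
  have h3 : (X : PowerSeries ℤ) ^ (n + 1) ∣ X ^ (d * (n + 1)) :=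
    pow_dvd_pow _ (Nat.le_mul_of_pos_left _ (Nat.pos_of_ne_zero hd))
  have h4 : ∀ Q : MI F, sb ε d hd (1 - C (a Q) * X ^ Q.1.natDegree) =
      1 - C (ε ^ Q.1.natDegree * a Q) * X ^ (d * Q.1.natDegree) := fun Q => sb_factor _ _ _ _ _
  simp only [h4] at h1
  exact mod_trans (h3.trans h1) (mod_symm h2)

/-- **Twisting by a constant.** -/
theorem locS_twist [Finite F] (h2 : (2 : F) ≠ 0) (c : F) (h : Polynomial F) (d : ℕ)
    (hd : d ≠ 0) : locS d (Polynomial.C c * h) = sb (qc c) d hd (locS 1 h) := by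
  unfold locS
  rw [sb_mul]
  simp only [one_mul]
  rw [sb_euler, sb_factor, pow_one, mul_one, cinf_C_mul]
  simp only [chi_C_mul h2 c]

/-- The twist of a relation modulo three. -/
theorem locS_rel [Finite F] (h2 : (2 : F) ≠ 0) (c : F) (h : Polynomial F) (d : ℕ)
    (hd : d ≠ 0) (r : ℕ) {A : Type} [CommRing A] (φ : ℤ →+* A) (b : A)
    (hr : PowerSeries.map φ (locS 1 h) * ((1 - X) * (1 - C b * X)) ^ r = 1) :
    PowerSeries.map φ (locS d (Polynomial.C c * h)) *
      ((1 - C (φ (qc c)) * X ^ d) * (1 - C (b * φ (qc c)) * X ^ d)) ^ r = 1 := by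
  have hcomm : ∀ f : PowerSeries ℤ, PowerSeries.map φ (sb (qc c) d hd f) =
      expand d hd (rescale (φ (qc c)) (PowerSeries.map φ f)) := by
    intro f
    unfold sb
    rw [map_expand]
    congr 1
    ext n
    rw [coeff_map, coeff_rescale, coeff_rescale, coeff_map, map_mul, map_pow]
  have hrC : ∀ x y : A, rescale x (C y : PowerSeries A) = C y := by
    intro x y
    ext m
    rw [coeff_rescale, coeff_C]
    split_ifs with h
    · rw [h, pow_zero, one_mul]
    · rw [mul_zero]
  have h1 := congrArg (fun f => expand d hd (rescale (φ (qc c)) f)) hr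
  simp only [map_mul, map_one, map_pow, map_sub, rescale_X, expand_X, expand_C, hrC] at h1
  rw [locS_twist h2 c h d hd, hcomm]
  refine Eq.trans ?_ h1
  rw [map_mul, mul_assoc (C b)]

end loc

end Pool.Agent.Y711
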