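import Pool.Agent.Y711.Scl
import Pool.Agent.Y711.Pull
import Pool.Agent.Y711.Gen
import Pool.Agent.Y711.DefT

/-!
The curves `y ^ 2 = c x ^ (3 n) + (α x ^ n + β) ^ 2`, where `n` is a power of three.
-/

set_option autoImplicit false
set_option maxHeartbeats 1000000

open Polynomial

namespace Pool.Agent.Y711

open Pool.Agent.W313.Hyp Pool.Agent.W343.BSD Pool.Agent.Y784.FC

section

variable {F : Type} [Field F]

theorem tor_zero (c α β : F) : torsionCurve c α β 0 = C c * X ^ 3 + (C α * X + C β) ^ 2 := by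
  unfold torsionCurve
  rw [pow_zero, mul_one, pow_one]

theorem tor_comp (c α β : F) (e : ℕ) :
    torsionCurve c α β e = (torsionCurve c α β 0).comp (X ^ 3 ^ e) := by
  rw [tor_zero]
  unfold torsionCurve
  simp only [add_comp, mul_comp, pow_comp, C_comp, X_comp]
  rw [← pow_mul, mul_comm 3 (3 ^ e)]

theorem tor_succ (c α β : F) (e : ℕ) :
    torsionCurve c α β (e + 1) = (torsionCurve c α β e).comp (C 1 * X ^ 3) := by
  rw [tor_comp c α β (e + 1), tor_comp c α β e, comp_assoc, pow_comp, X_comp, C_1, one_mul,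
    ← pow_mul, ← pow_succ']

theorem tor_eval (c α β : F) (e : ℕ) : (torsionCurve c α β e).eval 0 = β ^ 2 := by
  have h1 : (3 : ℕ) ^ e ≠ 0 := pow_ne_zero _ (by norm_num)
  unfold torsionCurve
  simp [h1]

theorem tor_scl {c : F} (hc : c ≠ 0) (α β : F) :
    torsionCurve c α β 0 = C ((c⁻¹) ^ 2) * scl c hc (gE α (c * β)) := by
  rw [tor_zero, scl_apply]
  unfold gE
  simp only [add_comp, mul_comp, pow_comp, C_comp, X_comp, C_mul, C_pow]
  have h1 : (C c⁻¹ : F[X]) * C c = 1 := by rw [← C_mul, inv_mul_cancel₀ hc, C_1]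
  linear_combination (-(C c * X ^ 3) - (C α * X + C β) ^ 2) * (C c⁻¹ * C c + 1) * h1

theorem tor_natDegree {c : F} (hc : c ≠ 0) (α β : F) (e : ℕ) :
    (torsionCurve c α β e).natDegree = 3 * 3 ^ e := by
  have h0 : (torsionCurve c α β 0).natDegree = 3 := by
    have h1 : torsionCurve c α β 0 = C c * X ^ 3 + C (α ^ 2) * X ^ 2 + C (2 * α * β) * X +
        C (β ^ 2) := by
      rw [tor_zero]
      simp only [map_mul, map_pow, map_ofNat]
      ring
    rw [h1]
    exact natDegree_cubic hc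
  rw [tor_comp, natDegree_comp, h0, natDegree_X_pow]

theorem tor_ne {c α β : F} (h3 : (3 : F) ≠ 0) {e : ℕ} {γ : ℕ} (hγ : 2 * γ + 1 = 3 * 3 ^ e)
    (hd : (torsionCurve c α β e).natDegree = 2 * γ + 1 ∨
      (torsionCurve c α β e).natDegree = 2 * γ + 2)
    (hs : Squarefree (torsionCurve c α β e)) :
    c ≠ 0 ∧ c * β * (4 * α ^ 3 - 27 * (c * β)) ≠ 0 := by
  have hn : 1 ≤ 3 ^ e := Nat.one_le_pow _ _ (by norm_num)
  have hc : c ≠ 0 := by
    rintro rfl
    have h1 : (torsionCurve 0 α β e).natDegree ≤ 2 * 3 ^ e := by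
      unfold torsionCurve
      rw [C_0, zero_mul, zero_add]
      refine natDegree_pow_le.trans ?_
      apply Nat.mul_le_mul_left
      refine (natDegree_add_le _ _).trans ?_
      rw [natDegree_C]
      refine max_le ((natDegree_C_mul_le _ _).trans ?_) (Nat.zero_le _)
      rw [natDegree_X_pow]
    rcases hd with h | h
    · omega
    · omega
  have hβ : β ≠ 0 := by
    rintro rfl
    have h1 : IsUnit (X : F[X]) := by
      apply hs
      obtain ⟨i, hi⟩ : ∃ i, 3 ^ e = i + 1 := ⟨3 ^ e - 1, by omega⟩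
      unfold torsionCurve
      rw [hi]
      exact ⟨C c * X ^ (3 * i + 1) + C α ^ 2 * X ^ (2 * i), by rw [C_0]; ring⟩
    exact not_isUnit_X h1
  refine ⟨hc, mul_ne_zero (mul_ne_zero hc hβ) ?_⟩
  intro h0
  obtain ⟨γ', rfl⟩ : ∃ γ' : F, α = 3 * γ' := ⟨α / 3, by field_simp⟩
  have h27 : (27 : F) ≠ 0 := by
    have : (27 : F) = 3 ^ 3 := by norm_num
    rw [this]
    exact pow_ne_zero _ h3
  have hβ' : c * β = 4 * γ' ^ 3 := by
    apply mul_left_cancel₀ h27
    linear_combination -h0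
  have hC : (C c : F[X]) * C β = 4 * C γ' ^ 3 := by
    rw [← C_mul, hβ']
    simp only [map_mul, map_pow, map_ofNat]
  -- `c² h = (c x + 4 γ²)² (c x + γ²)` composed with `x ^ n`
  have h1 : IsUnit (C c * X ^ 3 ^ e + C (4 * γ' ^ 2) : F[X]) := by
    apply hs
    refine ⟨C ((c⁻¹) ^ 2) * (C c * X ^ 3 ^ e + C (γ' ^ 2)), ?_⟩
    have h2 : (C c⁻¹ : F[X]) * C c = 1 := by rw [← C_mul, inv_mul_cancel₀ hc, C_1]
    have h4 : (C c ^ 2 : F[X]) * torsionCurve c (3 * γ') β e =
        (C c * X ^ 3 ^ e + C (4 * γ' ^ 2)) * (C c * X ^ 3 ^ e + C (4 * γ' ^ 2)) *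
          (C c * X ^ 3 ^ e + C (γ' ^ 2)) := by
      unfold torsionCurve
      simp only [map_mul, map_pow, map_ofNat]
      have h5 : (X : F[X]) ^ (3 * 3 ^ e) = (X ^ 3 ^ e) ^ 3 := by rw [← pow_mul, mul_comm]
      rw [h5]
      linear_combination (6 * C γ' * C c * X ^ 3 ^ e + C c * C β + 4 * C γ' ^ 3) * hC
    have h6 : torsionCurve c (3 * γ') β e = C ((c⁻¹) ^ 2) * (C c ^ 2 *
        torsionCurve c (3 * γ') β e) := by
      rw [C_pow, ← mul_assoc, ← mul_pow, h2, one_pow, one_mul]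
    rw [h6, h4]
    ring
  have h2 := natDegree_eq_zero_of_isUnit h1
  rw [natDegree_add_C, natDegree_C_mul_X_pow _ _ hc] at h2
  omega

end

section

variable {F : Type} [Field F] [Finite F]

theorem E3_C_mul (h2 : (2 : F) ≠ 0) {c : F} (hc : qc c = 1) (h : F[X]) : E3 (C c * h) = E3 h := by
  unfold E3
  congr 1
  funext P
  rw [chi_C_mul h2, hc, one_pow, one_mul]

theorem w1_mi (h2 : (2 : F) ≠ 0) {h : F[X]} (hh : qc (h.eval 0) = 1) :
    w1 h (mi 0) = 1 - PowerSeries.X := by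
  unfold w1
  rw [chi_mi h2, hh, mi_deg, pow_one, Int.cast_one, map_one, one_mul]

theorem rescale_U (h3 : (3 : F) ≠ 0) : PowerSeries.rescale (qm F) ((1 - PowerSeries.X) * zf F) =
    (1 - PowerSeries.X) * zf F := by
  rw [map_mul, rescale_zf h3, map_sub, map_one, PowerSeries.rescale_X]
  unfold zf
  ring

theorem E3_tor (h2 : (2 : F) ≠ 0) (h3 : (3 : F) ≠ 0) {c α β : F}
    (hh : c ≠ 0 ∧ c * β * (4 * α ^ 3 - 27 * (c * β)) ≠ 0) (e : ℕ) :
    E3 (torsionCurve c α β e) * ((1 - PowerSeries.X) * zf F) ^ ((3 * 3 ^ e - 1) / 2) = 1 := by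
  have hβ : β ≠ 0 := by
    rintro rfl
    apply hh.2
    ring
  induction e with
  | zero =>
    rw [tor_scl hh.1, E3_C_mul h2 (qc_sq (inv_ne_zero hh.1)), E3_scl]
    have := E3_gE h2 h3 (α := α) (β := c * β) hh.2
    simpa using this
  | succ e ih =>
    set U : PowerSeries (ZMod 3) := (1 - PowerSeries.X) * zf F with hU
    have h5 := cubic_pull h2 h3 (one_ne_zero (α := F)) (torsionCurve c α β e)
    rw [← tor_succ, w1_mi h2 (by rw [tor_eval]; exact qc_sq hβ)] at h5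
    have h6 : (1 - PowerSeries.X : PowerSeries (ZMod 3)) *
        PowerSeries.rescale (qm F) (1 - PowerSeries.X) = U := by
      rw [hU, map_sub, map_one, PowerSeries.rescale_X]
      rfl
    rw [h6] at h5
    have h7 := congrArg (PowerSeries.rescale (qm F)) ih
    rw [map_mul, map_pow, hU, rescale_U h3, map_one, ← hU] at h7
    obtain ⟨n, hn⟩ : ∃ n, 3 * 3 ^ e = 2 * n + 1 := by
      have h8 : Odd (3 * 3 ^ e) := Odd.mul (by decide) (Odd.pow (by decide))
      exact h8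
    have h9 : (3 * 3 ^ e - 1) / 2 = n := by omega
    have h10 : (3 * 3 ^ (e + 1) - 1) / 2 = 3 * n + 1 := by
      rw [pow_succ]
      omega
    rw [h9] at ih h7
    rw [h10]
    calc E3 (torsionCurve c α β (e + 1)) * U ^ (3 * n + 1) =
        (E3 (torsionCurve c α β (e + 1)) * U) * U ^ n * U ^ n * U ^ n := by ring
      _ = (E3 (torsionCurve c α β e) * U ^ n) * (E3 (torsionCurve c α β e) * U ^ n) *
          (PowerSeries.rescale (qm F) (E3 (torsionCurve c α β e)) * U ^ n) := by rw [h5]; ring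
      _ = 1 := by rw [ih, h7]; ring

/-- **The curves `y ^ 2 = c x ^ (3 n) + (α x ^ n + β) ^ 2`.** -/
theorem locS_tor (h2 : (2 : F) ≠ 0) (h3 : (3 : F) ≠ 0) {c α β : F}
    (hh : c ≠ 0 ∧ c * β * (4 * α ^ 3 - 27 * (c * β)) ≠ 0) (e : ℕ) :
    red3 (locS 1 (torsionCurve c α β e)) * ((1 - PowerSeries.X) * zf F) ^ ((3 * 3 ^ e - 1) / 2) =
      1 := by
  have hodd : Odd (3 * 3 ^ e) := Odd.mul (by decide) (Odd.pow (by decide))
  have hinf : cinf (torsionCurve c α β e) = 0 := cinf_odd (by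
    rw [tor_natDegree hh.1]
    exact Nat.not_even_iff_odd.2 hodd)
  rw [locS_E3, hinf, Int.cast_zero, map_zero, zero_mul, sub_zero, mul_one]
  exact E3_tor h2 h3 hh e

end

section

variable {k : Type} [Field k]

theorem tor_map {R S : Type} [CommRing R] [CommRing S] (φ : R →+* S) (c α β : R) (e : ℕ) :
    (torsionCurve c α β e).map φ = torsionCurve (φ c) (φ α) (φ β) e := by
  unfold torsionCurve
  simp only [Polynomial.map_mul, Polynomial.map_add, Polynomial.map_pow, map_C, map_X]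

/-- **The curves are unipotent.** -/
theorem tor_uni (h2 : (2 : k) ≠ 0) (h3 : (3 : k) ≠ 0) {c α β m : k[X]} {e : ℕ}
    (h : HasGoodReduction ((3 * 3 ^ e - 1) / 2) (torsionCurve c α β e) m) :
    IsUnipotent ((3 * 3 ^ e - 1) / 2) (torsionCurve c α β e) m := by
  refine ⟨h, ?_⟩
  intro F _ _ φ hφ
  obtain ⟨h4, h5⟩ := h F φ hφ
  rw [tor_map] at h4 h5 ⊢
  have h2' : (2 : F) ≠ 0 := by
    have h1 : (2 : F) = (φ.comp C) 2 := by rw [map_ofNat]
    rw [h1]
    exact (_root_.map_ne_zero _).2 h2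
  have h3' : (3 : F) ≠ 0 := by
    have h1 : (3 : F) = (φ.comp C) 3 := by rw [map_ofNat]
    rw [h1]
    exact (_root_.map_ne_zero _).2 h3
  have hodd : Odd (3 * 3 ^ e) := Odd.mul (by decide) (Odd.pow (by decide))
  obtain ⟨n, hn⟩ := hodd
  have h9 : (3 * 3 ^ e - 1) / 2 = n := by omega
  rw [h9] at h4 ⊢
  rw [localSeries_eq]
  have := locS_tor h2' h3' (tor_ne h3' hn.symm h4 h5) e
  rw [h9] at this
  exact this

end

end Pool.Agent.Y711
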