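import Pool.Agent.Y709.ClPt
import Pool.Agent.Y711.Cg
import Pool.Agent.Y711.Tow
import Pool.Agent.Y711.WG

/-!
Sums of quadratic characters over the points of the line over an extension, and the logarithmic
derivative of the corresponding Euler product.
-/

set_option autoImplicit false
set_option maxHeartbeats 1000000

open Polynomial

namespace Pool.Agent.Y711

open Pool.Agent.W313.Hyp Pool.Agent.W343.BSD Pool.Agent.Y784.FC Module

section

variable {F : Type} [Field F] [Finite F]

/-- The sum of the quadratic symbols of `h` over the points of the affine line over the extension of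
degree `e`, arranged according to closed points. -/
noncomputable def Sg (h : F[X]) (e : ℕ) : ℤ :=
  ∑ Q ∈ (finite_deg_le (F := F) e).toFinset,
    if e ≠ 0 ∧ Q.1.natDegree ∣ e then (Q.1.natDegree : ℤ) * chi h Q.1 ^ (e / Q.1.natDegree) else 0

theorem isGh_EZ (h : F[X]) : IsGh (fun e => -Sg h e) (EZ h) := by
  have h1 := isGh_euler (R := ℤ) (d := fun Q : MI F => Q.1.natDegree) (fun n => finite_deg_le n)
    (F := fun Q => 1 - PowerSeries.C (chi h Q.1) * PowerSeries.X ^ Q.1.natDegree)
    (s := fun Q e => if e ≠ 0 ∧ Q.1.natDegree ∣ e then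
      -((Q.1.natDegree : ℤ) * chi h Q.1 ^ (e / Q.1.natDegree)) else 0)
    (fun Q => isGh_factor _ (MI.deg_pos Q).ne') (fun Q => chi_dvd h Q) (by
      intro Q e he
      rw [if_neg]
      rintro ⟨h1, h2⟩
      exact absurd (Nat.le_of_dvd (Nat.pos_of_ne_zero h1) h2) (not_le.2 he))
  have h2 : (fun e => -Sg h e) = fun e => ∑ Q ∈ (finite_deg_le (F := F) e).toFinset,
      if e ≠ 0 ∧ Q.1.natDegree ∣ e then
        -((Q.1.natDegree : ℤ) * chi h Q.1 ^ (e / Q.1.natDegree)) else 0 := by
    funext e
    unfold Sg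
    rw [← Finset.sum_neg_distrib]
    refine Finset.sum_congr rfl fun Q _ => ?_
    split_ifs <;> simp
  rw [h2]
  exact h1

theorem qc_root (h2 : (2 : F) ≠ 0) {E : Type} [Field E] [Algebra F E] [Finite E] {e : ℕ}
    (he : finrank F E = e) (h : F[X]) {Q : MI F} {x : E} (hx : aeval x Q.1 = 0) :
    qc (aeval x h) = chi h Q.1 ^ (e / Q.1.natDegree) := by
  let _ : Algebra (RF Q) E := (sg hx).toAlgebra
  have h3 : finrank (RF Q) E = e / Q.1.natDegree := finrank_over he hx
  have h4 := qc_ext (F := RF Q) (F' := E) (two_RF h2 Q) (AdjoinRoot.mk Q.1 h) (by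
    have : Module.Finite (RF Q) E := Module.Finite.of_finite
    exact (finrank_pos).ne')
  have h5 : algebraMap (RF Q) E (AdjoinRoot.mk Q.1 h) = aeval x h := by
    exact AdjoinRoot.lift_mk (i := algebraMap F E) (h := hx) h
  rw [h5, h3] at h4
  rw [h4, chi_eq]

theorem sum_qc (h2 : (2 : F) ≠ 0) {E : Type} [Field E] [Algebra F E] [Fintype E] {e : ℕ}
    (he : finrank F E = e) (h : F[X]) : ∑ x : E, qc (aeval x h) = Sg h e := by
  have : Module.Finite F E := Module.Finite.of_finite
  have he0 : e ≠ 0 := by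
    rw [← he]
    exact finrank_pos.ne'
  rw [Pool.Agent.Y709.sum_closed he (g := fun x => qc (aeval x h))
    (G := fun Q => chi h Q.1 ^ (e / Q.1.natDegree)) (fun Q x hx => qc_root h2 he h hx)]
  unfold Sg
  refine Finset.sum_congr rfl fun Q _ => ?_
  by_cases hd : Q.1.natDegree ∣ e
  · rw [if_pos hd, if_pos ⟨he0, hd⟩, nsmul_eq_mul]
  · rw [if_neg hd, if_neg (fun h => hd h.2)]

end

end Pool.Agent.Y711
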