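import Pool.Agent.Y711.DefM
import Pool.Agent.Y711.CS3
import Pool.Agent.Y711.BB4

/-!
The L-functions of the tensor products, twisted by a quadratic character.
-/

set_option autoImplicit false
set_option maxHeartbeats 1000000
set_option synthInstance.maxHeartbeats 400000

open Polynomial

namespace Pool.Agent.Y711

open Pool.Agent.TH943.HJ Pool.Agent.W313.Hyp Pool.Agent.W343.BSD Pool.Agent.Y784.FC

/-- The product of elements congruent to multiples of `1 + u`, `u ^ 2 = 1`. -/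
theorem prod_one_add {R : Type} [CommRing R] {ι : Type} (u : R) (hu : u * u = 1) (c : ι → ℕ)
    (s : Finset ι) :
    (∏ i ∈ s, ((c i : R) * (1 + u))) * (1 + u) = ((2 ^ s.card * ∏ i ∈ s, c i : ℕ) : R) * (1 + u) := by
  classical
  induction s using Finset.induction_on with
  | empty => simp
  | insert i s hi ih =>
    rw [Finset.prod_insert hi, Finset.prod_insert hi, Finset.card_insert_of_notMem hi, mul_assoc, ih]
    have h1 : (1 + u) * (1 + u) = 2 * (1 + u) := by linear_combination hu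
    push_cast
    linear_combination ((c i : R) * ((2 : R) ^ s.card * ∏ i ∈ s, (c i : R))) * h1

section

variable {F : Type} [Field F] [Finite F]

/-- the combination of the congruences of all factors -/
theorem tensor_cong (h3 : (3 : F) ≠ 0) {u v : ℕ} (huv : u + v ≠ 0) {p : Fin u → F[X]}
    {N : Fin v → ℕ} {f : Fin v → F[X]} (a : Fin u → ℕ) (b : Fin v → ℕ) {r : ℕ}
    (hp : ∀ i, (3 * r : ℤ_[3]) ∣ ((frobTrace (p i) r : ℤ) : ℤ_[3]) -
      (a i : ℤ_[3]) * (1 + ((Nat.card F : ℕ) : ℤ_[3]) ^ r))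
    (hf : ∀ i, (3 * r : ℤ_[3]) ∣ ((coverTrace (N i) (f i) r : ℤ) : ℤ_[3]) -
      (b i : ℤ_[3]) * (1 + ((Nat.card F : ℕ) : ℤ_[3]) ^ r)) :
    (3 * r : ℤ_[3]) ∣ ((tensorTrace p N f r : ℤ) : ℤ_[3]) -
      ((2 ^ (u + v - 1) * ((∏ i, a i) * ∏ i, b i) : ℕ) : ℤ_[3]) *
        (1 + ((Nat.card F : ℕ) : ℤ_[3]) ^ r) := by
  set I : Ideal ℤ_[3] := Ideal.span {(3 * r : ℤ_[3])} with hI
  set π : ℤ_[3] →+* ℤ_[3] ⧸ I := Ideal.Quotient.mk I with hπ
  rw [← Ideal.mem_span_singleton, ← hI, ← Ideal.Quotient.eq, ← hπ]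
  set w : ℤ_[3] ⧸ I := π (((Nat.card F : ℕ) : ℤ_[3]) ^ r) with hw
  have hw2 : w * w = 1 := by
    rw [hw, ← map_mul, ← map_one π, hπ, Ideal.Quotient.eq, hI, Ideal.mem_span_singleton]
    have := q_sq h3 r
    rwa [pow_two] at this
  have hb : ∀ j, π ((frobTrace (p j) r : ℤ) : ℤ_[3]) = (a j : ℤ_[3] ⧸ I) * (1 + w) := by
    intro j
    have h4 := hp j
    rw [← Ideal.mem_span_singleton, ← hI, ← Ideal.Quotient.eq, ← hπ] at h4
    rw [h4, map_mul, map_add, map_one, ← hw, map_natCast]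
  have hc : ∀ j, π ((coverTrace (N j) (f j) r : ℤ) : ℤ_[3]) = (b j : ℤ_[3] ⧸ I) * (1 + w) := by
    intro j
    have h4 := hf j
    rw [← Ideal.mem_span_singleton, ← hI, ← Ideal.Quotient.eq, ← hπ] at h4
    rw [h4, map_mul, map_add, map_one, ← hw, map_natCast]
  have h5 : π ((tensorTrace p N f r : ℤ) : ℤ_[3]) =
      ∏ i : Fin u ⊕ Fin v, (((Sum.elim a b i : ℕ) : ℤ_[3] ⧸ I) * (1 + w)) := by
    rw [tensorTrace, Int.cast_mul, map_mul, Int.cast_prod, Int.cast_prod, map_prod, map_prod,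
      Fintype.prod_sum_type]
    simp only [hb, hc, Sum.elim_inl, Sum.elim_inr]
  rw [h5, map_mul, map_natCast, map_add, map_one, ← hw]
  have hne : Nonempty (Fin u ⊕ Fin v) := by
    by_contra h
    rw [not_nonempty_iff] at h
    have := Fintype.card_eq_zero (α := Fin u ⊕ Fin v)
    rw [Fintype.card_sum, Fintype.card_fin, Fintype.card_fin] at this
    exact huv this
  obtain ⟨i0⟩ := hne
  have h6 := prod_one_add w hw2 (Sum.elim a b) (Finset.univ.erase i0)
  rw [← Finset.mul_prod_erase Finset.univ _ (Finset.mem_univ i0)]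
  have hcard : (Finset.univ.erase i0).card = u + v - 1 := by
    rw [Finset.card_erase_of_mem (Finset.mem_univ i0), Finset.card_univ, Fintype.card_sum,
      Fintype.card_fin, Fintype.card_fin]
  have h7 : (∏ i, a i) * ∏ i, b i = Sum.elim a b i0 * ∏ i ∈ Finset.univ.erase i0, Sum.elim a b i := by
    rw [Finset.mul_prod_erase Finset.univ _ (Finset.mem_univ i0), Fintype.prod_sum_type]
    simp only [Sum.elim_inl, Sum.elim_inr]
  rw [h7, mul_right_comm, mul_assoc, h6, hcard]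
  push_cast
  ring

end

section

variable {k : Type} [Field k] [Finite k]

theorem tensor_ext (h2 : (2 : k) ≠ 0) (h3 : (3 : k) ≠ 0) {u v : ℕ} (huv : u + v ≠ 0)
    {γ : Fin u → ℕ} {p : Fin u → k[X][X]} (e : Fin v → ℕ) {n : Fin v → ℕ} {f : Fin v → k[X][X]}
    {m : k[X]} (hp : ∀ i, IsUnipotent (γ i) (p i) m) (hf : ∀ i, IsBranch (n i) (f i) m) {g : ℕ}
    {D : k[X]}
    (hD : IsD g m D) [IsDedekindDomain (CR D)] (hh : ¬ 3 ∣ Nat.card (ClassGroup (CR D)))
    {B : Type} [CommRing B] [IsDedekindDomain B] [Algebra k[X] B] [Module.Finite k[X] B]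
    [Module.Flat k[X] B] (G : Type) [Group G] [Finite G] [MulSemiringAction G B]
    [IsGaloisGroup G k[X] B] {j : ℕ} (hG : Nat.card G = 3 ^ j)
    (hram : ∀ 𝔓 : Ideal B, 𝔓.IsMaximal → 𝔓.ramificationIdx k[X] ≠ 1 →
      quadSym (algebraMap k[X] (B ⧸ 𝔓) D) ≠ 1) (i : ℕ) :
    ¬ ZeroAt k i (tensorL p (fun i => 3 ^ e i) f D B) := by
  classical
  set κ : ℕ := 2 ^ (u + v - 1) * ((∏ i, γ i) * ∏ i, ((3 ^ e i - 1) / 2 * (n i - 1))) with hκ
  have hloc : ∀ v : MxD D B, ∃ A : PowerSeries ℤ_[3],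
      PowerSeries.map (algebraMap ℤ_[3] ℚ_[3]) A =
        PowerSeries.map (algebraMap ℚ ℚ_[3]) (expSeries (residueDeg k v.1)
          fun r => quadSym (algebraMap k[X] (B ⧸ v.1) D) ^ r *
            tensorTrace (fun i => (p i).map (algebraMap k[X] (B ⧸ v.1))) (fun i => 3 ^ e i)
              (fun i => (f i).map (algebraMap k[X] (B ⧸ v.1))) r) ∧
      (PowerSeries.X : PowerSeries ℤ_[3]) ^ dgM k v.1 ∣ A - 1 ∧
      PowerSeries.map (PadicInt.toZMod (p := 3)) A *
        (wM D v.1 * PowerSeries.rescale ((Nat.card k : ℕ) : ZMod 3) (wM D v.1)) ^ κ = 1 := by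
    intro v
    have hmax := v.2.1
    let _ : Field (B ⧸ v.1) := Ideal.Quotient.field _
    have hfin := finite_quot k v.1
    have hdeg : residueDeg k v.1 ≠ 0 := (dg_pos (k := k) v.1).ne'
    have hDv : algebraMap k[X] (B ⧸ v.1) D ≠ 0 := by
      intro h0
      apply v.2.2
      rw [← Ideal.Quotient.eq_zero_iff_mem]
      exact h0
    have hmv : (algebraMap k[X] (B ⧸ v.1)) m ≠ 0 := by
      intro h0
      apply hDv
      obtain ⟨e, he⟩ := hD.dvd
      exact (congrArg (algebraMap k[X] (B ⧸ v.1)) he).trans (by rw [map_mul, h0, zero_mul])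
    have h3' : (3 : B ⧸ v.1) ≠ 0 := by
      let _ : Algebra k (B ⧸ v.1) := ((algebraMap k[X] (B ⧸ v.1)).comp C).toAlgebra
      intro h0
      apply h3
      have h4 : algebraMap k (B ⧸ v.1) 3 = 0 := by rw [map_ofNat, h0]
      exact (map_eq_zero (algebraMap k (B ⧸ v.1))).1 h4
    have h7 : ∀ i, red3 (locS 1 ((p i).map (algebraMap k[X] (B ⧸ v.1)))) *
        ((1 - PowerSeries.X) * (1 - PowerSeries.C (Nat.card (B ⧸ v.1) : ZMod 3) *
          PowerSeries.X)) ^ γ i = 1 := by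
      intro i
      rw [← localSeries_eq]
      exact (hp i).2 (B ⧸ v.1) (algebraMap k[X] (B ⧸ v.1)) hmv
    have h8 : ∀ i, ∀ r : ℕ, r ≠ 0 → (3 * r : ℤ_[3]) ∣
        ((coverTrace (3 ^ e i) ((f i).map (algebraMap k[X] (B ⧸ v.1))) r : ℤ) : ℤ_[3]) -
        (((3 ^ e i - 1) / 2 * (n i - 1) : ℕ) : ℤ_[3]) *
          (1 + ((Nat.card (B ⧸ v.1) : ℕ) : ℤ_[3]) ^ r) := by
      intro i r hr
      obtain ⟨hg0, hsum, hpow⟩ := (hf i).2 (B ⧸ v.1) (algebraMap k[X] (B ⧸ v.1)) hmv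
      rw [branch_eq hg0] at hsum
      exact cover_cong h3' (e i) hg0 (hf i).1 hsum (fun Q hQ => hpow Q.1 Q.2.1 Q.2.2 hQ) hr
    obtain ⟨A, hA1, hA2, hA3⟩ := local_factor (Q := Nat.card (B ⧸ v.1)) (κ := κ)
      (quadSym (algebraMap k[X] (B ⧸ v.1) D))
      (s := fun r => tensorTrace (fun i => (p i).map (algebraMap k[X] (B ⧸ v.1)))
        (fun i => 3 ^ e i) (fun i => (f i).map (algebraMap k[X] (B ⧸ v.1))) r) hdeg
      (fun r hr => tensor_cong h3' huv γ (fun i => (3 ^ e i - 1) / 2 * (n i - 1))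
        (fun i => trace_cong (h7 i) hr) (fun i => h8 i r hr))
    refine ⟨A, hA1, hA2, ?_⟩
    have hcard : (Nat.card (B ⧸ v.1) : ZMod 3) = ((Nat.card k : ℕ) : ZMod 3) ^ dgM k v.1 := by
      obtain ⟨P, hP⟩ := exists_below (k := k) v.1
      have e1 := card_over (k := k) v.1 P
      rw [← dg_over (k := k) v.1 P] at e1
      rw [e1]
      push_cast
      rfl
    have hwM : wM D v.1 = 1 - PowerSeries.C ((quadSym (algebraMap k[X] (B ⧸ v.1) D) : ℤ) : ZMod 3) *
        PowerSeries.X ^ residueDeg k v.1 := by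
      rw [quadSym_eq]
      rfl
    have hC : PowerSeries.rescale ((Nat.card k : ℕ) : ZMod 3)
        (PowerSeries.C ((quadSym (algebraMap k[X] (B ⧸ v.1) D) : ℤ) : ZMod 3)) =
        PowerSeries.C ((quadSym (algebraMap k[X] (B ⧸ v.1) D) : ℤ) : ZMod 3) := by
      ext n
      rw [PowerSeries.coeff_rescale, PowerSeries.coeff_C]
      split_ifs with h
      · rw [h, pow_zero, one_mul]
      · rw [mul_zero]
    have h9 : PowerSeries.rescale ((Nat.card k : ℕ) : ZMod 3) (wM D v.1) =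
        1 - PowerSeries.C ((Nat.card (B ⧸ v.1) : ZMod 3) *
          ((quadSym (algebraMap k[X] (B ⧸ v.1) D) : ℤ) : ZMod 3)) *
            PowerSeries.X ^ residueDeg k v.1 := by
      rw [hwM, map_sub, map_one, map_mul, map_pow, PowerSeries.rescale_X, hC, hcard, mul_pow,
        ← map_pow, map_mul]
      have e3 : dgM k v.1 = residueDeg k v.1 := rfl
      rw [e3]
      ring
    rw [h9, hwM]
    exact hA3
  choose A hA1 hA2 hA3 using hloc
  refine no_zero_Z G h2 h3 hG hD hh ?_ κ _ A hA1 hA2 hA3 i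
  intro P hP
  obtain ⟨𝔓⟩ := (inferInstance : Nonempty ((sp P).primesOver B))
  obtain ⟨𝔓, h𝔓⟩ := 𝔓
  rw [primesOver_eq] at h𝔓
  obtain ⟨hmax, hov⟩ := h𝔓
  rw [Ideal.ramificationIdxIn_eq_ramificationIdx (sp P) 𝔓 G] at hP
  have h1 := hram 𝔓 hmax hP
  obtain ⟨i, hi⟩ := f_pow G (B := B) hG P
  rw [Ideal.inertiaDegIn_eq_inertiaDeg (sp P) 𝔓 G] at hi
  have hodd : Odd (𝔓.inertiaDeg k[X]) := by
    rw [hi]
    exact Odd.pow (by decide)
  have h4 := qs_over h2 𝔓 P hodd D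
  rw [← h4]
  rw [quadSym_eq] at h1
  exact h1

/-- nonvanishing over an admissible extension -/
theorem tensor_nonvanish (L : Type) [Field L] [Algebra k[X] L] [Algebra (RatFunc k) L]
    [IsScalarTower k[X] (RatFunc k) L] (h2 : (2 : k) ≠ 0) (h3 : (3 : k) ≠ 0) {u v : ℕ}
    (huv : u + v ≠ 0) {γ : Fin u → ℕ} {p : Fin u → k[X][X]} (e : Fin v → ℕ) {n : Fin v → ℕ}
    {f : Fin v → k[X][X]} {m : k[X]} (hp : ∀ i, IsUnipotent (γ i) (p i) m)
    (hf : ∀ i, IsBranch (n i) (f i) m) {g : ℕ} {D : k[X]} (hD : IsD g m D)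
    [IsDedekindDomain (CR D)] (hh : ¬ 3 ∣ Nat.card (ClassGroup (CR D)))
    (hL : IsThreeExtension D L) (i : ℕ) :
    ¬ ZeroAt k i (tensorL p (fun i => 3 ^ e i) f D (integralClosure k[X] L)) := by
  have hgal := hL.galois
  obtain ⟨j, hj⟩ := hL.degree
  have hfd : FiniteDimensional (RatFunc k) L := by
    apply FiniteDimensional.of_finrank_pos
    rw [hj]
    positivity
  have i1 := fin_ic (k := k) L
  have i2 := flat_ic (k := k) L
  have i3 := gal_ic (k := k) L
  have i4 : IsDedekindDomain (integralClosure k[X] L) :=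
    integralClosure.isDedekindDomain k[X] (RatFunc k) L
  refine tensor_ext h2 h3 huv e hp hf hD hh Gal(L/RatFunc k) (j := j) ?_ hL.ramified i
  rw [← hj]
  exact IsGalois.card_aut_eq_finrank _ _

/-- **Half of the twists in every class, for all tensor products.** -/
theorem tensor_half (h2 : (2 : k) ≠ 0) (h3 : (3 : k) ≠ 0)
    {m n a : k[X]} (hm : m.Monic) (hn : n.Monic) (hs : Squarefree (m * n)) (ha : IsCoprime n a)
    {δ : ℝ} (hδ : δ < 1 / 2) :
    ∃ N : ℕ, ∀ g ≥ N, δ * (twistClass g m n a).ncard ≤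
      {D : k[X] | D ∈ twistClass g m n a ∧
        ∀ (u v : ℕ) (γ : Fin u → ℕ) (p : Fin u → k[X][X]) (e b : Fin v → ℕ) (f : Fin v → k[X][X]),
        0 < u + v → (∀ i, IsUnipotent (γ i) (p i) m) → (∀ i, IsBranch (b i) (f i) m) →
        ∀ (L : Type) [Field L] [Algebra k[X] L] [Algebra (RatFunc k) L]
          [IsScalarTower k[X] (RatFunc k) L], IsThreeExtension D L →
            ∀ j : ℕ, ¬ ZeroAt k j
              (tensorL p (fun i => 3 ^ e i) f D (integralClosure k[X] L))}.ncard := by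
  refine class_half h2 hm hn hs ha (fun _ D =>
        ∀ (u v : ℕ) (γ : Fin u → ℕ) (p : Fin u → k[X][X]) (e b : Fin v → ℕ) (f : Fin v → k[X][X]),
        0 < u + v → (∀ i, IsUnipotent (γ i) (p i) m) → (∀ i, IsBranch (b i) (f i) m) →
        ∀ (L : Type) [Field L] [Algebra k[X] L] [Algebra (RatFunc k) L]
          [IsScalarTower k[X] (RatFunc k) L], IsThreeExtension D L →
            ∀ j : ℕ, ¬ ZeroAt k j
              (tensorL p (fun i => 3 ^ e i) f D (integralClosure k[X] L))) ?_ hδ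
  intro g D hD hB u v γ p e b f huv hp hf L _ _ _ _ hL j
  have hD' := IsD_iff.2 hD.1
  have hodd : Odd D.natDegree := by
    rw [hD'.deg]
    exact ⟨g, rfl⟩
  have hded : IsDedekindDomain (CR D) := dedekind h2 hodd hD'.sqf
  exact tensor_nonvanish L h2 h3 huv.ne' e hp hf hD' (fun h => hB ⟨hded, h⟩) hL j

end

end Pool.Agent.Y711
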