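import Pool.Agent.Y711.Sol

/-!
The number of the solutions with given `G`, `deg A`.
-/

set_option autoImplicit false
set_option maxHeartbeats 1000000

open Polynomial Classical

namespace Pool.Agent.Y711

section

variable {k : Type} [Field k] [Finite k]

/-- The solutions. -/
def SolSet (g : ℕ) (m : k[X]) : Set (k[X] × k[X] × k[X] × k[X]) :=
  {x | ∃ D, IsD g m D ∧ IsSol g D x.1 x.2.1 x.2.2.1 x.2.2.2}

omit [Finite k] in
theorem lt_of_natDegree {p : k[X]} {n : ℕ} (h : p.natDegree < n) : p.degree < n := by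
  by_cases hp : p = 0
  · rw [hp, degree_zero]
    exact WithBot.bot_lt_coe _
  · rw [degree_eq_natDegree hp]
    exact_mod_cast h

theorem SolSet_finite (g : ℕ) (m : k[X]) : (SolSet g m).Finite := by
  refine Set.Finite.subset (Finset.finite_toSet (LT k (3 * g + 4) ×ˢ LT k (3 * g + 4) ×ˢ
    LT k (3 * g + 4) ×ˢ LT k (3 * g + 4))) ?_
  rintro ⟨G, A, B, Q⟩ ⟨D, hD, h⟩
  dsimp only at h
  have hdeg := h.deg
  rw [Finset.mem_coe, Finset.mem_product, Finset.mem_product, Finset.mem_product, mem_LT, mem_LT,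
    mem_LT, mem_LT]
  dsimp only
  rcases Nat.even_or_odd (G.natDegree + A.natDegree) with he | ho
  · obtain ⟨_, h1, h3⟩ := h.even_deg hD he
    refine ⟨lt_of_natDegree (by omega), lt_of_natDegree (by omega), lt_of_natDegree (by omega),
      lt_of_natDegree (by omega)⟩
  · obtain ⟨_, h1, h3⟩ := h.odd_deg hD ho
    refine ⟨lt_of_natDegree (by omega), lt_of_natDegree (by omega), lt_of_natDegree (by omega),
      lt_of_natDegree (by omega)⟩

/-- The finite set of the solutions. -/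
noncomputable def SF (g : ℕ) (m : k[X]) : Finset (k[X] × k[X] × k[X] × k[X]) :=
  (SolSet_finite g m).toFinset

theorem mem_SF {g : ℕ} {m : k[X]} {x : k[X] × k[X] × k[X] × k[X]} :
    x ∈ SF g m ↔ ∃ D, IsD g m D ∧ IsSol g D x.1 x.2.1 x.2.2.1 x.2.2.2 := by
  unfold SF
  rw [Set.Finite.mem_toFinset]
  rfl

/-- A chosen `B`. -/
noncomputable def Bo (g : ℕ) (m G Q A : k[X]) : k[X] :=
  if h : ∃ B D, IsD g m D ∧ IsSol g D G A B Q then h.choose else 0

theorem fib_aux (h2 : (2 : k) ≠ 0) {g : ℕ} {m : k[X]} (G Q : k[X]) (a ρ : ℕ)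
    (hint : ∀ A B B' D D' : k[X], A.natDegree = a → IsD g m D → IsSol g D G A B Q → IsD g m D' →
      IsSol g D' G A B' Q → (B - B').degree < ρ)
    (hne : ((SF g m).filter fun x => x.1 = G ∧ x.2.2.2 = Q ∧ x.2.1.natDegree = a).Nonempty)
    (ha : (Q * mo m G * mgcd G m).natDegree ≤ a) (hρ : (Q ^ 2 * mo m G * mo m G).natDegree ≤ ρ) :
    ((SF g m).filter fun x => x.1 = G ∧ x.2.2.2 = Q ∧ x.2.1.natDegree = a).card ≤
      Nat.card k ^ (a - (Q * mo m G * mgcd G m).natDegree) *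
        (Nat.card k ^ (ρ - (Q ^ 2 * mo m G * mo m G).natDegree) *
          (phi (Q * mo m G) * phi (mgcd G m) * phi (mo m G))) := by
  obtain ⟨x0, hx0⟩ := hne
  rw [Finset.mem_filter, mem_SF] at hx0
  obtain ⟨⟨D0, hD0, hs0⟩, hG0, hQ0, hA0⟩ := hx0
  rw [hG0, hQ0] at hs0
  obtain ⟨D₁, _, _, _, f1, f2, _, _, _⟩ := hs0.facts hD0
  have hm : Squarefree m := hD0.sqf.squarefree_of_dvd hD0.dvd
  have hmm := mo_mul hm.ne_zero G
  have hmo0 : mo m G ≠ 0 := by
    intro h0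
    rw [h0, zero_mul] at hmm
    exact hm.ne_zero hmm.symm
  have hmg0 : mgcd G m ≠ 0 := (mgcd_monic hm.ne_zero).ne_zero
  have hpc := pair_count h2 hs0.Q0 hmo0 hmg0 f1 f2 (kap_ne (k := k) (G.natDegree + a)) ha hρ
    (Bo g m G Q)
  rw [← hpc, Finset.card_eq_sum_card_fiberwise (f := fun x => x.2.1) (t := MD k a) (by
    intro x hx
    rw [Finset.mem_coe, Finset.mem_filter, mem_SF] at hx
    obtain ⟨⟨D, hD, hs⟩, _, _, h3⟩ := hx
    rw [Finset.mem_coe, mem_MD]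
    exact ⟨hs.hA, h3⟩)]
  apply Finset.sum_le_sum
  intro A hA
  rw [mem_MD] at hA
  rw [Finset.filter_filter]
  rcases Finset.eq_empty_or_nonempty ((SF g m).filter fun x =>
    (x.1 = G ∧ x.2.2.2 = Q ∧ x.2.1.natDegree = a) ∧ x.2.1 = A) with he | hne
  · rw [he, Finset.card_empty]
    exact Nat.zero_le _
  · obtain ⟨x1, hx1⟩ := hne
    rw [Finset.mem_filter, mem_SF] at hx1
    obtain ⟨⟨D1, hD1, hs1⟩, ⟨hG1, hQ1, _⟩, hA1⟩ := hx1
    rw [hG1, hQ1, hA1] at hs1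
    obtain ⟨_, _, _, _, _, _, f3, _, _⟩ := hs1.facts hD1
    rw [if_pos f3]
    have hex : ∃ B D, IsD g m D ∧ IsSol g D G A B Q := ⟨_, D1, hD1, hs1⟩
    obtain ⟨D2, hD2, hs2⟩ : ∃ D, IsD g m D ∧ IsSol g D G A (Bo g m G Q A) Q := by
      unfold Bo
      rw [dif_pos hex]
      exact hex.choose_spec
    refine Finset.card_le_card_of_injOn (fun x => x.2.2.1 - Bo g m G Q A) ?_ ?_
    · intro x hx
      rw [Finset.mem_coe, Finset.mem_filter, mem_SF] at hx
      obtain ⟨⟨D, hD, hs⟩, ⟨hG3, hQ3, _⟩, hA3⟩ := hx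
      rw [hG3, hQ3, hA3] at hs
      obtain ⟨_, _, _, _, _, _, _, f4, f5⟩ := hs.facts hD
      rw [hA.2] at f4 f5
      rw [Finset.mem_coe, Finset.mem_filter, mem_LT]
      refine ⟨hint A _ _ D D2 hA.2 hD hs hD2 hs2, ?_⟩
      dsimp only
      rw [add_sub_cancel]
      exact ⟨f4, f5⟩
    · intro x hx y hy hxy
      rw [Finset.mem_coe, Finset.mem_filter] at hx hy
      obtain ⟨_, ⟨hG3, hQ3, _⟩, hA3⟩ := hx
      obtain ⟨_, ⟨hG4, hQ4, _⟩, hA4⟩ := hy
      dsimp only at hxy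
      have hB : x.2.2.1 = y.2.2.1 := by linear_combination hxy
      ext1
      · rw [hG3, hG4]
      · ext1
        · rw [hA3, hA4]
        · ext1
          · exact hB
          · rw [hQ3, hQ4]

/-- The weight of `G`. -/
noncomputable def wt (m G : k[X]) : ℝ :=
  (phi m : ℝ) * phi (mo m G) / ((Nat.card k : ℝ) ^ m.natDegree *
    (Nat.card k : ℝ) ^ (2 * (mo m G).natDegree))

theorem wt_nonneg (m G : k[X]) : 0 ≤ wt m G := by
  unfold wt
  positivity

theorem fib_real (h2 : (2 : k) ≠ 0) {g : ℕ} {m : k[X]} (G Q : k[X]) (a ρ : ℕ)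
    (hint : ∀ A B B' D D' : k[X], A.natDegree = a → IsD g m D → IsSol g D G A B Q → IsD g m D' →
      IsSol g D' G A B' Q → (B - B').degree < ρ)
    (hne : ((SF g m).filter fun x => x.1 = G ∧ x.2.2.2 = Q ∧ x.2.1.natDegree = a).Nonempty)
    (ha : Q.natDegree + m.natDegree ≤ a) (hρ : 2 * Q.natDegree + 2 * m.natDegree ≤ ρ) :
    (((SF g m).filter fun x => x.1 = G ∧ x.2.2.2 = Q ∧ x.2.1.natDegree = a).card : ℝ) ≤
      (Nat.card k : ℝ) ^ a * (Nat.card k : ℝ) ^ ρ / (Nat.card k : ℝ) ^ (2 * Q.natDegree) *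
        wt m G := by
  have hne' := hne
  obtain ⟨x0, hx0⟩ := hne'
  rw [Finset.mem_filter, mem_SF] at hx0
  obtain ⟨⟨D0, hD0, hs0⟩, hG0, hQ0, hA0⟩ := hx0
  rw [hG0, hQ0] at hs0
  have hm : Squarefree m := hD0.sqf.squarefree_of_dvd hD0.dvd
  have hmm := mo_mul hm.ne_zero G
  have hmo0 : mo m G ≠ 0 := by
    intro h0
    rw [h0, zero_mul] at hmm
    exact hm.ne_zero hmm.symm
  have hmg0 : mgcd G m ≠ 0 := (mgcd_monic hm.ne_zero).ne_zero
  have hQ := hs0.Q0
  have hdm : m.natDegree = (mo m G).natDegree + (mgcd G m).natDegree := by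
    conv_lhs => rw [← hmm]
    exact natDegree_mul hmo0 hmg0
  have e1 : (Q * mo m G * mgcd G m).natDegree = Q.natDegree + m.natDegree := by
    rw [mul_assoc, hmm, natDegree_mul hQ hm.ne_zero]
  have e2 : (Q ^ 2 * mo m G * mo m G).natDegree = 2 * Q.natDegree + 2 * (mo m G).natDegree := by
    rw [natDegree_mul (mul_ne_zero (pow_ne_zero 2 hQ) hmo0) hmo0,
      natDegree_mul (pow_ne_zero 2 hQ) hmo0, natDegree_pow]
    ring
  have h3 := fib_aux h2 G Q a ρ hint hne (by rw [e1]; exact ha) (by rw [e2]; omega)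
  rw [e1, e2] at h3
  have hcop : IsCoprime (mo m G) (mgcd G m) :=
    ((mo_cop hm G).of_isCoprime_of_dvd_left (mgcd_dvd_left G m)).symm
  have h4 : phi m = phi (mo m G) * phi (mgcd G m) := by
    conv_lhs => rw [← hmm]
    exact phi_mul hmo0 hmg0 hcop
  have h5 := phi_mul_le hQ hmo0
  have hq0 : (0 : ℝ) < Nat.card k := by exact_mod_cast Nat.card_pos
  have hq : (Nat.card k : ℝ) ≠ 0 := hq0.ne'
  have h3' : (((SF g m).filter fun x => x.1 = G ∧ x.2.2.2 = Q ∧ x.2.1.natDegree = a).card : ℝ) ≤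
      (Nat.card k : ℝ) ^ (a - (Q.natDegree + m.natDegree)) *
        ((Nat.card k : ℝ) ^ (ρ - (2 * Q.natDegree + 2 * (mo m G).natDegree)) *
          (phi (Q * mo m G) * phi (mgcd G m) * phi (mo m G))) := by exact_mod_cast h3
  have h5' : (phi (Q * mo m G) : ℝ) ≤ (Nat.card k : ℝ) ^ Q.natDegree * phi (mo m G) := by
    exact_mod_cast h5
  refine h3'.trans ?_
  have h6 : (Nat.card k : ℝ) ^ (a - (Q.natDegree + m.natDegree)) =
      (Nat.card k : ℝ) ^ a / ((Nat.card k : ℝ) ^ Q.natDegree * (Nat.card k : ℝ) ^ m.natDegree) := by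
    rw [pow_sub₀ _ hq ha, pow_add]
    rfl
  have h7 : (Nat.card k : ℝ) ^ (ρ - (2 * Q.natDegree + 2 * (mo m G).natDegree)) =
      (Nat.card k : ℝ) ^ ρ / ((Nat.card k : ℝ) ^ (2 * Q.natDegree) *
        (Nat.card k : ℝ) ^ (2 * (mo m G).natDegree)) := by
    rw [pow_sub₀ _ hq (by omega), pow_add]
    rfl
  rw [h6, h7]
  unfold wt
  have h4' : (phi m : ℝ) = phi (mo m G) * phi (mgcd G m) := by exact_mod_cast h4
  have h8 : (Nat.card k : ℝ) ^ a * (Nat.card k : ℝ) ^ ρ / (Nat.card k : ℝ) ^ (2 * Q.natDegree) *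
      ((phi m : ℝ) * phi (mo m G) / ((Nat.card k : ℝ) ^ m.natDegree *
        (Nat.card k : ℝ) ^ (2 * (mo m G).natDegree))) =
      (Nat.card k : ℝ) ^ a / ((Nat.card k : ℝ) ^ Q.natDegree * (Nat.card k : ℝ) ^ m.natDegree) *
      ((Nat.card k : ℝ) ^ ρ / ((Nat.card k : ℝ) ^ (2 * Q.natDegree) *
        (Nat.card k : ℝ) ^ (2 * (mo m G).natDegree)) *
      ((Nat.card k : ℝ) ^ Q.natDegree * phi (mo m G) * phi (mgcd G m) * phi (mo m G))) := by
    rw [h4']
    field_simp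
  rw [h8]
  gcongr

end

end Pool.Agent.Y711
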