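import Pool.Agent.Y711.Tot

/-!
The number of all solutions.
-/

set_option autoImplicit false
set_option maxHeartbeats 1000000

open Polynomial Classical

namespace Pool.Agent.Y711

section

variable {k : Type} [Field k] [Finite k]

/-- the bound for given `G`, `deg A` -/
theorem GA_bound (h2 : (2 : k) ≠ 0) {g : ℕ} {m : k[X]} (hg : 4 * m.natDegree ≤ g) (G : k[X])
    (a : ℕ) :
    (((SF g m).filter fun x => x.1 = G ∧ x.2.1.natDegree = a).card : ℝ) ≤
      (Nat.card k : ℝ) ^ (a + g + 1) / (Nat.card k : ℝ) ^ G.natDegree * wt m G := by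
  have hq0 : (0 : ℝ) < Nat.card k := by exact_mod_cast Nat.card_pos
  have hq : (Nat.card k : ℝ) ≠ 0 := hq0.ne'
  have hw := wt_nonneg m G
  rcases Finset.eq_empty_or_nonempty ((SF g m).filter fun x => x.1 = G ∧ x.2.1.natDegree = a)
    with he | hne
  · rw [he, Finset.card_empty, Nat.cast_zero]
    positivity
  obtain ⟨x0, hx0⟩ := hne
  rw [Finset.mem_filter, mem_SF] at hx0
  obtain ⟨⟨D0, hD0, hs0⟩, hG0, hA0⟩ := hx0
  rw [hG0] at hs0
  have hdeg0 := hs0.deg
  rw [hA0] at hdeg0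
  rcases Nat.even_or_odd (G.natDegree + a) with hev | hodd
  · -- even case
    obtain ⟨_, e1, e2⟩ := hs0.even_deg hD0 (by rw [hA0]; exact hev)
    rw [hA0] at e1 e2
    obtain ⟨r, hr⟩ := hev
    -- `cm` is the maximal degree
    obtain ⟨cm, hcm⟩ : ∃ cm, 2 * cm + 2 * g + 2 = 3 * a + G.natDegree :=
      ⟨(3 * a + G.natDegree - 2 * g - 2) / 2, by omega⟩
    rw [Finset.card_eq_sum_card_fiberwise (f := fun x => x.2.2.2) (t := LT k (cm + 1)) (by
      intro x hx
      rw [Finset.mem_coe, Finset.mem_filter, mem_SF] at hx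
      obtain ⟨⟨D, hD, hs⟩, h3, h4⟩ := hx
      rw [h3] at hs
      obtain ⟨_, e3, e4⟩ := hs.even_deg hD (by rw [h4]; exact ⟨r, hr⟩)
      rw [h4] at e3 e4
      rw [Finset.mem_coe, mem_LT]
      show x.2.2.2.degree < _
      exact lt_of_natDegree (by omega))]
    push_cast
    have hterm : ∀ Q ∈ LT k (cm + 1), ((((SF g m).filter fun x => x.1 = G ∧ x.2.1.natDegree = a).filter
        fun x => x.2.2.2 = Q).card : ℝ) ≤
        (Nat.card k : ℝ) ^ a * ((Nat.card k : ℝ) ^ (2 * g + 1) / (Nat.card k : ℝ) ^ (3 * r)) *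
          wt m G := by
      intro Q _
      rw [Finset.filter_filter]
      have hcongr : ((SF g m).filter fun x => (x.1 = G ∧ x.2.1.natDegree = a) ∧ x.2.2.2 = Q) =
          ((SF g m).filter fun x => x.1 = G ∧ x.2.2.2 = Q ∧ x.2.1.natDegree = a) := by
        refine Finset.filter_congr fun x _ => ?_
        tauto
      rw [hcongr]
      rcases Finset.eq_empty_or_nonempty ((SF g m).filter fun x => x.1 = G ∧ x.2.2.2 = Q ∧
        x.2.1.natDegree = a) with he | hne
      · rw [he, Finset.card_empty, Nat.cast_zero]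
        positivity
      · have hne' := hne
        obtain ⟨x1, hx1⟩ := hne'
        rw [Finset.mem_filter, mem_SF] at hx1
        obtain ⟨⟨D1, hD1, hs1⟩, hG1, hQ1, hA1⟩ := hx1
        rw [hG1, hQ1] at hs1
        obtain ⟨_, e3, e4⟩ := hs1.even_deg hD1 (by rw [hA1]; exact ⟨r, hr⟩)
        rw [hA1] at e3 e4
        obtain ⟨ρ, hρ⟩ : ∃ ρ, ρ + 3 * r = 2 * g + 1 + 2 * Q.natDegree :=
          ⟨2 * g + 1 + 2 * Q.natDegree - 3 * r, by omega⟩
        have h3 := fib_real h2 G Q a ρ (by
          intro A B B' D D' hA hD hs hD' hs'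
          exact IsSol.even_diff h2 hD hs hD' hs' (by rw [hA]; exact ⟨r, hr⟩) (by omega)) hne
          (by omega) (by omega)
        refine h3.trans (le_of_eq ?_)
        have h4 : (Nat.card k : ℝ) ^ ρ * (Nat.card k : ℝ) ^ (3 * r) =
            (Nat.card k : ℝ) ^ (2 * g + 1) * (Nat.card k : ℝ) ^ (2 * Q.natDegree) := by
          rw [← pow_add, ← pow_add, hρ]
        congr 1
        rw [mul_div_assoc]
        congr 1
        rw [div_eq_div_iff (pow_ne_zero _ hq) (pow_ne_zero _ hq)]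
        exact h4
    refine (Finset.sum_le_sum hterm).trans ?_
    rw [Finset.sum_const, card_LT, nsmul_eq_mul]
    push_cast
    have h5 : (Nat.card k : ℝ) ^ (cm + 1) * ((Nat.card k : ℝ) ^ a *
        ((Nat.card k : ℝ) ^ (2 * g + 1) / (Nat.card k : ℝ) ^ (3 * r)) * wt m G) =
        (Nat.card k : ℝ) ^ (cm + 1 + a + (2 * g + 1)) / (Nat.card k : ℝ) ^ (3 * r) * wt m G := by
      rw [pow_add _ (cm + 1 + a), pow_add _ (cm + 1) a]
      ring
    rw [h5]
    apply le_of_eq
    congr 1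
    rw [div_eq_div_iff (pow_ne_zero _ hq) (pow_ne_zero _ hq), ← pow_add, ← pow_add]
    congr 1
    omega
  · -- odd case
    obtain ⟨_, e1, e2⟩ := hs0.odd_deg hD0 (by rw [hA0]; exact hodd)
    rw [hA0] at e1 e2
    obtain ⟨r, hr⟩ := hodd
    obtain ⟨c, hc⟩ : ∃ c, 2 * c + 2 * g + 1 = 3 * a + G.natDegree := ⟨_, e1⟩
    obtain ⟨ρ, hρ⟩ : ∃ ρ, ρ + G.natDegree = c + g + 1 := ⟨c + g + 1 - G.natDegree, by omega⟩
    rw [Finset.card_eq_sum_card_fiberwise (f := fun x => x.2.2.2) (t := MD k c) (by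
      intro x hx
      rw [Finset.mem_coe, Finset.mem_filter, mem_SF] at hx
      obtain ⟨⟨D, hD, hs⟩, h3, h4⟩ := hx
      rw [h3] at hs
      obtain ⟨e5, e3, e4⟩ := hs.odd_deg hD (by rw [h4]; exact ⟨r, hr⟩)
      rw [h4] at e3 e4
      rw [Finset.mem_coe, mem_MD]
      exact ⟨e5, by show x.2.2.2.natDegree = c; omega⟩)]
    push_cast
    have hterm : ∀ Q ∈ MD k c, ((((SF g m).filter fun x => x.1 = G ∧ x.2.1.natDegree = a).filter
        fun x => x.2.2.2 = Q).card : ℝ) ≤
        (Nat.card k : ℝ) ^ a * (Nat.card k : ℝ) ^ ρ / (Nat.card k : ℝ) ^ (2 * c) *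
          wt m G := by
      intro Q hQ
      rw [mem_MD] at hQ
      rw [Finset.filter_filter]
      have hcongr : ((SF g m).filter fun x => (x.1 = G ∧ x.2.1.natDegree = a) ∧ x.2.2.2 = Q) =
          ((SF g m).filter fun x => x.1 = G ∧ x.2.2.2 = Q ∧ x.2.1.natDegree = a) := by
        refine Finset.filter_congr fun x _ => ?_
        tauto
      rw [hcongr]
      rcases Finset.eq_empty_or_nonempty ((SF g m).filter fun x => x.1 = G ∧ x.2.2.2 = Q ∧
        x.2.1.natDegree = a) with he | hne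
      · rw [he, Finset.card_empty, Nat.cast_zero]
        positivity
      · have h3 := fib_real h2 G Q a ρ (by
          intro A B B' D D' hA hD hs hD' hs'
          obtain ⟨_, _, e6⟩ := hs.odd_deg hD (by rw [hA]; exact ⟨r, hr⟩)
          obtain ⟨_, _, e7⟩ := hs'.odd_deg hD' (by rw [hA]; exact ⟨r, hr⟩)
          rw [hA] at e6 e7
          refine lt_of_le_of_lt (degree_sub_le _ _) (max_lt ?_ ?_)
          · exact lt_of_natDegree (by omega)
          · exact lt_of_natDegree (by omega)) hne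
          (by omega) (by omega)
        rwa [hQ.2] at h3
    refine (Finset.sum_le_sum hterm).trans ?_
    rw [Finset.sum_const, card_MD, nsmul_eq_mul]
    push_cast
    have h5 : (Nat.card k : ℝ) ^ c * ((Nat.card k : ℝ) ^ a * (Nat.card k : ℝ) ^ ρ /
        (Nat.card k : ℝ) ^ (2 * c) * wt m G) =
        (Nat.card k : ℝ) ^ (c + a + ρ) / (Nat.card k : ℝ) ^ (2 * c) * wt m G := by
      rw [pow_add _ (c + a), pow_add _ c a]
      ring
    rw [h5]
    apply le_of_eq
    congr 1
    rw [div_eq_div_iff (pow_ne_zero _ hq) (pow_ne_zero _ hq), ← pow_add, ← pow_add]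
    congr 1
    omega

theorem geom_le {q : ℝ} (hq : 1 < q) (n : ℕ) :
    ∑ i ∈ Finset.range (n + 1), q ^ i ≤ q ^ n * (q / (q - 1)) := by
  have h1 : (0 : ℝ) < q - 1 := by linarith
  rw [geom_sum_eq hq.ne', div_le_iff₀ h1]
  have h2 : q ^ n * (q / (q - 1)) * (q - 1) = q ^ (n + 1) := by
    field_simp
    ring
  rw [h2]
  linarith

theorem geom_inv_le {q : ℝ} (hq : 1 < q) (n : ℕ) :
    ∑ i ∈ Finset.range (n + 1), 1 / q ^ i ≤ q / (q - 1) := by
  have h1 : (0 : ℝ) < q - 1 := by linarith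
  have h0 : (0 : ℝ) < q := by linarith
  have h2 : ∀ i : ℕ, 1 / q ^ i = (1 / q) ^ i := fun i => by rw [one_div_pow]
  simp only [h2]
  have h3 : (1 / q : ℝ) < 1 := by
    rw [div_lt_one h0]
    exact hq
  rw [geom_sum_eq h3.ne]
  have h4 : (0 : ℝ) ≤ (1 / q) ^ (n + 1) := by positivity
  have h5 : ((1 / q : ℝ) ^ (n + 1) - 1) / (1 / q - 1) = (1 - (1 / q) ^ (n + 1)) * (q / (q - 1)) := by
    have h6 : (1 / q - 1 : ℝ) ≠ 0 := by linarith
    generalize (1 / q) ^ (n + 1) = x
    rw [div_eq_iff h6]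
    have h8 : (q / (q - 1)) * (1 / q - 1) = -1 := by
      field_simp
      ring
    rw [mul_assoc, h8]
    ring
  rw [h5]
  have h7 : (0 : ℝ) ≤ q / (q - 1) := by positivity
  nlinarith

/-- the number of the solutions with given `G` -/
theorem G_bound (h2 : (2 : k) ≠ 0) {g : ℕ} {m : k[X]} (hg : 4 * m.natDegree ≤ g) (G : k[X]) :
    (((SF g m).filter fun x => x.1 = G).card : ℝ) ≤
      (Nat.card k : ℝ) ^ (2 * g + 1) * ((Nat.card k : ℝ) / (Nat.card k - 1)) *
        (wt m G / (Nat.card k : ℝ) ^ (2 * G.natDegree)) := by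
  have hq1 : (1 : ℝ) < Nat.card k := by exact_mod_cast Finite.one_lt_card
  have hq0 : (0 : ℝ) < Nat.card k := by linarith
  have hq : (Nat.card k : ℝ) ≠ 0 := hq0.ne'
  have hw := wt_nonneg m G
  have hq2 : (0 : ℝ) < Nat.card k - 1 := by linarith
  rcases Finset.eq_empty_or_nonempty ((SF g m).filter fun x => x.1 = G) with he | hne
  · rw [he, Finset.card_empty, Nat.cast_zero]
    positivity
  obtain ⟨x0, hx0⟩ := hne
  rw [Finset.mem_filter, mem_SF] at hx0
  obtain ⟨⟨D0, hD0, hs0⟩, hG0⟩ := hx0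
  rw [hG0] at hs0
  have hdeg0 := hs0.deg
  obtain ⟨t, ht⟩ : ∃ t, G.natDegree + t = g := ⟨g - G.natDegree, by omega⟩
  rw [Finset.card_eq_sum_card_fiberwise (f := fun x => x.2.1.natDegree)
    (t := Finset.range (t + 1)) (by
      intro x hx
      rw [Finset.mem_coe, Finset.mem_filter, mem_SF] at hx
      obtain ⟨⟨D, hD, hs⟩, h3⟩ := hx
      rw [h3] at hs
      have := hs.deg
      rw [Finset.mem_coe, Finset.mem_range]
      show x.2.1.natDegree < t + 1
      omega)]
  push_cast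
  have hterm : ∀ a ∈ Finset.range (t + 1), ((((SF g m).filter fun x => x.1 = G).filter
      fun x => x.2.1.natDegree = a).card : ℝ) ≤
      (Nat.card k : ℝ) ^ a * ((Nat.card k : ℝ) ^ (g + 1) / (Nat.card k : ℝ) ^ G.natDegree *
        wt m G) := by
    intro a _
    rw [Finset.filter_filter]
    refine (GA_bound h2 hg G a).trans (le_of_eq ?_)
    rw [show a + g + 1 = a + (g + 1) by ring, pow_add]
    ring
  refine (Finset.sum_le_sum hterm).trans ?_
  rw [← Finset.sum_mul]
  have h3 := geom_le hq1 t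
  have h4 : (Nat.card k : ℝ) ^ (2 * g + 1) * ((Nat.card k : ℝ) / (Nat.card k - 1)) *
      (wt m G / (Nat.card k : ℝ) ^ (2 * G.natDegree)) =
      ((Nat.card k : ℝ) ^ t * ((Nat.card k : ℝ) / (Nat.card k - 1))) *
        ((Nat.card k : ℝ) ^ (g + 1) / (Nat.card k : ℝ) ^ G.natDegree * wt m G) := by
    have h5 : (Nat.card k : ℝ) ^ (2 * g + 1) =
        (Nat.card k : ℝ) ^ t * (Nat.card k : ℝ) ^ (g + 1) * (Nat.card k : ℝ) ^ G.natDegree := by
      rw [← pow_add, ← pow_add]
      congr 1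
      omega
    rw [h5, two_mul, pow_add]
    field_simp
    ring
  rw [h4]
  apply mul_le_mul_of_nonneg_right h3
  positivity

omit [Finite k] in
theorem mo_eq {m e G' : k[X]} (he : mgcd (e * G') m = e) : mo m (e * G') = m / e := by
  unfold mo
  rw [he]

theorem shift_sum {q : ℝ} (hq : 1 < q) (ε M : ℕ) :
    ∑ j ∈ Finset.range (M + 1), (if ε ≤ j then 1 / q ^ (j - ε) else 0) ≤ q / (q - 1) := by
  have h1 : (0 : ℝ) < q - 1 := by linarith
  have h0 : (0 : ℝ) < q := by linarith
  by_cases h : ε ≤ M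
  · obtain ⟨t, rfl⟩ := Nat.exists_eq_add_of_le h
    rw [add_assoc, Finset.sum_range_add]
    have h2 : ∑ j ∈ Finset.range ε, (if ε ≤ j then 1 / q ^ (j - ε) else 0) = 0 := by
      apply Finset.sum_eq_zero
      intro j hj
      rw [Finset.mem_range] at hj
      rw [if_neg (by omega)]
    have h3 : ∑ j ∈ Finset.range (t + 1), (if ε ≤ ε + j then 1 / q ^ (ε + j - ε) else 0) =
        ∑ j ∈ Finset.range (t + 1), 1 / q ^ j := by
      apply Finset.sum_congr rfl
      intro j _
      rw [if_pos (by omega), Nat.add_sub_cancel_left]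
    rw [h2, h3, zero_add]
    exact geom_inv_le hq t
  · have h2 : ∑ j ∈ Finset.range (M + 1), (if ε ≤ j then 1 / q ^ (j - ε) else 0) = 0 := by
      apply Finset.sum_eq_zero
      intro j hj
      rw [Finset.mem_range] at hj
      rw [if_neg (by omega)]
    rw [h2]
    positivity

/-- the sum of the weights of given degree -/
theorem wt_sum_deg {m : k[X]} (hm : m.Monic) (j : ℕ) :
    ∑ G ∈ MD k j, wt m G / (Nat.card k : ℝ) ^ (2 * j) ≤
      ∑ e ∈ dv m, (phi m : ℝ) * phi (m / e) / (Nat.card k : ℝ) ^ (3 * m.natDegree) *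
        (if e.natDegree ≤ j then 1 / (Nat.card k : ℝ) ^ (j - e.natDegree) else 0) := by
  have hq0 : (0 : ℝ) < Nat.card k := by exact_mod_cast Nat.card_pos
  have hq : (Nat.card k : ℝ) ≠ 0 := hq0.ne'
  rw [← Finset.sum_fiberwise_of_maps_to (s := MD k j) (t := dv m) (g := fun G => mgcd G m) (by
    intro G _
    exact (mem_dv hm.ne_zero).2 ⟨mgcd_monic hm.ne_zero, mgcd_dvd_right G m⟩)]
  apply Finset.sum_le_sum
  intro e he
  rw [mem_dv hm.ne_zero] at he
  obtain ⟨hem, m', hm'⟩ := he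
  have hm'0 : m' ≠ 0 := by
    rintro rfl
    rw [mul_zero] at hm'
    exact hm.ne_zero hm'
  have hdiv : m / e = m' := by rw [hm', mul_div_cancel_left₀ _ hem.ne_zero]
  have hdeg : m.natDegree = e.natDegree + m'.natDegree := by
    rw [hm', natDegree_mul hem.ne_zero hm'0]
  have hval : ∀ G ∈ (MD k j).filter (fun G => mgcd G m = e), wt m G / (Nat.card k : ℝ) ^ (2 * j) =
      (phi m : ℝ) * phi m' / ((Nat.card k : ℝ) ^ m.natDegree *
    (Nat.card k : ℝ) ^ (2 * m'.natDegree)) / (Nat.card k : ℝ) ^ (2 * j) := by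
    intro G hG
    rw [Finset.mem_filter] at hG
    unfold wt mo
    rw [hG.2, hdiv]
  rw [Finset.sum_congr rfl hval, Finset.sum_const, nsmul_eq_mul, hdiv]
  by_cases hej : e.natDegree ≤ j
  · rw [if_pos hej]
    have hcard : ((MD k j).filter (fun G => mgcd G m = e)).card ≤ Nat.card k ^ (j - e.natDegree) := by
      rw [← card_MD]
      refine (Finset.card_le_card (t := (MD k (j - e.natDegree)).image fun G' => e * G') ?_).trans
        Finset.card_image_le
      intro G hG
      rw [Finset.mem_filter, mem_MD] at hG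
      obtain ⟨⟨hG1, hG2⟩, hG3⟩ := hG
      obtain ⟨G', hG'⟩ : e ∣ G := hG3 ▸ mgcd_dvd_left G m
      rw [Finset.mem_image]
      refine ⟨G', ?_, hG'.symm⟩
      rw [mem_MD]
      have h1 : G'.Monic := hem.of_mul_monic_left (hG' ▸ hG1)
      refine ⟨h1, ?_⟩
      rw [hG', natDegree_mul hem.ne_zero h1.ne_zero] at hG2
      omega
    have hcard' : (((MD k j).filter (fun G => mgcd G m = e)).card : ℝ) ≤
        (Nat.card k : ℝ) ^ (j - e.natDegree) := by exact_mod_cast hcard
    refine (mul_le_mul_of_nonneg_right hcard' (by positivity)).trans (le_of_eq ?_)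
    have h1 : (Nat.card k : ℝ) ^ (j - e.natDegree) * (Nat.card k : ℝ) ^ (j - e.natDegree) *
        (Nat.card k : ℝ) ^ (3 * m.natDegree) =
        (Nat.card k : ℝ) ^ m.natDegree * (Nat.card k : ℝ) ^ (2 * m'.natDegree) *
          (Nat.card k : ℝ) ^ (2 * j) := by
      rw [← pow_add, ← pow_add, ← pow_add, ← pow_add]
      congr 1
      omega
    rw [mul_one_div, div_div, div_div, ← mul_div_assoc, div_eq_div_iff (by positivity)
      (by positivity)]
    linear_combination (phi m : ℝ) * phi m' * h1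
  · rw [if_neg hej, mul_zero]
    have hemp : (MD k j).filter (fun G => mgcd G m = e) = ∅ := by
      rw [Finset.filter_eq_empty_iff]
      intro G hG hG3
      rw [mem_MD] at hG
      have h1 : e ∣ G := hG3 ▸ mgcd_dvd_left G m
      have h2 := natDegree_le_of_dvd h1 hG.1.ne_zero
      omega
    rw [hemp, Finset.card_empty, Nat.cast_zero, zero_mul]

/-- the sum of the weights -/
theorem wt_sum {m : k[X]} (hm : m.Monic) (M : ℕ) :
    ∑ j ∈ Finset.range (M + 1), ∑ G ∈ MD k j, wt m G / (Nat.card k : ℝ) ^ (2 * j) ≤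
      (phi m : ℝ) / (Nat.card k : ℝ) ^ (2 * m.natDegree) *
        ((Nat.card k : ℝ) / (Nat.card k - 1)) := by
  have hq1 : (1 : ℝ) < Nat.card k := by exact_mod_cast Finite.one_lt_card
  have hq0 : (0 : ℝ) < Nat.card k := by linarith
  have hq : (Nat.card k : ℝ) ≠ 0 := hq0.ne'
  have hq2 : (0 : ℝ) < Nat.card k - 1 := by linarith
  refine (Finset.sum_le_sum fun j _ => wt_sum_deg hm j).trans ?_
  rw [Finset.sum_comm]
  have h1 : ∀ e ∈ dv m, ∑ j ∈ Finset.range (M + 1),
      (phi m : ℝ) * phi (m / e) / (Nat.card k : ℝ) ^ (3 * m.natDegree) *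
        (if e.natDegree ≤ j then 1 / (Nat.card k : ℝ) ^ (j - e.natDegree) else 0) ≤
      (phi (m / e) : ℝ) * ((phi m : ℝ) / (Nat.card k : ℝ) ^ (3 * m.natDegree) *
        ((Nat.card k : ℝ) / (Nat.card k - 1))) := by
    intro e _
    rw [← Finset.mul_sum]
    have h2 := shift_sum hq1 e.natDegree M
    refine (mul_le_mul_of_nonneg_left h2 (by positivity)).trans (le_of_eq ?_)
    ring
  refine (Finset.sum_le_sum h1).trans (le_of_eq ?_)
  rw [← Finset.sum_mul]
  have h3 : (∑ e ∈ dv m, (phi (m / e) : ℝ)) = (Nat.card k : ℝ) ^ m.natDegree := by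
    exact_mod_cast sum_phi hm
  rw [h3, show 3 * m.natDegree = m.natDegree + 2 * m.natDegree by ring, pow_add]
  field_simp

/-- the number of all solutions -/
theorem total_bound (h2 : (2 : k) ≠ 0) {g : ℕ} {m : k[X]} (hm : m.Monic)
    (hg : 4 * m.natDegree ≤ g) :
    ((SF g m).card : ℝ) ≤ (Nat.card k : ℝ) ^ (2 * g + 1) *
      ((Nat.card k : ℝ) / (Nat.card k - 1)) ^ 2 *
        ((phi m : ℝ) / (Nat.card k : ℝ) ^ (2 * m.natDegree)) := by
  have hq1 : (1 : ℝ) < Nat.card k := by exact_mod_cast Finite.one_lt_card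
  have hq0 : (0 : ℝ) < Nat.card k := by linarith
  have hq2 : (0 : ℝ) < Nat.card k - 1 := by linarith
  rw [Finset.card_eq_sum_card_fiberwise (f := fun x => x.1.natDegree)
    (t := Finset.range (g + 1)) (by
      intro x hx
      rw [Finset.mem_coe, mem_SF] at hx
      obtain ⟨D, hD, hs⟩ := hx
      have := hs.deg
      rw [Finset.mem_coe, Finset.mem_range]
      show x.1.natDegree < g + 1
      omega)]
  push_cast
  have h1 : ∀ j ∈ Finset.range (g + 1), (((SF g m).filter fun x => x.1.natDegree = j).card : ℝ) ≤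
      ((Nat.card k : ℝ) ^ (2 * g + 1) * ((Nat.card k : ℝ) / (Nat.card k - 1))) *
        ∑ G ∈ MD k j, wt m G / (Nat.card k : ℝ) ^ (2 * j) := by
    intro j _
    rw [Finset.card_eq_sum_card_fiberwise (f := fun x => x.1) (t := MD k j) (by
      intro x hx
      rw [Finset.mem_coe, Finset.mem_filter, mem_SF] at hx
      obtain ⟨⟨D, hD, hs⟩, h3⟩ := hx
      rw [Finset.mem_coe, mem_MD]
      exact ⟨hs.hG, h3⟩)]
    push_cast
    rw [Finset.mul_sum]
    apply Finset.sum_le_sum
    intro G hG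
    rw [mem_MD] at hG
    rw [Finset.filter_filter]
    have h4 := G_bound h2 hg G
    rw [hG.2] at h4
    refine le_trans ?_ h4
    exact_mod_cast Finset.card_le_card (fun x hx => by
      rw [Finset.mem_filter] at hx ⊢
      exact ⟨hx.1, hx.2.2⟩)
  refine (Finset.sum_le_sum h1).trans ?_
  rw [← Finset.mul_sum]
  refine (mul_le_mul_of_nonneg_left (wt_sum hm g) (by positivity)).trans (le_of_eq ?_)
  ring

end

end Pool.Agent.Y711
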