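import Pool.Agent.Y711.NL
import Pool.Agent.Y784.FC.E

/-!
Euler products of curves over finite fields modulo three: double covers, conics and elliptic curves
with a point of order three.
-/

set_option autoImplicit false
set_option maxHeartbeats 1000000

open Polynomial

namespace Pool.Agent.Y711

open Pool.Agent.W313.Hyp Pool.Agent.W343.BSD Pool.Agent.Y784.FC

section

variable {F : Type} [Field F] [Finite F]

/-- the number of elements modulo three -/
noncomputable def qm (F : Type) [Field F] : ZMod 3 := ((Nat.card F : ℕ) : ZMod 3)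

/-- the factor of the zeta function -/
noncomputable def zf (F : Type) [Field F] : PowerSeries (ZMod 3) :=
  1 - PowerSeries.C (qm F) * PowerSeries.X

theorem euler_zf : eulerProd (fun P : MI F => P.1.natDegree)
    (fun P => (1 - PowerSeries.X ^ P.1.natDegree : PowerSeries (ZMod 3))) = zf F := by
  rw [euler_irr]
  rfl

omit [Finite F] in
theorem zf_ne : zf F ≠ 0 := by
  intro h
  have := congrArg (PowerSeries.constantCoeff (R := ZMod 3)) h
  unfold zf at this
  simp at this

omit [Finite F] in
theorem lin_ne (c : ZMod 3) : (1 - PowerSeries.C c * PowerSeries.X : PowerSeries (ZMod 3)) ≠ 0 := by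
  intro h
  have := congrArg (PowerSeries.constantCoeff (R := ZMod 3)) h
  simp at this

theorem pr_sub_dvd {K : Type} [Field K] [Finite K] {S : Type} [CommRing S] (G : K[X]) (T : S) :
    T ∣ pr G T - 1 := by
  classical
  unfold pr
  induction (fac G) using Finset.induction_on with
  | empty => simp
  | insert R s hR ih =>
    rw [Finset.prod_insert hR]
    obtain ⟨c, hc⟩ := ih
    obtain ⟨n, hn⟩ : ∃ n, R.1.natDegree = n + 1 := ⟨R.1.natDegree - 1, by
      have := MI.deg_pos R
      omega⟩
    refine ⟨c - T ^ n * ∏ R ∈ s, (1 - T ^ R.1.natDegree), ?_⟩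
    rw [hn]
    linear_combination hc

/-- Euler products of families and local relations -/
theorem EP_rel (G : ∀ P : MI F, (RF P)[X]) (s t : MI F → PowerSeries (ZMod 3))
    (hs : ∀ P, (PowerSeries.X : PowerSeries (ZMod 3)) ^ P.1.natDegree ∣ s P - 1)
    (h : ∀ P, pr (G P) (PowerSeries.X ^ P.1.natDegree : PowerSeries (ZMod 3)) * s P = t P) :
    EP G (ZMod 3) * eulerProd (fun P : MI F => P.1.natDegree) s =
      eulerProd (fun P : MI F => P.1.natDegree) t := by
  have hfin := fun n => finite_deg_le (F := F) n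
  have h1 : EP G (ZMod 3) = eulerProd (fun P : MI F => P.1.natDegree)
      (fun P => pr (G P) (PowerSeries.X ^ P.1.natDegree : PowerSeries (ZMod 3))) := by
    unfold EP pr
    simp only [pow_mul]
  rw [h1, ← eulerProd_mul hfin (fun P => pr_sub_dvd _ _) hs]
  congr 1
  funext P
  exact h P

open Classical in
/-- an Euler product with one factor -/
theorem euler_single {P1 : MI F} (f : PowerSeries (ZMod 3))
    (hf : (PowerSeries.X : PowerSeries (ZMod 3)) ^ P1.1.natDegree ∣ f - 1) :
    eulerProd (fun P : MI F => P.1.natDegree) (fun P => if P = P1 then f else 1) = f := by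
  have hfin := fun n => finite_deg_le (F := F) n
  rw [eulerProd_of_finset hfin (fun P => by
      split_ifs with h
      · rw [h]; exact hf
      · rw [sub_self]; exact dvd_zero _) {P1} (fun P hP => by
      rw [if_neg (by simpa using hP)])]
  rw [Finset.prod_singleton, if_pos rfl]

/-- the double cover attached to `h` -/
noncomputable def Gq (h : F[X]) (P : MI F) : (RF P)[X] :=
  X ^ 2 + C 0 * X + C (-(AdjoinRoot.mk P.1 h))

omit [Finite F] in
theorem two_RF (h2 : (2 : F) ≠ 0) (P : MI F) : (2 : RF P) ≠ 0 := by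
  have := alg_ne (P := P) h2
  rwa [map_ofNat] at this

omit [Finite F] in
theorem three_RF (h3 : (3 : F) ≠ 0) (P : MI F) : (3 : RF P) ≠ 0 := by
  have := alg_ne (P := P) h3
  rwa [map_ofNat] at this

theorem pr_Gq (h2 : (2 : F) ≠ 0) (h : F[X]) (P : MI F) :
    pr (Gq h P) (PowerSeries.X ^ P.1.natDegree : PowerSeries (ZMod 3)) =
      (1 - PowerSeries.X ^ P.1.natDegree) * w1 h P := by
  unfold Gq w1
  rw [pr_quad (two_RF h2 P)]
  have h4 : qc ((0 : RF P) ^ 2 - 4 * -(AdjoinRoot.mk P.1 h)) = chi h P.1 := by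
    rw [chi_eq, ← qc_mul_sq (AdjoinRoot.mk P.1 h) (two_RF h2 P)]
    congr 1
    ring
  rw [h4, map_intCast]

/-- the Euler product of a double cover -/
theorem EP_Gq (h2 : (2 : F) ≠ 0) (h : F[X]) : EP (Gq h) (ZMod 3) = zf F * E3 h := by
  have hfin := fun n => finite_deg_le (F := F) n
  have h1 := EP_rel (Gq h) (fun _ => 1) (fun P => (1 - PowerSeries.X ^ P.1.natDegree) * w1 h P)
    (fun P => by rw [sub_self]; exact dvd_zero _) (fun P => by rw [mul_one, pr_Gq h2])
  rw [eulerProd_one, mul_one, eulerProd_mul hfin (fun P => by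
      rw [sub_right_comm, sub_self, zero_sub]
      exact (dvd_neg).2 dvd_rfl) (fun P => w1_dvd h P), euler_zf] at h1
  exact h1

theorem locS_E3 (h : F[X]) :
    red3 (locS 1 h) = E3 h * (1 - PowerSeries.C ((cinf h : ℤ) : ZMod 3) * PowerSeries.X) := by
  unfold locS E3
  rw [map_mul, map_eulerProd (fun n => fin_mul one_ne_zero n), map_sub, map_one, map_mul, pow_one,
    PowerSeries.map_C, PowerSeries.map_X]
  congr 1
  simp only [one_mul]
  congr 1
  funext Q
  rw [map_sub, map_one, map_mul, PowerSeries.map_C, map_pow, PowerSeries.map_X]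
  rfl

/-- evaluation at a closed point of degree one -/
theorem chi_mi (h2 : (2 : F) ≠ 0) (h : F[X]) (t : F) : chi h (mi t).1 = qc (h.eval t) := by
  have hfin := finRF (mi t)
  rw [chi_eq]
  have h1 : AdjoinRoot.mk (mi t).1 h = algebraMap F (RF (mi t)) (h.eval t) := by
    have h3 : AdjoinRoot.mk (mi t).1 (C (h.eval t)) = algebraMap F (RF (mi t)) (h.eval t) := rfl
    rw [← h3, ← sub_eq_zero, ← map_sub, AdjoinRoot.mk_eq_zero]
    exact X_sub_C_dvd_sub_C_eval
  rw [h1]
  apply qc_odd h2
  rw [finrank_RF]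
  show Odd (X - C t : F[X]).natDegree
  rw [natDegree_X_sub_C]
  exact odd_one

omit [Finite F] in
theorem mi_deg (t : F) : (mi t).1.natDegree = 1 := natDegree_X_sub_C t

omit [Finite F] in
/-- the point at which a root lies -/
theorem eq_mi {P : MI F} {L : Type} [Field L] [Algebra F L] {x : L} (hx : aeval x P.1 = 0) {t : F}
    (h : x = algebraMap F L t) : P = mi t := by
  have h5 : algebraMap F L (P.1.eval t) = 0 := by
    rw [← aeval_algebraMap_apply_eq_algebraMap_eval, ← h]
    exact hx
  rw [map_eq_zero] at h5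
  exact (eq_of_dvd_MI (P := mi t) (Q := P) (dvd_iff_isRoot.2 h5)).symm

omit [Finite F] in
theorem root_mi {L : Type} [Field L] [Algebra F L] {x : L} {t : F} (hx : aeval x (mi t).1 = 0) :
    x = algebraMap F L t := by
  have : aeval x (X - C t : F[X]) = 0 := hx
  rwa [map_sub, aeval_X, aeval_C, sub_eq_zero] at this

omit [Finite F] in
theorem root_ne {P : MI F} {t : F} (hP : P ≠ mi t) :
    AdjoinRoot.root P.1 - algebraMap F (RF P) t ≠ 0 := by
  intro h
  apply hP
  have h1 : AdjoinRoot.mk P.1 (X - C t) = 0 := by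
    rw [map_sub, AdjoinRoot.mk_X]
    exact h
  rw [AdjoinRoot.mk_eq_zero] at h1
  exact eq_of_dvd_MI (Q := mi t) h1

omit [Finite F] in
theorem root_eq (t : F) : AdjoinRoot.root (mi t).1 = algebraMap F (RF (mi t)) t := by
  have h1 : AdjoinRoot.mk (mi t).1 (X - C t) = 0 := AdjoinRoot.mk_eq_zero.2 dvd_rfl
  rw [map_sub, AdjoinRoot.mk_X, sub_eq_zero] at h1
  exact h1

omit [Finite F] in
theorem eval_Gq {L : Type} [Field L] [Algebra F L] {P : MI F} {x : L} (hx : aeval x P.1 = 0) (h : F[X])
    (y : L) : eval₂ (sg hx) y (Gq h P) = y ^ 2 - aeval x h := by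
  unfold Gq
  have h1 : sg hx (AdjoinRoot.mk P.1 h) = aeval x h := by
    exact AdjoinRoot.lift_mk (i := algebraMap F L) (a := x) (h := hx) (g := h)
  rw [eval₂_add, eval₂_add, eval₂_pow, eval₂_mul, eval₂_X, eval₂_C, eval₂_C, map_neg, h1, map_zero]
  ring

end

end Pool.Agent.Y711
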