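import Pool.Agent.Y711.Tri1

/-!
Euler products of curves over finite fields modulo three: conics and elliptic curves with a point of
order three.
-/

set_option autoImplicit false
set_option maxHeartbeats 1000000

open Polynomial

namespace Pool.Agent.Y711

open Pool.Agent.W313.Hyp Pool.Agent.W343.BSD Pool.Agent.Y784.FC

section conic

variable {F : Type} [Field F] [Finite F]

open Classical in
/-- the punctured line -/
noncomputable def Gt (F : Type) [Field F] [Finite F] (P : MI F) : (RF P)[X] :=
  if P = mi 0 then 1 else X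

theorem pr_X {K : Type} [Field K] [Finite K] {S : Type} [CommRing S] (T : S) :
    pr (X : K[X]) T = 1 - T := by
  have := pr_lin (K := K) 0 T
  rwa [C_0, sub_zero] at this

theorem EP_Gt : EP (Gt F) (ZMod 3) * (1 - PowerSeries.X) = zf F := by
  classical
  have h1 := EP_rel (Gt F) (fun P => if P = mi 0 then (1 - PowerSeries.X) else 1)
    (fun P => (1 - PowerSeries.X ^ P.1.natDegree)) (fun P => by
      split_ifs with h
      · rw [h, mi_deg, pow_one, sub_right_comm, sub_self, zero_sub]
        exact (dvd_neg).2 dvd_rfl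
      · rw [sub_self]; exact dvd_zero _) (fun P => by
      unfold Gt
      split_ifs with h
      · rw [pr_one, one_mul, h, mi_deg, pow_one]
      · rw [pr_X, mul_one])
  rw [euler_single (P1 := mi (0 : F)) _ (by
    rw [mi_deg, pow_one, sub_right_comm, sub_self, zero_sub]
    exact (dvd_neg).2 dvd_rfl), euler_zf] at h1
  exact h1

/-- a conic with a rational point at infinity -/
theorem conic_one (h2 : (2 : F) ≠ 0) (p : F) {e : F} (he : e ≠ 0) :
    E3 ((X - C p) ^ 2 + C e) * (1 - PowerSeries.X) = 1 := by
  classical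
  have h1 : EP (Gq ((X - C p) ^ 2 + C e)) (ZMod 3) = EP (Gt F) (ZMod 3) := by
    refine EP_congr _ _ (fun P => ?_) (fun P => ?_) ?_ _
    · exact quad_ne _ _
    · unfold Gt
      split_ifs
      · exact one_ne_zero
      · exact X_ne_zero
    · intro L _ _ _
      have h2L : (2 : L) ≠ 0 := two_ne_ext h2
      set p' := algebraMap F L p with hp'
      set e' := algebraMap F L e with he'
      have he0 : e' ≠ 0 := (_root_.map_ne_zero _).2 he
      refine ⟨fun x y => y ^ 2 - ((x - p') ^ 2 + e') = 0, fun t s => t ≠ 0 ∧ s = 0, ?_, ?_, ?_⟩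
      · intro P x hx y
        rw [eval_Gq hx]
        have : aeval x ((X - C p) ^ 2 + C e : F[X]) = (x - p') ^ 2 + e' := by
          rw [map_add, map_pow, map_sub, aeval_X, aeval_C, aeval_C]
        rw [this]
      · intro P t ht s
        unfold Gt
        by_cases hP : P = mi 0
        · subst hP
          have := root_mi ht
          rw [map_zero] at this
          rw [if_pos rfl, eval₂_one]
          simp [this]
        · have : t ≠ 0 := by
            intro h
            exact hP (eq_mi ht (by rw [h, map_zero]))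
          rw [if_neg hP, eval₂_X]
          simp [this]
      · refine Finset.card_bij (fun z _ => (z.2 - (z.1 - p'), 0)) ?_ ?_ ?_
        · rintro ⟨x, y⟩ hz
          simp only [Finset.mem_filter, Finset.mem_univ, true_and, and_true] at hz ⊢
          intro h0
          apply he0
          linear_combination -hz + (y + (x - p')) * h0
        · rintro ⟨x, y⟩ hz ⟨x', y'⟩ hz' h
          simp only [Finset.mem_filter, Finset.mem_univ, true_and, Prod.mk.injEq, and_true] at hz hz' h
          have ht : y - (x - p') ≠ 0 := by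
            intro h0
            apply he0
            linear_combination -hz + (y + (x - p')) * h0
          have hsum : y + (x - p') = y' + (x' - p') := by
            apply mul_left_cancel₀ ht
            linear_combination hz - hz' + (-(y' + (x' - p'))) * h
          have e1 : (2 : L) * y = 2 * y' := by linear_combination h + hsum
          have e2 : (2 : L) * x = 2 * x' := by linear_combination hsum - h
          rw [mul_left_cancel₀ h2L e1, mul_left_cancel₀ h2L e2]
        · rintro ⟨t, s⟩ hz
          simp only [Finset.mem_filter, Finset.mem_univ, true_and] at hz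
          obtain ⟨ht, rfl⟩ := hz
          refine ⟨(p' + (e' / t - t) / 2, (e' / t + t) / 2), ?_, ?_⟩
          · simp only [Finset.mem_filter, Finset.mem_univ, true_and]
            field_simp
            ring
          · simp only [Prod.mk.injEq, and_true]
            field_simp
            ring
  have h3 := EP_Gt (F := F)
  rw [← h1, EP_Gq h2] at h3
  apply mul_left_cancel₀ (zf_ne (F := F))
  rw [mul_one, ← mul_assoc]
  exact h3

/-- **Conics.** -/
theorem conic (h2 : (2 : F) ≠ 0) {c : F} (hc : c ≠ 0) (p : F) {e : F} (he : e ≠ 0) :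
    E3 (C c * (X - C p) ^ 2 + C e) *
      (1 - PowerSeries.C ((qc c : ℤ) : ZMod 3) * PowerSeries.X) = 1 := by
  set δ : F[X] := (X - C p) ^ 2 + C (e / c) with hδ
  have h1 : C c * (X - C p) ^ 2 + C e = C c * δ := by
    rw [hδ, mul_add, ← C_mul, mul_div_cancel₀ _ hc]
  have hX : ((X - C p) ^ 2 : F[X]).natDegree = 2 := by
    rw [natDegree_pow, natDegree_X_sub_C]
  have hdeg : δ.natDegree = 2 := by
    rw [hδ, natDegree_add_C, hX]
  have hlead : δ.leadingCoeff = 1 := by
    have hm : δ.Monic := by
      rw [hδ]
      apply ((monic_X_sub_C p).pow 2).add_of_left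
      rw [degree_eq_natDegree ((monic_X_sub_C p).pow 2).ne_zero, hX]
      exact lt_of_le_of_lt degree_C_le (by norm_num)
    exact hm
  have hinf : cinf δ = 1 := by
    rw [cinf_even (by rw [hdeg]; exact even_two), hlead, qc_one]
  have hd := conic_one h2 p (e := e / c) (div_ne_zero he hc)
  have h3 : red3 (locS 1 δ) = 1 := by
    rw [locS_E3, hinf, Int.cast_one, map_one, one_mul]
    exact hd
  have h4 := locS_rel h2 c δ 1 one_ne_zero 0 (Int.castRingHom (ZMod 3)) 0 (by
    rw [pow_zero, mul_one]; exact h3)
  rw [pow_zero, mul_one] at h4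
  have h5 : red3 (locS 1 (C c * δ)) = 1 := h4
  rw [locS_E3, cinf_C_mul, hinf, mul_one] at h5
  rw [h1]
  exact h5

end conic

section ell

variable {F : Type} [Field F] [Finite F]

/-- the quadratic character of `-3` -/
theorem qc_neg_three (h2 : (2 : F) ≠ 0) (h3 : (3 : F) ≠ 0) :
    ((qc (-3 : F) : ℤ) : ZMod 3) = qm F := by
  have hq := three_mod h3
  have h5 : qm F = ((Nat.card F % 3 : ℕ) : ZMod 3) := by
    unfold qm
    rw [ZMod.natCast_mod]
  rw [h5]
  rcases (by omega : Nat.card F % 3 = 1 ∨ Nat.card F % 3 = 2) with h | h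
  · have hcard : 1 < Nat.card F := Finite.one_lt_card
    obtain ⟨z, hz⟩ := Pool.Agent.TH943.PT.exists_prim (F := F) (ℓ := 3) (by omega)
    have hz1 : z ≠ 1 := hz.ne_one (by norm_num)
    have h4 := hz.pow_eq_one
    have hz2 : z ^ 2 + z + 1 = 0 := by
      have : (z - 1) * (z ^ 2 + z + 1) = 0 := by linear_combination h4
      exact (mul_eq_zero.1 this).resolve_left (sub_ne_zero.2 hz1)
    have h6 : (-3 : F) = (2 * z + 1) ^ 2 := by linear_combination -4 * hz2
    have h7 : (2 * z + 1) ≠ 0 := by
      intro h0
      rw [h0] at h6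
      apply h3
      linear_combination -h6
    rw [h6, qc_sq h7, h]
    rfl
  · have h6 : ¬ IsSquare (-3 : F) := by
      rintro ⟨s, hs⟩
      set z : F := (-1 + s) / 2 with hz
      have hz2 : z ^ 2 + z + 1 = 0 := by
        rw [hz]
        field_simp
        linear_combination -hs
      have hz3 : z ^ 3 = 1 := by linear_combination (z - 1) * hz2
      have hz1 := cube_root_one h hz3
      rw [hz1] at hz2
      apply h3
      linear_combination hz2
    rw [qc_nonsq h6, h]
    decide

theorem qc_neg_three_sq (h2 : (2 : F) ≠ 0) (h3 : (3 : F) ≠ 0) {e : F} (he : e ≠ 0) :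
    ((qc (-3 * e ^ 2 : F) : ℤ) : ZMod 3) = qm F := by
  rw [qc_mul_sq _ he, qc_neg_three h2 h3]

theorem qm_RF (P : MI F) : qm (RF P) = qm F ^ P.1.natDegree := by
  have h1 : Nat.card (RF P) = Nat.card F ^ P.1.natDegree := by
    have := finRF P
    rw [Module.natCard_eq_pow_finrank (K := F) (V := RF P), finrank_RF]
  unfold qm
  rw [h1]
  push_cast
  rfl

/-- the elliptic curve as a cubic cover of the line of the function `y - α x - β` -/
noncomputable def Gu (α β : F) (P : MI F) : (RF P)[X] :=
  X ^ 3 + C 0 * X ^ 2 + C (-2 * algebraMap F (RF P) α * AdjoinRoot.root P.1) * X +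
    C (-(AdjoinRoot.root P.1 * (AdjoinRoot.root P.1 + 2 * algebraMap F (RF P) β)))

/-- the cubic polynomial of the elliptic curve -/
noncomputable def gE {R : Type} [CommRing R] (α β : R) : R[X] := X ^ 3 + (C α * X + C β) ^ 2

omit [Finite F] in
theorem Gq_ne (h : F[X]) (P : MI F) : Gq h P ≠ 0 := quad_ne _ _

omit [Finite F] in
theorem Gu_ne (α β : F) (P : MI F) : Gu α β P ≠ 0 := (cub_monic _ _ _).ne_zero

theorem EP_Gq_Gu (α β : F) :
    EP (Gq (gE α β)) (ZMod 3) = EP (Gu α β) (ZMod 3) := by
  classical
  refine EP_congr _ _ (Gq_ne _) (Gu_ne α β) ?_ _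
  intro L _ _ _
  set α' := algebraMap F L α with hα'
  set β' := algebraMap F L β with hβ'
  refine ⟨fun x y => y ^ 2 - (x ^ 3 + (α' * x + β') ^ 2) = 0,
    fun u x => x ^ 3 - 2 * α' * u * x - u * (u + 2 * β') = 0, ?_, ?_, ?_⟩
  · intro P x hx y
    rw [eval_Gq hx]
    have : aeval x (gE α β) = x ^ 3 + (α' * x + β') ^ 2 := by
      unfold gE
      simp only [map_add, map_pow, map_mul, aeval_X, aeval_C, hα', hβ']
    rw [this]
  · intro P u hu x
    have : eval₂ (sg hu) x (Gu α β P) = x ^ 3 - 2 * α' * u * x - u * (u + 2 * β') := by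
      unfold Gu
      rw [eval₂_add, eval₂_add, eval₂_add, eval₂_mul, eval₂_mul, eval₂_pow, eval₂_pow, eval₂_X,
        eval₂_C, eval₂_C, eval₂_C]
      simp only [map_neg, map_mul, map_add, sg_root, sg_of, map_ofNat, map_zero, hα', hβ']
      ring
    rw [this]
  · refine Finset.card_bij (fun z _ => (z.2 - α' * z.1 - β', z.1)) ?_ ?_ ?_
    · rintro ⟨x, y⟩ hz
      simp only [Finset.mem_filter, Finset.mem_univ, true_and] at hz ⊢
      linear_combination -hz
    · rintro ⟨x, y⟩ hz ⟨x', y'⟩ hz' h
      simp only [Finset.mem_filter, Finset.mem_univ, true_and, Prod.mk.injEq] at hz hz' h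
      obtain ⟨h4, h5⟩ := h
      subst h5
      have : y = y' := by linear_combination h4
      rw [this]
    · rintro ⟨u, x⟩ hz
      simp only [Finset.mem_filter, Finset.mem_univ, true_and] at hz
      refine ⟨(x, u + α' * x + β'), ?_, ?_⟩
      · simp only [Finset.mem_filter, Finset.mem_univ, true_and]
        linear_combination -hz
      · simp only [Prod.mk.injEq, and_true]
        ring

end ell

end Pool.Agent.Y711
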