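import Pool.Agent.Y711.Tri2

/-!
Euler products of curves over finite fields modulo three: elliptic curves with a point of order
three.
-/

set_option autoImplicit false
set_option maxHeartbeats 1000000

open Polynomial

namespace Pool.Agent.Y711

open Pool.Agent.W313.Hyp Pool.Agent.W343.BSD Pool.Agent.Y784.FC

section ell

variable {F : Type} [Field F] [Finite F]

theorem charS : CharP (PowerSeries (ZMod 3)) 3 :=
  charP_of_injective_ringHom (PowerSeries.C_injective (R := ZMod 3)) 3

omit [Finite F] in
theorem root_ne_zero {P : MI F} (hP : P ≠ mi 0) : AdjoinRoot.root P.1 ≠ 0 := by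
  have := root_ne (t := 0) hP
  rwa [map_zero, sub_zero] at this

theorem disc_val (h2 : (2 : F) ≠ 0) (h3 : (3 : F) ≠ 0) {α β : F} (hα : α ≠ 0)
    (hβ : β * (4 * α ^ 3 - 27 * β) ≠ 0) :
    E3 (C (-27 : F) * (X + C (2 * β)) ^ 2 + C (32 * α ^ 3) * X) *
      (1 - PowerSeries.C (qm F) * PowerSeries.X) = 1 := by
  have h27 : (27 : F) ≠ 0 := by
    have : (27 : F) = 3 ^ 3 := by norm_num
    rw [this]
    exact pow_ne_zero _ h3
  have h64 : (64 : F) ≠ 0 := by
    have : (64 : F) = 2 ^ 6 := by norm_num
    rw [this]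
    exact pow_ne_zero _ h2
  set p : F := (16 * α ^ 3 - 54 * β) / 27 with hp
  set e : F := 64 * α ^ 3 * (4 * α ^ 3 - 27 * β) / 27 with he
  have he0 : e ≠ 0 := div_ne_zero (mul_ne_zero (mul_ne_zero h64 (pow_ne_zero _ hα))
    (right_ne_zero_of_mul hβ)) h27
  have h4 : (C (-27 : F) * (X + C (2 * β)) ^ 2 + C (32 * α ^ 3) * X : F[X]) =
      C (-27) * (X - C p) ^ 2 + C e := by
    have e1 : (32 : F) * α ^ 3 = 54 * p + 108 * β := by
      rw [hp]; field_simp; ring
    have e2 : e = 27 * p ^ 2 - 108 * β ^ 2 := by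
      rw [he, hp]; field_simp; ring
    rw [e1, e2]
    simp only [map_neg, map_mul, map_add, map_sub, map_pow, map_ofNat]
    ring
  rw [h4]
  have h5 := conic h2 (c := (-27 : F)) (neg_ne_zero.2 h27) p he0
  have h6 : ((qc (-27 : F) : ℤ) : ZMod 3) = qm F := by
    have : (-27 : F) = -3 * 3 ^ 2 := by norm_num
    rw [this]
    exact qc_neg_three_sq h2 h3 h3
  rw [h6] at h5
  exact h5

theorem pr_Gu (h2 : (2 : F) ≠ 0) (h3 : (3 : F) ≠ 0) {α β : F} {P : MI F}
    (hne : α ≠ 0 ∨ P ≠ mi (-2 * β)) (hP : P ≠ mi 0) (T : PowerSeries (ZMod 3)) :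
    pr (Gu α β P) T = (1 - T) ^ 2 * (1 - (qc (-27 * (AdjoinRoot.root P.1 +
      2 * algebraMap F (RF P) β) ^ 2 + 32 * algebraMap F (RF P) α ^ 3 * AdjoinRoot.root P.1) : ℤ) *
        T) := by
  have hchar := charS
  have h2P := two_RF h2 P
  have hu := root_ne_zero hP
  set u := AdjoinRoot.root P.1 with hud
  unfold Gu
  rw [pr_cub h2P]
  · have h5 : disc3 (0 : RF P) (-2 * algebraMap F (RF P) α * u)
        (-(u * (u + 2 * algebraMap F (RF P) β))) =
        (-27 * (u + 2 * algebraMap F (RF P) β) ^ 2 + 32 * algebraMap F (RF P) α ^ 3 * u) *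
          u ^ 2 := by
      unfold disc3
      ring
    rw [h5, qc_mul_sq _ hu]
  · rintro r ⟨e1, e2, e3⟩
    rcases hne with hα | hPβ
    · have hα' : algebraMap F (RF P) α ≠ 0 := alg_ne hα
      have hv : (-2 : RF P) * algebraMap F (RF P) α * u ≠ 0 :=
        mul_ne_zero (mul_ne_zero (neg_ne_zero.2 h2P) hα') hu
      have hr3 : (3 : RF P) * r = 0 := by linear_combination e1
      have : (-2 : RF P) * algebraMap F (RF P) α * u = 0 := by
        rw [e2]
        linear_combination r * hr3
      exact hv this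
    · have hw : u + 2 * algebraMap F (RF P) β ≠ 0 := by
        have := root_ne (t := -2 * β) hPβ
        rw [map_mul, map_neg, map_ofNat] at this
        intro h0
        apply this
        linear_combination h0
      have hr : r = 0 := by
        have : (3 : RF P) * r = 0 := by linear_combination e1
        exact (mul_eq_zero.1 this).resolve_left (three_RF h3 P)
      have : u * (u + 2 * algebraMap F (RF P) β) = 0 := by
        rw [hr] at e3
        linear_combination -e3
      exact (mul_ne_zero hu hw) this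

theorem pr_X3 {K : Type} [Field K] [Finite K] (T : PowerSeries (ZMod 3)) {f : K[X]}
    (hf : f = X ^ 3) : pr f T = 1 - T := by
  have := pr_cube (K := K) T
  rw [C_0, sub_zero] at this
  rw [hf, this]

omit [Finite F] in
theorem Gu_zero (α β : F) : Gu α β (mi 0) = X ^ 3 := by
  unfold Gu
  rw [root_eq, map_zero]
  simp

omit [Finite F] in
theorem Gu_two (β : F) : Gu 0 β (mi (-2 * β)) = X ^ 3 := by
  unfold Gu
  rw [root_eq]
  have : algebraMap F (RF (mi (-2 * β))) (-2 * β) + 2 * algebraMap F (RF (mi (-2 * β))) β = 0 := by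
    rw [map_mul, map_neg, map_ofNat]
    ring
  rw [this, map_zero]
  simp

omit [Finite F] in
theorem ss_dvd (P : MI F) (hP : P.1.natDegree = 1) :
    (PowerSeries.X : PowerSeries (ZMod 3)) ^ P.1.natDegree ∣
      (1 - PowerSeries.X) * (1 - PowerSeries.C (qm F) * PowerSeries.X) - 1 := by
  rw [hP, pow_one]
  exact ⟨-1 - PowerSeries.C (qm F) + PowerSeries.C (qm F) * PowerSeries.X, by ring⟩

theorem rescale_zf (h3 : (3 : F) ≠ 0) :
    PowerSeries.rescale (qm F) (zf F) = 1 - PowerSeries.X := by
  have hu := unit3 (three_mod h3)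
  unfold zf
  rw [map_sub, map_one, map_mul, PowerSeries.rescale_X]
  have e5 : PowerSeries.rescale (qm F) (PowerSeries.C (qm F)) = PowerSeries.C (qm F) := by
    ext n
    rw [PowerSeries.coeff_rescale, PowerSeries.coeff_C]
    split_ifs with hn
    · rw [hn, pow_zero, one_mul]
    · rw [mul_zero]
  rw [e5, ← mul_assoc, ← map_mul]
  have : qm F * qm F = 1 := hu
  rw [this, map_one, one_mul]

theorem EP_Gu (h2 : (2 : F) ≠ 0) (h3 : (3 : F) ≠ 0) {α β : F}
    (hβ : β * (4 * α ^ 3 - 27 * β) ≠ 0) : EP (Gu α β) (ZMod 3) * (1 - PowerSeries.X) = 1 := by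
  classical
  have hfin := fun n => finite_deg_le (F := F) n
  have hβ0 := left_ne_zero_of_mul hβ
  set ss : PowerSeries (ZMod 3) := (1 - PowerSeries.X) * (1 - PowerSeries.C (qm F) * PowerSeries.X)
    with hss
  have hX1 : (1 - PowerSeries.X : PowerSeries (ZMod 3)) ≠ 0 := by
    have := lin_ne 1
    rwa [map_one, one_mul] at this
  have dZ : ∀ P : MI F, (PowerSeries.X : PowerSeries (ZMod 3)) ^ P.1.natDegree ∣
      (1 - PowerSeries.X ^ P.1.natDegree) - 1 := fun P => by
    rw [sub_right_comm, sub_self, zero_sub]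
    exact (dvd_neg).2 dvd_rfl
  by_cases hα : α = 0
  · subst hα
    have hne : mi (0 : F) ≠ mi (-2 * β) := by
      intro h
      have := mi_inj h
      exact (mul_ne_zero (neg_ne_zero.2 h2) hβ0) this.symm
    set s0 : MI F → PowerSeries (ZMod 3) := fun P => if P = mi 0 then ss else 1 with hs0
    set s1 : MI F → PowerSeries (ZMod 3) := fun P => if P = mi (-2 * β) then ss else 1 with hs1
    have d0 : ∀ P, (PowerSeries.X : PowerSeries (ZMod 3)) ^ P.1.natDegree ∣ s0 P - 1 := by
      intro P
      simp only [hs0]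
      split_ifs with h
      · rw [h]; exact ss_dvd _ (mi_deg _)
      · rw [sub_self]; exact dvd_zero _
    have d1 : ∀ P, (PowerSeries.X : PowerSeries (ZMod 3)) ^ P.1.natDegree ∣ s1 P - 1 := by
      intro P
      simp only [hs1]
      split_ifs with h
      · rw [h]; exact ss_dvd _ (mi_deg _)
      · rw [sub_self]; exact dvd_zero _
    have h1 := EP_rel (Gu (0 : F) β) (fun P => s0 P * s1 P)
      (fun P => (1 - PowerSeries.X ^ P.1.natDegree) ^ 2 *
        PowerSeries.rescale (qm F) (1 - PowerSeries.X ^ P.1.natDegree))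
      (fun P => one_mod_mul (d0 P) (d1 P)) (fun P => by
        have hre : PowerSeries.rescale (qm F)
            (1 - PowerSeries.X ^ P.1.natDegree : PowerSeries (ZMod 3)) =
            1 - PowerSeries.C (qm F ^ P.1.natDegree) * PowerSeries.X ^ P.1.natDegree := by
          rw [map_sub, map_one, map_pow, PowerSeries.rescale_X, mul_pow, map_pow]
        rw [hre]
        simp only [hs0, hs1]
        by_cases hP0 : P = mi 0
        · rw [if_pos hP0, if_neg (by rw [hP0]; exact hne), hP0, pr_X3 _ (Gu_zero 0 β), mi_deg,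
            pow_one, pow_one, hss]
          ring
        · by_cases hP1 : P = mi (-2 * β)
          · rw [if_neg hP0, if_pos hP1, hP1, pr_X3 _ (Gu_two β), mi_deg, pow_one, pow_one, hss]
            ring
          · rw [if_neg hP0, if_neg hP1, pr_Gu h2 h3 (Or.inr hP1) hP0, one_mul, mul_one]
            have hw : 3 * (AdjoinRoot.root P.1 + 2 * algebraMap F (RF P) β) ≠ 0 := by
              apply mul_ne_zero (three_RF h3 P)
              have := root_ne (t := -2 * β) hP1
              rw [map_mul, map_neg, map_ofNat] at this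
              intro h0
              apply this
              linear_combination h0
            have hq : (-27 * (AdjoinRoot.root P.1 + 2 * algebraMap F (RF P) β) ^ 2 +
                32 * algebraMap F (RF P) 0 ^ 3 * AdjoinRoot.root P.1) =
                -3 * (3 * (AdjoinRoot.root P.1 + 2 * algebraMap F (RF P) β)) ^ 2 := by
              rw [map_zero]
              ring
            have hfinP := finRF P
            have hqq := qc_neg_three_sq (F := RF P) (two_RF h2 P) (three_RF h3 P) hw
            rw [hq, ← qm_RF, ← hqq, map_intCast])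
    rw [eulerProd_mul hfin d0 d1, eulerProd_mul hfin
      (fun P => pow_dvd_sub_one (dZ P) 2) (fun P => rescale_dvd_one _ (dZ P)),
      eulerProd_pow hfin dZ, ← rescale_eulerProd hfin _ dZ, euler_zf, rescale_zf h3,
      euler_single _ (ss_dvd _ (mi_deg _)), euler_single _ (ss_dvd _ (mi_deg _))] at h1
    have hz : zf F = 1 - PowerSeries.C (qm F) * PowerSeries.X := rfl
    rw [← hz] at h1
    apply mul_left_cancel₀ (mul_ne_zero (pow_ne_zero 2 (zf_ne (F := F))) hX1)
    linear_combination h1
  · set δ : F[X] := C (-27 : F) * (X + C (2 * β)) ^ 2 + C (32 * α ^ 3) * X with hδ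
    have hmk : ∀ P : MI F, AdjoinRoot.mk P.1 δ = -27 * (AdjoinRoot.root P.1 +
        2 * algebraMap F (RF P) β) ^ 2 + 32 * algebraMap F (RF P) α ^ 3 * AdjoinRoot.root P.1 := by
      intro P
      have hC : ∀ c : F, AdjoinRoot.mk P.1 (C c) = algebraMap F (RF P) c := fun c => rfl
      rw [hδ]
      simp only [map_mul, map_add, map_pow, hC, AdjoinRoot.mk_X, map_neg, map_ofNat]
    have h1 := EP_rel (Gu α β) (fun P => if P = mi 0 then ss else 1)
      (fun P => (1 - PowerSeries.X ^ P.1.natDegree) ^ 2 * w1 δ P)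
      (fun P => by
        split_ifs with h
        · rw [h]; exact ss_dvd _ (mi_deg _)
        · rw [sub_self]; exact dvd_zero _) (fun P => by
        by_cases hP0 : P = mi 0
        · rw [if_pos hP0, hP0, pr_X3 _ (Gu_zero α β), mi_deg, pow_one]
          unfold w1
          rw [chi_mi h2, mi_deg, pow_one]
          have he : δ.eval 0 = -3 * (6 * β) ^ 2 := by
            rw [hδ]
            simp
            ring
          have h6 : (6 * β : F) ≠ 0 := by
            apply mul_ne_zero _ hβ0
            have : (6 : F) = 2 * 3 := by norm_num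
            rw [this]
            exact mul_ne_zero h2 h3
          rw [he, qc_neg_three_sq h2 h3 h6, hss]
          ring
        · rw [if_neg hP0, mul_one, pr_Gu h2 h3 (Or.inl hα) hP0]
          unfold w1
          rw [chi_eq, hmk, map_intCast])
    rw [eulerProd_mul hfin (fun P => pow_dvd_sub_one (dZ P) 2) (fun P => w1_dvd δ P),
      eulerProd_pow hfin dZ, euler_zf, euler_single _ (ss_dvd _ (mi_deg _))] at h1
    have hE : eulerProd (fun P : MI F => P.1.natDegree) (fun P => w1 δ P) = E3 δ := rfl
    rw [hE] at h1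
    have hd := disc_val h2 h3 hα hβ
    rw [← hδ] at hd
    have hz : zf F = 1 - PowerSeries.C (qm F) * PowerSeries.X := rfl
    rw [← hz] at hd
    rw [← hz] at h1
    apply mul_left_cancel₀ (pow_ne_zero 2 (zf_ne (F := F)))
    linear_combination zf F * h1 + zf F ^ 2 * hd

/-- **Elliptic curves with a point of order three.** -/
theorem E3_gE (h2 : (2 : F) ≠ 0) (h3 : (3 : F) ≠ 0) {α β : F}
    (hβ : β * (4 * α ^ 3 - 27 * β) ≠ 0) : E3 (gE α β) * ((1 - PowerSeries.X) * zf F) = 1 := by
  have h1 := EP_Gu h2 h3 hβ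
  rw [← EP_Gq_Gu, EP_Gq h2] at h1
  linear_combination h1

end ell

end Pool.Agent.Y711
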