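import Pool.Agent.Y711.Tri3
import Pool.Agent.Y711.DefP

/-!
The pencils of lines of the elliptic curves with a point of order three.
-/

set_option autoImplicit false
set_option maxHeartbeats 1000000

open Polynomial

namespace Pool.Agent.Y711

open Pool.Agent.W313.Hyp Pool.Agent.W343.BSD Pool.Agent.Y784.FC

section alg

variable {F : Type} [Field F]

theorem pencil_expand (α β a b : F) : linePencil α β a b =
    C (4 * (a ^ 3 + (α * a + β) ^ 2)) * X ^ 6 +
    C (-8 * α ^ 2 * a * b - 8 * α * β * b - 12 * a ^ 2 * b) * X ^ 5 +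
    C (-8 * α ^ 4 * a ^ 2 - 16 * α ^ 3 * β * a - 8 * α ^ 2 * β ^ 2 - 36 * α ^ 2 * a ^ 3 +
      4 * α ^ 2 * b ^ 2 - 60 * α * β * a ^ 2 - 36 * β ^ 2 * a - 27 * a ^ 4 + 12 * a * b ^ 2) *
      X ^ 4 +
    C (16 * α ^ 4 * a * b + 16 * α ^ 3 * β * b + 108 * α ^ 2 * a ^ 2 * b + 120 * α * β * a * b +
      36 * β ^ 2 * b + 108 * a ^ 3 * b - 4 * b ^ 3) * X ^ 3 +
    C (4 * α ^ 6 * a ^ 2 + 8 * α ^ 5 * β * a + 4 * α ^ 4 * β ^ 2 - 8 * α ^ 4 * b ^ 2 -
      36 * α ^ 3 * β * a ^ 2 - 60 * α ^ 2 * β ^ 2 * a - 108 * α ^ 2 * a * b ^ 2 - 36 * α * β ^ 3 -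
      60 * α * β * b ^ 2 + 54 * β ^ 2 * a ^ 2 - 162 * a ^ 2 * b ^ 2) * X ^ 2 +
    C (-8 * α ^ 6 * a * b - 8 * α ^ 5 * β * b + 72 * α ^ 3 * β * a * b + 60 * α ^ 2 * β ^ 2 * b +
      36 * α ^ 2 * b ^ 3 - 108 * β ^ 2 * a * b + 108 * a * b ^ 3) * X +
    C (4 * α ^ 6 * b ^ 2 + 4 * α ^ 3 * β ^ 3 - 36 * α ^ 3 * β * b ^ 2 - 27 * β ^ 4 +
      54 * β ^ 2 * b ^ 2 - 27 * b ^ 4) := by
  unfold linePencil Cubic.discr
  simp only [map_mul, map_add, map_sub, map_pow, map_neg, map_ofNat]
  ring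

theorem pencil_coeff (α β a b : F) :
    (linePencil α β a b).coeff 6 = 4 * (a ^ 3 + (α * a + β) ^ 2) := by
  rw [pencil_expand]
  simp only [coeff_add, coeff_C_mul, coeff_X_pow, coeff_X, coeff_C]
  norm_num

theorem pencil_coeff5 (α β a b : F) : (linePencil α β a b).coeff 5 =
    -8 * α ^ 2 * a * b - 8 * α * β * b - 12 * a ^ 2 * b := by
  rw [pencil_expand]
  simp only [coeff_add, coeff_C_mul, coeff_X_pow, coeff_X, coeff_C]
  norm_num

theorem pencil_top {α β a b : F} (hd : (linePencil α β a b).natDegree = 2 * 2 + 1 ∨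
    (linePencil α β a b).natDegree = 2 * 2 + 2) (h6 : 4 * (a ^ 3 + (α * a + β) ^ 2) = 0)
    (h5 : -8 * α ^ 2 * a * b - 8 * α * β * b - 12 * a ^ 2 * b = 0) : False := by
  have h1 : (linePencil α β a b).leadingCoeff = 0 := by
    rw [leadingCoeff]
    rcases hd with h | h
    · rw [h]
      exact (pencil_coeff5 α β a b).trans h5
    · rw [h]
      exact (pencil_coeff α β a b).trans h6
  rw [leadingCoeff_eq_zero] at h1
  rw [h1, natDegree_zero] at hd
  omega

/-- a linear polynomial whose square divides a squarefree polynomial is constant -/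
theorem lin_sq {h : F[X]} (hs : Squarefree h) {p r : F} (hr : r ≠ 0) {Q : F[X]}
    (hh : h = (C p - C r * X) ^ 2 * Q) : False := by
  have h1 : IsUnit (C p - C r * X : F[X]) := hs _ ⟨Q, by rw [hh, sq]⟩
  have h2 := natDegree_eq_zero_of_isUnit h1
  have h3 : (C p - C r * X : F[X]) = C (-r) * X + C p := by
    rw [map_neg]
    ring
  rw [h3, natDegree_linear (neg_ne_zero.2 hr)] at h2
  exact one_ne_zero h2

theorem pencil_off {α β a b : F} (h2 : (2 : F) ≠ 0)
    (hd : (linePencil α β a b).natDegree = 2 * 2 + 1 ∨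
      (linePencil α β a b).natDegree = 2 * 2 + 2)
    (hs : Squarefree (linePencil α β a b)) : b ^ 2 ≠ a ^ 3 + (α * a + β) ^ 2 := by
  intro hb
  have hb0 : b ≠ 0 := by
    rintro rfl
    exact pencil_top hd (by rw [← hb]; ring) (by ring)
  have hC : (C b : F[X]) ^ 2 - (C a ^ 3 + (C α * C a + C β) ^ 2) = 0 := by
    rw [← C_pow, ← C_pow, ← C_mul, ← C_add, ← C_pow, ← C_add, ← hb, sub_self]
  refine lin_sq hs (p := 3 * a ^ 2 + 2 * α * (α * a + β)) (r := 2 * b) (mul_ne_zero h2 hb0)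
    (Q := (C α ^ 2 - X ^ 2 + C a) ^ 2 - 4 * (2 * (C α * C β - X * (C b - C a * X)) +
      C a * (C α ^ 2 - X ^ 2 + C a))) ?_
  unfold linePencil Cubic.discr
  simp only [map_mul, map_add, map_pow, map_ofNat]
  linear_combination (-27 * C b ^ 2 + 108 * C b * C a * X + 36 * C b * C α ^ 2 * X -
    36 * C b * X ^ 3 + 27 * C β ^ 2 - 54 * C β * C a * C α - 36 * C β * C α ^ 3 +
    36 * C β * C α * X ^ 2 - 27 * C a ^ 3 - 27 * C a ^ 2 * C α ^ 2 - 54 * C a ^ 2 * X ^ 2 -
    36 * C a * C α ^ 2 * X ^ 2 + 36 * C a * X ^ 4 + 4 * C α ^ 6 - 12 * C α ^ 4 * X ^ 2 +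
    12 * C α ^ 2 * X ^ 4 - 4 * X ^ 6) * hC

theorem pencil_smooth {α β a b : F} (h3 : (3 : F) ≠ 0)
    (hd : (linePencil α β a b).natDegree = 2 * 2 + 1 ∨
      (linePencil α β a b).natDegree = 2 * 2 + 2)
    (hs : Squarefree (linePencil α β a b)) : β * (4 * α ^ 3 - 27 * β) ≠ 0 := by
  intro h0
  rcases mul_eq_zero.1 h0 with hβ | hβ
  · subst hβ
    have ha : a ≠ 0 := by
      rintro rfl
      exact pencil_top hd (by ring) (by ring)
    refine lin_sq hs (p := b) (r := a) ha (Q := -27 * C b ^ 2 + 54 * C b * C a * X +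
      36 * C b * C α ^ 2 * X - 4 * C b * X ^ 3 - 27 * C a ^ 2 * X ^ 2 - 36 * C a * C α ^ 2 * X ^ 2 +
      4 * C a * X ^ 4 + 4 * C α ^ 6 - 8 * C α ^ 4 * X ^ 2 + 4 * C α ^ 2 * X ^ 4) ?_
    unfold linePencil Cubic.discr
    rw [C_0]
    ring
  · obtain ⟨γ, rfl⟩ : ∃ γ : F, α = 3 * γ := ⟨α / 3, by field_simp⟩
    have h27 : (27 : F) ≠ 0 := by
      have : (27 : F) = 3 ^ 3 := by norm_num
      rw [this]
      exact pow_ne_zero _ h3
    have hβ' : β = 4 * γ ^ 3 := by
      apply mul_left_cancel₀ h27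
      linear_combination -hβ
    subst hβ'
    have ha : 4 * γ ^ 2 + a ≠ 0 := by
      intro h
      have : a = -4 * γ ^ 2 := by linear_combination h
      subst this
      exact pencil_top hd (by ring) (by ring)
    refine lin_sq hs (p := b) (r := 4 * γ ^ 2 + a) ha (Q := -27 * C b ^ 2 + 54 * C a * C b * X +
      108 * C b * C γ ^ 2 * X - 4 * C b * X ^ 3 - 27 * C a ^ 2 * X ^ 2 -
      108 * C a * C γ ^ 2 * X ^ 2 + 4 * C a * X ^ 4 - 108 * C γ ^ 6 - 72 * C γ ^ 4 * X ^ 2 +
      4 * C γ ^ 2 * X ^ 4) ?_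
    unfold linePencil Cubic.discr
    simp only [map_mul, map_add, map_pow, map_ofNat]
    ring

end alg

section loc

variable {F : Type} [Field F] [Finite F]

/-- the coefficients of the cubic polynomial -/
noncomputable def cA (α : F) : F[X] := C α ^ 2 - X ^ 2

/-- the coefficients of the cubic polynomial -/
noncomputable def cB (α β a b : F) : F[X] := 2 * (C α * C β - X * (C b - C a * X))

/-- the coefficients of the cubic polynomial -/
noncomputable def cC (β a b : F) : F[X] := C β ^ 2 - (C b - C a * X) ^ 2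

omit [Finite F] in
theorem pencil_eq (α β a b : F) : linePencil α β a b = cA α ^ 2 * cB α β a b ^ 2 -
    4 * cB α β a b ^ 3 - 4 * cA α ^ 3 * cC β a b - 27 * cC β a b ^ 2 +
      18 * cA α * cB α β a b * cC β a b := by
  unfold linePencil Cubic.discr cA cB cC
  ring

omit [Finite F] in
theorem mk_pencil (α β a b : F) (P : MI F) : AdjoinRoot.mk P.1 (linePencil α β a b) =
    disc3 (AdjoinRoot.mk P.1 (cA α)) (AdjoinRoot.mk P.1 (cB α β a b))
      (AdjoinRoot.mk P.1 (cC β a b)) := by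
  rw [pencil_eq]
  unfold disc3
  simp only [map_mul, map_add, map_sub, map_pow, map_ofNat]

/-- there are no triple points -/
theorem no_triple {α β a b : F} (hs : Squarefree (linePencil α β a b)) (P : MI F) (r : RF P) :
    ¬ (AdjoinRoot.mk P.1 (cA α) = -3 * r ∧ AdjoinRoot.mk P.1 (cB α β a b) = 3 * r ^ 2 ∧
      AdjoinRoot.mk P.1 (cC β a b) = - r ^ 3) := by
  rintro ⟨e1, e2, e3⟩
  have hsep : (linePencil α β a b).Separable := PerfectField.separable_iff_squarefree.2 hs
  obtain ⟨u, v, huv⟩ := hsep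
  have h1 : AdjoinRoot.mk P.1 (linePencil α β a b) = 0 := by
    rw [mk_pencil, e1, e2, e3]
    unfold disc3
    ring
  have h2 : AdjoinRoot.mk P.1 (derivative (linePencil α β a b)) = 0 := by
    have h3 : derivative (linePencil α β a b) =
        (2 * cA α * cB α β a b ^ 2 - 12 * cA α ^ 2 * cC β a b + 18 * cB α β a b * cC β a b) *
          derivative (cA α) +
        (2 * cA α ^ 2 * cB α β a b - 12 * cB α β a b ^ 2 + 18 * cA α * cC β a b) *
          derivative (cB α β a b) +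
        (-4 * cA α ^ 3 - 54 * cC β a b + 18 * cA α * cB α β a b) * derivative (cC β a b) := by
      rw [pencil_eq]
      have h4 : ∀ n : ℕ, derivative ((n : F[X])) = 0 := fun n => derivative_natCast
      have h5 : derivative (4 : F[X]) = 0 := h4 4
      have h6 : derivative (27 : F[X]) = 0 := h4 27
      have h7 : derivative (18 : F[X]) = 0 := h4 18
      simp only [derivative_add, derivative_sub, derivative_mul, derivative_pow, h5, h6, h7,
        zero_mul, zero_add]
      simp only [Nat.cast_ofNat, map_ofNat, Nat.add_one_sub_one, pow_one]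
      ring
    rw [h3]
    simp only [map_mul, map_add, map_sub, map_pow, map_ofNat, map_neg, e1, e2, e3]
    ring
  have h3 := congrArg (AdjoinRoot.mk P.1) huv
  rw [map_add, map_mul, map_mul, h1, h2, mul_zero, mul_zero, add_zero, map_one] at h3
  exact zero_ne_one h3

/-- the pencil -/
noncomputable def Gp (α β a b : F) (P : MI F) : (RF P)[X] :=
  X ^ 3 + C (AdjoinRoot.mk P.1 (cA α)) * X ^ 2 + C (AdjoinRoot.mk P.1 (cB α β a b)) * X +
    C (AdjoinRoot.mk P.1 (cC β a b))

theorem EP_Gp (h2 : (2 : F) ≠ 0) {α β a b : F} (hs : Squarefree (linePencil α β a b)) :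
    EP (Gp α β a b) (ZMod 3) = zf F ^ 2 * E3 (linePencil α β a b) := by
  have hfin := fun n => finite_deg_le (F := F) n
  have hchar := charS
  have dZ : ∀ P : MI F, (PowerSeries.X : PowerSeries (ZMod 3)) ^ P.1.natDegree ∣
      (1 - PowerSeries.X ^ P.1.natDegree) - 1 := fun P => by
    rw [sub_right_comm, sub_self, zero_sub]
    exact (dvd_neg).2 dvd_rfl
  have h1 := EP_rel (Gp α β a b) (fun _ => 1)
    (fun P => (1 - PowerSeries.X ^ P.1.natDegree) ^ 2 * w1 (linePencil α β a b) P)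
    (fun P => by rw [sub_self]; exact dvd_zero _) (fun P => by
      unfold Gp
      rw [mul_one, pr_cub (two_RF h2 P) _ _ _ (no_triple hs P), ← mk_pencil, ← chi_eq]
      unfold w1
      rw [map_intCast])
  rw [eulerProd_one, mul_one, eulerProd_mul hfin (fun P => pow_dvd_sub_one (dZ P) 2)
    (fun P => w1_dvd _ P), eulerProd_pow hfin dZ, euler_zf] at h1
  exact h1

open Classical in
/-- the elliptic curve without the points over `a` -/
noncomputable def Ga (α β a : F) (P : MI F) : (RF P)[X] := if P = mi a then 1 else Gq (gE α β) P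

omit [Finite F] in
theorem Gp_ne (α β a b : F) (P : MI F) : Gp α β a b P ≠ 0 := (cub_monic _ _ _).ne_zero

theorem EP_Gp_Ga {α β a b : F} (hb : b ^ 2 ≠ a ^ 3 + (α * a + β) ^ 2) :
    EP (Gp α β a b) (ZMod 3) = EP (Ga α β a) (ZMod 3) := by
  classical
  refine EP_congr _ _ (Gp_ne α β a b) (fun P => ?_) ?_ _
  · unfold Ga
    split_ifs
    · exact one_ne_zero
    · exact Gq_ne _ _
  intro L _ _ _
  set α' := algebraMap F L α with hα'
  set β' := algebraMap F L β with hβ'
  set a' := algebraMap F L a with ha'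
  set b' := algebraMap F L b with hb'
  have hb2 : b' ^ 2 ≠ a' ^ 3 + (α' * a' + β') ^ 2 := by
    intro h
    apply hb
    apply (algebraMap F L).injective
    simp only [map_add, map_pow, map_mul]
    exact h
  refine ⟨fun s x => x ^ 3 + (α' * x + β') ^ 2 - (b' + s * (x - a')) ^ 2 = 0,
    fun x y => x ≠ a' ∧ y ^ 2 - (x ^ 3 + (α' * x + β') ^ 2) = 0, ?_, ?_, ?_⟩
  · intro P s hs x
    have hmk : ∀ h : F[X], sg hs (AdjoinRoot.mk P.1 h) = aeval s h := fun h =>
      AdjoinRoot.lift_mk (i := algebraMap F L) (a := s) (h := hs) (g := h)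
    have : eval₂ (sg hs) x (Gp α β a b P) =
        x ^ 3 + (α' * x + β') ^ 2 - (b' + s * (x - a')) ^ 2 := by
      unfold Gp
      rw [eval₂_add, eval₂_add, eval₂_add, eval₂_mul, eval₂_mul, eval₂_pow, eval₂_pow, eval₂_X,
        eval₂_C, eval₂_C, eval₂_C, hmk, hmk, hmk]
      unfold cA cB cC
      simp only [map_mul, map_sub, map_pow, map_ofNat, aeval_X, aeval_C, ← hα', ← hβ',
        ← ha', ← hb']
      ring
    rw [this]
  · intro P x hx y
    have hg : aeval x (gE α β) = x ^ 3 + (α' * x + β') ^ 2 := by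
      unfold gE
      simp only [map_add, map_pow, map_mul, aeval_X, aeval_C, hα', hβ']
    unfold Ga
    by_cases hP : P = mi a
    · subst hP
      have hxa : x = a' := root_mi hx
      rw [if_pos rfl, eval₂_one]
      simp [hxa]
    · have hxa : x ≠ a' := fun h => hP (eq_mi hx h)
      rw [if_neg hP, eval_Gq hx, hg]
      simp [hxa]
  · refine Finset.card_bij (fun z _ => (z.2, b' + z.1 * (z.2 - a'))) ?_ ?_ ?_
    · rintro ⟨s, x⟩ hz
      simp only [Finset.mem_filter, Finset.mem_univ, true_and] at hz ⊢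
      refine ⟨?_, by linear_combination -hz⟩
      intro hx
      apply hb2
      rw [hx] at hz
      linear_combination -hz
    · rintro ⟨s, x⟩ hz ⟨s', x'⟩ hz' h
      simp only [Finset.mem_filter, Finset.mem_univ, true_and, Prod.mk.injEq] at hz hz' h
      obtain ⟨h4, h5⟩ := h
      subst h4
      have hx : x - a' ≠ 0 := by
        intro hx
        apply hb2
        have hx' : x = a' := sub_eq_zero.1 hx
        rw [hx'] at hz
        linear_combination -hz
      have : s = s' := by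
        apply mul_right_cancel₀ hx
        linear_combination h5
      rw [this]
    · rintro ⟨x, y⟩ hz
      simp only [Finset.mem_filter, Finset.mem_univ, true_and] at hz
      obtain ⟨h4, h5⟩ := hz
      have hx : x - a' ≠ 0 := sub_ne_zero.2 h4
      have h6 : b' + (y - b') / (x - a') * (x - a') = y := by
        rw [div_mul_cancel₀ _ hx]
        ring
      refine ⟨((y - b') / (x - a'), x), ?_, ?_⟩
      · simp only [Finset.mem_filter, Finset.mem_univ, true_and]
        rw [h6]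
        linear_combination -h5
      · simp only [h6]

theorem EP_Ga (h2 : (2 : F) ≠ 0) (α β a : F) :
    EP (Ga α β a) (ZMod 3) * ((1 - PowerSeries.X) *
      (1 - PowerSeries.C ((qc (a ^ 3 + (α * a + β) ^ 2) : ℤ) : ZMod 3) * PowerSeries.X)) =
      zf F * E3 (gE α β) := by
  classical
  have hfin := fun n => finite_deg_le (F := F) n
  set c : ZMod 3 := ((qc (a ^ 3 + (α * a + β) ^ 2) : ℤ) : ZMod 3) with hc
  set ss : PowerSeries (ZMod 3) := (1 - PowerSeries.X) * (1 - PowerSeries.C c * PowerSeries.X)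
    with hss
  have dss : (PowerSeries.X : PowerSeries (ZMod 3)) ^ (mi a).1.natDegree ∣ ss - 1 := by
    rw [mi_deg, pow_one]
    exact ⟨-1 - PowerSeries.C c + PowerSeries.C c * PowerSeries.X, by rw [hss]; ring⟩
  have dZ : ∀ P : MI F, (PowerSeries.X : PowerSeries (ZMod 3)) ^ P.1.natDegree ∣
      (1 - PowerSeries.X ^ P.1.natDegree) - 1 := fun P => by
    rw [sub_right_comm, sub_self, zero_sub]
    exact (dvd_neg).2 dvd_rfl
  have hev : (gE α β).eval a = a ^ 3 + (α * a + β) ^ 2 := by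
    unfold gE
    simp
  have h1 := EP_rel (Ga α β a) (fun P => if P = mi a then ss else 1)
    (fun P => (1 - PowerSeries.X ^ P.1.natDegree) * w1 (gE α β) P)
    (fun P => by
      split_ifs with h
      · rw [h]; exact dss
      · rw [sub_self]; exact dvd_zero _) (fun P => by
      unfold Ga
      by_cases hP : P = mi a
      · rw [if_pos hP, if_pos hP, pr_one, one_mul, hP, mi_deg, pow_one]
        unfold w1
        rw [chi_mi h2, mi_deg, pow_one, hev]
      · rw [if_neg hP, if_neg hP, mul_one, pr_Gq h2])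
  rw [eulerProd_mul hfin dZ (fun P => w1_dvd _ P), euler_zf, euler_single _ dss] at h1
  exact h1

/-- **The genus two curves.** -/
theorem locS_pencil (h2 : (2 : F) ≠ 0) (h3 : (3 : F) ≠ 0) {α β a b : F}
    (hd : (linePencil α β a b).natDegree = 2 * 2 + 1 ∨
      (linePencil α β a b).natDegree = 2 * 2 + 2)
    (hs : Squarefree (linePencil α β a b)) :
    red3 (locS 1 (linePencil α β a b)) * ((1 - PowerSeries.X) * zf F) ^ 2 = 1 := by
  have e1 := EP_Gp h2 hs
  have e2 := EP_Ga h2 α β a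
  rw [← EP_Gp_Ga (pencil_off h2 hd hs), e1] at e2
  have e3 := E3_gE h2 h3 (pencil_smooth h3 hd hs)
  have hinf : cinf (linePencil α β a b) = qc (a ^ 3 + (α * a + β) ^ 2) := by
    rcases hd with h | h
    · rw [cinf_odd (by rw [h]; decide)]
      have h5 : (linePencil α β a b).coeff 6 = 0 := by
        apply coeff_eq_zero_of_natDegree_lt
        rw [h]
        norm_num
      rw [pencil_coeff] at h5
      have h4 : (4 : F) ≠ 0 := by
        have : (4 : F) = 2 * 2 := by norm_num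
        rw [this]
        exact mul_ne_zero h2 h2
      rw [(mul_eq_zero.1 h5).resolve_left h4, qc_zero]
    · have hl : (linePencil α β a b).leadingCoeff = 4 * (a ^ 3 + (α * a + β) ^ 2) := by
        rw [leadingCoeff, h]
        exact pencil_coeff α β a b
      rw [cinf_even (by rw [h]; decide), hl, ← qc_mul_sq (a ^ 3 + (α * a + β) ^ 2) h2]
      congr 1
      ring
  rw [locS_E3, hinf]
  apply mul_left_cancel₀ (zf_ne (F := F))
  linear_combination (1 - PowerSeries.X) * zf F * e2 + zf F * e3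

omit [Finite F] in
theorem gE_natDegree (α β : F) : (gE α β).natDegree = 3 ∧ (gE α β).Monic := by
  have h1 : (gE α β) = X ^ 3 + C (α ^ 2) * X ^ 2 + C (2 * α * β) * X + C (β ^ 2) := by
    unfold gE
    simp only [map_mul, map_pow, map_ofNat]
    ring
  rw [h1]
  exact ⟨cub_deg _ _ _, cub_monic _ _ _⟩

/-- **The elliptic curves.** -/
theorem locS_gE (h2 : (2 : F) ≠ 0) (h3 : (3 : F) ≠ 0) {α β : F}
    (hβ : β * (4 * α ^ 3 - 27 * β) ≠ 0) :
    red3 (locS 1 (gE α β)) * ((1 - PowerSeries.X) * zf F) = 1 := by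
  have hinf : cinf (gE α β) = 0 := cinf_odd (by rw [(gE_natDegree α β).1]; decide)
  rw [locS_E3, hinf, Int.cast_zero, map_zero, zero_mul, sub_zero, mul_one]
  exact E3_gE h2 h3 hβ

omit [Finite F] in
/-- the cubic polynomial is squarefree -/
theorem gE_squarefree {α β : F} (hβ : β * (4 * α ^ 3 - 27 * β) ≠ 0) : Squarefree (gE α β) := by
  have hd : β ^ 3 * (4 * α ^ 3 - 27 * β) ≠ 0 :=
    mul_ne_zero (pow_ne_zero _ (left_ne_zero_of_mul hβ)) (right_ne_zero_of_mul hβ)
  apply Separable.squarefree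
  have hder : derivative (gE α β) = 3 * X ^ 2 + 2 * C α ^ 2 * X + 2 * C α * C β := by
    unfold gE
    simp only [derivative_add, derivative_pow, derivative_mul, derivative_X, derivative_C]
    simp only [Nat.cast_ofNat, map_ofNat, Nat.add_one_sub_one, pow_one]
    ring
  have key : (-(6 * (C α ^ 2) ^ 2 - 18 * (2 * C α * C β)) * X -
      (4 * (C α ^ 2) ^ 3 - 15 * C α ^ 2 * (2 * C α * C β) + 27 * C β ^ 2)) * gE α β +
      ((2 * (C α ^ 2) ^ 2 - 6 * (2 * C α * C β)) * X ^ 2 +
        (2 * (C α ^ 2) ^ 3 - 7 * C α ^ 2 * (2 * C α * C β) + 9 * C β ^ 2) * X +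
        ((C α ^ 2) ^ 2 * (2 * C α * C β) + 3 * C α ^ 2 * C β ^ 2 - 4 * (2 * C α * C β) ^ 2)) *
        derivative (gE α β) = C (β ^ 3 * (4 * α ^ 3 - 27 * β)) := by
    rw [hder]
    unfold gE
    simp only [map_mul, map_sub, map_pow, map_ofNat]
    ring
  refine ⟨C (β ^ 3 * (4 * α ^ 3 - 27 * β))⁻¹ * (-(6 * (C α ^ 2) ^ 2 - 18 * (2 * C α * C β)) * X -
      (4 * (C α ^ 2) ^ 3 - 15 * C α ^ 2 * (2 * C α * C β) + 27 * C β ^ 2)),
      C (β ^ 3 * (4 * α ^ 3 - 27 * β))⁻¹ * ((2 * (C α ^ 2) ^ 2 - 6 * (2 * C α * C β)) * X ^ 2 +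
        (2 * (C α ^ 2) ^ 3 - 7 * C α ^ 2 * (2 * C α * C β) + 9 * C β ^ 2) * X +
        ((C α ^ 2) ^ 2 * (2 * C α * C β) + 3 * C α ^ 2 * C β ^ 2 - 4 * (2 * C α * C β) ^ 2)), ?_⟩
  have hinv : (C (β ^ 3 * (4 * α ^ 3 - 27 * β))⁻¹ : F[X]) * C (β ^ 3 * (4 * α ^ 3 - 27 * β)) = 1 := by
    rw [← C_mul, inv_mul_cancel₀ hd, C_1]
  linear_combination C (β ^ 3 * (4 * α ^ 3 - 27 * β))⁻¹ * key + hinv

end loc

end Pool.Agent.Y711
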