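import Pool.Agent.Y711.Fin
import Pool.Agent.Y711.Tow

/-!
All curves at once.
-/

set_option autoImplicit false
set_option maxHeartbeats 1000000

open Polynomial

namespace Pool.Agent.Y711

open Pool.Agent.TH943.HJ

section sq

variable {F : Type} [Field F]

theorem tor_squarefree [Finite F] (h3 : (3 : F) ≠ 0) {c α β : F}
    (hh : c * β * (4 * α ^ 3 - 27 * (c * β)) ≠ 0) (e : ℕ) : Squarefree (torsionCurve c α β e) := by
  have hcβ : c * β ≠ 0 := left_ne_zero_of_mul hh
  have hc : c ≠ 0 := left_ne_zero_of_mul hcβ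
  have hβ : β ≠ 0 := right_ne_zero_of_mul hcβ
  have h1 : Squarefree (gE α (c * β)) := gE_squarefree hh
  have h2 : Squarefree (torsionCurve c α β 0) := by
    rw [tor_scl hc]
    have hu : IsUnit (C ((c⁻¹) ^ 2) : F[X]) :=
      isUnit_C.2 (pow_ne_zero 2 (inv_ne_zero hc)).isUnit
    rw [squarefree_mul_iff]
    refine ⟨?_, hu.squarefree, ?_⟩
    · exact IsUnit.isRelPrime_left hu
    · intro x hx
      have h5 : (scl c hc).symm x * (scl c hc).symm x ∣ gE α (c * β) := by
        have := map_dvd (scl c hc).symm hx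
        rwa [map_mul, RingEquiv.symm_apply_apply] at this
      have h6 := (h1 _ h5).map (scl c hc)
      rwa [RingEquiv.apply_symm_apply] at h6
  have h4 : (torsionCurve c α β 0).Separable := PerfectField.separable_iff_squarefree.2 h2
  obtain ⟨u, v, huv⟩ := h4
  apply Separable.squarefree
  have h5 : derivative (torsionCurve c α β e) =
      (derivative (torsionCurve c α β 0)).comp (X ^ 3 ^ e) * (C ((3 : F) ^ e) * X ^ (3 ^ e - 1)) := by
    rw [tor_comp c α β e, derivative_comp, derivative_X_pow, mul_comm]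
    congr 2
    push_cast
    rfl
  have h6 : IsCoprime (torsionCurve c α β e) ((derivative (torsionCurve c α β 0)).comp (X ^ 3 ^ e)) := by
    refine ⟨u.comp (X ^ 3 ^ e), v.comp (X ^ 3 ^ e), ?_⟩
    rw [tor_comp c α β e, ← mul_comp, ← mul_comp, ← add_comp, huv, one_comp]
  have h7 : IsCoprime (torsionCurve c α β e) (X : F[X]) := by
    refine IsCoprime.symm ?_
    rw [(irreducible_X (R := F)).coprime_iff_not_dvd, X_dvd_iff, coeff_zero_eq_eval_zero, tor_eval]
    exact pow_ne_zero 2 hβ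
  have h8 : IsUnit (C ((3 : F) ^ e) : F[X]) := isUnit_C.2 (pow_ne_zero e h3).isUnit
  show IsCoprime _ _
  rw [h5]
  refine h6.mul_right (IsCoprime.mul_right ?_ (h7.pow_right))
  exact ⟨0, (h8.unit⁻¹ : _), by rw [zero_mul, zero_add]; exact h8.val_inv_mul⟩

end sq

section good

variable {k : Type} [Field k]

theorem tor_good (h3 : (3 : k) ≠ 0) {c α β m : k[X]}
    (h : ∃ r : ℕ, c * β * (4 * α ^ 3 - 27 * (c * β)) ∣ m ^ r) (e : ℕ) :
    HasGoodReduction ((3 * 3 ^ e - 1) / 2) (torsionCurve c α β e) m := by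
  intro F _ _ φ hφ
  obtain ⟨r, hr⟩ := h
  have h3' : (3 : F) ≠ 0 := by
    have h1 : (3 : F) = (φ.comp C) 3 := by rw [map_ofNat]
    rw [h1]
    exact (_root_.map_ne_zero _).2 h3
  have h4 : φ c * φ β * (4 * φ α ^ 3 - 27 * (φ c * φ β)) ≠ 0 := by
    intro h0
    have h5 : φ (m ^ r) = 0 := by
      obtain ⟨d, hd⟩ := hr
      rw [hd, map_mul]
      have : φ (c * β * (4 * α ^ 3 - 27 * (c * β))) =
          φ c * φ β * (4 * φ α ^ 3 - 27 * (φ c * φ β)) := by
        simp only [map_mul, map_sub, map_pow, map_ofNat]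
      rw [this, h0, zero_mul]
    rw [map_pow] at h5
    exact hφ (eq_zero_of_pow_eq_zero h5)
  have hc : φ c ≠ 0 := left_ne_zero_of_mul (left_ne_zero_of_mul h4)
  rw [tor_map]
  refine ⟨Or.inl ?_, tor_squarefree h3' h4 e⟩
  rw [tor_natDegree hc]
  have hodd : Odd (3 * 3 ^ e) := Odd.mul (by decide) (Odd.pow (by decide))
  obtain ⟨n, hn⟩ := hodd
  omega

end good

variable {k : Type} [Field k] [Finite k]

theorem twists_half (h2 : (2 : k) ≠ 0) {m : k[X]} (hm : m.Monic) (hs : Squarefree m)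
    (Q : ℕ → k[X] → Prop) (hQ : ∀ g D, IsD g m D → ¬ Bad D → Q g D) {δ : ℝ} (hδ : δ < 1 / 2) :
    ∃ N : ℕ, ∀ g ≥ N, δ * (twists g m).ncard ≤
      {D : k[X] | D ∈ twists g m ∧ Q g D}.ncard := by
  classical
  obtain ⟨N, hN⟩ := Pool.Agent.Y784.SV.st_S3 h2 (Pool.Agent.Y153.SV.S1 h2)
    (Pool.Agent.Y784.SV.st_S2 h2) hm hs hδ
  refine ⟨N, fun g hg => ?_⟩
  have h1 := hN g hg
  have h4 : (twists g m).ncard = (DS g m).card := by
    rw [← DS_coe, Set.ncard_coe_finset]
  have h5 : ((DS g m).filter fun D => ¬ Bad D).card ≤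
      {D : k[X] | D ∈ twists g m ∧ Q g D}.ncard := by
    rw [← Set.ncard_coe_finset]
    apply Set.ncard_le_ncard
    · intro D hD
      rw [Finset.mem_coe, Finset.mem_filter, mem_DS] at hD
      exact ⟨IsD_iff.1 hD.1, hQ g D hD.1 hD.2⟩
    · exact ((DS g m).finite_toSet).subset fun D hD => by
        rw [DS_coe]
        exact hD.1
  rw [h4]
  refine h1.trans ?_
  exact_mod_cast h5

/-- all the curves `y ^ 2 = c x ^ (3 N) + (α x ^ N + β) ^ 2` at once -/
theorem towers_bound (h2 : (2 : k) ≠ 0) (h3 : (3 : k) ≠ 0) {m : k[X]} (hm : m.Monic)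
    (hs : Squarefree m) {δ : ℝ} (hδ : δ < 1 / 2) :
    ∃ N : ℕ, ∀ g ≥ N, δ * (twists g m).ncard ≤
      {D : k[X] | D ∈ twists g m ∧ ∀ (c α β : k[X]) (e : ℕ),
        (∃ r : ℕ, c * β * (4 * α ^ 3 - 27 * (c * β)) ∣ m ^ r) →
          ∀ (L : Type) [Field L] [Algebra k[X] L] [Algebra (RatFunc k) L]
            [IsScalarTower k[X] (RatFunc k) L], IsThreeExtension D L →
              ¬ VanishesAtOne (torsionCurve c α β e) D (integralClosure k[X] L)}.ncard := by
  refine twists_half h2 hm hs (fun _ D => ∀ (c α β : k[X]) (e : ℕ),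
        (∃ r : ℕ, c * β * (4 * α ^ 3 - 27 * (c * β)) ∣ m ^ r) →
          ∀ (L : Type) [Field L] [Algebra k[X] L] [Algebra (RatFunc k) L]
            [IsScalarTower k[X] (RatFunc k) L], IsThreeExtension D L →
              ¬ VanishesAtOne (torsionCurve c α β e) D (integralClosure k[X] L)) ?_ hδ
  intro g D hD hB c α β e h
  exact (good_of h2 h3 (tor_uni h2 h3 (tor_good h3 h e)) hD hB).2

end Pool.Agent.Y711
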